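import Mathlib

/-!
# T1: the double star over a rigid clock.  Common definitions.
-/

set_option autoImplicit false

open Finset

namespace Pool.Agent.T1K

/-- digit sum mod 3 of the `n` lowest base-3 digits of `z` -/
def dg : ℕ → ℕ → ZMod 3
  | 0, _ => 0
  | (n + 1), z => ((z / 3 ^ n : ℕ) : ZMod 3) + dg n (z % 3 ^ n)

/-- the integers below `3 ^ n` with digit sum `t` mod 3 -/
def Cl (n : ℕ) (t : ZMod 3) : Finset ℕ := (range (3 ^ n)).filter (fun z => dg n z = t)

/-- the antisymmetric function on `ZMod 3` with `cyc 1 = 1` -/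
def cyc (t : ZMod 3) : ℤ := if t = 1 then 1 else if t = 2 then -1 else 0

/-- generating polynomial of the elementary symmetric functions of `max u z`, `z ∈ T` -/
noncomputable def gp (T : Finset ℕ) (u : ℝ) : Polynomial ℝ :=
  ∏ z ∈ T, (1 + Polynomial.C (max u (z : ℝ)) * Polynomial.X)

/-- tick set of the letters `l` (`R` slots with `3 ^ N` ticks), with the common end tick `M` -/
def TS (N R M : ℕ) (l : ℕ → ZMod 3) : Finset ℕ :=
  (range (R * 3 ^ N)).filter (fun z => dg N (z % 3 ^ N) = l (z / 3 ^ N)) ∪ {M}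

/-- weight of the lower ticks `c z`, `z ∈ T`: the product of the lengths of the intervals
`[max x (c z), y]` -/
noncomputable def Phi (c : ℕ → ℝ) (T : Finset ℕ) (x y : ℝ) : ℝ :=
  ∏ z ∈ T, max 0 (y - max x (c z))

/-- joint (unnormalised) density of the two centres `(x, x')` of a species with the lower ticks
`c z`, `z ∈ T`, and the upper ticks `1 - d z`, `z ∈ S` -/
noncomputable def W (c d : ℕ → ℝ) (T S : Finset ℕ) (x y : ℝ) : ℝ :=
  Phi c T x y * Phi d S (1 - y) (1 - x)

/-- volume of the species -/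
noncomputable def Vol (c d : ℕ → ℝ) (T S : Finset ℕ) : ℝ :=
  ∫ x in (0 : ℝ)..1, ∫ y in (0 : ℝ)..1, W c d T S x y

/-- density of the lower centre `x` -/
noncomputable def dX (c d : ℕ → ℝ) (T S : Finset ℕ) (t : ℝ) : ℝ :=
  ∫ y in (0 : ℝ)..1, W c d T S t y

/-- density of the upper centre `x'` -/
noncomputable def dY (c d : ℕ → ℝ) (T S : Finset ℕ) (t : ℝ) : ℝ :=
  ∫ x in (0 : ℝ)..1, W c d T S x t

open Classical in
/-- density of the leaf with the lower tick `c z`, `z ∈ T` -/
noncomputable def dL (c d : ℕ → ℝ) (T S : Finset ℕ) (z : ℕ) (t : ℝ) : ℝ :=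
  ∫ x in (0 : ℝ)..1, ∫ y in (0 : ℝ)..1,
    if max x (c z) < t ∧ t < y then W c d (T.erase z) S x y else 0

open Classical in
/-- density of the leaf with the upper tick `1 - d z`, `z ∈ S` -/
noncomputable def dR (c d : ℕ → ℝ) (T S : Finset ℕ) (z : ℕ) (t : ℝ) : ℝ :=
  ∫ x in (0 : ℝ)..1, ∫ y in (0 : ℝ)..1,
    if x < t ∧ t < min y (1 - d z) then W c d T (S.erase z) x y else 0

/-- `Nf f g = ∬ f(s) g(t) sgn(t - s)` -/
noncomputable def Nf (f g : ℝ → ℝ) : ℝ :=
  ∫ t in (0 : ℝ)..1, g t * ((∫ s in (0 : ℝ)..t, f s) - ∫ s in t..1, f s)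

/-! ## Constants -/

/-- number of lower (and of upper) leaves of a species with `R` slots -/
def Kn (R : ℕ) : ℕ := R * 3 ^ 10 + 1

/-- index of the end tick -/
def Mn (R : ℕ) : ℕ := R * 3 ^ 11 + 2 * Kn R

/-- position of the first tick -/
noncomputable def an (R : ℕ) : ℝ := 1 / (100 * (Kn R : ℝ))

/-- spacing of the ticks -/
noncomputable def hn (R : ℕ) : ℝ := 1 / ((Kn R : ℝ) * (Mn R : ℝ)) ^ 16

/-- target position of the lower tick `z` (and mirrored position of the upper tick `z`) -/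
noncomputable def tk (R : ℕ) (z : ℕ) : ℝ := an R + hn R * z

/-- lower tick set of the letters `l` -/
def TL (R : ℕ) (l : ℕ → ZMod 3) : Finset ℕ := TS 11 R (Mn R) l

/-- signed number of slots `r ∈ [s, R)` -/
def Gam (R : ℕ) (l l' : ℕ → ZMod 3) (s : ℕ) : ℤ := ∑ r ∈ Ico s R, cyc (l' r - l r)

/-- the hypothesis on a pair of letter sequences (`q` = size of the field of the code) -/
structure Pair (R q : ℕ) (l l' : ℕ → ZMod 3) : Prop where
  hq : 1 ≤ q
  total : 15 * (q : ℤ) ^ 2 ≤ 16 * Gam R l l' 0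
  tail : ∀ s, -(q : ℤ) ^ 2 ≤ 8 * Gam R l l' s

end Pool.Agent.T1K
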