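import Mathlib
import Pool.Agent.T1K.Defs

/-!
# T1: comparison of tick sets, polynomial weights
-/

set_option autoImplicit false

open Finset

namespace Pool.Agent.T1K

/-- `T` and `T'` agree on the slot `s` -/
def SameOn (N s : ℕ) (T T' : Finset ℕ) : Prop :=
  ∀ z, s * 3 ^ N ≤ z → z < (s + 1) * 3 ^ N → (z ∈ T ↔ z ∈ T')

/-- `T` and `T'` are digit classes on the slot `s` -/
def ClsOn (N s : ℕ) (T T' : Finset ℕ) : Prop :=
  ∃ t t' : ZMod 3, ∀ z, z < 3 ^ N →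
    ((s * 3 ^ N + z ∈ T ↔ z ∈ Cl N t) ∧ (s * 3 ^ N + z ∈ T' ↔ z ∈ Cl N t'))

/-- `T` and `T'` are similar: on every slot they agree or are two digit classes -/
structure Sim (N R M : ℕ) (T T' : Finset ℕ) : Prop where
  le : ∀ z ∈ T, z ≤ M
  le' : ∀ z ∈ T', z ≤ M
  RM : R * 3 ^ N ≤ M
  slot : ∀ s < R, SameOn N s T T' ∨ ClsOn N s T T'
  tail : ∀ z, R * 3 ^ N ≤ z → (z ∈ T ↔ z ∈ T')

/-- cut points: `0`, points of slots where `T` and `T'` agree, points of the tail -/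
def Cut (N R : ℕ) (T T' : Finset ℕ) (z : ℕ) : Prop :=
  z = 0 ∨ R * 3 ^ N ≤ z ∨ SameOn N (z / 3 ^ N) T T'

/-- polynomial weight on the coded region: `G (a + h u) = ∑ g_p u^p`, `|g_p| ≤ lam^p` -/
def PW (a h : ℝ) (M : ℕ) (lam : ℝ) (G : ℝ → ℝ) : Prop :=
  ∃ g : Polynomial ℝ, (∀ u : ℝ, 0 ≤ u → u ≤ M → G (a + h * u) = g.eval u) ∧
    ∀ p, |g.coeff p| ≤ lam ^ p

/-- first order profile of the kinks: `∑_{z ∈ T} (z - u)_+` -/
noncomputable def DD (T : Finset ℕ) (u : ℝ) : ℝ := ∑ z ∈ T, max 0 ((z : ℝ) - u)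

/-- `∑_{z ∈ T} ∑_{z' ∈ T'} sgn (z' - z) (z' - z)^q` -/
def US (q : ℕ) (T T' : Finset ℕ) : ℤ :=
  ∑ z ∈ T, ∑ z' ∈ T', ((z' : ℤ) - z).sign * ((z' : ℤ) - z) ^ q

/-- coefficient of the kinks in the density of the lower centre, `K` lower leaves -/
noncomputable def kap (a h : ℝ) (M K : ℕ) (S : Finset ℕ) : ℝ :=
  ∫ y in (a + h * M)..1, (y - a) ^ (K - 1) * Phi (fun z => a + h * z) S (1 - y) (1 - a)

/-- the quadratic kernel form with the lower barrier `al` -/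
noncomputable def Kq (al : ℝ) (f g : ℝ → ℝ) : ℝ :=
  ∫ x in (0 : ℝ)..1, ∫ y in (0 : ℝ)..1,
    f x * g y * ((max y al - max x al) * |max y al - max x al|)

/-- `∬ sgn (t - s)` over `s ∈ [u, X]`, `t ∈ [v, Y]` -/
noncomputable def sK (u X v Y : ℝ) : ℝ :=
  (X - u) * (Y + v - X - u) - (max 0 (v - u)) ^ 2 + (max 0 (v - X)) ^ 2 + (max 0 (X - Y)) ^ 2
    - (max 0 (u - Y)) ^ 2

/-- standing hypotheses on `a, h, K, M` (`eta = 2 h K M`) -/
structure Std (a h eta : ℝ) (K M : ℕ) : Prop where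
  a0 : 0 < a
  h0 : 0 < h
  aK : a * K ≤ 1 / 50
  K9 : 9 ≤ K
  M1 : 1 ≤ M
  etaEq : 2 * h * K * M = eta
  small : eta ≤ 1 / 1000
  hMa : h * M ≤ a / 2

end Pool.Agent.T1K
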