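import Mathlib
import Pool.Agent.T1K.Defs2

/-!
# T1, row R6d, part 0: the sign form, moments of the profiles, reduction to the coded region
-/

set_option autoImplicit false

open Finset

namespace Pool.Agent.T1K

/-! ## The sign form on `[0, m]` -/

/-- the sign form on `[0, m]` -/
noncomputable def Bx (m : ℝ) (f g : ℝ → ℝ) : ℝ :=
  ∫ v in (0 : ℝ)..m, g v * ((∫ u in (0 : ℝ)..v, f u) - ∫ u in v..m, f u)

theorem bx_cont {m : ℝ} {f : ℝ → ℝ} (hf : Continuous f) :
    Continuous fun v => (∫ u in (0 : ℝ)..v, f u) - ∫ u in v..m, f u := by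
  have h1 : Continuous fun v => ∫ u in (0 : ℝ)..v, f u :=
    intervalIntegral.continuous_primitive (fun a b => hf.intervalIntegrable a b) 0
  have h2 : Continuous fun v => ∫ u in v..m, f u := by
    have h3 : (fun v => ∫ u in v..m, f u) = fun v => - ∫ u in m..v, f u :=
      funext fun v => intervalIntegral.integral_symm _ _
    rw [h3]
    exact (intervalIntegral.continuous_primitive (fun a b => hf.intervalIntegrable a b) m).neg
  exact h1.sub h2

theorem Bx_add_right {m : ℝ} {f g g' : ℝ → ℝ} (hf : Continuous f) (hg : Continuous g)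
    (hg' : Continuous g') : Bx m f (fun u => g u + g' u) = Bx m f g + Bx m f g' := by
  unfold Bx
  rw [← intervalIntegral.integral_add]
  · refine intervalIntegral.integral_congr fun v _ => ?_
    simp only
    ring
  · exact (hg.mul (bx_cont hf)).intervalIntegrable _ _
  · exact (hg'.mul (bx_cont hf)).intervalIntegrable _ _

theorem Bx_add_left {m : ℝ} {f f' g : ℝ → ℝ} (hf : Continuous f) (hf' : Continuous f')
    (hg : Continuous g) : Bx m (fun u => f u + f' u) g = Bx m f g + Bx m f' g := by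
  unfold Bx
  rw [← intervalIntegral.integral_add]
  · refine intervalIntegral.integral_congr fun v _ => ?_
    simp only
    rw [intervalIntegral.integral_add (hf.intervalIntegrable _ _) (hf'.intervalIntegrable _ _),
      intervalIntegral.integral_add (hf.intervalIntegrable _ _) (hf'.intervalIntegrable _ _)]
    ring
  · exact (hg.mul (bx_cont hf)).intervalIntegrable _ _
  · exact (hg.mul (bx_cont hf')).intervalIntegrable _ _

theorem Bx_mul_right (m : ℝ) (f g : ℝ → ℝ) (c : ℝ) : Bx m f (fun u => c * g u) = c * Bx m f g := by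
  unfold Bx
  rw [← intervalIntegral.integral_const_mul]
  refine intervalIntegral.integral_congr fun v _ => ?_
  simp only
  ring

theorem Bx_mul_left (m : ℝ) (f g : ℝ → ℝ) (c : ℝ) : Bx m (fun u => c * f u) g = c * Bx m f g := by
  unfold Bx
  rw [← intervalIntegral.integral_const_mul]
  refine intervalIntegral.integral_congr fun v _ => ?_
  simp only
  rw [intervalIntegral.integral_const_mul, intervalIntegral.integral_const_mul]
  ring

theorem Bx_self {m : ℝ} {f : ℝ → ℝ} (hf : Continuous f) : Bx m f f = 0 := by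
  have hd : ∀ v : ℝ, HasDerivAt (fun v => ∫ u in (0 : ℝ)..v, f u) (f v) v := fun v =>
    intervalIntegral.integral_hasDerivAt_right (hf.intervalIntegrable _ _)
      (hf.stronglyMeasurableAtFilter _ _) hf.continuousAt
  set F : ℝ → ℝ := fun v => ∫ u in (0 : ℝ)..v, f u with hF
  have h1 : ∀ v : ℝ, (∫ u in v..m, f u) = F m - F v := fun v => by
    rw [hF]
    simp only
    rw [intervalIntegral.integral_interval_sub_left (hf.intervalIntegrable _ _)
      (hf.intervalIntegrable _ _)]
  have h2 : ∀ v ∈ Set.uIcc 0 m, HasDerivAt (fun v => F v ^ 2 - F v * F m)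
      (f v * (F v - (F m - F v))) v := by
    intro v _
    have h3 := ((hd v).pow 2).sub ((hd v).mul_const (F m))
    refine h3.congr_deriv ?_
    push_cast
    ring
  have h4 : Continuous fun v => f v * (F v - (F m - F v)) := by
    have h5 : Continuous F := intervalIntegral.continuous_primitive
      (fun a b => hf.intervalIntegrable a b) 0
    exact hf.mul (h5.sub (continuous_const.sub h5))
  have h6 := intervalIntegral.integral_eq_sub_of_hasDerivAt h2 (h4.intervalIntegrable _ _)
  have h7 : F 0 = 0 := by simp [hF]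
  unfold Bx
  simp only [h1]
  rw [h6, h7]
  ring

theorem abs_Bx_le {m A C : ℝ} {f g : ℝ → ℝ} (hm : 0 ≤ m)
    (hA : ∀ u, 0 ≤ u → u ≤ m → |f u| ≤ A) (hC : ∀ u, 0 ≤ u → u ≤ m → |g u| ≤ C) :
    |Bx m f g| ≤ A * C * m ^ 2 := by
  have hA0 : 0 ≤ A := (abs_nonneg _).trans (hA 0 le_rfl hm)
  have h1 : ∀ v ∈ Set.uIoc 0 m, ‖g v * ((∫ u in (0 : ℝ)..v, f u) - ∫ u in v..m, f u)‖
      ≤ C * (A * m) := by
    intro v hv
    rw [Set.uIoc_of_le hm] at hv
    rw [norm_mul]
    have hv0 := hv.1.le
    have hv1 := hv.2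
    refine mul_le_mul (hC v hv0 hv1) ?_ (norm_nonneg _) ((abs_nonneg _).trans (hC v hv0 hv1))
    have h2 : ‖∫ u in (0 : ℝ)..v, f u‖ ≤ A * |v - 0| := by
      refine intervalIntegral.norm_integral_le_of_norm_le_const fun u hu => ?_
      rw [Set.uIoc_of_le hv0] at hu
      exact hA u hu.1.le (hu.2.trans hv1)
    have h3 : ‖∫ u in v..m, f u‖ ≤ A * |m - v| := by
      refine intervalIntegral.norm_integral_le_of_norm_le_const fun u hu => ?_
      rw [Set.uIoc_of_le hv1] at hu
      exact hA u (hv0.trans hu.1.le) hu.2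
    rw [abs_of_nonneg (by linarith)] at h2 h3
    calc _ ≤ ‖∫ u in (0 : ℝ)..v, f u‖ + ‖∫ u in v..m, f u‖ := norm_sub_le _ _
      _ ≤ A * (v - 0) + A * (m - v) := add_le_add h2 h3
      _ = A * m := by ring
  have h4 := intervalIntegral.norm_integral_le_of_norm_le_const h1
  rw [sub_zero, abs_of_nonneg hm] at h4
  unfold Bx
  calc _ ≤ C * (A * m) * m := h4
    _ = _ := by ring

/-! ## Moments of the profile -/

theorem DD_cont (T : Finset ℕ) : Continuous (DD T) := by
  unfold DD
  refine continuous_finsetSum _ fun z _ => ?_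
  exact continuous_const.max (continuous_const.sub continuous_id)

theorem DD_nonneg (T : Finset ℕ) (u : ℝ) : 0 ≤ DD T u :=
  Finset.sum_nonneg fun _ _ => le_max_left _ _

theorem DD_le {T : Finset ℕ} {M K : ℕ} (hM : ∀ z ∈ T, z ≤ M) (hK : T.card ≤ K) {u : ℝ}
    (hu : 0 ≤ u) : DD T u ≤ K * M := by
  have h1 : DD T u ≤ ∑ _z ∈ T, (M : ℝ) := by
    refine Finset.sum_le_sum fun z hz => ?_
    have h2 : (z : ℝ) ≤ M := by exact_mod_cast hM z hz
    have h3 : (0 : ℝ) ≤ M := Nat.cast_nonneg M
    exact max_le h3 (by linarith)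
  rw [Finset.sum_const, nsmul_eq_mul] at h1
  have h4 : (T.card : ℝ) ≤ K := by exact_mod_cast hK
  have h3 : (0 : ℝ) ≤ M := Nat.cast_nonneg M
  nlinarith

theorem mom_one {z M : ℕ} (hz : z ≤ M) (j : ℕ) :
    ∫ v in (0 : ℝ)..M, max 0 ((z : ℝ) - v) * v ^ j = (z : ℝ) ^ (j + 2) / ((j + 1) * (j + 2)) := by
  have hc : Continuous fun v : ℝ => max 0 ((z : ℝ) - v) * v ^ j :=
    (continuous_const.max (continuous_const.sub continuous_id)).mul (continuous_pow j)
  have hzM : (z : ℝ) ≤ M := by exact_mod_cast hz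
  have hz0 : (0 : ℝ) ≤ z := Nat.cast_nonneg z
  rw [← intervalIntegral.integral_add_adjacent_intervals (b := (z : ℝ))
    (hc.intervalIntegrable _ _) (hc.intervalIntegrable _ _)]
  have h1 : ∫ v in (z : ℝ)..M, max 0 ((z : ℝ) - v) * v ^ j = 0 := by
    rw [intervalIntegral.integral_congr (g := fun _ => (0 : ℝ))]
    · simp
    · intro v hv
      rw [Set.uIcc_of_le hzM] at hv
      have h3 : max 0 ((z : ℝ) - v) = 0 := max_eq_left (by linarith [hv.1])
      simp only [h3, zero_mul]
  have h2 : ∫ v in (0 : ℝ)..z, max 0 ((z : ℝ) - v) * v ^ j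
      = ∫ v in (0 : ℝ)..z, ((z : ℝ) * v ^ j - v ^ (j + 1)) := by
    refine intervalIntegral.integral_congr fun v hv => ?_
    rw [Set.uIcc_of_le hz0] at hv
    have h3 : max 0 ((z : ℝ) - v) = (z : ℝ) - v := max_eq_right (by linarith [hv.2])
    simp only [h3]
    ring
  rw [h1, h2, intervalIntegral.integral_sub, intervalIntegral.integral_const_mul, integral_pow,
    integral_pow]
  · have hj1 : ((j : ℝ) + 1) ≠ 0 := by positivity
    have hj2 : ((j : ℝ) + 2) ≠ 0 := by positivity
    push_cast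
    rw [zero_pow (by omega), zero_pow (by omega)]
    have hj3 : ((j : ℝ) + 1 + 1) ≠ 0 := by positivity
    field_simp
    ring
  · exact ((continuous_const.mul (continuous_pow j))).intervalIntegrable _ _
  · exact (continuous_pow (j + 1)).intervalIntegrable _ _

theorem mom_DD {T : Finset ℕ} {M : ℕ} (hM : ∀ z ∈ T, z ≤ M) (j : ℕ) :
    ∫ v in (0 : ℝ)..M, DD T v * v ^ j
      = (∑ z ∈ T, (z : ℝ) ^ (j + 2)) / ((j + 1) * (j + 2)) := by
  unfold DD
  simp only [Finset.sum_mul]
  rw [intervalIntegral.integral_finsetSum, Finset.sum_div]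
  · exact Finset.sum_congr rfl fun z hz => mom_one (hM z hz) j
  · intro z _
    exact ((continuous_const.max (continuous_const.sub continuous_id)).mul
      (continuous_pow j)).intervalIntegrable _ _

/-- a linear function against the difference of two profiles with equal power sums -/
theorem Bx_lin {T T' : Finset ℕ} {M : ℕ} (hM : ∀ z ∈ T, z ≤ M) (hM' : ∀ z ∈ T', z ≤ M)
    (hp : ∀ i ≤ 4, ∑ z ∈ T, (z : ℤ) ^ i = ∑ z ∈ T', (z : ℤ) ^ i) (r : ℝ) :
    Bx M (fun u => r * u) (DD T') = Bx M (fun u => r * u) (DD T) := by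
  have h1 : ∀ T : Finset ℕ, (∀ z ∈ T, z ≤ M) → Bx M (fun u => r * u) (DD T)
      = r * (∫ v in (0 : ℝ)..M, DD T v * v ^ 2) - r * (M : ℝ) ^ 2 / 2 *
        ∫ v in (0 : ℝ)..M, DD T v * v ^ 0 := by
    intro T _
    unfold Bx
    rw [← intervalIntegral.integral_const_mul, ← intervalIntegral.integral_const_mul,
      ← intervalIntegral.integral_sub]
    · refine intervalIntegral.integral_congr fun v _ => ?_
      simp only
      rw [intervalIntegral.integral_const_mul, intervalIntegral.integral_const_mul, integral_id,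
        integral_id]
      ring
    · exact (continuous_const.mul ((DD_cont T).mul (continuous_pow 2))).intervalIntegrable _ _
    · exact (continuous_const.mul ((DD_cont T).mul (continuous_pow 0))).intervalIntegrable _ _
  have hpr : ∀ i ≤ 4, ∑ z ∈ T, (z : ℝ) ^ i = ∑ z ∈ T', (z : ℝ) ^ i := by
    intro i hi
    exact_mod_cast hp i hi
  rw [h1 T hM, h1 T' hM', mom_DD hM, mom_DD hM', mom_DD hM, mom_DD hM', hpr _ (by norm_num),
    hpr _ (by norm_num)]

theorem Bx_const {m r : ℝ} {e : ℝ → ℝ} (he : Continuous e) :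
    Bx m (fun _ => r) e
      = r * (2 * (∫ v in (0 : ℝ)..m, e v * v) - m * ∫ v in (0 : ℝ)..m, e v) := by
  unfold Bx
  have h1 : IntervalIntegrable (fun v => r * (2 * (e v * v))) MeasureTheory.volume 0 m :=
    (continuous_const.mul (continuous_const.mul (he.mul continuous_id))).intervalIntegrable _ _
  have h2 : IntervalIntegrable (fun v => r * (m * e v)) MeasureTheory.volume 0 m :=
    (continuous_const.mul (continuous_const.mul he)).intervalIntegrable _ _
  have h3 : r * (2 * (∫ v in (0 : ℝ)..m, e v * v) - m * ∫ v in (0 : ℝ)..m, e v)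
      = ∫ v in (0 : ℝ)..m, (r * (2 * (e v * v)) - r * (m * e v)) := by
    rw [intervalIntegral.integral_sub h1 h2]
    simp only [intervalIntegral.integral_const_mul]
    ring
  rw [h3]
  refine intervalIntegral.integral_congr fun v _ => ?_
  simp only [intervalIntegral.integral_const, smul_eq_mul]
  ring

/-- the sign form of two functions with the same affine part and the profiles of `T`, `T'` -/
theorem Bx_main {M K : ℕ} {T T' : Finset ℕ} (hM : ∀ z ∈ T, z ≤ M) (hM' : ∀ z ∈ T', z ≤ M)
    (hTK : T.card ≤ K) (hTK' : T'.card ≤ K)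
    (hp : ∀ i ≤ 4, ∑ z ∈ T, (z : ℤ) ^ i = ∑ z ∈ T', (z : ℤ) ^ i)
    {h k r0 r1 eta : ℝ} (h0 : 0 < h) (hk0 : 0 ≤ k) (hk1 : k ≤ 1) (hr1 : |r1| ≤ 2 * h * K)
    (heta : 2 * h * K * M = eta) (small : eta ≤ 1 / 1000)
    {f g : ℝ → ℝ} (hf : Continuous f) (hg : Continuous g)
    (hE : ∀ u : ℝ, 0 ≤ u → u ≤ M → |f u - (r0 + r1 * u - k * h * DD T u)| ≤ 100 * eta ^ 2)
    (hE' : ∀ u : ℝ, 0 ≤ u → u ≤ M → |g u - (r0 + r1 * u - k * h * DD T' u)| ≤ 100 * eta ^ 2) :
    |h ^ 2 * Bx M f (fun u => g u - f u)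
      - h ^ 2 * (r0 * (2 * (∫ v in (0 : ℝ)..M, (g v - f v) * v)
          - M * ∫ v in (0 : ℝ)..M, (g v - f v)))
      - k ^ 2 * h ^ 4 * Bx M (DD T) (DD T')| ≤ 370 * eta ^ 3 * (h * M) ^ 2 := by
  have hM0 : (0 : ℝ) ≤ M := Nat.cast_nonneg M
  have hK0 : (0 : ℝ) ≤ K := Nat.cast_nonneg K
  have heta0 : 0 ≤ eta := by rw [← heta]; positivity
  set E : ℝ → ℝ := fun u => f u - (r0 + r1 * u - k * h * DD T u) with hEdef
  set E' : ℝ → ℝ := fun u => g u - (r0 + r1 * u - k * h * DD T' u) with hEdef'
  have cD := DD_cont T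
  have cD' := DD_cont T'
  have cl : Continuous fun u : ℝ => r1 * u := continuous_const.mul continuous_id
  have cE : Continuous E :=
    hf.sub ((continuous_const.add cl).sub ((continuous_const.mul cD)))
  have cE' : Continuous E' :=
    hg.sub ((continuous_const.add cl).sub ((continuous_const.mul cD')))
  have ce : Continuous fun u => g u - f u := hg.sub hf
  have cEE : Continuous fun u => E' u - E u := cE'.sub cE
  -- decomposition of `f`
  have d1 : Bx M f (fun u => g u - f u) = Bx M (fun _ => r0) (fun u => g u - f u)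
      + Bx M (fun u => r1 * u) (fun u => g u - f u)
      + -(k * h) * Bx M (DD T) (fun u => g u - f u) + Bx M E (fun u => g u - f u) := by
    have e1 : f = fun u => ((r0 + r1 * u) + -(k * h) * DD T u) + E u := by
      funext u
      simp only [hEdef]
      ring
    have c1 : Continuous fun u : ℝ => -(k * h) * DD T u := continuous_const.mul cD
    have e3 := congrArg (fun F => Bx M F (fun u => g u - f u)) e1
    refine e3.trans ?_
    rw [Bx_add_left (f := fun u => (r0 + r1 * u) + -(k * h) * DD T u) (f' := E)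
      ((continuous_const.add cl).add c1) cE ce,
      Bx_add_left (f := fun u => r0 + r1 * u) (f' := fun u => -(k * h) * DD T u)
      (continuous_const.add cl) c1 ce,
      Bx_add_left (f := fun _ => r0) (f' := fun u => r1 * u) continuous_const cl ce,
      Bx_mul_left M (DD T) (fun u => g u - f u) (-(k * h))]
  -- decomposition of the difference
  have d2 : ∀ F : ℝ → ℝ, Continuous F → Bx M F (fun u => g u - f u)
      = -(k * h) * Bx M F (DD T') + (k * h) * Bx M F (DD T) + Bx M F (fun u => E' u - E u) := by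
    intro F hF
    have e1 : (fun u => g u - f u)
        = fun u => (-(k * h) * DD T' u + (k * h) * DD T u) + (E' u - E u) := by
      funext u
      simp only [hEdef, hEdef']
      ring
    have c1 : Continuous fun u : ℝ => -(k * h) * DD T' u := continuous_const.mul cD'
    have c2 : Continuous fun u : ℝ => (k * h) * DD T u := continuous_const.mul cD
    rw [e1, Bx_add_right (g := fun u => -(k * h) * DD T' u + (k * h) * DD T u)
      (g' := fun u => E' u - E u) hF (c1.add c2) cEE,
      Bx_add_right (g := fun u => -(k * h) * DD T' u) (g' := fun u => (k * h) * DD T u) hF c1 c2,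
      Bx_mul_right, Bx_mul_right]
  have d3 := d2 (fun u => r1 * u) cl
  rw [Bx_lin hM hM' hp r1] at d3
  have d4 := d2 (DD T) cD
  rw [Bx_self cD] at d4
  rw [d1, Bx_const ce, d3, d4]
  -- bounds
  have bE : ∀ u : ℝ, 0 ≤ u → u ≤ M → |E u| ≤ 100 * eta ^ 2 := hE
  have bEE : ∀ u : ℝ, 0 ≤ u → u ≤ M → |E' u - E u| ≤ 200 * eta ^ 2 := by
    intro u hu0 hu1
    have h1 := hE u hu0 hu1
    have h2 := hE' u hu0 hu1
    calc |E' u - E u| ≤ |E' u| + |E u| := abs_sub _ _
      _ ≤ 200 * eta ^ 2 := by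
        simp only [hEdef, hEdef']
        linarith
  have bl : ∀ u : ℝ, 0 ≤ u → u ≤ M → |r1 * u| ≤ eta := by
    intro u hu0 hu1
    rw [abs_mul, abs_of_nonneg hu0]
    calc |r1| * u ≤ (2 * h * K) * M := mul_le_mul hr1 hu1 hu0 (by positivity)
      _ = eta := heta
  have bD : ∀ u : ℝ, 0 ≤ u → u ≤ M → |DD T u| ≤ K * M := by
    intro u hu0 _
    rw [abs_of_nonneg (DD_nonneg T u)]
    exact DD_le hM hTK hu0
  have be : ∀ u : ℝ, 0 ≤ u → u ≤ M → |g u - f u| ≤ 7 / 10 * eta := by
    intro u hu0 hu1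
    have e1 : g u - f u = -(k * h) * (DD T' u - DD T u) + (E' u - E u) := by
      simp only [hEdef, hEdef']
      ring
    have h1 : |DD T' u - DD T u| ≤ K * M := by
      rw [abs_le]
      have := DD_nonneg T u
      have := DD_nonneg T' u
      have := DD_le hM hTK hu0
      have := DD_le hM' hTK' hu0
      constructor <;> linarith
    rw [e1]
    calc |-(k * h) * (DD T' u - DD T u) + (E' u - E u)|
        ≤ |-(k * h) * (DD T' u - DD T u)| + |E' u - E u| := abs_add_le _ _
      _ ≤ h * (K * M) + 200 * eta ^ 2 := by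
        refine add_le_add ?_ (bEE u hu0 hu1)
        rw [abs_mul, abs_neg, abs_of_nonneg (by positivity)]
        refine mul_le_mul ?_ h1 (abs_nonneg _) h0.le
        nlinarith
      _ ≤ 7 / 10 * eta := by
        have : h * (K * M) = eta / 2 := by rw [← heta]; ring
        nlinarith
  have b1 := abs_Bx_le (g := fun u => E' u - E u) hM0 bl bEE
  have b2 := abs_Bx_le (g := fun u => E' u - E u) hM0 bD bEE
  have b3 := abs_Bx_le (g := fun u => g u - f u) hM0 bE be
  set B1 := Bx M (fun u => r1 * u) (fun u => E' u - E u)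
  set B2 := Bx M (DD T) (fun u => E' u - E u)
  set B3 := Bx M E (fun u => g u - f u)
  set J := r0 * (2 * (∫ v in (0 : ℝ)..M, (g v - f v) * v) - M * ∫ v in (0 : ℝ)..M, (g v - f v))
  set BD := Bx M (DD T) (DD T')
  set BL := Bx M (fun u => r1 * u) (DD T)
  have e2 : h ^ 2 * (J + (-(k * h) * BL + k * h * BL + B1)
      + -(k * h) * (-(k * h) * BD + k * h * 0 + B2) + B3) - h ^ 2 * J - k ^ 2 * h ^ 4 * BD
      = h ^ 2 * B1 - h ^ 2 * (k * h) * B2 + h ^ 2 * B3 := by ring
  rw [e2]
  have c1 : |h ^ 2 * B1| ≤ 200 * eta ^ 3 * (h * M) ^ 2 := by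
    rw [abs_mul, abs_of_nonneg (by positivity)]
    calc h ^ 2 * |B1| ≤ h ^ 2 * (eta * (200 * eta ^ 2) * (M : ℝ) ^ 2) :=
          mul_le_mul_of_nonneg_left b1 (by positivity)
      _ = _ := by ring
  have c2 : |h ^ 2 * (k * h) * B2| ≤ 100 * eta ^ 3 * (h * M) ^ 2 := by
    rw [abs_mul, abs_of_nonneg (by positivity)]
    calc h ^ 2 * (k * h) * |B2| ≤ h ^ 2 * (1 * h) * (K * M * (200 * eta ^ 2) * (M : ℝ) ^ 2) := by
          refine mul_le_mul ?_ b2 (abs_nonneg _) (by positivity)
          exact mul_le_mul_of_nonneg_left (mul_le_mul_of_nonneg_right hk1 h0.le) (by positivity)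
      _ = 100 * (2 * h * K * M) * eta ^ 2 * (h * M) ^ 2 := by ring
      _ = _ := by rw [heta]; ring
  have c3 : |h ^ 2 * B3| ≤ 70 * eta ^ 3 * (h * M) ^ 2 := by
    rw [abs_mul, abs_of_nonneg (by positivity)]
    calc h ^ 2 * |B3| ≤ h ^ 2 * (100 * eta ^ 2 * (7 / 10 * eta) * (M : ℝ) ^ 2) :=
          mul_le_mul_of_nonneg_left b3 (by positivity)
      _ = _ := by ring
  calc |h ^ 2 * B1 - h ^ 2 * (k * h) * B2 + h ^ 2 * B3|
      ≤ |h ^ 2 * B1 - h ^ 2 * (k * h) * B2| + |h ^ 2 * B3| := abs_add_le _ _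
    _ ≤ (|h ^ 2 * B1| + |h ^ 2 * (k * h) * B2|) + |h ^ 2 * B3| := by
      gcongr
      exact abs_sub _ _
    _ ≤ (200 * eta ^ 3 * (h * M) ^ 2 + 100 * eta ^ 3 * (h * M) ^ 2)
        + 70 * eta ^ 3 * (h * M) ^ 2 := by gcongr
    _ = _ := by ring

/-! ## The density of the lower centre -/

theorem kx_cont (c d : ℕ → ℝ) (T S : Finset ℕ) : Continuous (dX c d T S) := by
  have hPhi : ∀ (c : ℕ → ℝ) (T : Finset ℕ), Continuous fun p : ℝ × ℝ => Phi c T p.1 p.2 := by
    intro c T
    unfold Phi
    refine continuous_finsetProd _ fun z _ => ?_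
    exact continuous_const.max (continuous_snd.sub (continuous_fst.max continuous_const))
  have hW : Continuous fun p : ℝ × ℝ => W c d T S p.1 p.2 := by
    unfold W
    exact (hPhi c T).mul ((hPhi d S).comp
      ((continuous_const.sub continuous_snd).prodMk (continuous_const.sub continuous_fst)))
  unfold dX
  exact intervalIntegral.continuous_parametric_intervalIntegral_of_continuous'
    (f := fun t y => W c d T S t y) hW 0 1

theorem kx_bd (c d : ℕ → ℝ) (T S : Finset ℕ) {t : ℝ} (ht0 : 0 ≤ t) : |dX c d T S t| ≤ 1 := by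
  have hP : ∀ (c : ℕ → ℝ) (T : Finset ℕ) {x y : ℝ}, y - x ≤ 1 → 0 ≤ Phi c T x y ∧
      Phi c T x y ≤ 1 := by
    intro c T x y hxy
    refine ⟨Finset.prod_nonneg fun _ _ => le_max_left _ _, ?_⟩
    refine Finset.prod_le_one (fun _ _ => le_max_left _ _) fun z _ => ?_
    refine max_le zero_le_one ?_
    have := le_max_left x (c z)
    linarith
  have h1 : ∀ y ∈ Set.uIoc (0 : ℝ) 1, ‖W c d T S t y‖ ≤ 1 := by
    intro y hy
    rw [Set.uIoc_of_le zero_le_one] at hy
    obtain ⟨h2, h3⟩ := hP c T (x := t) (y := y) (by linarith [hy.2])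
    obtain ⟨h4, h5⟩ := hP d S (x := 1 - y) (y := 1 - t) (by linarith [hy.2])
    rw [W, Real.norm_eq_abs, abs_of_nonneg (mul_nonneg h2 h4)]
    exact mul_le_one₀ h3 h4 h5
  have h6 := intervalIntegral.norm_integral_le_of_norm_le_const h1
  rw [sub_zero, abs_one, mul_one] at h6
  exact h6

/-! ## Reduction to the coded region -/

theorem kx_cov (f : ℝ → ℝ) (a h u v : ℝ) :
    ∫ x in (a + h * u)..(a + h * v), f x = h * ∫ y in u..v, f (a + h * y) :=
  (intervalIntegral.mul_integral_comp_add_mul h a).symm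

theorem Nf_split {w w' : ℝ → ℝ} (hw : Continuous w) (hw' : Continuous w') {a h m X Y : ℝ}
    (a0 : 0 ≤ a) (hm : 0 ≤ m) (h0 : 0 ≤ h) (hb : a + h * m ≤ 1)
    (bw : ∀ t, 0 ≤ t → t ≤ 1 → |w t| ≤ 1)
    (out : ∀ t, 0 ≤ t → t ≤ 1 → (t ≤ a ∨ a + h * m ≤ t) → |w t - w' t| ≤ X)
    (cut : |∫ x in a..(a + h * m), (w x - w' x)| ≤ Y) :
    |Nf w w' - h ^ 2 * Bx m (fun u => w (a + h * u)) (fun u => w' (a + h * u) - w (a + h * u))|
      ≤ X + Y := by
  have hX : 0 ≤ X := (abs_nonneg _).trans (out 0 le_rfl zero_le_one (Or.inl a0))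
  have hab : a ≤ a + h * m := by nlinarith [mul_nonneg h0 hm]
  set b := a + h * m with hbdef
  have ce : Continuous fun t => w' t - w t := hw'.sub hw
  set F : ℝ → ℝ := fun t => (∫ s in (0 : ℝ)..t, w s) - ∫ s in t..1, w s with hF
  have cF : Continuous F := bx_cont (m := 1) hw
  have bI : ∀ p q : ℝ, 0 ≤ p → p ≤ q → q ≤ 1 → |∫ s in p..q, w s| ≤ q - p := by
    intro p q hp hpq hq
    have h1 := intervalIntegral.norm_integral_le_of_norm_le_const (a := p) (b := q) (C := 1)
      (f := w) fun s hs => by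
        rw [Set.uIoc_of_le hpq] at hs
        exact bw s (hp.trans hs.1.le) (hs.2.trans hq)
    rw [one_mul, abs_of_nonneg (by linarith)] at h1
    exact h1
  have bF : ∀ t, 0 ≤ t → t ≤ 1 → |F t| ≤ 1 := by
    intro t ht0 ht1
    calc |F t| ≤ |∫ s in (0 : ℝ)..t, w s| + |∫ s in t..1, w s| := abs_sub _ _
      _ ≤ (t - 0) + (1 - t) := add_le_add (bI 0 t le_rfl ht0 ht1) (bI t 1 ht0 ht1 le_rfl)
      _ = 1 := by ring
  have e1 : Nf w w' = ∫ t in (0 : ℝ)..1, (w' t - w t) * F t := by
    have h1 : Nf w w' = Bx 1 w w' := rfl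
    have h2 : w' = fun t => (w' t - w t) + w t := by
      funext t
      ring
    have h3 := congrArg (fun g => Bx 1 w g) h2
    rw [h1]
    refine h3.trans ?_
    rw [Bx_add_right (g := fun t => w' t - w t) (g' := fun t => w t) hw ce hw]
    have h4 : Bx 1 w (fun t => w t) = 0 := Bx_self hw
    rw [h4, add_zero]
    rfl
  have cI : ∀ p q : ℝ, IntervalIntegrable (fun t => (w' t - w t) * F t)
      MeasureTheory.volume p q := fun p q => (ce.mul cF).intervalIntegrable p q
  have e2 : (∫ t in (0 : ℝ)..1, (w' t - w t) * F t) = (∫ t in (0 : ℝ)..a, (w' t - w t) * F t)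
      + (∫ t in a..b, (w' t - w t) * F t) + ∫ t in b..1, (w' t - w t) * F t := by
    rw [intervalIntegral.integral_add_adjacent_intervals (cI _ _) (cI _ _),
      intervalIntegral.integral_add_adjacent_intervals (cI _ _) (cI _ _)]
  have o1 : |∫ t in (0 : ℝ)..a, (w' t - w t) * F t| ≤ X * a := by
    have h1 := intervalIntegral.norm_integral_le_of_norm_le_const (a := 0) (b := a) (C := X)
      (f := fun t => (w' t - w t) * F t) fun t ht => by
        rw [Set.uIoc_of_le a0] at ht
        have ht1 : t ≤ 1 := by linarith [ht.2]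
        rw [norm_mul]
        calc ‖w' t - w t‖ * ‖F t‖ ≤ X * 1 := by
              refine mul_le_mul ?_ (bF t ht.1.le ht1) (norm_nonneg _) hX
              rw [Real.norm_eq_abs, abs_sub_comm]
              exact out t ht.1.le ht1 (Or.inl ht.2)
          _ = X := mul_one X
    rwa [sub_zero, abs_of_nonneg a0] at h1
  have o3 : |∫ t in b..1, (w' t - w t) * F t| ≤ X * (1 - b) := by
    have h1 := intervalIntegral.norm_integral_le_of_norm_le_const (a := b) (b := 1) (C := X)
      (f := fun t => (w' t - w t) * F t) fun t ht => by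
        rw [Set.uIoc_of_le hb] at ht
        have ht0 : 0 ≤ t := by linarith [ht.1]
        rw [norm_mul]
        calc ‖w' t - w t‖ * ‖F t‖ ≤ X * 1 := by
              refine mul_le_mul ?_ (bF t ht0 ht.2) (norm_nonneg _) hX
              rw [Real.norm_eq_abs, abs_sub_comm]
              exact out t ht0 ht.2 (Or.inr ht.1.le)
          _ = X := mul_one X
    rwa [abs_of_nonneg (by linarith : (0 : ℝ) ≤ 1 - b)] at h1
  -- the coded region
  set C : ℝ := (∫ s in (0 : ℝ)..a, w s) - ∫ s in b..1, w s with hC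
  have bC : |C| ≤ 1 := by
    calc |C| ≤ |∫ s in (0 : ℝ)..a, w s| + |∫ s in b..1, w s| := abs_sub _ _
      _ ≤ (a - 0) + (1 - b) := add_le_add (bI 0 a le_rfl a0 (by linarith))
          (bI b 1 (by linarith) hb le_rfl)
      _ ≤ 1 := by linarith
  have e3 : ∀ t, F t = C + ((∫ s in a..t, w s) - ∫ s in t..b, w s) := by
    intro t
    have h1 : (∫ s in (0 : ℝ)..t, w s) = (∫ s in (0 : ℝ)..a, w s) + ∫ s in a..t, w s :=
      (intervalIntegral.integral_add_adjacent_intervals (hw.intervalIntegrable _ _)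
        (hw.intervalIntegrable _ _)).symm
    have h2 : (∫ s in t..1, w s) = (∫ s in t..b, w s) + ∫ s in b..1, w s :=
      (intervalIntegral.integral_add_adjacent_intervals (hw.intervalIntegrable _ _)
        (hw.intervalIntegrable _ _)).symm
    simp only [hF, hC]
    rw [h1, h2]
    ring
  have cG : Continuous fun t => (∫ s in a..t, w s) - ∫ s in t..b, w s := by
    have h1 : (fun t => (∫ s in a..t, w s) - ∫ s in t..b, w s) = fun t => F t - C := by
      funext t
      rw [e3 t]
      ring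
    rw [h1]
    exact cF.sub continuous_const
  have e4 : (∫ t in a..b, (w' t - w t) * F t) = C * (∫ t in a..b, (w' t - w t))
      + ∫ t in a..b, (w' t - w t) * ((∫ s in a..t, w s) - ∫ s in t..b, w s) := by
    rw [← intervalIntegral.integral_const_mul, ← intervalIntegral.integral_add]
    · refine intervalIntegral.integral_congr fun t _ => ?_
      rw [e3 t]
      ring
    · exact (continuous_const.mul ce).intervalIntegrable _ _
    · exact (ce.mul cG).intervalIntegrable _ _
  have e5 : (∫ t in a..b, (w' t - w t) * ((∫ s in a..t, w s) - ∫ s in t..b, w s))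
      = h ^ 2 * Bx m (fun u => w (a + h * u)) (fun u => w' (a + h * u) - w (a + h * u)) := by
    have h1 := kx_cov (fun t => (w' t - w t) * ((∫ s in a..t, w s) - ∫ s in t..b, w s)) a h 0 m
    rw [mul_zero, add_zero, ← hbdef] at h1
    rw [h1]
    unfold Bx
    rw [pow_two, mul_assoc]
    congr 1
    rw [← intervalIntegral.integral_const_mul]
    refine intervalIntegral.integral_congr fun v _ => ?_
    simp only
    have h2 := kx_cov w a h 0 v
    have h3 := kx_cov w a h v m
    rw [mul_zero, add_zero] at h2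
    rw [← hbdef] at h3
    rw [h2, h3]
    ring
  have o2 : |C * (∫ t in a..b, (w' t - w t))| ≤ Y := by
    have h1 : (∫ t in a..b, (w' t - w t)) = - ∫ t in a..b, (w t - w' t) := by
      rw [← intervalIntegral.integral_neg]
      refine intervalIntegral.integral_congr fun t _ => ?_
      ring
    rw [h1, abs_mul, abs_neg]
    calc |C| * |∫ t in a..b, (w t - w' t)| ≤ 1 * Y :=
          mul_le_mul bC cut (abs_nonneg _) zero_le_one
      _ = Y := one_mul Y
  rw [e1, e2, e4, e5]
  set I1 := ∫ t in (0 : ℝ)..a, (w' t - w t) * F t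
  set I3 := ∫ t in b..1, (w' t - w t) * F t
  set I2 := C * (∫ t in a..b, (w' t - w t))
  set I4 := h ^ 2 * Bx m (fun u => w (a + h * u)) (fun u => w' (a + h * u) - w (a + h * u))
  have e6 : I1 + (I2 + I4) + I3 - I4 = I1 + I2 + I3 := by ring
  rw [e6]
  calc |I1 + I2 + I3| ≤ |I1 + I2| + |I3| := abs_add_le _ _
    _ ≤ (|I1| + |I2|) + |I3| := by
      gcongr
      exact abs_add_le _ _
    _ ≤ (X * a + Y) + X * (1 - b) := add_le_add (add_le_add o1 o2) o3
    _ ≤ X + Y := by nlinarith

/-! ## The sign kernel -/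

theorem kx_symm {N R M : ℕ} {T T' : Finset ℕ} (h : Sim N R M T T') : Sim N R M T' T where
  le := h.le'
  le' := h.le
  RM := h.RM
  slot := by
    intro s hs
    rcases h.slot s hs with h1 | ⟨t, t', h1⟩
    · exact Or.inl fun z hz hz' => (h1 z hz hz').symm
    · exact Or.inr ⟨t', t, fun z hz => ⟨(h1 z hz).2, (h1 z hz).1⟩⟩
  tail := fun z hz => (h.tail z hz).symm

theorem kx_refl {N R M : ℕ} {T T' : Finset ℕ} (h : Sim N R M T T') : Sim N R M T T where
  le := h.le
  le' := h.le
  RM := h.RM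
  slot := fun _ _ => Or.inl fun _ _ _ => Iff.rfl
  tail := fun _ _ => Iff.rfl

end Pool.Agent.T1K
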