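import Pool.Agent.T1K.Defs

/-!
# T1, row R7: power sums and kernel sums over the classes `Cl n t`

* `lin_indep`: the power sums of order `j < n` of `Cl n t` do not depend on `t`.
* `KK_succ`: `∑ z ∈ Cl n t, ∑ z' ∈ Cl n t', sgn (z' - z) (z' - z) ^ r` for even `r`, `r + 1 < n`
  depends only on `t' - t`.
* `KK_four`, `KK_six`: for `n = 11` it is a multiple of `cyc (t' - t)`.
-/

set_option autoImplicit false

open Finset

namespace Pool.Agent.T1K

/-! ## Splitting off the highest digit -/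

lemma sum_range_mul' {α : Type*} [AddCommMonoid α] (f : ℕ → α) (a A : ℕ) :
    ∑ z ∈ range (a * A), f z = ∑ d ∈ range a, ∑ y ∈ range A, f (d * A + y) := by
  induction a with
  | zero => simp
  | succ a ih =>
      rw [Finset.sum_range_succ, ← ih, Nat.succ_mul, Finset.sum_range_add]

lemma sum_Cl {α : Type*} [AddCommMonoid α] (n : ℕ) (t : ZMod 3) (f : ℕ → α) :
    ∑ z ∈ Cl n t, f z = ∑ z ∈ range (3 ^ n), if dg n z = t then f z else 0 := by
  unfold Cl
  rw [Finset.sum_filter]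

lemma mem_Cl_lt {n : ℕ} {t : ZMod 3} {z : ℕ} (h : z ∈ Cl n t) : z < 3 ^ n :=
  Finset.mem_range.1 (Finset.mem_filter.1 h).1

lemma dg_succ (n d y : ℕ) (hy : y < 3 ^ n) : dg (n + 1) (d * 3 ^ n + y) = (d : ZMod 3) + dg n y := by
  have h0 : 0 < 3 ^ n := by positivity
  have h1 : (d * 3 ^ n + y) / 3 ^ n = d := by
    rw [Nat.add_comm, Nat.add_mul_div_right _ _ h0, Nat.div_eq_of_lt hy, zero_add]
  have h2 : (d * 3 ^ n + y) % 3 ^ n = y := by
    rw [Nat.add_comm, Nat.add_mul_mod_self_right, Nat.mod_eq_of_lt hy]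
  simp only [dg]
  rw [h1, h2]

lemma sum_Cl_succ {α : Type*} [AddCommMonoid α] (n : ℕ) (t : ZMod 3) (f : ℕ → α) :
    ∑ z ∈ Cl (n + 1) t, f z =
      ∑ d ∈ range 3, ∑ y ∈ Cl n (t - (d : ZMod 3)), f (d * 3 ^ n + y) := by
  rw [sum_Cl, pow_succ, mul_comm, sum_range_mul']
  refine Finset.sum_congr rfl fun d _ => ?_
  rw [sum_Cl]
  refine Finset.sum_congr rfl fun y hy => ?_
  rw [dg_succ n d y (Finset.mem_range.1 hy)]
  refine if_congr ?_ rfl rfl
  constructor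
  · intro h; rw [← h]; ring
  · intro h; rw [h]; ring

lemma sum_univ_three {α : Type*} [AddCommMonoid α] (f : ZMod 3 → α) :
    ∑ t : ZMod 3, f t = f 0 + f 1 + f 2 := Fin.sum_univ_three f

lemma sum_shift3 {α : Type*} [AddCommMonoid α] (f : ZMod 3 → α) (t : ZMod 3) :
    ∑ d ∈ range 3, f (t - ((d : ℕ) : ZMod 3)) = ∑ u : ZMod 3, f u := by
  have h1 : ∑ d ∈ range 3, f (t - ((d : ℕ) : ZMod 3)) = ∑ d : Fin 3, f (t - ((d : ℕ) : ZMod 3)) :=
    (Fin.sum_univ_eq_sum_range (fun d : ℕ => f (t - (d : ZMod 3))) 3).symm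
  rw [h1]
  have h2 : ∀ d : Fin 3, ((d : ℕ) : ZMod 3) = (d : ZMod 3) := by decide
  have h3 : ∑ d : Fin 3, f (t - ((d : ℕ) : ZMod 3)) = ∑ d : ZMod 3, f (t - d) :=
    Finset.sum_congr rfl fun d _ => by rw [h2 d]
  rw [h3]
  exact Equiv.sum_comp (Equiv.subLeft t) f

/-! ## Power sums -/

lemma lin_expand (S : Finset ℕ) (a b : ℤ) (j : ℕ) :
    ∑ y ∈ S, (a + b * (y : ℤ)) ^ j =
      ∑ m ∈ range (j + 1), (b ^ m * a ^ (j - m) * (j.choose m : ℤ)) * ∑ y ∈ S, (y : ℤ) ^ m := by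
  simp_rw [Finset.mul_sum]
  rw [Finset.sum_comm]
  refine Finset.sum_congr rfl fun y _ => ?_
  rw [add_comm, add_pow]
  refine Finset.sum_congr rfl fun m _ => ?_
  rw [mul_pow]
  ring

lemma ps_indep (n : ℕ) : ∀ j, j < n → ∀ t : ZMod 3,
    ∑ z ∈ Cl n t, (z : ℤ) ^ j = ∑ z ∈ Cl n 0, (z : ℤ) ^ j := by
  induction n with
  | zero => intro j hj; exact absurd hj (Nat.not_lt_zero _)
  | succ n ih =>
      intro j hj
      have key : ∀ t : ZMod 3, ∑ z ∈ Cl (n + 1) t, (z : ℤ) ^ j =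
          (∑ d ∈ range 3, ∑ m ∈ range j, (((d * 3 ^ n : ℕ) : ℤ) ^ (j - m) * (j.choose m : ℤ)) *
            ∑ y ∈ Cl n 0, (y : ℤ) ^ m) + ∑ u : ZMod 3, ∑ y ∈ Cl n u, (y : ℤ) ^ j := by
        intro t
        rw [sum_Cl_succ, ← sum_shift3 (fun u => ∑ y ∈ Cl n u, (y : ℤ) ^ j) t,
          ← Finset.sum_add_distrib]
        refine Finset.sum_congr rfl fun d _ => ?_
        have h1 : ∑ y ∈ Cl n (t - (d : ZMod 3)), ((d * 3 ^ n + y : ℕ) : ℤ) ^ j =
            ∑ y ∈ Cl n (t - (d : ZMod 3)), (((d * 3 ^ n : ℕ) : ℤ) + 1 * (y : ℤ)) ^ j := by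
          refine Finset.sum_congr rfl fun y _ => ?_
          rw [one_mul]; push_cast; ring
        rw [h1, lin_expand, Finset.sum_range_succ]
        congr 1
        · refine Finset.sum_congr rfl fun m hm => ?_
          rw [Finset.mem_range] at hm
          rw [ih m (by omega), one_pow, one_mul]
        · simp
      intro t
      rw [key t, key 0]

lemma lin_indep {n j : ℕ} (hj : j < n) (a b : ℤ) (t t' : ZMod 3) :
    ∑ z ∈ Cl n t, (a + b * (z : ℤ)) ^ j = ∑ z ∈ Cl n t', (a + b * (z : ℤ)) ^ j := by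
  rw [lin_expand, lin_expand]
  refine Finset.sum_congr rfl fun m hm => ?_
  rw [Finset.mem_range] at hm
  rw [ps_indep n m (by omega) t, ps_indep n m (by omega) t']

/-! ## Sums over pairs -/

/-- sum of a function of the difference -/
def G2 (n : ℕ) (a b : ZMod 3) (φ : ℤ → ℤ) : ℤ :=
  ∑ y ∈ Cl n a, ∑ z ∈ Cl n b, φ ((z : ℤ) - y)

/-- sum over all pairs of classes with the difference `s` -/
def Fs (n : ℕ) (s : ZMod 3) (φ : ℤ → ℤ) : ℤ := ∑ t : ZMod 3, G2 n t (t + s) φ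

lemma G2_succ (n : ℕ) (a b : ZMod 3) (φ : ℤ → ℤ) :
    G2 (n + 1) a b φ = ∑ d ∈ range 3, ∑ e ∈ range 3,
      G2 n (a - (d : ZMod 3)) (b - (e : ZMod 3)) (fun x => φ (((e : ℤ) - d) * 3 ^ n + x)) := by
  unfold G2
  rw [sum_Cl_succ]
  refine Finset.sum_congr rfl fun d _ => ?_
  rw [Finset.sum_comm' (s := range 3) (t := fun _ => Cl n (a - (d : ZMod 3)))
    (t' := Cl n (a - (d : ZMod 3))) (s' := fun _ => range 3) (by intro x y; tauto)]
  refine Finset.sum_congr rfl fun y _ => ?_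
  rw [sum_Cl_succ]
  refine Finset.sum_congr rfl fun e _ => ?_
  refine Finset.sum_congr rfl fun z _ => ?_
  congr 1
  push_cast
  ring

lemma G2_congr {n : ℕ} (a b : ZMod 3) {φ ψ : ℤ → ℤ} (h : ∀ x : ℤ, |x| < 3 ^ n → φ x = ψ x) :
    G2 n a b φ = G2 n a b ψ := by
  unfold G2
  refine Finset.sum_congr rfl fun y hy => Finset.sum_congr rfl fun z hz => h _ ?_
  have h1 : (y : ℤ) < 3 ^ n := by exact_mod_cast mem_Cl_lt hy
  have h2 : (z : ℤ) < 3 ^ n := by exact_mod_cast mem_Cl_lt hz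
  rw [abs_lt]
  constructor <;> linarith [Int.natCast_nonneg y, Int.natCast_nonneg z]

lemma G2_swap (n : ℕ) (a b : ZMod 3) (φ : ℤ → ℤ) : G2 n a b φ = G2 n b a (fun x => φ (-x)) := by
  unfold G2
  rw [Finset.sum_comm]
  refine Finset.sum_congr rfl fun y _ => Finset.sum_congr rfl fun z _ => ?_
  congr 1
  ring

lemma G2_smul (n : ℕ) (a b : ZMod 3) (c : ℤ) (φ : ℤ → ℤ) :
    G2 n a b (fun x => c * φ x) = c * G2 n a b φ := by
  unfold G2
  simp_rw [Finset.mul_sum]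

lemma G2_sum (n : ℕ) (a b : ZMod 3) (S : Finset ℕ) (φ : ℕ → ℤ → ℤ) :
    G2 n a b (fun x => ∑ m ∈ S, φ m x) = ∑ m ∈ S, G2 n a b (φ m) := by
  unfold G2
  rw [Finset.sum_comm' (s := S) (t := fun _ => Cl n a) (t' := Cl n a) (s' := fun _ => S)
    (by intro x y; tauto)]
  refine Finset.sum_congr rfl fun y _ => ?_
  rw [Finset.sum_comm]

lemma Fs_congr {n : ℕ} (s : ZMod 3) {φ ψ : ℤ → ℤ} (h : ∀ x : ℤ, |x| < 3 ^ n → φ x = ψ x) :
    Fs n s φ = Fs n s ψ := by
  unfold Fs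
  exact Finset.sum_congr rfl fun t _ => G2_congr t (t + s) h

lemma Fs_swap (n : ℕ) (s : ZMod 3) (φ : ℤ → ℤ) : Fs n s φ = Fs n (-s) (fun x => φ (-x)) := by
  unfold Fs
  rw [← Equiv.sum_comp (Equiv.subRight s)]
  refine Finset.sum_congr rfl fun t _ => ?_
  rw [Equiv.subRight_apply, G2_swap, sub_add_cancel, sub_eq_add_neg]

lemma Fs_smul (n : ℕ) (s : ZMod 3) (c : ℤ) (φ : ℤ → ℤ) :
    Fs n s (fun x => c * φ x) = c * Fs n s φ := by
  unfold Fs
  rw [Finset.mul_sum]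
  exact Finset.sum_congr rfl fun t _ => G2_smul _ _ _ _ _

lemma Fs_sum (n : ℕ) (s : ZMod 3) (S : Finset ℕ) (φ : ℕ → ℤ → ℤ) :
    Fs n s (fun x => ∑ m ∈ S, φ m x) = ∑ m ∈ S, Fs n s (φ m) := by
  unfold Fs
  rw [Finset.sum_comm]
  exact Finset.sum_congr rfl fun t _ => G2_sum _ _ _ _ _

lemma Fs_succ (n : ℕ) (s : ZMod 3) (φ : ℤ → ℤ) :
    Fs (n + 1) s φ = ∑ d ∈ range 3, ∑ e ∈ range 3,
      Fs n (s - (e : ZMod 3) + (d : ZMod 3)) (fun x => φ (((e : ℤ) - d) * 3 ^ n + x)) := by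
  unfold Fs
  simp_rw [G2_succ]
  rw [Finset.sum_comm]
  refine Finset.sum_congr rfl fun d _ => ?_
  rw [Finset.sum_comm]
  refine Finset.sum_congr rfl fun e _ => ?_
  rw [← Equiv.sum_comp (Equiv.addRight (d : ZMod 3))]
  refine Finset.sum_congr rfl fun t _ => ?_
  rw [Equiv.coe_addRight]
  congr 1 <;> ring

/-! ## The moments of the differences -/

lemma Fs_lin (n : ℕ) (s : ZMod 3) (c : ℤ) (k : ℕ) :
    Fs n s (fun x => (c + x) ^ k) =
      ∑ m ∈ range (k + 1), (c ^ (k - m) * (k.choose m : ℤ)) * Fs n s (fun x => x ^ m) := by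
  rw [← Finset.sum_congr rfl fun m _ => Fs_smul n s (c ^ (k - m) * (k.choose m : ℤ)) _, ← Fs_sum]
  congr 1
  funext x
  rw [add_comm, add_pow]
  exact Finset.sum_congr rfl fun m _ => by ring

lemma sum3 (s : ZMod 3) (c : ℤ) (f : ZMod 3 → ℤ) :
    ∑ d ∈ range 3, ∑ e ∈ range 3, (((e : ℤ) - d) * c) * f (s - (e : ZMod 3) + (d : ZMod 3)) = 0 := by
  simp only [Finset.sum_range_succ, Finset.sum_range_zero, zero_add]
  have h1 : ∀ s : ZMod 3, s - ((0 : ℕ) : ZMod 3) + ((1 : ℕ) : ZMod 3) = s + 1 := by decide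
  have h2 : ∀ s : ZMod 3, s - ((0 : ℕ) : ZMod 3) + ((2 : ℕ) : ZMod 3) = s + 2 := by decide
  have h3 : ∀ s : ZMod 3, s - ((1 : ℕ) : ZMod 3) + ((0 : ℕ) : ZMod 3) = s + 2 := by decide
  have h4 : ∀ s : ZMod 3, s - ((1 : ℕ) : ZMod 3) + ((2 : ℕ) : ZMod 3) = s + 1 := by decide
  have h5 : ∀ s : ZMod 3, s - ((2 : ℕ) : ZMod 3) + ((0 : ℕ) : ZMod 3) = s + 1 := by decide
  have h6 : ∀ s : ZMod 3, s - ((2 : ℕ) : ZMod 3) + ((1 : ℕ) : ZMod 3) = s + 2 := by decide
  rw [h1, h2, h3, h4, h5, h6]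
  push_cast
  ring

lemma sum3' (s : ZMod 3) (f : ZMod 3 → ℤ) :
    ∑ d ∈ range 3, ∑ e ∈ range 3, f (s - ((e : ℕ) : ZMod 3) + ((d : ℕ) : ZMod 3)) =
      3 * ∑ u : ZMod 3, f u := by
  have h : ∀ d : ℕ, ∑ e ∈ range 3, f (s - ((e : ℕ) : ZMod 3) + ((d : ℕ) : ZMod 3)) =
      ∑ u : ZMod 3, f u := by
    intro d
    rw [← sum_shift3 f (s + d)]
    exact Finset.sum_congr rfl fun e _ => by congr 1; ring
  rw [Finset.sum_congr rfl fun d _ => h d, Finset.sum_const, Finset.card_range, nsmul_eq_mul]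
  norm_num

/-- the moments of order `k < 2 n` of the differences do not depend on the class `s` -/
lemma mom_indep (n : ℕ) : ∀ k, k < 2 * n → ∀ s : ZMod 3,
    Fs n s (fun x => x ^ k) = Fs n 0 (fun x => x ^ k) := by
  induction n with
  | zero => intro k hk; exact absurd hk (Nat.not_lt_zero _)
  | succ n ih =>
      intro k hk
      have key : ∀ s : ZMod 3, Fs (n + 1) s (fun x => x ^ k) =
          (∑ d ∈ range 3, ∑ e ∈ range 3, ∑ m ∈ range (k - 1),
            (((((e : ℕ) : ℤ) - ((d : ℕ) : ℤ)) * 3 ^ n) ^ (k - m) * (k.choose m : ℤ)) *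
              Fs n 0 (fun x => x ^ m)) + 3 * ∑ u : ZMod 3, Fs n u (fun x => x ^ k) := by
        intro s
        rw [Fs_succ, ← sum3' s fun u => Fs n u (fun x => x ^ k)]
        have h0 := sum3 s (3 ^ n * k) fun u => Fs n u (fun x => x ^ (k - 1))
        rw [← add_zero (∑ d ∈ range 3, ∑ e ∈ range 3, Fs n (s - ((e : ℕ) : ZMod 3) +
          ((d : ℕ) : ZMod 3)) (fun x => ((((e : ℕ) : ℤ) - ((d : ℕ) : ℤ)) * 3 ^ n + x) ^ k)),
          ← neg_zero, ← h0, ← Finset.sum_neg_distrib, ← Finset.sum_add_distrib,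
          ← Finset.sum_add_distrib]
        refine Finset.sum_congr rfl fun d _ => ?_
        rw [← Finset.sum_neg_distrib, ← Finset.sum_add_distrib, ← Finset.sum_add_distrib]
        refine Finset.sum_congr rfl fun e _ => ?_
        rw [Fs_lin]
        rcases Nat.eq_zero_or_pos k with hk0 | hk0
        · subst hk0
          simp
        · obtain ⟨j, rfl⟩ : ∃ j, k = j + 1 := ⟨k - 1, by omega⟩
          rw [Finset.sum_range_succ, Finset.sum_range_succ, Nat.add_sub_cancel]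
          have h1 : ∑ m ∈ range j, ((((((e : ℕ) : ℤ) - ((d : ℕ) : ℤ)) * 3 ^ n) ^ (j + 1 - m) *
              ((j + 1).choose m : ℤ)) * Fs n (s - ((e : ℕ) : ZMod 3) + ((d : ℕ) : ZMod 3))
                (fun x => x ^ m)) =
              ∑ m ∈ range j, ((((((e : ℕ) : ℤ) - ((d : ℕ) : ℤ)) * 3 ^ n) ^ (j + 1 - m) *
              ((j + 1).choose m : ℤ)) * Fs n 0 (fun x => x ^ m)) := by
            refine Finset.sum_congr rfl fun m hm => ?_
            rw [Finset.mem_range] at hm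
            rw [ih m (by omega)]
          rw [h1]
          have h2 : j + 1 - j = 1 := by omega
          have h3 : (j + 1).choose j = j + 1 := by
            rw [Nat.choose_symm_of_eq_add (by rfl : j + 1 = j + 1), Nat.choose_one_right]
          rw [h2, h3, Nat.sub_self, Nat.choose_self]
          push_cast
          ring
      intro s
      rw [key s, key 0]

/-! ## The signed sums -/

/-- the kernel `sgn x * x ^ r` -/
def sk (r : ℕ) (x : ℤ) : ℤ := Int.sign x * x ^ r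

lemma sk_neg {r : ℕ} (hr : Even r) (x : ℤ) : sk r (-x) = -sk r x := by
  unfold sk
  rw [Int.sign_neg, hr.neg_pow, neg_mul]

lemma sk_pos {r : ℕ} {c x A : ℤ} (hc : 1 ≤ c) (hx : |x| < A) : sk r (c * A + x) = (c * A + x) ^ r := by
  have h1 : 0 < A := lt_of_le_of_lt (abs_nonneg x) hx
  have h2 : A ≤ c * A := le_mul_of_one_le_left h1.le hc
  have h3 : 0 < c * A + x := by linarith [(abs_lt.1 hx).1]
  unfold sk
  rw [Int.sign_eq_one_of_pos h3, one_mul]

lemma sk_neg' {r : ℕ} {c x A : ℤ} (hc : c ≤ -1) (hx : |x| < A) :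
    sk r (c * A + x) = -(c * A + x) ^ r := by
  have h1 : 0 < A := lt_of_le_of_lt (abs_nonneg x) hx
  have h2 : A ≤ -c * A := le_mul_of_one_le_left h1.le (by linarith)
  have h3 : c * A + x < 0 := by linarith [(abs_lt.1 hx).2]
  unfold sk
  rw [Int.sign_eq_neg_one_of_neg h3, neg_one_mul]

/-- the nine terms -/
lemma nine {s : ZMod 3} (F : ℕ → ℕ → ℤ) (D : ℤ) (g : ℤ → ℤ) (hg : ∀ c, g (-c) = g c)
    (h0 : ∀ d, F d d = D) (h1 : ∀ d e : ℕ, d < e → F d e = g ((e : ℤ) - d))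
    (h2 : ∀ d e : ℕ, e < d → F d e = -g ((e : ℤ) - d)) :
    ∑ d ∈ range 3, ∑ e ∈ range 3, F d e = 3 * D := by
  have hs : s = s := rfl
  simp only [Finset.sum_range_succ, Finset.sum_range_zero, zero_add]
  rw [h0, h0, h0, h1 0 1 (by norm_num), h1 0 2 (by norm_num), h1 1 2 (by norm_num),
    h2 1 0 (by norm_num), h2 2 0 (by norm_num), h2 2 1 (by norm_num)]
  have e1 : g (((0 : ℕ) : ℤ) - ((1 : ℕ) : ℤ)) = g 1 := by rw [← hg]; norm_num
  have e2 : g (((0 : ℕ) : ℤ) - ((2 : ℕ) : ℤ)) = g 2 := by rw [← hg]; norm_num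
  have e3 : g (((1 : ℕ) : ℤ) - ((2 : ℕ) : ℤ)) = g 1 := by rw [← hg]; norm_num
  rw [e1, e2, e3]
  norm_num
  ring

lemma Fs_pow_indep {n r : ℕ} (h : r < 2 * n) (c : ℤ) (s : ZMod 3) :
    Fs n s (fun x => (c + x) ^ r) = Fs n 0 (fun x => (c + x) ^ r) := by
  rw [Fs_lin, Fs_lin]
  refine Finset.sum_congr rfl fun m hm => ?_
  rw [Finset.mem_range] at hm
  rw [mom_indep n m (by omega) s]

lemma Fs_even {n r : ℕ} (hr : Even r) (c : ℤ) :
    Fs n 0 (fun x => (-c + x) ^ r) = Fs n 0 (fun x => (c + x) ^ r) := by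
  rw [Fs_swap, neg_zero]
  congr 1
  funext x
  rw [← hr.neg_pow]
  congr 1
  ring

lemma Fs_sk_succ {n r : ℕ} (hr : Even r) (h : r < 2 * n) (s : ZMod 3) :
    Fs (n + 1) s (sk r) = 3 * Fs n s (sk r) := by
  rw [Fs_succ]
  apply nine (s := s) _ (Fs n s (sk r)) (fun c => Fs n 0 (fun x => (c * 3 ^ n + x) ^ r))
  · intro c
    simp only [neg_mul]
    exact Fs_even hr _
  · intro d
    rw [sub_add_cancel]
    congr 1
    funext x
    rw [sub_self, zero_mul, zero_add]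
  · intro d e hde
    rw [← Fs_pow_indep h _ (s - (e : ZMod 3) + (d : ZMod 3))]
    refine Fs_congr _ fun x hx => sk_pos ?_ hx
    have : (d : ℤ) < e := by exact_mod_cast hde
    linarith
  · intro d e hde
    rw [← Fs_pow_indep h _ (s - (e : ZMod 3) + (d : ZMod 3)), ← neg_one_mul, ← Fs_smul]
    refine Fs_congr _ fun x hx => ?_
    rw [neg_one_mul]
    refine sk_neg' ?_ hx
    have : (e : ℤ) < d := by exact_mod_cast hde
    linarith

lemma G2_pow_indep {n r : ℕ} (h : r < n) (c : ℤ) (a b : ZMod 3) :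
    G2 n a b (fun x => (c + x) ^ r) = G2 n 0 0 (fun x => (c + x) ^ r) := by
  unfold G2
  have h1 : ∀ y : ℕ, ∑ z ∈ Cl n b, (c + ((z : ℤ) - y)) ^ r = ∑ z ∈ Cl n 0, (c + ((z : ℤ) - y)) ^ r := by
    intro y
    have h2 := lin_indep h (c - y) 1 b 0
    calc ∑ z ∈ Cl n b, (c + ((z : ℤ) - y)) ^ r = ∑ z ∈ Cl n b, (c - y + 1 * (z : ℤ)) ^ r :=
          Finset.sum_congr rfl fun z _ => by ring
      _ = ∑ z ∈ Cl n 0, (c - y + 1 * (z : ℤ)) ^ r := h2
      _ = _ := Finset.sum_congr rfl fun z _ => by ring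
  rw [Finset.sum_congr rfl fun y _ => h1 y, Finset.sum_comm]
  conv_rhs => rw [Finset.sum_comm]
  refine Finset.sum_congr rfl fun z _ => ?_
  have h2 := lin_indep h (c + z) (-1) a 0
  calc ∑ y ∈ Cl n a, (c + ((z : ℤ) - (y : ℤ))) ^ r = ∑ y ∈ Cl n a, (c + z + -1 * (y : ℤ)) ^ r :=
        Finset.sum_congr rfl fun y _ => by ring
    _ = ∑ y ∈ Cl n 0, (c + z + -1 * (y : ℤ)) ^ r := h2
    _ = _ := Finset.sum_congr rfl fun y _ => by ring

lemma G2_even {n r : ℕ} (hr : Even r) (c : ℤ) :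
    G2 n 0 0 (fun x => (-c + x) ^ r) = G2 n 0 0 (fun x => (c + x) ^ r) := by
  rw [G2_swap]
  congr 1
  funext x
  rw [← hr.neg_pow]
  congr 1
  ring

/-- for `r < n` the signed sum over `Cl (n + 1) a` and `Cl (n + 1) b` depends only on `b - a` -/
lemma G2_sk_succ {n r : ℕ} (hr : Even r) (h : r < n) (a b : ZMod 3) :
    G2 (n + 1) a b (sk r) = Fs n (b - a) (sk r) := by
  rw [G2_succ]
  have hD : ∑ d ∈ range 3, G2 n (a - (d : ZMod 3)) (b - (d : ZMod 3)) (sk r) =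
      Fs n (b - a) (sk r) := by
    unfold Fs
    rw [← sum_shift3 _ a]
    refine Finset.sum_congr rfl fun d _ => ?_
    congr 1
    ring
  have h3 : ∑ d ∈ range 3, ∑ e ∈ range 3,
      (G2 n (a - (d : ZMod 3)) (b - (e : ZMod 3)) (fun x => sk r (((e : ℤ) - d) * 3 ^ n + x)) -
        if d = e then G2 n (a - (d : ZMod 3)) (b - (d : ZMod 3)) (sk r) else 0) = 3 * 0 := by
    apply nine (s := a) _ 0 (fun c => G2 n 0 0 (fun x => (c * 3 ^ n + x) ^ r))
    · intro c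
      simp only [neg_mul]
      exact G2_even hr _
    · intro d
      rw [if_pos rfl, sub_eq_zero]
      congr 1
      funext x
      rw [sub_self, zero_mul, zero_add]
    · intro d e hde
      rw [if_neg hde.ne, sub_zero]
      rw [← G2_pow_indep h _ (a - (d : ZMod 3)) (b - (e : ZMod 3))]
      refine G2_congr _ _ fun x hx => sk_pos ?_ hx
      have : (d : ℤ) < e := by exact_mod_cast hde
      linarith
    · intro d e hde
      rw [if_neg hde.ne', sub_zero]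
      rw [← G2_pow_indep h _ (a - (d : ZMod 3)) (b - (e : ZMod 3)), ← neg_one_mul, ← G2_smul]
      refine G2_congr _ _ fun x hx => ?_
      rw [neg_one_mul]
      refine sk_neg' ?_ hx
      have : (e : ℤ) < d := by exact_mod_cast hde
      linarith
  simp only [Finset.sum_sub_distrib, mul_zero] at h3
  rw [sub_eq_zero] at h3
  rw [h3, ← hD]
  refine Finset.sum_congr rfl fun d hd => ?_
  rw [Finset.sum_ite_eq (range 3) d, if_pos hd]

lemma Fs_sk_add {n r : ℕ} (hr : Even r) (h : r < 2 * n) (s : ZMod 3) (j : ℕ) :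
    Fs (n + j) s (sk r) = 3 ^ j * Fs n s (sk r) := by
  induction j with
  | zero => simp
  | succ j ih =>
      rw [← Nat.add_assoc, Fs_sk_succ hr (by omega), ih, pow_succ]
      ring

end Pool.Agent.T1K
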