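import Pool.Agent.T1K.Defs2
import Pool.Agent.T1K.Ker
import Pool.Agent.Helper24.T1.Inv

/-!
# T1, row R5: invariance for similar tick sets

`sim_card`, `inv_e`, `inv_pow`, `inv_up`, `inv_down`: single species functionals of weight
`2 m + p < N` do not distinguish similar tick sets.
-/

set_option autoImplicit false

open Finset Polynomial

namespace Pool.Agent.T1K

namespace INV

open Pool.Agent.Helper24.T1

/-- the part in the slot `s` -/
def Sl (N s : ℕ) (T : Finset ℕ) : Finset ℕ := T.filter fun z => s * 3 ^ N ≤ z ∧ z < (s + 1) * 3 ^ N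

theorem mem_Sl {N s z : ℕ} {T : Finset ℕ} :
    z ∈ Sl N s T ↔ z ∈ T ∧ s * 3 ^ N ≤ z ∧ z < (s + 1) * 3 ^ N := by
  rw [Sl, mem_filter]

theorem Sl_same {N s : ℕ} {T T' : Finset ℕ} (h : SameOn N s T T') : Sl N s T = Sl N s T' := by
  ext z
  rw [mem_Sl, mem_Sl]
  constructor
  · rintro ⟨h1, h2, h3⟩
    exact ⟨(h z h2 h3).mp h1, h2, h3⟩
  · rintro ⟨h1, h2, h3⟩
    exact ⟨(h z h2 h3).mpr h1, h2, h3⟩

theorem Sl_cls {N s : ℕ} {T : Finset ℕ} {t : ZMod 3}
    (h : ∀ z, z < 3 ^ N → (s * 3 ^ N + z ∈ T ↔ z ∈ Cl N t)) :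
    Sl N s T = (Cl N t).map (addLeftEmbedding (s * 3 ^ N)) := by
  ext z
  rw [mem_Sl, mem_map]
  constructor
  · rintro ⟨h1, h2, h3⟩
    refine ⟨z - s * 3 ^ N, ?_, ?_⟩
    · rw [← h _ (by rw [add_mul, one_mul] at h3; omega), Nat.add_sub_cancel' h2]
      exact h1
    · show s * 3 ^ N + (z - s * 3 ^ N) = z
      omega
  · rintro ⟨y, hy, rfl⟩
    have hy' : y < 3 ^ N := (mem_Cl.mp hy).1
    refine ⟨(h y hy').mpr hy, Nat.le_add_right _ _, ?_⟩
    show s * 3 ^ N + y < (s + 1) * 3 ^ N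
    rw [add_mul, one_mul]
    omega

variable {N R M : ℕ} {T T' : Finset ℕ}

theorem card_Sl (hN : 1 ≤ N) (h : Sim N R M T T') {s : ℕ} (hs : s < R) :
    (Sl N s T).card = (Sl N s T').card := by
  obtain ⟨n, rfl⟩ : ∃ n, N = n + 1 := ⟨N - 1, by omega⟩
  rcases h.slot s hs with h1 | ⟨t, t', h1⟩
  · rw [Sl_same h1]
  · rw [Sl_cls fun z hz => (h1 z hz).1, Sl_cls fun z hz => (h1 z hz).2, card_map, card_map,
      Helper24.T1.card_Cl, Helper24.T1.card_Cl]

theorem Ps_union {U V : Finset ℕ} (h : Disjoint U V) (σ : ℝ) : Ps (U ∪ V) σ = Ps U σ * Ps V σ :=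
  prod_union h

theorem Ps_Sl (h : Sim N R M T T') {s : ℕ} (hs : s < R) (σ : ℝ) :
    EqL N (Ps (Sl N s T) σ) (Ps (Sl N s T') σ) := by
  rcases Nat.eq_zero_or_pos N with rfl | hN
  · intro i hi
    omega
  obtain ⟨n, rfl⟩ : ∃ n, N = n + 1 := ⟨N - 1, by omega⟩
  rcases h.slot s hs with h1 | ⟨t, t', h1⟩
  · rw [Sl_same h1]
    exact EqL.refl _
  · have h2 : ∀ t, Ps ((Cl (n + 1) t).map (addLeftEmbedding (s * 3 ^ (n + 1)))) σ =
        Ps (Cl (n + 1) t) (σ + s * 3 ^ (n + 1)) := by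
      intro t
      rw [Ps, prod_map]
      refine prod_congr rfl fun z _ => ?_
      rw [addLeftEmbedding_apply, Nat.cast_add, Nat.cast_mul, Nat.cast_pow, Nat.cast_ofNat,
        add_assoc]
    rw [Sl_cls fun z hz => (h1 z hz).1, Sl_cls fun z hz => (h1 z hz).2, h2, h2]
    exact invE n t t' _

/-- the part below `c` -/
def Lo (T : Finset ℕ) (c : ℕ) : Finset ℕ := T.filter fun z => z < c

/-- the part above `c` -/
def Up (T : Finset ℕ) (c : ℕ) : Finset ℕ := T.filter fun z => c ≤ z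

theorem mem_Lo {c z : ℕ} : z ∈ Lo T c ↔ z ∈ T ∧ z < c := by rw [Lo, mem_filter]

theorem mem_Up {c z : ℕ} : z ∈ Up T c ↔ z ∈ T ∧ c ≤ z := by rw [Up, mem_filter]

theorem succ_mul_ge (N s : ℕ) : s * 3 ^ N ≤ (s + 1) * 3 ^ N :=
  Nat.mul_le_mul_right _ (Nat.le_succ s)

theorem Lo_succ (N s : ℕ) (T : Finset ℕ) :
    Lo T ((s + 1) * 3 ^ N) = Lo T (s * 3 ^ N) ∪ Sl N s T := by
  have h0 := succ_mul_ge N s
  ext z
  rw [mem_union, mem_Lo, mem_Lo, mem_Sl]
  constructor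
  · rintro ⟨h1, h2⟩
    rcases Nat.lt_or_ge z (s * 3 ^ N) with h3 | h3
    · exact Or.inl ⟨h1, h3⟩
    · exact Or.inr ⟨h1, h3, h2⟩
  · rintro (⟨h1, h2⟩ | ⟨h1, -, h2⟩)
    · exact ⟨h1, lt_of_lt_of_le h2 h0⟩
    · exact ⟨h1, h2⟩

theorem Up_succ (N s : ℕ) (T : Finset ℕ) :
    Up T (s * 3 ^ N) = Sl N s T ∪ Up T ((s + 1) * 3 ^ N) := by
  have h0 := succ_mul_ge N s
  ext z
  rw [mem_union, mem_Up, mem_Up, mem_Sl]
  constructor
  · rintro ⟨h1, h2⟩
    rcases Nat.lt_or_ge z ((s + 1) * 3 ^ N) with h3 | h3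
    · exact Or.inl ⟨h1, h2, h3⟩
    · exact Or.inr ⟨h1, h3⟩
  · rintro (⟨h1, h2, -⟩ | ⟨h1, h2⟩)
    · exact ⟨h1, h2⟩
    · exact ⟨h1, h0.trans h2⟩

theorem card_Lo (hN : 1 ≤ N) (h : Sim N R M T T') {s : ℕ} (hs : s ≤ R) :
    (Lo T (s * 3 ^ N)).card = (Lo T' (s * 3 ^ N)).card := by
  induction s with
  | zero =>
    have h1 : ∀ T : Finset ℕ, Lo T (0 * 3 ^ N) = ∅ := by
      intro T
      ext z
      rw [mem_Lo, zero_mul]
      simp
    rw [h1, h1]
  | succ s ih =>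
    have h1 : ∀ T : Finset ℕ, Lo T ((s + 1) * 3 ^ N) = Lo T (s * 3 ^ N) ∪ Sl N s T :=
      Lo_succ N s
    have h2 : ∀ T : Finset ℕ, Disjoint (Lo T (s * 3 ^ N)) (Sl N s T) := by
      intro T
      rw [disjoint_left]
      intro z hz hz'
      have := (mem_Lo.mp hz).2
      have := (mem_Sl.mp hz').2.1
      omega
    rw [h1, h1, card_union_of_disjoint (h2 T), card_union_of_disjoint (h2 T'), ih (by omega),
      card_Sl hN h (by omega)]

theorem Up_tail (h : Sim N R M T T') {c : ℕ} (hc : R * 3 ^ N ≤ c) : Up T c = Up T' c := by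
  ext z
  rw [mem_Up, mem_Up]
  constructor
  · rintro ⟨h1, h2⟩
    exact ⟨(h.tail z (hc.trans h2)).mp h1, h2⟩
  · rintro ⟨h1, h2⟩
    exact ⟨(h.tail z (hc.trans h2)).mpr h1, h2⟩

theorem Ps_Up (h : Sim N R M T T') (σ : ℝ) (s : ℕ) :
    EqL N (Ps (Up T (s * 3 ^ N)) σ) (Ps (Up T' (s * 3 ^ N)) σ) := by
  rcases le_or_gt R s with hs | hs
  · rw [Up_tail h (Nat.mul_le_mul_right _ hs)]
    exact EqL.refl _
  · obtain ⟨k, rfl⟩ : ∃ k, R = s + k := ⟨R - s, by omega⟩
    clear hs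
    induction k generalizing s with
    | zero =>
      rw [Up_tail h (Nat.mul_le_mul_right _ (by omega))]
      exact EqL.refl _
    | succ k ih =>
      have h1 : ∀ T : Finset ℕ, Up T (s * 3 ^ N) = Sl N s T ∪ Up T ((s + 1) * 3 ^ N) :=
        Up_succ N s
      have h2 : ∀ T : Finset ℕ, Disjoint (Sl N s T) (Up T ((s + 1) * 3 ^ N)) := by
        intro T
        rw [disjoint_left]
        intro z hz hz'
        have := (mem_Up.mp hz').2
        have := (mem_Sl.mp hz).2.2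
        omega
      rw [h1, h1, Ps_union (h2 T), Ps_union (h2 T')]
      refine (Ps_Sl h (by omega) σ).mul ?_
      have h3 := ih (s := s + 1)
      rw [show s + 1 + k = s + (k + 1) by ring] at h3
      exact h3 h

theorem gp_split (T : Finset ℕ) {c d : ℕ} (hcd : c ≤ d) {u : ℝ} (h0 : (c : ℝ) ≤ u)
    (h1 : u ≤ d) : gp T u = (1 + C u * X) ^ (Lo T c).card *
      ((∏ z ∈ T with c ≤ z ∧ z < d, (1 + C (max u (z : ℝ)) * X)) * Ps (Up T d) 0) := by
  have h2 : T = Lo T c ∪ ((T.filter fun z => c ≤ z ∧ z < d) ∪ Up T d) := by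
    ext z
    rw [mem_union, mem_union, mem_Lo, mem_filter, mem_Up]
    constructor
    · intro hz
      by_cases h3 : z < c
      · exact Or.inl ⟨hz, h3⟩
      · by_cases h4 : z < d
        · exact Or.inr (Or.inl ⟨hz, by omega, h4⟩)
        · exact Or.inr (Or.inr ⟨hz, by omega⟩)
    · rintro (h3 | h3 | h3)
      · exact h3.1
      · exact h3.1
      · exact h3.1
  have h3 : Disjoint (Lo T c) ((T.filter fun z => c ≤ z ∧ z < d) ∪ Up T d) := by
    rw [disjoint_left]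
    intro z hz hz'
    have h4 := (mem_Lo.mp hz).2
    rcases mem_union.mp hz' with h5 | h5
    · have := (mem_filter.mp h5).2.1
      omega
    · have := (mem_Up.mp h5).2
      omega
  have h4 : Disjoint (T.filter fun z => c ≤ z ∧ z < d) (Up T d) := by
    rw [disjoint_left]
    intro z hz hz'
    have := (mem_filter.mp hz).2.2
    have := (mem_Up.mp hz').2
    omega
  rw [gp]
  conv_lhs => rw [h2]
  rw [prod_union h3, prod_union h4]
  congr 1
  · rw [← prod_const]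
    refine prod_congr rfl fun z hz => ?_
    have h5 : ((z : ℕ) : ℝ) ≤ c := Nat.cast_le.mpr (mem_Lo.mp hz).2.le
    rw [max_eq_left (h5.trans h0)]
  · congr 1
    refine prod_congr rfl fun z hz => ?_
    have h5 : ((d : ℕ) : ℝ) ≤ z := Nat.cast_le.mpr (mem_Up.mp hz).2
    rw [max_eq_right (h1.trans h5), zero_add]

/-- pointwise equality on a slot -/
theorem same_slot (hN : 1 ≤ N) (h : Sim N R M T T') {s : ℕ} (hs : s < R)
    (hsame : SameOn N s T T') {u : ℝ} (h0 : ((s * 3 ^ N : ℕ) : ℝ) ≤ u)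
    (h1 : u ≤ (((s + 1) * 3 ^ N : ℕ) : ℝ)) : EqL N (gp T u) (gp T' u) := by
  have hcd : s * 3 ^ N ≤ (s + 1) * 3 ^ N := Nat.mul_le_mul_right _ (by omega)
  rw [gp_split T hcd h0 h1, gp_split T' hcd h0 h1, card_Lo hN h hs.le]
  refine (EqL.refl _).mul (EqL.mul ?_ (Ps_Up h 0 (s + 1)))
  have h2 : (T.filter fun z => s * 3 ^ N ≤ z ∧ z < (s + 1) * 3 ^ N) =
      T'.filter fun z => s * 3 ^ N ≤ z ∧ z < (s + 1) * 3 ^ N := Sl_same hsame
  rw [h2]
  exact EqL.refl _

/-- pointwise equality in the tail -/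
theorem same_tail (hN : 1 ≤ N) (h : Sim N R M T T') {u : ℝ} (h0 : ((R * 3 ^ N : ℕ) : ℝ) ≤ u) :
    gp T u = gp T' u := by
  obtain ⟨d, hd⟩ := exists_nat_ge u
  have hcd : R * 3 ^ N ≤ d := by
    have := h0.trans hd
    exact_mod_cast this
  rw [gp_split T hcd h0 hd, gp_split T' hcd h0 hd, card_Lo hN h le_rfl, Up_tail h hcd]
  congr 2
  have h2 : (T.filter fun z => R * 3 ^ N ≤ z ∧ z < d) = T'.filter fun z => R * 3 ^ N ≤ z ∧ z < d := by
    ext z
    rw [mem_filter, mem_filter]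
    constructor
    · rintro ⟨h3, h4, h5⟩
      exact ⟨(h.tail z h4).mp h3, h4, h5⟩
    · rintro ⟨h3, h4, h5⟩
      exact ⟨(h.tail z h4).mpr h3, h4, h5⟩
  rw [h2]

/-- the coefficients on a slot, general form -/
theorem slot_coeff' {n m L : ℕ} (hm : m < n + 1) (a : ℝ) (B : ℝ[X]) :
    ∃ q : ℕ → ℝ[X], (∀ j, (q j).natDegree ≤ m - j) ∧
      ∀ (t : ZMod 3) (B' : ℝ[X]) (v : ℝ), EqL (n + 1) B' B →
        ((∏ z ∈ Cl (n + 1) t, (1 + C a * X + C (max v (z : ℝ)) * X)) *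
          ((1 + C (a + v) * X) ^ L * B')).coeff m =
          ∑ j ∈ range (m + 1), (gp (Cl (n + 1) t) v).coeff j * (q j).eval v := by
  let G : ℕ → ℝ[X][X] := fun j => (1 + C (C a) * X) ^ (3 ^ n - j) *
    ((1 + C (C a + X) * X) ^ L * B.map C)
  have hG : ∀ j, Gd (G j) := by
    intro j
    refine ((Gd.lin ?_).pow _).mul (((Gd.lin ?_).pow _).mul (Gd.map _))
    · rw [natDegree_C]; exact Nat.zero_le _
    · refine (natDegree_add_le _ _).trans (max_le ?_ ?_)
      · rw [natDegree_C]; exact Nat.zero_le _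
      · rw [natDegree_X]
  have hmap : ∀ (j : ℕ) (v : ℝ), (G j).map (evalRingHom v) = (1 + C a * X) ^ (3 ^ n - j) *
      ((1 + C (a + v) * X) ^ L * B) := by
    intro j v
    have h1 : (evalRingHom v : ℝ[X] →+* ℝ).comp C = RingHom.id ℝ := by
      ext r
      simp
    simp only [G, Polynomial.map_mul, Polynomial.map_pow, Polynomial.map_add, Polynomial.map_one,
      map_C, map_X, coe_evalRingHom, eval_C, eval_add, eval_X]
    rw [Polynomial.map_map, h1, Polynomial.map_id]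
  refine ⟨fun j => (G j).coeff (m - j), fun j => hG j _, fun t B' v hB => ?_⟩
  rw [coeff_shift, Helper24.T1.card_Cl]
  refine sum_congr rfl fun j hj => ?_
  show _ = _ * ((G j).coeff (m - j)).eval v
  have h1 : ((G j).coeff (m - j)).eval v = ((G j).map (evalRingHom v)).coeff (m - j) := by
    rw [coeff_map, coe_evalRingHom]
  rw [h1, hmap]
  congr 1
  exact ((EqL.refl (k := n + 1) _).mul ((EqL.refl _).mul hB)) _ (by omega)

/-- the integral over a slot where both sets are classes -/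
theorem cls_slot {m : ℕ} (h : Sim N R M T T') {s : ℕ} (hs : s < R) (hc : ClsOn N s T T')
    (f : ℝ[X]) (hf : 2 * m + f.natDegree < N) :
    Ig T m f ((s * 3 ^ N : ℕ) : ℝ) (((s + 1) * 3 ^ N : ℕ) : ℝ) =
      Ig T' m f ((s * 3 ^ N : ℕ) : ℝ) (((s + 1) * 3 ^ N : ℕ) : ℝ) := by
  obtain ⟨n, rfl⟩ : ∃ n, N = n + 1 := ⟨N - 1, by omega⟩
  obtain ⟨t, t', hc⟩ := hc
  have hN : 1 ≤ n + 1 := by omega
  set a : ℝ := ((s * 3 ^ (n + 1) : ℕ) : ℝ) with ha
  have hb : (((s + 1) * 3 ^ (n + 1) : ℕ) : ℝ) = a + 3 ^ (n + 1) := by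
    rw [ha]
    push_cast
    ring
  have hA : (0 : ℝ) ≤ 3 ^ (n + 1) := by positivity
  obtain ⟨q, hq1, hq2⟩ := slot_coeff' (n := n) (m := m)
    (L := (Lo T' (s * 3 ^ (n + 1))).card) (by omega) a
    (Ps (Up T' ((s + 1) * 3 ^ (n + 1))) 0)
  have key : ∀ (U : Finset ℕ) (r : ZMod 3),
      (∀ z, z < 3 ^ (n + 1) → (s * 3 ^ (n + 1) + z ∈ U ↔ z ∈ Cl (n + 1) r)) →
      (Lo U (s * 3 ^ (n + 1))).card = (Lo T' (s * 3 ^ (n + 1))).card →
      EqL (n + 1) (Ps (Up U ((s + 1) * 3 ^ (n + 1))) 0) (Ps (Up T' ((s + 1) * 3 ^ (n + 1))) 0) →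
      Ig U m f a (a + 3 ^ (n + 1)) = ∑ j ∈ range (m + 1),
        Ig (Cl (n + 1) r) j (q j * f.comp (C a + X)) 0 (3 ^ (n + 1)) := by
    intro U r hU hL hE
    have h1 : Ig U m f a (a + 3 ^ (n + 1)) = ∫ v in (0 : ℝ)..(3 ^ (n + 1)),
        (gp U (a + v)).coeff m * f.eval (a + v) := by
      rw [Ig]
      have h2 := intervalIntegral.integral_comp_add_left
        (f := fun u => (gp U u).coeff m * f.eval u) (a := 0) (b := (3 : ℝ) ^ (n + 1)) a
      rw [add_zero] at h2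
      exact h2.symm
    have h2 : (∫ v in (0 : ℝ)..(3 ^ (n + 1)), (gp U (a + v)).coeff m * f.eval (a + v)) =
        ∫ v in (0 : ℝ)..(3 ^ (n + 1)), ∑ j ∈ range (m + 1),
          (gp (Cl (n + 1) r) v).coeff j * (q j * f.comp (C a + X)).eval v := by
      refine intervalIntegral.integral_congr fun v hv => ?_
      rw [Set.uIcc_of_le hA] at hv
      show _ * _ = _
      have h3 : gp U (a + v) = (∏ z ∈ Cl (n + 1) r, (1 + C a * X + C (max v (z : ℝ)) * X)) *
          ((1 + C (a + v) * X) ^ (Lo T' (s * 3 ^ (n + 1))).card *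
            Ps (Up U ((s + 1) * 3 ^ (n + 1))) 0) := by
        rw [gp_split U (Nat.mul_le_mul_right _ (by omega : s ≤ s + 1)) (u := a + v)
          (by rw [← ha]; linarith [hv.1]) (by rw [hb]; linarith [hv.2]), hL]
        have h4 : ∏ z ∈ U with s * 3 ^ (n + 1) ≤ z ∧ z < (s + 1) * 3 ^ (n + 1),
            (1 + C (max (a + v) (z : ℝ)) * X : ℝ[X]) =
            ∏ z ∈ Cl (n + 1) r, (1 + C a * X + C (max v (z : ℝ)) * X) := by
          show ∏ z ∈ Sl (n + 1) s U, _ = _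
          rw [Sl_cls hU, prod_map]
          refine prod_congr rfl fun z _ => ?_
          rw [addLeftEmbedding_apply, Nat.cast_add, ← ha, max_add_add_left, C_add]
          ring
        rw [h4]
        ring
      rw [h3, hq2 r _ v hE, sum_mul]
      refine sum_congr rfl fun j _ => ?_
      rw [eval_mul, eval_comp, eval_add, eval_C, eval_X, mul_assoc]
    rw [h1, h2, intervalIntegral.integral_finsetSum]
    · rfl
    · intro j _
      exact intble _ _ _ _ _
  rw [hb, key T t (fun z hz => (hc z hz).1) (card_Lo hN h hs.le) (Ps_Up h 0 (s + 1)),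
    key T' t' (fun z hz => (hc z hz).2) rfl (EqL.refl _)]
  refine sum_congr rfl fun j hj => invI n _ _ _ _ ?_
  have hj' := mem_range.mp hj
  have h1 := natDegree_mul_le (p := q j) (q := f.comp (C a + X))
  rw [natDegree_comp_shift] at h1
  have h2 := hq1 j
  omega

theorem Ig_adj (T : Finset ℕ) (m : ℕ) (f : ℝ[X]) (a b c : ℝ) :
    Ig T m f a b + Ig T m f b c = Ig T m f a c :=
  intervalIntegral.integral_add_adjacent_intervals (intble T m f a b) (intble T m f b c)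

theorem Ig_congr {T T' : Finset ℕ} {m : ℕ} (f : ℝ[X]) {a b : ℝ} (hab : a ≤ b)
    (h : ∀ u, a ≤ u → u ≤ b → (gp T u).coeff m = (gp T' u).coeff m) :
    Ig T m f a b = Ig T' m f a b := by
  refine intervalIntegral.integral_congr fun u hu => ?_
  rw [Set.uIcc_of_le hab] at hu
  show _ * _ = _ * _
  rw [h u hu.1 hu.2]

theorem slot_int {m : ℕ} (h : Sim N R M T T') {s : ℕ} (hs : s < R)
    (f : ℝ[X]) (hf : 2 * m + f.natDegree < N) :
    Ig T m f ((s * 3 ^ N : ℕ) : ℝ) (((s + 1) * 3 ^ N : ℕ) : ℝ) =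
      Ig T' m f ((s * 3 ^ N : ℕ) : ℝ) (((s + 1) * 3 ^ N : ℕ) : ℝ) := by
  rcases h.slot s hs with h1 | h1
  · refine Ig_congr f (Nat.cast_le.mpr (Nat.mul_le_mul_right _ (by omega))) fun u h2 h3 => ?_
    exact same_slot (by omega) h hs h1 h2 h3 m (by omega)
  · exact cls_slot h hs h1 f hf

/-- above the end of a slot -/
theorem int_up {m : ℕ} (h : Sim N R M T T') (f : ℝ[X]) (hf : 2 * m + f.natDegree < N) {s : ℕ}
    (hs : s ≤ R) : Ig T m f ((s * 3 ^ N : ℕ) : ℝ) M = Ig T' m f ((s * 3 ^ N : ℕ) : ℝ) M := by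
  obtain ⟨k, rfl⟩ : ∃ k, R = s + k := ⟨R - s, by omega⟩
  clear hs
  induction k generalizing s with
  | zero =>
    refine Ig_congr f (Nat.cast_le.mpr h.RM) fun u h1 _ => ?_
    rw [same_tail (by omega) h h1]
  | succ k ih =>
    rw [← Ig_adj T m f _ (((s + 1) * 3 ^ N : ℕ) : ℝ), ← Ig_adj T' m f _ (((s + 1) * 3 ^ N : ℕ) : ℝ),
      slot_int h (by omega) f hf]
    congr 1
    have h3 := ih (s := s + 1)
    rw [show s + 1 + k = s + (k + 1) by ring] at h3
    exact h3 h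

end INV

open INV Pool.Agent.Helper24.T1

theorem sim_card {N R M : ℕ} {T T' : Finset ℕ} (hN : 1 ≤ N) (h : Sim N R M T T') :
    T.card = T'.card := by
  have h1 : ∀ T : Finset ℕ, T.card = (Lo T (R * 3 ^ N)).card + (Up T (R * 3 ^ N)).card := by
    intro T
    rw [← card_union_of_disjoint]
    · congr 1
      ext z
      rw [mem_union, mem_Lo, mem_Up]
      constructor
      · intro hz
        rcases Nat.lt_or_ge z (R * 3 ^ N) with h2 | h2
        · exact Or.inl ⟨hz, h2⟩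
        · exact Or.inr ⟨hz, h2⟩
      · rintro (h2 | h2)
        · exact h2.1
        · exact h2.1
    · rw [disjoint_left]
      intro z hz hz'
      have := (mem_Lo.mp hz).2
      have := (mem_Up.mp hz').2
      omega
  rw [h1, h1 T', card_Lo hN h le_rfl, Up_tail h le_rfl]

/-- elementary symmetric functions of the ticks -/
theorem inv_e {N R M : ℕ} {T T' : Finset ℕ} (h : Sim N R M T T') {m : ℕ} (hm : m < N) :
    (gp T 0).coeff m = (gp T' 0).coeff m := by
  have h1 : ∀ T : Finset ℕ, gp T 0 = Ps (Up T (0 * 3 ^ N)) 0 := by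
    intro T
    have h2 : Up T (0 * 3 ^ N) = T := by
      ext z
      rw [mem_Up, zero_mul]
      simp
    rw [h2]
    refine prod_congr rfl fun z _ => ?_
    rw [zero_add, max_eq_right (Nat.cast_nonneg z)]
  rw [h1, h1]
  exact Ps_Up h 0 0 m hm

theorem inv_up {N R M : ℕ} {T T' : Finset ℕ} (h : Sim N R M T T') {z0 : ℕ}
    (hz : Cut N R T T' z0) (hzM : z0 ≤ M) {m p : ℕ} (hm : 2 * m + p < N) :
    ∫ u in (z0 : ℝ)..M, u ^ p * (gp T u).coeff m =
      ∫ u in (z0 : ℝ)..M, u ^ p * (gp T' u).coeff m := by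
  have hN : 1 ≤ N := by omega
  have h0 : ∀ T : Finset ℕ, ∫ u in (z0 : ℝ)..M, u ^ p * (gp T u).coeff m = Ig T m (X ^ p) z0 M := by
    intro T
    refine intervalIntegral.integral_congr fun u _ => ?_
    show _ * _ = _ * _
    rw [eval_pow, eval_X, mul_comm]
  have hf : 2 * m + (X ^ p : ℝ[X]).natDegree < N := by rwa [natDegree_X_pow]
  rw [h0, h0]
  rcases hz with rfl | hz | hz
  · have h1 := int_up h (X ^ p) hf (Nat.zero_le R)
    rwa [zero_mul] at h1
  · refine Ig_congr _ (Nat.cast_le.mpr hzM) fun u h1 _ => ?_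
    rw [same_tail hN h ((Nat.cast_le.mpr hz).trans h1)]
  · set s := z0 / 3 ^ N with hs
    have hA : 0 < 3 ^ N := by positivity
    have h2 : s * 3 ^ N ≤ z0 := Nat.div_mul_le_self z0 (3 ^ N)
    have h3 : z0 < (s + 1) * 3 ^ N := by
      rw [add_mul, one_mul]
      nlinarith [Nat.div_add_mod z0 (3 ^ N), Nat.mod_lt z0 hA, mul_comm (3 ^ N) s]
    rcases Nat.lt_or_ge s R with hsR | hsR
    · rw [← Ig_adj T m _ _ (((s + 1) * 3 ^ N : ℕ) : ℝ), ← Ig_adj T' m _ _ (((s + 1) * 3 ^ N : ℕ) : ℝ),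
        int_up h (X ^ p) hf (by omega)]
      congr 1
      refine Ig_congr _ (Nat.cast_le.mpr h3.le) fun u h4 h5 => ?_
      exact same_slot hN h hsR hz ((Nat.cast_le.mpr h2).trans h4) h5 m (by omega)
    · refine Ig_congr _ (Nat.cast_le.mpr hzM) fun u h1 _ => ?_
      rw [same_tail hN h ((Nat.cast_le.mpr ((Nat.mul_le_mul_right _ hsR).trans h2)).trans h1)]

theorem inv_down {N R M : ℕ} {T T' : Finset ℕ} (h : Sim N R M T T') {z0 : ℕ}
    (hz : Cut N R T T' z0) (hzM : z0 ≤ M) {m p : ℕ} (hm : 2 * m + p < N) :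
    ∫ u in (0 : ℝ)..z0, u ^ p * (gp T u).coeff m =
      ∫ u in (0 : ℝ)..z0, u ^ p * (gp T' u).coeff m := by
  have h1 := inv_up h hz hzM hm
  have h2 := inv_up h (z0 := 0) (Or.inl rfl) (Nat.zero_le M) hm
  have hc : ∀ T : Finset ℕ, Continuous fun u : ℝ => u ^ p * (gp T u).coeff m := fun T =>
    (continuous_pow p).mul (continuous_coeff T m)
  have h3 : ∀ T : Finset ℕ, (∫ u in (0 : ℝ)..z0, u ^ p * (gp T u).coeff m) +
      (∫ u in (z0 : ℝ)..M, u ^ p * (gp T u).coeff m) = ∫ u in (0 : ℝ)..M,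
        u ^ p * (gp T u).coeff m := fun T =>
    intervalIntegral.integral_add_adjacent_intervals ((hc T).intervalIntegrable _ _)
      ((hc T).intervalIntegrable _ _)
  rw [Nat.cast_zero] at h2
  linarith [h3 T, h3 T']

/-- power sums above a cut -/
theorem inv_pow {N R M : ℕ} {T T' : Finset ℕ} (h : Sim N R M T T') {z0 : ℕ}
    (hz : Cut N R T T' z0) {i : ℕ} (hi : i < N) :
    ∑ z ∈ T with z0 ≤ z, (z : ℤ) ^ i = ∑ z ∈ T' with z0 ≤ z, (z : ℤ) ^ i := by
  -- a slot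
  have hslot : ∀ s < R, ∑ z ∈ Sl N s T, (z : ℤ) ^ i = ∑ z ∈ Sl N s T', (z : ℤ) ^ i := by
    intro s hs
    rcases h.slot s hs with h1 | ⟨t, t', h1⟩
    · rw [Sl_same h1]
    · rw [Sl_cls fun z hz => (h1 z hz).1, Sl_cls fun z hz => (h1 z hz).2, sum_map, sum_map]
      have h2 := lin_indep hi ((s * 3 ^ N : ℕ) : ℤ) 1 t t'
      simp only [one_mul] at h2
      refine Eq.trans ?_ (h2.trans ?_)
      · refine sum_congr rfl fun z _ => ?_
        rw [addLeftEmbedding_apply, Nat.cast_add]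
      · refine sum_congr rfl fun z _ => ?_
        rw [addLeftEmbedding_apply, Nat.cast_add]
  have hup : ∀ s ≤ R, ∑ z ∈ Up T (s * 3 ^ N), (z : ℤ) ^ i = ∑ z ∈ Up T' (s * 3 ^ N), (z : ℤ) ^ i := by
    intro s hs
    obtain ⟨k, rfl⟩ : ∃ k, R = s + k := ⟨R - s, by omega⟩
    clear hs
    induction k generalizing s with
    | zero => rw [Up_tail h (Nat.mul_le_mul_right _ (by omega))]
    | succ k ih =>
      have h1 : ∀ T : Finset ℕ, Up T (s * 3 ^ N) = Sl N s T ∪ Up T ((s + 1) * 3 ^ N) :=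
        Up_succ N s
      have h2 : ∀ T : Finset ℕ, Disjoint (Sl N s T) (Up T ((s + 1) * 3 ^ N)) := by
        intro T
        rw [disjoint_left]
        intro z hz hz'
        have := (mem_Up.mp hz').2
        have := (mem_Sl.mp hz).2.2
        omega
      rw [h1, h1, sum_union (h2 T), sum_union (h2 T'), hslot s (by omega)]
      congr 1
      have h3 := ih (s := s + 1)
      rw [show s + 1 + k = s + (k + 1) by ring] at h3
      exact h3 h hz hslot
  rcases hz with rfl | hz | hz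
  · have h1 := hup 0 (Nat.zero_le R)
    rw [zero_mul] at h1
    exact h1
  · have h1 := Up_tail h hz
    show ∑ z ∈ Up T z0, _ = ∑ z ∈ Up T' z0, _
    rw [h1]
  · set s := z0 / 3 ^ N with hs
    have hA : 0 < 3 ^ N := by positivity
    have h2 : s * 3 ^ N ≤ z0 := Nat.div_mul_le_self z0 (3 ^ N)
    have h3 : z0 < (s + 1) * 3 ^ N := by
      rw [add_mul, one_mul]
      nlinarith [Nat.div_add_mod z0 (3 ^ N), Nat.mod_lt z0 hA, mul_comm (3 ^ N) s]
    rcases Nat.lt_or_ge s R with hsR | hsR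
    · have h1 : ∀ T : Finset ℕ, (T.filter fun z => z0 ≤ z) =
          (Sl N s T).filter (fun z => z0 ≤ z) ∪ Up T ((s + 1) * 3 ^ N) := by
        intro T
        ext z
        rw [mem_union, mem_filter, mem_filter, mem_Up, mem_Sl]
        constructor
        · rintro ⟨h4, h5⟩
          rcases Nat.lt_or_ge z ((s + 1) * 3 ^ N) with h6 | h6
          · exact Or.inl ⟨⟨h4, by omega, h6⟩, h5⟩
          · exact Or.inr ⟨h4, h6⟩
        · rintro (⟨⟨h4, -, -⟩, h5⟩ | ⟨h4, h5⟩)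
          · exact ⟨h4, h5⟩
          · exact ⟨h4, by omega⟩
      have h4 : ∀ T : Finset ℕ,
          Disjoint ((Sl N s T).filter (fun z => z0 ≤ z)) (Up T ((s + 1) * 3 ^ N)) := by
        intro T
        rw [disjoint_left]
        intro z hz hz'
        have := (mem_Up.mp hz').2
        have := (mem_Sl.mp (mem_filter.mp hz).1).2.2
        omega
      rw [h1 T, h1 T', sum_union (h4 T), sum_union (h4 T'), Sl_same hz, hup (s + 1) (by omega)]
    · have h1 := Up_tail h ((Nat.mul_le_mul_right _ hsR).trans h2)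
      show ∑ z ∈ Up T z0, _ = ∑ z ∈ Up T' z0, _
      rw [h1]

end Pool.Agent.T1K
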