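import Mathlib
import Pool.Agent.T1K.Defs2

/-!
# T1, row R6c: leading order of the marginal on the coded region
-/

set_option autoImplicit false

open Finset

namespace Pool.Agent.T1K

namespace Lead

lemma phi_nonneg (c : ℕ → ℝ) (T : Finset ℕ) (x y : ℝ) : 0 ≤ Phi c T x y :=
  Finset.prod_nonneg fun _ _ => le_max_left _ _

lemma phi_le_one {c : ℕ → ℝ} {T : Finset ℕ} {x y : ℝ} (hx : 0 ≤ x) (hy : y ≤ 1) :
    Phi c T x y ≤ 1 := by
  refine Finset.prod_le_one (fun _ _ => le_max_left _ _) fun z _ => ?_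
  refine max_le zero_le_one ?_
  have := le_max_left x (c z)
  linarith

lemma cont_phi1 (c : ℕ → ℝ) (T : Finset ℕ) (x : ℝ) : Continuous fun y => Phi c T x y := by
  unfold Phi
  fun_prop

lemma cont_phi2 (c : ℕ → ℝ) (T : Finset ℕ) (x : ℝ) : Continuous fun y => Phi c T (1 - y) x := by
  unfold Phi
  fun_prop

/-- first order expansion of a product, abstract step -/
lemma prod_exp {T : Finset ℕ} {f e : ℕ → ℝ} {d : ℝ} (hd : 0 ≤ d) (hf1 : ∀ z ∈ T, f z ≤ 1)
    (he0 : ∀ z ∈ T, 0 ≤ e z) (hed : ∀ z ∈ T, e z ≤ d) (hef : ∀ z ∈ T, e z ≤ f z) :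
    |∏ z ∈ T, (f z - e z) - (∏ z ∈ T, f z - ∑ z ∈ T, e z * ∏ w ∈ T.erase z, f w)|
      ≤ (T.card * d) ^ 2 / 2 ∧
    0 ≤ ∑ z ∈ T, e z * ∏ w ∈ T.erase z, f w ∧
    ∑ z ∈ T, e z * ∏ w ∈ T.erase z, f w ≤ T.card * d := by
  classical
  induction T using Finset.induction_on with
  | empty => simp
  | insert w T hw ih =>
    have m : ∀ z ∈ T, z ∈ insert w T := fun z hz => Finset.mem_insert_of_mem hz
    obtain ⟨i1, i2, i3⟩ := ih (fun z hz => hf1 z (m z hz)) (fun z hz => he0 z (m z hz))
      (fun z hz => hed z (m z hz)) (fun z hz => hef z (m z hz))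
    have w1 := hf1 w (Finset.mem_insert_self w T)
    have w2 := he0 w (Finset.mem_insert_self w T)
    have w3 := hed w (Finset.mem_insert_self w T)
    have w4 := hef w (Finset.mem_insert_self w T)
    have hL : ∑ z ∈ insert w T, e z * ∏ v ∈ (insert w T).erase z, f v
        = f w * (∑ z ∈ T, e z * ∏ v ∈ T.erase z, f v) + e w * ∏ v ∈ T, f v := by
      rw [Finset.sum_insert hw, Finset.erase_insert hw, Finset.mul_sum, add_comm]
      congr 1
      refine Finset.sum_congr rfl fun z hz => ?_
      have hzw : z ≠ w := fun h => hw (h ▸ hz)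
      have h1 : (insert w T).erase z = insert w (T.erase z) := by
        rw [Finset.erase_insert_of_ne hzw.symm]
      have h2 : w ∉ T.erase z := fun h => hw (Finset.mem_of_mem_erase h)
      rw [h1, Finset.prod_insert h2]
      ring
    have hF0 : 0 ≤ ∏ v ∈ T, f v :=
      Finset.prod_nonneg fun z hz => (he0 z (m z hz)).trans (hef z (m z hz))
    have hF1 : ∏ v ∈ T, f v ≤ 1 :=
      Finset.prod_le_one (fun z hz => (he0 z (m z hz)).trans (hef z (m z hz)))
        fun z hz => hf1 z (m z hz)
    rw [hL, Finset.prod_insert hw, Finset.prod_insert hw, Finset.card_insert_of_notMem hw]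
    push_cast
    set P := ∏ z ∈ T, (f z - e z)
    set F := ∏ v ∈ T, f v
    set L := ∑ z ∈ T, e z * ∏ v ∈ T.erase z, f v
    set n : ℝ := (T.card : ℝ)
    have hn : 0 ≤ n := Nat.cast_nonneg _
    have hLw : 0 ≤ f w * L := mul_nonneg (w2.trans w4) i2
    refine ⟨?_, ?_, ?_⟩
    · have e1 : (f w - e w) * P - (f w * F - (f w * L + e w * F))
          = (f w - e w) * (P - (F - L)) + e w * L := by ring
      rw [e1]
      have h1 : |(f w - e w) * (P - (F - L))| ≤ (n * d) ^ 2 / 2 := by
        rw [abs_mul, abs_of_nonneg (by linarith)]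
        calc (f w - e w) * |P - (F - L)| ≤ 1 * |P - (F - L)| :=
              mul_le_mul_of_nonneg_right (by linarith) (abs_nonneg _)
          _ ≤ _ := by rw [one_mul]; exact i1
      have h2 : |e w * L| ≤ d * (n * d) := by
        rw [abs_of_nonneg (mul_nonneg w2 i2)]
        exact mul_le_mul w3 i3 i2 hd
      have h3 := abs_add_le ((f w - e w) * (P - (F - L))) (e w * L)
      nlinarith [sq_nonneg d]
    · have := mul_nonneg w2 hF0
      linarith
    · have h1 : f w * L ≤ 1 * (n * d) := mul_le_mul w1 i3 i2 zero_le_one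
      have h2 : e w * F ≤ d * 1 := mul_le_mul w3 hF1 hF0 hd
      linarith

/-- constant base -/
lemma prod_exp_const {T : Finset ℕ} {s : ℝ} {e : ℕ → ℝ} {d : ℝ} (hd : 0 ≤ d) (hs : s ≤ 1)
    (he0 : ∀ z ∈ T, 0 ≤ e z) (hed : ∀ z ∈ T, e z ≤ d) (hef : d ≤ s) :
    |∏ z ∈ T, (s - e z) - (s ^ T.card - s ^ (T.card - 1) * ∑ z ∈ T, e z)|
      ≤ (T.card * d) ^ 2 / 2 := by
  have h := (prod_exp (T := T) (f := fun _ => s) (e := e) hd (fun _ _ => hs) he0 hed
    (fun z hz => (hed z hz).trans hef)).1
  have e1 : ∑ z ∈ T, e z * ∏ w ∈ T.erase z, s = s ^ (T.card - 1) * ∑ z ∈ T, e z := by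
    rw [Finset.mul_sum]
    refine Finset.sum_congr rfl fun z hz => ?_
    rw [Finset.prod_const, Finset.card_erase_of_mem hz, mul_comm]
  rw [Finset.prod_const, e1] at h
  exact h

lemma facts {M K : ℕ} {a h eta : ℝ} (st : Std a h eta K M) :
    9 ≤ (K : ℝ) ∧ a ≤ 1 / 450 ∧ h * M ≤ 1 / 900 ∧ 0 < h * M ∧ (K : ℝ) * (h * M) = eta / 2 ∧
      0 < eta ∧ h * M ≤ eta / 18 := by
  obtain ⟨a0, h0, aK, K9, M1, etaEq, small, hMa⟩ := st
  have hK : (9 : ℝ) ≤ K := by exact_mod_cast K9
  have hM : (1 : ℝ) ≤ M := by exact_mod_cast M1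
  have ha : a ≤ 1 / 450 := by nlinarith
  have hhM : 0 < h * M := mul_pos h0 (by linarith)
  have he : (K : ℝ) * (h * M) = eta / 2 := by rw [← etaEq]; ring
  refine ⟨hK, ha, by linarith, hhM, he, ?_, ?_⟩
  · have : 0 < (K : ℝ) * (h * M) := mul_pos (by linarith) hhM
    linarith
  · nlinarith

end Lead

open Lead in
theorem kap_lower {M K k : ℕ} {S0 : Finset ℕ} {a h eta : ℝ} (st : Std a h eta K M)
    (hS0 : ∀ z ∈ S0, z ≤ M) (hSK : S0.card ≤ K) (hkK : k ≤ K) (hk8 : 8 ≤ k) :
    1 / (12 * (K : ℝ)) ≤ kap a h M k S0 ∧ kap a h M k S0 ≤ 1 := by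
  obtain ⟨hK, ha, hM, hM0, hKM, heta, -⟩ := facts st
  have a0 := st.a0
  have h0 := st.h0
  have hz : ∀ z ∈ S0, h * (z : ℝ) ≤ h * M := fun z hz =>
    mul_le_mul_of_nonneg_left (by exact_mod_cast hS0 z hz) h0.le
  have hz0 : ∀ z : ℕ, 0 ≤ h * (z : ℝ) := fun z => mul_nonneg h0.le (Nat.cast_nonneg _)
  have hcont : Continuous fun y : ℝ =>
      (y - a) ^ (k - 1) * Phi (fun z => a + h * z) S0 (1 - y) (1 - a) :=
    ((continuous_id.sub continuous_const).pow _).mul (cont_phi2 _ _ _)
  have hpos : ∀ y : ℝ, a ≤ y →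
      0 ≤ (y - a) ^ (k - 1) * Phi (fun z => a + h * z) S0 (1 - y) (1 - a) := fun y hy =>
    mul_nonneg (pow_nonneg (by linarith) _) (phi_nonneg _ _ _ _)
  constructor
  · have h1 : ∫ y in (a + h * M)..(1 - (a + h * M)),
        (y - a) ^ (k - 1) * Phi (fun z => a + h * z) S0 (1 - y) (1 - a) ≤ kap a h M k S0 := by
      unfold kap
      refine intervalIntegral.integral_mono_interval le_rfl (by linarith) (by linarith) ?_
        (hcont.intervalIntegrable _ _)
      refine (MeasureTheory.ae_restrict_mem measurableSet_Ioc).mono fun y hy => ?_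
      exact hpos y (by linarith [hy.1])
    have h2 : ∫ y in (a + h * M)..(1 - (a + h * M)),
        (y - a) ^ (k - 1) * Phi (fun z => a + h * z) S0 (1 - y) (1 - a)
        = ∫ y in (a + h * M)..(1 - (a + h * M)), (y - a) ^ (k + S0.card - 1) := by
      refine intervalIntegral.integral_congr fun y hy => ?_
      rw [Set.uIcc_of_le (by linarith)] at hy
      have e1 : Phi (fun z => a + h * z) S0 (1 - y) (1 - a) = (y - a) ^ S0.card := by
        unfold Phi
        rw [← Finset.prod_const]
        refine Finset.prod_congr rfl fun z hz' => ?_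
        have := hz z hz'
        rw [max_eq_left (by linarith [hy.2] : a + h * (z : ℝ) ≤ 1 - y)]
        rw [max_eq_right (by linarith [hy.1])]
        ring
      simp only [e1]
      rw [← pow_add]
      congr 1
      omega
    have h3 : ∫ y in (a + h * M)..(1 - (a + h * M)), (y - a) ^ (k + S0.card - 1)
        = ((1 - (a + h * M) - a) ^ (k + S0.card) - (h * M) ^ (k + S0.card))
          / ((k + S0.card : ℕ) : ℝ) := by
      rw [intervalIntegral.integral_comp_sub_right (fun y => y ^ (k + S0.card - 1)), integral_pow]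
      have e2 : k + S0.card - 1 + 1 = k + S0.card := by omega
      have e3 : ((k + S0.card - 1 : ℕ) : ℝ) + 1 = ((k + S0.card : ℕ) : ℝ) := by
        rw [← e2]; push_cast; simp
      rw [e3, e2]
      congr 3
      ring
    set n := k + S0.card with hn
    have hn8 : 8 ≤ n := by omega
    have hn2 : (n : ℝ) ≤ 2 * K := by
      have : n ≤ 2 * K := by omega
      exact_mod_cast this
    have hn0 : (0 : ℝ) < n := by
      have : 0 < n := by omega
      exact_mod_cast this
    have h4 : (9 : ℝ) / 10 ≤ (1 - (a + h * M) - a) ^ n := by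
      have h5 := one_add_mul_le_pow (a := -(2 * a + h * M)) (by linarith) n
      have h6 : 1 + -(2 * a + h * M) = 1 - (a + h * M) - a := by ring
      rw [h6] at h5
      refine le_trans ?_ h5
      have h7 : (n : ℝ) * (2 * a + h * M) ≤ 2 * K * (5 / 2 * a) :=
        mul_le_mul hn2 (by linarith [st.hMa]) (by linarith) (by linarith)
      have h8 := st.aK
      nlinarith
    have h5 : (h * M) ^ n ≤ 1 / 900 := by
      calc (h * M) ^ n ≤ (h * M) ^ 1 := pow_le_pow_of_le_one hM0.le (by linarith) (by omega)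
        _ ≤ _ := by rw [pow_one]; exact hM
    rw [h2, h3] at h1
    refine le_trans ?_ h1
    rw [div_le_div_iff₀ (by linarith) hn0]
    nlinarith
  · unfold kap
    have h1 := intervalIntegral.norm_integral_le_of_norm_le_const (a := a + h * M) (b := 1)
      (C := 1) (f := fun y => (y - a) ^ (k - 1) * Phi (fun z => a + h * z) S0 (1 - y) (1 - a))
      (by
        intro y hy
        rw [Set.uIoc_of_le (by linarith)] at hy
        rw [Real.norm_eq_abs, abs_of_nonneg (hpos y (by linarith [hy.1]))]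
        exact mul_le_one₀ (pow_le_one₀ (by linarith [hy.1]) (by linarith [hy.2]))
          (phi_nonneg _ _ _ _) (phi_le_one (by linarith [hy.2]) (by linarith)))
    rw [abs_of_nonneg (by linarith), Real.norm_eq_abs] at h1
    have h2 := le_abs_self (∫ y in (a + h * M)..1,
      (y - a) ^ (k - 1) * Phi (fun z => a + h * z) S0 (1 - y) (1 - a))
    linarith

open Lead in
/-- comparison of the two ends (leaf removed on the left) -/
theorem kap_comp {M K : ℕ} {T0 S0 : Finset ℕ} {a h eta : ℝ} (st : Std a h eta K M)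
    (hT0 : ∀ z ∈ T0, z ≤ M) (_hS0 : ∀ z ∈ S0, z ≤ M) (hTK : T0.card = K) (hSK : S0.card = K)
    {z : ℕ} (hz : z ∈ T0) :
    9 / 10 * kap a h M (K - 1) S0 ≤ kap a h M K (T0.erase z) := by
  obtain ⟨hK, ha, hM, hM0, hKM, heta, -⟩ := facts st
  have a0 := st.a0
  have h0 := st.h0
  have K9 := st.K9
  have small := st.small
  have hz0 : ∀ z : ℕ, 0 ≤ h * (z : ℝ) := fun z => mul_nonneg h0.le (Nat.cast_nonneg _)
  unfold kap
  rw [← intervalIntegral.integral_const_mul]
  refine intervalIntegral.integral_mono_on (by linarith) ?_ ?_ fun y hy => ?_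
  · exact (continuous_const.mul (((continuous_id.sub continuous_const).pow _).mul
      (cont_phi2 _ _ _))).intervalIntegrable _ _
  · exact (((continuous_id.sub continuous_const).pow _).mul
      (cont_phi2 _ _ _)).intervalIntegrable _ _
  · have y1 := hy.1
    have y2 := hy.2
    set G : ℝ := min (y - a) (1 - 2 * a) with hG
    have G0 : 0 ≤ G := le_min (by linarith) (by linarith)
    have G1 : G ≤ y - a := min_le_left _ _
    have G2 : G ≤ 1 - 2 * a := min_le_right _ _
    have s0 : 0 ≤ y - a := by linarith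
    have u1 : Phi (fun z => a + h * z) S0 (1 - y) (1 - a) ≤ G ^ K := by
      unfold Phi
      rw [← hSK, ← Finset.prod_const]
      refine Finset.prod_le_prod (fun _ _ => le_max_left _ _) fun w hw => ?_
      refine max_le G0 (le_min ?_ ?_)
      · have := le_max_left (1 - y) (a + h * (w : ℝ))
        linarith
      · have := le_max_right (1 - y) (a + h * (w : ℝ))
        have := hz0 w
        linarith
    have u2 : ((1 - 2 * (h * M)) * G) ^ (K - 1)
        ≤ Phi (fun z => a + h * z) (T0.erase z) (1 - y) (1 - a) := by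
      unfold Phi
      have hc : (T0.erase z).card = K - 1 := by rw [Finset.card_erase_of_mem hz, hTK]
      rw [← hc, ← Finset.prod_const]
      refine Finset.prod_le_prod (fun _ _ => mul_nonneg (by linarith) G0) fun w hw => ?_
      refine le_max_of_le_right ?_
      have hwM : h * (w : ℝ) ≤ h * M := mul_le_mul_of_nonneg_left
        (by exact_mod_cast hT0 w (Finset.mem_of_mem_erase hw)) h0.le
      rcases le_total (1 - y) (a + h * (w : ℝ)) with h1 | h1
      · rw [max_eq_right h1]
        have h2 : (1 - 2 * (h * M)) * G ≤ (1 - 2 * (h * M)) * (1 - 2 * a) :=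
          mul_le_mul_of_nonneg_left G2 (by linarith)
        nlinarith
      · rw [max_eq_left h1]
        have h2 : (1 - 2 * (h * M)) * G ≤ 1 * G :=
          mul_le_mul_of_nonneg_right (by linarith) G0
        linarith
    have u3 : 9 / 10 ≤ (1 - 2 * (h * M)) ^ (K - 1) := by
      have h5 := one_add_mul_le_pow (a := -(2 * (h * M))) (by linarith) (K - 1)
      have h6 : 1 + -(2 * (h * M)) = 1 - 2 * (h * M) := by ring
      rw [h6] at h5
      refine le_trans ?_ h5
      have h7 : ((K - 1 : ℕ) : ℝ) ≤ K := by exact_mod_cast Nat.sub_le _ _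
      have h8 : ((K - 1 : ℕ) : ℝ) * (2 * (h * M)) ≤ K * (2 * (h * M)) :=
        mul_le_mul_of_nonneg_right h7 (by linarith)
      nlinarith
    have e1 : (y - a) ^ (K - 1) = (y - a) ^ (K - 1 - 1) * (y - a) := by
      rw [← pow_succ]
      congr 1
      omega
    have e2 : G ^ K = G ^ (K - 1) * G := by
      rw [← pow_succ]
      congr 1
      omega
    have p1 : 0 ≤ (y - a) ^ (K - 1 - 1) := pow_nonneg s0 _
    have p2 : 0 ≤ G ^ (K - 1) := pow_nonneg G0 _
    calc 9 / 10 * ((y - a) ^ (K - 1 - 1) * Phi (fun z => a + h * z) S0 (1 - y) (1 - a))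
        ≤ 9 / 10 * ((y - a) ^ (K - 1 - 1) * (G ^ (K - 1) * (y - a))) := by
          refine mul_le_mul_of_nonneg_left (mul_le_mul_of_nonneg_left ?_ p1) (by norm_num)
          refine u1.trans ?_
          rw [e2]
          exact mul_le_mul_of_nonneg_left G1 p2
      _ = (y - a) ^ (K - 1) * (9 / 10 * G ^ (K - 1)) := by rw [e1]; ring
      _ ≤ (y - a) ^ (K - 1) * ((1 - 2 * (h * M)) ^ (K - 1) * G ^ (K - 1)) :=
          mul_le_mul_of_nonneg_left (mul_le_mul_of_nonneg_right u3 p2) (pow_nonneg s0 _)
      _ ≤ _ := by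
          rw [← mul_pow]
          exact mul_le_mul_of_nonneg_left u2 (pow_nonneg s0 _)

namespace Lead

/-- first order expansion of the lower weight -/
lemma phiT_exp {M : ℕ} {T : Finset ℕ} {a h : ℝ} (h0 : 0 < h) (hT : ∀ z ∈ T, z ≤ M)
    {u y : ℝ} (hu0 : 0 ≤ u) (huM : u ≤ M) (hy : a + h * M ≤ y) (hy1 : y - a ≤ 1) :
    |Phi (fun z => a + h * z) T (a + h * u) y
      - ((y - a) ^ T.card - (y - a) ^ (T.card - 1) * (h * (T.card * u + DD T u)))|
      ≤ (T.card * (h * M)) ^ 2 / 2 := by
  have hM0 : (0 : ℝ) ≤ M := Nat.cast_nonneg _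
  have e1 : Phi (fun z => a + h * z) T (a + h * u) y = ∏ z ∈ T, ((y - a) - h * max u (z : ℝ)) := by
    unfold Phi
    refine Finset.prod_congr rfl fun z hz => ?_
    have hzM : (z : ℝ) ≤ M := by exact_mod_cast hT z hz
    have e2 : max (a + h * u) (a + h * (z : ℝ)) = a + h * max u (z : ℝ) := by
      rw [mul_max_of_nonneg _ _ h0.le, max_add_add_left]
    rw [e2, max_eq_right]
    · ring
    · have : h * max u (z : ℝ) ≤ h * M := mul_le_mul_of_nonneg_left (max_le huM hzM) h0.le
      linarith
  have e3 : ∑ z ∈ T, h * max u (z : ℝ) = h * (T.card * u + DD T u) := by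
    rw [← Finset.mul_sum]
    congr 1
    unfold DD
    rw [← nsmul_eq_mul, ← Finset.sum_const, ← Finset.sum_add_distrib]
    refine Finset.sum_congr rfl fun z _ => ?_
    rcases le_total u (z : ℝ) with h1 | h1
    · rw [max_eq_right h1, max_eq_right (by linarith)]; ring
    · rw [max_eq_left h1, max_eq_left (by linarith)]; ring
  rw [e1, ← e3]
  refine prod_exp_const (mul_nonneg h0.le hM0) hy1 (fun z _ => ?_) (fun z hz => ?_) (by linarith)
  · exact mul_nonneg h0.le (le_max_of_le_left hu0)
  · exact mul_le_mul_of_nonneg_left (max_le huM (by exact_mod_cast hT z hz)) h0.le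

lemma DD_nonneg (T : Finset ℕ) (u : ℝ) : 0 ≤ DD T u :=
  Finset.sum_nonneg fun _ _ => le_max_left _ _

lemma lin_le {M : ℕ} {T : Finset ℕ} (hT : ∀ z ∈ T, z ≤ M) {u : ℝ} (huM : u ≤ M) :
    T.card * u + DD T u ≤ T.card * M := by
  unfold DD
  rw [← nsmul_eq_mul, ← nsmul_eq_mul, ← Finset.sum_const, ← Finset.sum_const,
    ← Finset.sum_add_distrib]
  refine Finset.sum_le_sum fun z hz => ?_
  have hzM : (z : ℝ) ≤ M := by exact_mod_cast hT z hz
  rcases le_total u (z : ℝ) with h1 | h1
  · rw [max_eq_right (by linarith)]; linarith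
  · rw [max_eq_left (by linarith)]; linarith

/-- sum of the weights with one tick removed -/
noncomputable def Q0 (a h : ℝ) (S : Finset ℕ) (y : ℝ) : ℝ :=
  ∑ z ∈ S, Phi (fun z => a + h * z) (S.erase z) (1 - y) (1 - a)

lemma cont_Q0 (a h : ℝ) (S : Finset ℕ) : Continuous (Q0 a h S) := by
  unfold Q0
  exact continuous_finsetSum _ fun z _ => cont_phi2 _ _ _

lemma Q0_nonneg (a h : ℝ) (S : Finset ℕ) (y : ℝ) : 0 ≤ Q0 a h S y :=
  Finset.sum_nonneg fun _ _ => phi_nonneg _ _ _ _

lemma Q0_le {a h : ℝ} {S : Finset ℕ} {y : ℝ} (ha : 0 ≤ a) (hy : y ≤ 1) : Q0 a h S y ≤ S.card := by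
  unfold Q0
  calc ∑ z ∈ S, Phi (fun z => a + h * z) (S.erase z) (1 - y) (1 - a) ≤ ∑ z ∈ S, (1 : ℝ) :=
        Finset.sum_le_sum fun z _ => phi_le_one (by linarith) (by linarith)
    _ = _ := by simp

/-- first order expansion of the upper weight -/
lemma phiS_exp {M : ℕ} {S : Finset ℕ} {a h : ℝ} (a0 : 0 < a) (h0 : 0 < h) (h2 : h * M ≤ 1 / 900)
    (ha : a ≤ 1 / 450) (hS : ∀ z ∈ S, z ≤ M) {u y : ℝ} (hu0 : 0 ≤ u) (huM : u ≤ M)
    (hy : a + h * M ≤ y) (hy1 : y ≤ 1) :
    |Phi (fun z => a + h * z) S (1 - y) (1 - (a + h * u))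
      - (Phi (fun z => a + h * z) S (1 - y) (1 - a) - h * u * Q0 a h S y)|
      ≤ (S.card * (h * M)) ^ 2 / 2 := by
  have hM0 : (0 : ℝ) ≤ M := Nat.cast_nonneg _
  have hu : h * u ≤ h * M := mul_le_mul_of_nonneg_left huM h0.le
  have huu : 0 ≤ h * u := mul_nonneg h0.le hu0
  have key : ∀ z ∈ S, h * M ≤ 1 - a - max (1 - y) (a + h * (z : ℝ)) := by
    intro z hz
    have hzM : h * (z : ℝ) ≤ h * M :=
      mul_le_mul_of_nonneg_left (by exact_mod_cast hS z hz) h0.le
    rcases le_total (1 - y) (a + h * (z : ℝ)) with h1 | h1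
    · rw [max_eq_right h1]; linarith
    · rw [max_eq_left h1]; linarith
  have hh := (prod_exp (T := S) (f := fun z => max 0 (1 - a - max (1 - y) (a + h * (z : ℝ))))
    (e := fun _ => h * u) (d := h * M) (mul_nonneg h0.le hM0) (fun z hz => ?_)
    (fun z _ => huu) (fun z _ => hu) (fun z hz => ?_)).1
  · have e1 : ∏ z ∈ S, (max 0 (1 - a - max (1 - y) (a + h * (z : ℝ))) - h * u)
        = Phi (fun z => a + h * z) S (1 - y) (1 - (a + h * u)) := by
      unfold Phi
      refine Finset.prod_congr rfl fun z hz => ?_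
      have := key z hz
      rw [max_eq_right (show (0 : ℝ) ≤ 1 - a - max (1 - y) (a + h * (z : ℝ)) by linarith),
        max_eq_right (show (0 : ℝ) ≤ 1 - (a + h * u) - max (1 - y) (a + h * (z : ℝ)) by linarith)]
      ring
    have e2 : ∑ z ∈ S, h * u * ∏ w ∈ S.erase z, max 0 (1 - a - max (1 - y) (a + h * (w : ℝ)))
        = h * u * Q0 a h S y := by
      unfold Q0 Phi
      rw [Finset.mul_sum]
    rw [e1, e2] at hh
    exact hh
  · refine max_le zero_le_one ?_
    have := le_max_left (1 - y) (a + h * (z : ℝ))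
    linarith
  · exact hu.trans ((key z hz).trans (le_max_right _ _))

/-- the product of the two expansions -/
lemma mul_exp {A B A0 A1 B0 B1 e : ℝ} (he0 : 0 ≤ e) (he1 : e ≤ 1) (hA : |A - (A0 - A1)| ≤ e ^ 2 / 2)
    (hB : |B - (B0 - B1)| ≤ e ^ 2 / 2) (hB0 : 0 ≤ B) (hB1 : B ≤ 1) (a0 : 0 ≤ A0) (a1 : A0 ≤ 1)
    (a2 : 0 ≤ A1) (a3 : A1 ≤ e) (b2 : 0 ≤ B1) (b3 : B1 ≤ e) :
    |A * B - (A0 * B0 - A0 * B1 - A1 * B0)| ≤ 2 * e ^ 2 := by
  have e1 : A * B - (A0 * B0 - A0 * B1 - A1 * B0)
      = (A - (A0 - A1)) * B + (A0 - A1) * (B - (B0 - B1)) + A1 * B1 := by ring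
  rw [e1]
  have h1 : |(A - (A0 - A1)) * B| ≤ e ^ 2 / 2 * 1 := by
    rw [abs_mul, abs_of_nonneg hB0]
    exact mul_le_mul hA hB1 hB0 (by positivity)
  have h2 : |(A0 - A1) * (B - (B0 - B1))| ≤ 1 * (e ^ 2 / 2) := by
    rw [abs_mul]
    refine mul_le_mul ?_ hB (abs_nonneg _) zero_le_one
    rw [abs_le]
    constructor <;> linarith
  have h3 : |A1 * B1| ≤ e * e := by
    rw [abs_of_nonneg (mul_nonneg a2 b2)]
    exact mul_le_mul a3 b3 b2 he0
  have h4 := abs_add_le ((A - (A0 - A1)) * B + (A0 - A1) * (B - (B0 - B1))) (A1 * B1)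
  have h5 := abs_add_le ((A - (A0 - A1)) * B) ((A0 - A1) * (B - (B0 - B1)))
  nlinarith

/-- all factors in a short interval -/
lemma phi_close {M n : ℕ} {S S' : Finset ℕ} {a h : ℝ} (h0 : 0 < h)
    (hS : ∀ z ∈ S, z ≤ M) (hS' : ∀ z ∈ S', z ≤ M) (hc : S.card = n) (hc' : S'.card = n)
    {x y : ℝ} (hx : 0 ≤ x) (hy1 : y ≤ 1) (hy : a + h * M ≤ y) (hxy : x + h * M ≤ y) :
    |Phi (fun z => a + h * z) S x y - Phi (fun z => a + h * z) S' x y| ≤ n * (h * M) := by
  have hM0 : 0 ≤ h * (M : ℝ) := mul_nonneg h0.le (Nat.cast_nonneg _)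
  -- `y - max x a - h M ≤ factor ≤ y - max x a`
  set g : ℝ := y - max x a with hg
  have hg0 : h * M ≤ g := by
    rw [hg]
    rcases le_total x a with h1 | h1
    · rw [max_eq_right h1]; linarith
    · rw [max_eq_left h1]; linarith
  have hg1 : g ≤ 1 := by
    have := le_max_left x a
    linarith
  have key : ∀ R : Finset ℕ, (∀ z ∈ R, z ≤ M) → R.card = n →
      (g - h * M) ^ n ≤ Phi (fun z => a + h * z) R x y ∧ Phi (fun z => a + h * z) R x y ≤ g ^ n := by
    intro R hR hRc
    unfold Phi
    rw [← hRc, ← Finset.prod_const, ← Finset.prod_const]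
    constructor
    · refine Finset.prod_le_prod (fun z hz => by linarith) fun z hz => ?_
      refine le_max_of_le_right ?_
      have hzM : h * (z : ℝ) ≤ h * M :=
        mul_le_mul_of_nonneg_left (by exact_mod_cast hR z hz) h0.le
      have h1 : max x (a + h * (z : ℝ)) ≤ max x a + h * M := by
        refine max_le ?_ ?_
        · have := le_max_left x a
          linarith
        · have := le_max_right x a
          linarith
      linarith
    · refine Finset.prod_le_prod (fun z hz => le_max_left _ _) fun z hz => ?_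
      refine max_le (by linarith) ?_
      have hz0 : 0 ≤ h * (z : ℝ) := mul_nonneg h0.le (Nat.cast_nonneg _)
      have h1 : max x a ≤ max x (a + h * (z : ℝ)) := max_le_max le_rfl (by linarith)
      linarith
  obtain ⟨k1, k2⟩ := key S hS hc
  obtain ⟨k3, k4⟩ := key S' hS' hc'
  have h5 : g ^ n - (g - h * M) ^ n ≤ n * (h * M) := by
    have h6 : ∀ m : ℕ, g ^ m - (g - h * M) ^ m ≤ m * (h * M) := by
      intro m
      induction m with
      | zero => simp
      | succ m ih =>
        have p1 : 0 ≤ (g - h * M) ^ m := pow_nonneg (by linarith) _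
        have p2 : (g - h * M) ^ m ≤ 1 := pow_le_one₀ (by linarith) (by linarith)
        have p3 : (g - h * M) ^ m ≤ g ^ m := pow_le_pow_left₀ (by linarith) (by linarith) _
        have e1 : g ^ (m + 1) - (g - h * M) ^ (m + 1)
            = g * (g ^ m - (g - h * M) ^ m) + h * M * (g - h * M) ^ m := by ring
        rw [e1]
        push_cast
        have q1 : g * (g ^ m - (g - h * M) ^ m) ≤ 1 * (m * (h * M)) :=
          mul_le_mul hg1 ih (by linarith) zero_le_one
        have q2 : h * M * (g - h * M) ^ m ≤ h * M * 1 := mul_le_mul_of_nonneg_left p2 hM0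
        linarith
    exact h6 n
  rw [abs_le]
  constructor <;> linarith

/-- right of the coded region nothing is seen -/
lemma phi_right {M : ℕ} {S S' : Finset ℕ} {a h : ℝ} (h0 : 0 < h)
    (hS : ∀ z ∈ S, z ≤ M) (hS' : ∀ z ∈ S', z ≤ M) (hc : S.card = S'.card)
    {x y : ℝ} (hx : a + h * M ≤ x) :
    Phi (fun z => a + h * z) S x y = Phi (fun z => a + h * z) S' x y := by
  have key : ∀ R : Finset ℕ, (∀ z ∈ R, z ≤ M) →
      Phi (fun z => a + h * z) R x y = (max 0 (y - x)) ^ R.card := by
    intro R hR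
    unfold Phi
    rw [← Finset.prod_const]
    refine Finset.prod_congr rfl fun z hz => ?_
    have hzM : h * (z : ℝ) ≤ h * M :=
      mul_le_mul_of_nonneg_left (by exact_mod_cast hR z hz) h0.le
    rw [max_eq_left (by linarith : a + h * (z : ℝ) ≤ x)]
  rw [key S hS, key S' hS', hc]

/-- left of the coded region only the sum of the ticks is seen (up to second order) -/
lemma phi_left {M n : ℕ} {S S' : Finset ℕ} {a h : ℝ} (h0 : 0 < h)
    (hS : ∀ z ∈ S, z ≤ M) (hS' : ∀ z ∈ S', z ≤ M) (hc : S.card = n) (hc' : S'.card = n)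
    (hs : ∑ z ∈ S, (z : ℝ) = ∑ z ∈ S', (z : ℝ))
    {x y : ℝ} (hx : x ≤ a) (hy1 : y - a ≤ 1) (hy : a + h * M ≤ y) :
    |Phi (fun z => a + h * z) S x y - Phi (fun z => a + h * z) S' x y| ≤ (n * (h * M)) ^ 2 := by
  have hM0 : 0 ≤ h * (M : ℝ) := mul_nonneg h0.le (Nat.cast_nonneg _)
  have key : ∀ R : Finset ℕ, (∀ z ∈ R, z ≤ M) → R.card = n →
      |Phi (fun z => a + h * z) R x y
        - ((y - a) ^ n - (y - a) ^ (n - 1) * (h * ∑ z ∈ R, (z : ℝ)))| ≤ (n * (h * M)) ^ 2 / 2 := by
    intro R hR hRc
    have e1 : Phi (fun z => a + h * z) R x y = ∏ z ∈ R, ((y - a) - h * (z : ℝ)) := by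
      unfold Phi
      refine Finset.prod_congr rfl fun z hz => ?_
      have hzM : h * (z : ℝ) ≤ h * M :=
        mul_le_mul_of_nonneg_left (by exact_mod_cast hR z hz) h0.le
      have hz0 : 0 ≤ h * (z : ℝ) := mul_nonneg h0.le (Nat.cast_nonneg _)
      rw [max_eq_right (by linarith : x ≤ a + h * (z : ℝ)), max_eq_right (by linarith)]
      ring
    rw [e1, Finset.mul_sum, ← hRc]
    refine prod_exp_const hM0 hy1 (fun z _ => mul_nonneg h0.le (Nat.cast_nonneg _))
      (fun z hz => ?_) (by linarith)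
    exact mul_le_mul_of_nonneg_left (by exact_mod_cast hR z hz) h0.le
  have k1 := key S hS hc
  have k2 := key S' hS' hc'
  rw [hs] at k1
  rw [abs_le] at k1 k2 ⊢
  constructor <;> linarith [k1.1, k1.2, k2.1, k2.2]

end Lead

open Lead in
/-- leading order on the coded region; `S0` is a fixed reference; only the cardinality and the sum
of the upper ticks matter -/
theorem w_lead_aux {M K k : ℕ} {S0 : Finset ℕ} {a h eta : ℝ} (st : Std a h eta K M)
    (hS0 : ∀ z ∈ S0, z ≤ M) (hSK : S0.card ≤ K) (hkK : k ≤ K) (hk8 : 8 ≤ k) :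
    ∃ r0 r1 : ℝ, 0 ≤ r0 ∧ r0 ≤ 1 ∧ |r1| ≤ 2 * h * K ∧
    ∀ T S : Finset ℕ, (∀ z ∈ T, z ≤ M) → T.card = k → (∀ z ∈ S, z ≤ M) → S.card = S0.card →
    ∑ z ∈ S, (z : ℝ) = ∑ z ∈ S0, (z : ℝ) →
    ∀ u : ℝ, 0 ≤ u → u ≤ M →
      |dX (fun z => a + h * z) (fun z => a + h * z) T S (a + h * u)
        - (r0 + r1 * u - kap a h M k S0 * h * DD T u)| ≤ 100 * eta ^ 2 := by
  obtain ⟨hK, ha, hM, hM0, hKM, heta, hM18⟩ := facts st
  have a0 := st.a0
  have h0 := st.h0
  have small := st.small
  have hMM : (0 : ℝ) ≤ M := Nat.cast_nonneg _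
  have hkK' : (k : ℝ) ≤ K := by exact_mod_cast hkK
  have hSK' : (S0.card : ℝ) ≤ K := by exact_mod_cast hSK
  -- continuity and bounds of the main integrands
  have cP : Continuous fun y : ℝ => (y - a) ^ k * Phi (fun z => a + h * z) S0 (1 - y) (1 - a) :=
    ((continuous_id.sub continuous_const).pow _).mul (cont_phi2 _ _ _)
  have cP' : Continuous fun y : ℝ =>
      (y - a) ^ (k - 1) * Phi (fun z => a + h * z) S0 (1 - y) (1 - a) :=
    ((continuous_id.sub continuous_const).pow _).mul (cont_phi2 _ _ _)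
  have cQ : Continuous fun y : ℝ => (y - a) ^ k * Q0 a h S0 y :=
    ((continuous_id.sub continuous_const).pow _).mul (cont_Q0 _ _ _)
  have cR : Continuous fun y : ℝ => (y - a) ^ k * Q0 a h S0 y
      + k * ((y - a) ^ (k - 1) * Phi (fun z => a + h * z) S0 (1 - y) (1 - a)) :=
    cQ.add (continuous_const.mul cP')
  have bP : ∀ m : ℕ, ∀ y ∈ Set.Ioc (a + h * M) 1,
      0 ≤ (y - a) ^ m * Phi (fun z => a + h * z) S0 (1 - y) (1 - a) ∧
      (y - a) ^ m * Phi (fun z => a + h * z) S0 (1 - y) (1 - a) ≤ 1 := by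
    intro m y hy
    have y1 := hy.1
    have y2 := hy.2
    exact ⟨mul_nonneg (pow_nonneg (by linarith) _) (phi_nonneg _ _ _ _),
      mul_le_one₀ (pow_le_one₀ (by linarith) (by linarith))
        (phi_nonneg _ _ _ _) (phi_le_one (by linarith) (by linarith))⟩
  refine ⟨∫ y in (a + h * M)..1, (y - a) ^ k * Phi (fun z => a + h * z) S0 (1 - y) (1 - a),
    -(h * ∫ y in (a + h * M)..1, ((y - a) ^ k * Q0 a h S0 y
      + k * ((y - a) ^ (k - 1) * Phi (fun z => a + h * z) S0 (1 - y) (1 - a)))), ?_, ?_, ?_, ?_⟩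
  · refine intervalIntegral.integral_nonneg (by linarith) fun y hy => ?_
    exact mul_nonneg (pow_nonneg (by linarith [hy.1]) _) (phi_nonneg _ _ _ _)
  · have h1 := intervalIntegral.norm_integral_le_of_norm_le_const (a := a + h * M) (b := 1)
      (C := 1) (f := fun y => (y - a) ^ k * Phi (fun z => a + h * z) S0 (1 - y) (1 - a))
      (by
        intro y hy
        rw [Set.uIoc_of_le (by linarith)] at hy
        rw [Real.norm_eq_abs, abs_of_nonneg (bP k y hy).1]
        exact (bP k y hy).2)
    rw [abs_of_nonneg (by linarith), Real.norm_eq_abs] at h1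
    have h2 := le_abs_self (∫ y in (a + h * M)..1,
      (y - a) ^ k * Phi (fun z => a + h * z) S0 (1 - y) (1 - a))
    linarith
  · have h1 := intervalIntegral.norm_integral_le_of_norm_le_const (a := a + h * M) (b := 1)
      (C := 2 * K) (f := fun y => (y - a) ^ k * Q0 a h S0 y
      + k * ((y - a) ^ (k - 1) * Phi (fun z => a + h * z) S0 (1 - y) (1 - a)))
      (by
        intro y hy
        rw [Set.uIoc_of_le (by linarith)] at hy
        have y1 := hy.1
        have y2 := hy.2
        have b1 := bP (k - 1) y hy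
        have q0 := Q0_nonneg a h S0 y
        have q1 : Q0 a h S0 y ≤ S0.card := Q0_le a0.le y2
        have p0 : 0 ≤ (y - a) ^ k := pow_nonneg (by linarith) _
        have p1 : (y - a) ^ k ≤ 1 := pow_le_one₀ (by linarith) (by linarith)
        have r1 : (y - a) ^ k * Q0 a h S0 y ≤ 1 * K :=
          mul_le_mul p1 (q1.trans hSK') q0 zero_le_one
        have r2 : (k : ℝ) * ((y - a) ^ (k - 1) * Phi (fun z => a + h * z) S0 (1 - y) (1 - a))
            ≤ K * 1 := mul_le_mul hkK' b1.2 b1.1 (by linarith)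
        rw [Real.norm_eq_abs, abs_of_nonneg (add_nonneg (mul_nonneg p0 q0)
          (mul_nonneg (Nat.cast_nonneg _) b1.1))]
        linarith)
    rw [abs_neg, abs_mul, abs_of_pos h0]
    rw [Real.norm_eq_abs] at h1
    have h2 : 2 * (K : ℝ) * |1 - (a + h * M)| ≤ 2 * K * 1 := by
      refine mul_le_mul_of_nonneg_left ?_ (by linarith)
      rw [abs_of_nonneg (by linarith)]
      linarith
    have h3 := mul_le_mul_of_nonneg_left (h1.trans h2) h0.le
    linarith
  · intro T S hT hTk hSle hSc hsum u hu0 huM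
    have hhu : h * u ≤ h * M := mul_le_mul_of_nonneg_left huM h0.le
    have hhu0 : 0 ≤ h * u := mul_nonneg h0.le hu0
    set c : ℕ → ℝ := fun z => a + h * z with hc
    set b : ℝ := a + h * M with hb
    have cA : Continuous fun y => Phi c T (a + h * u) y := cont_phi1 _ _ _
    have cB : ∀ R : Finset ℕ, Continuous fun y => Phi c R (1 - y) (1 - (a + h * u)) :=
      fun R => cont_phi2 _ _ _
    have cAB : ∀ R : Finset ℕ, Continuous fun y =>
      Phi c T (a + h * u) y * Phi c R (1 - y) (1 - (a + h * u)) := fun R => cA.mul (cB R)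
    have bA : ∀ y, y ≤ 1 → 0 ≤ Phi c T (a + h * u) y ∧ Phi c T (a + h * u) y ≤ 1 := fun y hy =>
      ⟨phi_nonneg _ _ _ _, phi_le_one (by linarith) hy⟩
    have bB : ∀ R : Finset ℕ, ∀ y, y ≤ 1 → 0 ≤ Phi c R (1 - y) (1 - (a + h * u)) ∧
        Phi c R (1 - y) (1 - (a + h * u)) ≤ 1 := fun R y hy =>
      ⟨phi_nonneg _ _ _ _, phi_le_one (by linarith) (by linarith)⟩
    have s1 : dX c c T S (a + h * u)
        = (∫ y in (0 : ℝ)..b, Phi c T (a + h * u) y * Phi c S (1 - y) (1 - (a + h * u)))
          + ∫ y in b..1, Phi c T (a + h * u) y * Phi c S (1 - y) (1 - (a + h * u)) := by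
      unfold dX W
      rw [intervalIntegral.integral_add_adjacent_intervals] <;>
        exact (cAB S).intervalIntegrable _ _
    -- the part below `b`
    have s2 : |∫ y in (0 : ℝ)..b, Phi c T (a + h * u) y * Phi c S (1 - y) (1 - (a + h * u))|
        ≤ eta ^ 2 := by
      have h1 := intervalIntegral.norm_integral_le_of_norm_le_const (a := 0) (b := b)
        (C := (h * M) ^ k) (f := fun y => Phi c T (a + h * u) y * Phi c S (1 - y) (1 - (a + h * u)))
        (by
          intro y hy
          rw [Set.uIoc_of_le (by linarith)] at hy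
          have y1 := hy.1
          have y2 := hy.2
          have b1 := bB S y (by linarith)
          rw [Real.norm_eq_abs, abs_of_nonneg (mul_nonneg (phi_nonneg _ _ _ _) b1.1)]
          calc Phi c T (a + h * u) y * Phi c S (1 - y) (1 - (a + h * u))
              ≤ (h * M) ^ k * 1 := by
                refine mul_le_mul ?_ b1.2 b1.1 (pow_nonneg hM0.le _)
                unfold Phi
                rw [← hTk, ← Finset.prod_const]
                refine Finset.prod_le_prod (fun _ _ => le_max_left _ _) fun z _ => ?_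
                refine max_le hM0.le ?_
                have := le_max_left (a + h * u) (c z)
                linarith
            _ = _ := mul_one _)
      rw [Real.norm_eq_abs] at h1
      refine h1.trans ?_
      have h2 : (h * M) ^ k ≤ (h * M) ^ 2 :=
        pow_le_pow_of_le_one hM0.le (by linarith) (by omega)
      have h3 : |b - 0| ≤ 1 := by
        rw [abs_of_nonneg (by linarith)]
        linarith
      have h4 : (h * M) ^ 2 ≤ eta ^ 2 := pow_le_pow_left₀ hM0.le (by linarith) 2
      calc (h * M) ^ k * |b - 0| ≤ (h * M) ^ k * 1 :=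
            mul_le_mul_of_nonneg_left h3 (pow_nonneg hM0.le _)
        _ ≤ _ := by linarith
    -- replace `S` by `S0`
    have s3 : |(∫ y in b..1, Phi c T (a + h * u) y * Phi c S (1 - y) (1 - (a + h * u)))
        - ∫ y in b..1, Phi c T (a + h * u) y * Phi c S0 (1 - y) (1 - (a + h * u))|
        ≤ 2 * eta ^ 2 := by
      rw [← intervalIntegral.integral_sub ((cAB S).intervalIntegrable _ _)
        ((cAB S0).intervalIntegrable _ _)]
      have cD : Continuous fun y => Phi c T (a + h * u) y * Phi c S (1 - y) (1 - (a + h * u))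
          - Phi c T (a + h * u) y * Phi c S0 (1 - y) (1 - (a + h * u)) := (cAB S).sub (cAB S0)
      rw [← intervalIntegral.integral_add_adjacent_intervals
        (cD.intervalIntegrable b (1 - b)) (cD.intervalIntegrable (1 - b) 1),
        ← intervalIntegral.integral_add_adjacent_intervals
        (cD.intervalIntegrable (1 - b) (1 - a)) (cD.intervalIntegrable (1 - a) 1)]
      have z1 : ∫ y in b..(1 - b), (Phi c T (a + h * u) y * Phi c S (1 - y) (1 - (a + h * u))
          - Phi c T (a + h * u) y * Phi c S0 (1 - y) (1 - (a + h * u))) = 0 := by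
        have h1 : ∫ y in b..(1 - b), (Phi c T (a + h * u) y * Phi c S (1 - y) (1 - (a + h * u))
          - Phi c T (a + h * u) y * Phi c S0 (1 - y) (1 - (a + h * u)))
            = ∫ y in b..(1 - b), (0 : ℝ) := by
          refine intervalIntegral.integral_congr fun y hy => ?_
          rw [Set.uIcc_of_le (by linarith)] at hy
          have e1 : Phi c S (1 - y) (1 - (a + h * u)) = Phi c S0 (1 - y) (1 - (a + h * u)) :=
            phi_right h0 hSle hS0 hSc (by linarith [hy.2])
          simp only [e1, sub_self]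
        rw [h1]
        simp
      have z2 := intervalIntegral.norm_integral_le_of_norm_le_const (a := 1 - b) (b := 1 - a)
        (C := K * (h * M)) (f := fun y => Phi c T (a + h * u) y * Phi c S (1 - y) (1 - (a + h * u))
          - Phi c T (a + h * u) y * Phi c S0 (1 - y) (1 - (a + h * u)))
        (by
          intro y hy
          rw [Set.uIoc_of_le (by linarith)] at hy
          have y1 := hy.1
          have y2 := hy.2
          have b1 := bA y (by linarith)
          rw [Real.norm_eq_abs, ← mul_sub, abs_mul, abs_of_nonneg b1.1]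
          have e1 : |Phi c S (1 - y) (1 - (a + h * u)) - Phi c S0 (1 - y) (1 - (a + h * u))|
              ≤ S0.card * (h * M) :=
            phi_close h0 hSle hS0 hSc rfl (by linarith) (by linarith) (by linarith) (by linarith)
          have e2 : (S0.card : ℝ) * (h * M) ≤ K * (h * M) :=
            mul_le_mul_of_nonneg_right hSK' hM0.le
          calc _ ≤ 1 * (K * (h * M)) :=
                mul_le_mul b1.2 (e1.trans e2) (abs_nonneg _) zero_le_one
            _ = _ := one_mul _)
      have z3 := intervalIntegral.norm_integral_le_of_norm_le_const (a := 1 - a) (b := 1)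
        (C := (K * (h * M)) ^ 2)
        (f := fun y => Phi c T (a + h * u) y * Phi c S (1 - y) (1 - (a + h * u))
          - Phi c T (a + h * u) y * Phi c S0 (1 - y) (1 - (a + h * u)))
        (by
          intro y hy
          rw [Set.uIoc_of_le (by linarith)] at hy
          have y1 := hy.1
          have y2 := hy.2
          have b1 := bA y (by linarith)
          rw [Real.norm_eq_abs, ← mul_sub, abs_mul, abs_of_nonneg b1.1]
          have e1 : |Phi c S (1 - y) (1 - (a + h * u)) - Phi c S0 (1 - y) (1 - (a + h * u))|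
              ≤ (S0.card * (h * M)) ^ 2 :=
            phi_left h0 hSle hS0 hSc rfl hsum (by linarith) (by linarith) (by linarith)
          have e2 : ((S0.card : ℝ) * (h * M)) ^ 2 ≤ (K * (h * M)) ^ 2 :=
            pow_le_pow_left₀ (mul_nonneg (Nat.cast_nonneg _) hM0.le)
              (mul_le_mul_of_nonneg_right hSK' hM0.le) 2
          calc _ ≤ 1 * (K * (h * M)) ^ 2 :=
                mul_le_mul b1.2 (e1.trans e2) (abs_nonneg _) zero_le_one
            _ = _ := one_mul _)
      rw [z1, zero_add]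
      rw [Real.norm_eq_abs, hKM] at z2 z3
      have e1 : |1 - a - (1 - b)| = h * M := by
        rw [hb, show 1 - a - (1 - (a + h * M)) = h * M by ring, abs_of_pos hM0]
      have e2 : |1 - (1 - a)| ≤ 1 := by
        rw [show 1 - (1 - a) = a by ring, abs_of_pos a0]
        linarith
      rw [e1] at z2
      have z4 : eta / 2 * (h * M) ≤ eta / 2 * eta :=
        mul_le_mul_of_nonneg_left (by linarith) (by linarith)
      have z5 : (eta / 2) ^ 2 * |1 - (1 - a)| ≤ (eta / 2) ^ 2 * 1 :=
        mul_le_mul_of_nonneg_left e2 (by positivity)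
      refine (abs_add_le _ _).trans ?_
      nlinarith
    -- expansion
    have s4 : |(∫ y in b..1, Phi c T (a + h * u) y * Phi c S0 (1 - y) (1 - (a + h * u)))
        - ∫ y in b..1, ((y - a) ^ k * Phi c S0 (1 - y) (1 - a)
          - h * u * ((y - a) ^ k * Q0 a h S0 y
            + k * ((y - a) ^ (k - 1) * Phi c S0 (1 - y) (1 - a)))
          - h * DD T u * ((y - a) ^ (k - 1) * Phi c S0 (1 - y) (1 - a)))|
        ≤ 2 * eta ^ 2 := by
      have cE : Continuous fun y : ℝ => (y - a) ^ k * Phi c S0 (1 - y) (1 - a)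
          - h * u * ((y - a) ^ k * Q0 a h S0 y
            + k * ((y - a) ^ (k - 1) * Phi c S0 (1 - y) (1 - a)))
          - h * DD T u * ((y - a) ^ (k - 1) * Phi c S0 (1 - y) (1 - a)) :=
        (cP.sub (continuous_const.mul cR)).sub (continuous_const.mul cP')
      rw [← intervalIntegral.integral_sub ((cAB S0).intervalIntegrable _ _)
        (cE.intervalIntegrable _ _)]
      have h1 := intervalIntegral.norm_integral_le_of_norm_le_const (a := b) (b := 1)
        (C := 2 * eta ^ 2)
        (f := fun y => Phi c T (a + h * u) y * Phi c S0 (1 - y) (1 - (a + h * u))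
          - ((y - a) ^ k * Phi c S0 (1 - y) (1 - a)
          - h * u * ((y - a) ^ k * Q0 a h S0 y
            + k * ((y - a) ^ (k - 1) * Phi c S0 (1 - y) (1 - a)))
          - h * DD T u * ((y - a) ^ (k - 1) * Phi c S0 (1 - y) (1 - a))))
        (by
          intro y hy
          rw [Set.uIoc_of_le (by linarith)] at hy
          have y1 := hy.1
          have y2 := hy.2
          have hA := phiT_exp (T := T) (a := a) h0 hT hu0 huM (y := y) (by linarith) (by linarith)
          have hB := phiS_exp (S := S0) a0 h0 hM ha hS0 hu0 huM (y := y) (by linarith) y2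
          rw [hTk] at hA
          have hl := lin_le hT huM
          rw [hTk] at hl
          have hD := DD_nonneg T u
          have q0 := Q0_nonneg a h S0 y
          have q1 : Q0 a h S0 y ≤ S0.card := Q0_le a0.le y2
          have p0 : ∀ m : ℕ, 0 ≤ (y - a) ^ m := fun m => pow_nonneg (by linarith) _
          have p1 : ∀ m : ℕ, (y - a) ^ m ≤ 1 := fun m => pow_le_one₀ (by linarith) (by linarith)
          have l0 : 0 ≤ h * (k * u + DD T u) :=
            mul_nonneg h0.le (add_nonneg (mul_nonneg (Nat.cast_nonneg _) hu0) hD)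
          have l1 : h * (k * u + DD T u) ≤ eta := by
            have e1 : h * (k * u + DD T u) ≤ h * (k * M) := mul_le_mul_of_nonneg_left hl h0.le
            have e2 : (k : ℝ) * (h * M) ≤ K * (h * M) := mul_le_mul_of_nonneg_right hkK' hM0.le
            nlinarith
          have m1 : ((k : ℝ) * (h * M)) ^ 2 ≤ eta ^ 2 := by
            refine pow_le_pow_left₀ (mul_nonneg (Nat.cast_nonneg _) hM0.le) ?_ 2
            have e2 : (k : ℝ) * (h * M) ≤ K * (h * M) := mul_le_mul_of_nonneg_right hkK' hM0.le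
            linarith
          have m2 : ((S0.card : ℝ) * (h * M)) ^ 2 ≤ eta ^ 2 := by
            refine pow_le_pow_left₀ (mul_nonneg (Nat.cast_nonneg _) hM0.le) ?_ 2
            have e2 : (S0.card : ℝ) * (h * M) ≤ K * (h * M) :=
              mul_le_mul_of_nonneg_right hSK' hM0.le
            linarith
          have hh := mul_exp (A := Phi c T (a + h * u) y)
            (B := Phi c S0 (1 - y) (1 - (a + h * u))) (A0 := (y - a) ^ k)
            (A1 := (y - a) ^ (k - 1) * (h * (k * u + DD T u)))
            (B0 := Phi c S0 (1 - y) (1 - a)) (B1 := h * u * Q0 a h S0 y) (e := eta)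
            heta.le (by linarith) (hA.trans (by linarith)) (hB.trans (by linarith))
            (bB S0 y y2).1 (bB S0 y y2).2 (p0 k) (p1 k) (mul_nonneg (p0 _) l0)
            (by
              calc (y - a) ^ (k - 1) * (h * (k * u + DD T u)) ≤ 1 * eta :=
                    mul_le_mul (p1 _) l1 l0 zero_le_one
                _ = eta := one_mul _)
            (mul_nonneg hhu0 q0)
            (by
              calc h * u * Q0 a h S0 y ≤ h * M * K :=
                    mul_le_mul hhu (q1.trans hSK') q0 hM0.le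
                _ ≤ eta := by nlinarith)
          rw [Real.norm_eq_abs]
          have e1 : (y - a) ^ k * Phi c S0 (1 - y) (1 - a)
              - h * u * ((y - a) ^ k * Q0 a h S0 y
                + k * ((y - a) ^ (k - 1) * Phi c S0 (1 - y) (1 - a)))
              - h * DD T u * ((y - a) ^ (k - 1) * Phi c S0 (1 - y) (1 - a))
              = (y - a) ^ k * Phi c S0 (1 - y) (1 - a) - (y - a) ^ k * (h * u * Q0 a h S0 y)
                - (y - a) ^ (k - 1) * (h * (k * u + DD T u)) * Phi c S0 (1 - y) (1 - a) := by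
            ring
          rw [e1]
          exact hh)
      rw [Real.norm_eq_abs] at h1
      refine h1.trans ?_
      have h3 : |1 - b| ≤ 1 := by
        rw [abs_of_nonneg (by linarith)]
        linarith
      calc 2 * eta ^ 2 * |1 - b| ≤ 2 * eta ^ 2 * 1 :=
            mul_le_mul_of_nonneg_left h3 (by positivity)
        _ = _ := mul_one _
    have s5 : ∫ y in b..1, ((y - a) ^ k * Phi c S0 (1 - y) (1 - a)
          - h * u * ((y - a) ^ k * Q0 a h S0 y
            + k * ((y - a) ^ (k - 1) * Phi c S0 (1 - y) (1 - a)))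
          - h * DD T u * ((y - a) ^ (k - 1) * Phi c S0 (1 - y) (1 - a)))
        = (∫ y in b..1, (y - a) ^ k * Phi c S0 (1 - y) (1 - a))
          - h * u * (∫ y in b..1, ((y - a) ^ k * Q0 a h S0 y
            + k * ((y - a) ^ (k - 1) * Phi c S0 (1 - y) (1 - a))))
          - h * DD T u * kap a h M k S0 := by
      have c1 : Continuous fun y : ℝ => h * u * ((y - a) ^ k * Q0 a h S0 y
            + k * ((y - a) ^ (k - 1) * Phi c S0 (1 - y) (1 - a))) := continuous_const.mul cR
      have c2 : Continuous fun y : ℝ => h * DD T u * ((y - a) ^ (k - 1) *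
          Phi c S0 (1 - y) (1 - a)) := continuous_const.mul cP'
      have c3 : Continuous fun y : ℝ => (y - a) ^ k * Phi c S0 (1 - y) (1 - a)
          - h * u * ((y - a) ^ k * Q0 a h S0 y
            + k * ((y - a) ^ (k - 1) * Phi c S0 (1 - y) (1 - a))) := cP.sub c1
      rw [intervalIntegral.integral_sub (c3.intervalIntegrable _ _) (c2.intervalIntegrable _ _),
        intervalIntegral.integral_sub (cP.intervalIntegrable _ _) (c1.intervalIntegrable _ _),
        intervalIntegral.integral_const_mul, intervalIntegral.integral_const_mul]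
      rfl
    rw [s5] at s4
    rw [s1]
    have e := sq_nonneg eta
    rw [abs_le] at s2 s3 s4 ⊢
    constructor <;> nlinarith [s2.1, s2.2, s3.1, s3.2, s4.1, s4.2]

end Pool.Agent.T1K
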