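import Mathlib
import Pool.Agent.T1K.Inv
import Pool.Agent.T1K.Lead0

/-!
# T1, row R6c: leading order of the marginal on the coded region, similar tick sets
-/

set_option autoImplicit false

open Finset

namespace Pool.Agent.T1K

/-- leading order on the coded region; `S0` is a fixed reference -/
theorem w_lead {R M K k : ℕ} {S0 : Finset ℕ} {a h eta : ℝ} (st : Std a h eta K M)
    (hS0 : ∀ z ∈ S0, z ≤ M) (hSK : S0.card ≤ K) (_hS8 : 8 ≤ S0.card) (hkK : k ≤ K) (hk8 : 8 ≤ k) :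
    ∃ r0 r1 : ℝ, 0 ≤ r0 ∧ r0 ≤ 1 ∧ |r1| ≤ 2 * h * K ∧
    ∀ T S : Finset ℕ, (∀ z ∈ T, z ≤ M) → T.card = k → Sim 11 R M S S0 →
    ∀ u : ℝ, 0 ≤ u → u ≤ M →
      |dX (fun z => a + h * z) (fun z => a + h * z) T S (a + h * u)
        - (r0 + r1 * u - kap a h M k S0 * h * DD T u)| ≤ 100 * eta ^ 2 := by
  obtain ⟨r0, r1, h1, h2, h3, h4⟩ := w_lead_aux st hS0 hSK hkK hk8
  refine ⟨r0, r1, h1, h2, h3, fun T S hT hTk hSim => ?_⟩
  refine h4 T S hT hTk hSim.le (sim_card (by norm_num) hSim) ?_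
  have h5 := inv_pow hSim (z0 := 0) (Or.inl rfl) (i := 1) (by norm_num)
  simp only [Nat.zero_le, Finset.filter_true, pow_one] at h5
  have h6 := congrArg (Int.cast : ℤ → ℝ) h5
  rw [Int.cast_sum, Int.cast_sum] at h6
  simpa only [Int.cast_natCast] using h6

end Pool.Agent.T1K
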