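import Mathlib
import Pool.Agent.T1K.Defs2

/-!
# T1, row R6a: expansion of the weight of the lower ticks in the elementary symmetric functions
-/

set_option autoImplicit false

open Finset

namespace Pool.Agent.T1K

namespace F1

/-- generating polynomial of the elementary symmetric functions of `v z`, `z ∈ T` -/
noncomputable def EP (v : ℕ → ℝ) (T : Finset ℕ) : Polynomial ℝ :=
  ∏ z ∈ T, (1 + Polynomial.C (v z) * Polynomial.X)

lemma gp_eq (T : Finset ℕ) (u : ℝ) : gp T u = EP (fun z => max u (z : ℝ)) T := rfl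

lemma EP_zero (v : ℕ → ℝ) (T : Finset ℕ) : (EP v T).coeff 0 = 1 := by
  classical
  unfold EP
  induction T using Finset.induction_on with
  | empty => simp
  | insert w T hw ih =>
    rw [Finset.prod_insert hw, Polynomial.mul_coeff_zero, ih]
    simp

lemma EP_insert (v : ℕ → ℝ) {T : Finset ℕ} {w : ℕ} (hw : w ∉ T) (m : ℕ) :
    (EP v (insert w T)).coeff (m + 1) = (EP v T).coeff (m + 1) + v w * (EP v T).coeff m := by
  unfold EP
  rw [Finset.prod_insert hw, add_mul, one_mul, Polynomial.coeff_add, mul_assoc,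
    Polynomial.coeff_C_mul, Polynomial.coeff_X_mul]

lemma EP_big (v : ℕ → ℝ) (T : Finset ℕ) : ∀ m, T.card < m → (EP v T).coeff m = 0 := by
  classical
  induction T using Finset.induction_on with
  | empty =>
    intro m hm
    unfold EP
    rw [Finset.prod_empty, Polynomial.coeff_one, if_neg]
    simp at hm
    omega
  | insert w T hw ih =>
    intro m hm
    rw [Finset.card_insert_of_notMem hw] at hm
    obtain ⟨m, rfl⟩ : ∃ k, m = k + 1 := ⟨m - 1, by omega⟩
    rw [EP_insert v hw, ih _ (by omega), ih _ (by omega)]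
    simp

lemma EP_nonneg {v : ℕ → ℝ} {T : Finset ℕ} (hv : ∀ z ∈ T, 0 ≤ v z) :
    ∀ m, 0 ≤ (EP v T).coeff m := by
  classical
  induction T using Finset.induction_on with
  | empty =>
    intro m
    unfold EP
    rw [Finset.prod_empty, Polynomial.coeff_one]
    split_ifs <;> norm_num
  | insert w T hw ih =>
    intro m
    have ih := ih fun z hz => hv z (Finset.mem_insert_of_mem hz)
    rcases m with _ | m
    · rw [EP_zero]
      exact zero_le_one
    · rw [EP_insert v hw]
      exact add_nonneg (ih _) (mul_nonneg (hv w (Finset.mem_insert_self w T)) (ih _))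

lemma EP_le {v : ℕ → ℝ} {T : Finset ℕ} {B : ℝ} (hv : ∀ z ∈ T, 0 ≤ v z) (hB : ∀ z ∈ T, v z ≤ B)
    (hB0 : 0 ≤ B) : ∀ m, (EP v T).coeff m ≤ (T.card * B) ^ m := by
  classical
  induction T using Finset.induction_on with
  | empty =>
    intro m
    unfold EP
    rw [Finset.prod_empty, Polynomial.coeff_one]
    split_ifs with h
    · rw [h, pow_zero]
    · simp only [Finset.card_empty, Nat.cast_zero, zero_mul]
      exact pow_nonneg le_rfl m
  | insert w T hw ih =>
    intro m
    have h0 := EP_nonneg (v := v) (T := T) fun z hz => hv z (Finset.mem_insert_of_mem hz)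
    have ih := ih (fun z hz => hv z (Finset.mem_insert_of_mem hz))
      fun z hz => hB z (Finset.mem_insert_of_mem hz)
    rcases m with _ | m
    · rw [EP_zero, pow_zero]
    · rw [EP_insert v hw, Finset.card_insert_of_notMem hw]
      push_cast
      have h1 := ih (m + 1)
      have h2 := ih m
      have h3 : v w * (EP v T).coeff m ≤ B * (T.card * B) ^ m :=
        mul_le_mul (hB w (Finset.mem_insert_self w T)) h2 (h0 m) hB0
      have h4 : (T.card * B) ^ m ≤ (((T.card : ℝ) + 1) * B) ^ m :=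
        pow_le_pow_left₀ (by positivity) (by nlinarith) m
      have h5 : 0 ≤ ((T.card : ℝ) + 1) * B := by positivity
      calc (EP v T).coeff (m + 1) + v w * (EP v T).coeff m
          ≤ (T.card * B) ^ (m + 1) + B * (T.card * B) ^ m := add_le_add h1 h3
        _ = (T.card * B) ^ m * (((T.card : ℝ) + 1) * B) := by ring
        _ ≤ (((T.card : ℝ) + 1) * B) ^ m * (((T.card : ℝ) + 1) * B) :=
          mul_le_mul_of_nonneg_right h4 h5
        _ = (((T.card : ℝ) + 1) * B) ^ (m + 1) := by ring

/-- homogeneous expansion -/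
lemma prod_expand (v : ℕ → ℝ) (s h : ℝ) (T : Finset ℕ) :
    ∏ z ∈ T, (s - h * v z)
      = ∑ m ∈ range (T.card + 1), (-h) ^ m * s ^ (T.card - m) * (EP v T).coeff m := by
  classical
  induction T using Finset.induction_on with
  | empty => simp [EP]
  | insert w T hw ih =>
    rw [Finset.prod_insert hw, ih, Finset.card_insert_of_notMem hw,
      Finset.sum_range_succ' (fun m => (-h) ^ m * s ^ (T.card + 1 - m)
        * (EP v (insert w T)).coeff m)]
    have e1 : ∑ k ∈ range (T.card + 1), (-h) ^ (k + 1) * s ^ (T.card + 1 - (k + 1))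
          * (EP v (insert w T)).coeff (k + 1)
        = ∑ k ∈ range (T.card + 1), (-h) ^ (k + 1) * s ^ (T.card - k) * (EP v T).coeff (k + 1)
          + (-h * v w) * ∑ k ∈ range (T.card + 1), (-h) ^ k * s ^ (T.card - k) * (EP v T).coeff k := by
      rw [Finset.mul_sum, ← Finset.sum_add_distrib]
      refine Finset.sum_congr rfl fun k _ => ?_
      rw [EP_insert v hw, Nat.add_sub_add_right]
      ring
    have e2 : s * ∑ m ∈ range (T.card + 1), (-h) ^ m * s ^ (T.card - m) * (EP v T).coeff m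
        = ∑ k ∈ range (T.card + 1), (-h) ^ (k + 1) * s ^ (T.card - k) * (EP v T).coeff (k + 1)
          + s ^ (T.card + 1) := by
      rw [Finset.sum_range_succ' (fun m => (-h) ^ m * s ^ (T.card - m) * (EP v T).coeff m),
        Finset.sum_range_succ (fun k => (-h) ^ (k + 1) * s ^ (T.card - k) * (EP v T).coeff (k + 1)),
        EP_big v T _ (Nat.lt_succ_self _), EP_zero, mul_add, Finset.mul_sum]
      rw [mul_zero, add_zero]
      congr 1
      · refine Finset.sum_congr rfl fun k hk => ?_
        have hk := Finset.mem_range.1 hk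
        have h1 : T.card - k = (T.card - (k + 1)) + 1 := by omega
        rw [h1, pow_succ s]
        ring
      · rw [Nat.sub_zero]
        ring
    rw [e1, EP_zero, sub_mul, e2, Nat.sub_zero]
    ring

lemma EP_cont {f : ℕ → ℝ → ℝ} (hf : ∀ z, Continuous (f z)) (T : Finset ℕ) :
    ∀ m, Continuous fun u => (EP (fun z => f z u) T).coeff m := by
  classical
  induction T using Finset.induction_on with
  | empty =>
    intro m
    simp only [EP, Finset.prod_empty]
    exact continuous_const
  | insert w T hw ih =>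
    intro m
    rcases m with _ | m
    · simp only [EP_zero]
      exact continuous_const
    · simp only [EP_insert _ hw]
      exact (ih _).add ((hf w).mul (ih _))

lemma gp_cont (T : Finset ℕ) (m : ℕ) : Continuous fun u => (gp T u).coeff m :=
  EP_cont (f := fun z u => max u (z : ℝ)) (fun z => by fun_prop) T m

lemma gp_nonneg (T : Finset ℕ) (u : ℝ) (m : ℕ) : 0 ≤ (gp T u).coeff m :=
  EP_nonneg (fun z _ => (Nat.cast_nonneg z).trans (le_max_right _ _)) m

lemma gp_le {M : ℕ} {T : Finset ℕ} (hT : ∀ z ∈ T, z ≤ M) {u : ℝ} (hu : u ≤ M) (m : ℕ) :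
    (gp T u).coeff m ≤ (T.card * M) ^ m :=
  EP_le (fun z _ => (Nat.cast_nonneg z).trans (le_max_right _ _))
    (fun z hz => max_le hu (Nat.cast_le.2 (hT z hz))) (Nat.cast_nonneg M) m

lemma gp_diff {M K : ℕ} {T T' : Finset ℕ} (hT : ∀ z ∈ T, z ≤ M) (hT' : ∀ z ∈ T', z ≤ M)
    (hK : T.card = K) (hK' : T'.card = K) {u : ℝ} (hu : u ≤ M) (m : ℕ) :
    |(gp T u).coeff m - (gp T' u).coeff m| ≤ (K * M) ^ m := by
  have h1 := gp_le hT hu m
  have h2 := gp_le hT' hu m
  have h3 := gp_nonneg T u m
  have h4 := gp_nonneg T' u m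
  rw [hK] at h1
  rw [hK'] at h2
  rw [abs_le]
  constructor <;> linarith

/-- the weight in the coded region -/
lemma Phi_expand {M K : ℕ} {T : Finset ℕ} (hT : ∀ z ∈ T, z ≤ M) (hK : T.card = K)
    {a h : ℝ} (hh : 0 < h) {u y : ℝ} (hu : u ≤ M) (hy : a + h * M ≤ y) :
    Phi (fun z => a + h * z) T (a + h * u) y
      = ∑ m ∈ range (K + 1), (-h) ^ m * (y - a) ^ (K - m) * (gp T u).coeff m := by
  rw [gp_eq, ← hK, ← prod_expand]
  unfold Phi
  refine Finset.prod_congr rfl fun z hz => ?_
  have h1 : max (a + h * u) (a + h * (z : ℝ)) = a + h * max u (z : ℝ) := by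
    rw [mul_max_of_nonneg _ _ hh.le, max_add_add_left]
  have h2 : max u (z : ℝ) ≤ M := max_le hu (Nat.cast_le.2 (hT z hz))
  rw [h1, max_eq_right]
  · ring
  · have := mul_le_mul_of_nonneg_left h2 hh.le
    linarith

/-- the weight left of the coded region -/
lemma Phi_left {T : Finset ℕ} {a h : ℝ} (hh : 0 < h) {x y : ℝ} (hx : x ≤ a) :
    Phi (fun z => a + h * z) T x y = Phi (fun z => a + h * z) T (a + h * 0) y := by
  unfold Phi
  refine Finset.prod_congr rfl fun z _ => ?_
  have h0 : 0 ≤ h * (z : ℝ) := by positivity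
  rw [max_eq_right (by linarith : x ≤ a + h * (z : ℝ)),
    max_eq_right (by linarith : a + h * 0 ≤ a + h * (z : ℝ))]

/-- tail of the geometric series -/
lemma geo {e : ℝ} (h0 : 0 ≤ e) (h1 : e ≤ 1 / 16) (n j : ℕ) :
    ∑ m ∈ range n with j ≤ m, e ^ m ≤ 16 / 15 * e ^ j := by
  have key : ∀ n, ∑ m ∈ range n with j ≤ m, e ^ m ≤ 16 / 15 * (e ^ j - e ^ (max n j)) := by
    intro n
    induction n with
    | zero => simp
    | succ n ih =>
      rw [Finset.range_add_one, Finset.filter_insert]
      split_ifs with h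
      · rw [Finset.sum_insert (by simp)]
        have e1 : max (n + 1) j = n + 1 := max_eq_left (by omega)
        have e2 : max n j = n := max_eq_left h
        rw [e1]
        rw [e2] at ih
        have h3 : 0 ≤ e ^ n := pow_nonneg h0 n
        rw [pow_succ]
        nlinarith
      · refine ih.trans ?_
        have e1 : max (n + 1) j = j := max_eq_right (by omega)
        have e2 : max n j = j := max_eq_right (by omega)
        rw [e1, e2]
  refine (key n).trans ?_
  have : 0 ≤ e ^ (max n j) := pow_nonneg h0 _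
  linarith

lemma geo4 (n : ℕ) : ∑ p ∈ range n, (1 / 4 : ℝ) ^ p ≤ 4 / 3 := by
  have key : ∀ n, ∑ p ∈ range n, (1 / 4 : ℝ) ^ p ≤ 4 / 3 * (1 - (1 / 4 : ℝ) ^ n) := by
    intro n
    induction n with
    | zero => simp
    | succ n ih =>
      rw [Finset.sum_range_succ, pow_succ]
      linarith
  refine (key n).trans ?_
  have : (0 : ℝ) ≤ (1 / 4 : ℝ) ^ n := by positivity
  linarith

/-- the double sum over `2 m + p ≥ 11` -/
lemma dsum {e : ℝ} (h0 : 0 ≤ e) (h1 : e ≤ 1 / 16) (n n' : ℕ) :
    ∑ m ∈ range n, ∑ p ∈ range n', (if 2 * m + p < 11 then 0 else e ^ m * e ^ p) ≤ 16 * e ^ 6 := by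
  rw [Finset.sum_comm]
  have hp : ∀ p ∈ range n', ∑ m ∈ range n, (if 2 * m + p < 11 then 0 else e ^ m * e ^ p)
      ≤ 16 / 15 * 4 * e ^ 6 * (1 / 4 : ℝ) ^ p := by
    intro p _
    have e1 : ∑ m ∈ range n, (if 2 * m + p < 11 then 0 else e ^ m * e ^ p)
        = e ^ p * ∑ m ∈ range n with (12 - p) / 2 ≤ m, e ^ m := by
      rw [Finset.sum_filter, Finset.mul_sum]
      refine Finset.sum_congr rfl fun m _ => ?_
      by_cases h : 2 * m + p < 11
      · rw [if_pos h, if_neg (by omega), mul_zero]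
      · rw [if_neg h, if_pos (by omega), mul_comm]
    rw [e1]
    have h2 := geo h0 h1 n ((12 - p) / 2)
    have h3 : 0 ≤ e ^ p := pow_nonneg h0 p
    have h4 : e ^ p * e ^ ((12 - p) / 2) ≤ e ^ (6 + p / 2) := by
      rw [← pow_add]
      exact pow_le_pow_of_le_one h0 (by linarith) (by omega)
    have h5 : e ^ (p / 2) ≤ 4 * (1 / 4 : ℝ) ^ p := by
      calc e ^ (p / 2) ≤ (1 / 16 : ℝ) ^ (p / 2) := pow_le_pow_left₀ h0 h1 _
        _ = (1 / 4 : ℝ) ^ (2 * (p / 2)) := by rw [pow_mul]; norm_num
        _ = 4 * ((1 / 4 : ℝ) ^ (2 * (p / 2) + 1)) := by rw [pow_succ]; ring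
        _ ≤ 4 * (1 / 4 : ℝ) ^ p := by
          refine mul_le_mul_of_nonneg_left ?_ (by norm_num)
          exact pow_le_pow_of_le_one (by norm_num) (by norm_num) (by omega)
    have h6 : 0 ≤ e ^ 6 := pow_nonneg h0 6
    calc e ^ p * ∑ m ∈ range n with (12 - p) / 2 ≤ m, e ^ m
        ≤ e ^ p * (16 / 15 * e ^ ((12 - p) / 2)) := mul_le_mul_of_nonneg_left h2 h3
      _ = 16 / 15 * (e ^ p * e ^ ((12 - p) / 2)) := by ring
      _ ≤ 16 / 15 * e ^ (6 + p / 2) := mul_le_mul_of_nonneg_left h4 (by norm_num)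
      _ = 16 / 15 * (e ^ 6 * e ^ (p / 2)) := by rw [pow_add]
      _ ≤ 16 / 15 * (e ^ 6 * (4 * (1 / 4 : ℝ) ^ p)) := by gcongr
      _ = _ := by ring
  refine (Finset.sum_le_sum hp).trans ?_
  rw [← Finset.mul_sum]
  have h6 : 0 ≤ e ^ 6 := pow_nonneg h0 6
  have := geo4 n'
  nlinarith [mul_le_mul_of_nonneg_left this (by positivity : (0 : ℝ) ≤ 16 / 15 * 4 * e ^ 6)]

end F1

end Pool.Agent.T1K
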