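import Mathlib
import Pool.Agent.T1K.F1Base
import Pool.Agent.T1K.Inv

/-!
# T1, row R6a: the difference of the weights of two similar tick sets
`c z = a + h z`, `beta = a + h M`, `eta = h K M`.
-/

set_option autoImplicit false

open Finset

namespace Pool.Agent.T1K

theorem Phi_small {a h : ℝ} {M K : ℕ} (ha : 0 < a) (hh : 0 < h) {T : Finset ℕ}
    (hT : T.card = K) {x y : ℝ} (hx : 0 ≤ x) (hy : y ≤ a + h * M) :
    Phi (fun z => a + h * z) T x y ≤ (h * M) ^ K := by
  unfold Phi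
  rw [← hT, ← Finset.prod_const]
  refine Finset.prod_le_prod (fun _ _ => le_max_left _ _) fun z _ => ?_
  refine max_le (by positivity) ?_
  have h1 := le_max_right x (a + h * (z : ℝ))
  have h2 : 0 ≤ h * (z : ℝ) := by positivity
  linarith

theorem Phi_right {a h : ℝ} {M : ℕ} (hh : 0 < h) {T T' : Finset ℕ}
    (hT : T.card = T'.card) (hM : ∀ z ∈ T, z ≤ M) (hM' : ∀ z ∈ T', z ≤ M) {x y : ℝ}
    (hx : a + h * M ≤ x) :
    Phi (fun z => a + h * z) T x y = Phi (fun z => a + h * z) T' x y := by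
  have key : ∀ U : Finset ℕ, (∀ z ∈ U, z ≤ M) →
      Phi (fun z => a + h * z) U x y = (max 0 (y - x)) ^ U.card := by
    intro U hU
    unfold Phi
    rw [← Finset.prod_const]
    refine Finset.prod_congr rfl fun z hz => ?_
    have h1 : (z : ℝ) ≤ M := Nat.cast_le.2 (hU z hz)
    have h2 := mul_le_mul_of_nonneg_left h1 hh.le
    rw [max_eq_left (by linarith : a + h * (z : ℝ) ≤ x)]
  rw [key T hM, key T' hM', hT]

theorem F1_left {R M K : ℕ} {T T' : Finset ℕ} (hS : Sim 11 R M T T') (hK : T.card = K)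
    {a h : ℝ} (ha : 0 < a) (hh : 0 < h) (heta : h * K * M ≤ 1 / 16) {x y : ℝ} (hx0 : 0 ≤ x)
    (hx : x ≤ a) (hy : a + h * M ≤ y) (hy1 : y ≤ 1) :
    |Phi (fun z => a + h * z) T x y - Phi (fun z => a + h * z) T' x y| ≤ 4 * (h * K * M) ^ 11 := by
  have hK' : T'.card = K := (sim_card (by norm_num) hS).symm.trans hK
  have hM0 : (0 : ℝ) ≤ M := Nat.cast_nonneg M
  rw [F1.Phi_left hh hx, F1.Phi_left hh hx, F1.Phi_expand hS.le hK hh hM0 hy,
    F1.Phi_expand hS.le' hK' hh hM0 hy, ← Finset.sum_sub_distrib]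
  have hs0 : 0 ≤ y - a := by
    have : 0 ≤ h * (M : ℝ) := by positivity
    linarith
  have hs1 : y - a ≤ 1 := by linarith
  set e : ℝ := h * K * M with he
  have e0 : 0 ≤ e := by positivity
  have hb : ∀ m ∈ range (K + 1), |(-h) ^ m * (y - a) ^ (K - m) * (gp T 0).coeff m
      - (-h) ^ m * (y - a) ^ (K - m) * (gp T' 0).coeff m| ≤ if 11 ≤ m then e ^ m else 0 := by
    intro m _
    split_ifs with hm
    · rw [← mul_sub, abs_mul, abs_mul, abs_pow, abs_neg, abs_of_pos hh, abs_of_nonneg (by positivity)]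
      have h1 := F1.gp_diff hS.le hS.le' hK hK' hM0 m
      have h2 : (y - a) ^ (K - m) ≤ 1 := pow_le_one₀ hs0 hs1
      have h3 : (0 : ℝ) ≤ (y - a) ^ (K - m) := by positivity
      calc h ^ m * (y - a) ^ (K - m) * |(gp T 0).coeff m - (gp T' 0).coeff m|
          ≤ h ^ m * 1 * (K * M) ^ m := by gcongr
        _ = e ^ m := by rw [he, mul_one, ← mul_pow, mul_assoc]
    · rw [inv_e hS (by omega), sub_self, abs_zero]
  refine (Finset.abs_sum_le_sum_abs _ _).trans ((Finset.sum_le_sum hb).trans ?_)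
  rw [← Finset.sum_filter]
  refine (F1.geo e0 heta (K + 1) 11).trans ?_
  have : 0 ≤ e ^ 11 := pow_nonneg e0 11
  linarith

namespace F1

/-- common part of `F1_up` and `F1_down` -/
lemma main {M K : ℕ} {T T' : Finset ℕ} (hT : ∀ z ∈ T, z ≤ M) (hT' : ∀ z ∈ T', z ≤ M)
    (hK : T.card = K) (hK' : T'.card = K) (hK1 : 1 ≤ K)
    {a h eta lam : ℝ} (ha : 0 < a) (hh : 0 < h) (heta : h * K * M ≤ eta) (hlam : lam * M ≤ eta)
    (hlam0 : 0 ≤ lam) (h16 : eta ≤ 1 / 16) {y : ℝ} (hy : a + h * M ≤ y) (hy1 : y ≤ 1)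
    {G : ℝ → ℝ} (hG : PW a h M lam G) {u0 u1 : ℝ} (h0 : 0 ≤ u0) (h01 : u0 ≤ u1) (h1 : u1 ≤ M)
    (hinv : ∀ m p : ℕ, 2 * m + p < 11 →
      ∫ u in u0..u1, u ^ p * (gp T u).coeff m = ∫ u in u0..u1, u ^ p * (gp T' u).coeff m) :
    |∫ x in (a + h * u0)..(a + h * u1),
      (Phi (fun z => a + h * z) T x y - Phi (fun z => a + h * z) T' x y) * G x|
        ≤ 16 * eta ^ 7 := by
  obtain ⟨g, hg, hgl⟩ := hG
  have hM0 : (0 : ℝ) ≤ M := Nat.cast_nonneg M
  have hK1' : (1 : ℝ) ≤ K := Nat.one_le_cast.2 hK1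
  have hs0 : 0 ≤ y - a := by
    have : 0 ≤ h * (M : ℝ) := by positivity
    linarith
  have hs1 : y - a ≤ 1 := by linarith
  have e0 : 0 ≤ eta := le_trans (by positivity) heta
  have hhM : h * M ≤ eta := by
    refine le_trans ?_ heta
    have : 0 ≤ h * (M : ℝ) := by positivity
    nlinarith
  rw [← intervalIntegral.mul_integral_comp_add_mul]
  have e1 : ∫ u in u0..u1, (Phi (fun z => a + h * z) T (a + h * u) y
        - Phi (fun z => a + h * z) T' (a + h * u) y) * G (a + h * u)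
      = ∫ u in u0..u1, ∑ m ∈ range (K + 1), ∑ p ∈ range (g.natDegree + 1),
          ((-h) ^ m * (y - a) ^ (K - m) * g.coeff p) *
            (u ^ p * (gp T u).coeff m - u ^ p * (gp T' u).coeff m) := by
    refine intervalIntegral.integral_congr fun u hu => ?_
    rw [Set.uIcc_of_le h01] at hu
    have hu1 : u ≤ M := hu.2.trans h1
    have hu0 : 0 ≤ u := h0.trans hu.1
    rw [Phi_expand hT hK hh hu1 hy, Phi_expand hT' hK' hh hu1 hy, ← Finset.sum_sub_distrib,
      hg u hu0 hu1, Polynomial.eval_eq_sum_range, Finset.sum_mul]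
    refine Finset.sum_congr rfl fun m _ => ?_
    rw [Finset.mul_sum]
    refine Finset.sum_congr rfl fun p _ => ?_
    ring
  rw [e1]
  have hc : ∀ (U : Finset ℕ) (m p : ℕ), Continuous fun u : ℝ => u ^ p * (gp U u).coeff m :=
    fun U m p => (continuous_pow p).mul (gp_cont U m)
  have e2 : ∫ u in u0..u1, ∑ m ∈ range (K + 1), ∑ p ∈ range (g.natDegree + 1),
          ((-h) ^ m * (y - a) ^ (K - m) * g.coeff p) *
            (u ^ p * (gp T u).coeff m - u ^ p * (gp T' u).coeff m)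
      = ∑ m ∈ range (K + 1), ∑ p ∈ range (g.natDegree + 1),
          ((-h) ^ m * (y - a) ^ (K - m) * g.coeff p) *
            ∫ u in u0..u1, (u ^ p * (gp T u).coeff m - u ^ p * (gp T' u).coeff m) := by
    rw [intervalIntegral.integral_finsetSum]
    · refine Finset.sum_congr rfl fun m _ => ?_
      rw [intervalIntegral.integral_finsetSum]
      · refine Finset.sum_congr rfl fun p _ => ?_
        rw [intervalIntegral.integral_const_mul]
      · intro p _
        exact (continuous_const.mul ((hc T m p).sub (hc T' m p))).intervalIntegrable _ _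
    · intro m _
      refine Continuous.intervalIntegrable (continuous_finsetSum _ fun p _ => ?_) _ _
      exact continuous_const.mul ((hc T m p).sub (hc T' m p))
  rw [e2]
  have hb : ∀ m ∈ range (K + 1), ∀ p ∈ range (g.natDegree + 1),
      |((-h) ^ m * (y - a) ^ (K - m) * g.coeff p) *
        ∫ u in u0..u1, (u ^ p * (gp T u).coeff m - u ^ p * (gp T' u).coeff m)|
      ≤ M * (if 2 * m + p < 11 then 0 else eta ^ m * eta ^ p) := by
    intro m _ p _
    split_ifs with hmp
    · rw [intervalIntegral.integral_sub ((hc T m p).intervalIntegrable _ _)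
        ((hc T' m p).intervalIntegrable _ _), hinv m p hmp, sub_self, mul_zero, abs_zero, mul_zero]
    · have hi : |∫ u in u0..u1, (u ^ p * (gp T u).coeff m - u ^ p * (gp T' u).coeff m)|
          ≤ (M : ℝ) ^ p * (K * M) ^ m * M := by
        have := intervalIntegral.norm_integral_le_of_norm_le_const (a := u0) (b := u1)
          (f := fun u : ℝ => u ^ p * (gp T u).coeff m - u ^ p * (gp T' u).coeff m)
          (C := (M : ℝ) ^ p * (K * M) ^ m) (by
            intro u hu
            rw [Set.uIoc_of_le h01] at hu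
            have hu1 : u ≤ M := hu.2.trans h1
            have hu0 : 0 ≤ u := h0.trans hu.1.le
            rw [← mul_sub, norm_mul, norm_pow, Real.norm_of_nonneg hu0, Real.norm_eq_abs]
            have h3 := gp_diff hT hT' hK hK' hu1 m
            gcongr)
        rw [Real.norm_eq_abs] at this
        refine this.trans ?_
        have h4 : |u1 - u0| ≤ M := by
          rw [abs_of_nonneg (by linarith)]
          linarith
        gcongr
      rw [abs_mul, abs_mul, abs_mul, abs_pow, abs_neg, abs_of_pos hh,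
        abs_of_nonneg (by positivity : 0 ≤ (y - a) ^ (K - m))]
      have h2 : (y - a) ^ (K - m) ≤ 1 := pow_le_one₀ hs0 hs1
      have h3 : (0 : ℝ) ≤ (y - a) ^ (K - m) := by positivity
      have h5 := hgl p
      calc h ^ m * (y - a) ^ (K - m) * |g.coeff p| *
            |∫ u in u0..u1, (u ^ p * (gp T u).coeff m - u ^ p * (gp T' u).coeff m)|
          ≤ h ^ m * 1 * lam ^ p * ((M : ℝ) ^ p * (K * M) ^ m * M) := by gcongr
        _ = M * ((h * K * M) ^ m * (lam * M) ^ p) := by
          rw [mul_pow, mul_pow, mul_pow, mul_pow]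
          ring
        _ ≤ M * (eta ^ m * eta ^ p) := by gcongr
  have hsum : |∑ m ∈ range (K + 1), ∑ p ∈ range (g.natDegree + 1),
          ((-h) ^ m * (y - a) ^ (K - m) * g.coeff p) *
            ∫ u in u0..u1, (u ^ p * (gp T u).coeff m - u ^ p * (gp T' u).coeff m)|
      ≤ M * (16 * eta ^ 6) := by
    refine (Finset.abs_sum_le_sum_abs _ _).trans ?_
    refine (Finset.sum_le_sum fun m hm => (Finset.abs_sum_le_sum_abs _ _).trans
      (Finset.sum_le_sum fun p hp => hb m hm p hp)).trans ?_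
    have := dsum e0 h16 (K + 1) (g.natDegree + 1)
    simp only [← Finset.mul_sum]
    exact mul_le_mul_of_nonneg_left this hM0
  rw [abs_mul, abs_of_pos hh]
  calc h * |∑ m ∈ range (K + 1), ∑ p ∈ range (g.natDegree + 1),
          ((-h) ^ m * (y - a) ^ (K - m) * g.coeff p) *
            ∫ u in u0..u1, (u ^ p * (gp T u).coeff m - u ^ p * (gp T' u).coeff m)|
      ≤ h * (M * (16 * eta ^ 6)) := mul_le_mul_of_nonneg_left hsum hh.le
    _ = (h * M) * (16 * eta ^ 6) := by ring
    _ ≤ eta * (16 * eta ^ 6) := by gcongr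
    _ = 16 * eta ^ 7 := by ring

end F1

/-- polynomial weights, above a cut; `eta ≥ h K M`, `eta ≥ lam M` -/
theorem F1_up {R M K : ℕ} {T T' : Finset ℕ} (hS : Sim 11 R M T T') (hK : T.card = K) (hK1 : 1 ≤ K)
    {z0 : ℕ} (hz : Cut 11 R T T' z0) (hzM : z0 ≤ M)
    {a h eta lam : ℝ} (ha : 0 < a) (hh : 0 < h) (heta : h * K * M ≤ eta) (hlam : lam * M ≤ eta)
    (hlam0 : 0 ≤ lam) (h16 : eta ≤ 1 / 16) {y : ℝ} (hy : a + h * M ≤ y) (hy1 : y ≤ 1)
    {G : ℝ → ℝ} (hG : PW a h M lam G) :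
    |∫ x in (a + h * z0)..(a + h * M),
      (Phi (fun z => a + h * z) T x y - Phi (fun z => a + h * z) T' x y) * G x|
        ≤ 16 * eta ^ 7 :=
  F1.main hS.le hS.le' hK ((sim_card (by norm_num) hS).symm.trans hK) hK1 ha hh heta hlam hlam0 h16
    hy hy1 hG (Nat.cast_nonneg z0) (Nat.cast_le.2 hzM) le_rfl
    fun _ _ hmp => inv_up hS hz hzM hmp

theorem F1_down {R M K : ℕ} {T T' : Finset ℕ} (hS : Sim 11 R M T T') (hK : T.card = K)
    (hK1 : 1 ≤ K) {z0 : ℕ} (hz : Cut 11 R T T' z0) (hzM : z0 ≤ M)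
    {a h eta lam : ℝ} (ha : 0 < a) (hh : 0 < h) (heta : h * K * M ≤ eta) (hlam : lam * M ≤ eta)
    (hlam0 : 0 ≤ lam) (h16 : eta ≤ 1 / 16) {y : ℝ} (hy : a + h * M ≤ y) (hy1 : y ≤ 1)
    {G : ℝ → ℝ} (hG : PW a h M lam G) :
    |∫ x in a..(a + h * z0),
      (Phi (fun z => a + h * z) T x y - Phi (fun z => a + h * z) T' x y) * G x|
        ≤ 16 * eta ^ 7 := by
  have := F1.main hS.le hS.le' hK ((sim_card (by norm_num) hS).symm.trans hK) hK1 ha hh heta hlam
    hlam0 h16 hy hy1 hG le_rfl (Nat.cast_nonneg z0) (Nat.cast_le.2 hzM)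
    fun _ _ hmp => inv_down hS hz hzM hmp
  rwa [mul_zero, add_zero] at this

end Pool.Agent.T1K
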