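import Mathlib
import Pool.Agent.T1K.Defs2
import Pool.Agent.T1K.F1

/-!
# T1: the density of the lower centre, comparison of similar species
-/

set_option autoImplicit false

open Finset MeasureTheory

namespace Pool.Agent.T1K
namespace Mg

/-! ## elementary facts -/

theorem phi_nonneg (c : ℕ → ℝ) (T : Finset ℕ) (x y : ℝ) : 0 ≤ Phi c T x y :=
  Finset.prod_nonneg fun _ _ => le_max_left _ _

theorem phi_le_one {c : ℕ → ℝ} {T : Finset ℕ} {x y : ℝ} (h : y - x ≤ 1) : Phi c T x y ≤ 1 :=
  Finset.prod_le_one (fun _ _ => le_max_left _ _) fun z _ => max_le zero_le_one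
    (by have := le_max_left x (c z); linarith)

theorem cont_phi (c : ℕ → ℝ) (T : Finset ℕ) : Continuous fun p : ℝ × ℝ => Phi c T p.1 p.2 := by
  unfold Phi
  exact continuous_finset_prod _ fun z _ =>
    continuous_const.max (continuous_snd.sub (continuous_fst.max continuous_const))

/-! ## polynomial weights -/

/-- one more affine factor -/
theorem coeff_step {h : ℝ} (hh : 0 ≤ h) {n : ℕ} {g : Polynomial ℝ}
    (hg : ∀ p, |g.coeff p| ≤ (n * h) ^ p) {al be : ℝ} (h1 : |al| ≤ 1) (h2 : |be| ≤ h) (p : ℕ) :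
    |(g * (Polynomial.C al + Polynomial.C be * Polynomial.X)).coeff p| ≤ (((n + 1 : ℕ) : ℝ) * h) ^ p := by
  rw [mul_add, Polynomial.coeff_add, Polynomial.coeff_mul_C, ← mul_assoc]
  rcases p with _ | p
  · rw [Polynomial.coeff_mul_X_zero, add_zero, abs_mul]
    have := hg 0
    simp only [pow_zero] at this ⊢
    calc |g.coeff 0| * |al| ≤ 1 * 1 := mul_le_mul this h1 (abs_nonneg _) zero_le_one
      _ = 1 := one_mul 1
  · rw [Polynomial.coeff_mul_X, Polynomial.coeff_mul_C]
    have e1 : |g.coeff (p + 1) * al| ≤ (n * h) ^ (p + 1) * 1 := by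
      rw [abs_mul]
      exact mul_le_mul (hg _) h1 (abs_nonneg _) (by positivity)
    have e2 : |g.coeff p * be| ≤ (n * h) ^ p * h := by
      rw [abs_mul]
      exact mul_le_mul (hg _) h2 (abs_nonneg _) (by positivity)
    have e3 : (n * h) ^ p ≤ (((n + 1 : ℕ) : ℝ) * h) ^ p := by
      apply pow_le_pow_left₀ (by positivity)
      apply mul_le_mul_of_nonneg_right _ hh
      push_cast
      linarith
    have e4 : (((n + 1 : ℕ) : ℝ) * h) ^ (p + 1) = (((n + 1 : ℕ) : ℝ) * h) ^ p * (n * h + h) := by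
      rw [pow_succ]
      push_cast
      ring
    have e5 : (n * h) ^ p * (n * h + h) ≤ (((n + 1 : ℕ) : ℝ) * h) ^ p * (n * h + h) :=
      mul_le_mul_of_nonneg_right e3 (by positivity)
    have e6 : (n * h) ^ (p + 1) = (n * h) ^ p * (n * h) := pow_succ _ _
    refine (abs_add_le _ _).trans ?_
    rw [e4]
    linarith

/-- a product of affine functions -/
theorem prod_affine {h : ℝ} (hh : 0 ≤ h) (S : Finset ℕ) (al : ℕ → ℝ) (h1 : ∀ z ∈ S, |al z| ≤ 1) :
    ∃ g : Polynomial ℝ, (∀ u : ℝ, g.eval u = ∏ z ∈ S, (al z - h * u)) ∧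
      ∀ p, |g.coeff p| ≤ (S.card * h) ^ p := by
  induction S using Finset.induction_on with
  | empty =>
    refine ⟨1, fun u => by simp, fun p => ?_⟩
    rcases p with _ | p
    · simp
    · rw [Polynomial.coeff_one]
      simp
  | insert z S hz ih =>
    obtain ⟨g, hg, hc⟩ := ih fun z' hz' => h1 z' (Finset.mem_insert_of_mem hz')
    refine ⟨g * (Polynomial.C (al z) + Polynomial.C (-h) * Polynomial.X), fun u => ?_, fun p => ?_⟩
    · rw [Finset.prod_insert hz, Polynomial.eval_mul, hg]
      simp only [Polynomial.eval_add, Polynomial.eval_C, Polynomial.eval_mul, Polynomial.eval_X]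
      ring
    · rw [Finset.card_insert_of_notMem hz]
      exact coeff_step hh hc (h1 z (Finset.mem_insert_self _ _)) (by rw [abs_neg, abs_of_nonneg hh]) p

theorem prod_affine_pow {h : ℝ} (hh : 0 ≤ h) (S : Finset ℕ) (al : ℕ → ℝ) (h1 : ∀ z ∈ S, |al z| ≤ 1)
    {z0 : ℝ} (hz : |h * z0| ≤ 1) (j : ℕ) :
    ∃ g : Polynomial ℝ, (∀ u : ℝ, g.eval u = (∏ z ∈ S, (al z - h * u)) * (h * (u - z0)) ^ j) ∧
      ∀ p, |g.coeff p| ≤ (((S.card + j : ℕ) : ℝ) * h) ^ p := by
  induction j with
  | zero =>
    obtain ⟨g, hg, hc⟩ := prod_affine hh S al h1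
    exact ⟨g, fun u => by rw [hg, pow_zero, mul_one], hc⟩
  | succ j ih =>
    obtain ⟨g, hg, hc⟩ := ih
    refine ⟨g * (Polynomial.C (-(h * z0)) + Polynomial.C h * Polynomial.X), fun u => ?_, fun p => ?_⟩
    · rw [Polynomial.eval_mul, hg]
      simp only [Polynomial.eval_add, Polynomial.eval_C, Polynomial.eval_mul, Polynomial.eval_X]
      ring
    · exact coeff_step hh hc (by rwa [abs_neg]) (by rw [abs_of_nonneg hh]) p

/-- the weights from the other centre are polynomial on the coded region -/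
theorem PW_phi {a h eta : ℝ} {K M : ℕ} (st : Std a h eta K M) {S : Finset ℕ} (hS : ∀ z ∈ S, z ≤ M)
    (hSK : S.card ≤ K) {s : ℝ} (hs0 : 0 ≤ s) (hs : s ≤ 1 - (a + h * M)) {z0 : ℕ} (hz : z0 ≤ M)
    {j : ℕ} (hj : j ≤ 3) :
    PW a h M (2 * h * K) (fun x => Phi (fun z => a + h * z) S s (1 - x) * (x - (a + h * z0)) ^ j) := by
  have h0 := st.h0
  have a0 := st.a0
  have hMa := st.hMa
  have K9 : (9 : ℝ) ≤ K := by exact_mod_cast st.K9
  have aK := st.aK
  have ha : a ≤ 1 / 450 := by nlinarith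
  have hM0 : 0 ≤ h * M := by positivity
  have hzM : (z0 : ℝ) ≤ M := by exact_mod_cast hz
  have hzh : h * z0 ≤ h * M := mul_le_mul_of_nonneg_left hzM h0.le
  have hzh0 : 0 ≤ h * z0 := by positivity
  have fac : ∀ z ∈ S, h * M ≤ 1 - a - max s (a + h * z) ∧ 1 - a - max s (a + h * z) ≤ 1 := by
    intro z hz
    have h1 : (z : ℝ) ≤ M := by exact_mod_cast hS z hz
    have h2 : h * z ≤ h * M := mul_le_mul_of_nonneg_left h1 h0.le
    constructor
    · have : max s (a + h * z) ≤ 1 - (a + h * M) := max_le hs (by linarith)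
      linarith
    · have := le_max_left s (a + h * z)
      linarith
  obtain ⟨g, hg, hc⟩ := prod_affine_pow h0.le S (fun z => 1 - a - max s (a + h * z)) (fun z hz => by
    obtain ⟨f1, f2⟩ := fac z hz
    rw [abs_of_nonneg (by linarith)]
    exact f2) (z0 := z0) (by rw [abs_of_nonneg hzh0]; linarith) j
  refine ⟨g, fun u hu0 huM => ?_, fun p => (hc p).trans ?_⟩
  · rw [hg]
    have hu : h * u ≤ h * M := mul_le_mul_of_nonneg_left huM h0.le
    have e : a + h * u - (a + h * z0) = h * (u - z0) := by ring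
    beta_reduce
    rw [e]
    congr 1
    · unfold Phi
      refine Finset.prod_congr rfl fun z hz => ?_
      obtain ⟨f1, f2⟩ := fac z hz
      rw [max_eq_right (by linarith)]
      ring
  · apply pow_le_pow_left₀ (by positivity)
    have : ((S.card + j : ℕ) : ℝ) ≤ 2 * K := by
      have h1 : (S.card : ℝ) ≤ K := by exact_mod_cast hSK
      have h2 : (j : ℝ) ≤ 3 := by exact_mod_cast hj
      push_cast
      linarith
    calc ((S.card + j : ℕ) : ℝ) * h ≤ 2 * K * h := mul_le_mul_of_nonneg_right this h0.le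
      _ = 2 * h * K := by ring

/-! ## numbers -/

section
variable {a h eta : ℝ} {K M : ℕ}

theorem num (st : Std a h eta K M) : 0 < eta ∧ eta ≤ 1 / 1000 ∧ 0 ≤ h * M ∧ 18 * (h * M) ≤ eta ∧
    a ≤ 1 / 450 ∧ h * M ≤ 1 / 900 ∧ 2 * h * K * M = eta := by
  have h0 := st.h0
  have a0 := st.a0
  have hMa := st.hMa
  have K9 : (9 : ℝ) ≤ K := by exact_mod_cast st.K9
  have M1 : (1 : ℝ) ≤ M := by exact_mod_cast st.M1
  have aK := st.aK
  have ha : a ≤ 1 / 450 := by nlinarith
  have hM0 : 0 < h * M := by positivity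
  have e := st.etaEq
  have e2 : 18 * (h * M) ≤ eta := by
    rw [← e]
    nlinarith
  exact ⟨by linarith, st.small, hM0.le, e2, ha, by linarith, e⟩

theorem pow_small (st : Std a h eta K M) {k : ℕ} (hk : 8 ≤ k) : (h * M) ^ k ≤ eta ^ 7 := by
  obtain ⟨n1, n2, n3, n4, n5, n6, n7⟩ := num st
  calc (h * M) ^ k ≤ (h * M) ^ 7 := pow_le_pow_of_le_one n3 (by linarith) (by omega)
    _ ≤ eta ^ 7 := pow_le_pow_left₀ n3 (by linarith) _

theorem eta_K (st : Std a h eta K M) {k : ℕ} (hk : k ≤ K) : h * k * M ≤ eta := by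
  obtain ⟨n1, n2, n3, n4, n5, n6, n7⟩ := num st
  have hk' : (k : ℝ) ≤ K := by exact_mod_cast hk
  have h1 : h * M * k ≤ h * M * K := mul_le_mul_of_nonneg_left hk' n3
  linarith

theorem pow11 (st : Std a h eta K M) {k : ℕ} (hk : k ≤ K) : 4 * (h * k * M) ^ 11 ≤ 4 * eta ^ 7 := by
  obtain ⟨n1, n2, n3, n4, n5, n6, n7⟩ := num st
  have h0 := st.h0
  have h1 : (h * k * M) ^ 11 ≤ eta ^ 11 := pow_le_pow_left₀ (by positivity) (eta_K st hk) _
  have h2 : eta ^ 11 ≤ eta ^ 7 := pow_le_pow_of_le_one n1.le (by linarith) (by norm_num)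
  linarith

/-! ## the upper ticks -/

theorem diff_small (st : Std a h eta K M) {T T' : Finset ℕ} (hT8 : 8 ≤ T.card) (hT8' : 8 ≤ T'.card)
    {x y : ℝ} (hx : 0 ≤ x) (hy : y ≤ a + h * M) :
    |Phi (fun z => a + h * z) T x y - Phi (fun z => a + h * z) T' x y| ≤ eta ^ 7 := by
  have h1 := (Phi_small st.a0 st.h0 (T := T) rfl hx hy).trans (pow_small st hT8)
  have h2 := (Phi_small st.a0 st.h0 (T := T') rfl hx hy).trans (pow_small st hT8')
  have h3 := phi_nonneg (fun z => a + h * z) T x y
  have h4 := phi_nonneg (fun z => a + h * z) T' x y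
  rw [abs_le]
  constructor <;> linarith

theorem diff_left (st : Std a h eta K M) {R : ℕ} {T T' : Finset ℕ} (hT : Sim 11 R M T T')
    (hTK : T.card ≤ K) (hT8 : 8 ≤ T.card) {x y : ℝ} (hx : 0 ≤ x) (hxa : x ≤ a) (hy : y ≤ 1) :
    |Phi (fun z => a + h * z) T x y - Phi (fun z => a + h * z) T' x y| ≤ 4 * eta ^ 7 := by
  obtain ⟨n1, n2, n3, n4, n5, n6, n7⟩ := num st
  rcases le_total y (a + h * M) with h1 | h1
  · have := diff_small st hT8 (by rw [← sim_card (by norm_num) hT]; exact hT8) hx h1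
    have h2 : 0 ≤ eta ^ 7 := by positivity
    linarith
  · exact (F1_left hT rfl st.a0 st.h0 ((eta_K st hTK).trans (by linarith)) hx hxa h1 hy).trans
      (pow11 st hTK)

theorem cont_f2 (T S S' : Finset ℕ) (c : ℕ → ℝ) (x : ℝ) : Continuous fun ξ : ℝ =>
    Phi c T x (1 - ξ) * (Phi c S ξ (1 - x) - Phi c S' ξ (1 - x)) := by
  have h1 : Continuous fun ξ : ℝ => Phi c T x (1 - ξ) :=
    (cont_phi c T).comp (continuous_const.prodMk (continuous_const.sub continuous_id))
  have h2 : ∀ S, Continuous fun ξ : ℝ => Phi c S ξ (1 - x) := fun S =>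
    (cont_phi c S).comp (continuous_id.prodMk continuous_const)
  exact h1.mul ((h2 S).sub (h2 S'))

theorem part2 (st : Std a h eta K M) {R : ℕ} {S S' : Finset ℕ} (hS : Sim 11 R M S S')
    (hSK : S.card ≤ K) (hS8 : 8 ≤ S.card) {T : Finset ℕ} (hTM : ∀ z ∈ T, z ≤ M) (hTK : T.card ≤ K)
    {x : ℝ} (hx0 : 0 ≤ x) (hx1 : x ≤ 1) :
    |∫ y in (0 : ℝ)..1, Phi (fun z => a + h * z) T x y *
      (Phi (fun z => a + h * z) S (1 - y) (1 - x) - Phi (fun z => a + h * z) S' (1 - y) (1 - x))| ≤
      20 * eta ^ 7 := by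
  obtain ⟨n1, n2, n3, n4, n5, n6, n7⟩ := num st
  have a0 := st.a0
  have h0 := st.h0
  set c : ℕ → ℝ := fun z => a + h * z with hc
  set f : ℝ → ℝ := fun ξ => Phi c T x (1 - ξ) * (Phi c S ξ (1 - x) - Phi c S' ξ (1 - x)) with hf
  have hcont : Continuous f := cont_f2 T S S' c x
  have e1 : ∫ y in (0 : ℝ)..1, Phi c T x y * (Phi c S (1 - y) (1 - x) - Phi c S' (1 - y) (1 - x)) =
      ∫ ξ in (0 : ℝ)..1, f ξ := by
    have := intervalIntegral.integral_comp_sub_left (a := 0) (b := 1) f 1
    rw [sub_self, sub_zero] at this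
    rw [← this]
    simp only [hf, sub_sub_cancel]
  rw [e1]
  have hcard : S'.card = S.card := (sim_card (by norm_num) hS).symm
  have hpos : 0 ≤ eta ^ 7 := by positivity
  have hbound : ∀ {ξ B : ℝ}, 0 ≤ ξ → |Phi c S ξ (1 - x) - Phi c S' ξ (1 - x)| ≤ B → ‖f ξ‖ ≤ B := by
    intro ξ B hξ hB
    rw [Real.norm_eq_abs, hf]
    simp only
    rw [abs_mul, abs_of_nonneg (phi_nonneg _ _ _ _)]
    calc Phi c T x (1 - ξ) * |Phi c S ξ (1 - x) - Phi c S' ξ (1 - x)| ≤ 1 * B :=
          mul_le_mul (phi_le_one (by linarith)) hB (abs_nonneg _) zero_le_one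
      _ = B := one_mul B
  rcases le_total (1 - x) (a + h * M) with h1 | h1
  · have := intervalIntegral.norm_integral_le_of_norm_le_const (a := (0 : ℝ)) (b := 1) (f := f)
      (C := eta ^ 7) (fun ξ hξ => by
        rw [Set.uIoc_of_le zero_le_one] at hξ
        exact hbound hξ.1.le (diff_small st hS8 (by omega) hξ.1.le h1))
    rw [Real.norm_eq_abs] at this
    simp only [sub_zero, abs_one, mul_one] at this
    linarith
  · have s1 : ∫ ξ in (0 : ℝ)..1, f ξ = (∫ ξ in (0 : ℝ)..a, f ξ) + (∫ ξ in a..(a + h * M), f ξ) +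
        ∫ ξ in (a + h * M)..1, f ξ := by
      rw [intervalIntegral.integral_add_adjacent_intervals (hcont.intervalIntegrable _ _)
        (hcont.intervalIntegrable _ _), intervalIntegral.integral_add_adjacent_intervals
        (hcont.intervalIntegrable _ _) (hcont.intervalIntegrable _ _)]
    have b1 : |∫ ξ in (0 : ℝ)..a, f ξ| ≤ 4 * eta ^ 7 := by
      have := intervalIntegral.norm_integral_le_of_norm_le_const (a := (0 : ℝ)) (b := a) (f := f)
        (C := 4 * eta ^ 7) (fun ξ hξ => by
          rw [Set.uIoc_of_le a0.le] at hξ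
          exact hbound hξ.1.le (diff_left st hS hSK hS8 hξ.1.le hξ.2 (by linarith)))
      rw [Real.norm_eq_abs, sub_zero, abs_of_nonneg a0.le] at this
      nlinarith
    have b2 : |∫ ξ in a..(a + h * M), f ξ| ≤ 16 * eta ^ 7 := by
      have h2 := PW_phi st hTM hTK hx0 (by linarith : x ≤ 1 - (a + h * M)) (Nat.zero_le M)
        (Nat.zero_le 3)
      have h3 := F1_up hS rfl (by omega) (z0 := 0) (Or.inl rfl) (Nat.zero_le M) a0 h0 (eta_K st hSK)
        (lam := 2 * h * K) (le_of_eq n7) (by positivity) (by linarith) h1 (by linarith) h2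
      rw [Nat.cast_zero, mul_zero, add_zero] at h3
      refine le_of_eq_of_le ?_ h3
      congr 1
      refine intervalIntegral.integral_congr fun ξ _ => ?_
      simp only [hf, pow_zero, mul_one]
      ring
    have b3 : ∫ ξ in (a + h * M)..1, f ξ = 0 := by
      have : ∫ ξ in (a + h * M)..1, f ξ = ∫ ξ in (a + h * M)..1, (0 : ℝ) := by
        refine intervalIntegral.integral_congr fun ξ hξ => ?_
        rw [Set.uIcc_of_le (by linarith)] at hξ
        simp only [hf]
        rw [Phi_right h0 (sim_card (by norm_num) hS) hS.le hS.le' hξ.1, sub_self, mul_zero]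
      rw [this]
      simp
    rw [s1, b3, add_zero]
    calc |(∫ ξ in (0 : ℝ)..a, f ξ) + (∫ ξ in a..(a + h * M), f ξ)| ≤ _ := abs_add_le _ _
      _ ≤ 4 * eta ^ 7 + 16 * eta ^ 7 := add_le_add b1 b2
      _ = 20 * eta ^ 7 := by ring

/-! ## the lower ticks -/

theorem cont_f1 (T T' S : Finset ℕ) (c : ℕ → ℝ) : Continuous fun p : ℝ × ℝ =>
    (Phi c T p.1 p.2 - Phi c T' p.1 p.2) * Phi c S (1 - p.2) (1 - p.1) := by
  have h2 : Continuous fun p : ℝ × ℝ => Phi c S (1 - p.2) (1 - p.1) :=
    (cont_phi c S).comp ((continuous_const.sub continuous_snd).prodMk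
      (continuous_const.sub continuous_fst))
  exact ((cont_phi c T).sub (cont_phi c T')).mul h2

theorem cont_f3 (T S S' : Finset ℕ) (c : ℕ → ℝ) : Continuous fun p : ℝ × ℝ =>
    Phi c T p.1 p.2 * (Phi c S (1 - p.2) (1 - p.1) - Phi c S' (1 - p.2) (1 - p.1)) := by
  have h2 : ∀ S, Continuous fun p : ℝ × ℝ => Phi c S (1 - p.2) (1 - p.1) := fun S =>
    (cont_phi c S).comp ((continuous_const.sub continuous_snd).prodMk
      (continuous_const.sub continuous_fst))
  exact (cont_phi c T).mul ((h2 S).sub (h2 S'))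

/-- first part of the difference of the densities -/
noncomputable def I1 (c : ℕ → ℝ) (T T' S : Finset ℕ) (x : ℝ) : ℝ :=
  ∫ y in (0 : ℝ)..1, (Phi c T x y - Phi c T' x y) * Phi c S (1 - y) (1 - x)

/-- second part -/
noncomputable def I2 (c : ℕ → ℝ) (T S S' : Finset ℕ) (x : ℝ) : ℝ :=
  ∫ y in (0 : ℝ)..1, Phi c T x y * (Phi c S (1 - y) (1 - x) - Phi c S' (1 - y) (1 - x))

theorem cont_I1 (c : ℕ → ℝ) (T T' S : Finset ℕ) : Continuous (I1 c T T' S) :=
  intervalIntegral.continuous_parametric_intervalIntegral_of_continuous'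
    (f := fun x y => (Phi c T x y - Phi c T' x y) * Phi c S (1 - y) (1 - x)) (cont_f1 T T' S c) 0 1

theorem cont_I2 (c : ℕ → ℝ) (T S S' : Finset ℕ) : Continuous (I2 c T S S') :=
  intervalIntegral.continuous_parametric_intervalIntegral_of_continuous'
    (f := fun x y => Phi c T x y * (Phi c S (1 - y) (1 - x) - Phi c S' (1 - y) (1 - x)))
    (cont_f3 T S S' c) 0 1

theorem dX_sub (c : ℕ → ℝ) (T T' S S' : Finset ℕ) (x : ℝ) :
    dX c c T S x - dX c c T' S' x = I1 c T T' S x + I2 c T' S S' x := by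
  have i0 : ∀ T S, IntervalIntegrable (fun y => W c c T S x y) volume 0 1 := fun T S => by
    unfold W
    have h1 : Continuous fun y : ℝ => Phi c T x y :=
      (cont_phi c T).comp (continuous_const.prodMk continuous_id)
    have h2 : Continuous fun y : ℝ => Phi c S (1 - y) (1 - x) :=
      (cont_phi c S).comp ((continuous_const.sub continuous_id).prodMk continuous_const)
    exact (h1.mul h2).intervalIntegrable _ _
  have i1 : IntervalIntegrable (fun y => (Phi c T x y - Phi c T' x y) * Phi c S (1 - y) (1 - x))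
      volume 0 1 :=
    ((cont_f1 T T' S c).comp (continuous_const.prodMk continuous_id :
      Continuous fun y : ℝ => (x, y))).intervalIntegrable _ _
  have i2 : IntervalIntegrable (fun y => Phi c T' x y *
      (Phi c S (1 - y) (1 - x) - Phi c S' (1 - y) (1 - x))) volume 0 1 :=
    ((cont_f3 T' S S' c).comp (continuous_const.prodMk continuous_id :
      Continuous fun y : ℝ => (x, y))).intervalIntegrable _ _
  rw [dX, dX, I1, I2, ← intervalIntegral.integral_sub (i0 T S) (i0 T' S'),
    ← intervalIntegral.integral_add i1 i2]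
  refine intervalIntegral.integral_congr fun y _ => ?_
  simp only [W]
  ring

theorem I2_le (st : Std a h eta K M) {R : ℕ} {S S' : Finset ℕ} (hS : Sim 11 R M S S')
    (hSK : S.card ≤ K) (hS8 : 8 ≤ S.card) {T : Finset ℕ} (hTM : ∀ z ∈ T, z ≤ M) (hTK : T.card ≤ K)
    {x : ℝ} (hx0 : 0 ≤ x) (hx1 : x ≤ 1) : |I2 (fun z => a + h * z) T S S' x| ≤ 20 * eta ^ 7 :=
  part2 st hS hSK hS8 hTM hTK hx0 hx1

theorem abs_mul_le {p q B : ℝ} (h1 : |p| ≤ B) (h0 : 0 ≤ q) (h2 : q ≤ 1) : |p * q| ≤ B := by
  rw [abs_mul, abs_of_nonneg h0]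
  calc |p| * q ≤ |p| * 1 := mul_le_mul_of_nonneg_left h2 (abs_nonneg _)
    _ = |p| := mul_one _
    _ ≤ B := h1

/-- to the left of the ticks -/
theorem I1_left (st : Std a h eta K M) {R : ℕ} {T T' : Finset ℕ} (hT : Sim 11 R M T T')
    (hTK : T.card ≤ K) (hT8 : 8 ≤ T.card) (S : Finset ℕ) {x : ℝ} (hx0 : 0 ≤ x) (hxa : x ≤ a) :
    |I1 (fun z => a + h * z) T T' S x| ≤ 4 * eta ^ 7 := by
  have := intervalIntegral.norm_integral_le_of_norm_le_const (a := (0 : ℝ)) (b := 1)
    (f := fun y => (Phi (fun z => a + h * z) T x y - Phi (fun z => a + h * z) T' x y) *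
      Phi (fun z => a + h * z) S (1 - y) (1 - x)) (C := 4 * eta ^ 7) (fun y hy => by
      rw [Set.uIoc_of_le zero_le_one] at hy
      rw [Real.norm_eq_abs]
      exact abs_mul_le (diff_left st hT hTK hT8 hx0 hxa hy.2) (phi_nonneg _ _ _ _)
        (phi_le_one (by linarith [hy.2])))
  rw [Real.norm_eq_abs] at this
  simpa [I1] using this

/-- to the right of the ticks -/
theorem I1_right (st : Std a h eta K M) {R : ℕ} {T T' : Finset ℕ} (hT : Sim 11 R M T T')
    (S : Finset ℕ) {x : ℝ} (hx : a + h * M ≤ x) : I1 (fun z => a + h * z) T T' S x = 0 := by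
  have : ∀ y, (Phi (fun z => a + h * z) T x y - Phi (fun z => a + h * z) T' x y) *
      Phi (fun z => a + h * z) S (1 - y) (1 - x) = 0 := fun y => by
    rw [Phi_right st.h0 (sim_card (by norm_num) hT) hT.le hT.le' hx, sub_self, zero_mul]
  simp only [I1, this]
  simp

/-- Fubini for continuous functions -/
theorem swapc {F : ℝ → ℝ → ℝ} (hF : Continuous fun p : ℝ × ℝ => F p.1 p.2) {A B : ℝ} (hAB : A ≤ B) :
    ∫ x in A..B, ∫ y in (0 : ℝ)..1, F x y = ∫ y in (0 : ℝ)..1, ∫ x in A..B, F x y := by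
  simp only [intervalIntegral.integral_of_le zero_le_one, intervalIntegral.integral_of_le hAB]
  apply integral_integral_swap
  rw [Measure.prod_restrict]
  have h1 : IntegrableOn (Function.uncurry F) (Set.Icc A B ×ˢ Set.Icc (0 : ℝ) 1)
      ((volume : Measure ℝ).prod volume) :=
    (hF.continuousOn).integrableOn_compact (isCompact_Icc.prod isCompact_Icc)
  exact h1.mono_set (Set.prod_mono Set.Ioc_subset_Icc_self Set.Ioc_subset_Icc_self)

/-- above a cut -/
theorem I1_up (st : Std a h eta K M) {R : ℕ} {T T' S : Finset ℕ} (hT : Sim 11 R M T T')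
    (hTK : T.card ≤ K) (hT8 : 8 ≤ T.card) (hSM : ∀ z ∈ S, z ≤ M) (hSK : S.card ≤ K)
    {z0 : ℕ} (hz : Cut 11 R T T' z0) (hzM : z0 ≤ M) {j : ℕ} (hj : j ≤ 3) :
    |∫ x in (a + h * z0)..(a + h * M), I1 (fun z => a + h * z) T T' S x * (x - (a + h * z0)) ^ j| ≤
      16 * eta ^ 7 := by
  obtain ⟨n1, n2, n3, n4, n5, n6, n7⟩ := num st
  have a0 := st.a0
  have h0 := st.h0
  have hpos : 0 ≤ eta ^ 7 := by positivity
  have hzM' : (z0 : ℝ) ≤ M := by exact_mod_cast hzM
  have hzh : h * z0 ≤ h * M := mul_le_mul_of_nonneg_left hzM' h0.le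
  have hz0 : 0 ≤ h * z0 := by positivity
  set c : ℕ → ℝ := fun z => a + h * z with hc
  set F : ℝ → ℝ → ℝ := fun x y => (Phi c T x y - Phi c T' x y) * Phi c S (1 - y) (1 - x) *
    (x - (a + h * z0)) ^ j with hF
  have hcF : Continuous fun p : ℝ × ℝ => F p.1 p.2 :=
    (cont_f1 T T' S c).mul ((continuous_fst.sub continuous_const).pow j)
  have e1 : ∫ x in (a + h * z0)..(a + h * M), I1 c T T' S x * (x - (a + h * z0)) ^ j =
      ∫ x in (a + h * z0)..(a + h * M), ∫ y in (0 : ℝ)..1, F x y := by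
    refine intervalIntegral.integral_congr fun x _ => ?_
    simp only [I1, hF]
    rw [intervalIntegral.integral_mul_const]
  rw [e1, swapc hcF (by linarith)]
  have := intervalIntegral.norm_integral_le_of_norm_le_const (a := (0 : ℝ)) (b := 1)
    (f := fun y => ∫ x in (a + h * z0)..(a + h * M), F x y) (C := 16 * eta ^ 7) (fun y hy => by
      rw [Set.uIoc_of_le zero_le_one] at hy
      rcases le_total y (a + h * M) with h1 | h1
      · have := intervalIntegral.norm_integral_le_of_norm_le_const (a := a + h * z0)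
          (b := a + h * M) (f := fun x => F x y) (C := eta ^ 7) (fun x hx => by
            rw [Set.uIoc_of_le (by linarith)] at hx
            rw [Real.norm_eq_abs]
            have b0 : 0 ≤ x - (a + h * z0) := by linarith [hx.1]
            have b1 : x - (a + h * z0) ≤ 1 := by linarith [hx.2]
            exact abs_mul_le (abs_mul_le (diff_small st hT8
              (by rw [← sim_card (by norm_num) hT]; exact hT8) (by linarith [hx.1]) h1)
              (phi_nonneg _ _ _ _) (phi_le_one (by linarith [hx.1, hy.2]))) (pow_nonneg b0 _)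
              (pow_le_one₀ b0 b1))
        have hab : |a + h * M - (a + h * z0)| ≤ 1 := by
          rw [abs_of_nonneg (by linarith)]
          linarith
        calc _ ≤ eta ^ 7 * |a + h * M - (a + h * z0)| := this
          _ ≤ eta ^ 7 * 1 := mul_le_mul_of_nonneg_left hab hpos
          _ ≤ 16 * eta ^ 7 := by linarith
      · have h2 := PW_phi st hSM hSK (s := 1 - y) (by linarith [hy.2]) (by linarith) hzM hj
        have h3 := F1_up hT rfl (by omega) hz hzM a0 h0 (eta_K st hTK)
          (lam := 2 * h * K) (le_of_eq n7) (by positivity) (by linarith) h1 hy.2 h2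
        rw [Real.norm_eq_abs]
        refine le_of_eq_of_le ?_ h3
        congr 1
        refine intervalIntegral.integral_congr fun x _ => ?_
        simp only [hF, hc]
        ring)
  rw [Real.norm_eq_abs] at this
  simpa using this

/-- below a cut -/
theorem I1_down (st : Std a h eta K M) {R : ℕ} {T T' S : Finset ℕ} (hT : Sim 11 R M T T')
    (hTK : T.card ≤ K) (hT8 : 8 ≤ T.card) (hSM : ∀ z ∈ S, z ≤ M) (hSK : S.card ≤ K)
    {z0 : ℕ} (hz : Cut 11 R T T' z0) (hzM : z0 ≤ M) :
    |∫ x in a..(a + h * z0), I1 (fun z => a + h * z) T T' S x| ≤ 16 * eta ^ 7 := by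
  obtain ⟨n1, n2, n3, n4, n5, n6, n7⟩ := num st
  have a0 := st.a0
  have h0 := st.h0
  have hpos : 0 ≤ eta ^ 7 := by positivity
  have hzM' : (z0 : ℝ) ≤ M := by exact_mod_cast hzM
  have hzh : h * z0 ≤ h * M := mul_le_mul_of_nonneg_left hzM' h0.le
  have hz0 : 0 ≤ h * z0 := by positivity
  set c : ℕ → ℝ := fun z => a + h * z with hc
  set F : ℝ → ℝ → ℝ := fun x y => (Phi c T x y - Phi c T' x y) * Phi c S (1 - y) (1 - x) with hF
  have hcF : Continuous fun p : ℝ × ℝ => F p.1 p.2 := cont_f1 T T' S c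
  have e1 : ∫ x in a..(a + h * z0), I1 c T T' S x =
      ∫ x in a..(a + h * z0), ∫ y in (0 : ℝ)..1, F x y := rfl
  rw [e1, swapc hcF (by linarith)]
  have := intervalIntegral.norm_integral_le_of_norm_le_const (a := (0 : ℝ)) (b := 1)
    (f := fun y => ∫ x in a..(a + h * z0), F x y) (C := 16 * eta ^ 7) (fun y hy => by
      rw [Set.uIoc_of_le zero_le_one] at hy
      rcases le_total y (a + h * M) with h1 | h1
      · have := intervalIntegral.norm_integral_le_of_norm_le_const (a := a)
          (b := a + h * z0) (f := fun x => F x y) (C := eta ^ 7) (fun x hx => by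
            rw [Set.uIoc_of_le (by linarith)] at hx
            rw [Real.norm_eq_abs]
            exact abs_mul_le (diff_small st hT8
              (by rw [← sim_card (by norm_num) hT]; exact hT8) (by linarith [hx.1]) h1)
              (phi_nonneg _ _ _ _) (phi_le_one (by linarith [hx.1, hy.2])))
        have hab : |a + h * z0 - a| ≤ 1 := by
          rw [abs_of_nonneg (by linarith)]
          linarith
        calc _ ≤ eta ^ 7 * |a + h * z0 - a| := this
          _ ≤ eta ^ 7 * 1 := mul_le_mul_of_nonneg_left hab hpos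
          _ ≤ 16 * eta ^ 7 := by linarith
      · have h2 := PW_phi st hSM hSK (s := 1 - y) (by linarith [hy.2]) (by linarith) hzM
          (Nat.zero_le 3)
        have h3 := F1_down hT rfl (by omega) hz hzM a0 h0 (eta_K st hTK)
          (lam := 2 * h * K) (le_of_eq n7) (by positivity) (by linarith) h1 hy.2 h2
        rw [Real.norm_eq_abs]
        refine le_of_eq_of_le ?_ h3
        congr 1
        refine intervalIntegral.integral_congr fun x _ => ?_
        simp only [hF, hc, pow_zero, mul_one])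
  rw [Real.norm_eq_abs] at this
  simpa using this

end

end Mg

open Mg

variable {R M K : ℕ} {T T' S S' : Finset ℕ} {a h eta : ℝ}

theorem w_out {R M K : ℕ} {T T' S S' : Finset ℕ} {a h eta : ℝ} (st : Std a h eta K M)
    (hT : Sim 11 R M T T') (hS : Sim 11 R M S S') (hTK : T.card ≤ K) (hSK : S.card ≤ K)
    (hT8 : 8 ≤ T.card) (hS8 : 8 ≤ S.card) {x : ℝ} (hx0 : 0 ≤ x) (hx1 : x ≤ 1)
    (hx : x ≤ a ∨ a + h * M ≤ x) :
    |dX (fun z => a + h * z) (fun z => a + h * z) T S x
      - dX (fun z => a + h * z) (fun z => a + h * z) T' S' x| ≤ 100 * eta ^ 7 := by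
  have hpos : 0 ≤ eta ^ 7 := by
    have := (num st).1
    positivity
  have hTK' : T'.card ≤ K := by rw [← sim_card (by norm_num) hT]; exact hTK
  rw [dX_sub]
  have b2 := I2_le st hS hSK hS8 hT.le' hTK' hx0 hx1
  have b1 : |I1 (fun z => a + h * z) T T' S x| ≤ 4 * eta ^ 7 := by
    rcases hx with hx | hx
    · exact I1_left st hT hTK hT8 S hx0 hx
    · rw [I1_right st hT S hx, abs_zero]
      positivity
  refine (abs_add_le _ _).trans ?_
  linarith

theorem w_cut {R M K : ℕ} {T T' S S' : Finset ℕ} {a h eta : ℝ} (st : Std a h eta K M)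
    (hT : Sim 11 R M T T') (hS : Sim 11 R M S S') (hTK : T.card ≤ K) (hSK : S.card ≤ K)
    (hT8 : 8 ≤ T.card) (hS8 : 8 ≤ S.card) {z0 : ℕ} (hz : Cut 11 R T T' z0) (hzM : z0 ≤ M)
    {j : ℕ} (hj : j ≤ 3) :
    |∫ x in (a + h * z0)..(a + h * M),
      (dX (fun z => a + h * z) (fun z => a + h * z) T S x
        - dX (fun z => a + h * z) (fun z => a + h * z) T' S' x) * (x - (a + h * z0)) ^ j|
        ≤ 200 * eta ^ 7 ∧
    |∫ x in (0 : ℝ)..(a + h * z0),
      (dX (fun z => a + h * z) (fun z => a + h * z) T S x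
        - dX (fun z => a + h * z) (fun z => a + h * z) T' S' x)| ≤ 200 * eta ^ 7 := by
  obtain ⟨n1, n2, n3, n4, n5, n6, n7⟩ := num st
  have a0 := st.a0
  have h0 := st.h0
  have hpos : 0 ≤ eta ^ 7 := by positivity
  have hzM' : (z0 : ℝ) ≤ M := by exact_mod_cast hzM
  have hzh : h * z0 ≤ h * M := mul_le_mul_of_nonneg_left hzM' h0.le
  have hz0 : 0 ≤ h * z0 := by positivity
  have hTK' : T'.card ≤ K := by rw [← sim_card (by norm_num) hT]; exact hTK
  have c1 := cont_I1 (fun z => a + h * z) T T' S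
  have c2 := cont_I2 (fun z => a + h * z) T' S S'
  constructor
  · have hp : Continuous fun x : ℝ => (x - (a + h * z0)) ^ j :=
      (continuous_id.sub continuous_const).pow j
    have e : ∫ x in (a + h * z0)..(a + h * M),
        (dX (fun z => a + h * z) (fun z => a + h * z) T S x
          - dX (fun z => a + h * z) (fun z => a + h * z) T' S' x) * (x - (a + h * z0)) ^ j =
        (∫ x in (a + h * z0)..(a + h * M), I1 (fun z => a + h * z) T T' S x * (x - (a + h * z0)) ^ j) +
        ∫ x in (a + h * z0)..(a + h * M), I2 (fun z => a + h * z) T' S S' x * (x - (a + h * z0)) ^ j := by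
      have i1 : IntervalIntegrable (fun x => I1 (fun z => a + h * z) T T' S x *
          (x - (a + h * z0)) ^ j) volume (a + h * z0) (a + h * M) := (c1.mul hp).intervalIntegrable _ _
      have i2 : IntervalIntegrable (fun x => I2 (fun z => a + h * z) T' S S' x *
          (x - (a + h * z0)) ^ j) volume (a + h * z0) (a + h * M) := (c2.mul hp).intervalIntegrable _ _
      rw [← intervalIntegral.integral_add i1 i2]
      refine intervalIntegral.integral_congr fun x _ => ?_
      beta_reduce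
      rw [dX_sub]
      ring
    rw [e]
    have b1 := I1_up st hT hTK hT8 hS.le hSK hz hzM hj
    have b2 := intervalIntegral.norm_integral_le_of_norm_le_const (a := a + h * z0)
      (b := a + h * M) (f := fun x => I2 (fun z => a + h * z) T' S S' x * (x - (a + h * z0)) ^ j)
      (C := 20 * eta ^ 7) (fun x hx => by
        rw [Set.uIoc_of_le (by linarith)] at hx
        rw [Real.norm_eq_abs]
        have b0 : 0 ≤ x - (a + h * z0) := by linarith [hx.1]
        have b1 : x - (a + h * z0) ≤ 1 := by linarith [hx.2]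
        exact abs_mul_le (I2_le st hS hSK hS8 hT.le' hTK' (by linarith [hx.1]) (by linarith [hx.2]))
          (pow_nonneg b0 _) (pow_le_one₀ b0 b1))
    rw [Real.norm_eq_abs] at b2
    have hab : |a + h * M - (a + h * z0)| ≤ 1 := by
      rw [abs_of_nonneg (by linarith)]
      linarith
    have b3 : 20 * eta ^ 7 * |a + h * M - (a + h * z0)| ≤ 20 * eta ^ 7 * 1 :=
      mul_le_mul_of_nonneg_left hab (by positivity)
    refine (abs_add_le _ _).trans ?_
    linarith
  · have e : ∫ x in (0 : ℝ)..(a + h * z0),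
        (dX (fun z => a + h * z) (fun z => a + h * z) T S x
          - dX (fun z => a + h * z) (fun z => a + h * z) T' S' x) =
        (∫ x in (0 : ℝ)..a, I1 (fun z => a + h * z) T T' S x) +
        (∫ x in a..(a + h * z0), I1 (fun z => a + h * z) T T' S x) +
        ∫ x in (0 : ℝ)..(a + h * z0), I2 (fun z => a + h * z) T' S S' x := by
      rw [intervalIntegral.integral_add_adjacent_intervals (c1.intervalIntegrable _ _)
        (c1.intervalIntegrable _ _), ← intervalIntegral.integral_add (c1.intervalIntegrable _ _)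
        (c2.intervalIntegrable _ _)]
      exact intervalIntegral.integral_congr fun x _ => dX_sub _ _ _ _ _ x
    rw [e]
    have b1 := intervalIntegral.norm_integral_le_of_norm_le_const (a := (0 : ℝ))
      (b := a) (f := fun x => I1 (fun z => a + h * z) T T' S x)
      (C := 4 * eta ^ 7) (fun x hx => by
        rw [Set.uIoc_of_le a0.le] at hx
        rw [Real.norm_eq_abs]
        exact I1_left st hT hTK hT8 S hx.1.le hx.2)
    have b2 := I1_down st hT hTK hT8 hS.le hSK hz hzM
    have b3 := intervalIntegral.norm_integral_le_of_norm_le_const (a := (0 : ℝ))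
      (b := a + h * z0) (f := fun x => I2 (fun z => a + h * z) T' S S' x)
      (C := 20 * eta ^ 7) (fun x hx => by
        rw [Set.uIoc_of_le (by linarith)] at hx
        rw [Real.norm_eq_abs]
        exact I2_le st hS hSK hS8 hT.le' hTK' hx.1.le (by linarith [hx.2]))
    rw [Real.norm_eq_abs, sub_zero, abs_of_nonneg (show 0 ≤ a from a0.le)] at b1
    rw [Real.norm_eq_abs, sub_zero, abs_of_nonneg (show 0 ≤ a + h * z0 by linarith)] at b3
    have b4 : 4 * eta ^ 7 * a ≤ 4 * eta ^ 7 * 1 := mul_le_mul_of_nonneg_left (by linarith) (by positivity)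
    have b5 : 20 * eta ^ 7 * (a + h * z0) ≤ 20 * eta ^ 7 * 1 :=
      mul_le_mul_of_nonneg_left (by linarith) (by positivity)
    refine (abs_add_three _ _ _).trans ?_
    linarith

end Pool.Agent.T1K
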