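import Pool.Agent.T1K.KerQ0
import Pool.Agent.T1K.KerX0
import Pool.Agent.T1K.Marg
import Pool.Agent.T1K.Lead

/-!
# T1: the quadratic kernel of two species (`ker_q`)
-/

set_option autoImplicit false

open Finset

namespace Pool.Agent.T1K

/-- the quadratic kernel with the barrier at a cut (`z0`), or no barrier (`al = 0`, `z0 = 0`) -/
theorem ker_q {R M K : ℕ} {T T' S S' : Finset ℕ} {a h eta : ℝ} (st : Std a h eta K M)
    (hT : Sim 11 R M T T') (hS : Sim 11 R M S S') (hTK : T.card ≤ K) (hSK : S.card ≤ K)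
    (hT8 : 8 ≤ T.card) (hS8 : 8 ≤ S.card) {z0 : ℕ} (hz : Cut 11 R T T' z0) (hzM : z0 ≤ M)
    {al : ℝ} (hal : al = a + h * z0 ∨ (al = 0 ∧ z0 = 0)) :
    |Kq al (dX (fun z => a + h * z) (fun z => a + h * z) T S)
        (dX (fun z => a + h * z) (fun z => a + h * z) T' S')
      - kap a h M T.card S ^ 2 * h ^ 6 *
        (US 6 (T.filter (z0 ≤ ·)) (T'.filter (z0 ≤ ·)) : ℝ) / 360|
        ≤ 10 ^ 6 * eta ^ 3 * (h * M) ^ 4 + 10 ^ 6 * eta ^ 7 := by
  have hcard : T.card = T'.card := sim_card (by norm_num) hT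
  obtain ⟨r0, r1, hr0, hr1, hr, hlead⟩ := w_lead (R := R) (k := T.card) st hS.le hSK hS8 hTK hT8
  have hk := kap_lower st hS.le hSK hTK hT8
  have hk0 : 0 ≤ kap a h M T.card S := le_trans (by positivity) hk.1
  have hcut := fun j (hj : j ≤ 3) => w_cut st hT hS hTK hSK hT8 hS8 hz hzM hj
  have hcore := KQ.ker_q_core st hzM hT.le hT.le' hTK (hcard ▸ hTK)
    (fun i hi => inv_pow hT hz (by omega)) (kx_cont _ _ T S) (kx_cont _ _ T' S')
    (fun x hx _ => kx_bd _ _ T S hx)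
    (fun x hx hx1 hxa => w_out st hT hS hTK hSK hT8 hS8 hx hx1 hxa)
    (fun j hj => (hcut j hj).1) (hcut 0 (by norm_num)).2 hk0 hk.2 hr0 hr1 hr
    (fun u hu huM => hlead T S hT.le rfl (kx_refl hS) u hu huM)
    (fun u hu huM => hlead T' S' hT.le' hcard.symm (kx_symm hS) u hu huM) hal
  refine hcore.trans ?_
  have hE0 : 0 ≤ eta := by
    rw [← st.etaEq]
    have := st.h0
    positivity
  have hh := st.h0
  have h1 : 0 ≤ eta ^ 3 * (h * M) ^ 4 := by positivity
  have h2 : 0 ≤ eta ^ 7 := by positivity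
  nlinarith

end Pool.Agent.T1K
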