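import Pool.Agent.T1K.KerT
import Pool.Agent.T1K.Defs2

/-!
# T1: kernel integrals of the piecewise linear functions `DD T`

* `dd4`: `∬ DD T u * DD T' v * sgn (v - u) = US 4 T T' / 24`.
* `dd6`: `∬ DD T u * DD T' v * (v - u) |v - u| = US 6 T T' / 360`, from a lower end `z0`.
-/

set_option autoImplicit false

open Finset MeasureTheory intervalIntegral

namespace Pool.Agent.T1K

/-! ## Derivatives of `|w| w ^ r` -/

lemma hasDerivAt_absPow (r : ℕ) (w : ℝ) :
    HasDerivAt (fun x : ℝ => |x| * x ^ (r + 1)) (((r : ℝ) + 2) * (|w| * w ^ r)) w := by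
  rcases lt_trichotomy w 0 with hw | hw | hw
  · have h1 : HasDerivAt (fun x : ℝ => -(x ^ (r + 2))) (-(((r + 2 : ℕ) : ℝ) * w ^ (r + 2 - 1))) w :=
      (hasDerivAt_pow (r + 2) w).neg
    have h2 : (fun x : ℝ => |x| * x ^ (r + 1)) =ᶠ[nhds w] fun x : ℝ => -(x ^ (r + 2)) := by
      filter_upwards [Iio_mem_nhds hw] with x hx
      rw [abs_of_neg hx]
      ring
    refine (h1.congr_of_eventuallyEq h2).congr_deriv ?_
    rw [abs_of_neg hw]
    have e : r + 2 - 1 = r + 1 := by omega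
    rw [e]
    push_cast
    ring
  · subst hw
    rw [abs_zero, zero_mul, mul_zero, hasDerivAt_iff_isLittleO_nhds_zero]
    rw [Asymptotics.isLittleO_iff]
    intro ε hε
    have h3 : Filter.Tendsto (fun x : ℝ => |x| * |x| ^ r) (nhds 0) (nhds 0) := by
      have : Continuous fun x : ℝ => |x| * |x| ^ r := by fun_prop
      simpa using this.tendsto 0
    filter_upwards [(tendsto_order.1 h3).2 ε hε] with x hx
    simp only [zero_add, abs_zero, zero_mul, sub_zero, smul_zero]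
    rw [Real.norm_eq_abs, Real.norm_eq_abs, abs_mul, abs_abs, abs_pow]
    calc |x| * |x| ^ (r + 1) = (|x| * |x| ^ r) * |x| := by ring
      _ ≤ ε * |x| := mul_le_mul_of_nonneg_right hx.le (abs_nonneg x)
  · have h1 : HasDerivAt (fun x : ℝ => (x ^ (r + 2))) ((((r + 2 : ℕ) : ℝ) * w ^ (r + 2 - 1))) w :=
      (hasDerivAt_pow (r + 2) w)
    have h2 : (fun x : ℝ => |x| * x ^ (r + 1)) =ᶠ[nhds w] fun x : ℝ => (x ^ (r + 2)) := by
      filter_upwards [Ioi_mem_nhds hw] with x hx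
      rw [abs_of_pos hx]
      ring
    refine (h1.congr_of_eventuallyEq h2).congr_deriv ?_
    rw [abs_of_pos hw]
    have e : r + 2 - 1 = r + 1 := by omega
    rw [e]
    push_cast
    ring

lemma hasDerivAt_absPow_sub (r : ℕ) (z w : ℝ) :
    HasDerivAt (fun x : ℝ => |z - x| * (z - x) ^ (r + 1)) (-(((r : ℝ) + 2) * (|z - w| * (z - w) ^ r)))
      w := by
  have h := (hasDerivAt_absPow r (z - w)).comp w ((hasDerivAt_id w).const_sub z)
  refine h.congr_deriv ?_
  ring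

lemma hasDerivAt_absPow_sub' (r : ℕ) (z w : ℝ) :
    HasDerivAt (fun x : ℝ => |x - z| * (x - z) ^ (r + 1)) (((r : ℝ) + 2) * (|w - z| * (w - z) ^ r))
      w := by
  have h := (hasDerivAt_absPow r (w - z)).comp w ((hasDerivAt_id w).sub_const z)
  refine h.congr_deriv ?_
  ring

/-! ## Integration against `max 0 (z - u)` -/

lemma plus_int {K K' k : ℝ → ℝ} (h1 : ∀ u, HasDerivAt K (K' u) u) (h2 : ∀ u, HasDerivAt K' (k u) u)
    (hk : Continuous k) {c z B : ℝ} (hc : c ≤ z) (hz : z ≤ B) :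
    ∫ u in c..B, max 0 (z - u) * k u = K z - K c - (z - c) * K' c := by
  have hcont : Continuous fun u : ℝ => max 0 (z - u) * k u := by fun_prop
  rw [← integral_add_adjacent_intervals (hcont.intervalIntegrable c z)
    (hcont.intervalIntegrable z B)]
  have e1 : ∫ u in z..B, max 0 (z - u) * k u = 0 := by
    rw [intervalIntegral.integral_congr (g := fun _ => (0 : ℝ))]
    · simp
    · intro u hu
      rw [Set.uIcc_of_le hz] at hu
      have : max 0 (z - u) = 0 := max_eq_left (by linarith [hu.1])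
      simp only [this, zero_mul]
  have e2 : ∫ u in c..z, max 0 (z - u) * k u = ∫ u in c..z, (z - u) * k u := by
    refine intervalIntegral.integral_congr ?_
    intro u hu
    rw [Set.uIcc_of_le hc] at hu
    have : max 0 (z - u) = z - u := max_eq_right (by linarith [hu.2])
    simp only [this]
  have e3 : ∫ u in c..z, (z - u) * k u = ((z - z) * K' z + K z) - ((z - c) * K' c + K c) := by
    refine integral_eq_sub_of_hasDerivAt (f := fun u => (z - u) * K' u + K u) ?_ ?_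
    · intro u _
      have h3 := (((hasDerivAt_id u).const_sub z).mul (h2 u)).add (h1 u)
      refine h3.congr_deriv ?_
      simp only [id]
      ring
    · exact (by fun_prop : Continuous fun u : ℝ => (z - u) * k u).intervalIntegrable _ _
  rw [e1, e2, e3]
  ring

lemma plus_sq (w : ℝ) : (max 0 w) ^ 2 = (w ^ 2 + |w| * w) / 2 := by
  rcases le_total 0 w with h | h
  · rw [max_eq_right h, abs_of_nonneg h]
    ring
  · rw [max_eq_left h, abs_of_nonpos h]
    ring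

lemma int_plus {c z B : ℝ} (hc : c ≤ B) (hz : z ≤ B) :
    ∫ u in c..B, max 0 (z - u) = (max 0 (z - c)) ^ 2 / 2 := by
  rcases le_total c z with h | h
  · have h1 := plus_int (K := fun u => u ^ 2 / 2) (K' := fun u => u) (k := fun _ => 1)
      (fun u => ((hasDerivAt_pow 2 u).div_const 2).congr_deriv (by ring))
      (fun u => hasDerivAt_id u) continuous_const h hz
    simp only [mul_one] at h1
    rw [h1, max_eq_right (by linarith)]
    ring
  · rw [intervalIntegral.integral_congr (g := fun _ => (0 : ℝ))]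
    · rw [max_eq_left (by linarith)]
      simp
    · intro u hu
      rw [Set.uIcc_of_le hc] at hu
      exact max_eq_left (by linarith [hu.1])

/-- the difference of the masses before and after `v` -/
lemma plus_diff {c z B v : ℝ} (hc : c ≤ v) (hv : v ≤ B) (hcz : c ≤ z) (hz : z ≤ B) :
    (∫ u in c..v, max 0 (z - u)) - ∫ u in v..B, max 0 (z - u) =
      (z - c) ^ 2 / 2 - ((z - v) ^ 2 + |z - v| * (z - v)) / 2 := by
  have hcont : Continuous fun u : ℝ => max 0 (z - u) := by fun_prop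
  have h1 := integral_add_adjacent_intervals (μ := volume) (hcont.intervalIntegrable c v)
    (hcont.intervalIntegrable v B)
  have h2 := int_plus (hc.trans hv) hz (c := c)
  have h3 := int_plus hv hz
  rw [← plus_sq (z - v)]
  rw [max_eq_right (by linarith : (0 : ℝ) ≤ z - c)] at h2
  linarith

/-! ## The kernel `sgn (v - u)` for a pair of ticks -/

lemma pair4 {c z z' B : ℝ} (hz : c ≤ z) (hzB : z ≤ B) (hz' : c ≤ z') (hzB' : z' ≤ B) :
    ∫ v in c..B, max 0 (z' - v) * ((∫ u in c..v, max 0 (z - u)) - ∫ u in v..B, max 0 (z - u)) =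
      |z' - z| * (z' - z) ^ 3 / 24 + ((z - c) * (z' - c) ^ 3 - (z - c) ^ 3 * (z' - c)) / 6 +
        ((z - c) ^ 4 - (z' - c) ^ 4) / 24 := by
  have h1 : ∫ v in c..B, max 0 (z' - v) *
      ((∫ u in c..v, max 0 (z - u)) - ∫ u in v..B, max 0 (z - u)) =
      ∫ v in c..B, max 0 (z' - v) * ((z - c) ^ 2 / 2 - ((z - v) ^ 2 + |z - v| * (z - v)) / 2) := by
    refine intervalIntegral.integral_congr ?_
    intro v hv
    rw [Set.uIcc_of_le (hz.trans hzB)] at hv
    simp only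
    rw [plus_diff hv.1 hv.2 hz hzB]
  rw [h1]
  have d1 : ∀ u : ℝ, HasDerivAt (fun u : ℝ => (z - c) ^ 2 * u ^ 2 / 4 - (z - u) ^ 4 / 24 -
      |z - u| * (z - u) ^ (2 + 1) / 24)
      ((z - c) ^ 2 * u / 2 + (z - u) ^ 3 / 6 + |z - u| * (z - u) ^ (1 + 1) / 6) u := by
    intro u
    have a1 := ((hasDerivAt_pow 2 u).const_mul ((z - c) ^ 2)).div_const 4
    have a2 := (((hasDerivAt_id u).const_sub z).pow 4).div_const 24
    have a3 := (hasDerivAt_absPow_sub 2 z u).div_const 24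
    refine ((a1.sub a2).sub a3).congr_deriv ?_
    simp only [id]
    push_cast
    ring
  have d2 : ∀ u : ℝ, HasDerivAt (fun u : ℝ => (z - c) ^ 2 * u / 2 + (z - u) ^ 3 / 6 +
      |z - u| * (z - u) ^ (1 + 1) / 6)
      ((z - c) ^ 2 / 2 - ((z - u) ^ 2 + |z - u| * (z - u)) / 2) u := by
    intro u
    have a1 := ((hasDerivAt_id u).const_mul ((z - c) ^ 2)).div_const 2
    have a2 := (((hasDerivAt_id u).const_sub z).pow 3).div_const 6
    have a3 := (hasDerivAt_absPow_sub 1 z u).div_const 6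
    refine ((a1.add a2).add a3).congr_deriv ?_
    simp only [id]
    push_cast
    ring
  rw [plus_int d1 d2 (by fun_prop) hz' hzB']
  rw [abs_of_nonneg (by linarith : (0 : ℝ) ≤ z - c), abs_sub_comm z' z]
  ring

/-! ## The kernel `(v - u) |v - u|` for a pair of ticks -/

lemma inner6 {c z' B u : ℝ} (hu : c ≤ u) (hz' : c ≤ z') (hzB' : z' ≤ B) :
    ∫ v in c..B, max 0 (z' - v) * ((v - u) * |v - u|) =
      |z' - u| * (z' - u) ^ 3 / 12 + (u - c) ^ 4 / 12 - (z' - c) * (u - c) ^ 3 / 3 := by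
  have d1 : ∀ v : ℝ, HasDerivAt (fun v : ℝ => |v - u| * (v - u) ^ (2 + 1) / 12)
      (|v - u| * (v - u) ^ (1 + 1) / 3) v := by
    intro v
    refine ((hasDerivAt_absPow_sub' 2 u v).div_const 12).congr_deriv ?_
    push_cast
    ring
  have d2 : ∀ v : ℝ, HasDerivAt (fun v : ℝ => |v - u| * (v - u) ^ (1 + 1) / 3)
      ((v - u) * |v - u|) v := by
    intro v
    refine ((hasDerivAt_absPow_sub' 1 u v).div_const 3).congr_deriv ?_
    push_cast
    ring
  rw [plus_int d1 d2 (by fun_prop) hz' hzB']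
  rw [abs_of_nonpos (by linarith : c - u ≤ 0)]
  ring

lemma pair6 {c z z' B : ℝ} (hz : c ≤ z) (hzB : z ≤ B) (hz' : c ≤ z') (hzB' : z' ≤ B) :
    ∫ u in c..B, max 0 (z - u) * ∫ v in c..B, max 0 (z' - v) * ((v - u) * |v - u|) =
      |z' - z| * (z' - z) ^ 5 / 360 + ((z - c) * (z' - c) ^ 5 - (z - c) ^ 5 * (z' - c)) / 60 +
        ((z - c) ^ 6 - (z' - c) ^ 6) / 360 := by
  have h1 : ∫ u in c..B, max 0 (z - u) * ∫ v in c..B, max 0 (z' - v) * ((v - u) * |v - u|) =
      ∫ u in c..B, max 0 (z - u) * (|z' - u| * (z' - u) ^ 3 / 12 + (u - c) ^ 4 / 12 -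
        (z' - c) * (u - c) ^ 3 / 3) := by
    refine intervalIntegral.integral_congr ?_
    intro u hu
    rw [Set.uIcc_of_le (hz.trans hzB)] at hu
    simp only
    rw [inner6 hu.1 hz' hzB']
  rw [h1]
  have d1 : ∀ u : ℝ, HasDerivAt (fun u : ℝ => |z' - u| * (z' - u) ^ (4 + 1) / 360 +
      (u - c) ^ 6 / 360 - (z' - c) * (u - c) ^ 5 / 60)
      (-(|z' - u| * (z' - u) ^ (3 + 1) / 60) + (u - c) ^ 5 / 60 - (z' - c) * (u - c) ^ 4 / 12) u := by
    intro u
    have a1 := (hasDerivAt_absPow_sub 4 z' u).div_const 360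
    have a2 := (((hasDerivAt_id u).sub_const c).pow 6).div_const 360
    have a3 := ((((hasDerivAt_id u).sub_const c).pow 5).const_mul (z' - c)).div_const 60
    refine ((a1.add a2).sub a3).congr_deriv ?_
    simp only [id]
    push_cast
    ring
  have d2 : ∀ u : ℝ, HasDerivAt (fun u : ℝ => -(|z' - u| * (z' - u) ^ (3 + 1) / 60) +
      (u - c) ^ 5 / 60 - (z' - c) * (u - c) ^ 4 / 12)
      (|z' - u| * (z' - u) ^ 3 / 12 + (u - c) ^ 4 / 12 - (z' - c) * (u - c) ^ 3 / 3) u := by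
    intro u
    have a1 := ((hasDerivAt_absPow_sub 3 z' u).div_const 60).neg
    have a2 := (((hasDerivAt_id u).sub_const c).pow 5).div_const 60
    have a3 := ((((hasDerivAt_id u).sub_const c).pow 4).const_mul (z' - c)).div_const 12
    refine ((a1.add a2).sub a3).congr_deriv ?_
    simp only [id]
    push_cast
    ring
  rw [plus_int d1 d2 (by fun_prop) hz hzB]
  rw [abs_of_nonneg (by linarith : (0 : ℝ) ≤ z' - c)]
  ring

lemma pair6' {c z z' B : ℝ} (hz : c ≤ z) (hzB : z ≤ B) (hz' : c ≤ z') (hzB' : z' ≤ B) :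
    ∫ v in c..B, ∫ u in c..B, max 0 (z - u) * max 0 (z' - v) * ((v - u) * |v - u|) =
      |z' - z| * (z' - z) ^ 5 / 360 + ((z - c) * (z' - c) ^ 5 - (z - c) ^ 5 * (z' - c)) / 60 +
        ((z - c) ^ 6 - (z' - c) ^ 6) / 360 := by
  have h := pair6 hz' hzB' hz hzB
  have e : ∫ v in c..B, ∫ u in c..B, max 0 (z - u) * max 0 (z' - v) * ((v - u) * |v - u|) =
      -∫ u in c..B, max 0 (z' - u) * ∫ v in c..B, max 0 (z - v) * ((v - u) * |v - u|) := by
    rw [← intervalIntegral.integral_neg]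
    refine intervalIntegral.integral_congr ?_
    intro v _
    simp only
    rw [← intervalIntegral.integral_const_mul, ← intervalIntegral.integral_neg]
    refine intervalIntegral.integral_congr ?_
    intro u _
    simp only
    rw [abs_sub_comm v u]
    ring
  rw [e, h, abs_sub_comm z z']
  ring

/-! ## Sums over the ticks -/

lemma continuous_DD (T : Finset ℕ) : Continuous (DD T) := by
  unfold DD
  fun_prop

lemma int_DD (T : Finset ℕ) (a b : ℝ) :
    ∫ u in a..b, DD T u = ∑ z ∈ T, ∫ u in a..b, max 0 ((z : ℝ) - u) := by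
  unfold DD
  exact intervalIntegral.integral_finsetSum fun z _ =>
    (by fun_prop : Continuous fun u : ℝ => max 0 ((z : ℝ) - u)).intervalIntegrable _ _

lemma US_cast {q : ℕ} (T T' : Finset ℕ) :
    (US (q + 1) T T' : ℝ) = ∑ z ∈ T, ∑ z' ∈ T', |(z' : ℝ) - z| * ((z' : ℝ) - z) ^ q := by
  unfold US
  push_cast
  refine Finset.sum_congr rfl fun z _ => Finset.sum_congr rfl fun z' _ => ?_
  have h : (((((z' : ℤ) - z).sign : ℤ)) : ℝ) * ((z' : ℝ) - z) = |(z' : ℝ) - z| := by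
    have h1 := Int.sign_mul_self_eq_abs ((z' : ℤ) - z)
    have h2 : ((((z' : ℤ) - z).sign * ((z' : ℤ) - z) : ℤ) : ℝ) = ((|(z' : ℤ) - z| : ℤ) : ℝ) := by
      rw [h1]
    push_cast at h2
    exact h2
  rw [pow_succ, ← h]
  ring

/-- power sums of shifted ticks -/
lemma ps_real {T T' : Finset ℕ} {n : ℕ}
    (hp : ∀ i ≤ n, ∑ z ∈ T, (z : ℤ) ^ i = ∑ z ∈ T', (z : ℤ) ^ i) (z0 : ℕ) {j : ℕ} (hj : j ≤ n) :
    ∑ z ∈ T, ((z : ℝ) - z0) ^ j = ∑ z ∈ T', ((z : ℝ) - z0) ^ j := by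
  have h : ∑ z ∈ T, (-(z0 : ℤ) + 1 * (z : ℤ)) ^ j = ∑ z ∈ T', (-(z0 : ℤ) + 1 * (z : ℤ)) ^ j := by
    rw [lin_expand, lin_expand]
    refine Finset.sum_congr rfl fun m hm => ?_
    rw [Finset.mem_range] at hm
    rw [hp m (by omega)]
  have h2 : ∀ U : Finset ℕ, ∑ z ∈ U, ((z : ℝ) - z0) ^ j =
      ((∑ z ∈ U, (-(z0 : ℤ) + 1 * (z : ℤ)) ^ j : ℤ) : ℝ) := by
    intro U
    push_cast
    refine Finset.sum_congr rfl fun z _ => ?_
    congr 1
    ring
  rw [h2, h2, h]

lemma double_sum (T T' : Finset ℕ) (f g : ℕ → ℝ) :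
    ∑ z ∈ T, ∑ z' ∈ T', f z * g z' = (∑ z ∈ T, f z) * ∑ z' ∈ T', g z' := by
  rw [Finset.sum_mul_sum]

/-- the sign kernel -/
theorem dd4 {M : ℕ} {T T' : Finset ℕ} (hT : ∀ z ∈ T, z ≤ M) (hT' : ∀ z ∈ T', z ≤ M)
    (hp : ∀ i ≤ 4, ∑ z ∈ T, (z : ℤ) ^ i = ∑ z ∈ T', (z : ℤ) ^ i) :
    ∫ v in (0 : ℝ)..M, DD T' v * ((∫ u in (0 : ℝ)..v, DD T u) - ∫ u in v..M, DD T u)
      = (US 4 T T' : ℝ) / 24 := by
  have e1 : ∫ v in (0 : ℝ)..M, DD T' v * ((∫ u in (0 : ℝ)..v, DD T u) - ∫ u in v..M, DD T u) =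
      ∑ z ∈ T, ∑ z' ∈ T', ∫ v in (0 : ℝ)..M, max 0 ((z' : ℝ) - v) *
        ((∫ u in (0 : ℝ)..v, max 0 ((z : ℝ) - u)) - ∫ u in v..M, max 0 ((z : ℝ) - u)) := by
    have hc : ∀ z : ℕ, Continuous fun v : ℝ =>
        ((∫ u in (0 : ℝ)..v, max 0 ((z : ℝ) - u)) - ∫ u in v..M, max 0 ((z : ℝ) - u)) := by
      intro z
      have hz : Continuous fun u : ℝ => max 0 ((z : ℝ) - u) := by fun_prop
      have h1 : Continuous fun v : ℝ => ∫ u in (0 : ℝ)..v, max 0 ((z : ℝ) - u) :=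
        intervalIntegral.continuous_primitive (fun a b => hz.intervalIntegrable a b) 0
      have h2 : Continuous fun v : ℝ => ∫ u in (M : ℝ)..v, max 0 ((z : ℝ) - u) :=
        intervalIntegral.continuous_primitive (fun a b => hz.intervalIntegrable a b) M
      have h3 : (fun v : ℝ => ∫ u in v..M, max 0 ((z : ℝ) - u)) =
          fun v : ℝ => -∫ u in (M : ℝ)..v, max 0 ((z : ℝ) - u) := by
        funext v
        exact intervalIntegral.integral_symm _ _
      refine h1.sub ?_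
      rw [h3]
      exact h2.neg
    have hc2 : ∀ z z' : ℕ, Continuous fun v : ℝ => max 0 ((z' : ℝ) - v) *
        ((∫ u in (0 : ℝ)..v, max 0 ((z : ℝ) - u)) - ∫ u in v..M, max 0 ((z : ℝ) - u)) := by
      intro z z'
      have hz' : Continuous fun u : ℝ => max 0 ((z' : ℝ) - u) := by fun_prop
      exact hz'.mul (hc z)
    have e2 : ∀ v : ℝ, DD T' v * ((∫ u in (0 : ℝ)..v, DD T u) - ∫ u in v..M, DD T u) =
        ∑ z ∈ T, ∑ z' ∈ T', max 0 ((z' : ℝ) - v) *
        ((∫ u in (0 : ℝ)..v, max 0 ((z : ℝ) - u)) - ∫ u in v..M, max 0 ((z : ℝ) - u)) := by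
      intro v
      rw [int_DD, int_DD, ← Finset.sum_sub_distrib]
      unfold DD
      rw [Finset.sum_mul_sum, Finset.sum_comm]
    simp_rw [e2]
    rw [intervalIntegral.integral_finsetSum fun z _ =>
      (continuous_finsetSum _ fun z' _ => hc2 z z').intervalIntegrable _ _]
    refine Finset.sum_congr rfl fun z _ => ?_
    rw [intervalIntegral.integral_finsetSum fun z' _ => (hc2 z z').intervalIntegrable _ _]
  have e3 : ∀ z ∈ T, ∀ z' ∈ T', ∫ v in (0 : ℝ)..M, max 0 ((z' : ℝ) - v) *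
        ((∫ u in (0 : ℝ)..v, max 0 ((z : ℝ) - u)) - ∫ u in v..M, max 0 ((z : ℝ) - u)) =
      |(z' : ℝ) - z| * ((z' : ℝ) - z) ^ 3 / 24 + ((z : ℝ) * (z' : ℝ) ^ 3 / 6 -
        (z : ℝ) ^ 3 * (z' : ℝ) / 6) + ((z : ℝ) ^ 4 * 1 / 24 - 1 * (z' : ℝ) ^ 4 / 24) := by
    intro z hz z' hz'
    rw [pair4 (c := 0) (Nat.cast_nonneg z) (Nat.cast_le.2 (hT z hz)) (Nat.cast_nonneg z')
      (Nat.cast_le.2 (hT' z' hz'))]
    ring
  rw [e1, Finset.sum_congr rfl fun z hz => Finset.sum_congr rfl fun z' hz' => e3 z hz z' hz']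
  have p : ∀ j ≤ 4, ∑ z ∈ T, (z : ℝ) ^ j = ∑ z ∈ T', (z : ℝ) ^ j := by
    intro j hj
    have := ps_real hp 0 hj
    simpa using this
  have p0 := p 0 (by norm_num)
  have p1 := p 1 (by norm_num)
  have p3 := p 3 (by norm_num)
  have p4 := p 4 (by norm_num)
  simp only [pow_zero, pow_one] at p0 p1
  simp_rw [Finset.sum_add_distrib, Finset.sum_sub_distrib, ← Finset.sum_div]
  rw [double_sum T T' (fun z => (z : ℝ)) (fun z => (z : ℝ) ^ 3),
    double_sum T T' (fun z => (z : ℝ) ^ 3) (fun z => (z : ℝ)),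
    double_sum T T' (fun z => (z : ℝ) ^ 4) (fun _ => 1),
    double_sum T T' (fun _ => 1) (fun z => (z : ℝ) ^ 4), US_cast, p0, p1, p3, p4]
  ring

/-- the quadratic kernel above `z0` -/
theorem dd6 {M z0 : ℕ} {T T' : Finset ℕ} (hT : ∀ z ∈ T, z0 ≤ z ∧ z ≤ M)
    (hT' : ∀ z ∈ T', z0 ≤ z ∧ z ≤ M)
    (hp : ∀ i ≤ 6, ∑ z ∈ T, (z : ℤ) ^ i = ∑ z ∈ T', (z : ℤ) ^ i) :
    ∫ v in (z0 : ℝ)..M, ∫ u in (z0 : ℝ)..M, DD T u * DD T' v * ((v - u) * |v - u|)
      = (US 6 T T' : ℝ) / 360 := by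
  have e1 : ∫ v in (z0 : ℝ)..M, ∫ u in (z0 : ℝ)..M, DD T u * DD T' v * ((v - u) * |v - u|) =
      ∑ z ∈ T, ∑ z' ∈ T', ∫ v in (z0 : ℝ)..M, ∫ u in (z0 : ℝ)..M,
        max 0 ((z : ℝ) - u) * max 0 ((z' : ℝ) - v) * ((v - u) * |v - u|) := by
    have hc2 : ∀ z z' : ℕ, Continuous fun v : ℝ => ∫ u in (z0 : ℝ)..M,
        max 0 ((z : ℝ) - u) * max 0 ((z' : ℝ) - v) * ((v - u) * |v - u|) := by
      intro z z'
      refine intervalIntegral.continuous_parametric_intervalIntegral_of_continuous' ?_ _ _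
      fun_prop
    have e2 : ∀ v : ℝ, ∫ u in (z0 : ℝ)..M, DD T u * DD T' v * ((v - u) * |v - u|) =
        ∑ z ∈ T, ∑ z' ∈ T', ∫ u in (z0 : ℝ)..M,
          max 0 ((z : ℝ) - u) * max 0 ((z' : ℝ) - v) * ((v - u) * |v - u|) := by
      intro v
      have e3 : ∀ u : ℝ, DD T u * DD T' v * ((v - u) * |v - u|) = ∑ z ∈ T, ∑ z' ∈ T',
          max 0 ((z : ℝ) - u) * max 0 ((z' : ℝ) - v) * ((v - u) * |v - u|) := by
        intro u
        unfold DD
        rw [Finset.sum_mul_sum, Finset.sum_mul]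
        refine Finset.sum_congr rfl fun z _ => ?_
        rw [Finset.sum_mul]
      simp_rw [e3]
      rw [intervalIntegral.integral_finsetSum fun z _ =>
        (by fun_prop : Continuous _).intervalIntegrable _ _]
      refine Finset.sum_congr rfl fun z _ => ?_
      rw [intervalIntegral.integral_finsetSum fun z' _ =>
        (by fun_prop : Continuous _).intervalIntegrable _ _]
    simp_rw [e2]
    rw [intervalIntegral.integral_finsetSum fun z _ =>
      (continuous_finsetSum _ fun z' _ => hc2 z z').intervalIntegrable _ _]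
    refine Finset.sum_congr rfl fun z _ => ?_
    rw [intervalIntegral.integral_finsetSum fun z' _ => (hc2 z z').intervalIntegrable _ _]
  have e3 : ∀ z ∈ T, ∀ z' ∈ T', ∫ v in (z0 : ℝ)..M, ∫ u in (z0 : ℝ)..M,
        max 0 ((z : ℝ) - u) * max 0 ((z' : ℝ) - v) * ((v - u) * |v - u|) =
      |(z' : ℝ) - z| * ((z' : ℝ) - z) ^ 5 / 360 + (((z : ℝ) - z0) * ((z' : ℝ) - z0) ^ 5 / 60 -
        ((z : ℝ) - z0) ^ 5 * ((z' : ℝ) - z0) / 60) + (((z : ℝ) - z0) ^ 6 * 1 / 360 -
          1 * ((z' : ℝ) - z0) ^ 6 / 360) := by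
    intro z hz z' hz'
    rw [pair6' (c := z0) (Nat.cast_le.2 (hT z hz).1) (Nat.cast_le.2 (hT z hz).2)
      (Nat.cast_le.2 (hT' z' hz').1) (Nat.cast_le.2 (hT' z' hz').2)]
    ring
  rw [e1, Finset.sum_congr rfl fun z hz => Finset.sum_congr rfl fun z' hz' => e3 z hz z' hz']
  have p := fun j (hj : j ≤ 6) => ps_real hp z0 hj
  have p0 := p 0 (by norm_num)
  have p1 := p 1 (by norm_num)
  have p5 := p 5 (by norm_num)
  have p6 := p 6 (by norm_num)
  simp only [pow_zero, pow_one] at p0 p1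
  simp_rw [Finset.sum_add_distrib, Finset.sum_sub_distrib, ← Finset.sum_div]
  rw [double_sum T T' (fun z => (z : ℝ) - z0) (fun z => ((z : ℝ) - z0) ^ 5),
    double_sum T T' (fun z => ((z : ℝ) - z0) ^ 5) (fun z => (z : ℝ) - z0),
    double_sum T T' (fun z => ((z : ℝ) - z0) ^ 6) (fun _ => 1),
    double_sum T T' (fun _ => 1) (fun z => ((z : ℝ) - z0) ^ 6), US_cast, p0, p1, p5, p6]
  ring

end Pool.Agent.T1K
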