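import Mathlib
import Pool.Agent.T1K.Defs2
import Pool.Agent.T1K.KerX0
import Pool.Agent.T1K.Inv
import Pool.Agent.T1K.KInt
import Pool.Agent.T1K.Marg
import Pool.Agent.T1K.Lead

/-!
# T1, row R6d: the sign kernel of two densities of lower centres
-/

set_option autoImplicit false

open Finset

namespace Pool.Agent.T1K

/-- the sign kernel -/
theorem ker_sgn {R M K : ℕ} {T T' S S' : Finset ℕ} {a h eta : ℝ} (st : Std a h eta K M)
    (hT : Sim 11 R M T T') (hS : Sim 11 R M S S') (hTK : T.card ≤ K) (hSK : S.card ≤ K)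
    (hT8 : 8 ≤ T.card) (hS8 : 8 ≤ S.card) :
    |Nf (dX (fun z => a + h * z) (fun z => a + h * z) T S)
        (dX (fun z => a + h * z) (fun z => a + h * z) T' S')
      - kap a h M T.card S ^ 2 * h ^ 4 * (US 4 T T' : ℝ) / 24| ≤ 10 ^ 6 * eta ^ 3 * (h * M) ^ 2
        + 10 ^ 6 * eta ^ 7 := by
  have h0 := st.h0
  have a0 := st.a0
  have hM0 : (0 : ℝ) ≤ M := Nat.cast_nonneg M
  have hK0 : (0 : ℝ) ≤ K := Nat.cast_nonneg K
  have heta0 : 0 ≤ eta := by rw [← st.etaEq]; positivity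
  have hK9 : (9 : ℝ) ≤ K := by exact_mod_cast st.K9
  have ha1 : a ≤ 1 / 450 := by
    have h1 := st.aK
    nlinarith
  have hhM := st.hMa
  have hhM0 : 0 ≤ h * M := by positivity
  have hcard : T'.card = T.card := (sim_card (by norm_num) hT).symm
  have hp : ∀ i ≤ 4, ∑ z ∈ T, (z : ℤ) ^ i = ∑ z ∈ T', (z : ℤ) ^ i := by
    intro i hi
    have h1 := inv_pow hT (z0 := 0) (Or.inl rfl) (i := i) (by omega)
    simpa using h1
  obtain ⟨hk0, hk1⟩ := kap_lower (k := T.card) st hS.le hSK hTK hT8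
  obtain ⟨r0, r1, hr0, hr01, hr1, hlead⟩ := w_lead (R := R) (k := T.card) st hS.le hSK hS8 hTK hT8
  have hL1 := hlead T S hT.le rfl (kx_refl hS)
  have hL2 := hlead T' S' hT.le' hcard (kx_symm hS)
  set k := kap a h M T.card S with hk
  have hk00 : 0 ≤ k := le_trans (by positivity) hk0
  set w := dX (fun z => a + h * z) (fun z => a + h * z) T S with hw
  set w' := dX (fun z => a + h * z) (fun z => a + h * z) T' S' with hw'
  have cw : Continuous w := kx_cont _ _ _ _
  have cw' : Continuous w' := kx_cont _ _ _ _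
  have caff : Continuous fun u : ℝ => a + h * u :=
    continuous_const.add (continuous_const.mul continuous_id)
  have cf : Continuous fun u : ℝ => w (a + h * u) := cw.comp caff
  have cg : Continuous fun u : ℝ => w' (a + h * u) := cw'.comp caff
  -- cut integrals
  have cut0 : |∫ x in a..(a + h * M), (w x - w' x)| ≤ 200 * eta ^ 7 := by
    have h1 := (w_cut st hT hS hTK hSK hT8 hS8 (z0 := 0) (Or.inl rfl) (Nat.zero_le _)
      (j := 0) (by norm_num)).1
    simpa using h1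
  have cut1 : |∫ x in a..(a + h * M), (w x - w' x) * (x - a)| ≤ 200 * eta ^ 7 := by
    have h1 := (w_cut st hT hS hTK hSK hT8 hS8 (z0 := 0) (Or.inl rfl) (Nat.zero_le _)
      (j := 1) (by norm_num)).1
    simpa using h1
  have s1 := Nf_split cw cw' (a := a) (h := h) (m := M) (X := 100 * eta ^ 7)
    (Y := 200 * eta ^ 7) a0.le hM0 h0.le (by linarith)
    (fun t ht0 _ => kx_bd _ _ _ _ ht0)
    (fun t ht0 ht1 ht => w_out st hT hS hTK hSK hT8 hS8 ht0 ht1 ht) cut0
  have s2 := Bx_main hT.le hT.le' hTK (hcard.le.trans hTK) hp h0 hk00 hk1 hr1 st.etaEq st.small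
    cf cg hL1 hL2
  have hBD : Bx M (DD T) (DD T') = (US 4 T T' : ℝ) / 24 := dd4 hT.le hT.le' hp
  rw [hBD] at s2
  -- the constant part
  set e : ℝ → ℝ := fun v => w' (a + h * v) - w (a + h * v) with he
  have hB : |h * ∫ v in (0 : ℝ)..M, e v| ≤ 200 * eta ^ 7 := by
    have h1 := kx_cov (fun x => w x - w' x) a h 0 M
    rw [mul_zero, add_zero] at h1
    have h2 : (∫ v in (0 : ℝ)..M, e v) = - ∫ v in (0 : ℝ)..M, (w (a + h * v) - w' (a + h * v)) := by
      rw [← intervalIntegral.integral_neg]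
      refine intervalIntegral.integral_congr fun t _ => ?_
      simp only [he]
      ring
    rw [h2, mul_neg, abs_neg, ← h1]
    exact cut0
  have hA : |h ^ 2 * ∫ v in (0 : ℝ)..M, e v * v| ≤ 200 * eta ^ 7 := by
    have h1 := kx_cov (fun x => (w x - w' x) * (x - a)) a h 0 M
    rw [mul_zero, add_zero] at h1
    have h2 : (h ^ 2 * ∫ v in (0 : ℝ)..M, e v * v)
        = - (h * ∫ v in (0 : ℝ)..M, (w (a + h * v) - w' (a + h * v)) * (a + h * v - a)) := by
      rw [← intervalIntegral.integral_const_mul, ← intervalIntegral.integral_const_mul,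
        ← intervalIntegral.integral_neg]
      refine intervalIntegral.integral_congr fun t _ => ?_
      simp only [he]
      ring
    rw [h2, abs_neg, ← h1]
    exact cut1
  set A := ∫ v in (0 : ℝ)..M, e v * v
  set B := ∫ v in (0 : ℝ)..M, e v
  have s3 : |h ^ 2 * (r0 * (2 * A - M * B))| ≤ 601 * eta ^ 7 := by
    have h1 : h ^ 2 * (r0 * (2 * A - M * B)) = r0 * (2 * (h ^ 2 * A) - (h * M) * (h * B)) := by
      ring
    have heta7 : 0 ≤ eta ^ 7 := by positivity
    rw [h1, abs_mul, abs_of_nonneg hr0]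
    have h2 : |2 * (h ^ 2 * A) - (h * M) * (h * B)| ≤ 600 * eta ^ 7 := by
      calc |2 * (h ^ 2 * A) - (h * M) * (h * B)|
          ≤ |2 * (h ^ 2 * A)| + |(h * M) * (h * B)| := abs_sub _ _
        _ ≤ 2 * (200 * eta ^ 7) + 1 * (200 * eta ^ 7) := by
          refine add_le_add ?_ ?_
          · rw [abs_mul, abs_of_nonneg (by norm_num : (0 : ℝ) ≤ 2)]
            exact mul_le_mul_of_nonneg_left hA (by norm_num)
          · rw [abs_mul, abs_of_nonneg hhM0]
            exact mul_le_mul (by linarith) hB (abs_nonneg _) zero_le_one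
        _ = _ := by ring
    nlinarith [abs_nonneg (2 * (h ^ 2 * A) - (h * M) * (h * B))]
  set BB := Bx M (fun u => w (a + h * u)) e
  have e1 : Nf w w' - k ^ 2 * h ^ 4 * (US 4 T T' : ℝ) / 24
      = (Nf w w' - h ^ 2 * BB) + (h ^ 2 * BB - h ^ 2 * (r0 * (2 * A - M * B))
        - k ^ 2 * h ^ 4 * ((US 4 T T' : ℝ) / 24)) + h ^ 2 * (r0 * (2 * A - M * B)) := by ring
  rw [e1]
  have heta7 : 0 ≤ eta ^ 7 := by positivity
  have hq : 0 ≤ eta ^ 3 * (h * M) ^ 2 := by positivity
  calc _ ≤ |(Nf w w' - h ^ 2 * BB) + (h ^ 2 * BB - h ^ 2 * (r0 * (2 * A - M * B))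
        - k ^ 2 * h ^ 4 * ((US 4 T T' : ℝ) / 24))| + |h ^ 2 * (r0 * (2 * A - M * B))| :=
        abs_add_le _ _
    _ ≤ (|Nf w w' - h ^ 2 * BB| + |h ^ 2 * BB - h ^ 2 * (r0 * (2 * A - M * B))
        - k ^ 2 * h ^ 4 * ((US 4 T T' : ℝ) / 24)|) + |h ^ 2 * (r0 * (2 * A - M * B))| := by
        gcongr
        exact abs_add_le _ _
    _ ≤ ((100 * eta ^ 7 + 200 * eta ^ 7) + 370 * eta ^ 3 * (h * M) ^ 2) + 601 * eta ^ 7 :=
        add_le_add (add_le_add s1 s2) s3
    _ ≤ _ := by nlinarith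

end Pool.Agent.T1K
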