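import Pool.Agent.T1K.VolGrad

/-!
# Reflection, continuity, Fubini for the densities of a species
-/

set_option autoImplicit false
set_option linter.unusedSectionVars false

open Finset MeasureTheory

namespace Pool.Agent.T1K

/-! ## Elementary properties of the weights -/

/-- the weight vanishes if the centres are in the wrong order (and there is a leaf) -/
theorem Phi_eq_zero (c : ℕ → ℝ) {T : Finset ℕ} {z : ℕ} (hz : z ∈ T) {x y : ℝ}
    (h : y ≤ max x (c z)) : Phi c T x y = 0 :=
  Finset.prod_eq_zero hz (max_eq_left (by linarith))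

theorem W_eq_zero (c d : ℕ → ℝ) {T : Finset ℕ} (S : Finset ℕ) (hT : T.Nonempty) {x y : ℝ}
    (h : y ≤ x) : W c d T S x y = 0 := by
  obtain ⟨z, hz⟩ := hT
  rw [W, Phi_eq_zero c hz (h.trans (le_max_left _ _)), zero_mul]

/-! ## Reflection of the weights -/

theorem W_refl (c d : ℕ → ℝ) (T S : Finset ℕ) (x y : ℝ) :
    W c d T S (1 - y) (1 - x) = W d c S T x y := by
  rw [W, W, sub_sub_cancel, sub_sub_cancel, mul_comm]

/-! ## Fubini on the unit square -/

theorem integrable_sq {f : ℝ → ℝ → ℝ} (hf : Measurable (Function.uncurry f)) {C : ℝ}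
    (hb : ∀ x ∈ Set.Ioc (0 : ℝ) 1, ∀ y ∈ Set.Ioc (0 : ℝ) 1, |f x y| ≤ C) :
    Integrable (Function.uncurry f)
      ((volume.restrict (Set.Ioc (0 : ℝ) 1)).prod (volume.restrict (Set.Ioc (0 : ℝ) 1))) := by
  refine Integrable.of_bound hf.aestronglyMeasurable C ?_
  rw [Measure.prod_restrict, ae_restrict_iff' (measurableSet_Ioc.prod measurableSet_Ioc)]
  refine Filter.Eventually.of_forall fun p hp => ?_
  exact hb p.1 hp.1 p.2 hp.2

theorem swap01 {f : ℝ → ℝ → ℝ} (hf : Measurable (Function.uncurry f)) {C : ℝ}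
    (hb : ∀ x ∈ Set.Ioc (0 : ℝ) 1, ∀ y ∈ Set.Ioc (0 : ℝ) 1, |f x y| ≤ C) :
    ∫ x in (0 : ℝ)..1, ∫ y in (0 : ℝ)..1, f x y = ∫ y in (0 : ℝ)..1, ∫ x in (0 : ℝ)..1, f x y := by
  simp only [intervalIntegral.integral_of_le zero_le_one]
  exact integral_integral_swap (integrable_sq hf hb)

/-- the inner integral is interval integrable -/
theorem intervalIntegrable_inner {f : ℝ → ℝ → ℝ} (hf : Measurable (Function.uncurry f)) {C : ℝ}
    (hb : ∀ x ∈ Set.Ioc (0 : ℝ) 1, ∀ y ∈ Set.Ioc (0 : ℝ) 1, |f x y| ≤ C) :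
    IntervalIntegrable (fun x => ∫ y in (0 : ℝ)..1, f x y) volume 0 1 := by
  rw [intervalIntegrable_iff_integrableOn_Ioc_of_le zero_le_one]
  simp only [intervalIntegral.integral_of_le zero_le_one]
  exact (integrable_sq hf hb).integral_prod_left

/-- change of variables `(x, y) ↦ (1 - y, 1 - x)` -/
theorem refl01 {f : ℝ → ℝ → ℝ} (hf : Measurable (Function.uncurry f)) {C : ℝ}
    (hb : ∀ x ∈ Set.Ioc (0 : ℝ) 1, ∀ y ∈ Set.Ioc (0 : ℝ) 1, |f x y| ≤ C) :
    ∫ x in (0 : ℝ)..1, ∫ y in (0 : ℝ)..1, f (1 - y) (1 - x)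
      = ∫ x in (0 : ℝ)..1, ∫ y in (0 : ℝ)..1, f x y := by
  have h1 : ∀ x : ℝ, ∫ y in (0 : ℝ)..1, f (1 - y) (1 - x) = ∫ y in (0 : ℝ)..1, f y (1 - x) := by
    intro x
    have := intervalIntegral.integral_comp_sub_left (a := 0) (b := 1) (fun y => f y (1 - x)) 1
    simpa using this
  simp only [h1]
  have h2 := intervalIntegral.integral_comp_sub_left (a := 0) (b := 1)
    (fun x => ∫ y in (0 : ℝ)..1, f y x) 1
  rw [sub_self, sub_zero] at h2
  rw [h2, ← swap01 hf hb]

theorem measurable_W (c d : ℕ → ℝ) (T S : Finset ℕ) :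
    Measurable (Function.uncurry (W c d T S)) := (continuous_W c d T S).measurable

theorem abs_W_le (c d : ℕ → ℝ) (T S : Finset ℕ) :
    ∀ x ∈ Set.Ioc (0 : ℝ) 1, ∀ y ∈ Set.Ioc (0 : ℝ) 1, |W c d T S x y| ≤ 1 := by
  intro x hx y hy
  rw [abs_of_nonneg (W_nonneg _ _ _ _ _ _)]
  exact W_le_one (by linarith [hx.1, hy.2])

/-! ## The volume and the densities of the centres -/

theorem Vol_refl (c d : ℕ → ℝ) (T S : Finset ℕ) : Vol c d T S = Vol d c S T := by
  rw [Vol, Vol, ← refl01 (measurable_W c d T S) (abs_W_le c d T S)]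
  simp only [W_refl]

theorem dY_eq (c d : ℕ → ℝ) (T S : Finset ℕ) (t : ℝ) : dY c d T S t = dX d c S T (1 - t) := by
  rw [dY, dX]
  have h := intervalIntegral.integral_comp_sub_left (a := 0) (b := 1)
    (fun x => W c d T S x t) 1
  rw [sub_self, sub_zero] at h
  rw [← h]
  refine intervalIntegral.integral_congr fun x _ => ?_
  have := W_refl d c S T (1 - x) t
  rw [sub_sub_cancel] at this
  exact this.symm

theorem dX_eq (c d : ℕ → ℝ) (T S : Finset ℕ) (t : ℝ) : dX c d T S t = dY d c S T (1 - t) := by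
  rw [dY_eq, sub_sub_cancel]

theorem Vol_eq_dX (c d : ℕ → ℝ) (T S : Finset ℕ) :
    Vol c d T S = ∫ t in (0 : ℝ)..1, dX c d T S t := rfl

theorem Vol_eq_dY (c d : ℕ → ℝ) (T S : Finset ℕ) :
    Vol c d T S = ∫ t in (0 : ℝ)..1, dY c d T S t :=
  swap01 (measurable_W c d T S) (abs_W_le c d T S)

theorem continuous_dX (c d : ℕ → ℝ) (T S : Finset ℕ) : Continuous (dX c d T S) := by
  unfold dX
  exact intervalIntegral.continuous_parametric_intervalIntegral_of_continuous'
    (f := fun t y => W c d T S t y) (continuous_W c d T S) 0 1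

theorem continuous_dY (c d : ℕ → ℝ) (T S : Finset ℕ) : Continuous (dY c d T S) := by
  have : dY c d T S = fun t => dX d c S T (1 - t) := funext fun t => dY_eq c d T S t
  rw [this]
  exact (continuous_dX d c S T).comp (continuous_const.sub continuous_id)

theorem dX_nonneg (c d : ℕ → ℝ) (T S : Finset ℕ) (t : ℝ) : 0 ≤ dX c d T S t :=
  intervalIntegral.integral_nonneg zero_le_one fun y _ => W_nonneg c d T S t y

theorem dY_nonneg (c d : ℕ → ℝ) (T S : Finset ℕ) (t : ℝ) : 0 ≤ dY c d T S t :=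
  intervalIntegral.integral_nonneg zero_le_one fun x _ => W_nonneg c d T S x t

/-! ## The densities of the leaves -/

/-- the integrand of `dL` -/
noncomputable def gL (c d : ℕ → ℝ) (T S : Finset ℕ) (z : ℕ) (t x y : ℝ) : ℝ := by
  classical
  exact if max x (c z) < t ∧ t < y then W c d (T.erase z) S x y else 0

theorem measurable_gL (c d : ℕ → ℝ) (T S : Finset ℕ) (z : ℕ) (t : ℝ) :
    Measurable (Function.uncurry (gL c d T S z t)) := by
  classical
  refine Measurable.ite ?_ (measurable_W c d (T.erase z) S) measurable_const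
  refine MeasurableSet.inter ?_ ?_
  · exact measurableSet_lt (measurable_fst.max measurable_const) measurable_const
  · exact measurableSet_lt measurable_const measurable_snd

theorem abs_gL_le (c d : ℕ → ℝ) (T S : Finset ℕ) (z : ℕ) (t : ℝ) :
    ∀ x ∈ Set.Ioc (0 : ℝ) 1, ∀ y ∈ Set.Ioc (0 : ℝ) 1, |gL c d T S z t x y| ≤ 1 := by
  intro x hx y hy
  unfold gL
  split_ifs
  · exact abs_W_le c d (T.erase z) S x hx y hy
  · simp

theorem dL_nonneg (c d : ℕ → ℝ) (T S : Finset ℕ) (z : ℕ) (t : ℝ) : 0 ≤ dL c d T S z t := by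
  refine intervalIntegral.integral_nonneg zero_le_one fun x _ => ?_
  refine intervalIntegral.integral_nonneg zero_le_one fun y _ => ?_
  split_ifs
  · exact W_nonneg _ _ _ _ _ _
  · exact le_rfl

theorem dR_nonneg (c d : ℕ → ℝ) (T S : Finset ℕ) (z : ℕ) (t : ℝ) : 0 ≤ dR c d T S z t := by
  refine intervalIntegral.integral_nonneg zero_le_one fun x _ => ?_
  refine intervalIntegral.integral_nonneg zero_le_one fun y _ => ?_
  split_ifs
  · exact W_nonneg _ _ _ _ _ _
  · exact le_rfl

/-- reflection exchanges the lower and the upper leaves -/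
theorem dR_eq (c d : ℕ → ℝ) (T S : Finset ℕ) (z : ℕ) (t : ℝ) :
    dR c d T S z t = dL d c S T z (1 - t) := by
  classical
  have h := refl01 (measurable_gL d c S T z (1 - t)) (abs_gL_le d c S T z (1 - t))
  have h1 : dL d c S T z (1 - t) = ∫ x in (0 : ℝ)..1, ∫ y in (0 : ℝ)..1,
      gL d c S T z (1 - t) x y := rfl
  rw [h1, ← h, dR]
  refine intervalIntegral.integral_congr fun x _ => ?_
  refine intervalIntegral.integral_congr fun y _ => ?_
  change (if x < t ∧ t < min y (1 - d z) then W c d T (S.erase z) x y else 0) =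
    if max (1 - y) (d z) < 1 - t ∧ 1 - t < 1 - x then
      W d c (S.erase z) T (1 - y) (1 - x) else 0
  rw [W_refl]
  refine if_congr ?_ rfl rfl
  rw [max_lt_iff, lt_min_iff]
  constructor
  · rintro ⟨h1, h2, h3⟩
    exact ⟨⟨by linarith, by linarith⟩, by linarith⟩
  · rintro ⟨⟨h1, h2⟩, h3⟩
    exact ⟨by linarith, by linarith, by linarith⟩

theorem dL_eq' (c d : ℕ → ℝ) (T S : Finset ℕ) (z : ℕ) (t : ℝ) :
    dL c d T S z t = dR d c S T z (1 - t) := by
  rw [dR_eq, sub_sub_cancel]

/-- explicit form of the density of a lower leaf -/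
theorem dL_eq (c d : ℕ → ℝ) (T S : Finset ℕ) (z : ℕ) {t : ℝ} (ht0 : 0 ≤ t) (ht1 : t ≤ 1) :
    dL c d T S z t = if c z < t then
      ∫ x in (0 : ℝ)..t, ∫ y in t..1, W c d (T.erase z) S x y else 0 := by
  classical
  have h1 : ∀ x : ℝ, (∫ y in (0 : ℝ)..1,
      if max x (c z) < t ∧ t < y then W c d (T.erase z) S x y else 0)
      = if max x (c z) < t then ∫ y in t..1, W c d (T.erase z) S x y else 0 := by
    intro x
    by_cases hx : max x (c z) < t
    · simp only [hx, true_and, if_true]
      rw [intervalIntegral.integral_of_le zero_le_one, intervalIntegral.integral_of_le ht1]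
      have h2 : (fun y => if t < y then W c d (T.erase z) S x y else 0)
          = (Set.Ioi t).indicator fun y => W c d (T.erase z) S x y := by
        funext y
        simp only [Set.indicator, Set.mem_Ioi]
      rw [h2, setIntegral_indicator measurableSet_Ioi]
      congr 2
      ext y
      simp only [Set.mem_inter_iff, Set.mem_Ioc, Set.mem_Ioi]
      constructor
      · rintro ⟨⟨_, h3⟩, h4⟩
        exact ⟨h4, h3⟩
      · rintro ⟨h3, h4⟩
        exact ⟨⟨by linarith, h4⟩, h3⟩
    · simp only [hx, false_and, if_false, intervalIntegral.integral_zero]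
  rw [dL]
  simp only [h1]
  by_cases hc : c z < t
  · rw [if_pos hc, intervalIntegral.integral_of_le zero_le_one,
      intervalIntegral.integral_of_le ht0]
    have h2 : (fun x => if max x (c z) < t then ∫ y in t..1, W c d (T.erase z) S x y else 0)
        = (Set.Iio t).indicator fun x => ∫ y in t..1, W c d (T.erase z) S x y := by
      funext x
      simp only [Set.indicator, Set.mem_Iio, max_lt_iff, hc, and_true]
    rw [h2, setIntegral_indicator measurableSet_Iio]
    have h3 : Set.Ioc (0 : ℝ) 1 ∩ Set.Iio t = Set.Ioo 0 t := by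
      ext x
      simp only [Set.mem_inter_iff, Set.mem_Ioc, Set.mem_Ioo, Set.mem_Iio]
      constructor
      · rintro ⟨⟨h4, _⟩, h5⟩
        exact ⟨h4, h5⟩
      · rintro ⟨h4, h5⟩
        exact ⟨⟨h4, by linarith⟩, h5⟩
    rw [h3, integral_Ioc_eq_integral_Ioo]
  · rw [if_neg hc]
    have h2 : ∀ x : ℝ, ¬ max x (c z) < t := fun x h => hc ((le_max_right _ _).trans_lt h)
    simp only [h2, if_false, intervalIntegral.integral_zero]

/-- the continuous function behind `dL` -/
theorem continuous_core (c d : ℕ → ℝ) (T S : Finset ℕ) :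
    Continuous fun t => ∫ x in (0 : ℝ)..t, ∫ y in t..1, W c d T S x y := by
  have h1 : Continuous fun p : ℝ × ℝ => ∫ y in p.1..1, W c d T S p.2 y := by
    have h2 : (fun p : ℝ × ℝ => ∫ y in p.1..1, W c d T S p.2 y)
        = fun p : ℝ × ℝ => -∫ y in (1 : ℝ)..p.1, W c d T S p.2 y :=
      funext fun p => intervalIntegral.integral_symm _ _
    rw [h2]
    refine Continuous.neg ?_
    exact intervalIntegral.continuous_parametric_intervalIntegral_of_continuous
      (f := fun (p : ℝ × ℝ) y => W c d T S p.2 y)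
      ((continuous_W c d T S).comp ((continuous_snd.comp continuous_fst).prodMk continuous_snd))
      continuous_fst
  exact intervalIntegral.continuous_parametric_intervalIntegral_of_continuous
    (f := fun t x => ∫ y in t..1, W c d T S x y) h1 continuous_id

theorem intervalIntegrable_dL (c d : ℕ → ℝ) (T S : Finset ℕ) (z : ℕ) :
    IntervalIntegrable (dL c d T S z) volume 0 1 := by
  have h0 : IntervalIntegrable (fun t => ∫ x in (0 : ℝ)..t, ∫ y in t..1,
      W c d (T.erase z) S x y) volume 0 1 :=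
    (continuous_core c d (T.erase z) S).intervalIntegrable 0 1
  rw [intervalIntegrable_iff_integrableOn_Ioc_of_le zero_le_one] at h0 ⊢
  refine (h0.indicator (measurableSet_Ioi (a := c z))).congr ?_
  rw [Filter.EventuallyEq, ae_restrict_iff' measurableSet_Ioc]
  refine Filter.Eventually.of_forall fun t ht => ?_
  rw [dL_eq c d T S z ht.1.le ht.2]
  simp only [Set.indicator, Set.mem_Ioi]

/-- cyclic change of the order of three integrations -/
theorem rot01 {F : ℝ → ℝ → ℝ → ℝ} (hF : Measurable fun p : (ℝ × ℝ) × ℝ => F p.1.1 p.1.2 p.2)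
    {C : ℝ} (hb : ∀ t ∈ Set.Ioc (0 : ℝ) 1, ∀ x ∈ Set.Ioc (0 : ℝ) 1, ∀ y ∈ Set.Ioc (0 : ℝ) 1,
      |F t x y| ≤ C) :
    ∫ t in (0 : ℝ)..1, ∫ x in (0 : ℝ)..1, ∫ y in (0 : ℝ)..1, F t x y =
      ∫ x in (0 : ℝ)..1, ∫ y in (0 : ℝ)..1, ∫ t in (0 : ℝ)..1, F t x y := by
  have hG : Measurable (Function.uncurry fun t x => ∫ y in (0 : ℝ)..1, F t x y) := by
    simp only [intervalIntegral.integral_of_le zero_le_one]
    have h1 : StronglyMeasurable fun p : ℝ × ℝ =>
        ∫ y, F p.1 p.2 y ∂(volume.restrict (Set.Ioc (0 : ℝ) 1)) :=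
      hF.stronglyMeasurable.integral_prod_right'
    exact h1.measurable
  have hGb : ∀ t ∈ Set.Ioc (0 : ℝ) 1, ∀ x ∈ Set.Ioc (0 : ℝ) 1,
      |∫ y in (0 : ℝ)..1, F t x y| ≤ C := by
    intro t ht x hx
    have h1 := intervalIntegral.norm_integral_le_of_norm_le_const (a := 0) (b := 1) (C := C)
      (f := F t x) fun y hy => by
        rw [Set.uIoc_of_le zero_le_one] at hy
        exact hb t ht x hx y hy
    simpa using h1
  rw [swap01 hG hGb]
  refine intervalIntegral.integral_congr_ae ?_
  refine Filter.Eventually.of_forall fun x hx => ?_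
  rw [Set.uIoc_of_le zero_le_one] at hx
  refine swap01 (f := fun t y => F t x y) ?_ (C := C) fun t ht y hy => hb t ht x hx y hy
  exact hF.comp ((measurable_fst.prodMk measurable_const).prodMk measurable_snd)

/-- the density of a leaf against a bounded function -/
theorem integral_mul_dL (c d : ℕ → ℝ) (T S : Finset ℕ) (z : ℕ) {f : ℝ → ℝ} (hf : Measurable f)
    {C : ℝ} (hb : ∀ t ∈ Set.Ioc (0 : ℝ) 1, |f t| ≤ C) :
    ∫ t in (0 : ℝ)..1, f t * dL c d T S z t = ∫ x in (0 : ℝ)..1, ∫ y in (0 : ℝ)..1,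
      W c d (T.erase z) S x y * ∫ t in (0 : ℝ)..1,
        (Set.Ioo (max x (c z)) y).indicator f t := by
  classical
  have h1 : ∀ t : ℝ, f t * dL c d T S z t =
      ∫ x in (0 : ℝ)..1, ∫ y in (0 : ℝ)..1, f t * gL c d T S z t x y := by
    intro t
    have h2 : dL c d T S z t = ∫ x in (0 : ℝ)..1, ∫ y in (0 : ℝ)..1, gL c d T S z t x y := rfl
    rw [h2, ← intervalIntegral.integral_const_mul]
    refine intervalIntegral.integral_congr fun x _ => ?_
    exact (intervalIntegral.integral_const_mul _ _).symm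
  simp only [h1]
  have hm : Measurable fun p : (ℝ × ℝ) × ℝ => f p.1.1 * gL c d T S z p.1.1 p.1.2 p.2 := by
    refine (hf.comp (measurable_fst.comp measurable_fst)).mul ?_
    refine Measurable.ite ?_ ?_ measurable_const
    · refine MeasurableSet.inter ?_ ?_
      · exact measurableSet_lt ((measurable_snd.comp measurable_fst).max measurable_const)
          (measurable_fst.comp measurable_fst)
      · exact measurableSet_lt (measurable_fst.comp measurable_fst) measurable_snd
    · exact (measurable_W c d (T.erase z) S).comp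
        ((measurable_snd.comp measurable_fst).prodMk measurable_snd)
  rw [rot01 (F := fun t x y => f t * gL c d T S z t x y) hm (C := C * 1)]
  · refine intervalIntegral.integral_congr fun x _ => ?_
    refine intervalIntegral.integral_congr fun y _ => ?_
    rw [← intervalIntegral.integral_const_mul]
    refine intervalIntegral.integral_congr fun t _ => ?_
    simp only [gL, Set.indicator, Set.mem_Ioo]
    split_ifs
    · ring
    · simp
  · intro t ht x hx y hy
    rw [abs_mul]
    exact mul_le_mul (hb t ht) (abs_gL_le c d T S z t x hx y hy) (abs_nonneg _)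
      ((abs_nonneg _).trans (hb t ht))

theorem integral_indicator_one {a b : ℝ} (ha : 0 ≤ a) (hb : b ≤ 1) :
    ∫ t in (0 : ℝ)..1, (Set.Ioo a b).indicator (fun _ => (1 : ℝ)) t = max 0 (b - a) := by
  rw [intervalIntegral.integral_of_le zero_le_one, setIntegral_indicator measurableSet_Ioo]
  have h1 : Set.Ioc (0 : ℝ) 1 ∩ Set.Ioo a b = Set.Ioo a b := by
    rw [Set.inter_eq_right]
    intro t ht
    exact ⟨by linarith [ht.1], by linarith [ht.2]⟩
  rw [h1, setIntegral_const, smul_eq_mul, mul_one, Measure.real, Real.volume_Ioo]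
  rcases le_total a b with h | h
  · rw [ENNReal.toReal_ofReal (by linarith), max_eq_right (by linarith)]
  · rw [ENNReal.ofReal_of_nonpos (by linarith), ENNReal.toReal_zero, max_eq_left (by linarith)]

theorem Phi_erase (c : ℕ → ℝ) {T : Finset ℕ} {z : ℕ} (hz : z ∈ T) (x y : ℝ) :
    Phi c (T.erase z) x y * max 0 (y - max x (c z)) = Phi c T x y := by
  rw [Phi, Phi, mul_comm]
  exact Finset.mul_prod_erase T (fun z => max 0 (y - max x (c z))) hz

theorem W_erase_left (c d : ℕ → ℝ) {T : Finset ℕ} (S : Finset ℕ) {z : ℕ} (hz : z ∈ T) (x y : ℝ) :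
    W c d (T.erase z) S x y * max 0 (y - max x (c z)) = W c d T S x y := by
  rw [W, W, ← Phi_erase c hz x y]
  ring

/-- the total mass of a leaf is the volume of the species -/
theorem integral_dL (c d : ℕ → ℝ) {T : Finset ℕ} (S : Finset ℕ) {z : ℕ} (hz : z ∈ T) :
    ∫ t in (0 : ℝ)..1, dL c d T S z t = Vol c d T S := by
  have h1 := integral_mul_dL c d T S z (f := fun _ => 1) measurable_const (C := 1)
    (fun t _ => by simp)
  simp only [one_mul] at h1
  rw [h1, Vol]
  refine intervalIntegral.integral_congr_ae (Filter.Eventually.of_forall fun x hx => ?_)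
  refine intervalIntegral.integral_congr_ae (Filter.Eventually.of_forall fun y hy => ?_)
  rw [Set.uIoc_of_le zero_le_one] at hx hy
  rw [integral_indicator_one (hx.1.le.trans (le_max_left _ _)) hy.2, W_erase_left c d S hz]

theorem integral_dR (c d : ℕ → ℝ) (T : Finset ℕ) {S : Finset ℕ} {z : ℕ} (hz : z ∈ S) :
    ∫ t in (0 : ℝ)..1, dR c d T S z t = Vol c d T S := by
  have h1 : ∫ t in (0 : ℝ)..1, dR c d T S z t = ∫ t in (0 : ℝ)..1, dL d c S T z (1 - t) :=
    intervalIntegral.integral_congr fun t _ => dR_eq c d T S z t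
  rw [h1, intervalIntegral.integral_comp_sub_left (fun t => dL d c S T z t), sub_self, sub_zero,
    integral_dL d c T hz, Vol_refl]

theorem intervalIntegrable_dR (c d : ℕ → ℝ) (T S : Finset ℕ) (z : ℕ) :
    IntervalIntegrable (dR c d T S z) volume 0 1 := by
  have h1 : dR c d T S z = fun t => dL d c S T z (1 - t) := funext fun t => dR_eq c d T S z t
  rw [h1]
  have h2 := (intervalIntegrable_dL d c S T z).comp_sub_left 1
  rw [sub_zero, sub_self] at h2
  exact h2.symm

/-! ## The bilinear form `Nf` -/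

/-- reflection changes the sign of `Nf` -/
theorem Nf_refl (f g : ℝ → ℝ) :
    Nf (fun t => f (1 - t)) (fun t => g (1 - t)) = - Nf f g := by
  rw [Nf, Nf]
  have h1 : ∀ t : ℝ, g (1 - t) * ((∫ s in (0 : ℝ)..t, f (1 - s)) - ∫ s in t..1, f (1 - s))
      = (fun t => g t * ((∫ s in t..1, f s) - ∫ s in (0 : ℝ)..t, f s)) (1 - t) := by
    intro t
    have e1 := intervalIntegral.integral_comp_sub_left (a := 0) (b := t) f 1
    have e2 := intervalIntegral.integral_comp_sub_left (a := t) (b := 1) f 1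
    rw [sub_zero] at e1
    rw [sub_self] at e2
    simp only [e1, e2]
  have h2 := intervalIntegral.integral_comp_sub_left (a := 0) (b := 1)
    (fun t => g t * ((∫ s in t..1, f s) - ∫ s in (0 : ℝ)..t, f s)) 1
  rw [sub_self, sub_zero] at h2
  rw [← intervalIntegral.integral_neg]
  calc ∫ t in (0 : ℝ)..1, g (1 - t) * ((∫ s in (0 : ℝ)..t, f (1 - s)) - ∫ s in t..1, f (1 - s))
      = ∫ t in (0 : ℝ)..1, (fun t => g t * ((∫ s in t..1, f s) - ∫ s in (0 : ℝ)..t, f s)) (1 - t) :=
        intervalIntegral.integral_congr fun t _ => h1 t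
    _ = ∫ t in (0 : ℝ)..1, g t * ((∫ s in t..1, f s) - ∫ s in (0 : ℝ)..t, f s) := h2
    _ = _ := intervalIntegral.integral_congr fun t _ => by ring

/-- the kernel `sgn (t - s)` -/
noncomputable def sg (t s : ℝ) : ℝ := by
  classical
  exact if s < t then 1 else if t < s then -1 else 0

theorem sg_skew (t s : ℝ) : sg s t = - sg t s := by
  unfold sg
  rcases lt_trichotomy s t with h | h | h
  · rw [if_neg (by linarith), if_pos h, if_pos h]
  · simp [h]
  · rw [if_pos h, if_neg (by linarith), if_pos h, neg_neg]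

theorem abs_sg_le (t s : ℝ) : |sg t s| ≤ 1 := by
  unfold sg
  split_ifs <;> simp

theorem measurable_sg : Measurable fun p : ℝ × ℝ => sg p.1 p.2 := by
  unfold sg
  exact Measurable.ite (measurableSet_lt measurable_snd measurable_fst) measurable_const
    (Measurable.ite (measurableSet_lt measurable_fst measurable_snd) measurable_const
      measurable_const)

/-- the inner integral of the kernel -/
theorem integral_mul_sg {f : ℝ → ℝ} (hf : IntervalIntegrable f volume 0 1) {t : ℝ}
    (ht0 : 0 ≤ t) (ht1 : t ≤ 1) :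
    ∫ s in (0 : ℝ)..1, f s * sg t s = (∫ s in (0 : ℝ)..t, f s) - ∫ s in t..1, f s := by
  rw [intervalIntegrable_iff_integrableOn_Ioc_of_le zero_le_one] at hf
  rw [intervalIntegral.integral_of_le zero_le_one, intervalIntegral.integral_of_le ht0,
    intervalIntegral.integral_of_le ht1]
  have h1 : (fun s => f s * sg t s)
      = fun s => (Set.Iio t).indicator f s - (Set.Ioi t).indicator f s := by
    funext s
    simp only [sg, Set.indicator, Set.mem_Iio, Set.mem_Ioi]
    rcases lt_trichotomy s t with h | h | h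
    · simp [h, h.not_gt]
    · simp [h]
    · simp [h, h.not_gt]
  have h2 : Set.Ioc (0 : ℝ) 1 ∩ Set.Iio t = Set.Ioo 0 t := by
    ext x
    simp only [Set.mem_inter_iff, Set.mem_Ioc, Set.mem_Ioo, Set.mem_Iio]
    constructor
    · rintro ⟨⟨h4, _⟩, h5⟩
      exact ⟨h4, h5⟩
    · rintro ⟨h4, h5⟩
      exact ⟨⟨h4, by linarith⟩, h5⟩
  have h3 : Set.Ioc (0 : ℝ) 1 ∩ Set.Ioi t = Set.Ioc t 1 := by
    ext x
    simp only [Set.mem_inter_iff, Set.mem_Ioc, Set.mem_Ioi]
    constructor
    · rintro ⟨⟨_, h4⟩, h5⟩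
      exact ⟨h5, h4⟩
    · rintro ⟨h4, h5⟩
      exact ⟨⟨by linarith, h5⟩, h4⟩
  rw [h1, integral_sub (hf.indicator measurableSet_Iio) (hf.indicator measurableSet_Ioi),
    setIntegral_indicator measurableSet_Iio, setIntegral_indicator measurableSet_Ioi, h2, h3,
    ← integral_Ioc_eq_integral_Ioo]

/-- `Nf` as a double integral with the kernel `sgn (t - s)` -/
theorem Nf_eq_kernel {f g : ℝ → ℝ} (hf : IntervalIntegrable f volume 0 1) :
    Nf f g = ∫ t in (0 : ℝ)..1, ∫ s in (0 : ℝ)..1, g t * (f s * sg t s) := by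
  rw [Nf]
  refine intervalIntegral.integral_congr_ae (Filter.Eventually.of_forall fun t ht => ?_)
  rw [Set.uIoc_of_le zero_le_one] at ht
  rw [intervalIntegral.integral_const_mul, integral_mul_sg hf ht.1.le ht.2]

theorem integrable_kernel {f g : ℝ → ℝ} (hf : IntervalIntegrable f volume 0 1)
    (hg : IntervalIntegrable g volume 0 1) :
    Integrable (Function.uncurry fun t s => g t * (f s * sg t s))
      ((volume.restrict (Set.Ioc (0 : ℝ) 1)).prod (volume.restrict (Set.Ioc (0 : ℝ) 1))) := by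
  rw [intervalIntegrable_iff_integrableOn_Ioc_of_le zero_le_one] at hf hg
  have h1 : Integrable (fun p : ℝ × ℝ => g p.1 * f p.2)
      ((volume.restrict (Set.Ioc (0 : ℝ) 1)).prod (volume.restrict (Set.Ioc (0 : ℝ) 1))) :=
    Integrable.mul_prod hg hf
  have h2 := h1.mul_bdd (c := 1) (g := fun p : ℝ × ℝ => sg p.1 p.2)
    measurable_sg.aestronglyMeasurable (Filter.Eventually.of_forall fun p => by
      rw [Real.norm_eq_abs]; exact abs_sg_le _ _)
  refine h2.congr (Filter.Eventually.of_forall fun p => ?_)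
  change g p.1 * f p.2 * sg p.1 p.2 = g p.1 * (f p.2 * sg p.1 p.2)
  ring

/-- **skewness** -/
theorem Nf_skew {f g : ℝ → ℝ} (hf : IntervalIntegrable f volume 0 1)
    (hg : IntervalIntegrable g volume 0 1) : Nf f g = - Nf g f := by
  rw [Nf_eq_kernel hf, Nf_eq_kernel hg]
  simp only [intervalIntegral.integral_of_le zero_le_one]
  rw [integral_integral_swap (integrable_kernel hf hg), ← integral_neg]
  refine integral_congr_ae (Filter.Eventually.of_forall fun s => ?_)
  change ∫ t in Set.Ioc (0 : ℝ) 1, g t * (f s * sg t s)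
    = -∫ t in Set.Ioc (0 : ℝ) 1, f s * (g t * sg s t)
  rw [← integral_neg]
  refine integral_congr_ae (Filter.Eventually.of_forall fun t => ?_)
  change g t * (f s * sg t s) = -(f s * (g t * sg s t))
  rw [sg_skew t s]
  ring

theorem Nf_self {f : ℝ → ℝ} (hf : IntervalIntegrable f volume 0 1) : Nf f f = 0 := by
  have := Nf_skew hf hf
  linarith

theorem Nf_eq_prod {f g : ℝ → ℝ} (hf : IntervalIntegrable f volume 0 1)
    (hg : IntervalIntegrable g volume 0 1) :
    Nf f g = ∫ p, g p.1 * (f p.2 * sg p.1 p.2)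
      ∂((volume.restrict (Set.Ioc (0 : ℝ) 1)).prod (volume.restrict (Set.Ioc (0 : ℝ) 1))) := by
  rw [Nf_eq_kernel hf]
  simp only [intervalIntegral.integral_of_le zero_le_one]
  exact (integral_prod _ (integrable_kernel hf hg)).symm

/-- linearity in the second argument -/
theorem Nf_add_right {f g g' : ℝ → ℝ} (hf : IntervalIntegrable f volume 0 1)
    (hg : IntervalIntegrable g volume 0 1) (hg' : IntervalIntegrable g' volume 0 1) :
    Nf f (fun t => g t + g' t) = Nf f g + Nf f g' := by
  rw [Nf_eq_prod hf (hg.add hg'), Nf_eq_prod hf hg, Nf_eq_prod hf hg']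
  refine Eq.trans ?_ (integral_add (integrable_kernel hf hg) (integrable_kernel hf hg'))
  exact integral_congr_ae (Filter.Eventually.of_forall fun p => add_mul _ _ _)

theorem Nf_add_left {f f' g : ℝ → ℝ} (hf : IntervalIntegrable f volume 0 1)
    (hf' : IntervalIntegrable f' volume 0 1) (hg : IntervalIntegrable g volume 0 1) :
    Nf (fun t => f t + f' t) g = Nf f g + Nf f' g := by
  rw [Nf_skew (hf.add hf') hg, Nf_add_right hg hf hf', Nf_skew hf hg, Nf_skew hf' hg]
  ring

theorem Nf_smul_right (f g : ℝ → ℝ) (a : ℝ) : Nf f (fun t => a * g t) = a * Nf f g := by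
  rw [Nf, Nf, ← intervalIntegral.integral_const_mul]
  exact intervalIntegral.integral_congr fun t _ => mul_assoc _ _ _

theorem Nf_smul_left (f g : ℝ → ℝ) (a : ℝ) : Nf (fun t => a * f t) g = a * Nf f g := by
  rw [Nf, Nf, ← intervalIntegral.integral_const_mul]
  refine intervalIntegral.integral_congr fun t _ => ?_
  change g t * ((∫ s in (0 : ℝ)..t, a * f s) - ∫ s in t..1, a * f s)
    = a * (g t * ((∫ s in (0 : ℝ)..t, f s) - ∫ s in t..1, f s))
  rw [intervalIntegral.integral_const_mul, intervalIntegral.integral_const_mul]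
  ring

theorem Nf_sub_right {f g g' : ℝ → ℝ} (hf : IntervalIntegrable f volume 0 1)
    (hg : IntervalIntegrable g volume 0 1) (hg' : IntervalIntegrable g' volume 0 1) :
    Nf f (fun t => g t - g' t) = Nf f g - Nf f g' := by
  have h1 := Nf_add_right hf hg (g' := fun t => (-1) * g' t) (hg'.const_mul (-1))
  rw [Nf_smul_right] at h1
  have h2 : (fun t => g t - g' t) = fun t => g t + (-1) * g' t := by
    funext t; ring
  rw [h2, h1]
  ring

theorem Nf_sub_left {f f' g : ℝ → ℝ} (hf : IntervalIntegrable f volume 0 1)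
    (hf' : IntervalIntegrable f' volume 0 1) (hg : IntervalIntegrable g volume 0 1) :
    Nf (fun t => f t - f' t) g = Nf f g - Nf f' g := by
  rw [Nf_skew (hf.sub hf') hg, Nf_sub_right hg hf hf', Nf_skew hf hg, Nf_skew hf' hg]
  ring

/-- crude bound -/
theorem abs_Nf_le {f g : ℝ → ℝ} (hf : IntervalIntegrable f volume 0 1)
    (hg : IntervalIntegrable g volume 0 1) :
    |Nf f g| ≤ (∫ s in (0 : ℝ)..1, |f s|) * ∫ t in (0 : ℝ)..1, |g t| := by
  rw [Nf_eq_prod hf hg]
  have h0 := hf
  have h0' := hg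
  rw [intervalIntegrable_iff_integrableOn_Ioc_of_le zero_le_one] at h0 h0'
  have h1 : Integrable (fun p : ℝ × ℝ => |g p.1| * |f p.2|)
      ((volume.restrict (Set.Ioc (0 : ℝ) 1)).prod (volume.restrict (Set.Ioc (0 : ℝ) 1))) :=
    Integrable.mul_prod h0'.abs h0.abs
  calc |∫ p, g p.1 * (f p.2 * sg p.1 p.2)
      ∂((volume.restrict (Set.Ioc (0 : ℝ) 1)).prod (volume.restrict (Set.Ioc (0 : ℝ) 1)))|
      ≤ ∫ p, |g p.1| * |f p.2|
      ∂((volume.restrict (Set.Ioc (0 : ℝ) 1)).prod (volume.restrict (Set.Ioc (0 : ℝ) 1))) := by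
        rw [← Real.norm_eq_abs]
        refine norm_integral_le_of_norm_le h1 (Filter.Eventually.of_forall fun p => ?_)
        rw [Real.norm_eq_abs, abs_mul, abs_mul]
        refine mul_le_mul_of_nonneg_left ?_ (abs_nonneg _)
        exact mul_le_of_le_one_right (abs_nonneg _) (abs_sg_le _ _)
    _ = (∫ s in (0 : ℝ)..1, |f s|) * ∫ t in (0 : ℝ)..1, |g t| := by
        rw [integral_prod_mul (fun t => |g t|) (fun s => |f s|), mul_comm,
          intervalIntegral.integral_of_le zero_le_one,
          intervalIntegral.integral_of_le zero_le_one]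

/-! ## Mirror statements for two species -/

theorem Nf_dY (c d c' d' : ℕ → ℝ) (T S T' S' : Finset ℕ) :
    Nf (dY c d T S) (dY c' d' T' S') = - Nf (dX d c S T) (dX d' c' S' T') := by
  have h1 : dY c d T S = fun t => dX d c S T (1 - t) := funext fun t => dY_eq c d T S t
  have h2 : dY c' d' T' S' = fun t => dX d' c' S' T' (1 - t) := funext fun t => dY_eq c' d' T' S' t
  rw [h1, h2, Nf_refl]

theorem Nf_dR (c d c' d' : ℕ → ℝ) (T S T' S' : Finset ℕ) (z z' : ℕ) :
    Nf (dR c d T S z) (dR c' d' T' S' z') = - Nf (dL d c S T z) (dL d' c' S' T' z') := by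
  have h1 : dR c d T S z = fun t => dL d c S T z (1 - t) := funext fun t => dR_eq c d T S z t
  have h2 : dR c' d' T' S' z' = fun t => dL d' c' S' T' z' (1 - t) :=
    funext fun t => dR_eq c' d' T' S' z' t
  rw [h1, h2, Nf_refl]

theorem Nf_dX_dY (c d c' d' : ℕ → ℝ) (T S T' S' : Finset ℕ) :
    Nf (dX c d T S) (dY c' d' T' S') = - Nf (dY d c S T) (dX d' c' S' T') := by
  have h1 : dX c d T S = fun t => dY d c S T (1 - t) := funext fun t => dX_eq c d T S t
  have h2 : dY c' d' T' S' = fun t => dX d' c' S' T' (1 - t) := funext fun t => dY_eq c' d' T' S' t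
  rw [h1, h2, Nf_refl]

theorem Nf_dX_dL (c d c' d' : ℕ → ℝ) (T S T' S' : Finset ℕ) (z : ℕ) :
    Nf (dX c d T S) (dL c' d' T' S' z) = - Nf (dY d c S T) (dR d' c' S' T' z) := by
  have h1 : dX c d T S = fun t => dY d c S T (1 - t) := funext fun t => dX_eq c d T S t
  have h2 : dL c' d' T' S' z = fun t => dR d' c' S' T' z (1 - t) :=
    funext fun t => dL_eq' c' d' T' S' z t
  rw [h1, h2, Nf_refl]

theorem Nf_dX_dR (c d c' d' : ℕ → ℝ) (T S T' S' : Finset ℕ) (z : ℕ) :
    Nf (dX c d T S) (dR c' d' T' S' z) = - Nf (dY d c S T) (dL d' c' S' T' z) := by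
  have h1 : dX c d T S = fun t => dY d c S T (1 - t) := funext fun t => dX_eq c d T S t
  have h2 : dR c' d' T' S' z = fun t => dL d' c' S' T' z (1 - t) :=
    funext fun t => dR_eq c' d' T' S' z t
  rw [h1, h2, Nf_refl]

theorem Nf_dL_dR (c d c' d' : ℕ → ℝ) (T S T' S' : Finset ℕ) (z z' : ℕ) :
    Nf (dL c d T S z) (dR c' d' T' S' z') = - Nf (dR d c S T z) (dL d' c' S' T' z') := by
  have h1 : dL c d T S z = fun t => dR d c S T z (1 - t) := funext fun t => dL_eq' c d T S z t
  have h2 : dR c' d' T' S' z' = fun t => dL d' c' S' T' z' (1 - t) :=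
    funext fun t => dR_eq c' d' T' S' z' t
  rw [h1, h2, Nf_refl]

/-- a function `e` (density of another element) against a leaf -/
theorem Nf_comp_dR (c d : ℕ → ℝ) (T S : Finset ℕ) (z : ℕ) (e : ℝ → ℝ) :
    Nf e (dR c d T S z) = - Nf (fun t => e (1 - t)) (dL d c S T z) := by
  have h1 := Nf_refl (fun t => e (1 - t)) (dL d c S T z)
  have h2 : dR c d T S z = fun t => dL d c S T z (1 - t) := funext fun t => dR_eq c d T S z t
  rw [h2]
  simpa only [sub_sub_cancel] using h1

theorem Nf_comp_dY (c d : ℕ → ℝ) (T S : Finset ℕ) (e : ℝ → ℝ) :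
    Nf e (dY c d T S) = - Nf (fun t => e (1 - t)) (dX d c S T) := by
  have h1 := Nf_refl (fun t => e (1 - t)) (dX d c S T)
  have h2 : dY c d T S = fun t => dX d c S T (1 - t) := funext fun t => dY_eq c d T S t
  rw [h2]
  simpa only [sub_sub_cancel] using h1

/-! ## Aliases -/

theorem dY_refl (c d : ℕ → ℝ) (T S : Finset ℕ) (t : ℝ) : dY c d T S t = dX d c S T (1 - t) :=
  dY_eq c d T S t

theorem dR_refl (c d : ℕ → ℝ) (T S : Finset ℕ) (z : ℕ) (t : ℝ) :
    dR c d T S z t = dL d c S T z (1 - t) := dR_eq c d T S z t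

theorem Nf_antisymm (f g : ℝ → ℝ) (hf : IntervalIntegrable f MeasureTheory.volume 0 1)
    (hg : IntervalIntegrable g MeasureTheory.volume 0 1) : Nf g f = - Nf f g :=
  Nf_skew hg hf

/-! ## Negation of the letters -/

theorem cyc_neg (t : ZMod 3) : cyc (-t) = - cyc t := by
  revert t
  decide

theorem Gam_neg (R : ℕ) (l l' : ℕ → ZMod 3) (s : ℕ) :
    Gam R (-l) (-l') s = - Gam R l l' s := by
  rw [Gam, Gam, ← Finset.sum_neg_distrib]
  refine Finset.sum_congr rfl fun r _ => ?_
  rw [← cyc_neg, Pi.neg_apply, Pi.neg_apply]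
  congr 1
  ring

theorem Gam_swap (R : ℕ) (l l' : ℕ → ZMod 3) (s : ℕ) :
    Gam R l' l s = - Gam R l l' s := by
  rw [Gam, Gam, ← Finset.sum_neg_distrib]
  refine Finset.sum_congr rfl fun r _ => ?_
  rw [← cyc_neg, neg_sub]

/-- the mirror image of the pair `(l, l')` is the pair `(-l', -l)` -/
theorem Gam_mirror (R : ℕ) (l l' : ℕ → ZMod 3) (s : ℕ) :
    Gam R (-l') (-l) s = Gam R l l' s := by
  rw [Gam_neg, Gam_swap, neg_neg]

theorem Pair.mirror {R q : ℕ} {l l' : ℕ → ZMod 3} (h : Pair R q l l') :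
    Pair R q (-l') (-l) := by
  refine ⟨h.hq, ?_, fun s => ?_⟩
  · rw [Gam_mirror]
    exact h.total
  · rw [Gam_mirror]
    exact h.tail s

end Pool.Agent.T1K
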