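import Mathlib
import Pool.Agent.T1K.Refl
import Pool.Agent.T1K.Defs2

/-!
# The algebra of the leaf pair: splitting of the fourfold integral
-/

set_option autoImplicit false

open Finset MeasureTheory

namespace Pool.Agent.T1K

namespace LeafAlg

/-- the fourfold integral over the unit cube -/
noncomputable def I4 (F : ℝ → ℝ → ℝ → ℝ → ℝ) : ℝ :=
  ∫ x in (0 : ℝ)..1, ∫ y in (0 : ℝ)..1, ∫ x2 in (0 : ℝ)..1, ∫ y2 in (0 : ℝ)..1, F x y x2 y2

/-- the measure on the square -/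
noncomputable abbrev sq : Measure (ℝ × ℝ) :=
  (volume.restrict (Set.Ioc (0 : ℝ) 1)).prod (volume.restrict (Set.Ioc (0 : ℝ) 1))

/-- bounded on the cube -/
def Bd (F : ℝ → ℝ → ℝ → ℝ → ℝ) (C : ℝ) : Prop :=
  ∀ x ∈ Set.Ioc (0 : ℝ) 1, ∀ y ∈ Set.Ioc (0 : ℝ) 1, ∀ x2 ∈ Set.Ioc (0 : ℝ) 1,
    ∀ y2 ∈ Set.Ioc (0 : ℝ) 1, |F x y x2 y2| ≤ C

/-- measurable -/
def Ms (F : ℝ → ℝ → ℝ → ℝ → ℝ) : Prop :=
  Measurable fun p : (ℝ × ℝ) × (ℝ × ℝ) => F p.1.1 p.1.2 p.2.1 p.2.2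

theorem Ms.integrable {F : ℝ → ℝ → ℝ → ℝ → ℝ} (hF : Ms F) {C : ℝ} (hC : Bd F C) :
    Integrable (fun p : (ℝ × ℝ) × (ℝ × ℝ) => F p.1.1 p.1.2 p.2.1 p.2.2) (sq.prod sq) := by
  refine Integrable.of_bound hF.aestronglyMeasurable C ?_
  have h1 : sq.prod sq = (volume : Measure ((ℝ × ℝ) × (ℝ × ℝ))).restrict
      ((Set.Ioc (0 : ℝ) 1 ×ˢ Set.Ioc (0 : ℝ) 1) ×ˢ (Set.Ioc (0 : ℝ) 1 ×ˢ Set.Ioc (0 : ℝ) 1)) := by
    rw [sq, Measure.prod_restrict, Measure.prod_restrict]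
    rfl
  rw [h1, ae_restrict_iff' ((measurableSet_Ioc.prod measurableSet_Ioc).prod
    (measurableSet_Ioc.prod measurableSet_Ioc))]
  refine Filter.Eventually.of_forall fun p hp => ?_
  exact hC p.1.1 hp.1.1 p.1.2 hp.1.2 p.2.1 hp.2.1 p.2.2 hp.2.2

theorem I4_eq {F : ℝ → ℝ → ℝ → ℝ → ℝ} (hF : Ms F) {C : ℝ} (hC : Bd F C) :
    I4 F = ∫ p, F p.1.1 p.1.2 p.2.1 p.2.2 ∂(sq.prod sq) := by
  have hi := hF.integrable hC
  rw [integral_prod _ hi, integral_prod _ hi.integral_prod_left]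
  unfold I4
  rw [intervalIntegral.integral_of_le zero_le_one]
  refine integral_congr_ae ?_
  have hae : ∀ᵐ x ∂(volume.restrict (Set.Ioc (0 : ℝ) 1)), x ∈ Set.Ioc (0 : ℝ) 1 :=
    ae_restrict_mem measurableSet_Ioc
  filter_upwards [hae] with x hx
  rw [intervalIntegral.integral_of_le zero_le_one]
  refine integral_congr_ae ?_
  filter_upwards [hae] with y hy
  have hm : Measurable fun q : ℝ × ℝ => F x y q.1 q.2 :=
    Measurable.comp (f := fun q : ℝ × ℝ => (((x, y) : ℝ × ℝ), q)) hF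
      (measurable_const.prodMk measurable_id)
  have hint := integrable_sq (f := fun x2 y2 => F x y x2 y2) hm
    (fun x2 hx2 y2 hy2 => hC x hx y hy x2 hx2 y2 hy2)
  simp only [intervalIntegral.integral_of_le zero_le_one]
  exact (integral_prod _ hint).symm

theorem I4_add {F G : ℝ → ℝ → ℝ → ℝ → ℝ} (hF : Ms F) {C : ℝ} (hC : Bd F C) (hG : Ms G) {D : ℝ}
    (hD : Bd G D) : I4 (fun x y x2 y2 => F x y x2 y2 + G x y x2 y2) = I4 F + I4 G := by
  have hFG : Ms (fun x y x2 y2 => F x y x2 y2 + G x y x2 y2) := Measurable.add hF hG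
  have hCD : Bd (fun x y x2 y2 => F x y x2 y2 + G x y x2 y2) (C + D) := by
    intro x hx y hy x2 hx2 y2 hy2
    exact (abs_add_le _ _).trans (add_le_add (hC x hx y hy x2 hx2 y2 hy2)
      (hD x hx y hy x2 hx2 y2 hy2))
  rw [I4_eq hFG hCD, I4_eq hF hC, I4_eq hG hD]
  exact integral_add (hF.integrable hC) (hG.integrable hD)

theorem I4_smul (F : ℝ → ℝ → ℝ → ℝ → ℝ) (a : ℝ) :
    I4 (fun x y x2 y2 => a * F x y x2 y2) = a * I4 F := by
  unfold I4
  simp only [intervalIntegral.integral_const_mul]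

theorem I4_sub {F G : ℝ → ℝ → ℝ → ℝ → ℝ} (hF : Ms F) {C : ℝ} (hC : Bd F C) (hG : Ms G) {D : ℝ}
    (hD : Bd G D) : I4 (fun x y x2 y2 => F x y x2 y2 - G x y x2 y2) = I4 F - I4 G := by
  have hG' : Ms (fun x y x2 y2 => (-1) * G x y x2 y2) := Measurable.const_mul hG (-1)
  have hD' : Bd (fun x y x2 y2 => (-1) * G x y x2 y2) D := by
    intro x hx y hy x2 hx2 y2 hy2
    rw [abs_mul, abs_neg, abs_one, one_mul]
    exact hD x hx y hy x2 hx2 y2 hy2
  have h := I4_add hF hC hG' hD'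
  rw [I4_smul] at h
  have h2 : (fun x y x2 y2 => F x y x2 y2 - G x y x2 y2) =
      fun x y x2 y2 => F x y x2 y2 + (-1) * G x y x2 y2 := by
    funext x y x2 y2; ring
  rw [h2, h]
  ring

theorem I4_le {F : ℝ → ℝ → ℝ → ℝ → ℝ} {C : ℝ} (hC : Bd F C) : |I4 F| ≤ C := by
  have key : ∀ (f : ℝ → ℝ) (D : ℝ), (∀ t ∈ Set.Ioc (0 : ℝ) 1, |f t| ≤ D) →
      |∫ t in (0 : ℝ)..1, f t| ≤ D := by
    intro f D h
    have h1 := intervalIntegral.norm_integral_le_of_norm_le_const (a := 0) (b := 1) (C := D)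
      (f := f) fun t ht => by
        rw [Set.uIoc_of_le zero_le_one] at ht
        exact h t ht
    simpa using h1
  unfold I4
  exact key _ _ fun x hx => key _ _ fun y hy => key _ _ fun x2 hx2 => key _ _ fun y2 hy2 =>
    hC x hx y hy x2 hx2 y2 hy2

theorem I4_congr {F G : ℝ → ℝ → ℝ → ℝ → ℝ} (h : ∀ x y x2 y2, F x y x2 y2 = G x y x2 y2) :
    I4 F = I4 G := by
  have : F = G := by funext x y x2 y2; exact h x y x2 y2
  rw [this]

/-- product of functions of the two pairs -/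
theorem I4_mul (f g : ℝ → ℝ → ℝ) :
    I4 (fun x y x2 y2 => f x y * g x2 y2) =
      (∫ x in (0 : ℝ)..1, ∫ y in (0 : ℝ)..1, f x y) *
        ∫ x in (0 : ℝ)..1, ∫ y in (0 : ℝ)..1, g x y := by
  unfold I4
  simp only [intervalIntegral.integral_const_mul, intervalIntegral.integral_mul_const]

/-- a function of the first coordinates -/
theorem I4_fst (f g ψ : ℝ → ℝ → ℝ) :
    I4 (fun x y x2 y2 => f x y * g x2 y2 * ψ x x2) =
      ∫ x in (0 : ℝ)..1, ∫ x2 in (0 : ℝ)..1,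
        (∫ y in (0 : ℝ)..1, f x y) * (∫ y2 in (0 : ℝ)..1, g x2 y2) * ψ x x2 := by
  unfold I4
  refine intervalIntegral.integral_congr fun x _ => ?_
  have h1 : ∀ y : ℝ, (∫ x2 in (0 : ℝ)..1, ∫ y2 in (0 : ℝ)..1, f x y * g x2 y2 * ψ x x2) =
      f x y * ∫ x2 in (0 : ℝ)..1, (∫ y2 in (0 : ℝ)..1, g x2 y2) * ψ x x2 := by
    intro y
    rw [← intervalIntegral.integral_const_mul]
    refine intervalIntegral.integral_congr fun x2 _ => ?_
    change ∫ y2 in (0 : ℝ)..1, f x y * g x2 y2 * ψ x x2 =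
      f x y * ((∫ y2 in (0 : ℝ)..1, g x2 y2) * ψ x x2)
    rw [intervalIntegral.integral_mul_const, intervalIntegral.integral_const_mul]
    ring
  change ∫ y in (0 : ℝ)..1, (∫ x2 in (0 : ℝ)..1, ∫ y2 in (0 : ℝ)..1,
    f x y * g x2 y2 * ψ x x2) = _
  rw [intervalIntegral.integral_congr (g := fun y => f x y *
    ∫ x2 in (0 : ℝ)..1, (∫ y2 in (0 : ℝ)..1, g x2 y2) * ψ x x2) fun y _ => h1 y,
    intervalIntegral.integral_mul_const, ← intervalIntegral.integral_const_mul]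
  refine intervalIntegral.integral_congr fun x2 _ => ?_
  exact (mul_assoc _ _ _).symm

/-- a function of the second coordinates -/
theorem I4_snd {f g φ : ℝ → ℝ → ℝ} (hf : Continuous fun p : ℝ × ℝ => f p.1 p.2)
    (hg : Continuous fun p : ℝ × ℝ => g p.1 p.2) (hφ : Continuous fun p : ℝ × ℝ => φ p.1 p.2)
    {C D E : ℝ} (hC : ∀ x ∈ Set.Ioc (0 : ℝ) 1, ∀ y ∈ Set.Ioc (0 : ℝ) 1, |f x y| ≤ C)
    (hD : ∀ x ∈ Set.Ioc (0 : ℝ) 1, ∀ y ∈ Set.Ioc (0 : ℝ) 1, |g x y| ≤ D)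
    (hE : ∀ x ∈ Set.Ioc (0 : ℝ) 1, ∀ y ∈ Set.Ioc (0 : ℝ) 1, |φ x y| ≤ E) :
    I4 (fun x y x2 y2 => f x y * g x2 y2 * φ y y2) =
      ∫ y in (0 : ℝ)..1, ∫ y2 in (0 : ℝ)..1,
        (∫ x in (0 : ℝ)..1, f x y) * (∫ x2 in (0 : ℝ)..1, g x2 y2) * φ y y2 := by
  have hmem : (1 : ℝ) ∈ Set.Ioc (0 : ℝ) 1 := ⟨zero_lt_one, le_refl _⟩
  have hC0 : 0 ≤ C := (abs_nonneg _).trans (hC 1 hmem 1 hmem)
  have hD0 : 0 ≤ D := (abs_nonneg _).trans (hD 1 hmem 1 hmem)
  have hE0 : 0 ≤ E := (abs_nonneg _).trans (hE 1 hmem 1 hmem)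
  -- the function of `y`
  have hG : Continuous fun y2 : ℝ => ∫ x2 in (0 : ℝ)..1, g x2 y2 :=
    intervalIntegral.continuous_parametric_intervalIntegral_of_continuous'
      (f := fun y2 x2 => g x2 y2) (hg.comp (continuous_snd.prodMk continuous_fst)) 0 1
  have hT : Continuous fun y : ℝ => ∫ y2 in (0 : ℝ)..1, (∫ x2 in (0 : ℝ)..1, g x2 y2) * φ y y2 :=
    intervalIntegral.continuous_parametric_intervalIntegral_of_continuous'
      (f := fun y y2 => (∫ x2 in (0 : ℝ)..1, g x2 y2) * φ y y2)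
      ((hG.comp continuous_snd).mul hφ) 0 1
  have h1 : ∀ x y : ℝ, y ∈ Set.Ioc (0 : ℝ) 1 →
      (∫ x2 in (0 : ℝ)..1, ∫ y2 in (0 : ℝ)..1, f x y * g x2 y2 * φ y y2) =
      f x y * ∫ y2 in (0 : ℝ)..1, (∫ x2 in (0 : ℝ)..1, g x2 y2) * φ y y2 := by
    intro x y hy
    have h2 : (∫ x2 in (0 : ℝ)..1, ∫ y2 in (0 : ℝ)..1, f x y * g x2 y2 * φ y y2) =
        f x y * ∫ x2 in (0 : ℝ)..1, ∫ y2 in (0 : ℝ)..1, g x2 y2 * φ y y2 := by
      rw [← intervalIntegral.integral_const_mul]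
      refine intervalIntegral.integral_congr fun x2 _ => ?_
      change ∫ y2 in (0 : ℝ)..1, f x y * g x2 y2 * φ y y2 =
        f x y * ∫ y2 in (0 : ℝ)..1, g x2 y2 * φ y y2
      rw [← intervalIntegral.integral_const_mul]
      refine intervalIntegral.integral_congr fun y2 _ => ?_
      exact mul_assoc _ _ _
    rw [h2]
    congr 1
    have hm : Measurable (Function.uncurry fun x2 y2 => g x2 y2 * φ y y2) :=
      (hg.mul (hφ.comp (continuous_const.prodMk continuous_snd))).measurable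
    rw [swap01 (f := fun x2 y2 => g x2 y2 * φ y y2) hm (C := D * E)
      (fun x2 hx2 y2 hy2 => by
        rw [abs_mul]
        exact mul_le_mul (hD x2 hx2 y2 hy2) (hE y hy y2 hy2) (abs_nonneg _) hD0)]
    simp only [intervalIntegral.integral_mul_const]
  have h3 : I4 (fun x y x2 y2 => f x y * g x2 y2 * φ y y2) =
      ∫ x in (0 : ℝ)..1, ∫ y in (0 : ℝ)..1,
        f x y * ∫ y2 in (0 : ℝ)..1, (∫ x2 in (0 : ℝ)..1, g x2 y2) * φ y y2 := by
    unfold I4
    refine intervalIntegral.integral_congr fun x _ => ?_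
    refine intervalIntegral.integral_congr_ae (Filter.Eventually.of_forall fun y hy => ?_)
    rw [Set.uIoc_of_le zero_le_one] at hy
    exact h1 x y hy
  have hTb : ∀ y ∈ Set.Ioc (0 : ℝ) 1,
      |∫ y2 in (0 : ℝ)..1, (∫ x2 in (0 : ℝ)..1, g x2 y2) * φ y y2| ≤ D * E := by
    intro y hy
    have h4 := intervalIntegral.norm_integral_le_of_norm_le_const (a := 0) (b := 1) (C := D * E)
      (f := fun y2 => (∫ x2 in (0 : ℝ)..1, g x2 y2) * φ y y2) fun y2 hy2 => by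
        rw [Set.uIoc_of_le zero_le_one] at hy2
        have h5 := intervalIntegral.norm_integral_le_of_norm_le_const (a := 0) (b := 1) (C := D)
          (f := fun x2 => g x2 y2) fun x2 hx2 => by
            rw [Set.uIoc_of_le zero_le_one] at hx2
            exact hD x2 hx2 y2 hy2
        rw [Real.norm_eq_abs] at h5 ⊢
        rw [abs_mul]
        have h6 : |∫ x2 in (0 : ℝ)..1, g x2 y2| ≤ D := by simpa using h5
        exact mul_le_mul h6 (hE y hy y2 hy2) (abs_nonneg _) hD0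
    simpa using h4
  rw [h3, swap01 (f := fun x y => f x y * ∫ y2 in (0 : ℝ)..1,
      (∫ x2 in (0 : ℝ)..1, g x2 y2) * φ y y2)
    ((hf.mul (hT.comp continuous_snd)).measurable) (C := C * (D * E))
    (fun x hx y hy => by
      rw [abs_mul]
      exact mul_le_mul (hC x hx y hy) (hTb y hy) (abs_nonneg _) hC0)]
  refine intervalIntegral.integral_congr fun y _ => ?_
  rw [intervalIntegral.integral_mul_const, ← intervalIntegral.integral_const_mul]
  refine intervalIntegral.integral_congr fun y2 _ => ?_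
  exact (mul_assoc _ _ _).symm

end LeafAlg

end Pool.Agent.T1K
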