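import Mathlib
import Pool.Agent.T1K.LeafAlg

/-!
# The leaf pair: the exact identity
-/

set_option autoImplicit false

open Finset MeasureTheory

namespace Pool.Agent.T1K

namespace LeafAlg

/-- continuity in the four variables -/
def Ct (F : ℝ → ℝ → ℝ → ℝ → ℝ) : Prop :=
  Continuous fun p : (ℝ × ℝ) × (ℝ × ℝ) => F p.1.1 p.1.2 p.2.1 p.2.2

theorem Ct.ms {F : ℝ → ℝ → ℝ → ℝ → ℝ} (hF : Ct F) : Ms F := hF.measurable

theorem Ct.bd {F : ℝ → ℝ → ℝ → ℝ → ℝ} (hF : Ct F) : ∃ C, Bd F C := by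
  have hK : IsCompact ((Set.Icc (0 : ℝ) 1 ×ˢ Set.Icc (0 : ℝ) 1) ×ˢ
      (Set.Icc (0 : ℝ) 1 ×ˢ Set.Icc (0 : ℝ) 1)) :=
    (isCompact_Icc.prod isCompact_Icc).prod (isCompact_Icc.prod isCompact_Icc)
  obtain ⟨C, hC⟩ := hK.exists_bound_of_continuousOn (Continuous.continuousOn hF)
  refine ⟨C, fun x hx y hy x2 hx2 y2 hy2 => ?_⟩
  have h1 := hC ((x, y), (x2, y2)) ⟨⟨Set.Ioc_subset_Icc_self hx, Set.Ioc_subset_Icc_self hy⟩,
    ⟨Set.Ioc_subset_Icc_self hx2, Set.Ioc_subset_Icc_self hy2⟩⟩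
  rwa [Real.norm_eq_abs] at h1

theorem Ct.add {F G : ℝ → ℝ → ℝ → ℝ → ℝ} (hF : Ct F) (hG : Ct G) :
    Ct (fun x y x2 y2 => F x y x2 y2 + G x y x2 y2) := Continuous.add hF hG

theorem Ct.sub {F G : ℝ → ℝ → ℝ → ℝ → ℝ} (hF : Ct F) (hG : Ct G) :
    Ct (fun x y x2 y2 => F x y x2 y2 - G x y x2 y2) := Continuous.sub hF hG

theorem Ct.smul {F : ℝ → ℝ → ℝ → ℝ → ℝ} (hF : Ct F) (a : ℝ) :
    Ct (fun x y x2 y2 => a * F x y x2 y2) := Continuous.mul continuous_const hF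

theorem Ct.i4_add {F G : ℝ → ℝ → ℝ → ℝ → ℝ} (hF : Ct F) (hG : Ct G) :
    I4 (fun x y x2 y2 => F x y x2 y2 + G x y x2 y2) = I4 F + I4 G := by
  obtain ⟨C, hC⟩ := hF.bd
  obtain ⟨D, hD⟩ := hG.bd
  exact I4_add hF.ms hC hG.ms hD

theorem Ct.i4_sub {F G : ℝ → ℝ → ℝ → ℝ → ℝ} (hF : Ct F) (hG : Ct G) :
    I4 (fun x y x2 y2 => F x y x2 y2 - G x y x2 y2) = I4 F - I4 G := by
  obtain ⟨C, hC⟩ := hF.bd
  obtain ⟨D, hD⟩ := hG.bd
  exact I4_sub hF.ms hC hG.ms hD

/-- linear combinations: the four parts of the kernel -/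
theorem i4_lin {F1 F2 F3 F4 : ℝ → ℝ → ℝ → ℝ → ℝ} (h1 : Ct F1) (h2 : Ct F2) (h3 : Ct F3)
    (h4 : Ct F4) :
    I4 (fun x y x2 y2 => (1 / 2 * F1 x y x2 y2 - 1 / 2 * F2 x y x2 y2 - 1 / 2 * F3 x y x2 y2)
      + F4 x y x2 y2) = 1 / 2 * I4 F1 - 1 / 2 * I4 F2 - 1 / 2 * I4 F3 + I4 F4 := by
  rw [Ct.i4_add (((h1.smul _).sub (h2.smul _)).sub (h3.smul _)) h4,
    Ct.i4_sub ((h1.smul _).sub (h2.smul _)) (h3.smul _), Ct.i4_sub (h1.smul _) (h2.smul _),
    I4_smul, I4_smul, I4_smul]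

/-- linear combinations: the four products -/
theorem i4_lin' {F1 F2 F3 F4 : ℝ → ℝ → ℝ → ℝ → ℝ} (h1 : Ct F1) (h2 : Ct F2) (h3 : Ct F3)
    (h4 : Ct F4) :
    I4 (fun x y x2 y2 => ((F1 x y x2 y2 + F2 x y x2 y2) - F3 x y x2 y2) - F4 x y x2 y2)
      = I4 F1 + I4 F2 - I4 F3 - I4 F4 := by
  rw [Ct.i4_sub ((h1.add h2).sub h3) h4, Ct.i4_sub (h1.add h2) h3, Ct.i4_add h1 h2]

/-! ## double integrals -/

/-- the double integral over the unit square -/
noncomputable def I2 (f : ℝ → ℝ → ℝ) : ℝ := ∫ x in (0 : ℝ)..1, ∫ y in (0 : ℝ)..1, f x y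

/-- continuity in the two variables -/
def C2 (f : ℝ → ℝ → ℝ) : Prop := Continuous fun p : ℝ × ℝ => f p.1 p.2

theorem C2.inner {f : ℝ → ℝ → ℝ} (hf : C2 f) : Continuous fun x => ∫ y in (0 : ℝ)..1, f x y :=
  intervalIntegral.continuous_parametric_intervalIntegral_of_continuous'
    (f := fun x y => f x y) hf 0 1

theorem C2.slice {f : ℝ → ℝ → ℝ} (hf : C2 f) (x : ℝ) : Continuous fun y => f x y :=
  Continuous.comp (g := fun p : ℝ × ℝ => f p.1 p.2) hf (continuous_const.prodMk continuous_id)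

theorem C2.i2_add {f g : ℝ → ℝ → ℝ} (hf : C2 f) (hg : C2 g) :
    I2 (fun x y => f x y + g x y) = I2 f + I2 g := by
  unfold I2
  rw [← intervalIntegral.integral_add (hf.inner.intervalIntegrable _ _)
    (hg.inner.intervalIntegrable _ _)]
  refine intervalIntegral.integral_congr fun x _ => ?_
  exact intervalIntegral.integral_add ((hf.slice x).intervalIntegrable _ _)
    ((hg.slice x).intervalIntegrable _ _)

theorem C2.i2_sub {f g : ℝ → ℝ → ℝ} (hf : C2 f) (hg : C2 g) :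
    I2 (fun x y => f x y - g x y) = I2 f - I2 g := by
  unfold I2
  rw [← intervalIntegral.integral_sub (hf.inner.intervalIntegrable _ _)
    (hg.inner.intervalIntegrable _ _)]
  refine intervalIntegral.integral_congr fun x _ => ?_
  exact intervalIntegral.integral_sub ((hf.slice x).intervalIntegrable _ _)
    ((hg.slice x).intervalIntegrable _ _)

theorem I2_le {f : ℝ → ℝ → ℝ} {C : ℝ} (hC : ∀ x ∈ Set.Ioc (0 : ℝ) 1, ∀ y ∈ Set.Ioc (0 : ℝ) 1,
    |f x y| ≤ C) : |I2 f| ≤ C := by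
  have key : ∀ (f : ℝ → ℝ) (D : ℝ), (∀ t ∈ Set.Ioc (0 : ℝ) 1, |f t| ≤ D) →
      |∫ t in (0 : ℝ)..1, f t| ≤ D := by
    intro f D h
    have h1 := intervalIntegral.norm_integral_le_of_norm_le_const (a := 0) (b := 1) (C := D)
      (f := f) fun t ht => by
        rw [Set.uIoc_of_le zero_le_one] at ht
        exact h t ht
    simpa using h1
  exact key _ _ fun x hx => key _ _ fun y hy => hC x hx y hy

theorem i4_mul (f g : ℝ → ℝ → ℝ) :
    I4 (fun x y x2 y2 => f x y * g x2 y2) = I2 f * I2 g := I4_mul f g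

/-! ## the kernel -/

theorem sq_max (t : ℝ) : (max 0 t) ^ 2 = (t ^ 2 + t * |t|) / 2 := by
  rcases le_total 0 t with h | h
  · rw [max_eq_right h, abs_of_nonneg h]; ring
  · rw [max_eq_left h, abs_of_nonpos h]; ring

/-- the kernel of a pair of intervals -/
theorem sK_eq (u X v Y : ℝ) :
    sK u X v Y = (1 / 2 * ((X - u) * (Y + v) + (Y ^ 2 - v ^ 2) - (X ^ 2 - u ^ 2)
        - (X + u) * (Y - v)) - 1 / 2 * ((Y - X) * |Y - X|) - 1 / 2 * ((v - u) * |v - u|))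
      + ((max 0 (v - X)) ^ 2 - (max 0 (u - Y)) ^ 2) := by
  unfold sK
  have h1 := sq_max (v - u)
  have h2 := sq_max (X - Y)
  have h3 : |X - Y| = |Y - X| := abs_sub_comm X Y
  rw [h3] at h2
  rw [h1, h2]
  ring

theorem abs_sK_le {u X v Y : ℝ} (hu : 0 ≤ u ∧ u ≤ 1) (hX : 0 ≤ X ∧ X ≤ 1) (hv : 0 ≤ v ∧ v ≤ 1)
    (hY : 0 ≤ Y ∧ Y ≤ 1) : |sK u X v Y| ≤ 6 := by
  have key : ∀ s t : ℝ, 0 ≤ s ∧ s ≤ 1 → 0 ≤ t ∧ t ≤ 1 → 0 ≤ (max 0 (s - t)) ^ 2 ∧
      (max 0 (s - t)) ^ 2 ≤ 1 := by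
    intro s t hs ht
    have h1 : 0 ≤ max 0 (s - t) := le_max_left _ _
    have h2 : max 0 (s - t) ≤ 1 := max_le zero_le_one (by linarith [hs.2, ht.1])
    exact ⟨by positivity, by nlinarith⟩
  have k1 := key v u hv hu
  have k2 := key v X hv hX
  have k3 := key X Y hX hY
  have k4 := key u Y hu hY
  have h5 : |(X - u) * (Y + v - X - u)| ≤ 2 := by
    rw [abs_mul]
    have h6 : |X - u| ≤ 1 := abs_le.2 ⟨by linarith [hX.1, hu.2], by linarith [hX.2, hu.1]⟩
    have h7 : |Y + v - X - u| ≤ 2 := abs_le.2 ⟨by linarith [hX.2, hu.2, hY.1, hv.1],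
      by linarith [hX.1, hu.1, hY.2, hv.2]⟩
    calc |X - u| * |Y + v - X - u| ≤ 1 * 2 := mul_le_mul h6 h7 (abs_nonneg _) zero_le_one
      _ = 2 := by norm_num
  have h8 := abs_le.1 h5
  unfold sK
  rw [abs_le]
  constructor
  · linarith [h8.1, k1.2, k2.1, k3.1, k4.2]
  · linarith [h8.2, k1.1, k2.2, k3.2, k4.1]

/-! ## the parts of the kernel and the moments -/

/-- the moments of a weight with the barrier `al` -/
noncomputable def Mo (w : ℝ → ℝ → ℝ) (k : ℝ → ℝ → ℝ) : ℝ := I2 (fun x y => w x y * k x y)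

/-- the exact identity for a pair of weights -/
theorem split_exact {w w' : ℝ → ℝ → ℝ} (hw : C2 w) (hw' : C2 w') (al : ℝ) :
    I4 (fun x y x2 y2 => w x y * w' x2 y2 * sK (max x al) y (max x2 al) y2) =
      1 / 2 * (Mo w (fun x y => y - max x al) * Mo w' (fun x y => y + max x al)
        + I2 w * Mo w' (fun x y => y ^ 2 - (max x al) ^ 2)
        - Mo w (fun x y => y ^ 2 - (max x al) ^ 2) * I2 w'
        - Mo w (fun x y => y + max x al) * Mo w' (fun x y => y - max x al))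
      - 1 / 2 * I4 (fun x y x2 y2 => w x y * w' x2 y2 * ((y2 - y) * |y2 - y|))
      - 1 / 2 * I4 (fun x y x2 y2 => w x y * w' x2 y2 *
          ((max x2 al - max x al) * |max x2 al - max x al|))
      + I4 (fun x y x2 y2 => w x y * w' x2 y2 *
          ((max 0 (max x2 al - y)) ^ 2 - (max 0 (max x al - y2)) ^ 2)) := by
  have hc1 : Ct (fun x y _ _ => w x y) := Continuous.comp (g := fun p : ℝ × ℝ => w p.1 p.2) hw
    continuous_fst
  have hc2 : Ct (fun _ _ x2 y2 => w' x2 y2) := Continuous.comp (g := fun p : ℝ × ℝ => w' p.1 p.2)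
    hw' continuous_snd
  have hx : Ct (fun x _ _ _ => max x al) := by unfold Ct; fun_prop
  have hy : Ct (fun _ y _ _ => y) := by unfold Ct; fun_prop
  have hx2 : Ct (fun _ _ x2 _ => max x2 al) := by unfold Ct; fun_prop
  have hy2 : Ct (fun _ _ _ y2 => y2) := by unfold Ct; fun_prop
  have c1 : Ct (fun x y x2 y2 => (w x y * (y - max x al)) * (w' x2 y2 * (y2 + max x2 al))) :=
    Continuous.mul (Continuous.mul hc1 (Continuous.sub hy hx))
      (Continuous.mul hc2 (Continuous.add hy2 hx2))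
  have c2 : Ct (fun x y x2 y2 => w x y * (w' x2 y2 * (y2 ^ 2 - (max x2 al) ^ 2))) :=
    Continuous.mul hc1 (Continuous.mul hc2 (Continuous.sub (Continuous.pow hy2 2)
      (Continuous.pow hx2 2)))
  have c3 : Ct (fun x y x2 y2 => (w x y * (y ^ 2 - (max x al) ^ 2)) * w' x2 y2) :=
    Continuous.mul (Continuous.mul hc1 (Continuous.sub (Continuous.pow hy 2)
      (Continuous.pow hx 2))) hc2
  have c4 : Ct (fun x y x2 y2 => (w x y * (y + max x al)) * (w' x2 y2 * (y2 - max x2 al))) :=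
    Continuous.mul (Continuous.mul hc1 (Continuous.add hy hx))
      (Continuous.mul hc2 (Continuous.sub hy2 hx2))
  have d2 : Ct (fun x y x2 y2 => w x y * w' x2 y2 * ((y2 - y) * |y2 - y|)) :=
    Continuous.mul (Continuous.mul hc1 hc2) (Continuous.mul (Continuous.sub hy2 hy)
      (Continuous.abs (Continuous.sub hy2 hy)))
  have d3 : Ct (fun x y x2 y2 => w x y * w' x2 y2 *
      ((max x2 al - max x al) * |max x2 al - max x al|)) :=
    Continuous.mul (Continuous.mul hc1 hc2) (Continuous.mul (Continuous.sub hx2 hx)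
      (Continuous.abs (Continuous.sub hx2 hx)))
  have d4 : Ct (fun x y x2 y2 => w x y * w' x2 y2 *
      ((max 0 (max x2 al - y)) ^ 2 - (max 0 (max x al - y2)) ^ 2)) :=
    Continuous.mul (Continuous.mul hc1 hc2) (Continuous.sub
      (Continuous.pow (Continuous.max continuous_const (Continuous.sub hx2 hy)) 2)
      (Continuous.pow (Continuous.max continuous_const (Continuous.sub hx hy2)) 2))
  have h0 : I4 (fun x y x2 y2 => w x y * w' x2 y2 * sK (max x al) y (max x2 al) y2) =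
      I4 (fun x y x2 y2 => (1 / 2 * (((w x y * (y - max x al)) * (w' x2 y2 * (y2 + max x2 al))
            + w x y * (w' x2 y2 * (y2 ^ 2 - (max x2 al) ^ 2)))
            - (w x y * (y ^ 2 - (max x al) ^ 2)) * w' x2 y2
            - (w x y * (y + max x al)) * (w' x2 y2 * (y2 - max x2 al)))
          - 1 / 2 * (w x y * w' x2 y2 * ((y2 - y) * |y2 - y|))
          - 1 / 2 * (w x y * w' x2 y2 * ((max x2 al - max x al) * |max x2 al - max x al|)))
          + w x y * w' x2 y2 *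
            ((max 0 (max x2 al - y)) ^ 2 - (max 0 (max x al - y2)) ^ 2)) := by
    refine I4_congr fun x y x2 y2 => ?_
    rw [sK_eq]
    ring
  rw [h0, i4_lin (((c1.add c2).sub c3).sub c4) d2 d3 d4, i4_lin' c1 c2 c3 c4,
    i4_mul (fun x y => w x y * (y - max x al)) (fun x y => w' x y * (y + max x al)),
    i4_mul w (fun x y => w' x y * (y ^ 2 - (max x al) ^ 2)),
    i4_mul (fun x y => w x y * (y ^ 2 - (max x al) ^ 2)) w',
    i4_mul (fun x y => w x y * (y + max x al)) (fun x y => w' x y * (y - max x al))]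
  rfl

end LeafAlg

end Pool.Agent.T1K
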