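import Mathlib
import Pool.Agent.T1K.Leaf0

/-!
# The leaf pair: the kernels in terms of the marginals, the moments
-/

set_option autoImplicit false

open Finset MeasureTheory

namespace Pool.Agent.T1K

namespace LeafAlg

/-- the part of the lower centres -/
theorem i4_lower (c d c' d' : ℕ → ℝ) (T S T' S' : Finset ℕ) (al : ℝ) :
    I4 (fun x y x2 y2 => W c d T S x y * W c' d' T' S' x2 y2 *
      ((max x2 al - max x al) * |max x2 al - max x al|)) =
      Kq al (dX c d T S) (dX c' d' T' S') := by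
  rw [I4_fst (W c d T S) (W c' d' T' S')
    (fun x x2 => (max x2 al - max x al) * |max x2 al - max x al|)]
  rfl

theorem Kq_zero (f g : ℝ → ℝ) : Kq 0 f g = ∫ x in (0 : ℝ)..1, ∫ y in (0 : ℝ)..1,
    f x * g y * ((y - x) * |y - x|) := by
  unfold Kq
  refine intervalIntegral.integral_congr fun x hx => ?_
  refine intervalIntegral.integral_congr fun y hy => ?_
  rw [Set.uIcc_of_le zero_le_one] at hx hy
  rw [max_eq_left hx.1, max_eq_left hy.1]

/-- the part of the upper centres -/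
theorem i4_upper (c d c' d' : ℕ → ℝ) (T S T' S' : Finset ℕ) :
    I4 (fun x y x2 y2 => W c d T S x y * W c' d' T' S' x2 y2 * ((y2 - y) * |y2 - y|)) =
      - Kq 0 (dX d c S T) (dX d' c' S' T') := by
  have hb : ∀ (c d : ℕ → ℝ) (T S : Finset ℕ), ∀ x ∈ Set.Ioc (0 : ℝ) 1, ∀ y ∈ Set.Ioc (0 : ℝ) 1,
      |W c d T S x y| ≤ 1 := by
    intro c d T S x hx y hy
    rw [abs_of_nonneg (W_nonneg _ _ _ _ _ _)]
    exact W_le_one (by linarith [hx.1, hy.2])
  rw [I4_snd (f := W c d T S) (g := W c' d' T' S') (φ := fun y y2 => (y2 - y) * |y2 - y|)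
    (continuous_W c d T S) (continuous_W c' d' T' S') (by fun_prop) (hb c d T S) (hb c' d' T' S')
    (E := 1) (by
      intro x hx y hy
      have h1 : |y - x| ≤ 1 := abs_le.2 ⟨by linarith [hx.2, hy.1], by linarith [hx.1, hy.2]⟩
      rw [abs_mul, abs_abs]
      have h2 := abs_nonneg (y - x)
      nlinarith)]
  have h1 : (∫ y in (0 : ℝ)..1, ∫ y2 in (0 : ℝ)..1, (∫ x in (0 : ℝ)..1, W c d T S x y) *
      (∫ x2 in (0 : ℝ)..1, W c' d' T' S' x2 y2) * ((y2 - y) * |y2 - y|)) =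
      ∫ y in (0 : ℝ)..1, ∫ y2 in (0 : ℝ)..1, dX d c S T (1 - y) * dX d' c' S' T' (1 - y2) *
        ((y2 - y) * |y2 - y|) := by
    refine intervalIntegral.integral_congr fun y _ => ?_
    refine intervalIntegral.integral_congr fun y2 _ => ?_
    have h2 := dY_eq c d T S y
    have h3 := dY_eq c' d' T' S' y2
    unfold dY at h2 h3
    change (∫ x in (0 : ℝ)..1, W c d T S x y) * (∫ x2 in (0 : ℝ)..1, W c' d' T' S' x2 y2) *
      ((y2 - y) * |y2 - y|) = _
    rw [h2, h3]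
  rw [h1]
  have h4 := intervalIntegral.integral_comp_sub_left (a := (0 : ℝ)) (b := 1)
    (fun y => ∫ y2 in (0 : ℝ)..1, dX d c S T y * dX d' c' S' T' (1 - y2) *
        ((y2 - (1 - y)) * |y2 - (1 - y)|)) 1
  simp only [sub_sub_cancel, sub_self, sub_zero] at h4
  rw [h4, Kq_zero, ← intervalIntegral.integral_neg]
  refine intervalIntegral.integral_congr fun y _ => ?_
  have h5 := intervalIntegral.integral_comp_sub_left (a := (0 : ℝ)) (b := 1)
    (fun y2 => dX d c S T y * dX d' c' S' T' y2 *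
        (((1 - y2) - (1 - y)) * |(1 - y2) - (1 - y)|)) 1
  simp only [sub_sub_cancel, sub_self, sub_zero] at h5
  change (∫ y2 in (0 : ℝ)..1, dX d c S T y * dX d' c' S' T' (1 - y2) *
        ((y2 - (1 - y)) * |y2 - (1 - y)|)) = _
  rw [h5, ← intervalIntegral.integral_neg]
  refine intervalIntegral.integral_congr fun y2 _ => ?_
  change dX d c S T y * dX d' c' S' T' y2 * ((1 - y2 - (1 - y)) * |1 - y2 - (1 - y)|) =
    -(dX d c S T y * dX d' c' S' T' y2 * ((y2 - y) * |y2 - y|))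
  have h6 : 1 - y2 - (1 - y) = -(y2 - y) := by ring
  rw [h6, abs_neg]
  ring

/-- comparison of the moments -/
theorem mo_diff {w w' : ℝ → ℝ → ℝ} (hw : C2 w) (hw' : C2 w') {al del : ℝ}
    (hm : ∀ i ≤ 2, ∀ j ≤ 2, |∫ x in (0 : ℝ)..1, ∫ y in (0 : ℝ)..1,
      (w x y - w' x y) * y ^ i * (max x al) ^ j| ≤ del) :
    |I2 w - I2 w'| ≤ del ∧
    |Mo w (fun x y => y + max x al) - Mo w' (fun x y => y + max x al)| ≤ 2 * del ∧
    |Mo w (fun x y => y - max x al) - Mo w' (fun x y => y - max x al)| ≤ 2 * del ∧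
    |Mo w (fun x y => y ^ 2 - (max x al) ^ 2) - Mo w' (fun x y => y ^ 2 - (max x al) ^ 2)|
      ≤ 2 * del := by
  -- the monomial differences
  have cw : ∀ i j : ℕ, C2 (fun x y => (w x y - w' x y) * y ^ i * (max x al) ^ j) := by
    intro i j
    exact Continuous.mul (Continuous.mul (Continuous.sub hw hw') (by fun_prop)) (by fun_prop)
  have cm : ∀ {v : ℝ → ℝ → ℝ}, C2 v → ∀ k : ℝ → ℝ → ℝ, C2 k → C2 (fun x y => v x y * k x y) :=
    fun hv k hk => Continuous.mul hv hk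
  have k1 : C2 (fun x y => y + max x al) := by unfold C2; fun_prop
  have k2 : C2 (fun x y => y - max x al) := by unfold C2; fun_prop
  have k3 : C2 (fun x y => y ^ 2 - (max x al) ^ 2) := by unfold C2; fun_prop
  have m : ∀ i ≤ 2, ∀ j ≤ 2, |I2 (fun x y => (w x y - w' x y) * y ^ i * (max x al) ^ j)| ≤ del :=
    hm
  have e0 : I2 w - I2 w' = I2 (fun x y => (w x y - w' x y) * y ^ 0 * (max x al) ^ 0) := by
    rw [← C2.i2_sub hw hw']
    simp only [pow_zero, mul_one]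
  have e1 : Mo w (fun x y => y + max x al) - Mo w' (fun x y => y + max x al) =
      I2 (fun x y => (w x y - w' x y) * y ^ 1 * (max x al) ^ 0) +
      I2 (fun x y => (w x y - w' x y) * y ^ 0 * (max x al) ^ 1) := by
    unfold Mo
    rw [← C2.i2_sub (cm hw _ k1) (cm hw' _ k1), ← C2.i2_add (cw 1 0) (cw 0 1)]
    congr 1
    funext x y
    ring
  have e2 : Mo w (fun x y => y - max x al) - Mo w' (fun x y => y - max x al) =
      I2 (fun x y => (w x y - w' x y) * y ^ 1 * (max x al) ^ 0) -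
      I2 (fun x y => (w x y - w' x y) * y ^ 0 * (max x al) ^ 1) := by
    unfold Mo
    rw [← C2.i2_sub (cm hw _ k2) (cm hw' _ k2), ← C2.i2_sub (cw 1 0) (cw 0 1)]
    congr 1
    funext x y
    ring
  have e3 : Mo w (fun x y => y ^ 2 - (max x al) ^ 2) - Mo w' (fun x y => y ^ 2 - (max x al) ^ 2) =
      I2 (fun x y => (w x y - w' x y) * y ^ 2 * (max x al) ^ 0) -
      I2 (fun x y => (w x y - w' x y) * y ^ 0 * (max x al) ^ 2) := by
    unfold Mo
    rw [← C2.i2_sub (cm hw _ k3) (cm hw' _ k3), ← C2.i2_sub (cw 2 0) (cw 0 2)]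
    congr 1
    funext x y
    ring
  have h2 : (2 : ℕ) ≤ 2 := le_refl 2
  have h1 : (1 : ℕ) ≤ 2 := by norm_num
  have h0 : (0 : ℕ) ≤ 2 := by norm_num
  have b00 := m 0 h0 0 h0
  have b10 := m 1 h1 0 h0
  have b01 := m 0 h0 1 h1
  have b20 := m 2 h2 0 h0
  have b02 := m 0 h0 2 h2
  refine ⟨by rw [e0]; exact b00, ?_, ?_, ?_⟩
  · rw [e1]
    exact (abs_add_le _ _).trans (by linarith)
  · rw [e2]
    exact (abs_sub _ _).trans (by linarith)
  · rw [e3]
    exact (abs_sub _ _).trans (by linarith)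

/-- the moments are bounded -/
theorem mo_le {w : ℝ → ℝ → ℝ} {k : ℝ → ℝ → ℝ} {C : ℝ}
    (hw : ∀ x ∈ Set.Ioc (0 : ℝ) 1, ∀ y ∈ Set.Ioc (0 : ℝ) 1, |w x y| ≤ 1)
    (hk : ∀ x ∈ Set.Ioc (0 : ℝ) 1, ∀ y ∈ Set.Ioc (0 : ℝ) 1, |k x y| ≤ C) : |Mo w k| ≤ C := by
  refine I2_le fun x hx y hy => ?_
  rw [abs_mul]
  calc |w x y| * |k x y| ≤ 1 * C := mul_le_mul (hw x hx y hy) (hk x hx y hy) (abs_nonneg _)
        zero_le_one
    _ = C := one_mul C

/-- the combination of the moments is small -/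
theorem comb_le {m0 m1 m2 m3 n0 n1 n2 n3 del : ℝ} (h0 : |m0 - n0| ≤ del)
    (h1 : |m1 - n1| ≤ 2 * del) (h2 : |m2 - n2| ≤ 2 * del) (h3 : |m3 - n3| ≤ 2 * del)
    (b0 : |m0| ≤ 1) (b1 : |m1| ≤ 2) (b2 : |m2| ≤ 1) (b3 : |m3| ≤ 1) :
    |1 / 2 * (m2 * n1 + m0 * n3 - m3 * n0 - m1 * n2)| ≤ 9 / 2 * del := by
  have e : 1 / 2 * (m2 * n1 + m0 * n3 - m3 * n0 - m1 * n2) =
      1 / 2 * ((m1 * (m2 - n2) + m3 * (m0 - n0)) - (m2 * (m1 - n1) + m0 * (m3 - n3))) := by ring
  have p1 : |m1 * (m2 - n2)| ≤ 2 * (2 * del) := by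
    rw [abs_mul]; exact mul_le_mul b1 h2 (abs_nonneg _) (by norm_num)
  have p2 : |m3 * (m0 - n0)| ≤ 1 * del := by
    rw [abs_mul]; exact mul_le_mul b3 h0 (abs_nonneg _) (by norm_num)
  have p3 : |m2 * (m1 - n1)| ≤ 1 * (2 * del) := by
    rw [abs_mul]; exact mul_le_mul b2 h1 (abs_nonneg _) (by norm_num)
  have p4 : |m0 * (m3 - n3)| ≤ 1 * (2 * del) := by
    rw [abs_mul]; exact mul_le_mul b0 h3 (abs_nonneg _) (by norm_num)
  rw [abs_le] at p1 p2 p3 p4
  rw [e, abs_le]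
  constructor
  · linarith [p1.1, p2.1, p3.2, p4.2]
  · linarith [p1.2, p2.2, p3.1, p4.1]

end LeafAlg

end Pool.Agent.T1K
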