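import Mathlib
import Pool.Agent.T1K.Refl
import Pool.Agent.T1K.Defs2

/-!
# The pair functional of two leaves as a fourfold integral
-/

set_option autoImplicit false

open Finset MeasureTheory

namespace Pool.Agent.T1K

namespace LeafFub

/-! ## One-dimensional integrals -/

theorem int_sg (t : ℝ) (a b : ℝ) : ∫ s in a..b, sg t s = |t - a| - |t - b| := by
  have h := MeasureTheory.integral_eq_of_hasDerivAt_off_countable (fun s => -|t - s|)
    (fun s => sg t s) (a := a) (b := b) (s := {t}) (Set.countable_singleton t)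
    (by fun_prop) ?_ ?_
  · rw [h]; ring
  · intro s hs
    have hst : s ≠ t := fun h => hs.2 (by simp [h])
    have h1 : HasDerivAt (fun s => t - s) (-1) s := by
      simpa using (hasDerivAt_id s).const_sub t
    rcases lt_or_gt_of_ne hst with h2 | h2
    · have h3 : sg t s = 1 := by unfold sg; rw [if_pos h2]
      rw [h3]
      have h4 := ((hasDerivAt_abs_pos (x := t - s) (by linarith)).comp s h1).fun_neg
      have h5 : -(1 * (-1 : ℝ)) = 1 := by norm_num
      rw [h5] at h4
      exact h4
    · have h3 : sg t s = -1 := by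
        unfold sg; rw [if_neg (by linarith), if_pos h2]
      rw [h3]
      have h4 := ((hasDerivAt_abs_neg (x := t - s) (by linarith)).comp s h1).fun_neg
      have h5 : -((-1 : ℝ) * (-1 : ℝ)) = -1 := by norm_num
      rw [h5] at h4
      exact h4
  · refine ⟨?_, ?_⟩ <;>
    · refine Measure.integrableOn_of_bounded (M := 1) (by simp) ?_ ?_
      · exact (measurable_sg.comp (measurable_const.prodMk measurable_id)).aestronglyMeasurable
      · exact Filter.Eventually.of_forall fun s => by
          rw [Real.norm_eq_abs]; exact abs_sg_le _ _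

theorem int_abs (u : ℝ) (a b : ℝ) :
    ∫ t in a..b, |t - u| = ((b - u) * |b - u| - (a - u) * |a - u|) / 2 := by
  have h := MeasureTheory.integral_eq_of_hasDerivAt_off_countable
    (fun t => (t - u) * |t - u| / 2)
    (fun t => |t - u|) (a := a) (b := b) (s := {u}) (Set.countable_singleton u)
    (by fun_prop) ?_ ?_
  · rw [h]; ring
  · intro s hs
    have hst : s ≠ u := fun h => hs.2 (by simp [h])
    have h1 : HasDerivAt (fun s => s - u) 1 s := by
      simpa using (hasDerivAt_id s).sub_const u
    rcases lt_or_gt_of_ne hst with h2 | h2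
    · have h4 := ((h1.mul ((hasDerivAt_abs_neg (x := s - u) (by linarith)).comp s h1))).div_const 2
      have h5 : (1 * ((fun x : ℝ => |x|) ∘ fun s => s - u) s + (s - u) * (-1 * 1)) / 2 = |s - u| := by
        change (1 * |s - u| + (s - u) * (-1 * 1)) / 2 = |s - u|
        rw [abs_of_neg (by linarith)]
        ring
      rw [h5] at h4
      exact h4
    · have h4 := ((h1.mul ((hasDerivAt_abs_pos (x := s - u) (by linarith)).comp s h1))).div_const 2
      have h5 : (1 * ((fun x : ℝ => |x|) ∘ fun s => s - u) s + (s - u) * (1 * 1)) / 2 = |s - u| := by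
        change (1 * |s - u| + (s - u) * (1 * 1)) / 2 = |s - u|
        rw [abs_of_pos (by linarith)]
        ring
      rw [h5] at h4
      exact h4
  · exact Continuous.intervalIntegrable (by fun_prop) _ _

theorem int_ind (f : ℝ → ℝ) {a b : ℝ} (ha : 0 ≤ a) (hb : b ≤ 1) :
    ∫ t in (0 : ℝ)..1, (Set.Ioo a b).indicator f t = if a ≤ b then ∫ t in a..b, f t else 0 := by
  rw [intervalIntegral.integral_of_le zero_le_one, setIntegral_indicator measurableSet_Ioo]
  have h1 : Set.Ioc (0 : ℝ) 1 ∩ Set.Ioo a b = Set.Ioo a b := by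
    rw [Set.inter_eq_right]
    intro t ht
    exact ⟨by linarith [ht.1], by linarith [ht.2]⟩
  rw [h1]
  split_ifs with h
  · rw [intervalIntegral.integral_of_le h, integral_Ioc_eq_integral_Ioo]
  · rw [Set.Ioo_eq_empty (by linarith), setIntegral_empty]

/-- the kernel after the first integration -/
noncomputable def K1 (t u X : ℝ) : ℝ := if u ≤ X then |t - u| - |t - X| else 0

theorem measurable_K1 : Measurable fun p : ℝ × ℝ × ℝ => K1 p.1 p.2.1 p.2.2 := by
  unfold K1
  refine Measurable.ite (measurableSet_le (by fun_prop) (by fun_prop)) (by fun_prop)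
    measurable_const

theorem abs_K1_le {t u X : ℝ} (hu : 0 ≤ u) (hX : X ≤ 1) : |K1 t u X| ≤ 1 := by
  unfold K1
  split_ifs with h
  · have h1 := abs_abs_sub_abs_le (t - u) (t - X)
    have h2 : t - u - (t - X) = X - u := by ring
    have h3 : |X - u| ≤ 1 := by rw [abs_of_nonneg (by linarith)]; linarith
    rw [h2] at h1
    exact h1.trans h3
  · simp

/-- the second integration -/
theorem int_K1 {u X v Y : ℝ} (hv : 0 ≤ v) (hY : Y ≤ 1) :
    ∫ t in (0 : ℝ)..1, (Set.Ioo v Y).indicator (fun t => K1 t u X) t =
      if u ≤ X ∧ v ≤ Y then sK u X v Y else 0 := by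
  rw [int_ind _ hv hY]
  by_cases h1 : u ≤ X
  · by_cases h2 : v ≤ Y
    · rw [if_pos h2, if_pos ⟨h1, h2⟩]
      have h3 : ∀ t : ℝ, K1 t u X = |t - u| - |t - X| := fun t => by
        unfold K1; rw [if_pos h1]
      simp only [h3]
      rw [intervalIntegral.integral_sub (Continuous.intervalIntegrable (by fun_prop) _ _)
        (Continuous.intervalIntegrable (by fun_prop) _ _), int_abs, int_abs]
      have key : ∀ s : ℝ, s * |s| = 2 * (max 0 s) ^ 2 - s ^ 2 := by
        intro s
        rcases le_total 0 s with h | h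
        · rw [max_eq_right h, abs_of_nonneg h]; ring
        · rw [max_eq_left h, abs_of_nonpos h]; ring
      have key2 : ∀ s : ℝ, (max 0 s) ^ 2 = s ^ 2 - (max 0 (-s)) ^ 2 := by
        intro s
        rcases le_total 0 s with h | h
        · rw [max_eq_right h, max_eq_left (by linarith)]; ring
        · rw [max_eq_left h, max_eq_right (by linarith)]; ring
      have e1 := key2 (Y - u)
      have e2 := key2 (Y - X)
      rw [neg_sub] at e1 e2
      rw [key, key, key, key, e1, e2]
      unfold sK
      ring
    · rw [if_neg h2, if_neg fun h => h2 h.2]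
  · have h3 : ∀ t : ℝ, K1 t u X = 0 := fun t => by
      unfold K1; rw [if_neg h1]
    simp only [h3, intervalIntegral.integral_zero, ite_self]
    rw [if_neg fun h => h1 h.1]

/-- the first integration -/
theorem int_sg_ind (t : ℝ) {u X : ℝ} (hu : 0 ≤ u) (hX : X ≤ 1) :
    ∫ s in (0 : ℝ)..1, (Set.Ioo u X).indicator (fun s => sg t s) s = K1 t u X := by
  rw [int_ind _ hu hX]
  unfold K1
  split_ifs
  · exact int_sg t u X
  · rfl

/-! ## the densities -/

theorem measurable_gL3 (c d : ℕ → ℝ) (T S : Finset ℕ) (z : ℕ) :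
    Measurable fun p : (ℝ × ℝ) × ℝ => gL c d T S z p.1.1 p.1.2 p.2 := by
  classical
  refine Measurable.ite ?_ ?_ measurable_const
  · refine MeasurableSet.inter ?_ ?_
    · exact measurableSet_lt ((measurable_snd.comp measurable_fst).max measurable_const)
        (measurable_fst.comp measurable_fst)
    · exact measurableSet_lt (measurable_fst.comp measurable_fst) measurable_snd
  · exact (measurable_W c d (T.erase z) S).comp
      ((measurable_snd.comp measurable_fst).prodMk measurable_snd)

theorem measurable_dL (c d : ℕ → ℝ) (T S : Finset ℕ) (z : ℕ) : Measurable (dL c d T S z) := by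
  have h1 : StronglyMeasurable fun p : ℝ × ℝ =>
      ∫ y, gL c d T S z p.1 p.2 y ∂(volume.restrict (Set.Ioc (0 : ℝ) 1)) :=
    (measurable_gL3 c d T S z).stronglyMeasurable.integral_prod_right'
  have h2 : StronglyMeasurable fun t : ℝ =>
      ∫ x, (∫ y, gL c d T S z t x y ∂(volume.restrict (Set.Ioc (0 : ℝ) 1)))
        ∂(volume.restrict (Set.Ioc (0 : ℝ) 1)) := h1.integral_prod_right'
  have h3 : dL c d T S z = fun t : ℝ =>
      ∫ x, (∫ y, gL c d T S z t x y ∂(volume.restrict (Set.Ioc (0 : ℝ) 1)))
        ∂(volume.restrict (Set.Ioc (0 : ℝ) 1)) := by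
    funext t
    have h4 : dL c d T S z t = ∫ x in (0 : ℝ)..1, ∫ y in (0 : ℝ)..1, gL c d T S z t x y := rfl
    rw [h4]
    simp only [intervalIntegral.integral_of_le zero_le_one]
  rw [h3]
  exact h2.measurable

theorem abs_dL_le (c d : ℕ → ℝ) (T S : Finset ℕ) (z : ℕ) (t : ℝ) : |dL c d T S z t| ≤ 1 := by
  have key : ∀ (f : ℝ → ℝ), (∀ t ∈ Set.Ioc (0 : ℝ) 1, |f t| ≤ 1) →
      |∫ t in (0 : ℝ)..1, f t| ≤ 1 := by
    intro f h
    have h1 := intervalIntegral.norm_integral_le_of_norm_le_const (a := 0) (b := 1) (C := 1)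
      (f := f) fun t ht => by
        rw [Set.uIoc_of_le zero_le_one] at ht
        exact h t ht
    simpa using h1
  exact key _ fun x hx => key _ fun y hy => abs_gL_le c d T S z t x hx y hy

/-- the potential of a leaf -/
theorem pot_dL (c d : ℕ → ℝ) (T S : Finset ℕ) (z : ℕ) {t : ℝ} (ht : t ∈ Set.Icc (0 : ℝ) 1) :
    (∫ s in (0 : ℝ)..t, dL c d T S z s) - (∫ s in t..1, dL c d T S z s) =
      ∫ x in (0 : ℝ)..1, ∫ y in (0 : ℝ)..1, W c d (T.erase z) S x y * K1 t (max x (c z)) y := by
  rw [← integral_mul_sg (intervalIntegrable_dL c d T S z) ht.1 ht.2]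
  have h1 : ∀ s : ℝ, dL c d T S z s * sg t s = (fun s => sg t s) s * dL c d T S z s :=
    fun s => mul_comm _ _
  simp only [h1]
  rw [integral_mul_dL c d T S z (f := fun s => sg t s)
    (measurable_sg.comp (measurable_const.prodMk measurable_id)) (C := 1)
    (fun s _ => abs_sg_le _ _)]
  refine intervalIntegral.integral_congr fun x hx => ?_
  refine intervalIntegral.integral_congr fun y hy => ?_
  rw [Set.uIcc_of_le zero_le_one] at hx hy
  rw [int_sg_ind t (le_max_of_le_left hx.1) hy.2]

end LeafFub

open LeafFub in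
/-- the pair functional of two leaves as a fourfold integral -/
theorem leaf_fub (c d c' d' : ℕ → ℝ) (T S T' S' : Finset ℕ) (z z' : ℕ) :
    Nf (dL c d T S z) (dL c' d' T' S' z') =
    ∫ x in (0 : ℝ)..1, ∫ y in (0 : ℝ)..1, ∫ x2 in (0 : ℝ)..1, ∫ y2 in (0 : ℝ)..1,
      W c d (T.erase z) S x y * W c' d' (T'.erase z') S' x2 y2 *
        (if max x (c z) ≤ y ∧ max x2 (c' z') ≤ y2 then
          sK (max x (c z)) y (max x2 (c' z')) y2 else 0) := by
  have h1 : Nf (dL c d T S z) (dL c' d' T' S' z') =
      ∫ t in (0 : ℝ)..1, ∫ x in (0 : ℝ)..1, ∫ y in (0 : ℝ)..1,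
        dL c' d' T' S' z' t * (W c d (T.erase z) S x y * K1 t (max x (c z)) y) := by
    unfold Nf
    refine intervalIntegral.integral_congr fun t ht => ?_
    rw [Set.uIcc_of_le zero_le_one] at ht
    rw [pot_dL c d T S z ht, ← intervalIntegral.integral_const_mul]
    refine intervalIntegral.integral_congr fun x _ => ?_
    exact (intervalIntegral.integral_const_mul _ _).symm
  have hm : Measurable fun p : (ℝ × ℝ) × ℝ => dL c' d' T' S' z' p.1.1 *
      (W c d (T.erase z) S p.1.2 p.2 * K1 p.1.1 (max p.1.2 (c z)) p.2) := by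
    refine ((measurable_dL c' d' T' S' z').comp (measurable_fst.comp measurable_fst)).mul ?_
    refine ((measurable_W c d (T.erase z) S).comp
      ((measurable_snd.comp measurable_fst).prodMk measurable_snd)).mul ?_
    exact measurable_K1.comp ((measurable_fst.comp measurable_fst).prodMk
      (((measurable_snd.comp measurable_fst).max measurable_const).prodMk measurable_snd))
  rw [h1, rot01 (F := fun t x y => dL c' d' T' S' z' t *
    (W c d (T.erase z) S x y * K1 t (max x (c z)) y)) hm (C := 1)]
  · refine intervalIntegral.integral_congr fun x hx => ?_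
    refine intervalIntegral.integral_congr fun y hy => ?_
    rw [Set.uIcc_of_le zero_le_one] at hx hy
    have h2 : ∀ t : ℝ, dL c' d' T' S' z' t * (W c d (T.erase z) S x y * K1 t (max x (c z)) y) =
        W c d (T.erase z) S x y *
          ((fun t => K1 t (max x (c z)) y) t * dL c' d' T' S' z' t) := fun t => by ring
    simp only [h2]
    rw [intervalIntegral.integral_const_mul, integral_mul_dL c' d' T' S' z'
      (f := fun t => K1 t (max x (c z)) y)
      (measurable_K1.comp (measurable_id.prodMk (measurable_const.prodMk measurable_const)))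
      (C := 1) (fun t _ => abs_K1_le (le_max_of_le_left hx.1) hy.2),
      ← intervalIntegral.integral_const_mul]
    refine intervalIntegral.integral_congr fun x2 hx2 => ?_
    change W c d (T.erase z) S x y * (∫ y2 in (0 : ℝ)..1, _) = _
    rw [← intervalIntegral.integral_const_mul]
    refine intervalIntegral.integral_congr fun y2 hy2 => ?_
    rw [Set.uIcc_of_le zero_le_one] at hx2 hy2
    change W c d (T.erase z) S x y * (W c' d' (T'.erase z') S' x2 y2 * _) = _
    rw [int_K1 (le_max_of_le_left hx2.1) hy2.2]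
    ring
  · intro t _ x hx y hy
    rw [abs_mul, abs_mul]
    have h3 := abs_dL_le c' d' T' S' z' t
    have h4 := abs_W_le c d (T.erase z) S x hx y hy
    have h5 := abs_K1_le (t := t) (u := max x (c z)) (X := y) (le_max_of_le_left hx.1.le) hy.2
    calc _ ≤ 1 * (1 * 1) := mul_le_mul h3 (mul_le_mul h4 h5 (abs_nonneg _) zero_le_one)
          (by positivity) zero_le_one
      _ = 1 := by norm_num

end Pool.Agent.T1K
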