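import Pool.Agent.T1K.F1
import Pool.Agent.T1K.Refl

/-!
# Exchange of the two species in the mixed term of a pair of leaves
-/

set_option autoImplicit false

open Finset MeasureTheory

namespace Pool.Agent.T1K

/-! ## Coefficients of powers of linear polynomials -/

lemma coeff_lin_pow (al be : ℝ) (hal : |al| ≤ 1) (k : ℕ) : ∀ p : ℕ,
    |((Polynomial.C al + Polynomial.C be * Polynomial.X) ^ k).coeff p| ≤ (k * |be|) ^ p := by
  induction k with
  | zero =>
    intro p
    rw [pow_zero, Polynomial.coeff_one]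
    by_cases hp : p = 0
    · subst hp; simp
    · rw [if_neg hp, abs_zero]
      positivity
  | succ k ih =>
    intro p
    have hb := abs_nonneg be
    rw [pow_succ, mul_add, Polynomial.coeff_add, Polynomial.coeff_mul_C]
    cases p with
    | zero =>
      have h1 : ((Polynomial.C al + Polynomial.C be * Polynomial.X) ^ k *
          (Polynomial.C be * Polynomial.X)).coeff 0 = 0 := by
        rw [← mul_assoc, Polynomial.coeff_mul_X_zero]
      rw [h1, add_zero, pow_zero, abs_mul]
      have h2 := ih 0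
      rw [pow_zero] at h2
      calc _ ≤ 1 * 1 := mul_le_mul h2 hal (abs_nonneg _) zero_le_one
        _ = 1 := one_mul 1
    | succ p =>
      have h1 : ((Polynomial.C al + Polynomial.C be * Polynomial.X) ^ k *
          (Polynomial.C be * Polynomial.X)).coeff (p + 1)
          = ((Polynomial.C al + Polynomial.C be * Polynomial.X) ^ k).coeff p * be := by
        rw [← mul_assoc, Polynomial.coeff_mul_X, Polynomial.coeff_mul_C]
      rw [h1]
      have h2 := ih (p + 1)
      have h3 := ih p
      have h4 : |((Polynomial.C al + Polynomial.C be * Polynomial.X) ^ k).coeff (p + 1) * al|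
          ≤ (k * |be|) ^ (p + 1) := by
        rw [abs_mul]
        calc _ ≤ (k * |be|) ^ (p + 1) * 1 := mul_le_mul h2 hal (abs_nonneg _) (by positivity)
          _ = _ := mul_one _
      have h5 : |((Polynomial.C al + Polynomial.C be * Polynomial.X) ^ k).coeff p * be|
          ≤ (k * |be|) ^ p * |be| := by
        rw [abs_mul]
        exact mul_le_mul_of_nonneg_right h3 hb
      refine (abs_add_le _ _).trans ((add_le_add h4 h5).trans ?_)
      have h6 : ((k : ℝ) * |be|) ^ p ≤ ((k + 1 : ℕ) * |be|) ^ p := by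
        apply pow_le_pow_left₀ (by positivity)
        push_cast
        nlinarith
      calc ((k : ℝ) * |be|) ^ (p + 1) + (k * |be|) ^ p * |be|
          = (k * |be|) ^ p * ((k + 1 : ℕ) * |be|) := by push_cast; ring
        _ ≤ ((k + 1 : ℕ) * |be|) ^ p * ((k + 1 : ℕ) * |be|) :=
          mul_le_mul_of_nonneg_right h6 (by positivity)
        _ = _ := (pow_succ _ _).symm

/-- powers of `b - x` are polynomial weights -/
lemma PW_pow {a h : ℝ} {M k : ℕ} {b : ℝ} (hh : 0 < h) (ha : 0 < a) (hb : a + h * M ≤ b)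
    (hb1 : b ≤ 1) : PW a h M (h * k) (fun x => max 0 (b - x) ^ k) := by
  have hM : 0 ≤ h * M := by positivity
  refine ⟨(Polynomial.C (b - a) + Polynomial.C (-h) * Polynomial.X) ^ k, ?_, ?_⟩
  · intro u hu0 hu1
    have h1 : h * u ≤ h * M := mul_le_mul_of_nonneg_left hu1 hh.le
    show max 0 (b - (a + h * u)) ^ k = _
    rw [max_eq_right (by linarith)]
    simp only [Polynomial.eval_pow, Polynomial.eval_add, Polynomial.eval_C, Polynomial.eval_mul,
      Polynomial.eval_X]
    congr 1
    ring
  · intro p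
    have h1 := coeff_lin_pow (b - a) (-h) (by rw [abs_of_nonneg (by linarith)]; linarith) k p
    rw [abs_neg, abs_of_pos hh, mul_comm (k : ℝ) h] at h1
    exact h1

/-! ## One-dimensional comparison -/

section

variable {R M K : ℕ} {T T' : Finset ℕ} {a h eta : ℝ}

lemma Std.hM_le (st : Std a h eta K M) : h * M ≤ eta := by
  have h0 := st.h0
  have hK : (1 : ℝ) ≤ K := by
    have := st.K9
    exact_mod_cast (by omega : 1 ≤ K)
  have h1 : 0 ≤ h * M := by positivity
  rw [← st.etaEq]
  nlinarith

lemma Std.card_le (st : Std a h eta K M) {k : ℕ} (hk : k ≤ K) : h * k * M ≤ eta := by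
  have h0 := st.h0
  have hk' : (k : ℝ) ≤ K := by exact_mod_cast hk
  have h1 : h * k * M ≤ h * K * M := by
    apply mul_le_mul_of_nonneg_right _ (Nat.cast_nonneg M)
    exact mul_le_mul_of_nonneg_left hk' h0.le
  have h2 : 0 ≤ h * K * M := by positivity
  rw [← st.etaEq]
  nlinarith

lemma Std.eta0 (st : Std a h eta K M) : 0 < eta := by
  have h0 := st.h0
  have hK : (1 : ℝ) ≤ K := by
    have := st.K9
    exact_mod_cast (by omega : 1 ≤ K)
  have hM : (1 : ℝ) ≤ M := by exact_mod_cast st.M1
  rw [← st.etaEq]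
  positivity

lemma Std.a_le (st : Std a h eta K M) : a ≤ 1 / 450 := by
  have hK : (9 : ℝ) ≤ K := by exact_mod_cast st.K9
  have := st.aK
  have := st.a0
  nlinarith

/-- the end of the coded region is far from the middle -/
lemma Std.beta_le (st : Std a h eta K M) : a + h * M ≤ 1 / 4 := by
  have h1 := st.a_le
  have h2 := st.hMa
  have h3 := st.a0
  linarith

lemma Phi_small8 (st : Std a h eta K M) (hT8 : 8 ≤ T.card) {x y : ℝ} (hx : 0 ≤ x)
    (hy : y ≤ a + h * M) : Phi (fun z => a + h * z) T x y ≤ (h * M) ^ 8 := by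
  refine (Phi_small st.a0 st.h0 rfl hx hy).trans ?_
  have h0 := st.h0
  exact pow_le_pow_of_le_one (by positivity) (st.hM_le.trans (st.small.trans (by norm_num))) hT8

/-- the weight is small if the upper centre is in the coded region -/
theorem leaf_small {S : Finset ℕ} (st : Std a h eta K M) (hT8 : 8 ≤ T.card) {x y : ℝ}
    (hx : 0 ≤ x) (hy : y ≤ a + h * M) :
    W (fun z => a + h * z) (fun z => a + h * z) T S x y ≤ (h * M) ^ 8 := by
  have hb := st.beta_le
  have h1 := Phi_small8 (T := T) st hT8 hx hy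
  have h2 : Phi (fun z => a + h * z) S (1 - y) (1 - x) ≤ 1 := Phi_le_one (by linarith)
  have h0 := st.h0
  calc W (fun z => a + h * z) (fun z => a + h * z) T S x y ≤ (h * M) ^ 8 * 1 :=
        mul_le_mul h1 h2 (Phi_nonneg _ _ _ _) (by positivity)
    _ = _ := mul_one _

/-- the weight is small if the lower centre is in the upper coded region -/
theorem leaf_small' {S : Finset ℕ} (st : Std a h eta K M) (hS8 : 8 ≤ S.card) {x y : ℝ}
    (hy : y ≤ 1) (hx : 1 - (a + h * M) ≤ x) :
    W (fun z => a + h * z) (fun z => a + h * z) T S x y ≤ (h * M) ^ 8 := by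
  have h1 := W_refl (fun z => a + h * z) (fun z => a + h * z) S T x y
  rw [← h1]
  exact leaf_small st hS8 (by linarith) (by linarith)

/-- comparison of the integrals with the weights `(b - x)_+ ^ k` -/
lemma one_dim (st : Std a h eta K M) (hT : Sim 11 R M T T') (hTK : T.card ≤ K)
    (hT8 : 8 ≤ T.card) {k : ℕ} (hk : k ≤ K) {b : ℝ} (hb1 : b ≤ 1) :
    |∫ x in (0 : ℝ)..1, (Phi (fun z => a + h * z) T x b - Phi (fun z => a + h * z) T' x b)
      * max 0 (b - x) ^ k| ≤ 18 * eta ^ 7 := by
  have h0 := st.h0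
  have ha := st.a0
  have hM0 : 0 ≤ h * M := by positivity
  have hbeta := st.beta_le
  have heta0 := st.eta0
  have hsm := st.small
  have hcard : T.card = T'.card := sim_card (by norm_num) hT
  have hwt : ∀ x ∈ Set.Icc (0 : ℝ) 1, 0 ≤ max 0 (b - x) ^ k ∧ max 0 (b - x) ^ k ≤ 1 := by
    intro x hx
    have h1 : (0 : ℝ) ≤ max 0 (b - x) := le_max_left _ _
    refine ⟨by positivity, pow_le_one₀ h1 (max_le zero_le_one (by linarith [hx.1]))⟩
  have e87 : eta ^ 8 ≤ eta ^ 7 := pow_le_pow_of_le_one heta0.le (by linarith) (by norm_num)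
  have e117 : eta ^ 11 ≤ eta ^ 7 := pow_le_pow_of_le_one heta0.le (by linarith) (by norm_num)
  have hM8 : (h * M) ^ 8 ≤ eta ^ 7 := (pow_le_pow_left₀ hM0 st.hM_le 8).trans e87
  by_cases hb : b ≤ a + h * M
  · -- the upper end is in the coded region
    have hbd : ∀ x ∈ Set.uIoc (0 : ℝ) 1,
        ‖(Phi (fun z => a + h * z) T x b - Phi (fun z => a + h * z) T' x b)
          * max 0 (b - x) ^ k‖ ≤ eta ^ 7 := by
      intro x hx
      rw [Set.uIoc_of_le zero_le_one] at hx
      have h1 := Phi_small8 (T := T) st hT8 hx.1.le hb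
      have h2 := Phi_small8 (T := T') st (hcard ▸ hT8) hx.1.le hb
      have h3 := Phi_nonneg (fun z => a + h * z) T x b
      have h4 := Phi_nonneg (fun z => a + h * z) T' x b
      have h5 := hwt x ⟨hx.1.le, hx.2⟩
      rw [Real.norm_eq_abs, abs_mul, abs_of_nonneg h5.1]
      have h6 : |Phi (fun z => a + h * z) T x b - Phi (fun z => a + h * z) T' x b| ≤ eta ^ 7 := by
        rw [abs_le]
        constructor <;> linarith
      calc _ ≤ eta ^ 7 * 1 := mul_le_mul h6 h5.2 h5.1 (by positivity)
        _ = _ := mul_one _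
    have h7 := intervalIntegral.norm_integral_le_of_norm_le_const hbd
    rw [Real.norm_eq_abs, sub_zero, abs_one, mul_one] at h7
    exact h7.trans (by nlinarith [pow_pos heta0 7])
  · push Not at hb
    set f : ℝ → ℝ := fun x => (Phi (fun z => a + h * z) T x b - Phi (fun z => a + h * z) T' x b)
      * max 0 (b - x) ^ k with hf
    have hfc : Continuous f := by
      have hc1 : Continuous fun x : ℝ => Phi (fun z => a + h * z) T x b :=
        (continuous_Phi (fun z => a + h * z) T).comp (continuous_id.prodMk continuous_const)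
      have hc2 : Continuous fun x : ℝ => Phi (fun z => a + h * z) T' x b :=
        (continuous_Phi (fun z => a + h * z) T').comp (continuous_id.prodMk continuous_const)
      exact (hc1.sub hc2).mul ((continuous_const.max (continuous_const.sub continuous_id)).pow k)
    have hint : ∀ u v : ℝ, IntervalIntegrable f volume u v := fun u v =>
      hfc.intervalIntegrable u v
    have hsplit : ∫ x in (0 : ℝ)..1, f x = (∫ x in (0 : ℝ)..a, f x)
        + (∫ x in a..(a + h * M), f x) + ∫ x in (a + h * M)..1, f x := by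
      rw [intervalIntegral.integral_add_adjacent_intervals (hint _ _) (hint _ _),
        intervalIntegral.integral_add_adjacent_intervals (hint _ _) (hint _ _)]
    have hc16 : h * T.card * M ≤ 1 / 16 := (st.card_le hTK).trans (hsm.trans (by norm_num))
    -- the left part
    have p1 : |∫ x in (0 : ℝ)..a, f x| ≤ eta ^ 7 := by
      have hbd : ∀ x ∈ Set.uIoc (0 : ℝ) a, ‖f x‖ ≤ 4 * eta ^ 11 := by
        intro x hx
        rw [Set.uIoc_of_le ha.le] at hx
        have h1 := F1_left hT rfl ha h0 hc16 hx.1.le hx.2 hb.le hb1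
        have h5 := hwt x ⟨hx.1.le, by linarith [hx.2]⟩
        have h2 : (h * T.card * M) ^ 11 ≤ eta ^ 11 :=
          pow_le_pow_left₀ (by positivity) (st.card_le hTK) 11
        rw [Real.norm_eq_abs, hf]
        simp only
        rw [abs_mul, abs_of_nonneg h5.1]
        calc _ ≤ (4 * eta ^ 11) * 1 :=
              mul_le_mul (h1.trans (by linarith)) h5.2 h5.1 (by positivity)
          _ = _ := mul_one _
      have h7 := intervalIntegral.norm_integral_le_of_norm_le_const hbd
      rw [Real.norm_eq_abs, sub_zero, abs_of_pos ha] at h7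
      refine h7.trans ?_
      have h8 := st.a_le
      have h9 : 0 < eta ^ 11 := pow_pos heta0 11
      nlinarith
    -- the coded region
    have p2 : |∫ x in a..(a + h * M), f x| ≤ 16 * eta ^ 7 := by
      have hcut : Cut 11 R T T' 0 := Or.inl rfl
      have h1 := F1_up hT rfl (by omega) hcut (Nat.zero_le M) ha h0 (st.card_le hTK)
        (lam := h * k) (st.card_le hk) (by positivity) (hsm.trans (by norm_num)) hb.le hb1
        (PW_pow h0 ha hb.le hb1 (k := k))
      rw [Nat.cast_zero, mul_zero, add_zero] at h1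
      exact h1
    -- the right part
    have p3 : ∫ x in (a + h * M)..1, f x = 0 := by
      have h1 : ∀ x ∈ Set.uIcc (a + h * M) 1, f x = (fun _ => (0 : ℝ)) x := by
        intro x hx
        rw [Set.uIcc_of_le (by linarith)] at hx
        rw [hf]
        simp only
        rw [Phi_right h0 hcard hT.le hT.le' hx.1, sub_self, zero_mul]
      rw [intervalIntegral.integral_congr h1]
      simp
    rw [hsplit, p3, add_zero]
    refine (abs_add_le _ _).trans ?_
    have h9 : 0 < eta ^ 7 := pow_pos heta0 7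
    linarith

/-! ## Integrals over one of the centres -/

/-- products at a point above all lower ticks -/
lemma Phi_above (T : Finset ℕ) (hT : ∀ z ∈ T, z ≤ M) (h0 : 0 < h) {x y : ℝ}
    (hx : a + h * M ≤ x) : Phi (fun z => a + h * z) T x y = max 0 (y - x) ^ T.card := by
  unfold Phi
  rw [← Finset.prod_const]
  refine Finset.prod_congr rfl fun z hz => ?_
  have h1 : a + h * z ≤ x := by
    have : (z : ℝ) ≤ M := by exact_mod_cast hT z hz
    have := mul_le_mul_of_nonneg_left this h0.le
    linarith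
  rw [max_eq_left h1]

variable {S S' : Finset ℕ}

/-- fixed lower centre above the coded region -/
lemma int_y (st : Std a h eta K M) (hT : Sim 11 R M T T') (hS : Sim 11 R M S S')
    (hTK : T.card ≤ K) (hSK : S.card ≤ K) (hS8 : 8 ≤ S.card) {x : ℝ}
    (hx : a + h * M ≤ x) :
    |∫ y in (0 : ℝ)..1, (W (fun z => a + h * z) (fun z => a + h * z) T S x y
      - W (fun z => a + h * z) (fun z => a + h * z) T' S' x y)| ≤ 18 * eta ^ 7 := by
  have hcard : T.card = T'.card := sim_card (by norm_num) hT
  have h0 := st.h0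
  have ha := st.a0
  have hx0 : 0 < x := by
    have : 0 ≤ h * M := by positivity
    linarith
  have h1 := one_dim st hS hSK hS8 hTK (b := 1 - x) (by linarith)
  have h2 := intervalIntegral.integral_comp_sub_left (a := 0) (b := 1)
    (fun t => (Phi (fun z => a + h * z) S t (1 - x) - Phi (fun z => a + h * z) S' t (1 - x))
      * max 0 (1 - x - t) ^ T.card) 1
  rw [sub_self, sub_zero] at h2
  rw [← h2] at h1
  have h3 : ∀ y : ℝ, W (fun z => a + h * z) (fun z => a + h * z) T S x y
      - W (fun z => a + h * z) (fun z => a + h * z) T' S' x y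
      = (Phi (fun z => a + h * z) S (1 - y) (1 - x) - Phi (fun z => a + h * z) S' (1 - y) (1 - x))
        * max 0 (1 - x - (1 - y)) ^ T.card := by
    intro y
    rw [W, W, Phi_above T hT.le h0 hx, Phi_above T' hT.le' h0 hx, ← hcard]
    have : 1 - x - (1 - y) = y - x := by ring
    rw [this]
    ring
  simp only [h3]
  exact h1

/-- fixed upper centre below the upper coded region -/
lemma int_x (st : Std a h eta K M) (hT : Sim 11 R M T T') (hS : Sim 11 R M S S')
    (hTK : T.card ≤ K) (hSK : S.card ≤ K) (hT8 : 8 ≤ T.card) {y : ℝ}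
    (hy : y ≤ 1 - (a + h * M)) :
    |∫ x in (0 : ℝ)..1, (W (fun z => a + h * z) (fun z => a + h * z) T S x y
      - W (fun z => a + h * z) (fun z => a + h * z) T' S' x y)| ≤ 18 * eta ^ 7 := by
  have hcard : S.card = S'.card := sim_card (by norm_num) hS
  have h0 := st.h0
  have ha := st.a0
  have hM0 : 0 ≤ h * M := by positivity
  have h1 := one_dim st hT hTK hT8 hSK (b := y) (by linarith)
  have h3 : ∀ x : ℝ, W (fun z => a + h * z) (fun z => a + h * z) T S x y
      - W (fun z => a + h * z) (fun z => a + h * z) T' S' x y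
      = (Phi (fun z => a + h * z) T x y - Phi (fun z => a + h * z) T' x y)
        * max 0 (y - x) ^ S.card := by
    intro x
    have hy' : a + h * M ≤ 1 - y := by linarith
    rw [W, W, Phi_above S hS.le h0 hy', Phi_above S' hS.le' h0 hy', ← hcard]
    have : 1 - x - (1 - y) = y - x := by ring
    rw [this]
    ring
  simp only [h3]
  exact h1

end

/-! ## Four-fold integrals -/

/-- iterated integrals over the square of the square -/
lemma iter4 {F : ℝ × ℝ → ℝ × ℝ → ℝ} (hF : Continuous (Function.uncurry F)) :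
    ∫ x in (0 : ℝ)..1, ∫ y in (0 : ℝ)..1, ∫ x2 in (0 : ℝ)..1, ∫ y2 in (0 : ℝ)..1,
      F (x, y) (x2, y2) = ∫ p in sq01, ∫ q in sq01, F p q := by
  have hc : ∀ p, Continuous (F p) := fun p => hF.comp (continuous_const.prodMk continuous_id)
  have hcomp : IsCompact sq01 := isCompact_Icc.prod isCompact_Icc
  have h1 : ∀ p, ∫ x2 in (0 : ℝ)..1, ∫ y2 in (0 : ℝ)..1, F p (x2, y2) = ∫ q in sq01, F p q :=
    fun p => iter_eq_prod ((hc p).continuousOn.integrableOn_compact hcomp)
  simp only [h1]
  have h2 : Continuous fun p => ∫ q in sq01, F p q :=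
    continuous_parametric_integral_of_continuous hF hcomp
  exact iter_eq_prod (h2.continuousOn.integrableOn_compact hcomp)

lemma int_sq_le {f : ℝ × ℝ → ℝ} {C : ℝ} (hf : ∀ p ∈ sq01, |f p| ≤ C) :
    |∫ p in sq01, f p| ≤ C := by
  have h1 := norm_setIntegral_le_of_norm_le_const (μ := volume) (s := sq01) (f := f) (C := C)
    (by
      have h2 := vol_sq01
      rw [Measure.restrict_apply_univ] at h2
      rw [h2]
      exact ENNReal.one_lt_top) (fun p hp => hf p hp)
  have h2 := vol_sq01
  rw [Measure.restrict_apply_univ] at h2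
  rw [Measure.real, h2, ENNReal.toReal_one, mul_one, Real.norm_eq_abs] at h1
  exact h1

/-- the exchange of the two species -/
theorem leaf_ext {R M K : ℕ} {T T' S S' : Finset ℕ} {a h eta : ℝ} (st : Std a h eta K M)
    (hT : Sim 11 R M T T') (hS : Sim 11 R M S S') (hTK : T.card ≤ K) (hSK : S.card ≤ K)
    (hT8 : 8 ≤ T.card) (hS8 : 8 ≤ S.card) {z0 : ℕ} (_hz : Cut 11 R T T' z0) (hzM : z0 ≤ M) :
    |∫ x in (0 : ℝ)..1, ∫ y in (0 : ℝ)..1, ∫ x2 in (0 : ℝ)..1, ∫ y2 in (0 : ℝ)..1,
      W (fun z => a + h * z) (fun z => a + h * z) T S x y *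
        W (fun z => a + h * z) (fun z => a + h * z) T' S' x2 y2 *
        ((max 0 (max x2 (a + h * z0) - y)) ^ 2 - (max 0 (max x (a + h * z0) - y2)) ^ 2)|
      ≤ 200 * eta ^ 7 := by
  have h0 := st.h0
  have ha := st.a0
  have hM0 : 0 ≤ h * M := by positivity
  have hbeta := st.beta_le
  have heta0 := st.eta0
  have hsm := st.small
  have hal : a + h * z0 ≤ a + h * M := by
    have : (z0 : ℝ) ≤ M := by exact_mod_cast hzM
    have := mul_le_mul_of_nonneg_left this h0.le
    linarith
  have hal0 : 0 ≤ a + h * z0 := by positivity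
  set al : ℝ := a + h * z0 with hal_def
  set W1 : ℝ → ℝ → ℝ := W (fun z => a + h * z) (fun z => a + h * z) T S with hW1
  set W2 : ℝ → ℝ → ℝ := W (fun z => a + h * z) (fun z => a + h * z) T' S' with hW2
  have cW1 : Continuous fun p : ℝ × ℝ => W1 p.1 p.2 := continuous_W _ _ _ _
  have cW2 : Continuous fun p : ℝ × ℝ => W2 p.1 p.2 := continuous_W _ _ _ _
  set k : ℝ → ℝ → ℝ := fun u v => (max 0 (max u al - v)) ^ 2 with hk
  have ck : Continuous fun p : ℝ × ℝ => k p.1 p.2 := by
    rw [hk]
    exact ((continuous_const.max ((continuous_fst.max continuous_const).sub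
      continuous_snd)).pow 2)
  have hk01 : ∀ u v : ℝ, u ≤ 1 → 0 ≤ v → 0 ≤ k u v ∧ k u v ≤ 1 := by
    intro u v hu hv
    have h1 : (0 : ℝ) ≤ max 0 (max u al - v) := le_max_left _ _
    have h2 : max u al ≤ 1 := max_le hu (by linarith)
    exact ⟨sq_nonneg _, pow_le_one₀ h1 (max_le zero_le_one (by linarith))⟩
  have hk0 : ∀ u v : ℝ, max u al ≤ v → k u v = 0 := by
    intro u v huv
    rw [hk]
    simp only
    rw [max_eq_left (by linarith)]
    norm_num
  -- the square
  have memsq : ∀ p : ℝ × ℝ, p ∈ sq01 → 0 ≤ p.1 ∧ p.1 ≤ 1 ∧ 0 ≤ p.2 ∧ p.2 ≤ 1 := by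
    intro p hp
    obtain ⟨⟨h1, h2⟩, h3, h4⟩ := hp
    exact ⟨h1, h2, h3, h4⟩
  have w1 : ∀ p ∈ sq01, 0 ≤ W1 p.1 p.2 ∧ W1 p.1 p.2 ≤ 1 := fun p hp =>
    ⟨W_nonneg _ _ _ _ _ _, W_le_one_sq hp⟩
  have w2 : ∀ p ∈ sq01, 0 ≤ W2 p.1 p.2 ∧ W2 p.1 p.2 ≤ 1 := fun p hp =>
    ⟨W_nonneg _ _ _ _ _ _, W_le_one_sq hp⟩
  have hcomp : IsCompact sq01 := isCompact_Icc.prod isCompact_Icc
  -- the three kernels
  set F12 : ℝ × ℝ → ℝ × ℝ → ℝ := fun p q => W1 p.1 p.2 * W2 q.1 q.2 * (k q.1 p.2 - k p.1 q.2)
    with hF12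
  set F11 : ℝ × ℝ → ℝ × ℝ → ℝ := fun p q => W1 p.1 p.2 * W1 q.1 q.2 * (k q.1 p.2 - k p.1 q.2)
    with hF11
  have cp1 : Continuous fun z : (ℝ × ℝ) × (ℝ × ℝ) => W1 z.1.1 z.1.2 := cW1.comp continuous_fst
  have cp2 : Continuous fun z : (ℝ × ℝ) × (ℝ × ℝ) => W2 z.2.1 z.2.2 := cW2.comp continuous_snd
  have cp3 : Continuous fun z : (ℝ × ℝ) × (ℝ × ℝ) => W1 z.2.1 z.2.2 := cW1.comp continuous_snd
  have ck1 : Continuous fun z : (ℝ × ℝ) × (ℝ × ℝ) => k z.2.1 z.1.2 :=
    ck.comp ((continuous_fst.comp continuous_snd).prodMk (continuous_snd.comp continuous_fst))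
  have ck2 : Continuous fun z : (ℝ × ℝ) × (ℝ × ℝ) => k z.1.1 z.2.2 :=
    ck.comp ((continuous_fst.comp continuous_fst).prodMk (continuous_snd.comp continuous_snd))
  have cF12 : Continuous (Function.uncurry F12) := (cp1.mul cp2).mul (ck1.sub ck2)
  have cF11 : Continuous (Function.uncurry F11) := (cp1.mul cp3).mul (ck1.sub ck2)
  have hμ : ∀ G : ℝ × ℝ → ℝ × ℝ → ℝ, Continuous (Function.uncurry G) →
      Integrable (Function.uncurry G) ((volume.restrict sq01).prod (volume.restrict sq01)) := by
    intro G hG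
    rw [Measure.prod_restrict]
    exact hG.continuousOn.integrableOn_compact (hcomp.prod hcomp)
  -- antisymmetry
  have z11 : ∫ p in sq01, ∫ q in sq01, F11 p q = 0 := by
    have h1 := integral_integral_swap (f := F11) (hμ F11 cF11)
    have h2 : ∀ q p : ℝ × ℝ, F11 p q = - F11 q p := by
      intro q p
      rw [hF11]
      simp only
      ring
    have h3 : ∫ q in sq01, ∫ p in sq01, F11 p q = - ∫ q in sq01, ∫ p in sq01, F11 q p := by
      rw [← integral_neg]
      refine integral_congr_ae (Filter.Eventually.of_forall fun q => ?_)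
      simp only
      rw [← integral_neg]
      exact integral_congr_ae (Filter.Eventually.of_forall fun p => h2 q p)
    rw [h3] at h1
    linarith
  -- the differences
  set P : ℝ × ℝ → ℝ := fun p => ∫ q in sq01, (W2 q.1 q.2 - W1 q.1 q.2) * k q.1 p.2 with hP
  set Q : ℝ × ℝ → ℝ := fun p => ∫ q in sq01, (W2 q.1 q.2 - W1 q.1 q.2) * k p.1 q.2 with hQ
  have iP : ∀ p : ℝ × ℝ, IntegrableOn (fun q : ℝ × ℝ => (W2 q.1 q.2 - W1 q.1 q.2) * k q.1 p.2)
      sq01 := by
    intro p
    have hc : Continuous (fun q : ℝ × ℝ => (W2 q.1 q.2 - W1 q.1 q.2) * k q.1 p.2) :=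
      (cW2.sub cW1).mul (ck.comp (continuous_fst.prodMk continuous_const))
    exact hc.continuousOn.integrableOn_compact hcomp
  have iQ : ∀ p : ℝ × ℝ, IntegrableOn (fun q : ℝ × ℝ => (W2 q.1 q.2 - W1 q.1 q.2) * k p.1 q.2)
      sq01 := by
    intro p
    have hc : Continuous (fun q : ℝ × ℝ => (W2 q.1 q.2 - W1 q.1 q.2) * k p.1 q.2) :=
      (cW2.sub cW1).mul (ck.comp (continuous_const.prodMk continuous_snd))
    exact hc.continuousOn.integrableOn_compact hcomp
  have e87 : eta ^ 8 ≤ eta ^ 7 := pow_le_pow_of_le_one heta0.le (by linarith) (by norm_num)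
  have hM8 : (h * M) ^ 8 ≤ eta ^ 7 := (pow_le_pow_left₀ hM0 st.hM_le 8).trans e87
  have p7 : 0 < eta ^ 7 := pow_pos heta0 7
  have hdiff : ∀ q ∈ sq01, |W2 q.1 q.2 - W1 q.1 q.2| ≤ 1 := by
    intro q hq
    have h1 := w1 q hq
    have h2 := w2 q hq
    rw [abs_le]
    constructor <;> linarith
  -- bound of the first difference
  have bP : ∀ p ∈ sq01, |W1 p.1 p.2 * P p| ≤ 19 * eta ^ 7 := by
    intro p hp
    obtain ⟨hx0, hx1, hy0, hy1⟩ := memsq p hp
    have hw := w1 p hp
    rw [abs_mul, abs_of_nonneg hw.1]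
    by_cases hy : p.2 ≤ a + h * M
    · have h1 : W1 p.1 p.2 ≤ (h * M) ^ 8 := leaf_small st hT8 hx0 hy
      have h2 : |P p| ≤ 1 := by
        refine int_sq_le fun q hq => ?_
        obtain ⟨hq0, hq1, hq2, hq3⟩ := memsq q hq
        have h3 := hk01 q.1 p.2 hq1 hy0
        rw [abs_mul, abs_of_nonneg h3.1]
        exact mul_le_one₀ (hdiff q hq) h3.1 h3.2
      calc W1 p.1 p.2 * |P p| ≤ (h * M) ^ 8 * 1 :=
            mul_le_mul h1 h2 (abs_nonneg _) (by positivity)
        _ ≤ 19 * eta ^ 7 := by linarith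
    · push Not at hy
      have h2 : |P p| ≤ 18 * eta ^ 7 := by
        rw [hP]
        simp only
        rw [← iter_eq_prod (iP p)]
        have hbd : ∀ x2 ∈ Set.uIoc (0 : ℝ) 1, ‖∫ y2 in (0 : ℝ)..1,
            (W2 (x2, y2).1 (x2, y2).2 - W1 (x2, y2).1 (x2, y2).2) * k (x2, y2).1 p.2‖
            ≤ 18 * eta ^ 7 := by
          intro x2 hx2
          rw [Set.uIoc_of_le zero_le_one] at hx2
          simp only
          rw [intervalIntegral.integral_mul_const, Real.norm_eq_abs, abs_mul]
          by_cases hx : x2 ≤ a + h * M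
          · rw [hk0 x2 p.2 (max_le (by linarith) (by linarith)), abs_zero, mul_zero]
            positivity
          · push Not at hx
            have h3 := int_y st hT hS hTK hSK hS8 hx.le
            have h4 : |∫ y2 in (0 : ℝ)..1, (W2 x2 y2 - W1 x2 y2)| ≤ 18 * eta ^ 7 := by
              rw [← abs_neg, ← intervalIntegral.integral_neg]
              simp only [neg_sub]
              exact h3
            have h5 := hk01 x2 p.2 hx2.2 hy0
            rw [abs_of_nonneg h5.1]
            calc _ ≤ 18 * eta ^ 7 * 1 := mul_le_mul h4 h5.2 h5.1 (by positivity)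
              _ = _ := mul_one _
        have h7 := intervalIntegral.norm_integral_le_of_norm_le_const hbd
        rw [Real.norm_eq_abs, sub_zero, abs_one, mul_one] at h7
        exact h7
      calc W1 p.1 p.2 * |P p| ≤ 1 * (18 * eta ^ 7) :=
            mul_le_mul hw.2 h2 (abs_nonneg _) zero_le_one
        _ ≤ 19 * eta ^ 7 := by linarith
  -- bound of the second difference
  have bQ : ∀ p ∈ sq01, |W1 p.1 p.2 * Q p| ≤ 19 * eta ^ 7 := by
    intro p hp
    obtain ⟨hx0, hx1, hy0, hy1⟩ := memsq p hp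
    have hw := w1 p hp
    rw [abs_mul, abs_of_nonneg hw.1]
    by_cases hx : 1 - (a + h * M) ≤ p.1
    · have h1 : W1 p.1 p.2 ≤ (h * M) ^ 8 := leaf_small' st hS8 hy1 hx
      have h2 : |Q p| ≤ 1 := by
        refine int_sq_le fun q hq => ?_
        obtain ⟨hq0, hq1, hq2, hq3⟩ := memsq q hq
        have h3 := hk01 p.1 q.2 hx1 hq2
        rw [abs_mul, abs_of_nonneg h3.1]
        exact mul_le_one₀ (hdiff q hq) h3.1 h3.2
      calc W1 p.1 p.2 * |Q p| ≤ (h * M) ^ 8 * 1 :=
            mul_le_mul h1 h2 (abs_nonneg _) (by positivity)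
        _ ≤ 19 * eta ^ 7 := by linarith
    · push Not at hx
      have h2 : |Q p| ≤ 18 * eta ^ 7 := by
        rw [hQ]
        simp only
        rw [← iter_eq_prod (iQ p)]
        have hsw := swap01 (f := fun x2 y2 => (W2 x2 y2 - W1 x2 y2) * k p.1 y2) (C := 1)
          (by
            have hc : Continuous (Function.uncurry fun x2 y2 => (W2 x2 y2 - W1 x2 y2) * k p.1 y2) :=
              (cW2.sub cW1).mul (ck.comp (continuous_const.prodMk continuous_snd))
            exact hc.measurable)
          (by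
            intro x2 hx2 y2 hy2
            have hq : ((x2, y2) : ℝ × ℝ) ∈ sq01 := ⟨⟨hx2.1.le, hx2.2⟩, hy2.1.le, hy2.2⟩
            have h3 := hk01 p.1 y2 hx1 hy2.1.le
            rw [abs_mul, abs_of_nonneg h3.1]
            exact mul_le_one₀ (hdiff _ hq) h3.1 h3.2)
        simp only at hsw ⊢
        rw [hsw]
        have hbd : ∀ y2 ∈ Set.uIoc (0 : ℝ) 1, ‖∫ x2 in (0 : ℝ)..1,
            (W2 x2 y2 - W1 x2 y2) * k p.1 y2‖ ≤ 18 * eta ^ 7 := by
          intro y2 hy2
          rw [Set.uIoc_of_le zero_le_one] at hy2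
          rw [intervalIntegral.integral_mul_const, Real.norm_eq_abs, abs_mul]
          by_cases hy : 1 - (a + h * M) ≤ y2
          · rw [hk0 p.1 y2 (max_le (by linarith) (by linarith)), abs_zero, mul_zero]
            positivity
          · push Not at hy
            have h3 := int_x st hT hS hTK hSK hT8 hy.le
            have h4 : |∫ x2 in (0 : ℝ)..1, (W2 x2 y2 - W1 x2 y2)| ≤ 18 * eta ^ 7 := by
              rw [← abs_neg, ← intervalIntegral.integral_neg]
              simp only [neg_sub]
              exact h3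
            have h5 := hk01 p.1 y2 hx1 hy2.1.le
            rw [abs_of_nonneg h5.1]
            calc _ ≤ 18 * eta ^ 7 * 1 := mul_le_mul h4 h5.2 h5.1 (by positivity)
              _ = _ := mul_one _
        have h7 := intervalIntegral.norm_integral_le_of_norm_le_const hbd
        rw [Real.norm_eq_abs, sub_zero, abs_one, mul_one] at h7
        exact h7
      calc W1 p.1 p.2 * |Q p| ≤ 1 * (18 * eta ^ 7) :=
            mul_le_mul hw.2 h2 (abs_nonneg _) zero_le_one
        _ ≤ 19 * eta ^ 7 := by linarith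
  -- the decomposition
  have e1 : ∀ p : ℝ × ℝ, ∫ q in sq01, F12 p q
      = (∫ q in sq01, F11 p q) + (W1 p.1 p.2 * P p - W1 p.1 p.2 * Q p) := by
    intro p
    have h1 : ∀ q : ℝ × ℝ, F12 p q = F11 p q
        + (W1 p.1 p.2 * ((W2 q.1 q.2 - W1 q.1 q.2) * k q.1 p.2)
          - W1 p.1 p.2 * ((W2 q.1 q.2 - W1 q.1 q.2) * k p.1 q.2)) := by
      intro q
      rw [hF12, hF11]
      simp only
      ring
    have i11 : IntegrableOn (F11 p) sq01 :=
      (cF11.comp (continuous_const.prodMk continuous_id)).continuousOn.integrableOn_compact hcomp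
    have iP' := (iP p).const_mul (W1 p.1 p.2)
    have iQ' := (iQ p).const_mul (W1 p.1 p.2)
    simp only [h1]
    have iPQ : Integrable (fun q : ℝ × ℝ =>
        W1 p.1 p.2 * ((W2 q.1 q.2 - W1 q.1 q.2) * k q.1 p.2)
          - W1 p.1 p.2 * ((W2 q.1 q.2 - W1 q.1 q.2) * k p.1 q.2)) (volume.restrict sq01) :=
      iP'.sub iQ'
    rw [integral_add i11 iPQ, integral_sub iP' iQ', integral_const_mul, integral_const_mul]
  have c11 : Continuous fun p => ∫ q in sq01, F11 p q :=
    continuous_parametric_integral_of_continuous cF11 hcomp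
  have c12 : Continuous fun p => ∫ q in sq01, F12 p q :=
    continuous_parametric_integral_of_continuous cF12 hcomp
  have e2 : ∫ p in sq01, ∫ q in sq01, F12 p q
      = ∫ p in sq01, (W1 p.1 p.2 * P p - W1 p.1 p.2 * Q p) := by
    have h1 : ∀ p : ℝ × ℝ, W1 p.1 p.2 * P p - W1 p.1 p.2 * Q p
        = (∫ q in sq01, F12 p q) - ∫ q in sq01, F11 p q := by
      intro p
      rw [e1 p]
      ring
    simp only [h1]
    rw [integral_sub (c12.continuousOn.integrableOn_compact hcomp)
      (c11.continuousOn.integrableOn_compact hcomp), z11, sub_zero]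
  have e3 := iter4 cF12
  rw [hF12] at e3
  simp only at e3
  rw [e3]
  have e4 : |∫ p in sq01, ∫ q in sq01, F12 p q| ≤ 38 * eta ^ 7 := by
    rw [e2]
    refine int_sq_le fun p hp => ?_
    have h1 := bP p hp
    have h2 := bQ p hp
    rw [abs_le] at h1 h2 ⊢
    constructor <;> linarith
  exact e4.trans (by linarith)

end Pool.Agent.T1K
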