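import Mathlib
import Pool.Agent.T1K.Marg

/-!
# T1: moments of the difference of two similar species
-/

set_option autoImplicit false

open Finset MeasureTheory

namespace Pool.Agent.T1K
namespace Lm

/-! ## polynomial weights with affine powers -/

/-- a power of one more affine factor -/
theorem pow_affine {h : ℝ} (hh : 0 ≤ h) {n : ℕ} {g : Polynomial ℝ}
    (hg : ∀ p, |g.coeff p| ≤ (n * h) ^ p) {al be : ℝ} (h1 : |al| ≤ 1) (h2 : |be| ≤ h) (j : ℕ) :
    ∃ g' : Polynomial ℝ, (∀ u : ℝ, g'.eval u = g.eval u * (al + be * u) ^ j) ∧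
      ∀ p, |g'.coeff p| ≤ (((n + j : ℕ) : ℝ) * h) ^ p := by
  induction j with
  | zero => exact ⟨g, fun u => by rw [pow_zero, mul_one], hg⟩
  | succ j ih =>
    obtain ⟨g', hg', hc⟩ := ih
    refine ⟨g' * (Polynomial.C al + Polynomial.C be * Polynomial.X), fun u => ?_, fun p => ?_⟩
    · rw [Polynomial.eval_mul, hg']
      simp only [Polynomial.eval_add, Polynomial.eval_C, Polynomial.eval_mul, Polynomial.eval_X]
      ring
    · exact Mg.coeff_step hh hc h1 h2 p

/-- the weights from the other centre, with a power of an affine function -/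
theorem PW_aff {a h eta : ℝ} {K M : ℕ} (st : Std a h eta K M) {S : Finset ℕ} (hS : ∀ z ∈ S, z ≤ M)
    (hSK : S.card ≤ K) {s : ℝ} (hs0 : 0 ≤ s) (hs : s ≤ 1 - (a + h * M)) {al be : ℝ}
    (h1 : |al + be * a| ≤ 1) (h2 : |be| ≤ 1) {j : ℕ} (hj : j ≤ 3) :
    PW a h M (2 * h * K) (fun x => Phi (fun z => a + h * z) S s (1 - x) * (al + be * x) ^ j) := by
  have h0 := st.h0
  have a0 := st.a0
  have hMa := st.hMa
  have K9 : (9 : ℝ) ≤ K := by exact_mod_cast st.K9
  have aK := st.aK
  have ha : a ≤ 1 / 450 := by nlinarith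
  have hM0 : 0 ≤ h * M := by positivity
  have fac : ∀ z ∈ S, h * M ≤ 1 - a - max s (a + h * z) ∧ 1 - a - max s (a + h * z) ≤ 1 := by
    intro z hz
    have h1 : (z : ℝ) ≤ M := by exact_mod_cast hS z hz
    have h2 : h * z ≤ h * M := mul_le_mul_of_nonneg_left h1 h0.le
    constructor
    · have : max s (a + h * z) ≤ 1 - (a + h * M) := max_le hs (by linarith)
      linarith
    · have := le_max_left s (a + h * z)
      linarith
  obtain ⟨g, hg, hc⟩ := Mg.prod_affine h0.le S (fun z => 1 - a - max s (a + h * z)) (fun z hz => by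
    obtain ⟨f1, f2⟩ := fac z hz
    rw [abs_of_nonneg (by linarith)]
    exact f2)
  obtain ⟨g', hg', hc'⟩ := pow_affine h0.le hc h1 (be := be * h) (by
    rw [abs_mul, abs_of_nonneg h0.le]
    exact mul_le_of_le_one_left h0.le h2) j
  refine ⟨g', fun u hu0 huM => ?_, fun p => (hc' p).trans ?_⟩
  · rw [hg', hg]
    have hu : h * u ≤ h * M := mul_le_mul_of_nonneg_left huM h0.le
    have e : al + be * (a + h * u) = al + be * a + be * h * u := by ring
    beta_reduce
    rw [e]
    congr 1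
    unfold Phi
    refine Finset.prod_congr rfl fun z hz => ?_
    obtain ⟨f1, f2⟩ := fac z hz
    rw [max_eq_right (by linarith)]
    ring
  · apply pow_le_pow_left₀ (by positivity)
    have : ((S.card + j : ℕ) : ℝ) ≤ 2 * K := by
      have h1 : (S.card : ℝ) ≤ K := by exact_mod_cast hSK
      have h2 : (j : ℝ) ≤ 3 := by exact_mod_cast hj
      push_cast
      linarith
    calc ((S.card + j : ℕ) : ℝ) * h ≤ 2 * K * h := mul_le_mul_of_nonneg_right this h0.le
      _ = 2 * h * K := by ring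

section
variable {a h eta : ℝ} {K M : ℕ}

/-! ## fixed `y`: the lower ticks -/

theorem cont_g1 (T T' S : Finset ℕ) (c : ℕ → ℝ) (c0 : ℝ) (i j : ℕ) : Continuous fun p : ℝ × ℝ =>
    (Phi c T p.1 p.2 - Phi c T' p.1 p.2) * Phi c S (1 - p.2) (1 - p.1) * p.2 ^ i *
      (max p.1 c0) ^ j :=
  ((Mg.cont_f1 T T' S c).mul (continuous_snd.pow i)).mul
    ((continuous_fst.max continuous_const).pow j)

theorem part1 (st : Std a h eta K M) {R : ℕ} {T T' S : Finset ℕ} (hT : Sim 11 R M T T')
    (hTK : T.card ≤ K) (hT8 : 8 ≤ T.card) (hSM : ∀ z ∈ S, z ≤ M) (hSK : S.card ≤ K)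
    {z0 : ℕ} (hz : Cut 11 R T T' z0) (hzM : z0 ≤ M) {y : ℝ} (hy0 : 0 ≤ y) (hy1 : y ≤ 1)
    {i j : ℕ} (hj : j ≤ 3) :
    |∫ x in (0 : ℝ)..1, (Phi (fun z => a + h * z) T x y - Phi (fun z => a + h * z) T' x y) *
      Phi (fun z => a + h * z) S (1 - y) (1 - x) * y ^ i * (max x (a + h * z0)) ^ j| ≤
      36 * eta ^ 7 := by
  obtain ⟨n1, n2, n3, n4, n5, n6, n7⟩ := Mg.num st
  have a0 := st.a0
  have h0 := st.h0
  have hpos : 0 ≤ eta ^ 7 := by positivity
  have hzM' : (z0 : ℝ) ≤ M := by exact_mod_cast hzM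
  have hzh : h * z0 ≤ h * M := mul_le_mul_of_nonneg_left hzM' h0.le
  have hz0 : 0 ≤ h * z0 := by positivity
  have hT8' : 8 ≤ T'.card := by rw [← sim_card (by norm_num) hT]; exact hT8
  have hyi0 : 0 ≤ y ^ i := pow_nonneg hy0 i
  have hyi1 : y ^ i ≤ 1 := pow_le_one₀ hy0 hy1
  set c : ℕ → ℝ := fun z => a + h * z with hc
  set f : ℝ → ℝ := fun x => (Phi c T x y - Phi c T' x y) * Phi c S (1 - y) (1 - x) * y ^ i *
    (max x (a + h * z0)) ^ j with hf
  have hcont : Continuous f := (cont_g1 T T' S c (a + h * z0) i j).comp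
    (continuous_id.prodMk continuous_const : Continuous fun x : ℝ => (x, y))
  have hbound : ∀ {x B : ℝ}, 0 ≤ x → x ≤ 1 → |Phi c T x y - Phi c T' x y| ≤ B → ‖f x‖ ≤ B := by
    intro x B hx0 hx1 hB
    rw [Real.norm_eq_abs]
    have b0 : 0 ≤ max x (a + h * z0) := hx0.trans (le_max_left _ _)
    have b1 : max x (a + h * z0) ≤ 1 := max_le hx1 (by linarith)
    exact Mg.abs_mul_le (Mg.abs_mul_le (Mg.abs_mul_le hB (Mg.phi_nonneg _ _ _ _)
      (Mg.phi_le_one (by linarith))) hyi0 hyi1) (pow_nonneg b0 _) (pow_le_one₀ b0 b1)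
  rcases le_total y (a + h * M) with h1 | h1
  · have := intervalIntegral.norm_integral_le_of_norm_le_const (a := (0 : ℝ)) (b := 1) (f := f)
      (C := eta ^ 7) (fun x hx => by
        rw [Set.uIoc_of_le zero_le_one] at hx
        exact hbound hx.1.le hx.2 (Mg.diff_small st hT8 hT8' hx.1.le h1))
    rw [Real.norm_eq_abs] at this
    simp only [sub_zero, abs_one, mul_one] at this
    linarith
  · have s1 : ∫ x in (0 : ℝ)..1, f x = (∫ x in (0 : ℝ)..a, f x) +
        (∫ x in a..(a + h * z0), f x) + (∫ x in (a + h * z0)..(a + h * M), f x) +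
        ∫ x in (a + h * M)..1, f x := by
      rw [intervalIntegral.integral_add_adjacent_intervals (hcont.intervalIntegrable _ _)
        (hcont.intervalIntegrable _ _), intervalIntegral.integral_add_adjacent_intervals
        (hcont.intervalIntegrable _ _) (hcont.intervalIntegrable _ _),
        intervalIntegral.integral_add_adjacent_intervals
        (hcont.intervalIntegrable _ _) (hcont.intervalIntegrable _ _)]
    have b1 : |∫ x in (0 : ℝ)..a, f x| ≤ 4 * eta ^ 7 := by
      have := intervalIntegral.norm_integral_le_of_norm_le_const (a := (0 : ℝ)) (b := a) (f := f)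
        (C := 4 * eta ^ 7) (fun x hx => by
          rw [Set.uIoc_of_le a0.le] at hx
          exact hbound hx.1.le (by linarith [hx.2])
            (Mg.diff_left st hT hTK hT8 hx.1.le hx.2 hy1))
      rw [Real.norm_eq_abs, sub_zero, abs_of_nonneg a0.le] at this
      nlinarith
    have scale : ∀ {I w : ℝ}, |I| ≤ 16 * eta ^ 7 → 0 ≤ w → w ≤ 1 → |w * I| ≤ 16 * eta ^ 7 := by
      intro I w hI w0 w1
      rw [mul_comm]
      exact Mg.abs_mul_le hI w0 w1
    have b2 : |∫ x in a..(a + h * z0), f x| ≤ 16 * eta ^ 7 := by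
      have h2 := PW_aff st hSM hSK (s := 1 - y) (by linarith) (by linarith) (al := 1) (be := 0)
        (by norm_num) (by norm_num) (Nat.zero_le 3)
      have h3 := F1_down hT rfl (by omega) hz hzM a0 h0 (Mg.eta_K st hTK)
        (lam := 2 * h * K) (le_of_eq n7) (by positivity) (by linarith) h1 hy1 h2
      have w0 : 0 ≤ y ^ i * (a + h * z0) ^ j := by positivity
      have w1 : y ^ i * (a + h * z0) ^ j ≤ 1 :=
        mul_le_one₀ hyi1 (by positivity) (pow_le_one₀ (by linarith) (by linarith))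
      refine le_of_eq_of_le ?_ (scale h3 w0 w1)
      congr 1
      rw [← intervalIntegral.integral_const_mul]
      refine intervalIntegral.integral_congr fun x hx => ?_
      rw [Set.uIcc_of_le (by linarith)] at hx
      simp only [hf, hc, pow_zero, mul_one]
      rw [max_eq_right hx.2]
      ring
    have b3 : |∫ x in (a + h * z0)..(a + h * M), f x| ≤ 16 * eta ^ 7 := by
      have h2 := PW_aff st hSM hSK (s := 1 - y) (by linarith) (by linarith) (al := 0) (be := 1)
        (by rw [zero_add, one_mul, abs_of_nonneg a0.le]; linarith) (by norm_num) hj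
      have h3 := F1_up hT rfl (by omega) hz hzM a0 h0 (Mg.eta_K st hTK)
        (lam := 2 * h * K) (le_of_eq n7) (by positivity) (by linarith) h1 hy1 h2
      refine le_of_eq_of_le ?_ (scale h3 hyi0 hyi1)
      congr 1
      rw [← intervalIntegral.integral_const_mul]
      refine intervalIntegral.integral_congr fun x hx => ?_
      rw [Set.uIcc_of_le (by linarith)] at hx
      simp only [hf, hc]
      rw [max_eq_left hx.1]
      ring
    have b4 : ∫ x in (a + h * M)..1, f x = 0 := by
      have : ∫ x in (a + h * M)..1, f x = ∫ x in (a + h * M)..1, (0 : ℝ) := by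
        refine intervalIntegral.integral_congr fun x hx => ?_
        rw [Set.uIcc_of_le (by linarith)] at hx
        simp only [hf]
        rw [Phi_right h0 (sim_card (by norm_num) hT) hT.le hT.le' hx.1, sub_self, zero_mul,
          zero_mul, zero_mul]
      rw [this]
      simp
    rw [s1, b4, add_zero]
    refine (abs_add_three _ _ _).trans ?_
    linarith

/-! ## fixed `x`: the upper ticks -/

theorem cont_g2 (T S S' : Finset ℕ) (c : ℕ → ℝ) (c0 : ℝ) (i j : ℕ) : Continuous fun p : ℝ × ℝ =>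
    Phi c T p.1 p.2 * (Phi c S (1 - p.2) (1 - p.1) - Phi c S' (1 - p.2) (1 - p.1)) * p.2 ^ i *
      (max p.1 c0) ^ j :=
  ((Mg.cont_f3 T S S' c).mul (continuous_snd.pow i)).mul
    ((continuous_fst.max continuous_const).pow j)

theorem part2 (st : Std a h eta K M) {R : ℕ} {S S' : Finset ℕ} (hS : Sim 11 R M S S')
    (hSK : S.card ≤ K) (hS8 : 8 ≤ S.card) {T : Finset ℕ} (hTM : ∀ z ∈ T, z ≤ M) (hTK : T.card ≤ K)
    {z0 : ℕ} (hzM : z0 ≤ M)
    {x : ℝ} (hx0 : 0 ≤ x) (hx1 : x ≤ 1) {i j : ℕ} (hi : i ≤ 3) :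
    |∫ y in (0 : ℝ)..1, Phi (fun z => a + h * z) T x y *
      (Phi (fun z => a + h * z) S (1 - y) (1 - x) - Phi (fun z => a + h * z) S' (1 - y) (1 - x)) *
      y ^ i * (max x (a + h * z0)) ^ j| ≤ 20 * eta ^ 7 := by
  obtain ⟨n1, n2, n3, n4, n5, n6, n7⟩ := Mg.num st
  have a0 := st.a0
  have h0 := st.h0
  have hzM' : (z0 : ℝ) ≤ M := by exact_mod_cast hzM
  have hzh : h * z0 ≤ h * M := mul_le_mul_of_nonneg_left hzM' h0.le
  have hz0 : 0 ≤ h * z0 := by positivity
  have m0 : 0 ≤ max x (a + h * z0) := hx0.trans (le_max_left _ _)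
  have m1 : max x (a + h * z0) ≤ 1 := max_le hx1 (by linarith)
  have w0 : 0 ≤ (max x (a + h * z0)) ^ j := pow_nonneg m0 _
  have w1 : (max x (a + h * z0)) ^ j ≤ 1 := pow_le_one₀ m0 m1
  set c : ℕ → ℝ := fun z => a + h * z with hc
  set f : ℝ → ℝ := fun ξ => Phi c T x (1 - ξ) * (Phi c S ξ (1 - x) - Phi c S' ξ (1 - x)) *
    (1 - ξ) ^ i with hf
  have hcont : Continuous f := (Mg.cont_f2 T S S' c x).mul
    ((continuous_const.sub continuous_id).pow i)
  have e1 : ∫ y in (0 : ℝ)..1, Phi c T x y *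
      (Phi c S (1 - y) (1 - x) - Phi c S' (1 - y) (1 - x)) * y ^ i * (max x (a + h * z0)) ^ j =
      (∫ ξ in (0 : ℝ)..1, f ξ) * (max x (a + h * z0)) ^ j := by
    have := intervalIntegral.integral_comp_sub_left (a := 0) (b := 1) f 1
    rw [sub_self, sub_zero] at this
    rw [← this, ← intervalIntegral.integral_mul_const]
    simp only [hf, sub_sub_cancel]
  rw [e1]
  refine Mg.abs_mul_le ?_ w0 w1
  have hcard : S'.card = S.card := (sim_card (by norm_num) hS).symm
  have hpos : 0 ≤ eta ^ 7 := by positivity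
  have hbound : ∀ {ξ B : ℝ}, 0 ≤ ξ → ξ ≤ 1 → |Phi c S ξ (1 - x) - Phi c S' ξ (1 - x)| ≤ B →
      ‖f ξ‖ ≤ B := by
    intro ξ B hξ hξ1 hB
    rw [Real.norm_eq_abs]
    have : |Phi c T x (1 - ξ) * (Phi c S ξ (1 - x) - Phi c S' ξ (1 - x))| ≤ B := by
      rw [mul_comm]
      exact Mg.abs_mul_le hB (Mg.phi_nonneg _ _ _ _) (Mg.phi_le_one (by linarith))
    exact Mg.abs_mul_le this (pow_nonneg (by linarith) _) (pow_le_one₀ (by linarith) (by linarith))
  rcases le_total (1 - x) (a + h * M) with h1 | h1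
  · have := intervalIntegral.norm_integral_le_of_norm_le_const (a := (0 : ℝ)) (b := 1) (f := f)
      (C := eta ^ 7) (fun ξ hξ => by
        rw [Set.uIoc_of_le zero_le_one] at hξ
        exact hbound hξ.1.le hξ.2 (Mg.diff_small st hS8 (by omega) hξ.1.le h1))
    rw [Real.norm_eq_abs] at this
    simp only [sub_zero, abs_one, mul_one] at this
    linarith
  · have s1 : ∫ ξ in (0 : ℝ)..1, f ξ = (∫ ξ in (0 : ℝ)..a, f ξ) + (∫ ξ in a..(a + h * M), f ξ) +
        ∫ ξ in (a + h * M)..1, f ξ := by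
      rw [intervalIntegral.integral_add_adjacent_intervals (hcont.intervalIntegrable _ _)
        (hcont.intervalIntegrable _ _), intervalIntegral.integral_add_adjacent_intervals
        (hcont.intervalIntegrable _ _) (hcont.intervalIntegrable _ _)]
    have b1 : |∫ ξ in (0 : ℝ)..a, f ξ| ≤ 4 * eta ^ 7 := by
      have := intervalIntegral.norm_integral_le_of_norm_le_const (a := (0 : ℝ)) (b := a) (f := f)
        (C := 4 * eta ^ 7) (fun ξ hξ => by
          rw [Set.uIoc_of_le a0.le] at hξ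
          exact hbound hξ.1.le (by linarith [hξ.2])
            (Mg.diff_left st hS hSK hS8 hξ.1.le hξ.2 (by linarith)))
      rw [Real.norm_eq_abs, sub_zero, abs_of_nonneg a0.le] at this
      nlinarith
    have b2 : |∫ ξ in a..(a + h * M), f ξ| ≤ 16 * eta ^ 7 := by
      have h2 := PW_aff st hTM hTK hx0 (by linarith : x ≤ 1 - (a + h * M)) (al := 1) (be := -1)
        (by rw [abs_of_nonneg (by linarith)]; linarith) (by norm_num) hi
      have h3 := F1_up hS rfl (by omega) (z0 := 0) (Or.inl rfl) (Nat.zero_le M) a0 h0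
        (Mg.eta_K st hSK)
        (lam := 2 * h * K) (le_of_eq n7) (by positivity) (by linarith) h1 (by linarith) h2
      rw [Nat.cast_zero, mul_zero, add_zero] at h3
      refine le_of_eq_of_le ?_ h3
      congr 1
      refine intervalIntegral.integral_congr fun ξ _ => ?_
      simp only [hf]
      ring
    have b3 : ∫ ξ in (a + h * M)..1, f ξ = 0 := by
      have : ∫ ξ in (a + h * M)..1, f ξ = ∫ ξ in (a + h * M)..1, (0 : ℝ) := by
        refine intervalIntegral.integral_congr fun ξ hξ => ?_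
        rw [Set.uIcc_of_le (by linarith)] at hξ
        simp only [hf]
        rw [Phi_right h0 (sim_card (by norm_num) hS) hS.le hS.le' hξ.1, sub_self, mul_zero,
          zero_mul]
      rw [this]
      simp
    rw [s1, b3, add_zero]
    calc |(∫ ξ in (0 : ℝ)..a, f ξ) + (∫ ξ in a..(a + h * M), f ξ)| ≤ _ := abs_add_le _ _
      _ ≤ 4 * eta ^ 7 + 16 * eta ^ 7 := add_le_add b1 b2
      _ = 20 * eta ^ 7 := by ring

end

end Lm

/-- moments of the difference of two similar species, with a barrier at a cut -/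
theorem leaf_mom {R M K : ℕ} {T T' S S' : Finset ℕ} {a h eta : ℝ} (st : Std a h eta K M)
    (hT : Sim 11 R M T T') (hS : Sim 11 R M S S') (hTK : T.card ≤ K) (hSK : S.card ≤ K)
    (hT8 : 8 ≤ T.card) (hS8 : 8 ≤ S.card) {z0 : ℕ} (hz : Cut 11 R T T' z0) (hzM : z0 ≤ M)
    {i j : ℕ} (hi : i ≤ 2) (hj : j ≤ 2) :
    |∫ x in (0 : ℝ)..1, ∫ y in (0 : ℝ)..1,
      (W (fun z => a + h * z) (fun z => a + h * z) T S x y
        - W (fun z => a + h * z) (fun z => a + h * z) T' S' x y) *
        y ^ i * (max x (a + h * z0)) ^ j| ≤ 200 * eta ^ 7 := by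
  have hpos : 0 ≤ eta ^ 7 := by
    have := (Mg.num st).1
    positivity
  have hTK' : T'.card ≤ K := by rw [← sim_card (by norm_num) hT]; exact hTK
  set c : ℕ → ℝ := fun z => a + h * z with hc
  set c0 : ℝ := a + h * z0 with hc0
  set A : ℝ → ℝ → ℝ := fun x y => (Phi c T x y - Phi c T' x y) * Phi c S (1 - y) (1 - x) * y ^ i *
    (max x c0) ^ j with hA
  set B : ℝ → ℝ → ℝ := fun x y => Phi c T' x y *
    (Phi c S (1 - y) (1 - x) - Phi c S' (1 - y) (1 - x)) * y ^ i * (max x c0) ^ j with hB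
  have cA : Continuous fun p : ℝ × ℝ => A p.1 p.2 := Lm.cont_g1 T T' S c c0 i j
  have cB : Continuous fun p : ℝ × ℝ => B p.1 p.2 := Lm.cont_g2 T' S S' c c0 i j
  have IA : Continuous fun x : ℝ => ∫ y in (0 : ℝ)..1, A x y :=
    intervalIntegral.continuous_parametric_intervalIntegral_of_continuous' (f := A) cA 0 1
  have IB : Continuous fun x : ℝ => ∫ y in (0 : ℝ)..1, B x y :=
    intervalIntegral.continuous_parametric_intervalIntegral_of_continuous' (f := B) cB 0 1
  have e : ∫ x in (0 : ℝ)..1, ∫ y in (0 : ℝ)..1, (W c c T S x y - W c c T' S' x y) *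
      y ^ i * (max x c0) ^ j =
      (∫ y in (0 : ℝ)..1, ∫ x in (0 : ℝ)..1, A x y) +
        ∫ x in (0 : ℝ)..1, ∫ y in (0 : ℝ)..1, B x y := by
    rw [← Mg.swapc cA zero_le_one, ← intervalIntegral.integral_add (IA.intervalIntegrable _ _)
      (IB.intervalIntegrable _ _)]
    refine intervalIntegral.integral_congr fun x _ => ?_
    have i1 : IntervalIntegrable (fun y => A x y) volume 0 1 :=
      (cA.comp (continuous_const.prodMk continuous_id :
        Continuous fun y : ℝ => (x, y))).intervalIntegrable _ _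
    have i2 : IntervalIntegrable (fun y => B x y) volume 0 1 :=
      (cB.comp (continuous_const.prodMk continuous_id :
        Continuous fun y : ℝ => (x, y))).intervalIntegrable _ _
    rw [← intervalIntegral.integral_add i1 i2]
    refine intervalIntegral.integral_congr fun y _ => ?_
    simp only [W, hA, hB]
    ring
  rw [e]
  have b1 := intervalIntegral.norm_integral_le_of_norm_le_const (a := (0 : ℝ)) (b := 1)
    (f := fun y => ∫ x in (0 : ℝ)..1, A x y) (C := 36 * eta ^ 7) (fun y hy => by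
      rw [Set.uIoc_of_le zero_le_one] at hy
      rw [Real.norm_eq_abs]
      exact Lm.part1 st hT hTK hT8 hS.le hSK hz hzM hy.1.le hy.2 (hj.trans (by norm_num)))
  have b2 := intervalIntegral.norm_integral_le_of_norm_le_const (a := (0 : ℝ)) (b := 1)
    (f := fun x => ∫ y in (0 : ℝ)..1, B x y) (C := 20 * eta ^ 7) (fun x hx => by
      rw [Set.uIoc_of_le zero_le_one] at hx
      rw [Real.norm_eq_abs]
      exact Lm.part2 st hS hSK hS8 hT.le' hTK' hzM hx.1.le hx.2 (hi.trans (by norm_num)))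
  rw [Real.norm_eq_abs] at b1 b2
  simp only [sub_zero, abs_one, mul_one] at b1 b2
  refine (abs_add_le _ _).trans ?_
  linarith

end Pool.Agent.T1K
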