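import Pool.Agent.T1K.KerNum

/-!
# T1, row R7: kernel sums over the tick sets

* `KT_TS`: the signed sum over `TS N R M l × TS N R M l'` is the sum of those over the slots.
* `KT_TS_gt`: the same for the ticks after `z₀`.
* `KT_four`, `KT_six`, `KT_four_gt`, `KT_six_gt`: the values for `N = 11`.
-/

set_option autoImplicit false

open Finset

namespace Pool.Agent.T1K

/-- signed sum over pairs -/
def KT (r : ℕ) (T T' : Finset ℕ) : ℤ := ∑ z ∈ T, ∑ z' ∈ T', sk r ((z' : ℤ) - z)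

/-- equal power sums of order at most `r` -/
def EP (r : ℕ) (T T' : Finset ℕ) : Prop :=
  ∀ (a b : ℤ), ∀ m ≤ r, ∑ z ∈ T, (a + b * (z : ℤ)) ^ m = ∑ z ∈ T', (a + b * (z : ℤ)) ^ m

lemma EP.refl (r : ℕ) (T : Finset ℕ) : EP r T T := fun _ _ _ _ => rfl

lemma EP.union {r : ℕ} {T₁ T₁' T₂ T₂' : Finset ℕ} (h1 : EP r T₁ T₁') (h2 : EP r T₂ T₂')
    (hd : Disjoint T₁ T₂) (hd' : Disjoint T₁' T₂') : EP r (T₁ ∪ T₂) (T₁' ∪ T₂') := by
  intro a b m hm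
  rw [Finset.sum_union hd, Finset.sum_union hd', h1 a b m hm, h2 a b m hm]

lemma KT_self {r : ℕ} (hr : Even r) (T : Finset ℕ) : KT r T T = 0 := by
  have h : KT r T T = -KT r T T := by
    conv_lhs => unfold KT
    rw [Finset.sum_comm]
    unfold KT
    rw [← Finset.sum_neg_distrib]
    refine Finset.sum_congr rfl fun z _ => ?_
    rw [← Finset.sum_neg_distrib]
    refine Finset.sum_congr rfl fun z' _ => ?_
    rw [← sk_neg hr]
    congr 1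
    ring
  linarith

lemma KT_append {r : ℕ} (hr : Even r) {T₁ T₁' T₂ T₂' : Finset ℕ} (h1 : EP r T₁ T₁')
    (h2 : EP r T₂ T₂') (hlt : ∀ z ∈ T₁, ∀ z' ∈ T₂, z < z') (hlt' : ∀ z ∈ T₁, ∀ z' ∈ T₂', z < z')
    (hlt₁ : ∀ z ∈ T₁', ∀ z' ∈ T₂, z < z') (hlt₂ : ∀ z ∈ T₁', ∀ z' ∈ T₂', z < z') :
    KT r (T₁ ∪ T₂) (T₁' ∪ T₂') = KT r T₁ T₁' + KT r T₂ T₂' := by
  have hd : Disjoint T₁ T₂ := Finset.disjoint_left.2 fun z h3 h4 => (hlt z h3 z h4).ne rfl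
  have hd' : Disjoint T₁' T₂' := Finset.disjoint_left.2 fun z h3 h4 => (hlt₂ z h3 z h4).ne rfl
  have e1 : ∑ z ∈ T₁, ∑ z' ∈ T₂', sk r ((z' : ℤ) - z) = ∑ z ∈ T₁, ∑ z' ∈ T₂, ((z' : ℤ) - z) ^ r := by
    refine Finset.sum_congr rfl fun z hz => ?_
    calc ∑ z' ∈ T₂', sk r ((z' : ℤ) - z) = ∑ z' ∈ T₂', (-(z : ℤ) + 1 * (z' : ℤ)) ^ r := by
          refine Finset.sum_congr rfl fun z' hz' => ?_
          have h5 : (0 : ℤ) < (z' : ℤ) - z := by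
            have := hlt' z hz z' hz'
            omega
          unfold sk
          rw [Int.sign_eq_one_of_pos h5, one_mul]
          congr 1
          ring
      _ = ∑ z' ∈ T₂, (-(z : ℤ) + 1 * (z' : ℤ)) ^ r := (h2 _ _ r le_rfl).symm
      _ = _ := Finset.sum_congr rfl fun z' _ => by congr 1; ring
  have e2 : ∑ z ∈ T₂, ∑ z' ∈ T₁', sk r ((z' : ℤ) - z) = -∑ z ∈ T₁, ∑ z' ∈ T₂, ((z' : ℤ) - z) ^ r := by
    rw [Finset.sum_comm (s := T₁), ← Finset.sum_neg_distrib]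
    refine Finset.sum_congr rfl fun z hz => ?_
    calc ∑ z' ∈ T₁', sk r ((z' : ℤ) - z) = ∑ z' ∈ T₁', -((z : ℤ) + -1 * (z' : ℤ)) ^ r := by
          refine Finset.sum_congr rfl fun z' hz' => ?_
          have h5 : (z' : ℤ) - z < 0 := by
            have := hlt₁ z' hz' z hz
            omega
          unfold sk
          rw [Int.sign_eq_neg_one_of_neg h5, neg_one_mul, ← hr.neg_pow]
          congr 2
          ring
      _ = -∑ z' ∈ T₁', ((z : ℤ) + -1 * (z' : ℤ)) ^ r := Finset.sum_neg_distrib _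
      _ = -∑ z' ∈ T₁, ((z : ℤ) + -1 * (z' : ℤ)) ^ r := by rw [h1 _ _ r le_rfl]
      _ = _ := by
          congr 1
          exact Finset.sum_congr rfl fun z' _ => by congr 1; ring
  unfold KT
  rw [Finset.sum_union hd]
  simp_rw [Finset.sum_union hd', Finset.sum_add_distrib]
  rw [e1, e2]
  ring

/-- the ticks in the slots `[a, b)` -/
def CR (N : ℕ) (l : ℕ → ZMod 3) (a b : ℕ) : Finset ℕ :=
  (Ico (a * 3 ^ N) (b * 3 ^ N)).filter (fun z => dg N (z % 3 ^ N) = l (z / 3 ^ N))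

/-- the ticks in the slot `s` -/
def Bk (N : ℕ) (l : ℕ → ZMod 3) (s : ℕ) : Finset ℕ :=
  (Cl N (l s)).image (fun y => s * 3 ^ N + y)

lemma mem_CR {N : ℕ} {l : ℕ → ZMod 3} {a b z : ℕ} : z ∈ CR N l a b ↔
    a * 3 ^ N ≤ z ∧ z < b * 3 ^ N ∧ dg N (z % 3 ^ N) = l (z / 3 ^ N) := by
  unfold CR
  rw [Finset.mem_filter, Finset.mem_Ico, and_assoc]

lemma mem_Bk {N : ℕ} {l : ℕ → ZMod 3} {s z : ℕ} : z ∈ Bk N l s ↔
    z / 3 ^ N = s ∧ dg N (z % 3 ^ N) = l (z / 3 ^ N) := by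
  have h0 : 0 < 3 ^ N := by positivity
  unfold Bk
  rw [Finset.mem_image]
  constructor
  · rintro ⟨y, hy, rfl⟩
    have hy1 := mem_Cl_lt hy
    have h1 : (s * 3 ^ N + y) / 3 ^ N = s := by
      rw [Nat.add_comm, Nat.add_mul_div_right _ _ h0, Nat.div_eq_of_lt hy1, zero_add]
    have h2 : (s * 3 ^ N + y) % 3 ^ N = y := by
      rw [Nat.add_comm, Nat.add_mul_mod_self_right, Nat.mod_eq_of_lt hy1]
    rw [h1, h2]
    exact ⟨rfl, (Finset.mem_filter.1 hy).2⟩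
  · rintro ⟨h1, h2⟩
    refine ⟨z % 3 ^ N, ?_, ?_⟩
    · unfold Cl
      rw [Finset.mem_filter, Finset.mem_range]
      exact ⟨Nat.mod_lt _ h0, by rw [h2, h1]⟩
    · rw [← h1]
      exact Nat.div_add_mod' z (3 ^ N)

lemma CR_succ {N : ℕ} {l : ℕ → ZMod 3} {a b : ℕ} (hab : a ≤ b) :
    CR N l a (b + 1) = CR N l a b ∪ Bk N l b := by
  have h0 : 0 < 3 ^ N := by positivity
  ext z
  rw [Finset.mem_union, mem_CR, mem_CR, mem_Bk]
  have h1 : z / 3 ^ N = b ↔ b * 3 ^ N ≤ z ∧ z < (b + 1) * 3 ^ N := by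
    rw [Nat.div_eq_iff h0]
    constructor
    · rintro ⟨h2, h3⟩
      refine ⟨h2, ?_⟩
      rw [Nat.succ_mul]
      omega
    · rintro ⟨h2, h3⟩
      refine ⟨h2, ?_⟩
      rw [Nat.succ_mul] at h3
      omega
  have h2 : a * 3 ^ N ≤ b * 3 ^ N := Nat.mul_le_mul_right _ hab
  have h3 : b * 3 ^ N ≤ (b + 1) * 3 ^ N := Nat.mul_le_mul_right _ (by omega)
  rw [h1]
  constructor
  · rintro ⟨h4, h5, h6⟩
    by_cases h7 : z < b * 3 ^ N
    · exact Or.inl ⟨h4, h7, h6⟩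
    · exact Or.inr ⟨⟨not_lt.1 h7, h5⟩, h6⟩
  · rintro (⟨h4, h5, h6⟩ | ⟨⟨h4, h5⟩, h6⟩)
    · exact ⟨h4, lt_of_lt_of_le h5 h3, h6⟩
    · exact ⟨h2.trans h4, h5, h6⟩

lemma CR_lt_Bk {N : ℕ} {l l' : ℕ → ZMod 3} {a b : ℕ} : ∀ z ∈ CR N l a b, ∀ z' ∈ Bk N l' b,
    z < z' := by
  intro z hz z' hz'
  have h1 := (mem_CR.1 hz).2.1
  have h2 := (mem_Bk.1 hz').1
  rw [← h2] at h1
  exact lt_of_lt_of_le h1 (Nat.div_mul_le_self _ _)

lemma sum_Bk {α : Type*} [AddCommMonoid α] (N : ℕ) (l : ℕ → ZMod 3) (s : ℕ) (f : ℕ → α) :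
    ∑ z ∈ Bk N l s, f z = ∑ y ∈ Cl N (l s), f (s * 3 ^ N + y) := by
  unfold Bk
  rw [Finset.sum_image]
  intro y _ y' _ h
  simpa using h

lemma EP_Bk {N r : ℕ} (hr : r < N) (l l' : ℕ → ZMod 3) (s : ℕ) : EP r (Bk N l s) (Bk N l' s) := by
  intro a b m hm
  rw [sum_Bk, sum_Bk]
  have h := lin_indep (by omega : m < N) (a + b * ((s * 3 ^ N : ℕ) : ℤ)) b (l s) (l' s)
  calc ∑ y ∈ Cl N (l s), (a + b * ((s * 3 ^ N + y : ℕ) : ℤ)) ^ m =
        ∑ y ∈ Cl N (l s), (a + b * ((s * 3 ^ N : ℕ) : ℤ) + b * (y : ℤ)) ^ m :=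
        Finset.sum_congr rfl fun y _ => by push_cast; congr 1; ring
    _ = ∑ y ∈ Cl N (l' s), (a + b * ((s * 3 ^ N : ℕ) : ℤ) + b * (y : ℤ)) ^ m := h
    _ = _ := Finset.sum_congr rfl fun y _ => by push_cast; congr 1; ring

lemma KT_Bk (N r : ℕ) (l l' : ℕ → ZMod 3) (s : ℕ) :
    KT r (Bk N l s) (Bk N l' s) = G2 N (l s) (l' s) (sk r) := by
  unfold KT G2
  rw [sum_Bk]
  refine Finset.sum_congr rfl fun y _ => ?_
  rw [sum_Bk]
  refine Finset.sum_congr rfl fun z _ => ?_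
  congr 1
  push_cast
  ring

lemma CR_empty (N : ℕ) (l : ℕ → ZMod 3) (a : ℕ) : CR N l a a = ∅ := by
  unfold CR
  rw [Finset.Ico_self, Finset.filter_empty]

lemma EP_CR {N r : ℕ} (hr : r < N) (l l' : ℕ → ZMod 3) {a b : ℕ} (hab : a ≤ b) :
    EP r (CR N l a b) (CR N l' a b) := by
  induction b, hab using Nat.le_induction with
  | base => rw [CR_empty, CR_empty]; exact EP.refl _ _
  | succ b hab ih =>
      rw [CR_succ hab, CR_succ hab]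
      refine EP.union ih (EP_Bk hr l l' b) ?_ ?_
      · exact Finset.disjoint_left.2 fun z h3 h4 => (CR_lt_Bk z h3 z h4).ne rfl
      · exact Finset.disjoint_left.2 fun z h3 h4 => (CR_lt_Bk z h3 z h4).ne rfl

lemma KT_CR {N r : ℕ} (he : Even r) (hr : r < N) (l l' : ℕ → ZMod 3) {a b : ℕ} (hab : a ≤ b) :
    KT r (CR N l a b) (CR N l' a b) = ∑ s ∈ Ico a b, G2 N (l s) (l' s) (sk r) := by
  induction b, hab using Nat.le_induction with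
  | base =>
      rw [CR_empty, Finset.Ico_self, Finset.sum_empty]
      unfold KT
      rw [Finset.sum_empty]
  | succ b hab ih =>
      rw [CR_succ hab, CR_succ hab, KT_append he (EP_CR hr l l' hab) (EP_Bk hr l l' b) CR_lt_Bk
        CR_lt_Bk CR_lt_Bk CR_lt_Bk, ih, KT_Bk, Finset.sum_Ico_succ_top hab]

lemma TS_eq (N R M : ℕ) (l : ℕ → ZMod 3) : TS N R M l = CR N l 0 R ∪ {M} := by
  unfold TS CR
  rw [zero_mul, Nat.Ico_zero_eq_range]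

/-- the signed sum over two tick sets -/
theorem KT_TS {N r R M : ℕ} (he : Even r) (hr : r < N) (hM : R * 3 ^ N ≤ M) (l l' : ℕ → ZMod 3) :
    KT r (TS N R M l) (TS N R M l') = ∑ s ∈ range R, G2 N (l s) (l' s) (sk r) := by
  have h1 : ∀ l₁ : ℕ → ZMod 3, ∀ z ∈ CR N l₁ 0 R, ∀ z' ∈ ({M} : Finset ℕ), z < z' := by
    intro l₁ z hz z' hz'
    rw [Finset.mem_singleton] at hz'
    have := (mem_CR.1 hz).2.1
    omega
  rw [TS_eq, TS_eq, KT_append he (EP_CR hr l l' (Nat.zero_le R)) (EP.refl r {M}) (h1 l) (h1 l)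
    (h1 l') (h1 l'), KT_self he, add_zero, KT_CR he hr l l' (Nat.zero_le R), Nat.Ico_zero_eq_range]

/-- the ticks after `z₀` -/
lemma TS_gt {N R M z₀ : ℕ} (l : ℕ → ZMod 3) (hM : R * 3 ^ N ≤ M) (hz : z₀ < R * 3 ^ N) :
    (TS N R M l).filter (z₀ < ·) =
      ((Bk N l (z₀ / 3 ^ N)).filter (z₀ < ·) ∪ CR N l (z₀ / 3 ^ N + 1) R) ∪ {M} := by
  have h0 : 0 < 3 ^ N := by positivity
  obtain ⟨s, hs⟩ : ∃ s, s = z₀ / 3 ^ N := ⟨_, rfl⟩
  rw [← hs]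
  have hz1 : z₀ < (s + 1) * 3 ^ N := by
    rw [hs, Nat.succ_mul]
    have := Nat.lt_div_mul_add h0 (a := z₀)
    exact this
  have hsR : s + 1 ≤ R := by
    rw [hs]
    exact (Nat.div_lt_iff_lt_mul h0).2 hz
  have hsz : s * 3 ^ N ≤ z₀ := by rw [hs]; exact Nat.div_mul_le_self _ _
  rw [TS_eq, Finset.filter_union]
  congr 1
  · ext z
    rw [Finset.mem_union, Finset.mem_filter, Finset.mem_filter, mem_CR, mem_CR, mem_Bk]
    constructor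
    · rintro ⟨⟨_, h2, h3⟩, h4⟩
      by_cases h5 : (s + 1) * 3 ^ N ≤ z
      · exact Or.inr ⟨h5, h2, h3⟩
      · left
        refine ⟨⟨?_, h3⟩, h4⟩
        rw [Nat.div_eq_iff h0]
        rw [not_le, Nat.succ_mul] at h5
        omega
    · rintro (⟨⟨h1, h2⟩, h3⟩ | ⟨h1, h2, h3⟩)
      · refine ⟨⟨by omega, ?_, h2⟩, h3⟩
        rw [Nat.div_eq_iff h0] at h1
        have h6 : (s + 1) * 3 ^ N ≤ R * 3 ^ N := Nat.mul_le_mul_right _ hsR
        rw [Nat.succ_mul] at h6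
        omega
      · exact ⟨⟨by omega, h2, h3⟩, by omega⟩
  · rw [Finset.filter_singleton, if_pos (by omega)]

/-- the signed sum over the ticks after `z₀` -/
theorem KT_TS_gt {N r R M z₀ : ℕ} (he : Even r) (hr : r < N) (hM : R * 3 ^ N ≤ M)
    (hz : z₀ < R * 3 ^ N) {l l' : ℕ → ZMod 3} (hl : l (z₀ / 3 ^ N) = l' (z₀ / 3 ^ N)) :
    KT r ((TS N R M l).filter (z₀ < ·)) ((TS N R M l').filter (z₀ < ·)) =
      ∑ s ∈ Ico (z₀ / 3 ^ N + 1) R, G2 N (l s) (l' s) (sk r) := by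
  have h0 : 0 < 3 ^ N := by positivity
  have hB : Bk N l (z₀ / 3 ^ N) = Bk N l' (z₀ / 3 ^ N) := by
    unfold Bk
    rw [hl]
  have hsR : z₀ / 3 ^ N + 1 ≤ R := (Nat.div_lt_iff_lt_mul h0).2 hz
  have h1 : ∀ l₁ l₂ : ℕ → ZMod 3, ∀ z ∈ (Bk N l₁ (z₀ / 3 ^ N)).filter (z₀ < ·),
      ∀ z' ∈ CR N l₂ (z₀ / 3 ^ N + 1) R, z < z' := by
    intro l₁ l₂ z hz z' hz'
    have h2 := (mem_Bk.1 (Finset.mem_filter.1 hz).1).1
    have h3 := (mem_CR.1 hz').1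
    rw [← h2] at h3
    rw [Nat.succ_mul] at h3
    have := Nat.lt_div_mul_add h0 (a := z)
    omega
  have hM' : ∀ l₁ : ℕ → ZMod 3, ∀ z ∈ (Bk N l₁ (z₀ / 3 ^ N)).filter (z₀ < ·) ∪
      CR N l₁ (z₀ / 3 ^ N + 1) R, ∀ z' ∈ ({M} : Finset ℕ), z < z' := by
    intro l₁ z hz z' hz'
    rw [Finset.mem_singleton] at hz'
    rw [Finset.mem_union, Finset.mem_filter, mem_Bk, mem_CR] at hz
    rcases hz with ⟨⟨h2, _⟩, _⟩ | ⟨_, h2, _⟩
    · have h3 := Nat.lt_div_mul_add h0 (a := z)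
      have h6 : (z₀ / 3 ^ N + 1) * 3 ^ N ≤ R * 3 ^ N := Nat.mul_le_mul_right _ hsR
      rw [Nat.succ_mul] at h6
      rw [h2] at h3
      omega
    · omega
  rw [TS_gt l hM hz, TS_gt l' hM hz, ← hB]
  have hE : EP r ((Bk N l (z₀ / 3 ^ N)).filter (z₀ < ·) ∪ CR N l (z₀ / 3 ^ N + 1) R)
      ((Bk N l (z₀ / 3 ^ N)).filter (z₀ < ·) ∪ CR N l' (z₀ / 3 ^ N + 1) R) := by
    refine EP.union (EP.refl _ _) (EP_CR hr l l' hsR) ?_ ?_
    · exact Finset.disjoint_left.2 fun z h3 h4 => (h1 l l z h3 z h4).ne rfl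
    · exact Finset.disjoint_left.2 fun z h3 h4 => (h1 l l' z h3 z h4).ne rfl
  have hM2 := hM' l'
  rw [← hB] at hM2
  rw [KT_append he hE (EP.refl r {M}) (hM' l) (hM' l) hM2 hM2, KT_self he, add_zero,
    KT_append he (EP.refl _ _) (EP_CR hr l l' hsR) (h1 l l) (h1 l l') (h1 l l) (h1 l l'),
    KT_self he, zero_add, KT_CR he hr l l' hsR]

/-! ## The values for `N = 11` -/

lemma Mn_le (R : ℕ) : R * 3 ^ 11 ≤ Mn R := Nat.le_add_right _ _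

theorem KT_four (R : ℕ) (l l' : ℕ → ZMod 3) :
    KT 4 (TL R l) (TL R l') = 508 * 3 ^ 9 * Gam R l l' 0 := by
  unfold TL Gam
  rw [KT_TS (by decide) (by norm_num) (Mn_le R), Nat.Ico_zero_eq_range, Finset.mul_sum]
  exact Finset.sum_congr rfl fun s _ => G2_sk_four _ _

theorem KT_six (R : ℕ) (l l' : ℕ → ZMod 3) :
    KT 6 (TL R l) (TL R l') = -434668 * 3 ^ 10 * Gam R l l' 0 := by
  unfold TL Gam
  rw [KT_TS (by decide) (by norm_num) (Mn_le R), Nat.Ico_zero_eq_range, Finset.mul_sum]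
  exact Finset.sum_congr rfl fun s _ => G2_sk_six _ _

theorem KT_four_gt {R z₀ : ℕ} (hz : z₀ < R * 3 ^ 11) {l l' : ℕ → ZMod 3}
    (hl : l (z₀ / 3 ^ 11) = l' (z₀ / 3 ^ 11)) :
    KT 4 ((TL R l).filter (z₀ < ·)) ((TL R l').filter (z₀ < ·)) =
      508 * 3 ^ 9 * Gam R l l' (z₀ / 3 ^ 11 + 1) := by
  unfold TL Gam
  rw [KT_TS_gt (by decide) (by norm_num) (Mn_le R) hz hl, Finset.mul_sum]
  exact Finset.sum_congr rfl fun s _ => G2_sk_four _ _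

theorem KT_six_gt {R z₀ : ℕ} (hz : z₀ < R * 3 ^ 11) {l l' : ℕ → ZMod 3}
    (hl : l (z₀ / 3 ^ 11) = l' (z₀ / 3 ^ 11)) :
    KT 6 ((TL R l).filter (z₀ < ·)) ((TL R l').filter (z₀ < ·)) =
      -434668 * 3 ^ 10 * Gam R l l' (z₀ / 3 ^ 11 + 1) := by
  unfold TL Gam
  rw [KT_TS_gt (by decide) (by norm_num) (Mn_le R) hz hl, Finset.mul_sum]
  exact Finset.sum_congr rfl fun s _ => G2_sk_six _ _

end Pool.Agent.T1K
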