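import Mathlib
import Pool.Agent.T1K.Defs2
import Pool.Agent.T1K.KerT

/-!
# T1: facts on the tick sets `TL R l` and on the constants
-/

set_option autoImplicit false

open Finset

namespace Pool.Agent.T1K

lemma mem_TL {R : ℕ} {l : ℕ → ZMod 3} {z : ℕ} :
    z ∈ TL R l ↔ (z < R * 3 ^ 11 ∧ dg 11 (z % 3 ^ 11) = l (z / 3 ^ 11)) ∨ z = Mn R := by
  simp only [TL, TS, mem_union, mem_filter, mem_range, mem_singleton]

lemma le_Mn (R : ℕ) : R * 3 ^ 11 ≤ Mn R := Nat.le_add_right _ _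

lemma lt_Mn (R : ℕ) : R * 3 ^ 11 < Mn R := by
  unfold Mn Kn
  omega

lemma TL_le {R : ℕ} {l : ℕ → ZMod 3} {z : ℕ} (h : z ∈ TL R l) : z ≤ Mn R := by
  rcases mem_TL.1 h with ⟨h1, _⟩ | h1
  · exact h1.le.trans (le_Mn R)
  · exact h1.le

lemma Mn_mem (R : ℕ) (l : ℕ → ZMod 3) : Mn R ∈ TL R l := mem_TL.2 (Or.inr rfl)

lemma slot_mem {R s z : ℕ} {l : ℕ → ZMod 3} (hs : s < R) (hz : z < 3 ^ 11) :
    s * 3 ^ 11 + z ∈ TL R l ↔ z ∈ Cl 11 (l s) := by
  have h1 : (s * 3 ^ 11 + z) / 3 ^ 11 = s := by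
    rw [Nat.mul_comm, Nat.mul_add_div (by positivity), Nat.div_eq_of_lt hz, Nat.add_zero]
  have h2 : (s * 3 ^ 11 + z) % 3 ^ 11 = z := by
    rw [Nat.mul_comm, Nat.mul_add_mod, Nat.mod_eq_of_lt hz]
  have h3 : s * 3 ^ 11 + z < R * 3 ^ 11 := by
    have : (s + 1) * 3 ^ 11 ≤ R * 3 ^ 11 := Nat.mul_le_mul_right _ hs
    rw [Nat.add_mul, Nat.one_mul] at this
    omega
  have h4 : s * 3 ^ 11 + z ≠ Mn R := (h3.trans_le (le_Mn R)).ne
  rw [mem_TL, h1, h2]
  constructor
  · rintro (⟨_, h⟩ | h)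
    · exact mem_filter.2 ⟨mem_range.2 hz, h⟩
    · exact absurd h h4
  · intro h
    exact Or.inl ⟨h3, (mem_filter.1 h).2⟩

lemma TL_sim (R : ℕ) (l l' : ℕ → ZMod 3) : Sim 11 R (Mn R) (TL R l) (TL R l') where
  le := fun _ h => TL_le h
  le' := fun _ h => TL_le h
  RM := le_Mn R
  slot := fun s hs => Or.inr ⟨l s, l' s, fun _ hz => ⟨slot_mem hs hz, slot_mem hs hz⟩⟩
  tail := by
    intro z hz
    rw [mem_TL, mem_TL]
    constructor
    · rintro (⟨h, _⟩ | h)
      · omega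
      · exact Or.inr h
    · rintro (⟨h, _⟩ | h)
      · omega
      · exact Or.inr h

/-- number of elements of a digit class -/
lemma card_Cl (n : ℕ) (t : ZMod 3) : (Cl (n + 1) t).card = 3 ^ n := by
  have h1 : ∀ t t' : ZMod 3, (Cl (n + 1) t).card = (Cl (n + 1) t').card := by
    intro t t'
    have h := lin_indep (n := n + 1) (j := 0) (by omega) 0 0 t t'
    simp only [pow_zero, sum_const, nsmul_eq_mul, mul_one] at h
    exact_mod_cast h
  have h2 : ∑ t : ZMod 3, (Cl (n + 1) t).card = 3 ^ (n + 1) := by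
    have : (range (3 ^ (n + 1))).card = ∑ t : ZMod 3, (Cl (n + 1) t).card :=
      card_eq_sum_card_fiberwise (fun _ _ => mem_coe.2 (mem_univ _))
    rw [← this, card_range]
  have h3 : ∑ t' : ZMod 3, (Cl (n + 1) t').card = 3 * (Cl (n + 1) t).card := by
    rw [sum_congr rfl (fun t' _ => h1 t' t)]
    simp [ZMod.card]
  rw [h3, pow_succ] at h2
  omega

lemma TL_card (R : ℕ) (l : ℕ → ZMod 3) : (TL R l).card = Kn R := by
  have key : ∀ n ≤ R, ((TL R l).filter (· < n * 3 ^ 11)).card = n * 3 ^ 10 := by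
    intro n hn
    induction n with
    | zero => simp
    | succ n ih =>
      have hsp : (TL R l).filter (· < (n + 1) * 3 ^ 11)
          = (TL R l).filter (· < n * 3 ^ 11) ∪ (Cl 11 (l n)).map (addLeftEmbedding (n * 3 ^ 11)) := by
        ext z
        simp only [mem_filter, mem_union, mem_map, addLeftEmbedding_apply]
        constructor
        · rintro ⟨h1, h2⟩
          by_cases h3 : z < n * 3 ^ 11
          · exact Or.inl ⟨h1, h3⟩
          · right
            refine ⟨z - n * 3 ^ 11, ?_, by omega⟩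
            have h4 : z - n * 3 ^ 11 < 3 ^ 11 := by
              rw [Nat.add_mul, Nat.one_mul] at h2
              omega
            rw [← slot_mem (R := R) (by omega) h4]
            have h5 : n * 3 ^ 11 + (z - n * 3 ^ 11) = z := by omega
            rw [h5]
            exact h1
        · rintro (⟨h1, h2⟩ | ⟨y, h1, rfl⟩)
          · exact ⟨h1, h2.trans_le (Nat.mul_le_mul_right _ (by omega))⟩
          · have h2 : y < 3 ^ 11 := mem_Cl_lt h1
            refine ⟨(slot_mem (by omega) h2).2 h1, ?_⟩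
            rw [Nat.add_mul, Nat.one_mul]
            omega
      rw [hsp, card_union_of_disjoint, ih (by omega), card_map, card_Cl]
      · ring
      · rw [disjoint_left]
        intro z h1 h2
        rw [mem_filter] at h1
        rw [mem_map] at h2
        obtain ⟨y, _, rfl⟩ := h2
        have := h1.2
        simp only [addLeftEmbedding_apply] at this
        omega
  have hsp : TL R l = (TL R l).filter (· < R * 3 ^ 11) ∪ {Mn R} := by
    ext z
    rw [mem_union, mem_filter, mem_singleton]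
    constructor
    · intro h
      rcases mem_TL.1 h with ⟨h1, _⟩ | h1
      · exact Or.inl ⟨h, h1⟩
      · exact Or.inr h1
    · rintro (h | h)
      · exact h.1
      · rw [h]; exact Mn_mem R l
  rw [hsp, card_union_of_disjoint, key R le_rfl, card_singleton]
  · rfl
  · rw [disjoint_singleton_right, mem_filter]
    rintro ⟨_, h⟩
    have := lt_Mn R
    omega

/-- a common tick lies in slots with equal letters -/
lemma letter_eq {R : ℕ} {l l' : ℕ → ZMod 3} {z : ℕ} (h : z ∈ TL R l) (h' : z ∈ TL R l')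
    (hz : z < R * 3 ^ 11) : l (z / 3 ^ 11) = l' (z / 3 ^ 11) := by
  have hne : z ≠ Mn R := (hz.trans_le (le_Mn R)).ne
  rcases mem_TL.1 h with ⟨_, h1⟩ | h1
  · rcases mem_TL.1 h' with ⟨_, h2⟩ | h2
    · rw [← h1, h2]
    · exact absurd h2 hne
  · exact absurd h1 hne

lemma TL_cut {R : ℕ} {l l' : ℕ → ZMod 3} {z : ℕ} (h : z ∈ TL R l) (h' : z ∈ TL R l') :
    Cut 11 R (TL R l) (TL R l') z := by
  by_cases hz : R * 3 ^ 11 ≤ z
  · exact Or.inr (Or.inl hz)
  · push Not at hz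
    right; right
    intro y h1 h2
    have e := letter_eq h h' hz
    have hs : z / 3 ^ 11 < R := Nat.div_lt_of_lt_mul (by rw [Nat.mul_comm]; exact hz)
    obtain ⟨w, rfl⟩ := Nat.exists_eq_add_of_le h1
    have hw : w < 3 ^ 11 := by
      rw [Nat.add_mul, Nat.one_mul] at h2
      omega
    rw [slot_mem hs hw, slot_mem hs hw, e]

/-- removing a common point -/
lemma Sim.erase {N R M : ℕ} {T T' : Finset ℕ} (h : Sim N R M T T') {z : ℕ}
    (hc : R * 3 ^ N ≤ z ∨ SameOn N (z / 3 ^ N) T T') :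
    Sim N R M (T.erase z) (T'.erase z) := by
  have hp : 0 < 3 ^ N := by positivity
  refine ⟨fun y hy => h.le y (mem_of_mem_erase hy), fun y hy => h.le' y (mem_of_mem_erase hy),
    h.RM, ?_, ?_⟩
  · intro s hs
    by_cases hsz : z / 3 ^ N = s
    · rcases hc with hc | hc
      · exfalso
        have h1 : s * 3 ^ N + 3 ^ N ≤ R * 3 ^ N := by
          calc s * 3 ^ N + 3 ^ N = (s + 1) * 3 ^ N := by ring
            _ ≤ R * 3 ^ N := Nat.mul_le_mul_right _ hs
        have h2 := Nat.div_add_mod z (3 ^ N)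
        have h3 := Nat.mod_lt z hp
        rw [hsz, Nat.mul_comm] at h2
        omega
      · left
        intro y h1 h2
        rw [hsz] at hc
        rw [mem_erase, mem_erase, hc y h1 h2]
    · rcases h.slot s hs with h1 | ⟨t, t', h1⟩
      · left
        intro y h2 h3
        rw [mem_erase, mem_erase, h1 y h2 h3]
      · right
        refine ⟨t, t', fun y hy => ?_⟩
        have hne : s * 3 ^ N + y ≠ z := by
          intro he
          apply hsz
          rw [← he, Nat.mul_comm, Nat.mul_add_div hp, Nat.div_eq_of_lt hy, Nat.add_zero]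
        rw [mem_erase, mem_erase, and_iff_right hne, and_iff_right hne]
        exact h1 y hy
  · intro y hy
    rw [mem_erase, mem_erase, h.tail y hy]

lemma SameOn.erase {N s : ℕ} {T T' : Finset ℕ} (h : SameOn N s T T') (z : ℕ) :
    SameOn N s (T.erase z) (T'.erase z) := by
  intro y h1 h2
  rw [mem_erase, mem_erase, h y h1 h2]

lemma TL_cut' {R : ℕ} {l l' : ℕ → ZMod 3} {z : ℕ} (h : z ∈ TL R l) (h' : z ∈ TL R l') :
    R * 3 ^ 11 ≤ z ∨ SameOn 11 (z / 3 ^ 11) (TL R l) (TL R l') := by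
  rcases TL_cut h h' with h1 | h1 | h1
  · -- `z = 0`
    by_cases hz : R * 3 ^ 11 ≤ z
    · exact Or.inl hz
    · push Not at hz
      right
      intro y h2 h3
      have e := letter_eq h h' hz
      have hs : z / 3 ^ 11 < R := Nat.div_lt_of_lt_mul (by rw [Nat.mul_comm]; exact hz)
      obtain ⟨w, rfl⟩ := Nat.exists_eq_add_of_le h2
      have hw : w < 3 ^ 11 := by
        rw [Nat.add_mul, Nat.one_mul] at h3
        omega
      rw [slot_mem hs hw, slot_mem hs hw, e]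
  · exact Or.inl h1
  · exact Or.inr h1

lemma TL_erase_sim {R : ℕ} {l l' : ℕ → ZMod 3} {z : ℕ} (h : z ∈ TL R l) (h' : z ∈ TL R l') :
    Sim 11 R (Mn R) ((TL R l).erase z) ((TL R l').erase z) :=
  (TL_sim R l l').erase (TL_cut' h h')

lemma TL_erase_cut {R : ℕ} {l l' : ℕ → ZMod 3} {z : ℕ} (h : z ∈ TL R l) (h' : z ∈ TL R l') :
    Cut 11 R ((TL R l).erase z) ((TL R l').erase z) z := by
  rcases TL_cut' h h' with h1 | h1
  · exact Or.inr (Or.inl h1)
  · exact Or.inr (Or.inr (h1.erase z))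

/-! ## constants -/

lemma Kn_ge {R : ℕ} (hR : 1 ≤ R) : 59050 ≤ Kn R := by
  unfold Kn
  have : 1 * 3 ^ 10 ≤ R * 3 ^ 10 := Nat.mul_le_mul_right _ hR
  norm_num at this ⊢
  omega

lemma Mn_ge {R : ℕ} (hR : 1 ≤ R) : 177147 ≤ Mn R := by
  unfold Mn
  have : 1 * 3 ^ 11 ≤ R * 3 ^ 11 := Nat.mul_le_mul_right _ hR
  norm_num at this ⊢
  omega

/-- `P = K M` -/
lemma P_ge {R : ℕ} (hR : 1 ≤ R) : (10 : ℝ) ^ 10 ≤ (Kn R : ℝ) * (Mn R : ℝ) := by
  have h1 : (59050 : ℝ) ≤ Kn R := by exact_mod_cast Kn_ge hR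
  have h2 : (177147 : ℝ) ≤ Mn R := by exact_mod_cast Mn_ge hR
  nlinarith

lemma hn_pos {R : ℕ} (hR : 1 ≤ R) : 0 < hn R := by
  have := P_ge hR
  unfold hn
  positivity

lemma an_pos {R : ℕ} (hR : 1 ≤ R) : 0 < an R := by
  have h1 : (59050 : ℝ) ≤ Kn R := by exact_mod_cast Kn_ge hR
  unfold an
  positivity

/-- `h P^16 = 1` -/
lemma hn_mul {R : ℕ} (hR : 1 ≤ R) : hn R * ((Kn R : ℝ) * (Mn R : ℝ)) ^ 16 = 1 := by
  have := P_ge hR
  unfold hn
  have h0 : ((Kn R : ℝ) * (Mn R : ℝ)) ^ 16 ≠ 0 := by positivity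
  rw [one_div, inv_mul_cancel₀ h0]

lemma std_aux {h P : ℝ} (hP : (10 : ℝ) ^ 10 ≤ P) (hmul : h * P ^ 16 = 1) : h * P ≤ 1 / 10 ^ 10 := by
  have hP0 : 0 < P := lt_of_lt_of_le (by norm_num) hP
  have hP1 : 1 ≤ P := le_trans (by norm_num) hP
  have hP15 : (10 : ℝ) ^ 10 ≤ P ^ 15 := hP.trans (le_self_pow₀ hP1 (by norm_num))
  have h1 : h * P * P ^ 15 = 1 := by rw [← hmul]; ring
  have hh : 0 ≤ h * P := by
    by_contra hc
    push Not at hc
    have : h * P * P ^ 15 < 0 := mul_neg_of_neg_of_pos hc (by positivity)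
    linarith
  have h2 : h * P * 10 ^ 10 ≤ 1 := by
    rw [← h1]
    exact mul_le_mul_of_nonneg_left hP15 hh
  rw [le_div_iff₀ (by norm_num)]
  exact h2

lemma hP_le {R : ℕ} (hR : 1 ≤ R) : hn R * ((Kn R : ℝ) * (Mn R : ℝ)) ≤ 1 / 10 ^ 10 :=
  std_aux (P_ge hR) (hn_mul hR)

lemma std {R : ℕ} (hR : 1 ≤ R) :
    Std (an R) (hn R) (2 * hn R * Kn R * Mn R) (Kn R) (Mn R) := by
  have hK : (59050 : ℝ) ≤ Kn R := by exact_mod_cast Kn_ge hR
  have hh := hn_pos hR
  have hhP := hP_le hR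
  have ha := an_pos hR
  have haK : an R * (Kn R : ℝ) = 1 / 100 := by
    unfold an
    have : (Kn R : ℝ) ≠ 0 := by positivity
    field_simp
  generalize hn R = h at *
  generalize an R = a at *
  refine ⟨ha, hh, ?_, ?_, ?_, rfl, ?_, ?_⟩
  · rw [haK]; norm_num
  · exact le_trans (by norm_num) (Kn_ge hR)
  · exact le_trans (by norm_num) (Mn_ge hR)
  · have h1 : 2 * h * Kn R * Mn R = 2 * (h * ((Kn R : ℝ) * (Mn R : ℝ))) := by ring
    rw [h1]
    calc 2 * (h * ((Kn R : ℝ) * (Mn R : ℝ))) ≤ 2 * (1 / 10 ^ 10) := by linarith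
      _ ≤ 1 / 1000 := by norm_num
  · have hK0 : (0 : ℝ) < Kn R := by linarith
    have h1 : h * Mn R * Kn R ≤ a / 2 * Kn R := by
      have h2 : h * Mn R * Kn R = h * ((Kn R : ℝ) * (Mn R : ℝ)) := by ring
      have h3 : a / 2 * Kn R = 1 / 200 := by linarith
      rw [h2, h3]
      calc h * ((Kn R : ℝ) * (Mn R : ℝ)) ≤ 1 / 10 ^ 10 := hhP
        _ ≤ 1 / 200 := by norm_num
    exact le_of_mul_le_mul_right h1 hK0

end Pool.Agent.T1K
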