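import Mathlib
import Pool.Agent.T1K.Leaf1
import Pool.Agent.T1K.LeafFub
import Pool.Agent.T1K.Leafmom
import Pool.Agent.T1K.Leafext
import Pool.Agent.T1K.Inv
import Pool.Agent.T1K.Tick

/-!
# The leaf pair: reduction to the kernels of the centres
-/

set_option autoImplicit false

open Finset MeasureTheory

namespace Pool.Agent.T1K

namespace LeafAlg

theorem cut_cases {R M z : ℕ} {T T' : Finset ℕ} (hT : Sim 11 R M T T') (hz : z ∈ T) (hz' : z ∈ T')
    (hc : Cut 11 R T T' z) : R * 3 ^ 11 ≤ z ∨ SameOn 11 (z / 3 ^ 11) T T' := by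
  rcases hc with h1 | h1 | h1
  · subst h1
    by_cases hR : R = 0
    · left; subst hR; simp
    · right
      rw [Nat.zero_div]
      rcases hT.slot 0 (Nat.pos_of_ne_zero hR) with h2 | ⟨t, t', h2⟩
      · exact h2
      · have h3 : (0 : ℕ) < 3 ^ 11 := by positivity
        have e1 := (h2 0 h3).1
        have e2 := (h2 0 h3).2
        rw [Nat.zero_mul, Nat.zero_add] at e1 e2
        have m1 := e1.1 hz
        have m2 := e2.1 hz'
        unfold Cl at m1 m2
        have t1 := (mem_filter.1 m1).2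
        have t2 := (mem_filter.1 m2).2
        have ht : t = t' := t1.symm.trans t2
        subst ht
        intro y _ hy
        rw [Nat.zero_add, Nat.one_mul] at hy
        have h4 := h2 y hy
        rw [Nat.zero_mul, Nat.zero_add] at h4
        exact h4.1.trans h4.2.symm
  · exact Or.inl h1
  · exact Or.inr h1

/-- removing the condition of nonempty intervals -/
theorem drop_cond {w w' : ℝ → ℝ → ℝ} (hw : C2 w) (hw' : C2 w') {al eps : ℝ} (hal : 0 ≤ al)
    (hal1 : al ≤ 1) (heps : 0 ≤ eps)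
    (h0 : ∀ x y, 0 ≤ w x y) (h0' : ∀ x y, 0 ≤ w' x y)
    (h1 : ∀ x ∈ Set.Ioc (0 : ℝ) 1, ∀ y ∈ Set.Ioc (0 : ℝ) 1, w x y ≤ 1)
    (h1' : ∀ x ∈ Set.Ioc (0 : ℝ) 1, ∀ y ∈ Set.Ioc (0 : ℝ) 1, w' x y ≤ 1)
    (hs : ∀ x ∈ Set.Ioc (0 : ℝ) 1, ∀ y ∈ Set.Ioc (0 : ℝ) 1, y < max x al → w x y ≤ eps)
    (hs' : ∀ x ∈ Set.Ioc (0 : ℝ) 1, ∀ y ∈ Set.Ioc (0 : ℝ) 1, y < max x al → w' x y ≤ eps) :
    |I4 (fun x y x2 y2 => w x y * w' x2 y2 *
        (if max x al ≤ y ∧ max x2 al ≤ y2 then sK (max x al) y (max x2 al) y2 else 0))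
      - I4 (fun x y x2 y2 => w x y * w' x2 y2 * sK (max x al) y (max x2 al) y2)| ≤ 6 * eps := by
  have hK : Continuous fun p : (ℝ × ℝ) × (ℝ × ℝ) =>
      sK (max p.1.1 al) p.1.2 (max p.2.1 al) p.2.2 := by
    unfold sK
    fun_prop
  have hc1 : Continuous fun p : (ℝ × ℝ) × (ℝ × ℝ) => w p.1.1 p.1.2 :=
    Continuous.comp (g := fun p : ℝ × ℝ => w p.1 p.2) hw continuous_fst
  have hc2 : Continuous fun p : (ℝ × ℝ) × (ℝ × ℝ) => w' p.2.1 p.2.2 :=
    Continuous.comp (g := fun p : ℝ × ℝ => w' p.1 p.2) hw' continuous_snd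
  have hG : Ct (fun x y x2 y2 => w x y * w' x2 y2 * sK (max x al) y (max x2 al) y2) :=
    (hc1.mul hc2).mul hK
  have hset : MeasurableSet {p : (ℝ × ℝ) × (ℝ × ℝ) | max p.1.1 al ≤ p.1.2 ∧ max p.2.1 al ≤ p.2.2} :=
    MeasurableSet.inter
      (measurableSet_le (f := fun p : (ℝ × ℝ) × (ℝ × ℝ) => max p.1.1 al) (g := fun p => p.1.2)
        (by fun_prop) (by fun_prop))
      (measurableSet_le (f := fun p : (ℝ × ℝ) × (ℝ × ℝ) => max p.2.1 al) (g := fun p => p.2.2)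
        (by fun_prop) (by fun_prop))
  have hF : Ms (fun x y x2 y2 => w x y * w' x2 y2 *
      (if max x al ≤ y ∧ max x2 al ≤ y2 then sK (max x al) y (max x2 al) y2 else 0)) :=
    (hc1.mul hc2).measurable.mul (Measurable.ite hset hK.measurable measurable_const)
  have hm : ∀ {x y : ℝ}, x ∈ Set.Ioc (0 : ℝ) 1 → y ∈ Set.Ioc (0 : ℝ) 1 →
      0 ≤ max x al ∧ max x al ≤ 1 ∧ 0 ≤ y ∧ y ≤ 1 := fun hx hy =>
    ⟨le_max_of_le_right hal, max_le hx.2 hal1, hy.1.le, hy.2⟩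
  have hsK : ∀ x ∈ Set.Ioc (0 : ℝ) 1, ∀ y ∈ Set.Ioc (0 : ℝ) 1, ∀ x2 ∈ Set.Ioc (0 : ℝ) 1,
      ∀ y2 ∈ Set.Ioc (0 : ℝ) 1, |sK (max x al) y (max x2 al) y2| ≤ 6 := by
    intro x hx y hy x2 hx2 y2 hy2
    obtain ⟨a1, a2, a3, a4⟩ := hm hx hy
    obtain ⟨b1, b2, b3, b4⟩ := hm hx2 hy2
    exact abs_sK_le ⟨a1, a2⟩ ⟨a3, a4⟩ ⟨b1, b2⟩ ⟨b3, b4⟩
  have hFb : Bd (fun x y x2 y2 => w x y * w' x2 y2 *
      (if max x al ≤ y ∧ max x2 al ≤ y2 then sK (max x al) y (max x2 al) y2 else 0)) 6 := by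
    intro x hx y hy x2 hx2 y2 hy2
    have h5 : |(if max x al ≤ y ∧ max x2 al ≤ y2 then sK (max x al) y (max x2 al) y2 else 0)|
        ≤ 6 := by
      split_ifs
      · exact hsK x hx y hy x2 hx2 y2 hy2
      · rw [abs_zero]; norm_num
    rw [abs_mul, abs_of_nonneg (mul_nonneg (h0 _ _) (h0' _ _))]
    have h6 : w x y * w' x2 y2 ≤ 1 := by
      calc w x y * w' x2 y2 ≤ 1 * 1 := mul_le_mul (h1 x hx y hy) (h1' x2 hx2 y2 hy2) (h0' _ _)
            zero_le_one
        _ = 1 := one_mul 1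
    calc _ ≤ 1 * 6 := mul_le_mul h6 h5 (abs_nonneg _) zero_le_one
      _ = 6 := one_mul 6
  obtain ⟨D, hD⟩ := hG.bd
  rw [← I4_sub hF hFb hG.ms hD]
  refine I4_le ?_
  intro x hx y hy x2 hx2 y2 hy2
  change |w x y * w' x2 y2 *
      (if max x al ≤ y ∧ max x2 al ≤ y2 then sK (max x al) y (max x2 al) y2 else 0)
      - w x y * w' x2 y2 * sK (max x al) y (max x2 al) y2| ≤ 6 * eps
  by_cases hA : max x al ≤ y ∧ max x2 al ≤ y2
  · rw [if_pos hA, sub_self, abs_zero]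
    positivity
  · rw [if_neg hA, mul_zero, zero_sub, abs_neg, abs_mul,
      abs_of_nonneg (mul_nonneg (h0 _ _) (h0' _ _))]
    have h7 : w x y * w' x2 y2 ≤ eps := by
      rw [not_and_or, not_le, not_le] at hA
      rcases hA with hA | hA
      · calc w x y * w' x2 y2 ≤ eps * 1 := mul_le_mul (hs x hx y hy hA) (h1' x2 hx2 y2 hy2)
              (h0' _ _) heps
          _ = eps := mul_one eps
      · calc w x y * w' x2 y2 ≤ 1 * eps := mul_le_mul (h1 x hx y hy) (hs' x2 hx2 y2 hy2 hA)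
              (h0' _ _) zero_le_one
          _ = eps := one_mul eps
    calc _ ≤ eps * 6 := mul_le_mul h7 (hsK x hx y hy x2 hx2 y2 hy2) (abs_nonneg _) heps
      _ = 6 * eps := mul_comm _ _

end LeafAlg

open LeafAlg in
/-- reduction of the leaf pair to the kernels (same tick `z`) -/
theorem leaf_split {R M K : ℕ} {T T' S S' : Finset ℕ} {a h eta : ℝ} (st : Std a h eta K M)
    (hT : Sim 11 R M T T') (hS : Sim 11 R M S S') (hTK : T.card = K) (hSK : S.card = K)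
    {z : ℕ} (hz : z ∈ T) (hz' : z ∈ T') (hc : Cut 11 R T T' z) :
    |Nf (dL (fun z => a + h * z) (fun z => a + h * z) T S z)
        (dL (fun z => a + h * z) (fun z => a + h * z) T' S' z)
      - (-(1 / 2) * Kq (a + h * z)
            (dX (fun z => a + h * z) (fun z => a + h * z) (T.erase z) S)
            (dX (fun z => a + h * z) (fun z => a + h * z) (T'.erase z) S')
        + 1 / 2 * Kq 0
            (dX (fun z => a + h * z) (fun z => a + h * z) S (T.erase z))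
            (dX (fun z => a + h * z) (fun z => a + h * z) S' (T'.erase z)))|
        ≤ 10 ^ 6 * eta ^ 7 := by
  have h0 := st.h0
  have ha := st.a0
  have hK9 := st.K9
  have hbeta := st.beta_le
  have heta0 := st.eta0
  have hsm := st.small
  have hM0 : 0 ≤ h * M := by positivity
  have hcc := cut_cases hT hz hz' hc
  have hTe : Sim 11 R M (T.erase z) (T'.erase z) := hT.erase hcc
  have hce : Cut 11 R (T.erase z) (T'.erase z) z := by
    rcases hcc with h1 | h1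
    · exact Or.inr (Or.inl h1)
    · exact Or.inr (Or.inr (h1.erase z))
  have hzM : z ≤ M := hT.le z hz
  have hzM' : h * (z : ℝ) ≤ h * M := mul_le_mul_of_nonneg_left (by exact_mod_cast hzM) h0.le
  have hz0 : 0 ≤ h * (z : ℝ) := by positivity
  have hcard : (T.erase z).card = K - 1 := by rw [card_erase_of_mem hz, hTK]
  have hcard' : (T'.erase z).card = K - 1 := by
    rw [card_erase_of_mem hz', ← sim_card (by norm_num) hT, hTK]
  have hS8 : 8 ≤ S.card := by omega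
  have hSc : S.card = S'.card := sim_card (by norm_num) hS
  have hne : (T.erase z).Nonempty := by
    rw [← card_pos, hcard]; omega
  have hne' : (T'.erase z).Nonempty := by
    rw [← card_pos, hcard']; omega
  -- the weights
  obtain ⟨w, hwdef⟩ : ∃ w : ℝ → ℝ → ℝ,
      w = W (fun z => a + h * z) (fun z => a + h * z) (T.erase z) S := ⟨_, rfl⟩
  obtain ⟨w', hwdef'⟩ : ∃ w' : ℝ → ℝ → ℝ,
      w' = W (fun z => a + h * z) (fun z => a + h * z) (T'.erase z) S' := ⟨_, rfl⟩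
  have hw : C2 w := by rw [hwdef]; exact continuous_W _ _ _ _
  have hw' : C2 w' := by rw [hwdef']; exact continuous_W _ _ _ _
  have p0 : ∀ x y, 0 ≤ w x y := by intro x y; rw [hwdef]; exact W_nonneg _ _ _ _ _ _
  have p0' : ∀ x y, 0 ≤ w' x y := by intro x y; rw [hwdef']; exact W_nonneg _ _ _ _ _ _
  have p1 : ∀ x ∈ Set.Ioc (0 : ℝ) 1, ∀ y ∈ Set.Ioc (0 : ℝ) 1, w x y ≤ 1 := by
    intro x hx y hy; rw [hwdef]; exact W_le_one (by linarith [hx.1, hy.2])
  have p1' : ∀ x ∈ Set.Ioc (0 : ℝ) 1, ∀ y ∈ Set.Ioc (0 : ℝ) 1, w' x y ≤ 1 := by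
    intro x hx y hy; rw [hwdef']; exact W_le_one (by linarith [hx.1, hy.2])
  have ps : ∀ x ∈ Set.Ioc (0 : ℝ) 1, ∀ y ∈ Set.Ioc (0 : ℝ) 1, y < max x (a + h * z) →
      w x y ≤ (h * M) ^ 8 := by
    intro x hx y hy hlt
    rcases lt_max_iff.1 hlt with h1 | h1
    · rw [hwdef, W_eq_zero _ _ _ hne h1.le]
      positivity
    · rw [hwdef]
      exact leaf_small st (by omega) hx.1.le (by linarith)
  have ps' : ∀ x ∈ Set.Ioc (0 : ℝ) 1, ∀ y ∈ Set.Ioc (0 : ℝ) 1, y < max x (a + h * z) →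
      w' x y ≤ (h * M) ^ 8 := by
    intro x hx y hy hlt
    rcases lt_max_iff.1 hlt with h1 | h1
    · rw [hwdef', W_eq_zero _ _ _ hne' h1.le]
      positivity
    · rw [hwdef']
      exact leaf_small st (by omega) hx.1.le (by linarith)
  -- the fourfold integral
  have f1 := drop_cond hw hw' (al := a + h * z) (eps := (h * M) ^ 8) (by linarith) (by linarith)
    (by positivity) p0 p0' p1 p1' ps ps'
  have f2 := leaf_fub (fun z => a + h * z) (fun z => a + h * z) (fun z => a + h * z)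
    (fun z => a + h * z) T S T' S' z z
  have f3 : Nf (dL (fun z => a + h * z) (fun z => a + h * z) T S z)
        (dL (fun z => a + h * z) (fun z => a + h * z) T' S' z) =
      I4 (fun x y x2 y2 => w x y * w' x2 y2 *
        (if max x (a + h * z) ≤ y ∧ max x2 (a + h * z) ≤ y2 then
          sK (max x (a + h * z)) y (max x2 (a + h * z)) y2 else 0)) := by
    rw [f2, hwdef, hwdef']
    rfl
  rw [← f3, split_exact hw hw'] at f1
  -- the kernels
  have k1 : I4 (fun x y x2 y2 => w x y * w' x2 y2 *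
      ((max x2 (a + h * z) - max x (a + h * z)) * |max x2 (a + h * z) - max x (a + h * z)|)) =
      Kq (a + h * z) (dX (fun z => a + h * z) (fun z => a + h * z) (T.erase z) S)
            (dX (fun z => a + h * z) (fun z => a + h * z) (T'.erase z) S') := by
    rw [hwdef, hwdef']
    exact i4_lower _ _ _ _ _ _ _ _ _
  have k2 : I4 (fun x y x2 y2 => w x y * w' x2 y2 * ((y2 - y) * |y2 - y|)) =
      - Kq 0 (dX (fun z => a + h * z) (fun z => a + h * z) S (T.erase z))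
            (dX (fun z => a + h * z) (fun z => a + h * z) S' (T'.erase z)) := by
    rw [hwdef, hwdef']
    exact i4_upper _ _ _ _ _ _ _ _
  have k3 : |I4 (fun x y x2 y2 => w x y * w' x2 y2 *
      ((max 0 (max x2 (a + h * z) - y)) ^ 2 - (max 0 (max x (a + h * z) - y2)) ^ 2))| ≤
      200 * eta ^ 7 := by
    rw [hwdef, hwdef']
    exact leaf_ext st hTe hS (by omega) hSK.le (by omega) hS8 hce hzM
  -- the moments
  obtain ⟨m0, m1, m2, m3⟩ := mo_diff hw hw' (al := a + h * z) (del := 200 * eta ^ 7) (by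
    intro i hi j hj
    rw [hwdef, hwdef']
    exact leaf_mom st hTe hS (by omega) hSK.le (by omega) hS8 hce hzM hi hj)
  have q1 : ∀ x ∈ Set.Ioc (0 : ℝ) 1, ∀ y ∈ Set.Ioc (0 : ℝ) 1, |w x y| ≤ 1 := fun x hx y hy => by
    rw [abs_of_nonneg (p0 x y)]; exact p1 x hx y hy
  have hmx : ∀ x ∈ Set.Ioc (0 : ℝ) 1, 0 ≤ max x (a + h * z) ∧ max x (a + h * z) ≤ 1 := fun x hx =>
    ⟨le_max_of_le_left hx.1.le, max_le hx.2 (by linarith)⟩
  have n0 : |I2 w| ≤ 1 := I2_le q1
  have n1 : |Mo w (fun x y => y + max x (a + h * z))| ≤ 2 := mo_le q1 fun x hx y hy =>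
    abs_le.2 ⟨by linarith [(hmx x hx).1, hy.1], by linarith [(hmx x hx).2, hy.2]⟩
  have n2 : |Mo w (fun x y => y - max x (a + h * z))| ≤ 1 := mo_le q1 fun x hx y hy =>
    abs_le.2 ⟨by linarith [(hmx x hx).2, hy.1], by linarith [(hmx x hx).1, hy.2]⟩
  have n3 : |Mo w (fun x y => y ^ 2 - (max x (a + h * z)) ^ 2)| ≤ 1 := mo_le q1 fun x hx y hy => by
    have e1 := hmx x hx
    have e2 : 0 ≤ y ^ 2 := by positivity
    have e3 : y ^ 2 ≤ 1 := pow_le_one₀ hy.1.le hy.2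
    have e4 : 0 ≤ (max x (a + h * z)) ^ 2 := by positivity
    have e5 : (max x (a + h * z)) ^ 2 ≤ 1 := pow_le_one₀ e1.1 e1.2
    exact abs_le.2 ⟨by linarith, by linarith⟩
  have cmb := comb_le m0 m1 m2 m3 n0 n1 n2 n3
  have hM8 : (h * M) ^ 8 ≤ 1 / 1000 * eta ^ 7 := by
    calc (h * M) ^ 8 ≤ eta ^ 8 := pow_le_pow_left₀ hM0 st.hM_le 8
      _ = eta * eta ^ 7 := by ring
      _ ≤ 1 / 1000 * eta ^ 7 := mul_le_mul_of_nonneg_right hsm (by positivity)
  rw [k1, k2] at f1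
  have he7 : 0 ≤ eta ^ 7 := by positivity
  rw [abs_le] at f1 k3 cmb ⊢
  constructor
  · linarith [f1.1, k3.1, cmb.1]
  · linarith [f1.2, k3.2, cmb.2]

end Pool.Agent.T1K
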