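import Mathlib
import Pool.Agent.T1K.Tick

/-!
# T1: numerical lemmas for the main inequalities
-/

set_option autoImplicit false

namespace Pool.Agent.T1K

lemma num_h {h P : ℝ} (hP : (10 : ℝ) ^ 10 ≤ P) (hmul : h * P ^ 16 = 1) :
    0 < h ∧ h * P ^ 9 ≤ 1 / 10 ^ 70 := by
  have hP0 : 0 < P := lt_of_lt_of_le (by norm_num) hP
  have h0 : 0 < h := by
    by_contra hc
    push Not at hc
    have : h * P ^ 16 ≤ 0 := mul_nonpos_of_nonpos_of_nonneg hc (by positivity)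
    linarith
  refine ⟨h0, ?_⟩
  have h7 : ((10 : ℝ) ^ 10) ^ 7 ≤ P ^ 7 := pow_le_pow_left₀ (by norm_num) hP 7
  have h1 : h * P ^ 9 * P ^ 7 = 1 := by rw [← hmul]; ring
  have h2 : h * P ^ 9 * ((10 : ℝ) ^ 10) ^ 7 ≤ 1 := by
    rw [← h1]
    exact mul_le_mul_of_nonneg_left h7 (by positivity)
  rw [le_div_iff₀ (by norm_num)]
  calc h * P ^ 9 * 10 ^ 70 = h * P ^ 9 * ((10 : ℝ) ^ 10) ^ 7 := by norm_num
    _ ≤ 1 := h2

lemma num_X {h P K M kp G : ℝ} (hP : (10 : ℝ) ^ 10 ≤ P) (hmul : h * P ^ 16 = 1) (hK : 1 ≤ K)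
    (hM : 1 ≤ M) (hKM : K * M = P) (hk : 1 / (12 * K) ≤ kp) (hG : 1 ≤ G) :
    h ^ 5 ≤ kp ^ 2 * h ^ 4 * (508 * 3 ^ 9 * G) / 24
      - (10 ^ 6 * (2 * h * P) ^ 3 * (h * M) ^ 2 + 10 ^ 6 * (2 * h * P) ^ 7) := by
  obtain ⟨h0, h9⟩ := num_h hP hmul
  have hP0 : 0 < P := lt_of_lt_of_le (by norm_num) hP
  have hP1 : 1 ≤ P := le_trans (by norm_num) hP
  have hK0 : 0 < K := by linarith
  have hKP : K ≤ P := by nlinarith
  have hMP : M ≤ P := by nlinarith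
  -- lower bound of the main term
  have hk2 : 1 / (144 * P ^ 2) ≤ kp ^ 2 := by
    have h1 : 1 / (12 * P) ≤ kp := le_trans (by
      apply one_div_le_one_div_of_le (by positivity)
      linarith) hk
    have h2 : (1 / (12 * P)) ^ 2 ≤ kp ^ 2 := pow_le_pow_left₀ (by positivity) h1 2
    calc 1 / (144 * P ^ 2) = (1 / (12 * P)) ^ 2 := by
          field_simp
          norm_num
      _ ≤ _ := h2
  have hmain : h ^ 4 * (2000 / P ^ 2) ≤ kp ^ 2 * h ^ 4 * (508 * 3 ^ 9 * G) / 24 := by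
    have h1 : (1 / (144 * P ^ 2)) * (508 * 3 ^ 9) / 24 ≤ kp ^ 2 * (508 * 3 ^ 9 * G) / 24 := by
      have : (508 * 3 ^ 9 : ℝ) ≤ 508 * 3 ^ 9 * G := by nlinarith
      have h3 : (1 / (144 * P ^ 2)) * (508 * 3 ^ 9) ≤ kp ^ 2 * (508 * 3 ^ 9 * G) :=
        mul_le_mul hk2 this (by norm_num) (by positivity)
      linarith
    have h2 : 2000 / P ^ 2 ≤ (1 / (144 * P ^ 2)) * (508 * 3 ^ 9) / 24 := by
      rw [div_le_iff₀ (by positivity)]
      have : (1 / (144 * P ^ 2)) * (508 * 3 ^ 9) / 24 * P ^ 2 = 508 * 3 ^ 9 / (144 * 24) := by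
        field_simp
      rw [this]
      norm_num
    calc h ^ 4 * (2000 / P ^ 2) ≤ h ^ 4 * (kp ^ 2 * (508 * 3 ^ 9 * G) / 24) :=
          mul_le_mul_of_nonneg_left (h2.trans h1) (by positivity)
      _ = _ := by ring
  -- errors
  have he1 : 10 ^ 6 * (2 * h * P) ^ 3 * (h * M) ^ 2 ≤ h ^ 5 * (10 ^ 7 * P ^ 5) := by
    have h1 : (h * M) ^ 2 ≤ (h * P) ^ 2 :=
      pow_le_pow_left₀ (by positivity) (mul_le_mul_of_nonneg_left hMP h0.le) 2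
    calc 10 ^ 6 * (2 * h * P) ^ 3 * (h * M) ^ 2 ≤ 10 ^ 6 * (2 * h * P) ^ 3 * (h * P) ^ 2 :=
          mul_le_mul_of_nonneg_left h1 (by positivity)
      _ = h ^ 5 * (8 * 10 ^ 6 * P ^ 5) := by ring
      _ ≤ h ^ 5 * (10 ^ 7 * P ^ 5) := by
          apply mul_le_mul_of_nonneg_left _ (by positivity)
          have : 0 < P ^ 5 := by positivity
          nlinarith
  have hhP9 : h * P ^ 9 ≤ 1 := h9.trans (by norm_num)
  have he2 : 10 ^ 6 * (2 * h * P) ^ 7 ≤ h ^ 5 * (10 ^ 9 * P ^ 5) := by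
    have h1 : h ^ 2 * P ^ 2 ≤ 1 := by
      have h2 : h * P ≤ 1 := by
        have : h * P ≤ h * P ^ 9 := mul_le_mul_of_nonneg_left (le_self_pow₀ hP1 (by norm_num)) h0.le
        linarith
      have h3 : 0 ≤ h * P := by positivity
      nlinarith
    calc 10 ^ 6 * (2 * h * P) ^ 7 = h ^ 5 * (128 * 10 ^ 6 * P ^ 5) * (h ^ 2 * P ^ 2) := by ring
      _ ≤ h ^ 5 * (128 * 10 ^ 6 * P ^ 5) * 1 := mul_le_mul_of_nonneg_left h1 (by positivity)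
      _ ≤ h ^ 5 * (10 ^ 9 * P ^ 5) := by
          rw [mul_one]
          apply mul_le_mul_of_nonneg_left _ (by positivity)
          have : 0 < P ^ 5 := by positivity
          nlinarith
  have hfin : h ^ 5 * (2 * 10 ^ 9 * P ^ 5) ≤ h ^ 4 * (2000 / P ^ 2) := by
    have h1 : h * (2 * 10 ^ 9 * P ^ 5) ≤ 2000 / P ^ 2 := by
      rw [le_div_iff₀ (by positivity)]
      have h2 : h * (2 * 10 ^ 9 * P ^ 5) * P ^ 2 = 2 * 10 ^ 9 * (h * P ^ 7) := by ring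
      have h3 : h * P ^ 7 ≤ h * P ^ 9 :=
        mul_le_mul_of_nonneg_left (pow_le_pow_right₀ hP1 (by norm_num)) h0.le
      have h4 : h * P ^ 7 ≤ 1 / 10 ^ 70 := h3.trans h9
      rw [h2]
      calc 2 * 10 ^ 9 * (h * P ^ 7) ≤ 2 * 10 ^ 9 * (1 / 10 ^ 70) := by linarith
        _ ≤ 2000 := by norm_num
    calc h ^ 5 * (2 * 10 ^ 9 * P ^ 5) = h ^ 4 * (h * (2 * 10 ^ 9 * P ^ 5)) := by ring
      _ ≤ _ := mul_le_mul_of_nonneg_left h1 (by positivity)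
  have hP5 : 1 ≤ P ^ 5 := one_le_pow₀ hP1
  have h5 : h ^ 5 ≤ h ^ 5 * P ^ 5 := by
    have : 0 < h ^ 5 := by positivity
    nlinarith
  have h50 : 0 < h ^ 5 * P ^ 5 := by positivity
  nlinarith

lemma num_L {h P K M kL kR G Gt q c : ℝ} (hP : (10 : ℝ) ^ 10 ≤ P) (hmul : h * P ^ 16 = 1)
    (hK : 1 ≤ K) (hM : 1 ≤ M) (hKM : K * M = P) (hk : 1 / (12 * K) ≤ kL)
    (hkR : 9 / 10 * kL ≤ kR) (hq : 1 ≤ q) (hG : 15 * q ^ 2 ≤ 16 * G) (hGt : -q ^ 2 ≤ 8 * Gt)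
    (hc : c = 434668 * 3 ^ 10) :
    h ^ 7 ≤ 1 / 2 * (kL ^ 2 * h ^ 6 * (c * Gt) / 360) + 1 / 2 * (kR ^ 2 * h ^ 6 * (c * G) / 360)
      - (10 ^ 6 * (2 * h * P) ^ 3 * (h * M) ^ 4 + 10 ^ 6 * (2 * h * P) ^ 7
        + 10 ^ 6 * (2 * h * P) ^ 7) := by
  obtain ⟨h0, h9⟩ := num_h hP hmul
  have hP0 : 0 < P := lt_of_lt_of_le (by norm_num) hP
  have hP1 : 1 ≤ P := le_trans (by norm_num) hP
  have hK0 : 0 < K := by linarith
  have hKP : K ≤ P := by nlinarith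
  have hMP : M ≤ P := by nlinarith
  have hkL0 : 0 < kL := lt_of_lt_of_le (by positivity) hk
  have hc0 : 0 < c := by rw [hc]; norm_num
  have hk2 : 1 / (144 * P ^ 2) ≤ kL ^ 2 := by
    have h1 : 1 / (12 * P) ≤ kL := le_trans (by
      apply one_div_le_one_div_of_le (by positivity)
      linarith) hk
    have h2 : (1 / (12 * P)) ^ 2 ≤ kL ^ 2 := pow_le_pow_left₀ (by positivity) h1 2
    calc 1 / (144 * P ^ 2) = (1 / (12 * P)) ^ 2 := by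
          field_simp
          norm_num
      _ ≤ _ := h2
  have hG0 : 15 / 16 * q ^ 2 ≤ G := by linarith
  have hq2 : 1 ≤ q ^ 2 := one_le_pow₀ hq
  have hsum : kL ^ 2 * (1 / 2) ≤ kL ^ 2 * Gt + kR ^ 2 * G := by
    have h1 : 81 / 100 * kL ^ 2 ≤ kR ^ 2 := by
      have := pow_le_pow_left₀ (by positivity) hkR 2
      nlinarith
    have h2 : 81 / 100 * kL ^ 2 * (15 / 16 * q ^ 2) ≤ kR ^ 2 * G :=
      mul_le_mul h1 hG0 (by positivity) (by positivity)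
    have h3 : kL ^ 2 * (-(1 / 8) * q ^ 2) ≤ kL ^ 2 * Gt :=
      mul_le_mul_of_nonneg_left (by linarith) (by positivity)
    have h4 : 0 < kL ^ 2 := by positivity
    nlinarith
  have hmain : h ^ 6 * (10 ^ 4 / P ^ 2) ≤
      1 / 2 * (kL ^ 2 * h ^ 6 * (c * Gt) / 360) + 1 / 2 * (kR ^ 2 * h ^ 6 * (c * G) / 360) := by
    have h1 : 1 / 2 * (kL ^ 2 * h ^ 6 * (c * Gt) / 360) + 1 / 2 * (kR ^ 2 * h ^ 6 * (c * G) / 360)
        = h ^ 6 * (c / 720 * (kL ^ 2 * Gt + kR ^ 2 * G)) := by ring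
    rw [h1]
    apply mul_le_mul_of_nonneg_left _ (by positivity)
    have h2 : c / 720 * (1 / (144 * P ^ 2) * (1 / 2)) ≤ c / 720 * (kL ^ 2 * Gt + kR ^ 2 * G) := by
      apply mul_le_mul_of_nonneg_left _ (by positivity)
      refine le_trans ?_ hsum
      exact mul_le_mul_of_nonneg_right hk2 (by norm_num)
    refine le_trans ?_ h2
    rw [div_le_iff₀ (by positivity)]
    have : c / 720 * (1 / (144 * P ^ 2) * (1 / 2)) * P ^ 2 = c / (720 * 144 * 2) := by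
      field_simp
    rw [this, hc]
    norm_num
  have hhP9 : h * P ^ 9 ≤ 1 := h9.trans (by norm_num)
  have he1 : 10 ^ 6 * (2 * h * P) ^ 3 * (h * M) ^ 4 ≤ h ^ 7 * (10 ^ 7 * P ^ 7) := by
    have h1 : (h * M) ^ 4 ≤ (h * P) ^ 4 :=
      pow_le_pow_left₀ (by positivity) (mul_le_mul_of_nonneg_left hMP h0.le) 4
    calc 10 ^ 6 * (2 * h * P) ^ 3 * (h * M) ^ 4 ≤ 10 ^ 6 * (2 * h * P) ^ 3 * (h * P) ^ 4 :=
          mul_le_mul_of_nonneg_left h1 (by positivity)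
      _ = h ^ 7 * (8 * 10 ^ 6 * P ^ 7) := by ring
      _ ≤ h ^ 7 * (10 ^ 7 * P ^ 7) := by
          apply mul_le_mul_of_nonneg_left _ (by positivity)
          have : 0 < P ^ 7 := by positivity
          nlinarith
  have he2 : 10 ^ 6 * (2 * h * P) ^ 7 = h ^ 7 * (128 * 10 ^ 6 * P ^ 7) := by ring
  have hfin : h ^ 7 * (10 ^ 9 * P ^ 7) ≤ h ^ 6 * (10 ^ 4 / P ^ 2) := by
    have h1 : h * (10 ^ 9 * P ^ 7) ≤ 10 ^ 4 / P ^ 2 := by
      rw [le_div_iff₀ (by positivity)]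
      have h2 : h * (10 ^ 9 * P ^ 7) * P ^ 2 = 10 ^ 9 * (h * P ^ 9) := by ring
      rw [h2]
      calc 10 ^ 9 * (h * P ^ 9) ≤ 10 ^ 9 * (1 / 10 ^ 70) := by linarith
        _ ≤ 10 ^ 4 := by norm_num
    calc h ^ 7 * (10 ^ 9 * P ^ 7) = h ^ 6 * (h * (10 ^ 9 * P ^ 7)) := by ring
      _ ≤ _ := mul_le_mul_of_nonneg_left h1 (by positivity)
  have hP7 : 1 ≤ P ^ 7 := one_le_pow₀ hP1
  have h7 : h ^ 7 ≤ h ^ 7 * P ^ 7 := by
    have : 0 < h ^ 7 := by positivity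
    nlinarith
  have h70 : 0 < h ^ 7 * P ^ 7 := by positivity
  nlinarith

end Pool.Agent.T1K
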