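import Pool.Agent.T1K.Ker

/-!
# T1, row R7: the code

For `q = 3 ^ m ≥ 8 L ^ 2` there are letter sequences `l b`, `b < 2 ^ L`, of length `L q ^ 2` with
`Pair (L * q ^ 2) q (l b) (l b')` for all `b < b'`. The letter of `b` at `(i, a, c)`, `i < L`,
`a, c ∈ F_q`, is `lam (c * f a) + b_i`, where `b_0, b_1, ...` are the binary digits of `b` (the
highest first), `f` is the polynomial whose coefficients are the digits before `b_i` and `lam` is a
non-zero linear form on `F_q`.
-/

set_option autoImplicit false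

open Finset Polynomial

namespace Pool.Agent.T1K

section Field

variable {F : Type} [Field F] [Fintype F] (lam : F →+ ZMod 3)

lemma sum_cyc {x₀ : F} (hx : lam x₀ = 1) (s : ZMod 3) : ∑ x : F, cyc (lam x + s) = 0 := by
  have h1 : ∀ s : ZMod 3, ∑ x : F, cyc (lam x + s) = ∑ x : F, cyc (lam x + (s + 1)) := by
    intro s
    rw [← Equiv.sum_comp (Equiv.addRight x₀)]
    refine Finset.sum_congr rfl fun x _ => ?_
    rw [Equiv.coe_addRight, map_add, hx]
    congr 1
    ring
  have h2 : ∀ u : ZMod 3, cyc u + cyc (u + 1) + cyc (u + 2) = 0 := by decide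
  have h3 : ∑ x : F, cyc (lam x + s) + ∑ x : F, cyc (lam x + (s + 1)) +
      ∑ x : F, cyc (lam x + (s + 1 + 1)) = 0 := by
    rw [← Finset.sum_add_distrib, ← Finset.sum_add_distrib]
    refine Finset.sum_eq_zero fun x _ => ?_
    have h4 := h2 (lam x + s)
    rw [← add_assoc, show lam x + (s + 1 + 1) = lam x + s + 2 by ring]
    exact h4
  rw [← h1 (s + 1), ← h1 s] at h3
  linarith

lemma sum_cyc_mul {x₀ : F} (hx : lam x₀ = 1) {y : F} (hy : y ≠ 0) (s : ZMod 3) :
    ∑ c : F, cyc (lam (c * y) + s) = 0 := by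
  rw [← sum_cyc lam hx s]
  exact Equiv.sum_comp (Equiv.mulRight₀ y hy) fun c => cyc (lam c + s)

/-- the value at `a` of the polynomial with the binary digits of `n` as coefficients -/
def ev (n l : ℕ) (a : F) : F := ∑ j ∈ range l, if n.testBit j then a ^ j else 0

open Classical in
lemma card_ev {n n' l : ℕ} (hn : n < 2 ^ l) (hn' : n' < 2 ^ l) (hne : n ≠ n') :
    (Finset.univ.filter fun a : F => ev n' l a - ev n l a = 0).card ≤ l := by
  obtain ⟨c, hc⟩ : ∃ c : ℕ → F, c = fun j => (if n'.testBit j then 1 else 0) -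
    (if n.testBit j then 1 else 0) := ⟨_, rfl⟩
  obtain ⟨P, hP⟩ : ∃ P : F[X], P = ∑ j ∈ range l, C (c j) * X ^ j := ⟨_, rfl⟩
  have hcoe : ∀ j, j < l → P.coeff j = c j := by
    intro j hj
    rw [hP, finsetSum_coeff]
    simp only [coeff_C_mul, coeff_X_pow, mul_ite, mul_one, mul_zero]
    rw [Finset.sum_ite_eq (range l) j, if_pos (Finset.mem_range.2 hj)]
  have hdeg : P.natDegree ≤ l := by
    rw [hP]
    refine natDegree_sum_le_of_forall_le _ _ fun j hj => ?_
    rw [Finset.mem_range] at hj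
    exact (natDegree_C_mul_X_pow_le _ _).trans hj.le
  have hP0 : P ≠ 0 := by
    intro h0
    apply hne
    apply Nat.eq_of_testBit_eq
    intro j
    by_cases hj : j < l
    · have h1 := hcoe j hj
      rw [h0, coeff_zero, hc] at h1
      simp only at h1
      cases hb : n.testBit j <;> cases hb' : n'.testBit j
      · rfl
      · rw [hb, hb'] at h1
        simp at h1
      · rw [hb, hb'] at h1
        simp at h1
      · rfl
    · have h2 : 2 ^ l ≤ 2 ^ j := Nat.pow_le_pow_right (by norm_num) (not_lt.1 hj)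
      rw [Nat.testBit_lt_two_pow (lt_of_lt_of_le hn h2), Nat.testBit_lt_two_pow (lt_of_lt_of_le hn' h2)]
  have hev : ∀ a : F, ev n' l a - ev n l a = P.eval a := by
    intro a
    rw [hP, eval_finsetSum]
    unfold ev
    rw [← Finset.sum_sub_distrib]
    refine Finset.sum_congr rfl fun j _ => ?_
    rw [eval_mul, eval_C, eval_pow, eval_X, hc]
    simp only
    split_ifs <;> ring
  refine le_trans ?_ ((card_roots' P).trans hdeg)
  refine le_trans (Finset.card_le_card (t := P.roots.toFinset) ?_) (Multiset.toFinset_card_le _)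
  intro a ha
  rw [Finset.mem_filter, hev] at ha
  rw [Multiset.mem_toFinset, mem_roots hP0]
  exact ha.2

end Field

/-- the level at which two numbers split -/
lemma split_level {L b b' : ℕ} (hb : b < b') (hb' : b' < 2 ^ L) :
    ∃ k, k < L ∧ (∀ j, k < j → b / 2 ^ j = b' / 2 ^ j) ∧ (∀ j, j ≤ k → b / 2 ^ j < b' / 2 ^ j) ∧
      b / 2 ^ k % 2 = 0 ∧ b' / 2 ^ k % 2 = 1 := by
  classical
  have hex : ∃ k, b / 2 ^ k = b' / 2 ^ k :=
    ⟨L, by rw [Nat.div_eq_of_lt hb', Nat.div_eq_of_lt (hb.trans hb')]⟩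
  obtain ⟨k₀, hk₀⟩ : ∃ k₀, k₀ = Nat.find hex := ⟨_, rfl⟩
  have h1 : b / 2 ^ k₀ = b' / 2 ^ k₀ := by rw [hk₀]; exact Nat.find_spec hex
  have h2 : ∀ j < k₀, b / 2 ^ j ≠ b' / 2 ^ j := fun j hj => Nat.find_min hex (by rwa [← hk₀])
  have h3 : k₀ ≠ 0 := by
    rintro rfl
    rw [pow_zero, Nat.div_one, Nat.div_one] at h1
    omega
  obtain ⟨k, rfl⟩ : ∃ k, k₀ = k + 1 := ⟨k₀ - 1, by omega⟩
  have h4 : k + 1 ≤ L := by
    by_contra hcon
    exact h2 L (by omega) (by rw [Nat.div_eq_of_lt hb', Nat.div_eq_of_lt (hb.trans hb')])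
  have hlt : ∀ j, j ≤ k → b / 2 ^ j < b' / 2 ^ j := by
    intro j hj
    exact lt_of_le_of_ne (Nat.div_le_div_right hb.le) (h2 j (by omega))
  refine ⟨k, h4, ?_, hlt, ?_⟩
  · intro j hj
    obtain ⟨i, rfl⟩ : ∃ i, j = k + 1 + i := ⟨j - (k + 1), by omega⟩
    rw [pow_add, ← Nat.div_div_eq_div_mul, ← Nat.div_div_eq_div_mul, h1]
  · have h5 := hlt k le_rfl
    rw [pow_succ, ← Nat.div_div_eq_div_mul, ← Nat.div_div_eq_div_mul] at h1
    omega

lemma cyc_ge (t : ZMod 3) : -1 ≤ cyc t := by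
  unfold cyc
  split_ifs <;> norm_num

lemma cyc_one : cyc 1 = 1 := by decide

lemma cyc_zero : cyc 0 = 0 := by decide

lemma cast_one_sub : ((1 : ℕ) : ZMod 3) - ((0 : ℕ) : ZMod 3) = 1 := by decide

/-- the letters of the code -/
noncomputable def lt {F : Type} [Field F] (lam : F →+ ZMod 3) (e : ℕ → F) (q L b s : ℕ) : ZMod 3 :=
  lam (e (s % q) * ev (b / 2 ^ (L - s / q / q)) (s / q / q) (e (s / q % q))) +
    ((b / 2 ^ (L - 1 - s / q / q) % 2 : ℕ) : ZMod 3)

section Row

variable {F : Type} [Field F] (lam : F →+ ZMod 3) (e : ℕ → F) {q L b b' : ℕ}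

lemma lt_at {i r j : ℕ} (hi : i < q) (hj : j < q) :
    lt lam e q L b ((r * q + i) * q + j) =
      lam (e j * ev (b / 2 ^ (L - r)) r (e i)) + ((b / 2 ^ (L - 1 - r) % 2 : ℕ) : ZMod 3) := by
  have hq : 0 < q := by omega
  have h1 : ((r * q + i) * q + j) % q = j := by
    rw [Nat.add_comm, Nat.add_mul_mod_self_right, Nat.mod_eq_of_lt hj]
  have h2 : ((r * q + i) * q + j) / q = r * q + i := by
    rw [Nat.add_comm, Nat.add_mul_div_right _ _ hq, Nat.div_eq_of_lt hj, zero_add]
  have h3 : (r * q + i) / q = r := by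
    rw [Nat.add_comm, Nat.add_mul_div_right _ _ hq, Nat.div_eq_of_lt hi, zero_add]
  have h4 : (r * q + i) % q = i := by
    rw [Nat.add_comm, Nat.add_mul_mod_self_right, Nat.mod_eq_of_lt hi]
  unfold lt
  rw [h1, h2, h3, h4]

/-- the difference of the letters -/
lemma lt_sub {i r j : ℕ} (hi : i < q) (hj : j < q) :
    lt lam e q L b' ((r * q + i) * q + j) - lt lam e q L b ((r * q + i) * q + j) =
      lam (e j * (ev (b' / 2 ^ (L - r)) r (e i) - ev (b / 2 ^ (L - r)) r (e i))) +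
        (((b' / 2 ^ (L - 1 - r) % 2 : ℕ) : ZMod 3) - ((b / 2 ^ (L - 1 - r) % 2 : ℕ) : ZMod 3)) := by
  rw [lt_at lam e hi hj, lt_at lam e hi hj, mul_sub, map_sub]
  ring

end Row

/-- the existence of the code -/
theorem code {L m q : ℕ} (hL : 1 ≤ L) (hm : 1 ≤ m) (hq : q = 3 ^ m) (hqL : 8 * L ^ 2 ≤ q)
    (hq16 : 16 ≤ q) : ∃ l : ℕ → ℕ → ZMod 3, ∀ b b', b < b' → b' < 2 ^ L →
      Pair (L * q ^ 2) q (l b) (l b') := by
  classical
  have _ : Fact (Nat.Prime 3) := ⟨Nat.prime_three⟩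
  let _ : Fintype (GaloisField 3 m) := Fintype.ofFinite _
  have hcard : Fintype.card (GaloisField 3 m) = q := by
    rw [hq, ← GaloisField.card 3 m (by omega), Nat.card_eq_fintype_card]
  -- the linear form
  obtain ⟨lam, hlam⟩ : ∃ lam : GaloisField 3 m →+ ZMod 3, lam 1 = 1 := by
    obtain ⟨g, hg⟩ := LinearMap.exists_leftInverse_of_injective
      (Algebra.linearMap (ZMod 3) (GaloisField 3 m)) (by
        rw [LinearMap.ker_eq_bot]
        exact (algebraMap (ZMod 3) (GaloisField 3 m)).injective)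
    refine ⟨g.toAddMonoidHom, ?_⟩
    have h1 := LinearMap.congr_fun hg 1
    rw [LinearMap.comp_apply, Algebra.linearMap_apply, map_one] at h1
    exact h1
  -- the enumeration
  obtain ⟨e, he⟩ : ∃ e : ℕ → GaloisField 3 m, ∀ (f : GaloisField 3 m → ℤ),
      ∑ j ∈ range q, f (e j) = ∑ x, f x := by
    obtain ⟨eq⟩ : Nonempty (Fin q ≃ GaloisField 3 m) :=
      ⟨(Fintype.equivFinOfCardEq hcard).symm⟩
    refine ⟨fun j => if h : j < q then eq ⟨j, h⟩ else 0, fun f => ?_⟩
    rw [← Fin.sum_univ_eq_sum_range (fun j => f (if h : j < q then eq ⟨j, h⟩ else 0)) q,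
      ← Equiv.sum_comp eq]
    refine Finset.sum_congr rfl fun j _ => ?_
    rw [dif_pos j.2]
  refine ⟨lt lam e q L, fun b b' hb hb' => ?_⟩
  obtain ⟨k, hkL, hkeq, hklt, hk0, hk1⟩ := split_level hb hb'
  have hq0 : 0 < q := by omega
  have hqz : (0 : ℤ) < q := by exact_mod_cast hq0
  -- the terms
  obtain ⟨t, ht⟩ : ∃ t : ℕ → ℤ, t = fun s => cyc (lt lam e q L b' s - lt lam e q L b s) := ⟨_, rfl⟩
  have htge : ∀ s, -1 ≤ t s := fun s => by rw [ht]; exact cyc_ge _
  -- the rows
  obtain ⟨rs, hrs⟩ : ∃ rs : ℕ → ℤ, rs = fun r => ∑ j ∈ range q, t (r * q + j) := ⟨_, rfl⟩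
  obtain ⟨be, hbe⟩ : ∃ be : ℕ → ℤ, be = fun r => if (L - 1 - k < r / q ∧ ev (b' / 2 ^ (L - r / q))
    (r / q) (e (r % q)) - ev (b / 2 ^ (L - r / q)) (r / q) (e (r % q)) = 0) then 1 else 0 :=
    ⟨_, rfl⟩
  have hbe0 : ∀ r, 0 ≤ be r := by
    intro r
    rw [hbe]
    simp only
    split_ifs <;> norm_num
  have hdm : ∀ r i, i < q → (r * q + i) / q = r ∧ (r * q + i) % q = i := by
    intro r i hi
    constructor
    · rw [Nat.add_comm, Nat.add_mul_div_right _ _ hq0, Nat.div_eq_of_lt hi, zero_add]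
    · rw [Nat.add_comm, Nat.add_mul_mod_self_right, Nat.mod_eq_of_lt hi]
  have hrow : ∀ r i, r < L → i < q → 0 ≤ rs (r * q + i) + q * be (r * q + i) ∧
      (r = L - 1 - k → (q : ℤ) ≤ rs (r * q + i) + q * be (r * q + i)) := by
    intro r i hr hi
    have hterm : ∀ j ∈ range q, t ((r * q + i) * q + j) =
        cyc (lam (e j * (ev (b' / 2 ^ (L - r)) r (e i) - ev (b / 2 ^ (L - r)) r (e i))) +
          (((b' / 2 ^ (L - 1 - r) % 2 : ℕ) : ZMod 3) - ((b / 2 ^ (L - 1 - r) % 2 : ℕ) : ZMod 3))) := by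
      intro j hj
      rw [ht]
      simp only
      rw [lt_sub lam e hi (Finset.mem_range.1 hj)]
    have hrs1 : rs (r * q + i) = ∑ j ∈ range q, t ((r * q + i) * q + j) := by rw [hrs]
    rw [hrs1, Finset.sum_congr rfl hterm]
    rcases lt_trichotomy r (L - 1 - k) with h | h | h
    · -- before the split
      have h1 := hkeq (L - r) (by omega)
      have h2 := hkeq (L - 1 - r) (by omega)
      rw [h1, h2, sub_self, sub_self]
      simp only [mul_zero, map_zero, add_zero, cyc_zero, Finset.sum_const_zero, zero_add]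
      exact ⟨mul_nonneg hqz.le (hbe0 _), fun h3 => absurd h3 (by omega)⟩
    · -- the split
      have h1 := hkeq (L - r) (by omega)
      have h2 : L - 1 - r = k := by omega
      rw [h1, h2, hk0, hk1, sub_self]
      rw [cast_one_sub]
      simp only [mul_zero, map_zero, zero_add, cyc_one, Finset.sum_const, Finset.card_range,
        nsmul_eq_mul, mul_one]
      have h4 : 0 ≤ (q : ℤ) * be (r * q + i) := mul_nonneg hqz.le (hbe0 _)
      exact ⟨by linarith, fun _ => by linarith⟩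
    · -- after the split
      refine ⟨?_, fun h3 => absurd h3 (by omega)⟩
      by_cases hz : ev (b' / 2 ^ (L - r)) r (e i) - ev (b / 2 ^ (L - r)) r (e i) = 0
      · have h5 : be (r * q + i) = 1 := by
          rw [hbe]
          simp only
          rw [(hdm r i hi).1, (hdm r i hi).2, if_pos ⟨h, hz⟩]
        rw [h5]
        have h6 : ∑ j ∈ range q, (-1 : ℤ) ≤ ∑ j ∈ range q,
            cyc (lam (e j * (ev (b' / 2 ^ (L - r)) r (e i) - ev (b / 2 ^ (L - r)) r (e i))) +
          (((b' / 2 ^ (L - 1 - r) % 2 : ℕ) : ZMod 3) - ((b / 2 ^ (L - 1 - r) % 2 : ℕ) : ZMod 3))) :=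
          Finset.sum_le_sum fun j _ => cyc_ge _
        rw [Finset.sum_const, Finset.card_range, nsmul_eq_mul] at h6
        linarith
      · have h7 := he fun x => cyc (lam (x * (ev (b' / 2 ^ (L - r)) r (e i) -
          ev (b / 2 ^ (L - r)) r (e i))) +
          (((b' / 2 ^ (L - 1 - r) % 2 : ℕ) : ZMod 3) - ((b / 2 ^ (L - 1 - r) % 2 : ℕ) : ZMod 3)))
        rw [h7, sum_cyc_mul lam hlam hz, zero_add]
        exact mul_nonneg hqz.le (hbe0 _)
  -- the number of the bad rows
  have hbad : ∀ r, r < L → ∑ i ∈ range q, be (r * q + i) ≤ r := by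
    intro r hr
    by_cases h : L - 1 - k < r
    · have h1 : ∑ i ∈ range q, be (r * q + i) = ∑ i ∈ range q, (if ev (b' / 2 ^ (L - r)) r (e i) -
          ev (b / 2 ^ (L - r)) r (e i) = 0 then 1 else 0) := by
        refine Finset.sum_congr rfl fun i hi => ?_
        rw [Finset.mem_range] at hi
        rw [hbe]
        simp only
        rw [(hdm r i hi).1, (hdm r i hi).2]
        exact if_congr ⟨fun h2 => h2.2, fun h2 => ⟨h, h2⟩⟩ rfl rfl
      rw [h1]
      have h2 := he fun x => if ev (b' / 2 ^ (L - r)) r x - ev (b / 2 ^ (L - r)) r x = 0 then 1 else 0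
      rw [h2, Finset.sum_boole]
      have h3 : ∀ c, c < 2 ^ L → c / 2 ^ (L - r) < 2 ^ r := by
        intro c hc
        rw [Nat.div_lt_iff_lt_mul (by positivity), ← pow_add]
        rwa [Nat.add_sub_cancel' hr.le]
      have h4 := card_ev (F := GaloisField 3 m) (h3 b (hb.trans hb')) (h3 b' hb')
        (hklt (L - r) (by omega)).ne
      exact_mod_cast h4
    · have h1 : ∑ i ∈ range q, be (r * q + i) = 0 := by
        refine Finset.sum_eq_zero fun i hi => ?_
        rw [Finset.mem_range] at hi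
        rw [hbe]
        simp only
        rw [(hdm r i hi).1, if_neg fun h2 => h h2.1]
      rw [h1]
      positivity
  have hbadtot : 2 * ∑ r ∈ range (L * q), be r ≤ (L : ℤ) ^ 2 := by
    rw [sum_range_mul']
    have h1 : ∑ r ∈ range L, ∑ i ∈ range q, be (r * q + i) ≤ ∑ r ∈ range L, (r : ℤ) :=
      Finset.sum_le_sum fun r hr => hbad r (Finset.mem_range.1 hr)
    have h2 : (∑ r ∈ range L, (r : ℤ)) * 2 = L * (L - 1) := by
      have h3 := Finset.sum_range_id_mul_two L
      have h4 : ((∑ r ∈ range L, r : ℕ) : ℤ) * 2 = (L : ℤ) * ((L - 1 : ℕ) : ℤ) := by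
        exact_mod_cast h3
      rw [Nat.cast_sub hL] at h4
      push_cast at h4
      exact h4
    have h5 : (1 : ℤ) ≤ L := by exact_mod_cast hL
    nlinarith
  have hqL' : 8 * (L : ℤ) ^ 2 ≤ q := by exact_mod_cast hqL
  have hq16' : (16 : ℤ) ≤ q := by exact_mod_cast hq16
  have hrows : ∀ r, r < L * q → 0 ≤ rs r + q * be r := by
    intro r hr
    have h1 : r / q < L := (Nat.div_lt_iff_lt_mul hq0).2 hr
    have h2 := (hrow (r / q) (r % q) h1 (Nat.mod_lt _ hq0)).1
    rwa [Nat.div_add_mod' r q] at h2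
  refine ⟨by omega, ?_, ?_⟩
  · -- the total
    have h1 : Gam (L * q ^ 2) (lt lam e q L b) (lt lam e q L b') 0 = ∑ r ∈ range (L * q), rs r := by
      unfold Gam
      rw [Nat.Ico_zero_eq_range, show L * q ^ 2 = L * q * q by ring, hrs, ht, sum_range_mul']
    have h2 : (q : ℤ) * q ≤ ∑ r ∈ range (L * q), (rs r + q * be r) := by
      rw [sum_range_mul']
      have h3 : ∑ i ∈ range q, (q : ℤ) ≤ ∑ i ∈ range q, (rs ((L - 1 - k) * q + i) +
          q * be ((L - 1 - k) * q + i)) :=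
        Finset.sum_le_sum fun i hi => (hrow (L - 1 - k) i (by omega) (Finset.mem_range.1 hi)).2 rfl
      rw [Finset.sum_const, Finset.card_range, nsmul_eq_mul] at h3
      refine h3.trans ?_
      exact Finset.single_le_sum (f := fun r => ∑ i ∈ range q, (rs (r * q + i) +
        q * be (r * q + i))) (fun r hr => Finset.sum_nonneg fun i hi =>
          (hrow r i (Finset.mem_range.1 hr) (Finset.mem_range.1 hi)).1)
        (Finset.mem_range.2 (by omega : L - 1 - k < L))
    rw [Finset.sum_add_distrib, ← Finset.mul_sum] at h2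
    rw [h1]
    nlinarith
  · -- the tails
    intro s
    obtain ⟨B, hB⟩ : ∃ B, B = ∑ r ∈ range (L * q), be r := ⟨_, rfl⟩
    rw [← hB] at hbadtot
    have hB0 : 0 ≤ B := by rw [hB]; exact Finset.sum_nonneg fun r _ => hbe0 r
    have hgoal : -(q : ℤ) - q * B ≤ Gam (L * q ^ 2) (lt lam e q L b) (lt lam e q L b') s → 
        -(q : ℤ) ^ 2 ≤ 8 * Gam (L * q ^ 2) (lt lam e q L b) (lt lam e q L b') s := by
      intro h
      nlinarith
    apply hgoal
    unfold Gam
    rw [show L * q ^ 2 = L * q * q by ring]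
    have hterm : ∀ r, cyc (lt lam e q L b' r - lt lam e q L b r) = t r := by
      intro r; rw [ht]
    simp_rw [hterm]
    by_cases hs : L * q * q ≤ s
    · rw [Finset.Ico_eq_empty (by omega), Finset.sum_empty]
      nlinarith
    · rw [not_le] at hs
      have h1 : s / q < L * q := (Nat.div_lt_iff_lt_mul hq0).2 hs
      have h2 : s ≤ (s / q + 1) * q := by
        rw [Nat.succ_mul]
        exact (Nat.lt_div_mul_add hq0 (a := s)).le
      have h3 : (s / q + 1) * q ≤ L * q * q := Nat.mul_le_mul_right _ h1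
      rw [← Finset.sum_Ico_consecutive t h2 h3]
      have h4 : -(q : ℤ) ≤ ∑ r ∈ Ico s ((s / q + 1) * q), t r := by
        have h5 : ∑ r ∈ Ico s ((s / q + 1) * q), (-1 : ℤ) ≤ ∑ r ∈ Ico s ((s / q + 1) * q), t r :=
          Finset.sum_le_sum fun r _ => htge r
        rw [Finset.sum_const, Nat.card_Ico, nsmul_eq_mul] at h5
        have h6 : (s / q + 1) * q - s ≤ q := by
          have := Nat.div_mul_le_self s q
          rw [Nat.succ_mul]
          omega
        have h7 : (((s / q + 1) * q - s : ℕ) : ℤ) ≤ q := by exact_mod_cast h6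
        linarith
      have h5 : -((q : ℤ) * B) ≤ ∑ r ∈ Ico ((s / q + 1) * q) (L * q * q), t r := by
        have h6 : ∑ r ∈ Ico ((s / q + 1) * q) (L * q * q), t r = ∑ r ∈ Ico (s / q + 1) (L * q), rs r := by
          have e1 : ∀ a, ∑ r ∈ range (a * q), t r = ∑ r ∈ range a, rs r := by
            intro a
            rw [sum_range_mul' t a q, hrs]
          rw [Finset.sum_Ico_eq_sub _ h3, Finset.sum_Ico_eq_sub _ h1, e1 (L * q), e1 (s / q + 1)]
        rw [h6, hB, Finset.mul_sum, ← Finset.sum_neg_distrib]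
        have h7 : ∑ r ∈ range (L * q), -((q : ℤ) * be r) ≤ ∑ r ∈ Ico (s / q + 1) (L * q),
            -((q : ℤ) * be r) := by
          have hsub : Ico (s / q + 1) (L * q) ⊆ range (L * q) := by
            intro r hr
            rw [Finset.mem_Ico] at hr
            exact Finset.mem_range.2 hr.2
          rw [Finset.sum_neg_distrib, Finset.sum_neg_distrib, neg_le_neg_iff]
          exact Finset.sum_le_sum_of_subset_of_nonneg hsub fun r _ _ =>
            mul_nonneg hqz.le (hbe0 r)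
        refine h7.trans (Finset.sum_le_sum fun r hr => ?_)
        have h8 := hrows r (Finset.mem_Ico.1 hr).2
        linarith
      linarith

/-- the code with the choice of `q` -/
theorem exists_code {L : ℕ} (hL : 1 ≤ L) : ∃ (q : ℕ) (l : ℕ → ℕ → ZMod 3),
    16 + 8 * L ^ 2 ≤ q ∧ q ≤ 3 * (16 + 8 * L ^ 2) ∧
      ∀ b b', b < b' → b' < 2 ^ L → Pair (L * q ^ 2) q (l b) (l b') := by
  obtain ⟨x, hx⟩ : ∃ x, x = 16 + 8 * L ^ 2 := ⟨_, rfl⟩
  obtain ⟨m, hm⟩ : ∃ m, m = Nat.clog 3 x := ⟨_, rfl⟩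
  have h1 : x ≤ 3 ^ m := by rw [hm]; exact Nat.le_pow_clog (by norm_num) x
  have h2 : 3 ^ (m - 1) < x := by
    rw [hm]
    exact Nat.pow_pred_clog_lt_self (by norm_num) (by omega)
  have h3 : 1 ≤ m := by
    by_contra hcon
    have h4 : m = 0 := by omega
    rw [h4, pow_zero] at h1
    omega
  have h5 : 3 ^ m = 3 * 3 ^ (m - 1) := by
    rw [← pow_succ', Nat.sub_add_cancel h3]
  obtain ⟨l, hl⟩ := code hL h3 rfl (by omega : 8 * L ^ 2 ≤ 3 ^ m) (by omega)
  exact ⟨3 ^ m, l, by omega, by omega, hl⟩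

end Pool.Agent.T1K
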