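import Pool.Agent.T1K.KerT

/-!
# T1, row R7: equal power sums and cardinality of the tick sets
-/

set_option autoImplicit false

open Finset

namespace Pool.Agent.T1K

lemma EP_TL {r : ℕ} (hr : r < 11) (R : ℕ) (l l' : ℕ → ZMod 3) : EP r (TL R l) (TL R l') := by
  have h1 : ∀ l₁ : ℕ → ZMod 3, Disjoint (CR 11 l₁ 0 R) {Mn R} := by
    intro l₁
    rw [Finset.disjoint_singleton_right, mem_CR]
    have := Mn_le R
    omega
  unfold TL
  rw [TS_eq, TS_eq]
  exact EP.union (EP_CR hr l l' (Nat.zero_le R)) (EP.refl r _) (h1 l) (h1 l')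

lemma EP_TL_gt {r R z₀ : ℕ} (hr : r < 11) (hz : z₀ < R * 3 ^ 11) {l l' : ℕ → ZMod 3}
    (hl : l (z₀ / 3 ^ 11) = l' (z₀ / 3 ^ 11)) :
    EP r ((TL R l).filter (z₀ < ·)) ((TL R l').filter (z₀ < ·)) := by
  have h0 : 0 < 3 ^ 11 := by positivity
  have hB : Bk 11 l (z₀ / 3 ^ 11) = Bk 11 l' (z₀ / 3 ^ 11) := by
    unfold Bk
    rw [hl]
  have hsR : z₀ / 3 ^ 11 + 1 ≤ R := (Nat.div_lt_iff_lt_mul h0).2 hz
  have h1 : ∀ l₁ : ℕ → ZMod 3, Disjoint ((Bk 11 l₁ (z₀ / 3 ^ 11)).filter (z₀ < ·))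
      (CR 11 l₁ (z₀ / 3 ^ 11 + 1) R) := by
    intro l₁
    rw [Finset.disjoint_left]
    intro z h2 h3
    have h4 := (mem_Bk.1 (Finset.mem_filter.1 h2).1).1
    have h5 := (mem_CR.1 h3).1
    rw [← h4, Nat.succ_mul] at h5
    have := Nat.lt_div_mul_add h0 (a := z)
    omega
  have h2 : ∀ l₁ : ℕ → ZMod 3, Disjoint ((Bk 11 l₁ (z₀ / 3 ^ 11)).filter (z₀ < ·) ∪
      CR 11 l₁ (z₀ / 3 ^ 11 + 1) R) {Mn R} := by
    intro l₁
    rw [Finset.disjoint_singleton_right, Finset.mem_union, Finset.mem_filter, mem_Bk, mem_CR]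
    have h3 := Mn_le R
    rintro (⟨⟨h4, _⟩, _⟩ | ⟨_, h4, _⟩)
    · have h5 := Nat.lt_div_mul_add h0 (a := Mn R)
      have h6 : (z₀ / 3 ^ 11 + 1) * 3 ^ 11 ≤ R * 3 ^ 11 := Nat.mul_le_mul_right _ hsR
      rw [Nat.succ_mul] at h6
      rw [h4] at h5
      omega
    · omega
  have h3 := h2 l'
  have h4 := h1 l'
  unfold TL
  rw [TS_gt l (Mn_le R) hz, TS_gt l' (Mn_le R) hz]
  rw [← hB] at h3 h4 ⊢
  exact EP.union (EP.union (EP.refl _ _) (EP_CR hr l l' hsR) (h1 l) h4) (EP.refl r _) (h2 l) h3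

lemma card_Cl_three {n : ℕ} (hn : 0 < n) (t : ZMod 3) : 3 * (Cl n t).card = 3 ^ n := by
  have h1 : ∀ t : ZMod 3, (Cl n t).card = (Cl n 0).card := by
    intro t
    have h := ps_indep n 0 hn t
    simpa using h
  have h2 : ∑ u : ZMod 3, (Cl n u).card = 3 ^ n := by
    unfold Cl
    rw [← Finset.card_eq_sum_card_fiberwise (f := dg n) (s := range (3 ^ n))
      (t := (Finset.univ : Finset (ZMod 3))) (fun _ _ => by simp), Finset.card_range]
  rw [sum_univ_three, h1 1, h1 2] at h2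
  rw [h1 t]
  omega

lemma card_Bk (N : ℕ) (l : ℕ → ZMod 3) (s : ℕ) : (Bk N l s).card = (Cl N (l s)).card := by
  unfold Bk
  rw [Finset.card_image_of_injective]
  intro y y' h
  simpa using h

lemma card_CR {N : ℕ} (hN : 0 < N) (l : ℕ → ZMod 3) {a b : ℕ} (hab : a ≤ b) :
    3 * (CR N l a b).card = (b - a) * 3 ^ N := by
  induction b, hab using Nat.le_induction with
  | base => rw [CR_empty]; simp
  | succ b hab ih =>
      rw [CR_succ hab, Finset.card_union_of_disjoint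
        (Finset.disjoint_left.2 fun z h3 h4 => (CR_lt_Bk z h3 z h4).ne rfl), mul_add, ih, card_Bk,
        card_Cl_three hN, Nat.succ_sub hab, Nat.succ_mul]

lemma card_TL (R : ℕ) (l : ℕ → ZMod 3) : (TL R l).card = Kn R := by
  have h1 : Disjoint (CR 11 l 0 R) {Mn R} := by
    rw [Finset.disjoint_singleton_right, mem_CR]
    have := Mn_le R
    omega
  unfold TL Kn
  rw [TS_eq, Finset.card_union_of_disjoint h1, Finset.card_singleton]
  have h2 := card_CR (N := 11) (by norm_num) l (Nat.zero_le R)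
  omega

end Pool.Agent.T1K
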