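import Pool.Agent.T1K.Defs2
import Pool.Agent.T1K.KerE
import Pool.Agent.T1K.Code

/-!
# T1, row R7 in the form of the skeleton
-/

set_option autoImplicit false

open Finset

namespace Pool.Agent.T1K

lemma US_eq (q : ℕ) (T T' : Finset ℕ) : US q T T' = KT q T T' := rfl

lemma G2_eq_US (q N : ℕ) (t t' : ZMod 3) : US q (Cl N t) (Cl N t') = G2 N t t' (sk q) := rfl

theorem ksum4 {N : ℕ} (hN : 7 ≤ N) (t t' : ZMod 3) :
    US 4 (Cl N t) (Cl N t') = 508 * 3 ^ (N - 2) * cyc (t' - t) := by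
  obtain ⟨n, rfl⟩ : ∃ n, N = 3 + n + 1 := ⟨N - 4, by omega⟩
  rw [G2_eq_US, G2_sk_succ (by decide) (by omega) t t', Fs_sk_add (by decide) (by norm_num),
    Fs_three, show 3 + n + 1 - 2 = n + 2 by omega]
  ring

theorem ksum6 {N : ℕ} (hN : 8 ≤ N) (t t' : ZMod 3) :
    US 6 (Cl N t) (Cl N t') = -434668 * 3 ^ (N - 1) * cyc (t' - t) := by
  obtain ⟨n, rfl⟩ : ∃ n, N = 4 + n + 1 := ⟨N - 5, by omega⟩
  rw [G2_eq_US, G2_sk_succ (by decide) (by omega) t t', Fs_sk_add (by decide) (by norm_num),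
    Fs_four, show 4 + n + 1 - 1 = n + 4 by omega]
  ring

theorem usum4 {R : ℕ} (l l' : ℕ → ZMod 3) :
    US 4 (TL R l) (TL R l') = 508 * 3 ^ 9 * Gam R l l' 0 := KT_four R l l'

theorem usum6 {R : ℕ} (l l' : ℕ → ZMod 3) :
    US 6 (TL R l) (TL R l') = -434668 * 3 ^ 10 * Gam R l l' 0 := KT_six R l l'

/-- above a common tick, which is removed -/
theorem usum6_tail {R : ℕ} (l l' : ℕ → ZMod 3) {z0 : ℕ} (h : z0 ∈ TL R l) (h' : z0 ∈ TL R l') :
    US 6 ((TL R l).filter (z0 < ·)) ((TL R l').filter (z0 < ·))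
      = -434668 * 3 ^ 10 * Gam R l l' (z0 / 3 ^ 11 + 1) := by
  by_cases hz : z0 < R * 3 ^ 11
  · have h1 : ∀ l₁ : ℕ → ZMod 3, z0 ∈ TL R l₁ → dg 11 (z0 % 3 ^ 11) = l₁ (z0 / 3 ^ 11) := by
      intro l₁ h2
      unfold TL at h2
      rw [TS_eq, Finset.mem_union, Finset.mem_singleton, mem_CR] at h2
      rcases h2 with h2 | h2
      · exact h2.2.2
      · have := Mn_le R
        omega
    exact KT_six_gt hz ((h1 l h).symm.trans (h1 l' h'))
  · have h2 : ∀ l₁ : ℕ → ZMod 3, z0 ∈ TL R l₁ → z0 = Mn R := by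
      intro l₁ h2
      unfold TL at h2
      rw [TS_eq, Finset.mem_union, Finset.mem_singleton, mem_CR] at h2
      rcases h2 with h2 | h2
      · exact absurd h2.2.1 hz
      · exact h2
    have h3 : ∀ l₁ : ℕ → ZMod 3, (TL R l₁).filter (z0 < ·) = ∅ := by
      intro l₁
      rw [Finset.filter_eq_empty_iff]
      intro z hz1 hz2
      unfold TL at hz1
      rw [TS_eq, Finset.mem_union, Finset.mem_singleton, mem_CR] at hz1
      have h4 := h2 l h
      have h5 := Mn_le R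
      rcases hz1 with h6 | h6 <;> omega
    rw [h3, h3]
    have h4 : R ≤ z0 / 3 ^ 11 := (Nat.le_div_iff_mul_le (by positivity)).2 (not_lt.1 hz)
    unfold Gam US
    rw [Finset.Ico_eq_empty (by omega), Finset.sum_empty, Finset.sum_empty, mul_zero]

end Pool.Agent.T1K
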