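import Mathlib
import Pool.Agent.T1K.Tick
import Pool.Agent.T1K.MainNum
import Pool.Agent.T1K.R7
import Pool.Agent.T1K.Refl
import Pool.Agent.T1K.Lead0
import Pool.Agent.T1K.KerX
import Pool.Agent.T1K.KerQ
import Pool.Agent.T1K.Leaf

/-!
# T1: the main inequalities (same type, different species)
-/

set_option autoImplicit false

open Finset

namespace Pool.Agent.T1K

lemma US_neg {R : ℕ} (l l' : ℕ → ZMod 3) :
    US 6 (TL R fun s => -l s) (TL R fun s => -l' s) = 434668 * 3 ^ 10 * Gam R l l' 0 := by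
  rw [usum6]
  have h := Gam_neg R l l' 0
  have e : Gam R (fun s => -l s) (fun s => -l' s) 0 = - Gam R l l' 0 := h
  rw [e]
  ring

lemma erase_filter_le (T : Finset ℕ) (z : ℕ) :
    (T.erase z).filter (z ≤ ·) = T.filter (z < ·) := by
  ext y
  simp only [mem_filter, mem_erase]
  constructor
  · rintro ⟨⟨h1, h2⟩, h3⟩
    exact ⟨h2, by omega⟩
  · rintro ⟨h1, h2⟩
    exact ⟨⟨by omega, h1⟩, by omega⟩

lemma filter_zero_le (T : Finset ℕ) : T.filter (0 ≤ ·) = T := by
  ext y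
  simp

theorem main_X {R q : ℕ} {l l' : ℕ → ZMod 3} (hR : 1 ≤ R) (hp : Pair R q l l') :
    hn R ^ 5 ≤ Nf (dX (tk R) (tk R) (TL R l) (TL R (fun s => - l s)))
      (dX (tk R) (tk R) (TL R l') (TL R (fun s => - l' s))) := by
  have st := std hR
  have h8 : 8 ≤ Kn R := le_trans (by norm_num) (Kn_ge hR)
  have hk := ker_sgn st (TL_sim R l l') (TL_sim R (fun s => - l s) (fun s => - l' s))
    (TL_card R l).le (TL_card R _).le (by rw [TL_card]; exact h8) (by rw [TL_card]; exact h8)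
  have hkl := (kap_lower (k := Kn R) st (S0 := TL R fun s => - l s) (fun _ h => TL_le h)
    (TL_card R _).le le_rfl h8).1
  rw [TL_card, usum4] at hk
  have hG : (1 : ℝ) ≤ (Gam R l l' 0 : ℝ) := by
    have h1 := hp.total
    have h2 : (1 : ℤ) ≤ (q : ℤ) ^ 2 := one_le_pow₀ (by exact_mod_cast hp.hq)
    have h3 : (1 : ℤ) ≤ Gam R l l' 0 := by omega
    exact_mod_cast h3
  have hK1 : (1 : ℝ) ≤ Kn R := by exact_mod_cast (show 1 ≤ Kn R by omega)
  have hM1 : (1 : ℝ) ≤ Mn R := by exact_mod_cast (le_trans (by norm_num) (Mn_ge hR) : 1 ≤ Mn R)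
  have hnum := num_X (P_ge hR) (hn_mul hR) hK1 hM1 rfl hkl hG
  have h1 := (abs_le.1 hk).1
  push_cast at h1
  have e1 : (2 * hn R * Kn R * Mn R : ℝ) = 2 * hn R * (Kn R * Mn R) := by ring
  rw [e1] at h1
  have e2 : tk R = fun z : ℕ => an R + hn R * z := rfl
  rw [e2]
  linarith

theorem main_L {R q : ℕ} {l l' : ℕ → ZMod 3} (hR : 1 ≤ R) (hp : Pair R q l l') {z : ℕ}
    (hz : z ∈ TL R l) (hz' : z ∈ TL R l') :
    hn R ^ 7 ≤ Nf (dL (tk R) (tk R) (TL R l) (TL R (fun s => - l s)) z)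
      (dL (tk R) (tk R) (TL R l') (TL R (fun s => - l' s)) z) := by
  have st := std hR
  have h9 : 9 ≤ Kn R := le_trans (by norm_num) (Kn_ge hR)
  have h8 : 8 ≤ Kn R := by omega
  have hS := TL_sim R (fun s => - l s) (fun s => - l' s)
  have hls := leaf_split st (TL_sim R l l') hS (TL_card R l) (TL_card R _) hz hz' (TL_cut hz hz')
  have hce : ((TL R l).erase z).card = Kn R - 1 := by rw [card_erase_of_mem hz, TL_card]
  have hce' : ((TL R l').erase z).card = Kn R - 1 := by rw [card_erase_of_mem hz', TL_card]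
  have hT := TL_erase_sim hz hz'
  have hkL := ker_q st hT hS (by rw [hce]; omega) (TL_card R _).le (by rw [hce]; omega)
    (by rw [TL_card]; exact h8) (TL_erase_cut hz hz') (TL_le hz) (Or.inl rfl)
  have hkR := ker_q (al := 0) st hS hT (TL_card R _).le (by rw [hce]; omega)
    (by rw [TL_card]; exact h8) (by rw [hce]; omega) (Or.inl rfl) (Nat.zero_le _)
    (Or.inr ⟨rfl, rfl⟩)
  rw [hce, erase_filter_le, erase_filter_le, usum6_tail l l' hz hz'] at hkL
  rw [TL_card, filter_zero_le, filter_zero_le, US_neg] at hkR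
  have hkl := (kap_lower (k := Kn R - 1) st (S0 := TL R fun s => - l s) (fun _ h => TL_le h)
    (TL_card R _).le (by omega) (by omega)).1
  have hkc := kap_comp st (T0 := TL R l) (S0 := TL R fun s => - l s) (fun _ h => TL_le h)
    (fun _ h => TL_le h) (TL_card R _) (TL_card R _) hz
  have hq : (1 : ℝ) ≤ (q : ℝ) := by exact_mod_cast hp.hq
  have hG : 15 * (q : ℝ) ^ 2 ≤ 16 * (Gam R l l' 0 : ℝ) := by exact_mod_cast hp.total
  have hGt : -(q : ℝ) ^ 2 ≤ 8 * (Gam R l l' (z / 3 ^ 11 + 1) : ℝ) := by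
    exact_mod_cast hp.tail (z / 3 ^ 11 + 1)
  have hK1 : (1 : ℝ) ≤ Kn R := by exact_mod_cast (show 1 ≤ Kn R by omega)
  have hM1 : (1 : ℝ) ≤ Mn R := by exact_mod_cast (le_trans (by norm_num) (Mn_ge hR) : 1 ≤ Mn R)
  have hnum := num_L (P_ge hR) (hn_mul hR) hK1 hM1 rfl hkl hkc hq hG hGt rfl
  have h1 := (abs_le.1 hls).1
  have h2 := (abs_le.1 hkL).2
  have h3 := (abs_le.1 hkR).1
  push_cast at h1 h2 h3
  have e1 : (2 * hn R * Kn R * Mn R : ℝ) = 2 * hn R * (Kn R * Mn R) := by ring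
  rw [e1] at h1 h2 h3
  have e2 : tk R = fun z : ℕ => an R + hn R * z := rfl
  rw [e2]
  linarith

end Pool.Agent.T1K
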