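import Pool.Agent.T1K.All
import Pool.Agent.T1K.Main

/-!
# T1: the final statement
-/

set_option autoImplicit false

namespace Pool.Agent.T1K

open Pool.Agent.Helper1.Balance

/-- **The minimal balance constants.** -/
theorem t1_final : ∃ C : ℝ, 1 ≤ C ∧
    (∀ ε : ℝ, 0 < ε → ε ≤ 1 / 2 → ∀ (n : ℕ) (r : Fin n → Fin n → Prop), IsPoset r →
      ∀ s : Finset (Fin n), IsAnti r s → (1 / ε) ^ (C / ε ^ 4) < s.card →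
        ∃ x y : Fin n, ¬ r x y ∧ ¬ r y x ∧ |prob r x y - 1 / 2| < ε) ∧
    (∀ ε : ℝ, 0 < ε → ε ≤ 1 / 2 → ∀ (n : ℕ) (r : Fin n → Fin n → Prop), IsPoset r →
      balance r ≤ 1 / 2 - ε → ∀ x : Fin n,
        (Nat.card {y : Fin n // ¬ r x y ∧ ¬ r y x} : ℝ) ≤ (1 / ε) ^ (C / ε ^ 4)) ∧
    (∀ w : ℕ, 16 ≤ w →
      1 / 2 - C * (Real.log (Real.log w) / Real.log w) ^ (1 / 4 : ℝ) ≤ deltaW w) ∧
    (∀ w : ℕ, 3 ≤ w → deltaW w ≤ 1 / 2 - 1 / (C * (Real.log w) ^ C)) ∧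
    (∀ w w' : ℕ, Real.exp (C * (Real.log ((w : ℝ) + 3)) ^ C) ≤ w' →
      deltaW w < deltaW w') ∧
    (∀ w : ℕ, ∃ v : ℕ, w ≤ v ∧ (v : ℝ) ≤ Real.exp (C * (Real.log ((w : ℝ) + 3)) ^ C) ∧
      ∀ u : ℕ, v < u → deltaW v < deltaW u) ∧
    Filter.Tendsto deltaW Filter.atTop (nhds (1 / 2)) :=
  all_of_main (fun h1 hp => main_X h1 hp) (fun h1 hp _ hz hz' => main_L h1 hp hz hz')

end Pool.Agent.T1K
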