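import Mathlib
import Pool.Agent.Helper73.KS.Cnt

/-!
# Disintegration of the cube over the clock

The elements of the poset are the clock elements `Gd` and the members of finitely many groups
`Γ j`; given the clock, the groups are independent.
-/

set_option autoImplicit false

namespace Pool.Agent.T1K

open MeasureTheory Set Pool.Agent.Helper73.KS

section split

variable {Gd J : Type} [Fintype Gd] [Fintype J] {Γ : J → Type} [∀ j, Fintype (Γ j)]

/-- the clock coordinates and the coordinates of the groups -/
def spl (u : (Gd ⊕ Σ j, Γ j) → ℝ) : (Gd → ℝ) × (∀ j, Γ j → ℝ) :=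
  (fun g => u (Sum.inl g), fun j c => u (Sum.inr ⟨j, c⟩))

theorem mp_curry : MeasurePreserving (MeasurableEquiv.piCurry (fun (j : J) (_ : Γ j) => ℝ))
    (PV (Σ j, Γ j)) (Measure.pi fun j => PV (Γ j)) := by
  refine ⟨(MeasurableEquiv.piCurry _).measurable, ?_⟩
  have h := Measure.infinitePi_map_piCurry (fun (j : J) (_ : Γ j) => lam)
  rw [Measure.infinitePi_eq_pi, Measure.infinitePi_eq_pi] at h
  have h2 : (fun j => Measure.infinitePi fun _ : Γ j => lam) = fun j => PV (Γ j) := by
    funext j
    rw [Measure.infinitePi_eq_pi]
    rfl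
  rw [h2] at h
  exact h

theorem mp_spl : MeasurePreserving (spl : ((Gd ⊕ Σ j, Γ j) → ℝ) → (Gd → ℝ) × (∀ j, Γ j → ℝ))
    (PV (Gd ⊕ Σ j, Γ j)) ((PV Gd).prod (Measure.pi fun j => PV (Γ j))) := by
  have h1 : MeasurePreserving (MeasurableEquiv.sumPiEquivProdPi (fun _ : Gd ⊕ Σ j, Γ j => ℝ))
      (PV (Gd ⊕ Σ j, Γ j)) ((PV Gd).prod (PV (Σ j, Γ j))) :=
    measurePreserving_sumPiEquivProdPi (fun _ : Gd ⊕ Σ j, Γ j => lam)
  have h2 : MeasurePreserving (Prod.map id (MeasurableEquiv.piCurry (fun (j : J) (_ : Γ j) => ℝ)))
      ((PV Gd).prod (PV (Σ j, Γ j))) ((PV Gd).prod (Measure.pi fun j => PV (Γ j))) :=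
    (MeasurePreserving.id (PV Gd)).prod mp_curry
  exact h2.comp h1

theorem disint {A : Set ((Gd → ℝ) × (∀ j, Γ j → ℝ))} (hA : MeasurableSet A) :
    (PV (Gd ⊕ Σ j, Γ j)).real (spl ⁻¹' A) =
      ∫ τ, (Measure.pi fun j => PV (Γ j)).real (Prod.mk τ ⁻¹' A) ∂(PV Gd) := by
  rw [mp_spl.measureReal_preimage hA.nullMeasurableSet]
  unfold Measure.real
  rw [Measure.prod_apply hA, integral_toReal (measurable_measure_prodMk_left hA).aemeasurable]
  exact Filter.Eventually.of_forall fun _ => measure_lt_top _ _

end split

section pairs

variable {J : Type} [Fintype J] {X : J → Type} [∀ j, MeasurableSpace (X j)]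

open Classical in
/-- two coordinates of a finite product -/
theorem pi_map_pair (μ : ∀ j, Measure (X j)) [∀ j, IsFiniteMeasure (μ j)] {a b : J}
    (hab : a ≠ b) :
    (Measure.pi μ).map (fun y => (y a, y b)) =
      (∏ j ∈ Finset.univ \ {a, b}, μ j univ) • (μ a).prod (μ b) := by
  have hm : Measurable (fun y : (∀ j, X j) => (y a, y b)) :=
    (measurable_pi_apply a).prodMk (measurable_pi_apply b)
  refine Measure.ext_prod fun {s t} hs ht => ?_
  have h1 : (fun y : (∀ j, X j) => (y a, y b)) ⁻¹' (s ×ˢ t) =
      univ.pi (Function.update (Function.update (fun j => (univ : Set (X j))) a s) b t) := by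
    ext y
    simp only [mem_preimage, mem_prod, mem_univ_pi]
    constructor
    · rintro ⟨h1, h2⟩ j
      by_cases hb : j = b
      · subst hb
        rw [Function.update_self]
        exact h2
      · rw [Function.update_of_ne hb]
        by_cases ha : j = a
        · subst ha
          rw [Function.update_self]
          exact h1
        · rw [Function.update_of_ne ha]
          exact mem_univ _
    · intro h
      refine ⟨?_, ?_⟩
      · have := h a
        rwa [Function.update_of_ne hab, Function.update_self] at this
      · have := h b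
        rwa [Function.update_self] at this
  rw [Measure.map_apply hm (hs.prod ht), h1, Measure.pi_pi, Measure.smul_apply, smul_eq_mul,
    Measure.prod_prod, ← Finset.prod_sdiff (Finset.subset_univ ({a, b} : Finset J)),
    Finset.prod_pair hab]
  congr 1
  · refine Finset.prod_congr rfl fun j hj => ?_
    rw [Finset.mem_sdiff, Finset.mem_insert, Finset.mem_singleton] at hj
    push Not at hj
    rw [Function.update_of_ne hj.2.2, Function.update_of_ne hj.2.1]
  · rw [Function.update_of_ne hab, Function.update_self, Function.update_self]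

open Classical in
/-- one coordinate of a finite product -/
theorem pi_map_one (μ : ∀ j, Measure (X j)) [∀ j, IsFiniteMeasure (μ j)] (a : J) :
    (Measure.pi μ).map (fun y => y a) = (∏ j ∈ Finset.univ.erase a, μ j univ) • μ a := by
  refine Measure.ext fun s hs => ?_
  have h1 : (fun y : (∀ j, X j) => y a) ⁻¹' s =
      univ.pi (Function.update (fun j => (univ : Set (X j))) a s) := by
    ext y
    simp only [mem_preimage, mem_univ_pi]
    constructor
    · intro h1 j
      by_cases ha : j = a
      · subst ha
        rw [Function.update_self]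
        exact h1
      · rw [Function.update_of_ne ha]
        exact mem_univ _
    · intro h
      have := h a
      rwa [Function.update_self] at this
  rw [Measure.map_apply (measurable_pi_apply a) hs, h1, Measure.pi_pi, Measure.smul_apply,
    smul_eq_mul, ← Finset.prod_erase_mul _ _ (Finset.mem_univ a), Function.update_self]
  congr 1
  refine Finset.prod_congr rfl fun j hj => ?_
  rw [Function.update_of_ne (Finset.ne_of_mem_erase hj)]

end pairs

end Pool.Agent.T1K
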