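import Mathlib
import Pool.Agent.Helper73.KS.Cnt

/-!
# From volumes of order cones over a finite type to the balance constants
-/

set_option autoImplicit false

namespace Pool.Agent.T1K

open MeasureTheory Set Relation Pool.Agent.Helper73.KS Pool.Agent.Helper1.Balance

variable {V : Type}

/-- the cone of a relation -/
def cn (R : V → V → Prop) : Set (V → ℝ) := {u | ∀ a b, R a b → u a ≤ u b}

lemma cn_rtg (R : V → V → Prop) : cn (ReflTransGen R) = cn R := by
  ext u
  constructor
  · intro h a b hab
    exact h a b (ReflTransGen.single hab)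
  · intro h a b hab
    induction hab with
    | refl => exact le_rfl
    | tail _ h2 ih => exact ih.trans (h _ _ h2)

/-- the probability that `x` is below `y` -/
noncomputable def pv [Fintype V] (R : V → V → Prop) (x y : V) : ℝ :=
  (PV V).real (cn R ∩ evt x y) / (PV V).real (cn R)

/-- antichains of the order generated by `R` -/
def AntiV (R : V → V → Prop) (s : Finset V) : Prop :=
  ∀ a ∈ s, ∀ b ∈ s, a ≠ b → ¬ ReflTransGen R a b

/-- the width of the order generated by `R` -/
def WidthV (R : V → V → Prop) (w : ℕ) : Prop :=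
  (∃ s : Finset V, s.card = w ∧ AntiV R s) ∧ ∀ s : Finset V, AntiV R s → s.card ≤ w

/-- a cover by chains bounds the antichains -/
lemma card_le_of_chains {R : V → V → Prop} {C : Type} [Fintype C] (c : V → C)
    (hc : ∀ a b, c a = c b → ReflTransGen R a b ∨ ReflTransGen R b a) {s : Finset V}
    (hs : AntiV R s) : s.card ≤ Fintype.card C := by
  rw [← Finset.card_univ]
  refine Finset.card_le_card_of_injOn c (fun _ _ => Finset.mem_coe.2 (Finset.mem_univ _)) ?_
  intro a ha b hb hab
  by_contra hne
  rcases hc a b hab with h | h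
  · exact hs a ha b hb hne h
  · exact hs b hb a ha (Ne.symm hne) h

lemma rtg_lt {R : V → V → Prop} {H : Type} [Preorder H] {ht : V → H}
    (hR : ∀ a b, R a b → ht a < ht b) {a b : V} (h : ReflTransGen R a b) : a = b ∨ ht a < ht b := by
  induction h with
  | refl => exact Or.inl rfl
  | tail _ h2 ih =>
    rcases ih with rfl | h
    · exact Or.inr (hR _ _ h2)
    · exact Or.inr (h.trans (hR _ _ h2))

lemma isPoset_of {n : ℕ} {R : V → V → Prop} {H : Type} [Preorder H] {ht : V → H}
    (hR : ∀ a b, R a b → ht a < ht b) (e : V ≃ Fin n) :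
    IsPoset (fun i j : Fin n => ReflTransGen R (e.symm i) (e.symm j)) := by
  refine ⟨fun a => ReflTransGen.refl, fun a b c h1 h2 => h1.trans h2, fun a b h1 h2 => ?_⟩
  rcases rtg_lt hR h1 with h | h
  · exact e.symm.injective h
  · rcases rtg_lt hR h2 with h' | h'
    · exact (e.symm.injective h').symm
    · exact absurd (h.trans h') (lt_irrefl _)

section meas
variable [Fintype V]

lemma meas_cn (R : V → V → Prop) : MeasurableSet (cn R) := by
  have e : cn R = ⋂ a : V, ⋂ b : V, {u : V → ℝ | R a b → u a ≤ u b} := by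
    ext u
    simp only [mem_iInter]
    exact Iff.rfl
  rw [e]
  refine MeasurableSet.iInter fun a => MeasurableSet.iInter fun b => ?_
  by_cases h : R a b
  · have e2 : {u : V → ℝ | R a b → u a ≤ u b} = {u : V → ℝ | u a ≤ u b} := by
      ext u
      exact ⟨fun hu => hu h, fun hu _ => hu⟩
    rw [e2]
    exact measurableSet_le (measurable_pi_apply a) (measurable_pi_apply b)
  · have e2 : {u : V → ℝ | R a b → u a ≤ u b} = univ := by
      ext u
      exact ⟨fun _ => trivial, fun _ hab => absurd hab h⟩
    rw [e2]
    exact MeasurableSet.univ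

omit [Fintype V] in
lemma meas_evt (x y : V) : MeasurableSet (evt x y : Set (V → ℝ)) :=
  measurableSet_lt (measurable_pi_apply x) (measurable_pi_apply y)

/-- **probabilities through volumes** for the order generated by a relation on a finite type -/
theorem prob_eq_pv {n : ℕ} (R : V → V → Prop) (e : V ≃ Fin n) (x y : V) :
    prob (fun i j : Fin n => ReflTransGen R (e.symm i) (e.symm j)) (e x) (e y) = pv R x y := by
  set r : Fin n → Fin n → Prop := fun i j => ReflTransGen R (e.symm i) (e.symm j) with hr
  have h1 := mp_relabel (V := V) (W := Fin n) e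
  have h2 : (fun (u : V → ℝ) (w : Fin n) => u (e.symm w)) ⁻¹' (rcone r) = cn R := by
    rw [← cn_rtg]
    ext u
    constructor
    · intro h a b hab
      have h3 := h (e a) (e b) (by
        change ReflTransGen R (e.symm (e a)) (e.symm (e b))
        rwa [e.symm_apply_apply, e.symm_apply_apply])
      simpa using h3
    · intro h a b hab
      exact h _ _ hab
  have h3 : (fun (u : V → ℝ) (w : Fin n) => u (e.symm w)) ⁻¹' (rcone r ∩ evt (e x) (e y)) =
      cn R ∩ evt x y := by
    rw [preimage_inter, h2]
    congr 1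
    ext u
    change u (e.symm (e x)) < u (e.symm (e y)) ↔ u x < u y
    rw [e.symm_apply_apply, e.symm_apply_apply]
  have hm : MeasurableSet (rcone r) := meas_cn (V := Fin n) r
  have hev : MeasurableSet (evt (e x) (e y) : Set (Fin n → ℝ)) := meas_evt _ _
  rw [prob_vol]
  unfold pv
  rw [← h3, ← h2, h1.measureReal_preimage hm.nullMeasurableSet,
    h1.measureReal_preimage (hm.inter hev).nullMeasurableSet]

/-- the volume of the cone is positive -/
theorem cn_pos {R : V → V → Prop} {H : Type} [LinearOrder H] {ht : V → H}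
    (hR : ∀ a b, R a b → ht a < ht b) : 0 < (PV V).real (cn R) := by
  classical
  -- the heights take finitely many values
  let f : V → ℕ := fun v => (Finset.univ.filter fun w => ht w < ht v).card
  have hf : ∀ a b, R a b → f a < f b := by
    intro a b hab
    have hlt := hR a b hab
    refine Finset.card_lt_card ?_
    rw [Finset.ssubset_iff_of_subset]
    · refine ⟨a, ?_, ?_⟩
      · rw [Finset.mem_filter]
        exact ⟨Finset.mem_univ _, hlt⟩
      · rw [Finset.mem_filter]
        exact fun h => lt_irrefl _ h.2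
    · intro w hw
      rw [Finset.mem_filter] at hw ⊢
      exact ⟨Finset.mem_univ _, hw.2.trans hlt⟩
  have hfle : ∀ v, f v ≤ Fintype.card V := fun v => Finset.card_le_univ _
  -- a box inside the cone
  set N : ℕ := Fintype.card V + 1 with hN
  have hNpos : (0 : ℝ) < N := by positivity
  let lo : V → ℝ := fun v => (f v : ℝ) / N
  let hi : V → ℝ := fun v => ((f v : ℝ) + 1) / N
  have hbox : (univ.pi fun v => Icc (lo v) (hi v)) ⊆ cn R := by
    intro u hu a b hab
    have h1 := (hu a (mem_univ a)).2
    have h2 := (hu b (mem_univ b)).1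
    have h3 : hi a ≤ lo b := by
      change ((f a : ℝ) + 1) / N ≤ (f b : ℝ) / N
      have h4 : (f a : ℝ) + 1 ≤ f b := by exact_mod_cast hf a b hab
      exact div_le_div_of_nonneg_right h4 hNpos.le
    exact h1.trans (h3.trans h2)
  have hvol : 0 < (PV V).real (univ.pi fun v => Icc (lo v) (hi v)) := by
    rw [Measure.real, PV, Measure.pi_pi, ENNReal.toReal_prod]
    refine Finset.prod_pos fun v _ => ?_
    have h0 : 0 ≤ lo v := by positivity
    have h1 : hi v ≤ 1 := by
      change ((f v : ℝ) + 1) / N ≤ 1
      rw [div_le_one hNpos, hN]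
      have := hfle v
      push_cast
      have h2 : (f v : ℝ) ≤ Fintype.card V := by exact_mod_cast this
      linarith
    have h2 : lam (Icc (lo v) (hi v)) = ENNReal.ofReal (hi v - lo v) := by
      unfold lam
      rw [Measure.restrict_apply measurableSet_Icc, Icc_inter_Icc, sup_eq_left.2 h0,
        inf_eq_left.2 h1, Real.volume_Icc]
    have h3 : hi v - lo v = 1 / N := by
      change ((f v : ℝ) + 1) / N - (f v : ℝ) / N = 1 / N
      ring
    rw [h2, h3, ENNReal.toReal_ofReal (by positivity)]
    positivity
  exact lt_of_lt_of_le hvol (measureReal_mono hbox)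

/-- two coordinates are almost surely different -/
lemma ae_ne {x y : V} (hxy : x ≠ y) : ∀ᵐ u ∂(PV V), u x ≠ u y := by
  classical
  rw [PV_eq]
  refine ae_restrict_of_ae ?_
  set p : (V → ℝ) →ₗ[ℝ] ℝ := (LinearMap.proj x : (V → ℝ) →ₗ[ℝ] ℝ) -
    (LinearMap.proj y : (V → ℝ) →ₗ[ℝ] ℝ) with hp
  have h2 : (volume : Measure (V → ℝ)) (LinearMap.ker p) = 0 := by
    refine Measure.addHaar_submodule _ _ fun htop => ?_
    have h3 : (Pi.single x 1 : V → ℝ) ∈ LinearMap.ker p := by
      rw [htop]; trivial
    rw [LinearMap.mem_ker, hp] at h3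
    simp [hxy] at h3
  rw [ae_iff]
  refine measure_mono_null ?_ h2
  intro u hu
  have hu' : u x = u y := not_not.1 hu
  change u ∈ LinearMap.ker p
  rw [LinearMap.mem_ker]
  change u x - u y = 0
  rw [hu', sub_self]

/-- one of the two orders holds -/
lemma pv_add {R : V → V → Prop} (h0 : 0 < (PV V).real (cn R)) {x y : V} (hxy : x ≠ y) :
    pv R x y + pv R y x = 1 := by
  unfold pv
  rw [← add_div, div_eq_one_iff_eq h0.ne']
  have hd : Disjoint (cn R ∩ evt x y) (cn R ∩ evt y x) := by
    rw [Set.disjoint_left]
    rintro u ⟨_, h1⟩ ⟨_, h2⟩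
    exact absurd (show u x < u y from h1) (not_lt.2 (show u y < u x from h2).le)
  rw [← measureReal_union hd ((meas_cn R).inter (meas_evt y x))]
  refine measureReal_congr ?_
  rw [Filter.eventuallyEq_set]
  filter_upwards [ae_ne hxy] with u hu
  constructor
  · rintro (h | h)
    · exact h.1
    · exact h.1
  · intro h
    rcases lt_or_gt_of_ne hu with h1 | h1
    · exact Or.inl ⟨h, h1⟩
    · exact Or.inr ⟨h, h1⟩

lemma pv_nonneg (R : V → V → Prop) (x y : V) : 0 ≤ pv R x y :=
  div_nonneg measureReal_nonneg measureReal_nonneg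

lemma bdd_set (w : ℕ) : BddBelow {d : ℝ | ∃ (n : ℕ) (r : Fin n → Fin n → Prop),
    IsPoset r ∧ HasWidth r w ∧ d = balance r} := by
  refine ⟨0, ?_⟩
  rintro d ⟨n, r, -, -, rfl⟩
  unfold balance
  refine Real.sSup_nonneg ?_
  rintro t ⟨x, y, -, -, rfl⟩
  have h : ∀ x y : Fin n, 0 ≤ prob r x y := fun x y => div_nonneg (Nat.cast_nonneg _) (Nat.cast_nonneg _)
  exact le_min (h x y) (h y x)

/-- **Upper bounds for the minimal balance constant**: an order on a finite type generated by a relation with a strict
height function. -/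
theorem deltaW_le {R : V → V → Prop} {H : Type} [LinearOrder H] {ht : V → H}
    (hR : ∀ a b, R a b → ht a < ht b) {w : ℕ} (hw : WidthV R w) {B : ℝ} (hB : 0 ≤ B)
    (h : ∀ x y, ¬ ReflTransGen R x y → ¬ ReflTransGen R y x → pv R x y ≤ B ∨ pv R y x ≤ B) :
    deltaW w ≤ B := by
  classical
  set n := Fintype.card V with hn
  let e : V ≃ Fin n := Fintype.equivFin V
  set r : Fin n → Fin n → Prop := fun i j => ReflTransGen R (e.symm i) (e.symm j) with hr
  have hpo : IsPoset r := isPoset_of hR e
  have hwid : HasWidth r w := by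
    obtain ⟨⟨s, hs1, hs2⟩, hs3⟩ := hw
    refine ⟨⟨s.map e.toEmbedding, by rw [Finset.card_map, hs1], ?_⟩, fun t ht' => ?_⟩
    · intro a ha b hb hab
      rw [Finset.mem_map_equiv] at ha hb
      exact hs2 _ ha _ hb fun h => hab (e.symm.injective h)
    · have h1 := hs3 (t.map e.symm.toEmbedding) (by
        intro a ha b hb hab
        rw [Finset.mem_map_equiv, Equiv.symm_symm] at ha hb
        have h2 := ht' _ ha _ hb fun h => hab (e.injective h)
        change ¬ ReflTransGen R (e.symm (e a)) (e.symm (e b)) at h2
        rwa [e.symm_apply_apply, e.symm_apply_apply] at h2)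
      rwa [Finset.card_map] at h1
  have hbal : balance r ≤ B := by
    unfold balance
    refine Real.sSup_le ?_ hB
    rintro t ⟨x, y, hxy, hyx, rfl⟩
    have h1 := prob_eq_pv R e (e.symm x) (e.symm y)
    have h2 := prob_eq_pv R e (e.symm y) (e.symm x)
    rw [e.apply_symm_apply, e.apply_symm_apply] at h1 h2
    rcases h (e.symm x) (e.symm y) hxy hyx with h3 | h3
    · exact (min_le_left _ _).trans (h1.le.trans h3)
    · exact (min_le_right _ _).trans (h2.le.trans h3)
  refine le_trans ?_ hbal
  unfold deltaW
  exact csInf_le (bdd_set w) ⟨n, r, hpo, hwid, rfl⟩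

/-- relabelling of the coordinates -/
theorem real_relabel {W : Type} [Fintype W] (e : V ≃ W) {S : Set (W → ℝ)} (hS : MeasurableSet S) :
    (PV W).real S = (PV V).real {u : V → ℝ | (fun w => u (e.symm w)) ∈ S} :=
  ((mp_relabel e).measureReal_preimage hS.nullMeasurableSet).symm

theorem pv_relabel {W : Type} [Fintype W] (e : V ≃ W) {R : V → V → Prop} {S : W → W → Prop}
    (h : ∀ a b, R a b ↔ S (e a) (e b)) (x y : V) : pv R x y = pv S (e x) (e y) := by
  have h1 : {u : V → ℝ | (fun w => u (e.symm w)) ∈ cn S} = cn R := by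
    ext u
    constructor
    · intro hu a b hab
      have h3 := hu (e a) (e b) ((h a b).1 hab)
      simpa using h3
    · intro hu a b hab
      refine hu (e.symm a) (e.symm b) ((h _ _).2 ?_)
      rwa [e.apply_symm_apply, e.apply_symm_apply]
  have h2 : {u : V → ℝ | (fun w => u (e.symm w)) ∈ cn S ∩ evt (e x) (e y)} = cn R ∩ evt x y := by
    rw [← h1]
    ext u
    change _ ∧ u (e.symm (e x)) < u (e.symm (e y)) ↔ _ ∧ u x < u y
    rw [e.symm_apply_apply, e.symm_apply_apply]
    exact Iff.rfl
  unfold pv
  rw [real_relabel e ((meas_cn S).inter (meas_evt _ _)), real_relabel e (meas_cn S), h1, h2]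

omit [Fintype V] in
/-- only the generated order matters -/
lemma cn_congr {R S : V → V → Prop} (h : ∀ a b, ReflTransGen R a b ↔ ReflTransGen S a b) : cn R = cn S := by
  rw [← cn_rtg R, ← cn_rtg S]
  ext u
  exact forall_congr' fun a => forall_congr' fun b => by rw [h a b]

end meas

/-- the width with one more element: if all antichains of `R` have at most `w` elements outside of one element, then the
width is at most `w + 1` -/
lemma card_le_succ [DecidableEq V] {R : V → V → Prop} {w : ℕ} (z : V)
    (h : ∀ s : Finset V, z ∉ s → AntiV R s → s.card ≤ w) {s : Finset V} (hs : AntiV R s) : s.card ≤ w + 1 := by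
  by_cases hz : z ∈ s
  · have h1 := h (s.erase z) (Finset.notMem_erase z s) fun a ha b hb hab =>
      hs a (Finset.mem_of_mem_erase ha) b (Finset.mem_of_mem_erase hb) hab
    rw [Finset.card_erase_of_mem hz] at h1
    omega
  · exact (h s hz hs).trans (Nat.le_succ _)

end Pool.Agent.T1K
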