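import Mathlib
import Pool.Agent.T1K.Link
import Pool.Agent.T1K.Fub

/-!
# Clocked systems: groups of elements attached to a clock
-/

set_option autoImplicit false

namespace Pool.Agent.T1K

open MeasureTheory Set Pool.Agent.Helper73.KS

/-- How a group `Γ` is attached to the clock `Gd`: every member has an optional lower tick and an
optional upper tick; `R` generates the order inside the group. -/
structure GData (Gd Γ : Type) where
  lo : Γ → Option Gd
  up : Γ → Option Gd
  R : Γ → Γ → Prop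

/-- the positions of the group compatible with the clock positions `τ` -/
def fb {Gd Γ : Type} (D : GData Gd Γ) (τ : Gd → ℝ) : Set (Γ → ℝ) :=
  {y | (∀ c g, D.lo c = some g → τ g ≤ y c) ∧ (∀ c g, D.up c = some g → y c ≤ τ g) ∧
    ∀ c d, D.R c d → y c ≤ y d}

/-- the relation on the clock and all groups -/
inductive RV {Gd J : Type} {Γ : J → Type} (Rg : Gd → Gd → Prop) (D : ∀ j, GData Gd (Γ j)) :
    (Gd ⊕ Σ j, Γ j) → (Gd ⊕ Σ j, Γ j) → Prop
  | gg (g g' : Gd) (h : Rg g g') : RV Rg D (Sum.inl g) (Sum.inl g')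
  | gc (g : Gd) (j : J) (c : Γ j) (h : (D j).lo c = some g) :
      RV Rg D (Sum.inl g) (Sum.inr ⟨j, c⟩)
  | cg (g : Gd) (j : J) (c : Γ j) (h : (D j).up c = some g) :
      RV Rg D (Sum.inr ⟨j, c⟩) (Sum.inl g)
  | cc (j : J) (c c' : Γ j) (h : (D j).R c c') :
      RV Rg D (Sum.inr ⟨j, c⟩) (Sum.inr ⟨j, c'⟩)

section

variable {Gd J : Type} {Γ : J → Type} (Rg : Gd → Gd → Prop) (D : ∀ j, GData Gd (Γ j))

/-- the cone in split coordinates -/
def body : Set ((Gd → ℝ) × (∀ j, Γ j → ℝ)) := {p | p.1 ∈ cn Rg ∧ ∀ j, p.2 j ∈ fb (D j) p.1}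

theorem cn_RV : cn (RV Rg D) = spl ⁻¹' body Rg D := by
  ext u
  constructor
  · intro h
    refine ⟨fun g g' hg => h _ _ (RV.gg g g' hg), fun j => ⟨?_, ?_, ?_⟩⟩
    · intro c g hc
      exact h _ _ (RV.gc g j c hc)
    · intro c g hc
      exact h _ _ (RV.cg g j c hc)
    · intro c c' hc
      exact h _ _ (RV.cc j c c' hc)
  · rintro ⟨h1, h2⟩ a b hab
    cases hab with
    | gg g g' h => exact h1 g g' h
    | gc g j c h => exact (h2 j).1 c g h
    | cg g j c h => exact (h2 j).2.1 c g h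
    | cc j c c' h => exact (h2 j).2.2 c c' h

end

section meas

variable {Gd Γ : Type} [Fintype Gd] [Fintype Γ] (D : GData Gd Γ)

theorem meas_fb2 : MeasurableSet {p : (Gd → ℝ) × (Γ → ℝ) | p.2 ∈ fb D p.1} := by
  have e : {p : (Gd → ℝ) × (Γ → ℝ) | p.2 ∈ fb D p.1} =
      (⋂ c : Γ, ⋂ g : Gd, {p : (Gd → ℝ) × (Γ → ℝ) | D.lo c = some g → p.1 g ≤ p.2 c}) ∩
      ((⋂ c : Γ, ⋂ g : Gd, {p : (Gd → ℝ) × (Γ → ℝ) | D.up c = some g → p.2 c ≤ p.1 g}) ∩
      ⋂ c : Γ, ⋂ d : Γ, {p : (Gd → ℝ) × (Γ → ℝ) | D.R c d → p.2 c ≤ p.2 d}) := by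
    ext p
    simp only [mem_inter_iff, mem_iInter]
    exact Iff.rfl
  rw [e]
  have key : ∀ (P : Prop) (f g : (Gd → ℝ) × (Γ → ℝ) → ℝ), Measurable f → Measurable g →
      MeasurableSet {p | P → f p ≤ g p} := by
    intro P f g hf hg
    by_cases hP : P
    · have e2 : {p | P → f p ≤ g p} = {p | f p ≤ g p} := by
        ext u
        exact ⟨fun hu => hu hP, fun hu _ => hu⟩
      rw [e2]
      exact measurableSet_le hf hg
    · have e2 : {p | P → f p ≤ g p} = univ := by
        ext u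
        exact ⟨fun _ => trivial, fun _ hab => absurd hab hP⟩
      rw [e2]
      exact MeasurableSet.univ
  have h1 : ∀ g : Gd, Measurable fun p : (Gd → ℝ) × (Γ → ℝ) => p.1 g := fun g =>
    (measurable_pi_apply g).comp measurable_fst
  have h2 : ∀ c : Γ, Measurable fun p : (Gd → ℝ) × (Γ → ℝ) => p.2 c := fun c =>
    (measurable_pi_apply c).comp measurable_snd
  refine MeasurableSet.inter ?_ (MeasurableSet.inter ?_ ?_)
  · exact MeasurableSet.iInter fun c => MeasurableSet.iInter fun g => key _ _ _ (h1 g) (h2 c)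
  · exact MeasurableSet.iInter fun c => MeasurableSet.iInter fun g => key _ _ _ (h2 c) (h1 g)
  · exact MeasurableSet.iInter fun c => MeasurableSet.iInter fun d => key _ _ _ (h2 c) (h2 d)

theorem meas_fb (τ : Gd → ℝ) : MeasurableSet (fb D τ) :=
  (meas_fb2 D).preimage (measurable_const.prodMk measurable_id)

/-- volume of the group given the clock -/
noncomputable def vj (τ : Gd → ℝ) : ℝ := (PV Γ).real (fb D τ)

theorem meas_vj : Measurable (vj D) := by
  unfold vj Measure.real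
  exact (measurable_measure_prodMk_left (ν := PV Γ) (meas_fb2 D)).ennreal_toReal

theorem vj_nonneg (τ : Gd → ℝ) : 0 ≤ vj D τ := measureReal_nonneg

theorem vj_le_one (τ : Gd → ℝ) : vj D τ ≤ 1 := by
  unfold vj
  exact measureReal_le_one

end meas

section

variable {Gd J : Type} [Fintype Gd] [Fintype J] {Γ : J → Type} [∀ j, Fintype (Γ j)]
variable (Rg : Gd → Gd → Prop) (D : ∀ j, GData Gd (Γ j))

theorem meas_body : MeasurableSet (body Rg D) := by
  have e : body Rg D = (Prod.fst ⁻¹' cn Rg) ∩ ⋂ j,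
      (fun p : (Gd → ℝ) × (∀ j, Γ j → ℝ) => (p.1, p.2 j)) ⁻¹'
        {p : (Gd → ℝ) × (Γ j → ℝ) | p.2 ∈ fb (D j) p.1} := by
    ext p
    simp only [mem_inter_iff, mem_iInter]
    exact Iff.rfl
  rw [e]
  refine (meas_cn Rg).preimage measurable_fst |>.inter (MeasurableSet.iInter fun j => ?_)
  exact (meas_fb2 (D j)).preimage
    (measurable_fst.prodMk ((measurable_pi_apply j).comp measurable_snd))

open Classical in
/-- weight of the clock position `τ` -/
noncomputable def wt (τ : Gd → ℝ) : ℝ := if τ ∈ cn Rg then ∏ j, vj (D j) τ else 0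

theorem wt_nonneg (τ : Gd → ℝ) : 0 ≤ wt Rg D τ := by
  unfold wt
  split
  · exact Finset.prod_nonneg fun j _ => vj_nonneg _ _
  · exact le_rfl

theorem wt_le_one (τ : Gd → ℝ) : wt Rg D τ ≤ 1 := by
  unfold wt
  split
  · exact Finset.prod_le_one (fun j _ => vj_nonneg _ _) fun j _ => vj_le_one _ _
  · exact zero_le_one

theorem meas_wt : Measurable (wt Rg D) := by
  classical
  unfold wt
  exact Measurable.ite (meas_cn Rg) (Finset.measurable_prod _ fun j _ => meas_vj (D j))
    measurable_const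

theorem int_wt : Integrable (wt Rg D) (PV Gd) := by
  refine Integrable.mono' (integrable_const (1 : ℝ)) (meas_wt Rg D).aestronglyMeasurable ?_
  refine Filter.Eventually.of_forall fun τ => ?_
  rw [Real.norm_eq_abs, abs_of_nonneg (wt_nonneg Rg D τ)]
  exact wt_le_one Rg D τ

theorem vol_cone : (PV (Gd ⊕ Σ j, Γ j)).real (cn (RV Rg D)) = ∫ τ, wt Rg D τ ∂(PV Gd) := by
  rw [cn_RV, disint (meas_body Rg D)]
  refine integral_congr_ae (Filter.Eventually.of_forall fun τ => ?_)
  by_cases h : τ ∈ cn Rg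
  · have e : Prod.mk τ ⁻¹' body Rg D = univ.pi fun j => fb (D j) τ := by
      ext y
      simp only [mem_preimage, mem_univ_pi]
      exact ⟨fun hy => hy.2, fun hy => ⟨h, hy⟩⟩
    simp only [wt, if_pos h]
    rw [e, Measure.real, Measure.pi_pi, ENNReal.toReal_prod]
    rfl
  · have e : Prod.mk τ ⁻¹' body Rg D = ∅ := by
      ext y
      simp only [mem_preimage, mem_empty_iff_false, iff_false]
      exact fun hy => h hy.1
    simp only [wt, if_neg h]
    rw [e]
    simp

open Classical in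
/-- two members of different groups -/
theorem vol_pair {a b : J} (hab : a ≠ b) (e : Γ a) (e' : Γ b) :
    (PV (Gd ⊕ Σ j, Γ j)).real (cn (RV Rg D) ∩ evt (Sum.inr ⟨a, e⟩) (Sum.inr ⟨b, e'⟩)) =
      ∫ τ, (if τ ∈ cn Rg then (∏ j ∈ Finset.univ \ {a, b}, vj (D j) τ) *
        ((PV (Γ a)).prod (PV (Γ b))).real
          {p | p.1 ∈ fb (D a) τ ∧ p.2 ∈ fb (D b) τ ∧ p.1 e < p.2 e'} else 0) ∂(PV Gd) := by
  have hev : MeasurableSet {p : (Gd → ℝ) × (∀ j, Γ j → ℝ) | p.2 a e < p.2 b e'} :=
    measurableSet_lt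
      ((measurable_pi_apply e).comp ((measurable_pi_apply a).comp measurable_snd))
      ((measurable_pi_apply e').comp ((measurable_pi_apply b).comp measurable_snd))
  have h1 : cn (RV Rg D) ∩ evt (Sum.inr ⟨a, e⟩) (Sum.inr ⟨b, e'⟩) =
      spl ⁻¹' (body Rg D ∩ {p | p.2 a e < p.2 b e'}) := by
    rw [preimage_inter, cn_RV]
    rfl
  rw [h1, disint ((meas_body Rg D).inter hev)]
  refine integral_congr_ae (Filter.Eventually.of_forall fun τ => ?_)
  by_cases h : τ ∈ cn Rg
  · simp only [if_pos h]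
    have e1 : Prod.mk τ ⁻¹' (body Rg D ∩ {p | p.2 a e < p.2 b e'}) =
        (fun y : (∀ j, Γ j → ℝ) => (y a, y b)) ⁻¹' {p | p.1 e < p.2 e'} ∩
          univ.pi fun j => fb (D j) τ := by
      ext y
      simp only [mem_preimage, mem_inter_iff, mem_univ_pi]
      exact ⟨fun hy => ⟨hy.2, hy.1.2⟩, fun hy => ⟨⟨h, hy.2⟩, hy.1⟩⟩
    have hs : MeasurableSet {p : (Γ a → ℝ) × (Γ b → ℝ) | p.1 e < p.2 e'} :=
      measurableSet_lt ((measurable_pi_apply e).comp measurable_fst)
        ((measurable_pi_apply e').comp measurable_snd)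
    have hm : Measurable (fun y : (∀ j, Γ j → ℝ) => (y a, y b)) :=
      (measurable_pi_apply a).prodMk (measurable_pi_apply b)
    have h2 := pi_map_pair (fun j => (PV (Γ j)).restrict (fb (D j) τ)) hab
    rw [← Measure.restrict_pi_pi] at h2
    have h3 : (Measure.pi fun j => PV (Γ j)) ((fun y : (∀ j, Γ j → ℝ) => (y a, y b)) ⁻¹'
        {p | p.1 e < p.2 e'} ∩ univ.pi fun j => fb (D j) τ) =
        (∏ j ∈ Finset.univ \ {a, b}, (PV (Γ j)) (fb (D j) τ)) *
          ((PV (Γ a)).prod (PV (Γ b))) {p | p.1 ∈ fb (D a) τ ∧ p.2 ∈ fb (D b) τ ∧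
            p.1 e < p.2 e'} := by
      rw [← Measure.restrict_apply (hm hs), ← Measure.map_apply hm hs, h2, Measure.smul_apply,
        smul_eq_mul, Measure.prod_restrict, Measure.restrict_apply hs]
      congr 1
      · refine Finset.prod_congr rfl fun j _ => ?_
        rw [Measure.restrict_apply MeasurableSet.univ, univ_inter]
      · congr 1
        ext p
        simp only [mem_inter_iff, mem_prod]
        exact ⟨fun hp => ⟨hp.2.1, hp.2.2, hp.1⟩, fun hp => ⟨hp.2.2, hp.1, hp.2.1⟩⟩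
    rw [e1, Measure.real, h3, ENNReal.toReal_mul, ENNReal.toReal_prod]
    rfl
  · have e : Prod.mk τ ⁻¹' (body Rg D ∩ {p | p.2 a e < p.2 b e'}) = ∅ := by
      ext y
      simp only [mem_preimage, mem_empty_iff_false, iff_false]
      exact fun hy => h hy.1.1
    simp only [if_neg h]
    rw [e]
    simp

end

end Pool.Agent.T1K
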