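import Mathlib
import Pool.Agent.T1K.Sys

/-!
# Averages over the clock
-/

set_option autoImplicit false

namespace Pool.Agent.T1K

open MeasureTheory Set Pool.Agent.Helper73.KS

/-- an average which is nearly constant on a set carrying nearly all the weight -/
theorem avg_close {X : Type*} [MeasurableSpace X] {μ : Measure X} {w q : X → ℝ} {N : Set X}
    {ε ε' q0 : ℝ} (hw : Integrable w μ) (h0 : ∀ x, 0 ≤ w x) (hwq : Integrable (fun x => w x * q x) μ)
    (hN : MeasurableSet N) (hNc : ∫ x in Nᶜ, w x ∂μ ≤ ε * ∫ x, w x ∂μ)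
    (hq : ∀ x ∈ N, w x ≠ 0 → |q x - q0| ≤ ε') (hq1 : ∀ x, 0 ≤ q x ∧ q x ≤ 1)
    (hq0 : 0 ≤ q0 ∧ q0 ≤ 1) (hε' : 0 ≤ ε') :
    |(∫ x, w x * q x ∂μ) - q0 * ∫ x, w x ∂μ| ≤ (ε + ε') * ∫ x, w x ∂μ := by
  have e1 : (∫ x, w x * q x ∂μ) - q0 * ∫ x, w x ∂μ = ∫ x, w x * (q x - q0) ∂μ := by
    rw [← integral_const_mul, ← integral_sub hwq (hw.const_mul q0)]
    refine integral_congr_ae (Filter.Eventually.of_forall fun x => ?_)
    ring
  have i1 : Integrable (fun x => w x * (q x - q0)) μ := by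
    have : (fun x => w x * (q x - q0)) = fun x => w x * q x - q0 * w x := by
      funext x; ring
    rw [this]
    exact hwq.sub (hw.const_mul q0)
  have i2 : Integrable (fun x => ε' * w x + Nᶜ.indicator w x) μ :=
    (hw.const_mul ε').add (hw.indicator hN.compl)
  rw [e1]
  calc |∫ x, w x * (q x - q0) ∂μ| ≤ ∫ x, |w x * (q x - q0)| ∂μ := abs_integral_le_integral_abs
    _ ≤ ∫ x, (ε' * w x + Nᶜ.indicator w x) ∂μ := by
        refine integral_mono i1.abs i2 fun x => ?_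
        simp only
        rw [abs_mul, abs_of_nonneg (h0 x)]
        by_cases hx : x ∈ N
        · have h1 : x ∉ Nᶜ := fun h => h hx
          rw [indicator_of_notMem h1, add_zero]
          by_cases hwx : w x = 0
          · rw [hwx]; simp
          · rw [mul_comm ε']
            exact mul_le_mul_of_nonneg_left (hq x hx hwx) (h0 x)
        · rw [indicator_of_mem (show x ∈ Nᶜ from hx)]
          have h2 : |q x - q0| ≤ 1 := by
            rw [abs_le]
            constructor <;> linarith [(hq1 x).1, (hq1 x).2, hq0.1, hq0.2]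
          have h3 := mul_le_mul_of_nonneg_left h2 (h0 x)
          have h4 := mul_nonneg hε' (h0 x)
          linarith
    _ = ε' * ∫ x, w x ∂μ + ∫ x in Nᶜ, w x ∂μ := by
        rw [integral_add (hw.const_mul ε') (hw.indicator hN.compl), integral_const_mul,
          integral_indicator hN.compl]
    _ ≤ (ε + ε') * ∫ x, w x ∂μ := by
        have := hNc
        linarith [add_mul ε ε' (∫ x, w x ∂μ)]

section

variable {Gd J : Type} [Fintype Gd] [Fintype J] {Γ : J → Type} [∀ j, Fintype (Γ j)]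
variable (Rg : Gd → Gd → Prop) (D : ∀ j, GData Gd (Γ j))

open Classical in
/-- a member of a group against a clock element -/
theorem vol_one {a : J} (e : Γ a) (g : Gd) :
    (PV (Gd ⊕ Σ j, Γ j)).real (cn (RV Rg D) ∩ evt (Sum.inr ⟨a, e⟩) (Sum.inl g)) =
      ∫ τ, (if τ ∈ cn Rg then (∏ j ∈ Finset.univ.erase a, vj (D j) τ) *
        (PV (Γ a)).real {y | y ∈ fb (D a) τ ∧ y e < τ g} else 0) ∂(PV Gd) := by
  have hev : MeasurableSet {p : (Gd → ℝ) × (∀ j, Γ j → ℝ) | p.2 a e < p.1 g} :=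
    measurableSet_lt
      ((measurable_pi_apply e).comp ((measurable_pi_apply a).comp measurable_snd))
      ((measurable_pi_apply g).comp measurable_fst)
  have h1 : cn (RV Rg D) ∩ evt (Sum.inr ⟨a, e⟩) (Sum.inl g) =
      spl ⁻¹' (body Rg D ∩ {p | p.2 a e < p.1 g}) := by
    rw [preimage_inter, cn_RV]
    rfl
  rw [h1, disint ((meas_body Rg D).inter hev)]
  refine integral_congr_ae (Filter.Eventually.of_forall fun τ => ?_)
  by_cases h : τ ∈ cn Rg
  · simp only [if_pos h]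
    have e1 : Prod.mk τ ⁻¹' (body Rg D ∩ {p | p.2 a e < p.1 g}) =
        (fun y : (∀ j, Γ j → ℝ) => y a) ⁻¹' {y | y e < τ g} ∩
          univ.pi fun j => fb (D j) τ := by
      ext y
      simp only [mem_preimage, mem_inter_iff, mem_univ_pi]
      exact ⟨fun hy => ⟨hy.2, hy.1.2⟩, fun hy => ⟨⟨h, hy.2⟩, hy.1⟩⟩
    have hs : MeasurableSet {y : Γ a → ℝ | y e < τ g} :=
      measurableSet_lt (measurable_pi_apply e) measurable_const
    have hm : Measurable (fun y : (∀ j, Γ j → ℝ) => y a) := measurable_pi_apply a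
    have h2 := pi_map_one (fun j => (PV (Γ j)).restrict (fb (D j) τ)) a
    rw [← Measure.restrict_pi_pi] at h2
    have h3 : (Measure.pi fun j => PV (Γ j)) ((fun y : (∀ j, Γ j → ℝ) => y a) ⁻¹'
        {y | y e < τ g} ∩ univ.pi fun j => fb (D j) τ) =
        (∏ j ∈ Finset.univ.erase a, (PV (Γ j)) (fb (D j) τ)) *
          (PV (Γ a)) {y | y ∈ fb (D a) τ ∧ y e < τ g} := by
      rw [← Measure.restrict_apply (hm hs), ← Measure.map_apply hm hs, h2, Measure.smul_apply,
        smul_eq_mul, Measure.restrict_apply hs]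
      congr 1
      · refine Finset.prod_congr rfl fun j _ => ?_
        rw [Measure.restrict_apply MeasurableSet.univ, univ_inter]
      · congr 1
        ext y
        simp only [mem_inter_iff]
        exact ⟨fun hp => ⟨hp.2, hp.1⟩, fun hp => ⟨hp.2, hp.1⟩⟩
    rw [e1, Measure.real, h3, ENNReal.toReal_mul, ENNReal.toReal_prod]
    rfl
  · have e : Prod.mk τ ⁻¹' (body Rg D ∩ {p | p.2 a e < p.1 g}) = ∅ := by
      ext y
      simp only [mem_preimage, mem_empty_iff_false, iff_false]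
      exact fun hy => h hy.1.1
    simp only [if_neg h]
    rw [e]
    simp

/-- conditional probability of `e < e'` given the clock, different groups -/
noncomputable def qPair (a b : J) (e : Γ a) (e' : Γ b) (τ : Gd → ℝ) : ℝ :=
  ((PV (Γ a)).prod (PV (Γ b))).real {p | p.1 ∈ fb (D a) τ ∧ p.2 ∈ fb (D b) τ ∧ p.1 e < p.2 e'} /
    (vj (D a) τ * vj (D b) τ)

/-- conditional probability of `e < g` given the clock -/
noncomputable def qOne (a : J) (e : Γ a) (g : Gd) (τ : Gd → ℝ) : ℝ :=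
  (PV (Γ a)).real {y | y ∈ fb (D a) τ ∧ y e < τ g} / vj (D a) τ

theorem prod_real_fb (a b : J) (τ : Gd → ℝ) :
    ((PV (Γ a)).prod (PV (Γ b))).real {p | p.1 ∈ fb (D a) τ ∧ p.2 ∈ fb (D b) τ} =
      vj (D a) τ * vj (D b) τ := by
  have : {p : (Γ a → ℝ) × (Γ b → ℝ) | p.1 ∈ fb (D a) τ ∧ p.2 ∈ fb (D b) τ} =
      fb (D a) τ ×ˢ fb (D b) τ := rfl
  rw [this, measureReal_prod_prod]
  rfl

theorem qPair_mem (a b : J) (e : Γ a) (e' : Γ b) (τ : Gd → ℝ) :
    0 ≤ qPair D a b e e' τ ∧ qPair D a b e e' τ ≤ 1 := by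
  constructor
  · exact div_nonneg measureReal_nonneg (mul_nonneg (vj_nonneg _ _) (vj_nonneg _ _))
  · refine div_le_one_of_le₀ ?_ (mul_nonneg (vj_nonneg _ _) (vj_nonneg _ _))
    rw [← prod_real_fb]
    exact measureReal_mono (fun p hp => ⟨hp.1, hp.2.1⟩) (measure_ne_top _ _)

theorem qOne_mem (a : J) (e : Γ a) (g : Gd) (τ : Gd → ℝ) :
    0 ≤ qOne D a e g τ ∧ qOne D a e g τ ≤ 1 := by
  constructor
  · exact div_nonneg measureReal_nonneg (vj_nonneg _ _)
  · refine div_le_one_of_le₀ ?_ (vj_nonneg _ _)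
    exact measureReal_mono (fun p hp => hp.1) (measure_ne_top _ _)

theorem meas_qPair (a b : J) (e : Γ a) (e' : Γ b) : Measurable (qPair D a b e e') := by
  unfold qPair
  refine Measurable.div ?_ ((meas_vj (D a)).mul (meas_vj (D b)))
  have hE : MeasurableSet {x : (Gd → ℝ) × ((Γ a → ℝ) × (Γ b → ℝ)) |
      x.2.1 ∈ fb (D a) x.1 ∧ x.2.2 ∈ fb (D b) x.1 ∧ x.2.1 e < x.2.2 e'} := by
    refine MeasurableSet.inter ?_ (MeasurableSet.inter ?_ ?_)
    · exact (meas_fb2 (D a)).preimage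
        (measurable_fst.prodMk (measurable_fst.comp measurable_snd))
    · exact (meas_fb2 (D b)).preimage
        (measurable_fst.prodMk (measurable_snd.comp measurable_snd))
    · exact measurableSet_lt
        ((measurable_pi_apply e).comp (measurable_fst.comp measurable_snd))
        ((measurable_pi_apply e').comp (measurable_snd.comp measurable_snd))
  exact (measurable_measure_prodMk_left (ν := (PV (Γ a)).prod (PV (Γ b))) hE).ennreal_toReal

theorem meas_qOne (a : J) (e : Γ a) (g : Gd) : Measurable (qOne D a e g) := by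
  unfold qOne
  refine Measurable.div ?_ (meas_vj (D a))
  have hE : MeasurableSet {x : (Gd → ℝ) × (Γ a → ℝ) | x.2 ∈ fb (D a) x.1 ∧ x.2 e < x.1 g} := by
    refine MeasurableSet.inter (meas_fb2 (D a)) ?_
    exact measurableSet_lt ((measurable_pi_apply e).comp measurable_snd)
      ((measurable_pi_apply g).comp measurable_fst)
  exact (measurable_measure_prodMk_left (ν := PV (Γ a)) hE).ennreal_toReal

theorem vol_pair' {a b : J} (hab : a ≠ b) (e : Γ a) (e' : Γ b) :
    (PV (Gd ⊕ Σ j, Γ j)).real (cn (RV Rg D) ∩ evt (Sum.inr ⟨a, e⟩) (Sum.inr ⟨b, e'⟩)) =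
      ∫ τ, wt Rg D τ * qPair D a b e e' τ ∂(PV Gd) := by
  classical
  rw [vol_pair Rg D hab e e']
  refine integral_congr_ae (Filter.Eventually.of_forall fun τ => ?_)
  simp only
  by_cases h : τ ∈ cn Rg
  · rw [if_pos h]
    unfold wt qPair
    rw [if_pos h, ← Finset.prod_sdiff (Finset.subset_univ ({a, b} : Finset J)),
      Finset.prod_pair hab]
    by_cases h0 : vj (D a) τ * vj (D b) τ = 0
    · have h1 : ((PV (Γ a)).prod (PV (Γ b))).real
          {p | p.1 ∈ fb (D a) τ ∧ p.2 ∈ fb (D b) τ ∧ p.1 e < p.2 e'} = 0 := by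
        refine le_antisymm ?_ measureReal_nonneg
        rw [← h0, ← prod_real_fb]
        exact measureReal_mono (fun p hp => ⟨hp.1, hp.2.1⟩) (measure_ne_top _ _)
      rw [h1, h0]
      simp
    · rw [mul_assoc, mul_div_cancel₀ _ h0]
  · rw [if_neg h]
    unfold wt
    rw [if_neg h, zero_mul]

theorem vol_one' {a : J} (e : Γ a) (g : Gd) :
    (PV (Gd ⊕ Σ j, Γ j)).real (cn (RV Rg D) ∩ evt (Sum.inr ⟨a, e⟩) (Sum.inl g)) =
      ∫ τ, wt Rg D τ * qOne D a e g τ ∂(PV Gd) := by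
  classical
  rw [vol_one Rg D e g]
  refine integral_congr_ae (Filter.Eventually.of_forall fun τ => ?_)
  simp only
  by_cases h : τ ∈ cn Rg
  · rw [if_pos h]
    unfold wt qOne
    rw [if_pos h, ← Finset.prod_erase_mul _ _ (Finset.mem_univ a)]
    by_cases h0 : vj (D a) τ = 0
    · have h1 : (PV (Γ a)).real {y | y ∈ fb (D a) τ ∧ y e < τ g} = 0 := by
        refine le_antisymm ?_ measureReal_nonneg
        rw [← h0]
        exact measureReal_mono (fun p hp => hp.1) (measure_ne_top _ _)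
      rw [h1, h0]
      simp
    · field_simp
  · rw [if_neg h]
    unfold wt
    rw [if_neg h, zero_mul]

/-- **Probabilities are close to their values at the target, different groups.** -/
theorem pv_pair_close {a b : J} (hab : a ≠ b) (e : Γ a) (e' : Γ b) {N : Set (Gd → ℝ)}
    {ε ε' q0 : ℝ} (hN : MeasurableSet N)
    (hNc : ∫ τ in Nᶜ, wt Rg D τ ∂(PV Gd) ≤ ε * ∫ τ, wt Rg D τ ∂(PV Gd))
    (hpos : 0 < ∫ τ, wt Rg D τ ∂(PV Gd))
    (hq : ∀ τ ∈ N, wt Rg D τ ≠ 0 → |qPair D a b e e' τ - q0| ≤ ε') (hq0 : 0 ≤ q0 ∧ q0 ≤ 1)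
    (hε' : 0 ≤ ε') :
    |pv (RV Rg D) (Sum.inr ⟨a, e⟩) (Sum.inr ⟨b, e'⟩) - q0| ≤ ε + ε' := by
  unfold pv
  rw [vol_pair' Rg D hab, vol_cone]
  have hI : Integrable (fun τ => wt Rg D τ * qPair D a b e e' τ) (PV Gd) := by
    refine Integrable.mono' (int_wt Rg D)
      ((meas_wt Rg D).mul (meas_qPair D a b e e')).aestronglyMeasurable ?_
    refine Filter.Eventually.of_forall fun τ => ?_
    rw [Real.norm_eq_abs, abs_of_nonneg (mul_nonneg (wt_nonneg Rg D τ) (qPair_mem D a b e e' τ).1)]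
    exact mul_le_of_le_one_right (wt_nonneg Rg D τ) (qPair_mem D a b e e' τ).2
  have h1 := avg_close (int_wt Rg D) (wt_nonneg Rg D) hI hN hNc hq (qPair_mem D a b e e') hq0 hε'
  have h2 : (∫ τ, wt Rg D τ * qPair D a b e e' τ ∂(PV Gd)) / (∫ τ, wt Rg D τ ∂(PV Gd)) - q0 =
      ((∫ τ, wt Rg D τ * qPair D a b e e' τ ∂(PV Gd)) - q0 * ∫ τ, wt Rg D τ ∂(PV Gd)) /
        ∫ τ, wt Rg D τ ∂(PV Gd) := by
    field_simp
  rw [h2, abs_div, abs_of_pos hpos, div_le_iff₀ hpos]
  exact h1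

/-- **Probabilities are close to their values at the target, member against clock element.** -/
theorem pv_one_close {a : J} (e : Γ a) (g : Gd) {N : Set (Gd → ℝ)}
    {ε ε' q0 : ℝ} (hN : MeasurableSet N)
    (hNc : ∫ τ in Nᶜ, wt Rg D τ ∂(PV Gd) ≤ ε * ∫ τ, wt Rg D τ ∂(PV Gd))
    (hpos : 0 < ∫ τ, wt Rg D τ ∂(PV Gd))
    (hq : ∀ τ ∈ N, wt Rg D τ ≠ 0 → |qOne D a e g τ - q0| ≤ ε') (hq0 : 0 ≤ q0 ∧ q0 ≤ 1)
    (hε' : 0 ≤ ε') :
    |pv (RV Rg D) (Sum.inr ⟨a, e⟩) (Sum.inl g) - q0| ≤ ε + ε' := by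
  unfold pv
  rw [vol_one' Rg D, vol_cone]
  have hI : Integrable (fun τ => wt Rg D τ * qOne D a e g τ) (PV Gd) := by
    refine Integrable.mono' (int_wt Rg D)
      ((meas_wt Rg D).mul (meas_qOne D a e g)).aestronglyMeasurable ?_
    refine Filter.Eventually.of_forall fun τ => ?_
    rw [Real.norm_eq_abs, abs_of_nonneg (mul_nonneg (wt_nonneg Rg D τ) (qOne_mem D a e g τ).1)]
    exact mul_le_of_le_one_right (wt_nonneg Rg D τ) (qOne_mem D a e g τ).2
  have h1 := avg_close (int_wt Rg D) (wt_nonneg Rg D) hI hN hNc hq (qOne_mem D a e g) hq0 hε'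
  have h2 : (∫ τ, wt Rg D τ * qOne D a e g τ ∂(PV Gd)) / (∫ τ, wt Rg D τ ∂(PV Gd)) - q0 =
      ((∫ τ, wt Rg D τ * qOne D a e g τ ∂(PV Gd)) - q0 * ∫ τ, wt Rg D τ ∂(PV Gd)) /
        ∫ τ, wt Rg D τ ∂(PV Gd) := by
    field_simp
  rw [h2, abs_div, abs_of_pos hpos, div_le_iff₀ hpos]
  exact h1

end

end Pool.Agent.T1K
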