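import Mathlib
import Pool.Agent.T1K.Sys

/-!
# Lipschitz dependence of the laws of the groups on the clock
-/

set_option autoImplicit false
set_option linter.unusedSectionVars false

namespace Pool.Agent.T1K

open MeasureTheory Set Pool.Agent.Helper73.KS

/-! ## Ratios -/

section ratio

variable {Ω : Type*} [MeasurableSpace Ω] {μ : Measure Ω} [IsFiniteMeasure μ]

theorem real_inter_le_add_symm (S S' A : Set Ω) :
    μ.real (S ∩ A) ≤ μ.real (S' ∩ A) + μ.real (symmDiff S S') := by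
  have h : S ∩ A ⊆ (S' ∩ A) ∪ symmDiff S S' := by
    intro x hx
    by_cases h' : x ∈ S'
    · exact Or.inl ⟨h', hx.2⟩
    · exact Or.inr (Or.inl ⟨hx.1, h'⟩)
  exact (measureReal_mono h).trans (measureReal_union_le _ _)

theorem real_inter_sub_le (S S' A : Set Ω) :
    |μ.real (S ∩ A) - μ.real (S' ∩ A)| ≤ μ.real (symmDiff S S') := by
  have h1 := real_inter_le_add_symm (μ := μ) S S' A
  have h2 := real_inter_le_add_symm (μ := μ) S' S A
  rw [symmDiff_comm] at h2
  rw [abs_le]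
  constructor <;> linarith

theorem real_sub_le (S S' : Set Ω) :
    |μ.real S - μ.real S'| ≤ μ.real (symmDiff S S') := by
  have h := real_inter_sub_le (μ := μ) S S' univ
  rwa [inter_univ, inter_univ] at h

theorem ratio_le_one (S A : Set Ω) : μ.real (S ∩ A) / μ.real S ≤ 1 :=
  div_le_one_of_le₀ (measureReal_mono inter_subset_left) measureReal_nonneg

theorem ratio_nonneg (S A : Set Ω) : 0 ≤ μ.real (S ∩ A) / μ.real S :=
  div_nonneg measureReal_nonneg measureReal_nonneg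

/-- conditional probabilities depend continuously on the condition -/
theorem ratio_one (S S0 A : Set Ω) (h0 : 0 < μ.real S0) :
    |μ.real (S ∩ A) / μ.real S - μ.real (S0 ∩ A) / μ.real S0| ≤
      2 * μ.real (symmDiff S S0) / μ.real S0 := by
  have hd := real_inter_sub_le (μ := μ) S S0 A
  have hs := real_sub_le (μ := μ) S S0
  have hD : 0 ≤ μ.real (symmDiff S S0) := measureReal_nonneg
  rcases (measureReal_nonneg (μ := μ) (s := S)).eq_or_lt with h | h
  · rw [← h, div_zero, zero_sub, abs_neg, abs_of_nonneg (ratio_nonneg S0 A)]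
    rw [← h, zero_sub, abs_neg, abs_of_pos h0] at hs
    refine (ratio_le_one S0 A).trans ?_
    rw [le_div_iff₀ h0]
    linarith
  · have e : μ.real (S ∩ A) / μ.real S - μ.real (S0 ∩ A) / μ.real S0 =
        ((μ.real (S ∩ A) - μ.real (S0 ∩ A)) +
          μ.real (S ∩ A) / μ.real S * (μ.real S0 - μ.real S)) / μ.real S0 := by
      field_simp
      ring
    rw [e, abs_div, abs_of_pos h0]
    refine div_le_div_of_nonneg_right ?_ h0.le
    refine (abs_add_le _ _).trans ?_
    rw [abs_mul, abs_of_nonneg (ratio_nonneg S A), abs_sub_comm (μ.real S0)]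
    have h3 : μ.real (S ∩ A) / μ.real S * |μ.real S - μ.real S0| ≤
        1 * μ.real (symmDiff S S0) :=
      mul_le_mul (ratio_le_one S A) hs (abs_nonneg _) zero_le_one
    linarith

end ratio

section ratio2

variable {Ω Ω' : Type*} [MeasurableSpace Ω] [MeasurableSpace Ω'] {μ : Measure Ω}
  [IsFiniteMeasure μ] {ν : Measure Ω'} [IsFiniteMeasure ν]

theorem real_prod_slice {S : Set Ω} {T : Set Ω'} {A : Set (Ω × Ω')} (hS : MeasurableSet S)
    (hT : MeasurableSet T) (hA : MeasurableSet A) :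
    (μ.prod ν).real ((S ×ˢ T) ∩ A) = ∫ x in S, ν.real (T ∩ Prod.mk x ⁻¹' A) ∂μ := by
  have hm : MeasurableSet ((S ×ˢ T) ∩ A) := (hS.prod hT).inter hA
  have h1 : (μ.prod ν).real ((S ×ˢ T) ∩ A) =
      ∫ x, ν.real (Prod.mk x ⁻¹' ((S ×ˢ T) ∩ A)) ∂μ := by
    unfold Measure.real
    rw [Measure.prod_apply hm, integral_toReal (measurable_measure_prodMk_left hm).aemeasurable]
    exact Filter.Eventually.of_forall fun _ => measure_lt_top _ _
  rw [h1, ← integral_indicator hS]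
  refine integral_congr_ae (Filter.Eventually.of_forall fun x => ?_)
  show ν.real (Prod.mk x ⁻¹' ((S ×ˢ T) ∩ A)) = _
  by_cases hx : x ∈ S
  · have e : Prod.mk x ⁻¹' ((S ×ˢ T) ∩ A) = T ∩ Prod.mk x ⁻¹' A := by
      ext y
      simp only [mem_preimage, mem_inter_iff, mem_prod, hx, true_and]
    rw [indicator_of_mem hx, e]
  · have e : Prod.mk x ⁻¹' ((S ×ˢ T) ∩ A) = ∅ := by
      ext y
      simp only [mem_preimage, mem_inter_iff, mem_prod, hx, false_and, mem_empty_iff_false]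
    rw [indicator_of_notMem hx, e, measureReal_empty]

theorem slice_integrable {S : Set Ω} {T : Set Ω'} {A : Set (Ω × Ω')}
    (hT : MeasurableSet T) (hA : MeasurableSet A) :
    Integrable (fun x => ν.real (T ∩ Prod.mk x ⁻¹' A)) (μ.restrict S) := by
  have hm : Measurable fun x => ν.real (T ∩ Prod.mk x ⁻¹' A) := by
    have h : (fun x => ν.real (T ∩ Prod.mk x ⁻¹' A)) =
        fun x : Ω => (ν (Prod.mk x ⁻¹' ((univ ×ˢ T) ∩ A))).toReal := by
      funext x
      unfold Measure.real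
      congr 2
      ext y
      simp only [mem_preimage, mem_inter_iff, mem_prod, mem_univ, true_and]
    rw [h]
    exact (measurable_measure_prodMk_left ((MeasurableSet.univ.prod hT).inter hA)).ennreal_toReal
  refine Integrable.mono' (integrable_const (ν.real univ)) hm.aestronglyMeasurable ?_
  refine Filter.Eventually.of_forall fun x => ?_
  rw [Real.norm_eq_abs, abs_of_nonneg measureReal_nonneg]
  exact measureReal_mono (subset_univ _)

/-- changing the second condition -/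
theorem ratio_snd {S : Set Ω} {T T0 : Set Ω'} {A : Set (Ω × Ω')} (hS : MeasurableSet S)
    (hT : MeasurableSet T) (hT0 : MeasurableSet T0) (hA : MeasurableSet A)
    (h0 : 0 < ν.real T0) :
    |(μ.prod ν).real ((S ×ˢ T) ∩ A) / (μ.real S * ν.real T) -
      (μ.prod ν).real ((S ×ˢ T0) ∩ A) / (μ.real S * ν.real T0)| ≤
        2 * ν.real (symmDiff T T0) / ν.real T0 := by
  set B : ℝ := 2 * ν.real (symmDiff T T0) / ν.real T0 with hB
  have hB0 : 0 ≤ B := div_nonneg (mul_nonneg zero_le_two measureReal_nonneg) h0.le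
  rcases (measureReal_nonneg (μ := μ) (s := S)).eq_or_lt with h | h
  · rw [← h, zero_mul, zero_mul, div_zero, div_zero, sub_zero, abs_zero]
    exact hB0
  rw [real_prod_slice hS hT hA, real_prod_slice hS hT0 hA, mul_comm (μ.real S),
    mul_comm (μ.real S), ← div_div, ← div_div, ← sub_div, ← integral_div, ← integral_div,
    ← integral_sub ((slice_integrable hT hA).div_const _) ((slice_integrable hT0 hA).div_const _),
    abs_div, abs_of_pos h, div_le_iff₀ h]
  have h2 := norm_integral_le_of_norm_le_const (μ := μ.restrict S) (C := B)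
    (f := fun x => ν.real (T ∩ Prod.mk x ⁻¹' A) / ν.real T -
      ν.real (T0 ∩ Prod.mk x ⁻¹' A) / ν.real T0)
    (Filter.Eventually.of_forall fun x => by
      rw [Real.norm_eq_abs]
      exact ratio_one T T0 _ h0)
  rw [Real.norm_eq_abs, measureReal_restrict_apply_univ] at h2
  exact h2

theorem real_prod_swap {S : Set Ω} {T : Set Ω'} {A : Set (Ω × Ω')} (hS : MeasurableSet S)
    (hT : MeasurableSet T) (hA : MeasurableSet A) :
    (μ.prod ν).real ((S ×ˢ T) ∩ A) = (ν.prod μ).real ((T ×ˢ S) ∩ Prod.swap ⁻¹' A) := by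
  have h := (Measure.measurePreserving_swap (μ := ν) (ν := μ)).measureReal_preimage
    ((hS.prod hT).inter hA).nullMeasurableSet
  rw [← h]
  congr 1
  ext p
  simp only [mem_preimage, mem_inter_iff, mem_prod, Prod.fst_swap, Prod.snd_swap]
  tauto

/-- changing the first condition -/
theorem ratio_fst {S S0 : Set Ω} {T : Set Ω'} {A : Set (Ω × Ω')} (hS : MeasurableSet S)
    (hS0 : MeasurableSet S0) (hT : MeasurableSet T) (hA : MeasurableSet A)
    (h0 : 0 < μ.real S0) :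
    |(μ.prod ν).real ((S ×ˢ T) ∩ A) / (μ.real S * ν.real T) -
      (μ.prod ν).real ((S0 ×ˢ T) ∩ A) / (μ.real S0 * ν.real T)| ≤
        2 * μ.real (symmDiff S S0) / μ.real S0 := by
  rw [real_prod_swap hS hT hA, real_prod_swap hS0 hT hA, mul_comm (μ.real S),
    mul_comm (μ.real S0)]
  exact ratio_snd hT hS hS0 (hA.preimage measurable_swap) h0

/-- conditional probabilities of events of two independent parts -/
theorem ratio_two {S S0 : Set Ω} {T T0 : Set Ω'} {A : Set (Ω × Ω')} (hS : MeasurableSet S)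
    (hS0 : MeasurableSet S0) (hT : MeasurableSet T) (hT0 : MeasurableSet T0)
    (hA : MeasurableSet A) (h0 : 0 < μ.real S0) (h0' : 0 < ν.real T0) :
    |(μ.prod ν).real ((S ×ˢ T) ∩ A) / (μ.real S * ν.real T) -
      (μ.prod ν).real ((S0 ×ˢ T0) ∩ A) / (μ.real S0 * ν.real T0)| ≤
        2 * μ.real (symmDiff S S0) / μ.real S0 + 2 * ν.real (symmDiff T T0) / ν.real T0 := by
  have h1 := ratio_fst (ν := ν) hS hS0 hT hA h0
  have h2 := ratio_snd (μ := μ) hS0 hT hT0 hA h0'
  rw [abs_le] at h1 h2 ⊢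
  constructor <;> linarith [h1.1, h1.2, h2.1, h2.2]

end ratio2

/-! ## The groups -/

section group

variable {Gd Γ : Type} [Fintype Γ] (D : GData Gd Γ)

theorem lam_real_Icc_le (a b : ℝ) : lam.real (Icc a b) ≤ |a - b| := by
  have h1 : lam (Icc a b) ≤ ENNReal.ofReal (b - a) := by
    refine (Measure.restrict_apply_le _ _).trans ?_
    rw [Real.volume_Icc]
  have h2 : lam.real (Icc a b) ≤ max (b - a) 0 := by
    have h3 := ENNReal.toReal_mono ENNReal.ofReal_ne_top h1
    rw [ENNReal.toReal_ofReal'] at h3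
    exact h3
  refine h2.trans (max_le ?_ (abs_nonneg _))
  rw [abs_sub_comm]
  exact le_abs_self _

theorem PV_coord_Icc (c : Γ) (a b : ℝ) :
    (PV Γ).real {y | y c ∈ Icc a b} ≤ |a - b| := by
  have h := (measurePreserving_eval (fun _ : Γ => lam) c).measureReal_preimage
    (measurableSet_Icc (a := a) (b := b)).nullMeasurableSet
  have h2 : (PV Γ).real {y | y c ∈ Icc a b} = lam.real (Icc a b) := h
  rw [h2]
  exact lam_real_Icc_le a b

/-- change of the position of a tick -/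
def dt {Gd : Type} (τ τ' : Gd → ℝ) : Option Gd → ℝ
  | none => 0
  | some g => |τ g - τ' g|

theorem dt_nonneg {Gd : Type} (τ τ' : Gd → ℝ) (o : Option Gd) : 0 ≤ dt τ τ' o := by
  cases o with
  | none => exact le_rfl
  | some g => exact abs_nonneg _

theorem dt_comm {Gd : Type} (τ τ' : Gd → ℝ) (o : Option Gd) : dt τ τ' o = dt τ' τ o := by
  cases o with
  | none => rfl
  | some g => exact abs_sub_comm _ _

theorem dt_le {Gd : Type} {τ τ' : Gd → ℝ} {ε : ℝ} (hε : 0 ≤ ε) (h : ∀ g, |τ g - τ' g| ≤ ε)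
    (o : Option Gd) : dt τ τ' o ≤ ε := by
  cases o with
  | none => exact hε
  | some g => exact h g

/-- positions of a coordinate allowed by exactly one of two clock positions -/
def sl {Gd Γ : Type} (τ τ' : Gd → ℝ) (c : Γ) : Option Gd → Set (Γ → ℝ)
  | none => ∅
  | some g => {y | y c ∈ Icc (min (τ g) (τ' g)) (max (τ g) (τ' g))}

theorem PV_sl (τ τ' : Gd → ℝ) (c : Γ) (o : Option Gd) :
    (PV Γ).real (sl τ τ' c o) ≤ dt τ τ' o := by
  cases o with
  | none =>
    show (PV Γ).real (∅ : Set (Γ → ℝ)) ≤ 0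
    rw [measureReal_empty]
  | some g =>
    refine (PV_coord_Icc c _ _).trans ?_
    show _ ≤ |τ g - τ' g|
    rw [abs_sub_comm, max_sub_min_eq_abs, abs_abs, abs_sub_comm]

theorem diff_sub (τ τ' : Gd → ℝ) :
    fb D τ \ fb D τ' ⊆ ⋃ c : Γ, (sl τ τ' c (D.lo c) ∪ sl τ τ' c (D.up c)) := by
  rintro y ⟨hy, hn⟩
  by_contra hc
  simp only [mem_iUnion, not_exists, mem_union, not_or] at hc
  refine hn ⟨?_, ?_, hy.2.2⟩
  · intro c g hg
    by_contra h
    push Not at h
    have h1 := hy.1 c g hg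
    refine (hc c).1 ?_
    rw [hg]
    exact ⟨(min_le_left _ _).trans h1, h.le.trans (le_max_right _ _)⟩
  · intro c g hg
    by_contra h
    push Not at h
    have h1 := hy.2.1 c g hg
    refine (hc c).2 ?_
    rw [hg]
    exact ⟨(min_le_right _ _).trans h.le, h1.trans (le_max_left _ _)⟩

theorem sl_comm (τ τ' : Gd → ℝ) (c : Γ) (o : Option Gd) : sl τ τ' c o = sl τ' τ c o := by
  cases o with
  | none => rfl
  | some g =>
    show {y | y c ∈ Icc (min (τ g) (τ' g)) (max (τ g) (τ' g))} =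
      {y : Γ → ℝ | y c ∈ Icc (min (τ' g) (τ g)) (max (τ' g) (τ g))}
    rw [min_comm, max_comm]

/-- total change of the ticks used by the group -/
def dd1 (τ τ' : Gd → ℝ) : ℝ := ∑ c : Γ, (dt τ τ' (D.lo c) + dt τ τ' (D.up c))

theorem dd1_nonneg (τ τ' : Gd → ℝ) : 0 ≤ dd1 D τ τ' :=
  Finset.sum_nonneg fun _ _ => add_nonneg (dt_nonneg _ _ _) (dt_nonneg _ _ _)

/-- the volume of the positions allowed by exactly one of two clock positions -/
theorem symm_fb (τ τ' : Gd → ℝ) :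
    (PV Γ).real (symmDiff (fb D τ) (fb D τ')) ≤ dd1 D τ τ' := by
  have h : symmDiff (fb D τ) (fb D τ') ⊆
      ⋃ c : Γ, (sl τ τ' c (D.lo c) ∪ sl τ τ' c (D.up c)) := by
    rw [symmDiff_def]
    refine union_subset (diff_sub D τ τ') ?_
    refine (diff_sub D τ' τ).trans ?_
    refine iUnion_mono fun c => ?_
    rw [sl_comm τ' τ, sl_comm τ' τ]
  refine (measureReal_mono h).trans ((measureReal_iUnion_fintype_le _).trans ?_)
  exact Finset.sum_le_sum fun c _ => (measureReal_union_le _ _).trans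
    (add_le_add (PV_sl _ _ _ _) (PV_sl _ _ _ _))

theorem dd1_le {τ τ' : Gd → ℝ} {ε : ℝ} (hε : 0 ≤ ε) (h : ∀ g, |τ g - τ' g| ≤ ε) :
    dd1 D τ τ' ≤ 2 * Fintype.card Γ * ε := by
  refine (Finset.sum_le_sum (g := fun _ => 2 * ε) fun c _ => ?_).trans ?_
  · have h1 := dt_le hε h (D.lo c)
    have h2 := dt_le hε h (D.up c)
    linarith
  · rw [Finset.sum_const, Finset.card_univ, nsmul_eq_mul]
    exact le_of_eq (by ring)

end group

section final

variable {Gd Γ Γ' : Type} [Fintype Gd] [Fintype Γ] [Fintype Γ'] (D : GData Gd Γ)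
  (D' : GData Gd Γ')

theorem vj_sub_le (τ τ' : Gd → ℝ) : |vj D τ - vj D τ'| ≤ dd1 D τ τ' :=
  (real_sub_le _ _).trans (symm_fb D τ τ')

/-- the law of the positions of a group, given the clock -/
theorem law_one (A : Set (Γ → ℝ)) (τ τ0 : Gd → ℝ) (h0 : 0 < vj D τ0) :
    |(PV Γ).real (fb D τ ∩ A) / vj D τ - (PV Γ).real (fb D τ0 ∩ A) / vj D τ0| ≤
      2 * dd1 D τ τ0 / vj D τ0 := by
  refine (ratio_one (fb D τ) (fb D τ0) A h0).trans ?_
  refine div_le_div_of_nonneg_right ?_ h0.le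
  exact mul_le_mul_of_nonneg_left (symm_fb D τ τ0) zero_le_two

/-- the joint law of the positions of two groups, given the clock -/
theorem law_two {A : Set ((Γ → ℝ) × (Γ' → ℝ))} (hA : MeasurableSet A) (τ τ0 : Gd → ℝ)
    (h0 : 0 < vj D τ0) (h0' : 0 < vj D' τ0) :
    |((PV Γ).prod (PV Γ')).real ((fb D τ ×ˢ fb D' τ) ∩ A) / (vj D τ * vj D' τ) -
      ((PV Γ).prod (PV Γ')).real ((fb D τ0 ×ˢ fb D' τ0) ∩ A) / (vj D τ0 * vj D' τ0)| ≤
        2 * dd1 D τ τ0 / vj D τ0 + 2 * dd1 D' τ τ0 / vj D' τ0 := by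
  refine (ratio_two (meas_fb D τ) (meas_fb D τ0) (meas_fb D' τ) (meas_fb D' τ0) hA h0 h0').trans ?_
  refine add_le_add ?_ ?_
  · refine div_le_div_of_nonneg_right ?_ h0.le
    exact mul_le_mul_of_nonneg_left (symm_fb D τ τ0) zero_le_two
  · refine div_le_div_of_nonneg_right ?_ h0'.le
    exact mul_le_mul_of_nonneg_left (symm_fb D' τ τ0) zero_le_two

/-- the form used with `vol_pair` -/
theorem law_pair (e : Γ) (e' : Γ') (τ τ0 : Gd → ℝ) (h0 : 0 < vj D τ0) (h0' : 0 < vj D' τ0) :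
    |((PV Γ).prod (PV Γ')).real {p | p.1 ∈ fb D τ ∧ p.2 ∈ fb D' τ ∧ p.1 e < p.2 e'} /
        (vj D τ * vj D' τ) -
      ((PV Γ).prod (PV Γ')).real {p | p.1 ∈ fb D τ0 ∧ p.2 ∈ fb D' τ0 ∧ p.1 e < p.2 e'} /
        (vj D τ0 * vj D' τ0)| ≤
        2 * dd1 D τ τ0 / vj D τ0 + 2 * dd1 D' τ τ0 / vj D' τ0 := by
  have hA : MeasurableSet {p : (Γ → ℝ) × (Γ' → ℝ) | p.1 e < p.2 e'} :=
    measurableSet_lt ((measurable_pi_apply e).comp measurable_fst)
      ((measurable_pi_apply e').comp measurable_snd)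
  have e1 : ∀ σ : Gd → ℝ, {p : (Γ → ℝ) × (Γ' → ℝ) | p.1 ∈ fb D σ ∧ p.2 ∈ fb D' σ ∧
      p.1 e < p.2 e'} = (fb D σ ×ˢ fb D' σ) ∩ {p | p.1 e < p.2 e'} := by
    intro σ
    ext p
    simp only [mem_ofPred_eq, mem_inter_iff, mem_prod, and_assoc]
  rw [e1, e1]
  exact law_two D D' hA τ τ0 h0 h0'

/-! ## A member of a group and a tick -/

theorem law_clock_aux (f : (Γ → ℝ) → Prop) (f0 : (Γ → ℝ) → Prop) (τ τ0 : Gd → ℝ)
    (h0 : 0 < vj D τ0) (e : Γ) (g : Gd)
    (h1 : ∀ y, f y → ¬ f0 y → y e ∈ Icc (min (τ g) (τ0 g)) (max (τ g) (τ0 g)))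
    (h2 : ∀ y, f0 y → ¬ f y → y e ∈ Icc (min (τ g) (τ0 g)) (max (τ g) (τ0 g))) :
    |(PV Γ).real {y | y ∈ fb D τ ∧ f y} / vj D τ -
      (PV Γ).real {y | y ∈ fb D τ0 ∧ f0 y} / vj D τ0| ≤
      (2 * dd1 D τ τ0 + |τ g - τ0 g|) / vj D τ0 := by
  have a1 := law_one D {y | f y} τ τ0 h0
  have a2 : |(PV Γ).real (fb D τ0 ∩ {y | f y}) - (PV Γ).real (fb D τ0 ∩ {y | f0 y})| ≤
      |τ g - τ0 g| := by
    have b1 := real_inter_sub_le (μ := PV Γ) {y | f y} {y | f0 y} (fb D τ0)
    rw [inter_comm, inter_comm _ (fb D τ0)] at b1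
    refine b1.trans ?_
    have b2 : symmDiff {y | f y} {y | f0 y} ⊆ sl τ τ0 e (some g) := by
      rintro y (hy | hy)
      · exact h1 y hy.1 hy.2
      · exact h2 y hy.1 hy.2
    exact (measureReal_mono b2).trans (PV_sl τ τ0 e (some g))
  have e1 : ∀ (σ : Gd → ℝ) (k : (Γ → ℝ) → Prop),
      {y | y ∈ fb D σ ∧ k y} = fb D σ ∩ {y | k y} := fun _ _ => rfl
  rw [e1, e1]
  have a3 : |(PV Γ).real (fb D τ0 ∩ {y | f y}) / vj D τ0 -
      (PV Γ).real (fb D τ0 ∩ {y | f0 y}) / vj D τ0| ≤ |τ g - τ0 g| / vj D τ0 := by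
    rw [← sub_div, abs_div, abs_of_pos h0]
    exact div_le_div_of_nonneg_right a2 h0.le
  rw [add_div]
  rw [abs_le] at a1 a3 ⊢
  constructor <;> linarith [a1.1, a1.2, a3.1, a3.2]

/-- the event that a member of a group is below a tick, given the clock -/
theorem law_below (τ τ0 : Gd → ℝ) (h0 : 0 < vj D τ0) (e : Γ) (g : Gd) :
    |(PV Γ).real {y | y ∈ fb D τ ∧ y e < τ g} / vj D τ -
      (PV Γ).real {y | y ∈ fb D τ0 ∧ y e < τ0 g} / vj D τ0| ≤
      (2 * dd1 D τ τ0 + |τ g - τ0 g|) / vj D τ0 := by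
  refine law_clock_aux D (fun y => y e < τ g) (fun y => y e < τ0 g) τ τ0 h0 e g ?_ ?_
  · intro y h1 h2
    exact ⟨(min_le_right _ _).trans (not_lt.1 h2), h1.le.trans (le_max_left _ _)⟩
  · intro y h1 h2
    exact ⟨(min_le_left _ _).trans (not_lt.1 h2), h1.le.trans (le_max_right _ _)⟩

/-- the event that a member of a group is above a tick, given the clock -/
theorem law_above (τ τ0 : Gd → ℝ) (h0 : 0 < vj D τ0) (e : Γ) (g : Gd) :
    |(PV Γ).real {y | y ∈ fb D τ ∧ τ g < y e} / vj D τ -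
      (PV Γ).real {y | y ∈ fb D τ0 ∧ τ0 g < y e} / vj D τ0| ≤
      (2 * dd1 D τ τ0 + |τ g - τ0 g|) / vj D τ0 := by
  refine law_clock_aux D (fun y => τ g < y e) (fun y => τ0 g < y e) τ τ0 h0 e g ?_ ?_
  · intro y h1 h2
    exact ⟨(min_le_left _ _).trans h1.le, (not_lt.1 h2).trans (le_max_right _ _)⟩
  · intro y h1 h2
    exact ⟨(min_le_right _ _).trans h1.le, (not_lt.1 h2).trans (le_max_left _ _)⟩

end final

end Pool.Agent.T1K
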