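import Mathlib

/-!
# Rigidity of the clock (abstract form)
-/

set_option autoImplicit false

namespace Pool.Agent.T1K

open MeasureTheory Set

/-- midpoint inequality for one spring -/
theorem spring_mid {a b : ℝ} (ha : 0 ≤ a) (ha1 : a ≤ 1) (hb : 0 ≤ b) (hb1 : b ≤ 1) :
    a * b * Real.exp ((a - b) ^ 2 / 4) ≤ ((a + b) / 2) ^ 2 := by
  set s := (a - b) ^ 2 / 4 with hs
  have hs0 : 0 ≤ s := by positivity
  have hs1 : s ≤ 1 := by
    rw [hs]
    nlinarith
  have h1 : Real.exp s ≤ 1 + s + s ^ 2 := by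
    have h2 := Real.abs_exp_sub_one_sub_id_le (x := s) (by rw [abs_of_nonneg hs0]; exact hs1)
    have h3 := (abs_le.1 h2).2
    linarith
  have h4 : ((a + b) / 2) ^ 2 = a * b + s := by rw [hs]; ring
  have h5 : ((a + b) / 2) ^ 2 ≤ 1 := by
    have : (a + b) / 2 ≤ 1 := by linarith
    exact pow_le_one₀ (by linarith) this
  have hab : 0 ≤ a * b := mul_nonneg ha hb
  have h6 : a * b ≤ 1 - s := by linarith
  rw [h4]
  calc a * b * Real.exp s ≤ a * b * (1 + s + s ^ 2) := mul_le_mul_of_nonneg_left h1 hab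
    _ = a * b + (a * b) * (1 + s) * s := by ring
    _ ≤ a * b + (1 - s) * (1 + s) * s := by
        gcongr
    _ ≤ a * b + s := by nlinarith [mul_nonneg hs0 (sq_nonneg s)]

/-- tangent inequality for one spring -/
theorem spring_tan {a b : ℝ} (ha : 0 ≤ a) (hb : 0 < b) (n : ℕ) :
    a ^ n ≤ b ^ n * Real.exp (n / b * (a - b)) := by
  have h1 : a / b ≤ Real.exp (a / b - 1) := by
    have := Real.add_one_le_exp (a / b - 1)
    linarith
  have h2 : (a / b) ^ n ≤ Real.exp (n / b * (a - b)) := by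
    refine (pow_le_pow_left₀ (div_nonneg ha hb.le) h1 n).trans (le_of_eq ?_)
    rw [← Real.exp_nat_mul]
    congr 1
    field_simp
  rw [div_pow, div_le_iff₀ (pow_pos hb n)] at h2
  linarith

section

variable {E I : Type*}

/-- Pointwise rigidity: the weight at `τ` is much smaller than the weight at the midpoint of `τ`
and the target `t0`. -/
theorem rigid_pt (s : Finset I) (t0 : E) (l : I → E → ℝ) (n : I → ℕ) (F : E → ℝ) (g0 : ℝ)
    (τ μ : E) (hmid : ∀ i ∈ s, l i μ = (l i τ + l i t0) / 2)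
    (hl0 : ∀ i ∈ s, 0 ≤ l i τ) (hl1 : ∀ i ∈ s, l i τ ≤ 1)
    (ht0 : ∀ i ∈ s, 0 < l i t0) (ht1 : ∀ i ∈ s, l i t0 ≤ 1)
    (hFt : 0 ≤ F τ) (hFμ : 0 ≤ F μ) (hF0 : 0 < F t0) (hFm : F τ * F t0 ≤ F μ ^ 2)
    (hst : F τ ≤ F t0 * Real.exp (g0 - ∑ i ∈ s, (n i : ℝ) / l i t0 * (l i τ - l i t0))) :
    (∏ i ∈ s, l i τ ^ n i) * F τ ≤
      Real.exp (g0 / 2 - (∑ i ∈ s, (n i : ℝ) * (l i τ - l i t0) ^ 2) / 8) *
        ((∏ i ∈ s, l i μ ^ n i) * F μ) := by
  set P := ∏ i ∈ s, l i τ ^ n i with hP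
  set Pm := ∏ i ∈ s, l i μ ^ n i with hPm
  set P0 := ∏ i ∈ s, l i t0 ^ n i with hP0
  set Q := ∑ i ∈ s, (n i : ℝ) * (l i τ - l i t0) ^ 2 with hQ
  have hPn : 0 ≤ P := Finset.prod_nonneg fun i hi => pow_nonneg (hl0 i hi) _
  have hP0p : 0 < P0 := Finset.prod_pos fun i hi => pow_pos (ht0 i hi) _
  have hPmn : 0 ≤ Pm := Finset.prod_nonneg fun i hi => by
    rw [hmid i hi]
    exact pow_nonneg (by linarith [hl0 i hi, ht0 i hi]) _
  -- midpoint inequality for the product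
  have h1 : P * P0 * Real.exp (Q / 4) ≤ Pm ^ 2 := by
    have e1 : P * P0 * Real.exp (Q / 4) =
        ∏ i ∈ s, (l i τ * l i t0 * Real.exp ((l i τ - l i t0) ^ 2 / 4)) ^ n i := by
      have e2 : Real.exp (Q / 4) = ∏ i ∈ s, (Real.exp ((l i τ - l i t0) ^ 2 / 4)) ^ n i := by
        rw [hQ, Finset.sum_div, Real.exp_sum]
        refine Finset.prod_congr rfl fun i _ => ?_
        rw [← Real.exp_nat_mul]
        congr 1
        ring
      rw [e2, hP, hP0, ← Finset.prod_mul_distrib, ← Finset.prod_mul_distrib]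
      refine Finset.prod_congr rfl fun i _ => ?_
      rw [mul_pow, mul_pow]
    rw [e1, hPm, ← Finset.prod_pow]
    refine Finset.prod_le_prod (fun i hi => ?_) fun i hi => ?_
    · exact pow_nonneg (mul_nonneg (mul_nonneg (hl0 i hi) (ht0 i hi).le) (Real.exp_pos _).le) _
    · rw [← pow_mul, mul_comm (n i) 2, pow_mul, hmid i hi]
      refine pow_le_pow_left₀
        (mul_nonneg (mul_nonneg (hl0 i hi) (ht0 i hi).le) (Real.exp_pos _).le) ?_ _
      exact spring_mid (hl0 i hi) (hl1 i hi) (ht0 i hi).le (ht1 i hi)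
  -- tangent inequality for the product
  have h2 : P ≤ P0 * Real.exp (∑ i ∈ s, (n i : ℝ) / l i t0 * (l i τ - l i t0)) := by
    rw [Real.exp_sum, hP, hP0, ← Finset.prod_mul_distrib]
    refine Finset.prod_le_prod (fun i hi => pow_nonneg (hl0 i hi) _) fun i hi => ?_
    exact spring_tan (hl0 i hi) (ht0 i hi) _
  have h3 : P * F τ ≤ P0 * F t0 * Real.exp g0 := by
    calc P * F τ ≤ (P0 * Real.exp (∑ i ∈ s, (n i : ℝ) / l i t0 * (l i τ - l i t0))) *
          (F t0 * Real.exp (g0 - ∑ i ∈ s, (n i : ℝ) / l i t0 * (l i τ - l i t0))) :=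
          mul_le_mul h2 hst hFt (by positivity)
      _ = P0 * F t0 * Real.exp g0 := by
          rw [mul_mul_mul_comm, ← Real.exp_add]
          congr 2
          ring
  have h4 : (P * F τ) * (P0 * F t0) * Real.exp (Q / 4) ≤ (Pm * F μ) ^ 2 := by
    calc (P * F τ) * (P0 * F t0) * Real.exp (Q / 4) =
          (P * P0 * Real.exp (Q / 4)) * (F τ * F t0) := by ring
      _ ≤ Pm ^ 2 * F μ ^ 2 := mul_le_mul h1 hFm (mul_nonneg hFt hF0.le) (sq_nonneg _)
      _ = (Pm * F μ) ^ 2 := by ring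
  have h5 : (P * F τ) ^ 2 * Real.exp (Q / 4 - g0) ≤ (Pm * F μ) ^ 2 := by
    refine le_trans ?_ h4
    have h6 : (P * F τ) * Real.exp (-g0) ≤ P0 * F t0 := by
      calc (P * F τ) * Real.exp (-g0) ≤ (P0 * F t0 * Real.exp g0) * Real.exp (-g0) :=
            mul_le_mul_of_nonneg_right h3 (Real.exp_pos _).le
        _ = P0 * F t0 := by
            rw [mul_assoc, ← Real.exp_add]
            simp
    calc (P * F τ) ^ 2 * Real.exp (Q / 4 - g0)
        = (P * F τ) * ((P * F τ) * Real.exp (-g0)) * Real.exp (Q / 4) := by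
          rw [sub_eq_add_neg, Real.exp_add]; ring
      _ ≤ (P * F τ) * (P0 * F t0) * Real.exp (Q / 4) := by
          gcongr
  have h6 : (P * F τ * Real.exp (Q / 8 - g0 / 2)) ^ 2 ≤ (Pm * F μ) ^ 2 := by
    refine le_trans (le_of_eq ?_) h5
    rw [mul_pow, ← Real.exp_nat_mul]
    congr 2
    push_cast
    ring
  have h7 : P * F τ * Real.exp (Q / 8 - g0 / 2) ≤ Pm * F μ :=
    (abs_le_of_sq_le_sq' h6 (mul_nonneg hPmn hFμ)).2
  calc P * F τ = Real.exp (g0 / 2 - Q / 8) * (P * F τ * Real.exp (Q / 8 - g0 / 2)) := by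
        rw [mul_comm (P * F τ), ← mul_assoc, ← Real.exp_add]
        simp
    _ ≤ Real.exp (g0 / 2 - Q / 8) * (Pm * F μ) :=
        mul_le_mul_of_nonneg_left h7 (Real.exp_pos _).le

end

/-- Integrated rigidity. -/
theorem rigid_int {G : Type} [Fintype G] {w : (G → ℝ) → ℝ} (hw : Integrable w volume)
    (h0 : ∀ τ, 0 ≤ w τ) (t0 : G → ℝ) {A : ℝ} {N : Set (G → ℝ)} (hN : MeasurableSet N)
    (h : ∀ τ, τ ∉ N → w τ ≤ A * w (t0 + (1 / 2 : ℝ) • (τ - t0))) (hA : 0 ≤ A) :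
    ∫ τ in Nᶜ, w τ ≤ A * 2 ^ Fintype.card G * ∫ τ, w τ := by
  have e1 : ∫ τ, w (t0 + (1 / 2 : ℝ) • (τ - t0)) = 2 ^ Fintype.card G * ∫ τ, w τ := by
    have e2 : ∫ τ, w (t0 + (1 / 2 : ℝ) • (τ - t0)) = ∫ τ, w (t0 + (1 / 2 : ℝ) • τ) :=
      integral_sub_right_eq_self (fun τ => w (t0 + (1 / 2 : ℝ) • τ)) t0
    rw [e2, Measure.integral_comp_smul volume (fun τ => w (t0 + τ)) (1 / 2 : ℝ),
      integral_add_left_eq_self w t0, Module.finrank_fintype_fun_eq_card, smul_eq_mul]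
    congr 1
    rw [abs_of_nonneg (by positivity)]
    rw [one_div, inv_pow, inv_inv]
  have i1 : Integrable (fun τ => w (t0 + (1 / 2 : ℝ) • (τ - t0))) volume := by
    have i2 : Integrable (fun τ => w (t0 + τ)) volume := hw.comp_add_left t0
    have i3 : Integrable (fun τ => w (t0 + (1 / 2 : ℝ) • τ)) volume :=
      (integrable_comp_smul_iff volume (fun τ => w (t0 + τ)) (by norm_num : (1 / 2 : ℝ) ≠ 0)).2 i2
    exact i3.comp_sub_right t0
  calc ∫ τ in Nᶜ, w τ ≤ ∫ τ in Nᶜ, A * w (t0 + (1 / 2 : ℝ) • (τ - t0)) := by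
        refine setIntegral_mono_on hw.integrableOn (i1.const_mul A).integrableOn hN.compl ?_
        intro τ hτ
        exact h τ hτ
    _ ≤ ∫ τ, A * w (t0 + (1 / 2 : ℝ) • (τ - t0)) := by
        refine setIntegral_le_integral (i1.const_mul A) (Filter.Eventually.of_forall fun τ => ?_)
        exact mul_nonneg hA (h0 _)
    _ = A * 2 ^ Fintype.card G * ∫ τ, w τ := by
        rw [integral_const_mul, e1, mul_assoc]

end Pool.Agent.T1K
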