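import Mathlib
import Pool.Agent.T1K.Link

/-!
# T1: the poset (clock, fillers, species, extra elements), its height and its width
-/

set_option autoImplicit false

namespace Pool.Agent.T1K

open Relation

/-- The shape of the poset: `M + 1` lower ticks and `M + 1` upper ticks, numbers of fillers,
`N` species with left tick sets `T b` and right tick sets `S b`, `s` extra elements. -/
structure Shape where
  /-- index of the last tick -/
  M : ℕ
  /-- number of fillers in the lower cell `r` (below the lower tick `r`) -/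
  nl : Fin (M + 1) → ℕ
  /-- number of fillers in the upper cell `r` (above the upper tick `r`) -/
  nu : Fin (M + 1) → ℕ
  /-- number of species -/
  N : ℕ
  /-- ticks of the left leaves -/
  T : Fin N → Finset ℕ
  /-- ticks of the right leaves -/
  S : Fin N → Finset ℕ
  /-- number of extra elements -/
  s : ℕ
  /-- lower ticks of the extra elements -/
  ex : Fin s → Fin (M + 1)
  /-- `T b ⊆ [0, M]` -/
  hT : ∀ b, ∀ z ∈ T b, z < M + 1
  /-- `S b ⊆ [0, M]` -/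
  hS : ∀ b, ∀ z ∈ S b, z < M + 1

namespace Shape

variable (P : Shape)

/-- the ticks: `inl z` lower tick `z`, `inr z` upper tick `z` (from the top) -/
abbrev Grid : Type := Fin (P.M + 1) ⊕ Fin (P.M + 1)

/-- the groups: lower cells, upper cells, species, extra elements -/
abbrev Grp : Type := (Fin (P.M + 1) ⊕ Fin (P.M + 1)) ⊕ (Fin P.N ⊕ Fin P.s)

/-- the elements of a group -/
def Mem : P.Grp → Type
  | Sum.inl (Sum.inl r) => Fin (P.nl r)
  | Sum.inl (Sum.inr r) => Fin (P.nu r)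
  | Sum.inr (Sum.inl b) => Bool ⊕ ({z // z ∈ P.T b} ⊕ {z // z ∈ P.S b})
  | Sum.inr (Sum.inr _) => Unit

instance instFintypeMem : (j : P.Grp) → Fintype (P.Mem j)
  | Sum.inl (Sum.inl r) => inferInstanceAs (Fintype (Fin (P.nl r)))
  | Sum.inl (Sum.inr r) => inferInstanceAs (Fintype (Fin (P.nu r)))
  | Sum.inr (Sum.inl b) =>
      inferInstanceAs (Fintype (Bool ⊕ ({z // z ∈ P.T b} ⊕ {z // z ∈ P.S b})))
  | Sum.inr (Sum.inr _) => inferInstanceAs (Fintype Unit)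

instance instDecidableEqMem : (j : P.Grp) → DecidableEq (P.Mem j)
  | Sum.inl (Sum.inl r) => inferInstanceAs (DecidableEq (Fin (P.nl r)))
  | Sum.inl (Sum.inr r) => inferInstanceAs (DecidableEq (Fin (P.nu r)))
  | Sum.inr (Sum.inl b) =>
      inferInstanceAs (DecidableEq (Bool ⊕ ({z // z ∈ P.T b} ⊕ {z // z ∈ P.S b})))
  | Sum.inr (Sum.inr _) => inferInstanceAs (DecidableEq Unit)

/-- all elements -/
abbrev V : Type := P.Grid ⊕ (Σ j : P.Grp, P.Mem j)

/-- lower tick `z` -/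
def tl (z : Fin (P.M + 1)) : P.V := Sum.inl (Sum.inl z)
/-- upper tick `z` -/
def tu (z : Fin (P.M + 1)) : P.V := Sum.inl (Sum.inr z)
/-- filler `i` of the lower cell `r` -/
def fl (r : Fin (P.M + 1)) (i : Fin (P.nl r)) : P.V := Sum.inr ⟨Sum.inl (Sum.inl r), i⟩
/-- filler `i` of the upper cell `r` -/
def fu (r : Fin (P.M + 1)) (i : Fin (P.nu r)) : P.V := Sum.inr ⟨Sum.inl (Sum.inr r), i⟩
/-- lower centre of the species `b` -/
def cx (b : Fin P.N) : P.V := Sum.inr ⟨Sum.inr (Sum.inl b), Sum.inl false⟩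
/-- upper centre of the species `b` -/
def cy (b : Fin P.N) : P.V := Sum.inr ⟨Sum.inr (Sum.inl b), Sum.inl true⟩
/-- left leaf of the species `b` -/
def ll (b : Fin P.N) (z : {z // z ∈ P.T b}) : P.V :=
  Sum.inr ⟨Sum.inr (Sum.inl b), Sum.inr (Sum.inl z)⟩
/-- right leaf of the species `b` -/
def lr (b : Fin P.N) (z : {z // z ∈ P.S b}) : P.V :=
  Sum.inr ⟨Sum.inr (Sum.inl b), Sum.inr (Sum.inr z)⟩
/-- extra element -/
def xe (i : Fin P.s) : P.V := Sum.inr ⟨Sum.inr (Sum.inr i), ()⟩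

/-- the tick of a left leaf -/
def tT (b : Fin P.N) (z : {z // z ∈ P.T b}) : Fin (P.M + 1) := ⟨z.1, P.hT b z.1 z.2⟩
/-- the tick of a right leaf -/
def tS (b : Fin P.N) (z : {z // z ∈ P.S b}) : Fin (P.M + 1) := ⟨z.1, P.hS b z.1 z.2⟩

/-- The generating relation. -/
inductive Rel : P.V → P.V → Prop
  | tl_tl (r r' : Fin (P.M + 1)) (h : (r : ℕ) + 1 = r') : Rel (P.tl r) (P.tl r')
  | tu_tu (r r' : Fin (P.M + 1)) (h : (r : ℕ) + 1 = r') : Rel (P.tu r') (P.tu r)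
  | mid : Rel (P.tl (Fin.last P.M)) (P.tu (Fin.last P.M))
  | fl_fl (r : Fin (P.M + 1)) (i j : Fin (P.nl r)) (h : i < j) : Rel (P.fl r i) (P.fl r j)
  | fl_tl (r : Fin (P.M + 1)) (i : Fin (P.nl r)) : Rel (P.fl r i) (P.tl r)
  | tl_fl (r r' : Fin (P.M + 1)) (h : (r : ℕ) + 1 = r') (i : Fin (P.nl r')) :
      Rel (P.tl r) (P.fl r' i)
  | fu_fu (r : Fin (P.M + 1)) (i j : Fin (P.nu r)) (h : i < j) : Rel (P.fu r i) (P.fu r j)
  | tu_fu (r : Fin (P.M + 1)) (i : Fin (P.nu r)) : Rel (P.tu r) (P.fu r i)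
  | fu_tu (r r' : Fin (P.M + 1)) (h : (r : ℕ) + 1 = r') (i : Fin (P.nu r')) :
      Rel (P.fu r' i) (P.tu r)
  | cx_ll (b : Fin P.N) (z : {z // z ∈ P.T b}) : Rel (P.cx b) (P.ll b z)
  | cx_lr (b : Fin P.N) (z : {z // z ∈ P.S b}) : Rel (P.cx b) (P.lr b z)
  | ll_cy (b : Fin P.N) (z : {z // z ∈ P.T b}) : Rel (P.ll b z) (P.cy b)
  | lr_cy (b : Fin P.N) (z : {z // z ∈ P.S b}) : Rel (P.lr b z) (P.cy b)
  | tl_ll (b : Fin P.N) (z : {z // z ∈ P.T b}) : Rel (P.tl (P.tT b z)) (P.ll b z)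
  | lr_tu (b : Fin P.N) (z : {z // z ∈ P.S b}) : Rel (P.lr b z) (P.tu (P.tS b z))
  | tl_xe (i : Fin P.s) : Rel (P.tl (P.ex i)) (P.xe i)

/-- height, first coordinate -/
def h1 : P.V → ℕ
  | Sum.inl (Sum.inl r) => r
  | Sum.inl (Sum.inr r) => P.M + 2 + (P.M - r)
  | Sum.inr ⟨Sum.inl (Sum.inl r), _⟩ => r
  | Sum.inr ⟨Sum.inl (Sum.inr r), _⟩ => P.M + 2 + (P.M - r)
  | Sum.inr ⟨Sum.inr (Sum.inl _), m⟩ =>
      match (m : Bool ⊕ _) with
      | Sum.inl false => 0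
      | Sum.inl true => P.M + 2
      | Sum.inr _ => P.M + 1
  | Sum.inr ⟨Sum.inr (Sum.inr _), _⟩ => P.M + 1

/-- height, second coordinate -/
def h2 : P.V → ℕ
  | Sum.inl (Sum.inl r) => P.nl r
  | Sum.inl (Sum.inr _) => 0
  | Sum.inr ⟨Sum.inl (Sum.inl _), i⟩ => (show Fin _ from i)
  | Sum.inr ⟨Sum.inl (Sum.inr _), i⟩ => (show Fin _ from i) + 1
  | Sum.inr ⟨Sum.inr (Sum.inl _), _⟩ => 0
  | Sum.inr ⟨Sum.inr (Sum.inr _), _⟩ => 0

/-- the height -/
def ht (v : P.V) : ℕ ×ₗ ℕ := toLex (P.h1 v, P.h2 v)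

theorem ht_lt {a b : P.V} (h : P.h1 a < P.h1 b ∨ (P.h1 a = P.h1 b ∧ P.h2 a < P.h2 b)) :
    P.ht a < P.ht b := by
  unfold ht
  rw [Prod.Lex.toLex_lt_toLex]
  exact h

theorem rel_ht : ∀ a b, P.Rel a b → P.ht a < P.ht b := by
  intro a b h
  apply P.ht_lt
  cases h with
  | tl_tl r r' h => left; simp only [tl, h1]; omega
  | tu_tu r r' h =>
    left; simp only [tu, h1]
    have := r'.2
    omega
  | mid => left; simp only [tl, tu, h1, Fin.val_last]; omega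
  | fl_fl r i j h => right; exact ⟨rfl, h⟩
  | fl_tl r i => right; exact ⟨rfl, i.2⟩
  | tl_fl r r' h i => left; simp only [tl, fl, h1]; omega
  | fu_fu r i j h => right; exact ⟨rfl, Nat.succ_lt_succ h⟩
  | tu_fu r i => right; exact ⟨rfl, Nat.succ_pos _⟩
  | fu_tu r r' h i =>
    left; simp only [tu, fu, h1]
    have := r'.2
    omega
  | cx_ll b z => left; exact Nat.succ_pos _
  | cx_lr b z => left; exact Nat.succ_pos _
  | ll_cy b z => left; exact Nat.lt_succ_self _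
  | lr_cy b z => left; exact Nat.lt_succ_self _
  | tl_ll b z => left; exact (P.tT b z).2
  | lr_tu b z => left; show P.M + 1 < P.M + 2 + _; omega
  | tl_xe i => left; exact (P.ex i).2

/-! ## The antichain of all leaves and extra elements -/

/-- index type of the leaves and extra elements -/
abbrev Leaf : Type := (Σ b : Fin P.N, {z // z ∈ P.T b} ⊕ {z // z ∈ P.S b}) ⊕ Fin P.s

/-- the element of a leaf -/
def leaf : P.Leaf → P.V
  | Sum.inl ⟨b, Sum.inl z⟩ => P.ll b z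
  | Sum.inl ⟨b, Sum.inr z⟩ => P.lr b z
  | Sum.inr i => P.xe i

/-- the leaf of an element, if any -/
def toLeaf : P.V → Option P.Leaf
  | Sum.inl _ => none
  | Sum.inr ⟨Sum.inl _, _⟩ => none
  | Sum.inr ⟨Sum.inr (Sum.inl b), m⟩ =>
      match (m : Bool ⊕ ({z // z ∈ P.T b} ⊕ {z // z ∈ P.S b})) with
      | Sum.inl _ => none
      | Sum.inr z => some (Sum.inl ⟨b, z⟩)
  | Sum.inr ⟨Sum.inr (Sum.inr i), _⟩ => some (Sum.inr i)

theorem toLeaf_leaf (a : P.Leaf) : P.toLeaf (P.leaf a) = some a := by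
  rcases a with ⟨b, (z | z)⟩ | i <;> rfl

theorem leaf_inj : Function.Injective P.leaf := by
  intro a b hab
  have h := congrArg P.toLeaf hab
  rw [P.toLeaf_leaf, P.toLeaf_leaf] at h
  exact Option.some.inj h

theorem ht_leaf (a : P.Leaf) : P.ht (P.leaf a) = toLex (P.M + 1, 0) := by
  rcases a with ⟨b, (z | z)⟩ | i <;> rfl

theorem anti_leaf : AntiV P.Rel (Finset.univ.map ⟨P.leaf, P.leaf_inj⟩) := by
  intro a ha b hb hab hr
  rw [Finset.mem_map] at ha hb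
  obtain ⟨a', -, rfl⟩ := ha
  obtain ⟨b', -, rfl⟩ := hb
  rcases rtg_lt P.rel_ht hr with h | h
  · exact hab h
  · simp only [Function.Embedding.coeFn_mk] at h
    rw [P.ht_leaf, P.ht_leaf] at h
    exact lt_irrefl _ h

/-! ## The cover by chains -/

theorem tl_le (r r' : Fin (P.M + 1)) (h : r ≤ r') : ReflTransGen P.Rel (P.tl r) (P.tl r') := by
  obtain ⟨r, hr⟩ := r
  obtain ⟨r', hr'⟩ := r'
  have h' : r ≤ r' := h
  induction r' with
  | zero =>
    have : r = 0 := by omega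
    subst this
    exact ReflTransGen.refl
  | succ m ih =>
    rcases Nat.lt_or_ge m r with h2 | h2
    · have : r = m + 1 := by omega
      subst this
      exact ReflTransGen.refl
    · exact (ih (by omega) h2 h2).tail (Rel.tl_tl _ _ rfl)

theorem tu_le (r r' : Fin (P.M + 1)) (h : r ≤ r') : ReflTransGen P.Rel (P.tu r') (P.tu r) := by
  obtain ⟨r, hr⟩ := r
  obtain ⟨r', hr'⟩ := r'
  have h' : r ≤ r' := h
  induction r' with
  | zero =>
    have : r = 0 := by omega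
    subst this
    exact ReflTransGen.refl
  | succ m ih =>
    rcases Nat.lt_or_ge m r with h2 | h2
    · have : r = m + 1 := by omega
      subst this
      exact ReflTransGen.refl
    · exact ReflTransGen.head (Rel.tu_tu ⟨m, by omega⟩ ⟨m + 1, hr'⟩ rfl) (ih (by omega) h2 h2)

/-- elements of the lower clock -/
abbrev LC : Type := Fin (P.M + 1) ⊕ (Σ r : Fin (P.M + 1), Fin (P.nl r))

/-- the element -/
def lc : P.LC → P.V
  | Sum.inl r => P.tl r
  | Sum.inr ⟨r, i⟩ => P.fl r i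

/-- elements of the upper clock -/
abbrev UC : Type := Fin (P.M + 1) ⊕ (Σ r : Fin (P.M + 1), Fin (P.nu r))

/-- the element -/
def uc : P.UC → P.V
  | Sum.inl r => P.tu r
  | Sum.inr ⟨r, i⟩ => P.fu r i

/-- from a lower clock element in cell `r` to the tick `r'`, `r ≤ r'` -/
theorem lc_tl (a : P.LC) (r' : Fin (P.M + 1)) (h : (Sum.elim id Sigma.fst a) ≤ r') :
    ReflTransGen P.Rel (P.lc a) (P.tl r') := by
  rcases a with r | ⟨r, i⟩
  · exact P.tl_le r r' h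
  · exact ReflTransGen.head (Rel.fl_tl r i) (P.tl_le r r' h)

theorem lc_chain (a b : P.LC) : ReflTransGen P.Rel (P.lc a) (P.lc b) ∨
    ReflTransGen P.Rel (P.lc b) (P.lc a) := by
  -- strictly smaller cell index
  have key : ∀ a b : P.LC, (Sum.elim id Sigma.fst a : Fin (P.M + 1)) < Sum.elim id Sigma.fst b →
      ReflTransGen P.Rel (P.lc a) (P.lc b) := by
    intro a b h
    rcases b with r' | ⟨r', i⟩
    · exact P.lc_tl a r' h.le
    · have h' : ((Sum.elim id Sigma.fst a : Fin (P.M + 1)) : ℕ) < r' := h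
      have h3 : (r' : ℕ) - 1 < P.M + 1 := by have := r'.2; omega
      refine (P.lc_tl a ⟨(r' : ℕ) - 1, h3⟩ ?_).tail (Rel.tl_fl _ _ ?_ i)
      · show ((Sum.elim id Sigma.fst a : Fin (P.M + 1)) : ℕ) ≤ (r' : ℕ) - 1
        omega
      · show (r' : ℕ) - 1 + 1 = r'
        omega
  rcases lt_trichotomy (Sum.elim id Sigma.fst a : Fin (P.M + 1)) (Sum.elim id Sigma.fst b)
    with h | h | h
  · exact Or.inl (key a b h)
  · rcases a with r | ⟨r, i⟩ <;> rcases b with r' | ⟨r', i'⟩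
    · left
      have : r = r' := h
      rw [this]
    · right
      have : r = r' := h
      subst this
      exact ReflTransGen.single (Rel.fl_tl r i')
    · left
      have : r = r' := h
      subst this
      exact ReflTransGen.single (Rel.fl_tl r i)
    · have : r = r' := h
      subst this
      rcases lt_trichotomy i i' with h2 | h2 | h2
      · exact Or.inl (ReflTransGen.single (Rel.fl_fl r i i' h2))
      · left; rw [h2]
      · exact Or.inr (ReflTransGen.single (Rel.fl_fl r i' i h2))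
  · exact Or.inr (key b a h)

/-- from the tick `r'` to an upper clock element in cell `r`, `r ≤ r'` -/
theorem tu_uc (a : P.UC) (r' : Fin (P.M + 1)) (h : (Sum.elim id Sigma.fst a) ≤ r') :
    ReflTransGen P.Rel (P.tu r') (P.uc a) := by
  rcases a with r | ⟨r, i⟩
  · exact P.tu_le r r' h
  · exact (P.tu_le r r' h).tail (Rel.tu_fu r i)

theorem uc_chain (a b : P.UC) : ReflTransGen P.Rel (P.uc a) (P.uc b) ∨
    ReflTransGen P.Rel (P.uc b) (P.uc a) := by
  have key : ∀ a b : P.UC, (Sum.elim id Sigma.fst a : Fin (P.M + 1)) < Sum.elim id Sigma.fst b →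
      ReflTransGen P.Rel (P.uc b) (P.uc a) := by
    intro a b h
    rcases b with r' | ⟨r', i⟩
    · exact P.tu_uc a r' h.le
    · have h' : ((Sum.elim id Sigma.fst a : Fin (P.M + 1)) : ℕ) < r' := h
      have h3 : (r' : ℕ) - 1 < P.M + 1 := by have := r'.2; omega
      refine ReflTransGen.head (Rel.fu_tu ⟨(r' : ℕ) - 1, h3⟩ r' ?_ i)
        (P.tu_uc a ⟨(r' : ℕ) - 1, h3⟩ ?_)
      · show (r' : ℕ) - 1 + 1 = r'
        omega
      · show ((Sum.elim id Sigma.fst a : Fin (P.M + 1)) : ℕ) ≤ (r' : ℕ) - 1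
        omega
  rcases lt_trichotomy (Sum.elim id Sigma.fst a : Fin (P.M + 1)) (Sum.elim id Sigma.fst b)
    with h | h | h
  · exact Or.inr (key a b h)
  · rcases a with r | ⟨r, i⟩ <;> rcases b with r' | ⟨r', i'⟩
    · left
      have : r = r' := h
      rw [this]
    · left
      have : r = r' := h
      subst this
      exact ReflTransGen.single (Rel.tu_fu r i')
    · right
      have : r = r' := h
      subst this
      exact ReflTransGen.single (Rel.tu_fu r i)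
    · have : r = r' := h
      subst this
      rcases lt_trichotomy i i' with h2 | h2 | h2
      · exact Or.inl (ReflTransGen.single (Rel.fu_fu r i i' h2))
      · left; rw [h2]
      · exact Or.inr (ReflTransGen.single (Rel.fu_fu r i' i h2))
  · exact Or.inl (key b a h)

/-- the chain of an element: `b0` = species whose end leaves absorb the clocks, `g b` = leaf of
the species `b` which absorbs its centres -/
def chain (b0 : Fin P.N) (zl : {z // z ∈ P.T b0}) (zr : {z // z ∈ P.S b0})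
    (g : (b : Fin P.N) → {z // z ∈ P.T b}) : P.V → P.Leaf
  | Sum.inl (Sum.inl _) => Sum.inl ⟨b0, Sum.inl zl⟩
  | Sum.inl (Sum.inr _) => Sum.inl ⟨b0, Sum.inr zr⟩
  | Sum.inr ⟨Sum.inl (Sum.inl _), _⟩ => Sum.inl ⟨b0, Sum.inl zl⟩
  | Sum.inr ⟨Sum.inl (Sum.inr _), _⟩ => Sum.inl ⟨b0, Sum.inr zr⟩
  | Sum.inr ⟨Sum.inr (Sum.inl b), m⟩ =>
      match (m : Bool ⊕ ({z // z ∈ P.T b} ⊕ {z // z ∈ P.S b})) with
      | Sum.inl _ => Sum.inl ⟨b, Sum.inl (g b)⟩
      | Sum.inr z => Sum.inl ⟨b, z⟩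
  | Sum.inr ⟨Sum.inr (Sum.inr i), _⟩ => Sum.inr i

theorem chain_lc {b0 : Fin P.N} {zl : {z // z ∈ P.T b0}} {zr : {z // z ∈ P.S b0}}
    {g : (b : Fin P.N) → {z // z ∈ P.T b}} (a : P.LC) :
    P.chain b0 zl zr g (P.lc a) = Sum.inl ⟨b0, Sum.inl zl⟩ := by
  rcases a with r | ⟨r, i⟩ <;> rfl

theorem chain_uc {b0 : Fin P.N} {zl : {z // z ∈ P.T b0}} {zr : {z // z ∈ P.S b0}}
    {g : (b : Fin P.N) → {z // z ∈ P.T b}} (a : P.UC) :
    P.chain b0 zl zr g (P.uc a) = Sum.inl ⟨b0, Sum.inr zr⟩ := by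
  rcases a with r | ⟨r, i⟩ <;> rfl

theorem chain_cx {b0 : Fin P.N} {zl : {z // z ∈ P.T b0}} {zr : {z // z ∈ P.S b0}}
    {g : (b : Fin P.N) → {z // z ∈ P.T b}} (b : Fin P.N) :
    P.chain b0 zl zr g (P.cx b) = Sum.inl ⟨b, Sum.inl (g b)⟩ := rfl

theorem chain_cy {b0 : Fin P.N} {zl : {z // z ∈ P.T b0}} {zr : {z // z ∈ P.S b0}}
    {g : (b : Fin P.N) → {z // z ∈ P.T b}} (b : Fin P.N) :
    P.chain b0 zl zr g (P.cy b) = Sum.inl ⟨b, Sum.inl (g b)⟩ := rfl

theorem chain_leaf {b0 : Fin P.N} {zl : {z // z ∈ P.T b0}} {zr : {z // z ∈ P.S b0}}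
    {g : (b : Fin P.N) → {z // z ∈ P.T b}} (a : P.Leaf) :
    P.chain b0 zl zr g (P.leaf a) = a := by
  rcases a with ⟨b, (z | z)⟩ | i <;> rfl

/-- every element is a clock element, a centre, or a leaf -/
theorem cases_V (v : P.V) : (∃ a, v = P.lc a) ∨ (∃ a, v = P.uc a) ∨ (∃ b, v = P.cx b) ∨
    (∃ b, v = P.cy b) ∨ ∃ a, v = P.leaf a := by
  rcases v with (r | r) | ⟨(r | r) | (b | i), m⟩
  · exact Or.inl ⟨Sum.inl r, rfl⟩
  · exact Or.inr (Or.inl ⟨Sum.inl r, rfl⟩)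
  · exact Or.inl ⟨Sum.inr ⟨r, m⟩, rfl⟩
  · exact Or.inr (Or.inl ⟨Sum.inr ⟨r, m⟩, rfl⟩)
  · rcases (m : Bool ⊕ ({z // z ∈ P.T b} ⊕ {z // z ∈ P.S b})) with (t | t) | z
    · exact Or.inr (Or.inr (Or.inl ⟨b, rfl⟩))
    · exact Or.inr (Or.inr (Or.inr (Or.inl ⟨b, rfl⟩)))
    · exact Or.inr (Or.inr (Or.inr (Or.inr ⟨Sum.inl ⟨b, z⟩, by rcases z with z | z <;> rfl⟩)))
  · exact Or.inr (Or.inr (Or.inr (Or.inr ⟨Sum.inr i, rfl⟩)))

theorem lc_ll (b0 : Fin P.N) (zl : {z // z ∈ P.T b0}) (h : zl.1 = P.M) (a : P.LC) :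
    ReflTransGen P.Rel (P.lc a) (P.ll b0 zl) := by
  refine (P.lc_tl a (P.tT b0 zl) ?_).tail (Rel.tl_ll b0 zl)
  have h1 := (Sum.elim id Sigma.fst a : Fin (P.M + 1)).2
  show ((Sum.elim id Sigma.fst a : Fin (P.M + 1)) : ℕ) ≤ zl.1
  omega

theorem lr_uc (b0 : Fin P.N) (zr : {z // z ∈ P.S b0}) (h : zr.1 = P.M) (a : P.UC) :
    ReflTransGen P.Rel (P.lr b0 zr) (P.uc a) := by
  refine ReflTransGen.head (Rel.lr_tu b0 zr) (P.tu_uc a (P.tS b0 zr) ?_)
  have h1 := (Sum.elim id Sigma.fst a : Fin (P.M + 1)).2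
  show ((Sum.elim id Sigma.fst a : Fin (P.M + 1)) : ℕ) ≤ zr.1
  omega

theorem chain_spec (b0 : Fin P.N) (zl : {z // z ∈ P.T b0}) (zr : {z // z ∈ P.S b0})
    (hl : zl.1 = P.M) (hr : zr.1 = P.M)
    (g : (b : Fin P.N) → {z // z ∈ P.T b}) (hg : ∀ b, (g b).1 ≠ P.M) (v w : P.V)
    (h : P.chain b0 zl zr g v = P.chain b0 zl zr g w) :
    ReflTransGen P.Rel v w ∨ ReflTransGen P.Rel w v := by
  -- symmetric auxiliary form
  have hcx : ∀ b, ReflTransGen P.Rel (P.cx b) (P.cy b) := fun b =>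
    ReflTransGen.head (Rel.cx_ll b (g b)) (ReflTransGen.single (Rel.ll_cy b (g b)))
  have hne : ∀ b, (Sum.inl ⟨b0, Sum.inl zl⟩ : P.Leaf) ≠ Sum.inl ⟨b, Sum.inl (g b)⟩ := by
    intro b hb
    simp only [Sum.inl.injEq, Sigma.mk.injEq] at hb
    obtain ⟨rfl, hb⟩ := hb
    simp only [heq_eq_eq, Sum.inl.injEq] at hb
    exact hg b0 (by rw [← hb, hl])
  have hne2 : ∀ b, (Sum.inl ⟨b0, Sum.inr zr⟩ : P.Leaf) ≠ Sum.inl ⟨b, Sum.inl (g b)⟩ := by
    intro b hb
    simp only [Sum.inl.injEq, Sigma.mk.injEq] at hb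
    obtain ⟨rfl, hb⟩ := hb
    simp at hb
  have hne3 : (Sum.inl ⟨b0, Sum.inl zl⟩ : P.Leaf) ≠ Sum.inl ⟨b0, Sum.inr zr⟩ := by
    intro hb
    simp at hb
  have hbb : ∀ b b' : Fin P.N, (Sum.inl ⟨b, Sum.inl (g b)⟩ : P.Leaf) =
      Sum.inl ⟨b', Sum.inl (g b')⟩ → b = b' := by
    intro b b' hb
    simp only [Sum.inl.injEq, Sigma.mk.injEq] at hb
    exact hb.1
  rcases P.cases_V v with ⟨a, rfl⟩ | ⟨a, rfl⟩ | ⟨b, rfl⟩ | ⟨b, rfl⟩ | ⟨a, rfl⟩ <;>
    rcases P.cases_V w with ⟨a', rfl⟩ | ⟨a', rfl⟩ | ⟨b', rfl⟩ | ⟨b', rfl⟩ | ⟨a', rfl⟩ <;>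
    simp only [P.chain_lc, P.chain_uc, P.chain_cx, P.chain_cy, P.chain_leaf] at h
  · exact P.lc_chain a a'
  · exact absurd h hne3
  · exact absurd h (hne b')
  · exact absurd h (hne b')
  · left; rw [← h]; exact P.lc_ll b0 zl hl a
  · exact absurd h.symm hne3
  · exact P.uc_chain a a'
  · exact absurd h (hne2 b')
  · exact absurd h (hne2 b')
  · right; rw [← h]; exact P.lr_uc b0 zr hr a
  · exact absurd h.symm (hne b)
  · exact absurd h.symm (hne2 b)
  · left; rw [hbb _ _ h]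
  · left; rw [hbb _ _ h]; exact hcx b'
  · left; rw [← h]; exact ReflTransGen.single (Rel.cx_ll b (g b))
  · exact absurd h.symm (hne b)
  · exact absurd h.symm (hne2 b)
  · right; rw [hbb _ _ h]; exact hcx b'
  · left; rw [hbb _ _ h]
  · right; rw [← h]; exact ReflTransGen.single (Rel.ll_cy b (g b))
  · right; rw [h]; exact P.lc_ll b0 zl hl a'
  · left; rw [h]; exact P.lr_uc b0 zr hr a'
  · right; rw [h]; exact ReflTransGen.single (Rel.cx_ll b' (g b'))
  · left; rw [h]; exact ReflTransGen.single (Rel.ll_cy b' (g b'))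
  · left; rw [h]

theorem card_Leaf : Fintype.card P.Leaf =
    (∑ b : Fin P.N, ((P.T b).card + (P.S b).card)) + P.s := by
  rw [Fintype.card_sum, Fintype.card_sigma, Fintype.card_fin]
  congr 1
  apply Finset.sum_congr rfl
  intro b _
  rw [Fintype.card_sum, Fintype.card_coe, Fintype.card_coe]

/-- **The width.** -/
theorem width (b0 : Fin P.N) (hT : P.M ∈ P.T b0) (hS : P.M ∈ P.S b0)
    (hg : ∀ b, ∃ z ∈ P.T b, z ≠ P.M) :
    WidthV P.Rel ((∑ b : Fin P.N, ((P.T b).card + (P.S b).card)) + P.s) := by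
  rw [← P.card_Leaf]
  choose g hg1 hg2 using hg
  refine ⟨⟨Finset.univ.map ⟨P.leaf, P.leaf_inj⟩, by rw [Finset.card_map, Finset.card_univ],
    P.anti_leaf⟩, ?_⟩
  intro s hs
  exact card_le_of_chains (P.chain b0 ⟨P.M, hT⟩ ⟨P.M, hS⟩ (fun b => ⟨g b, hg1 b⟩))
    (P.chain_spec b0 ⟨P.M, hT⟩ ⟨P.M, hS⟩ rfl rfl _ hg2) hs

end Shape

end Pool.Agent.T1K
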