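import Mathlib
import Pool.Agent.T1K.Defs
import Pool.Agent.T1K.Sys
import Pool.Agent.T1K.Poset

/-!
# The poset as a clocked system

Clock `Gd M = Fin (M + 1) ⊕ Fin (M + 1)`: `inl z` is the lower tick `z` (position `c z`), `inr z` is
the upper tick `z` (position `1 - d z`).
-/

set_option autoImplicit false

namespace Pool.Agent.T1K

open MeasureTheory Set Pool.Agent.Helper73.KS

/-- the ticks -/
abbrev Gd (M : ℕ) : Type := Fin (M + 1) ⊕ Fin (M + 1)

/-- the index of the tick `z` (truncated) -/
def ix (M z : ℕ) : Fin (M + 1) := ⟨min z M, Nat.lt_succ_of_le (min_le_right z M)⟩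

theorem ix_val {M z : ℕ} (h : z < M + 1) : ix M z = ⟨z, h⟩ := by
  apply Fin.ext
  exact min_eq_left (Nat.le_of_lt_succ h)

/-- position of the lower tick `z` -/
def cc (M : ℕ) (τ : Gd M → ℝ) (z : ℕ) : ℝ := τ (Sum.inl (ix M z))

/-- mirrored position of the upper tick `z` -/
def dd (M : ℕ) (τ : Gd M → ℝ) (z : ℕ) : ℝ := 1 - τ (Sum.inr (ix M z))

/-- generating relation of the clock: lower ticks increase, upper ticks decrease, the last lower
tick is below the last upper tick -/
inductive Rg (M : ℕ) : Gd M → Gd M → Prop
  | lo (z w : Fin (M + 1)) (h : z.val + 1 = w.val) : Rg M (Sum.inl z) (Sum.inl w)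
  | up (z w : Fin (M + 1)) (h : z.val + 1 = w.val) : Rg M (Sum.inr w) (Sum.inr z)
  | mid : Rg M (Sum.inl (Fin.last M)) (Sum.inr (Fin.last M))

/-- members of a double star: `inl false` is the lower centre `x`, `inl true` the upper centre
`x'`, `inr (inl z)` the leaf above the lower tick `z`, `inr (inr z)` the leaf below the upper
tick `z` -/
abbrev Star (T S : Finset ℕ) : Type := Bool ⊕ ({z // z ∈ T} ⊕ {z // z ∈ S})

/-- order inside a double star -/
inductive Rs (T S : Finset ℕ) : Star T S → Star T S → Prop
  | lo (e : {z // z ∈ T} ⊕ {z // z ∈ S}) : Rs T S (Sum.inl false) (Sum.inr e)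
  | up (e : {z // z ∈ T} ⊕ {z // z ∈ S}) : Rs T S (Sum.inr e) (Sum.inl true)

/-- lower tick of a member of a star -/
def starLo (M : ℕ) (T S : Finset ℕ) : Star T S → Option (Gd M)
  | Sum.inl _ => none
  | Sum.inr (Sum.inl z) => some (Sum.inl (ix M z.val))
  | Sum.inr (Sum.inr _) => none

/-- upper tick of a member of a star -/
def starUp (M : ℕ) (T S : Finset ℕ) : Star T S → Option (Gd M)
  | Sum.inl _ => none
  | Sum.inr (Sum.inl _) => none
  | Sum.inr (Sum.inr z) => some (Sum.inr (ix M z.val))

/-- a double star attached to the clock -/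
def starD (M : ℕ) (T S : Finset ℕ) : GData (Gd M) (Star T S) where
  lo := starLo M T S
  up := starUp M T S
  R := Rs T S

/-- the fillers of the cell below the lower tick `r` (above the lower tick `r - 1` if `1 ≤ r`) -/
def fillL (M n : ℕ) (r : Fin (M + 1)) : GData (Gd M) (Fin n) where
  lo _ := if r.val = 0 then none else some (Sum.inl (ix M (r.val - 1)))
  up _ := some (Sum.inl r)
  R i j := i < j

/-- the fillers of the cell above the upper tick `r` (below the upper tick `r - 1` if `1 ≤ r`) -/
def fillR (M n : ℕ) (r : Fin (M + 1)) : GData (Gd M) (Fin n) where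
  lo _ := some (Sum.inr r)
  up _ := if r.val = 0 then none else some (Sum.inr (ix M (r.val - 1)))
  R i j := i < j

/-- an extra element above the lower tick `z` -/
def padD (M z : ℕ) : GData (Gd M) Unit where
  lo _ := some (Sum.inl (ix M z))
  up _ := none
  R _ _ := False

namespace Shape

variable (P : Shape)

/-- the groups attached to the clock -/
def Dt : ∀ j : P.Grp, GData (Gd P.M) (P.Mem j)
  | Sum.inl (Sum.inl r) => fillL P.M (P.nl r) r
  | Sum.inl (Sum.inr r) => fillR P.M (P.nu r) r
  | Sum.inr (Sum.inl b) => starD P.M (P.T b) (P.S b)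
  | Sum.inr (Sum.inr i) => padD P.M (P.ex i).val

theorem rel_of_RV : ∀ a b : P.V, RV (Rg P.M) P.Dt a b → P.Rel a b := by
  intro a b h
  cases h with
  | gg g g' h =>
    cases h with
    | lo z w h => exact Rel.tl_tl z w h
    | up z w h => exact Rel.tu_tu z w h
    | mid => exact Rel.mid
  | gc g j c h =>
    rcases j with (r | r) | (b | i)
    · by_cases h0 : r.val = 0
      · exact absurd h (by simp [Dt, fillL, h0])
      · have h2 : Sum.inl (ix P.M (r.val - 1)) = g := by
          simpa [Dt, fillL, h0] using h
        subst h2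
        refine Rel.tl_fl _ r ?_ c
        show min (r.val - 1) P.M + 1 = r.val
        have := r.2
        omega
    · have h2 : Sum.inr r = g := Option.some.inj h
      subst h2
      exact Rel.tu_fu r c
    · rcases (c : Star (P.T b) (P.S b)) with t | (z | z)
      · exact absurd h (by simp [Dt, starD, starLo])
      · have h2 : Sum.inl (ix P.M z.val) = g := Option.some.inj h
        subst h2
        rw [ix_val (P.hT b z.1 z.2)]
        exact Rel.tl_ll b z
      · exact absurd h (by simp [Dt, starD, starLo])
    · have h2 : Sum.inl (ix P.M (P.ex i).val) = g := Option.some.inj h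
      subst h2
      rw [ix_val (P.ex i).2]
      exact Rel.tl_xe i
  | cg g j c h =>
    rcases j with (r | r) | (b | i)
    · have h2 : Sum.inl r = g := Option.some.inj h
      subst h2
      exact Rel.fl_tl r c
    · by_cases h0 : r.val = 0
      · exact absurd h (by simp [Dt, fillR, h0])
      · have h2 : Sum.inr (ix P.M (r.val - 1)) = g := by
          simpa [Dt, fillR, h0] using h
        subst h2
        refine Rel.fu_tu _ r ?_ c
        show min (r.val - 1) P.M + 1 = r.val
        have := r.2
        omega
    · rcases (c : Star (P.T b) (P.S b)) with t | (z | z)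
      · exact absurd h (by simp [Dt, starD, starUp])
      · exact absurd h (by simp [Dt, starD, starUp])
      · have h2 : Sum.inr (ix P.M z.val) = g := Option.some.inj h
        subst h2
        rw [ix_val (P.hS b z.1 z.2)]
        exact Rel.lr_tu b z
    · exact absurd h (by simp [Dt, padD])
  | cc j c c' h =>
    rcases j with (r | r) | (b | i)
    · exact Rel.fl_fl r c c' h
    · exact Rel.fu_fu r c c' h
    · have h' : Rs (P.T b) (P.S b) c c' := h
      cases h' with
      | lo e =>
        rcases e with z | z
        · exact Rel.cx_ll b z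
        · exact Rel.cx_lr b z
      | up e =>
        rcases e with z | z
        · exact Rel.ll_cy b z
        · exact Rel.lr_cy b z
    · exact h.elim

theorem RV_of_rel : ∀ a b : P.V, P.Rel a b → RV (Rg P.M) P.Dt a b := by
  intro a b h
  cases h with
  | tl_tl r r' h => exact RV.gg _ _ (Rg.lo r r' h)
  | tu_tu r r' h => exact RV.gg _ _ (Rg.up r r' h)
  | mid => exact RV.gg _ _ Rg.mid
  | fl_fl r i j h => exact RV.cc _ _ _ h
  | fl_tl r i => exact RV.cg _ _ _ rfl
  | tl_fl r r' h i =>
    refine RV.gc _ _ _ ?_
    have h0 : ¬ r'.val = 0 := by omega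
    have h1 : ix P.M (r'.val - 1) = r := by
      apply Fin.ext
      show min (r'.val - 1) P.M = r.val
      have := r.2
      omega
    show (if r'.val = 0 then none else some (Sum.inl (ix P.M (r'.val - 1)))) = _
    rw [if_neg h0, h1]
  | fu_fu r i j h => exact RV.cc _ _ _ h
  | tu_fu r i => exact RV.gc _ _ _ rfl
  | fu_tu r r' h i =>
    refine RV.cg _ _ _ ?_
    have h0 : ¬ r'.val = 0 := by omega
    have h1 : ix P.M (r'.val - 1) = r := by
      apply Fin.ext
      show min (r'.val - 1) P.M = r.val
      have := r.2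
      omega
    show (if r'.val = 0 then none else some (Sum.inr (ix P.M (r'.val - 1)))) = _
    rw [if_neg h0, h1]
  | cx_ll b z => exact RV.cc _ _ _ (Rs.lo (Sum.inl z))
  | cx_lr b z => exact RV.cc _ _ _ (Rs.lo (Sum.inr z))
  | ll_cy b z => exact RV.cc _ _ _ (Rs.up (Sum.inl z))
  | lr_cy b z => exact RV.cc _ _ _ (Rs.up (Sum.inr z))
  | tl_ll b z =>
    refine RV.gc _ _ _ ?_
    show some (Sum.inl (ix P.M z.val)) = _
    rw [ix_val (P.hT b z.1 z.2)]
    rfl
  | lr_tu b z =>
    refine RV.cg _ _ _ ?_
    show some (Sum.inr (ix P.M z.val)) = _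
    rw [ix_val (P.hS b z.1 z.2)]
    rfl
  | tl_xe i =>
    refine RV.gc _ _ _ ?_
    show some (Sum.inl (ix P.M (P.ex i).val)) = _
    rw [ix_val (P.ex i).2]

/-- **The generating relation is the one of the clocked system.** -/
theorem rel_eq : P.Rel = RV (Rg P.M) P.Dt := by
  funext a b
  exact propext ⟨P.RV_of_rel a b, P.rel_of_RV a b⟩

end Shape

end Pool.Agent.T1K
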