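import Mathlib
import Pool.Agent.T1K.Stars
import Pool.Agent.T1K.Rigid

/-!
# Concentration of the ticks near their target positions
-/

set_option autoImplicit false

namespace Pool.Agent.T1K

open MeasureTheory Set Pool.Agent.Helper73.KS

/-- increments of a sequence (with value `0` before the start) -/
def inc (f : ℕ → ℝ) (r : ℕ) : ℝ := f r - (if r = 0 then 0 else f (r - 1))

theorem sum_inc (f : ℕ → ℝ) (z : ℕ) : ∑ r ∈ Finset.range (z + 1), inc f r = f z := by
  induction z with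
  | zero => simp [inc]
  | succ z ih =>
    rw [Finset.sum_range_succ, ih]
    simp [inc]

/-- summation by parts -/
theorem sum_parts (f R : ℕ → ℝ) (M : ℕ) :
    ∑ z ∈ Finset.range (M + 1), f z * R z =
      ∑ r ∈ Finset.range (M + 1), inc f r * ∑ z ∈ Finset.Ico r (M + 1), R z := by
  have h1 : ∀ z ∈ Finset.range (M + 1), f z * R z =
      ∑ r ∈ Finset.range (z + 1), inc f r * R z := by
    intro z _
    rw [← Finset.sum_mul, sum_inc]
  rw [Finset.sum_congr rfl h1]
  have h2 : ∀ r ∈ Finset.range (M + 1), inc f r * ∑ z ∈ Finset.Ico r (M + 1), R z =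
      ∑ z ∈ Finset.Ico r (M + 1), inc f r * R z := fun r _ => Finset.mul_sum _ _ _
  rw [Finset.sum_congr rfl h2]
  refine Finset.sum_comm' fun z r => ?_
  simp only [Finset.mem_range, Finset.mem_Ico]
  omega

/-- Cauchy-Schwarz for partial sums of increments -/
theorem sq_le_inc (f : ℕ → ℝ) {z M : ℕ} (hz : z ≤ M) :
    f z ^ 2 ≤ (M + 1) * ∑ r ∈ Finset.range (M + 1), inc f r ^ 2 := by
  have h1 := sq_sum_le_card_mul_sum_sq (s := Finset.range (z + 1)) (f := inc f)
  rw [sum_inc, Finset.card_range] at h1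
  have h2 : ∑ r ∈ Finset.range (z + 1), inc f r ^ 2 ≤ ∑ r ∈ Finset.range (M + 1), inc f r ^ 2 :=
    Finset.sum_le_sum_of_subset_of_nonneg
      (Finset.range_subset_range.2 (by omega)) fun _ _ _ => sq_nonneg _
  have h3 : (0 : ℝ) ≤ ∑ r ∈ Finset.range (z + 1), inc f r ^ 2 :=
    Finset.sum_nonneg fun _ _ => sq_nonneg _
  have h4 : ((z + 1 : ℕ) : ℝ) ≤ M + 1 := by
    have : (z : ℝ) ≤ M := by exact_mod_cast hz
    push_cast
    linarith
  calc f z ^ 2 ≤ ((z + 1 : ℕ) : ℝ) * ∑ r ∈ Finset.range (z + 1), inc f r ^ 2 := h1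
    _ ≤ (M + 1) * ∑ r ∈ Finset.range (M + 1), inc f r ^ 2 := by
        refine mul_le_mul h4 h2 h3 (by positivity)

/-- target positions of the clock -/
def tgt (M : ℕ) (c0 : ℕ → ℝ) : Gd M → ℝ
  | Sum.inl z => c0 z.val
  | Sum.inr z => 1 - c0 z.val

theorem cc_tgt {M : ℕ} (c0 : ℕ → ℝ) {z : ℕ} (hz : z ≤ M) : cc M (tgt M c0) z = c0 z := by
  show c0 (min z M) = c0 z
  rw [min_eq_left hz]

theorem dd_tgt {M : ℕ} (c0 : ℕ → ℝ) {z : ℕ} (hz : z ≤ M) : dd M (tgt M c0) z = c0 z := by
  show 1 - (1 - c0 (min z M)) = c0 z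
  rw [min_eq_left hz]
  ring

/-- the springs: the cells of the clock -/
noncomputable def spr (M : ℕ) : Fin (M + 1) ⊕ Fin (M + 1) → (Gd M → ℝ) → ℝ
  | Sum.inl r, τ => inc (cc M τ) r.val
  | Sum.inr r, τ => inc (dd M τ) r.val

/-- the admissible clock positions in the cube -/
def dom (M : ℕ) : Set (Gd M → ℝ) := cn (Rg M) ∩ cub (Gd M)

theorem cc_mem {M : ℕ} {τ : Gd M → ℝ} (h : τ ∈ cub (Gd M)) (z : ℕ) :
    0 ≤ cc M τ z ∧ cc M τ z ≤ 1 := h _ (mem_univ _)

theorem dd_mem {M : ℕ} {τ : Gd M → ℝ} (h : τ ∈ cub (Gd M)) (z : ℕ) :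
    0 ≤ dd M τ z ∧ dd M τ z ≤ 1 := by
  have h1 := h (Sum.inr (ix M z)) (mem_univ _)
  unfold dd
  exact ⟨by linarith [h1.2], by linarith [h1.1]⟩

theorem cc_mono {M : ℕ} {τ : Gd M → ℝ} (h : τ ∈ cn (Rg M)) {r : ℕ} (hr : r + 1 ≤ M) :
    cc M τ r ≤ cc M τ (r + 1) := by
  refine h _ _ (Rg.lo _ _ ?_)
  show min r M + 1 = min (r + 1) M
  omega

theorem dd_mono {M : ℕ} {τ : Gd M → ℝ} (h : τ ∈ cn (Rg M)) {r : ℕ} (hr : r + 1 ≤ M) :
    dd M τ r ≤ dd M τ (r + 1) := by
  have h1 : τ (Sum.inr (ix M (r + 1))) ≤ τ (Sum.inr (ix M r)) := by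
    refine h _ _ (Rg.up _ _ ?_)
    show min r M + 1 = min (r + 1) M
    omega
  unfold dd
  linarith

theorem spr_mem {M : ℕ} {τ : Gd M → ℝ} (h : τ ∈ dom M) (i : Fin (M + 1) ⊕ Fin (M + 1)) :
    0 ≤ spr M i τ ∧ spr M i τ ≤ 1 := by
  rcases i with r | r
  · show 0 ≤ inc (cc M τ) r.val ∧ inc (cc M τ) r.val ≤ 1
    unfold inc
    have h1 := cc_mem h.2 r.val
    by_cases h0 : r.val = 0
    · rw [if_pos h0]
      constructor <;> linarith [h1.1, h1.2]
    · rw [if_neg h0]
      have h2 := cc_mem h.2 (r.val - 1)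
      have h3 := cc_mono h.1 (r := r.val - 1) (by have := r.2; omega)
      rw [Nat.sub_add_cancel (Nat.one_le_iff_ne_zero.2 h0)] at h3
      constructor <;> linarith [h1.1, h1.2, h2.1, h2.2]
  · show 0 ≤ inc (dd M τ) r.val ∧ inc (dd M τ) r.val ≤ 1
    unfold inc
    have h1 := dd_mem h.2 r.val
    by_cases h0 : r.val = 0
    · rw [if_pos h0]
      constructor <;> linarith [h1.1, h1.2]
    · rw [if_neg h0]
      have h2 := dd_mem h.2 (r.val - 1)
      have h3 := dd_mono h.1 (r := r.val - 1) (by have := r.2; omega)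
      rw [Nat.sub_add_cancel (Nat.one_le_iff_ne_zero.2 h0)] at h3
      constructor <;> linarith [h1.1, h1.2, h2.1, h2.2]

/-- midpoint of `τ` and `t0` -/
noncomputable def md {M : ℕ} (t0 τ : Gd M → ℝ) : Gd M → ℝ := t0 + (1 / 2 : ℝ) • (τ - t0)

theorem md_apply {M : ℕ} (t0 τ : Gd M → ℝ) (g : Gd M) : md t0 τ g = (τ g + t0 g) / 2 := by
  simp only [md, Pi.add_apply, Pi.smul_apply, Pi.sub_apply, smul_eq_mul]
  ring

theorem cc_md {M : ℕ} (t0 τ : Gd M → ℝ) (z : ℕ) :
    cc M (md t0 τ) z = (cc M τ z + cc M t0 z) / 2 := md_apply _ _ _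

theorem dd_md {M : ℕ} (t0 τ : Gd M → ℝ) (z : ℕ) :
    dd M (md t0 τ) z = (dd M τ z + dd M t0 z) / 2 := by
  unfold dd
  rw [md_apply]
  ring

theorem spr_md {M : ℕ} (t0 τ : Gd M → ℝ) (i : Fin (M + 1) ⊕ Fin (M + 1)) :
    spr M i (md t0 τ) = (spr M i τ + spr M i t0) / 2 := by
  rcases i with r | r
  · show inc (cc M (md t0 τ)) r.val = (inc (cc M τ) r.val + inc (cc M t0) r.val) / 2
    unfold inc
    rw [cc_md]
    by_cases h0 : r.val = 0
    · simp only [if_pos h0]; ring
    · simp only [if_neg h0]; rw [cc_md]; ring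
  · show inc (dd M (md t0 τ)) r.val = (inc (dd M τ) r.val + inc (dd M t0) r.val) / 2
    unfold inc
    rw [dd_md]
    by_cases h0 : r.val = 0
    · simp only [if_pos h0]; ring
    · simp only [if_neg h0]; rw [dd_md]; ring

theorem md_dom {M : ℕ} {t0 τ : Gd M → ℝ} (h0 : t0 ∈ dom M) (h : τ ∈ dom M) : md t0 τ ∈ dom M := by
  refine ⟨fun a b hab => ?_, fun g _ => ?_⟩
  · rw [md_apply, md_apply]
    have h1 := h0.1 a b hab
    have h2 := h.1 a b hab
    linarith
  · show 0 ≤ md t0 τ g ∧ md t0 τ g ≤ 1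
    rw [md_apply]
    have h1 := h0.2 g (mem_univ _)
    have h2 := h.2 g (mem_univ _)
    constructor <;> linarith [h1.1, h1.2, h2.1, h2.2]

/-- conditions on the target positions -/
structure Tgt (M : ℕ) (c0 : ℕ → ℝ) (hm : ℝ) : Prop where
  pos : 0 < hm
  inc : ∀ r ≤ M, hm ≤ inc c0 r
  half : c0 M ≤ 1 / 2

namespace Tgt

variable {M : ℕ} {c0 : ℕ → ℝ} {hm : ℝ} (H : Tgt M c0 hm)

include H

theorem mono {r : ℕ} (hr : r + 1 ≤ M) : c0 r ≤ c0 (r + 1) := by
  have h1 := H.inc (r + 1) hr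
  unfold Pool.Agent.T1K.inc at h1
  rw [if_neg (Nat.succ_ne_zero r), Nat.add_sub_cancel] at h1
  linarith [H.pos]

theorem le_half {r : ℕ} (hr : r ≤ M) : c0 r ≤ 1 / 2 := by
  have key : ∀ k, k ≤ M → c0 (M - k) ≤ 1 / 2 := by
    intro k
    induction k with
    | zero => intro _; exact H.half
    | succ k ih =>
      intro hk
      have h1 := H.mono (r := M - (k + 1)) (by omega)
      have h2 : M - (k + 1) + 1 = M - k := by omega
      rw [h2] at h1
      exact h1.trans (ih (by omega))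
  have := key (M - r) (Nat.sub_le _ _)
  rwa [Nat.sub_sub_self hr] at this

theorem ge {r : ℕ} (hr : r ≤ M) : hm ≤ c0 r := by
  induction r with
  | zero =>
    have h1 := H.inc 0 hr
    unfold Pool.Agent.T1K.inc at h1
    rw [if_pos rfl] at h1
    linarith
  | succ r ih => exact (ih (by omega)).trans (H.mono hr)

theorem dom : tgt M c0 ∈ dom M := by
  refine ⟨fun a b hab => ?_, fun g _ => ?_⟩
  · cases hab with
    | lo z w h =>
      show c0 z.val ≤ c0 w.val
      rw [← h]
      exact H.mono (by have := w.2; omega)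
    | up z w h =>
      show 1 - c0 w.val ≤ 1 - c0 z.val
      have := H.mono (r := z.val) (by have := w.2; omega)
      rw [h] at this
      linarith
    | mid =>
      show c0 M ≤ 1 - c0 M
      linarith [H.half]
  · rcases g with z | z
    · show 0 ≤ c0 z.val ∧ c0 z.val ≤ 1
      have h1 := H.ge (r := z.val) (by have := z.2; omega)
      have h2 := H.le_half (r := z.val) (by have := z.2; omega)
      constructor <;> linarith [H.pos]
    · show 0 ≤ 1 - c0 z.val ∧ 1 - c0 z.val ≤ 1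
      have h1 := H.ge (r := z.val) (by have := z.2; omega)
      have h2 := H.le_half (r := z.val) (by have := z.2; omega)
      constructor <;> linarith [H.pos]

theorem spr_ge (i : Fin (M + 1) ⊕ Fin (M + 1)) : hm ≤ spr M i (tgt M c0) := by
  rcases i with r | r
  · show hm ≤ Pool.Agent.T1K.inc (cc M (tgt M c0)) r.val
    have hr : r.val ≤ M := Nat.le_of_lt_succ r.2
    have h1 := H.inc r.val hr
    unfold Pool.Agent.T1K.inc at h1 ⊢
    rw [cc_tgt c0 hr, cc_tgt c0 (by omega)]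
    exact h1
  · show hm ≤ Pool.Agent.T1K.inc (dd M (tgt M c0)) r.val
    have hr : r.val ≤ M := Nat.le_of_lt_succ r.2
    have h1 := H.inc r.val hr
    unfold Pool.Agent.T1K.inc at h1 ⊢
    rw [dd_tgt c0 hr, dd_tgt c0 (by omega)]
    exact h1

end Tgt

/-- the numbers of fillers, indexed by the cells -/
def nn (M : ℕ) (nL nR : ℕ → ℕ) : Fin (M + 1) ⊕ Fin (M + 1) → ℕ
  | Sum.inl r => nL r.val
  | Sum.inr r => nR r.val

/-- the neighbourhood of the target -/
def nbh (M : ℕ) (c0 : ℕ → ℝ) (δ : ℝ) : Set (Gd M → ℝ) := {τ | ∀ g, |τ g - tgt M c0 g| < δ}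

theorem meas_nbh (M : ℕ) (c0 : ℕ → ℝ) (δ : ℝ) : MeasurableSet (nbh M c0 δ) := by
  unfold nbh
  rw [Set.ofPred_forall]
  refine MeasurableSet.iInter fun g => ?_
  exact measurableSet_lt (((measurable_pi_apply g).sub_const _).norm) measurable_const

/-- sum of the squares of the deviations of the springs -/
theorem dev_ge {M : ℕ} {c0 : ℕ → ℝ} {δ : ℝ} (hδ : 0 ≤ δ) {τ : Gd M → ℝ} (h : τ ∉ nbh M c0 δ) :
    δ ^ 2 / (M + 1) ≤ ∑ i, (spr M i τ - spr M i (tgt M c0)) ^ 2 := by
  have hM : (0 : ℝ) < (M : ℝ) + 1 := by positivity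
  have e1 : ∀ r : Fin (M + 1), spr M (Sum.inl r) τ - spr M (Sum.inl r) (tgt M c0) =
      inc (fun z => cc M τ z - cc M (tgt M c0) z) r.val := by
    intro r
    show inc (cc M τ) r.val - inc (cc M (tgt M c0)) r.val = _
    unfold inc
    by_cases h0 : r.val = 0
    · simp only [if_pos h0]; ring
    · simp only [if_neg h0]; ring
  have e2 : ∀ r : Fin (M + 1), spr M (Sum.inr r) τ - spr M (Sum.inr r) (tgt M c0) =
      inc (fun z => dd M τ z - dd M (tgt M c0) z) r.val := by
    intro r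
    show inc (dd M τ) r.val - inc (dd M (tgt M c0)) r.val = _
    unfold inc
    by_cases h0 : r.val = 0
    · simp only [if_pos h0]; ring
    · simp only [if_neg h0]; ring
  rw [Fintype.sum_sum_type]
  simp only [e1, e2]
  rw [Fin.sum_univ_eq_sum_range (fun r => inc (fun z => cc M τ z - cc M (tgt M c0) z) r ^ 2),
    Fin.sum_univ_eq_sum_range (fun r => inc (fun z => dd M τ z - dd M (tgt M c0) z) r ^ 2)]
  have p1 : (0 : ℝ) ≤ ∑ r ∈ Finset.range (M + 1),
      inc (fun z => cc M τ z - cc M (tgt M c0) z) r ^ 2 := Finset.sum_nonneg fun _ _ => sq_nonneg _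
  have p2 : (0 : ℝ) ≤ ∑ r ∈ Finset.range (M + 1),
      inc (fun z => dd M τ z - dd M (tgt M c0) z) r ^ 2 := Finset.sum_nonneg fun _ _ => sq_nonneg _
  have h1 : ∃ g, δ ≤ |τ g - tgt M c0 g| := by
    by_contra hc
    push Not at hc
    exact h hc
  obtain ⟨g, hg⟩ := h1
  have h2 : δ ^ 2 ≤ (τ g - tgt M c0 g) ^ 2 := by
    rw [← sq_abs (τ g - tgt M c0 g)]
    exact pow_le_pow_left₀ hδ hg 2
  rw [div_le_iff₀ hM]
  rcases g with z | z
  · have h3 := sq_le_inc (fun z => cc M τ z - cc M (tgt M c0) z) (z := z.val) (M := M)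
      (Nat.le_of_lt_succ z.2)
    have h4 : cc M τ z.val = τ (Sum.inl z) := by
      unfold cc
      rw [ix_val z.2]
    have h5 : cc M (tgt M c0) z.val = tgt M c0 (Sum.inl z) := by
      unfold cc
      rw [ix_val z.2]
    rw [h4, h5] at h3
    nlinarith
  · have h3 := sq_le_inc (fun z => dd M τ z - dd M (tgt M c0) z) (z := z.val) (M := M)
      (Nat.le_of_lt_succ z.2)
    have h4 : dd M τ z.val - dd M (tgt M c0) z.val = -(τ (Sum.inr z) - tgt M c0 (Sum.inr z)) := by
      unfold dd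
      rw [ix_val z.2]
      ring
    rw [h4, neg_sq] at h3
    nlinarith

/-- **Concentration of the clock.** -/
theorem conc {M : ℕ} {c0 : ℕ → ℝ} {hm : ℝ} (H : Tgt M c0 hm) {F : (Gd M → ℝ) → ℝ}
    (hFn : ∀ τ, 0 ≤ F τ) (hF0 : 0 < F (tgt M c0)) (hFm : Measurable F)
    (hF1 : ∀ τ ∈ dom M, F τ ≤ 1)
    (hmid : ∀ τ ∈ dom M, F τ * F (tgt M c0) ≤ F (md (tgt M c0) τ) ^ 2)
    {RL RR : ℕ → ℝ}
    (htan : ∀ τ ∈ dom M, F τ ≤ F (tgt M c0) * Real.exp
      (-(∑ z ∈ Finset.range (M + 1), (cc M τ z - c0 z) * RL z +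
        ∑ z ∈ Finset.range (M + 1), (dd M τ z - c0 z) * RR z)))
    {nL nR : ℕ → ℕ}
    (hnL : ∀ r ≤ M, |(nL r : ℝ) - inc c0 r * ∑ z ∈ Finset.Ico r (M + 1), RL z| ≤ 1)
    (hnR : ∀ r ≤ M, |(nR r : ℝ) - inc c0 r * ∑ z ∈ Finset.Ico r (M + 1), RR z| ≤ 1)
    {m : ℝ} (hm0 : 0 ≤ m) (hmL : ∀ r ≤ M, m ≤ nL r) (hmR : ∀ r ≤ M, m ≤ nR r)
    {w : (Gd M → ℝ) → ℝ} {Cst : ℝ} (hC : 0 ≤ Cst)
    (hw : ∀ τ ∈ dom M, w τ = Cst * ((∏ i, spr M i τ ^ nn M nL nR i) * F τ))
    (hw0 : ∀ τ, τ ∉ cn (Rg M) → w τ = 0) (hwm : Measurable w) (hwn : ∀ τ, 0 ≤ w τ)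
    {δ : ℝ} (hδ : 0 ≤ δ) :
    ∫ τ in (nbh M c0 δ)ᶜ, w τ ∂(PV (Gd M)) ≤
      Real.exp ((M + 1) / hm - m * δ ^ 2 / (8 * (M + 1))) * 2 ^ (2 * (M + 1)) *
        ∫ τ, w τ ∂(PV (Gd M)) := by
  classical
  set t0 := tgt M c0 with ht0
  have hMp : (0 : ℝ) < (M : ℝ) + 1 := by positivity
  have hmp := H.pos
  have hd0 : t0 ∈ dom M := H.dom
  set Lam : Fin (M + 1) ⊕ Fin (M + 1) → ℝ := fun i => match i with
    | Sum.inl r => ∑ z ∈ Finset.Ico r.val (M + 1), RL z
    | Sum.inr r => ∑ z ∈ Finset.Ico r.val (M + 1), RR z with hLam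
  -- the weight at `τ` against the weight at the midpoint
  have key : ∀ τ ∈ dom M, (∏ i, spr M i τ ^ nn M nL nR i) * F τ ≤
      Real.exp ((M + 1) / hm - (∑ i, (nn M nL nR i : ℝ) * (spr M i τ - spr M i t0) ^ 2) / 8) *
        ((∏ i, spr M i (md t0 τ) ^ nn M nL nR i) * F (md t0 τ)) := by
    intro τ hτ
    have hst : F τ ≤ F t0 * Real.exp (2 * ((M + 1) / hm) -
        ∑ i, (nn M nL nR i : ℝ) / spr M i t0 * (spr M i τ - spr M i t0)) := by
      refine (htan τ hτ).trans (mul_le_mul_of_nonneg_left (Real.exp_le_exp.2 ?_) hF0.le)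
      have e1 : ∑ z ∈ Finset.range (M + 1), (cc M τ z - c0 z) * RL z =
          ∑ r : Fin (M + 1), (spr M (Sum.inl r) τ - spr M (Sum.inl r) t0) * Lam (Sum.inl r) := by
        rw [sum_parts (fun z => cc M τ z - c0 z) RL M, ← Fin.sum_univ_eq_sum_range
          (fun r => inc (fun z => cc M τ z - c0 z) r * ∑ z ∈ Finset.Ico r (M + 1), RL z)]
        refine Finset.sum_congr rfl fun r _ => ?_
        congr 1
        show _ = inc (cc M τ) r.val - inc (cc M t0) r.val
        have hr : r.val ≤ M := Nat.le_of_lt_succ r.2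
        unfold inc
        rw [ht0, cc_tgt c0 hr, cc_tgt c0 (by omega)]
        by_cases h0 : r.val = 0
        · simp only [if_pos h0]; ring
        · simp only [if_neg h0]; ring
      have e2 : ∑ z ∈ Finset.range (M + 1), (dd M τ z - c0 z) * RR z =
          ∑ r : Fin (M + 1), (spr M (Sum.inr r) τ - spr M (Sum.inr r) t0) * Lam (Sum.inr r) := by
        rw [sum_parts (fun z => dd M τ z - c0 z) RR M, ← Fin.sum_univ_eq_sum_range
          (fun r => inc (fun z => dd M τ z - c0 z) r * ∑ z ∈ Finset.Ico r (M + 1), RR z)]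
        refine Finset.sum_congr rfl fun r _ => ?_
        congr 1
        show _ = inc (dd M τ) r.val - inc (dd M t0) r.val
        have hr : r.val ≤ M := Nat.le_of_lt_succ r.2
        unfold inc
        rw [ht0, dd_tgt c0 hr, dd_tgt c0 (by omega)]
        by_cases h0 : r.val = 0
        · simp only [if_pos h0]; ring
        · simp only [if_neg h0]; ring
      rw [e1, e2, ← Fintype.sum_sum_type
        (fun i : Fin (M + 1) ⊕ Fin (M + 1) => (spr M i τ - spr M i t0) * Lam i)]
      have h1 : ∀ i : Fin (M + 1) ⊕ Fin (M + 1),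
          (nn M nL nR i : ℝ) / spr M i t0 * (spr M i τ - spr M i t0) -
            (spr M i τ - spr M i t0) * Lam i ≤ 1 / hm := by
        intro i
        have h2 : hm ≤ spr M i t0 := H.spr_ge i
        have h3 : 0 < spr M i t0 := lt_of_lt_of_le hmp h2
        have h4 : |(nn M nL nR i : ℝ) - spr M i t0 * Lam i| ≤ 1 := by
          rcases i with r | r
          · have hr : r.val ≤ M := Nat.le_of_lt_succ r.2
            have h5 := hnL r.val hr
            have h6 : spr M (Sum.inl r) t0 = inc c0 r.val := by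
              show inc (cc M t0) r.val = _
              unfold inc
              rw [ht0, cc_tgt c0 hr, cc_tgt c0 (by omega)]
            rw [h6]
            exact h5
          · have hr : r.val ≤ M := Nat.le_of_lt_succ r.2
            have h5 := hnR r.val hr
            have h6 : spr M (Sum.inr r) t0 = inc c0 r.val := by
              show inc (dd M t0) r.val = _
              unfold inc
              rw [ht0, dd_tgt c0 hr, dd_tgt c0 (by omega)]
            rw [h6]
            exact h5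
        have h5 : |spr M i τ - spr M i t0| ≤ 1 := by
          have h6 := spr_mem hτ i
          have h7 := spr_mem hd0 i
          rw [abs_le]
          constructor <;> linarith [h6.1, h6.2, h7.1, h7.2]
        calc (nn M nL nR i : ℝ) / spr M i t0 * (spr M i τ - spr M i t0) -
              (spr M i τ - spr M i t0) * Lam i
            = ((nn M nL nR i : ℝ) - spr M i t0 * Lam i) / spr M i t0 *
              (spr M i τ - spr M i t0) := by
              field_simp
          _ ≤ |((nn M nL nR i : ℝ) - spr M i t0 * Lam i) / spr M i t0 *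
              (spr M i τ - spr M i t0)| := le_abs_self _
          _ = |(nn M nL nR i : ℝ) - spr M i t0 * Lam i| / spr M i t0 *
              |spr M i τ - spr M i t0| := by
              rw [abs_mul, abs_div, abs_of_pos h3]
          _ ≤ 1 / spr M i t0 * 1 := by
              refine mul_le_mul (div_le_div_of_nonneg_right h4 h3.le) h5 (abs_nonneg _) ?_
              positivity
          _ ≤ 1 / hm := by
              rw [mul_one]
              exact one_div_le_one_div_of_le hmp h2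
      have h2 : ∑ i, ((nn M nL nR i : ℝ) / spr M i t0 * (spr M i τ - spr M i t0) -
            (spr M i τ - spr M i t0) * Lam i) ≤ 2 * ((M + 1) / hm) := by
        refine (Finset.sum_le_sum fun i _ => h1 i).trans (le_of_eq ?_)
        rw [Finset.sum_const, Finset.card_univ, Fintype.card_sum, Fintype.card_fin, nsmul_eq_mul]
        push_cast
        ring
      rw [Finset.sum_sub_distrib] at h2
      linarith
    have h3 := rigid_pt Finset.univ t0 (spr M) (nn M nL nR) F (2 * ((M + 1) / hm)) τ (md t0 τ)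
      (fun i _ => spr_md t0 τ i) (fun i _ => (spr_mem hτ i).1) (fun i _ => (spr_mem hτ i).2)
      (fun i _ => lt_of_lt_of_le hmp (H.spr_ge i)) (fun i _ => (spr_mem hd0 i).2)
      (hFn _) (hFn _) hF0 (hmid τ hτ) hst
    refine h3.trans (le_of_eq ?_)
    congr 2
    ring
  -- outside of the neighbourhood
  set A : ℝ := Real.exp ((M + 1) / hm - m * δ ^ 2 / (8 * (M + 1))) with hA
  set wv : (Gd M → ℝ) → ℝ := (cub (Gd M)).indicator w with hwv
  have wvn : ∀ τ, 0 ≤ wv τ := fun τ => Set.indicator_nonneg (fun x _ => hwn x) τ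
  have key2 : ∀ τ, τ ∉ nbh M c0 δ → wv τ ≤ A * wv (t0 + (1 / 2 : ℝ) • (τ - t0)) := by
    intro τ hτ
    by_cases h1 : τ ∈ cub (Gd M)
    · by_cases h2 : τ ∈ cn (Rg M)
      · have hd : τ ∈ dom M := ⟨h2, h1⟩
        have hmd : md t0 τ ∈ dom M := md_dom hd0 hd
        have e1 : wv τ = w τ := indicator_of_mem h1 _
        have e2 : wv (t0 + (1 / 2 : ℝ) • (τ - t0)) = w (md t0 τ) := indicator_of_mem hmd.2 _
        rw [e1, e2, hw τ hd, hw _ hmd]
        have h3 := key τ hd
        have h4 : δ ^ 2 / (M + 1) ≤ ∑ i, (spr M i τ - spr M i t0) ^ 2 := dev_ge hδ hτ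
        have h5 : m * (δ ^ 2 / (M + 1)) ≤
            ∑ i, (nn M nL nR i : ℝ) * (spr M i τ - spr M i t0) ^ 2 := by
          refine (mul_le_mul_of_nonneg_left h4 hm0).trans ?_
          rw [Finset.mul_sum]
          refine Finset.sum_le_sum fun i _ => mul_le_mul_of_nonneg_right ?_ (sq_nonneg _)
          rcases i with r | r
          · exact hmL r.val (Nat.le_of_lt_succ r.2)
          · exact hmR r.val (Nat.le_of_lt_succ r.2)
        have h6 : Real.exp ((M + 1) / hm -
            (∑ i, (nn M nL nR i : ℝ) * (spr M i τ - spr M i t0) ^ 2) / 8) ≤ A := by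
          rw [hA]
          refine Real.exp_le_exp.2 ?_
          have h7 : m * δ ^ 2 / (8 * (M + 1)) = m * (δ ^ 2 / (M + 1)) / 8 := by
            field_simp
          rw [h7]
          linarith
        have h8 : 0 ≤ (∏ i, spr M i (md t0 τ) ^ nn M nL nR i) * F (md t0 τ) :=
          mul_nonneg (Finset.prod_nonneg fun i _ => pow_nonneg (spr_mem hmd i).1 _) (hFn _)
        calc Cst * ((∏ i, spr M i τ ^ nn M nL nR i) * F τ)
            ≤ Cst * (A * ((∏ i, spr M i (md t0 τ) ^ nn M nL nR i) * F (md t0 τ))) :=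
              mul_le_mul_of_nonneg_left
                (h3.trans (mul_le_mul_of_nonneg_right h6 h8)) hC
          _ = A * (Cst * ((∏ i, spr M i (md t0 τ) ^ nn M nL nR i) * F (md t0 τ))) := by ring
      · have e1 : wv τ = 0 := by
          rw [hwv, indicator_of_mem h1, hw0 τ h2]
        rw [e1]
        exact mul_nonneg (Real.exp_pos _).le (wvn _)
    · have e1 : wv τ = 0 := indicator_of_notMem h1 _
      rw [e1]
      exact mul_nonneg (Real.exp_pos _).le (wvn _)
  have wvb : ∀ τ, wv τ ≤ Cst := by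
    intro τ
    by_cases h1 : τ ∈ cub (Gd M)
    · rw [hwv, indicator_of_mem h1]
      by_cases h2 : τ ∈ cn (Rg M)
      · have hd : τ ∈ dom M := ⟨h2, h1⟩
        rw [hw τ hd]
        have h3 : (∏ i, spr M i τ ^ nn M nL nR i) ≤ 1 :=
          Finset.prod_le_one (fun i _ => pow_nonneg (spr_mem hd i).1 _)
            fun i _ => pow_le_one₀ (spr_mem hd i).1 (spr_mem hd i).2
        have h4 : (∏ i, spr M i τ ^ nn M nL nR i) * F τ ≤ 1 :=
          mul_le_one₀ h3 (hFn _) (hF1 τ hd)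
        exact mul_le_of_le_one_right hC h4
      · rw [hw0 τ h2]; exact hC
    · rw [hwv, indicator_of_notMem h1]; exact hC
  have wvm : Measurable wv := hwm.indicator meas_cub
  have hvc : volume (cub (Gd M)) < ⊤ := by
    unfold cub
    exact (isCompact_univ_pi fun _ => isCompact_Icc).measure_lt_top
  have wvi : Integrable wv volume := by
    have h1 : IntegrableOn w (cub (Gd M)) volume := by
      haveI : IsFiniteMeasure (volume.restrict (cub (Gd M))) :=
        ⟨by rw [Measure.restrict_apply_univ]; exact hvc⟩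
      refine Integrable.of_bound hwm.aestronglyMeasurable Cst ?_
      rw [ae_restrict_iff' meas_cub]
      refine Filter.Eventually.of_forall fun τ hτ => ?_
      rw [Real.norm_eq_abs, abs_of_nonneg (hwn τ)]
      have := wvb τ
      rwa [hwv, indicator_of_mem hτ] at this
    exact h1.integrable_indicator meas_cub
  have h1 := rigid_int wvi wvn t0 (meas_nbh M c0 δ) key2 (Real.exp_pos _).le
  rw [Fintype.card_sum, Fintype.card_fin] at h1
  have e1 : ∫ τ in (nbh M c0 δ)ᶜ, w τ ∂(PV (Gd M)) = ∫ τ in (nbh M c0 δ)ᶜ, wv τ := by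
    rw [PV_eq, Measure.restrict_restrict (meas_nbh M c0 δ).compl, hwv,
      setIntegral_indicator meas_cub]
  have e2 : ∫ τ, w τ ∂(PV (Gd M)) = ∫ τ, wv τ := by
    rw [PV_eq, hwv, integral_indicator meas_cub]
  rw [e1, e2]
  refine h1.trans (le_of_eq ?_)
  congr 2
  ring

end Pool.Agent.T1K
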