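import Mathlib
import Pool.Agent.T1K.Stars

/-!
# Volumes of the fillers and of the padding elements
-/

set_option autoImplicit false

namespace Pool.Agent.T1K

open MeasureTheory Set Pool.Agent.Helper73.KS

open scoped Pointwise

/-- the sorted points of `[a, b]` -/
def srt (n : ℕ) (a b : ℝ) : Set (Fin n → ℝ) :=
  {y | (∀ i, a ≤ y i) ∧ (∀ i, y i ≤ b) ∧ ∀ i j : Fin n, i < j → y i ≤ y j}

/-- volume of the sorted points of the unit interval -/
noncomputable def Cn (n : ℕ) : ℝ := (PV (Fin n)).real (srt n 0 1)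

/-- position of the lower tick below the lower tick `r` -/
noncomputable def ccp (M : ℕ) (τ : Gd M → ℝ) (r : ℕ) : ℝ := if r = 0 then 0 else cc M τ (r - 1)

/-- mirrored position of the upper tick above the upper tick `r` -/
noncomputable def ddp (M : ℕ) (τ : Gd M → ℝ) (r : ℕ) : ℝ := if r = 0 then 0 else dd M τ (r - 1)

theorem meas_srt (n : ℕ) (a b : ℝ) : MeasurableSet (srt n a b) := by
  have e : srt n a b = (⋂ i : Fin n, {y : Fin n → ℝ | a ≤ y i}) ∩
      ((⋂ i : Fin n, {y : Fin n → ℝ | y i ≤ b}) ∩
      ⋂ i : Fin n, ⋂ j : Fin n, {y : Fin n → ℝ | i < j → y i ≤ y j}) := by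
    ext y
    simp only [mem_inter_iff, mem_iInter]
    exact Iff.rfl
  rw [e]
  refine MeasurableSet.inter ?_ (MeasurableSet.inter ?_ ?_)
  · exact MeasurableSet.iInter fun i => measurableSet_le measurable_const (measurable_pi_apply i)
  · exact MeasurableSet.iInter fun i => measurableSet_le (measurable_pi_apply i) measurable_const
  · refine MeasurableSet.iInter fun i => MeasurableSet.iInter fun j => ?_
    by_cases h : i < j
    · have e2 : {y : Fin n → ℝ | i < j → y i ≤ y j} = {y | y i ≤ y j} := by
        ext y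
        exact ⟨fun hy => hy h, fun hy _ => hy⟩
      rw [e2]
      exact measurableSet_le (measurable_pi_apply i) (measurable_pi_apply j)
    · have e2 : {y : Fin n → ℝ | i < j → y i ≤ y j} = univ := by
        ext y
        exact ⟨fun _ => trivial, fun _ hij => absurd hij h⟩
      rw [e2]
      exact MeasurableSet.univ

theorem Cn_pos (n : ℕ) : 0 < Cn n := by
  refine lt_of_lt_of_le (Dc_pos n) ?_
  refine ENNReal.toReal_mono (measure_ne_top _ _) (measure_mono_ae ?_)
  filter_upwards [ae_cub (V := Fin n)] with u hu hd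
  exact ⟨fun i => (hu i).1, fun i => (hu i).2, fun i j hij => (hd i j hij).le⟩

theorem srt_scale (n : ℕ) {r : ℝ} (hr : 0 ≤ r) : srt n 0 r = r • srt n 0 1 := by
  rcases hr.eq_or_lt with h | h
  · subst h
    have hne : (srt n 0 1).Nonempty :=
      ⟨fun _ => 0, fun _ => le_rfl, fun _ => zero_le_one, fun _ _ _ => le_rfl⟩
    rw [zero_smul_set hne]
    ext y
    rw [Set.mem_zero]
    constructor
    · rintro ⟨h1, h2, -⟩
      funext i
      exact le_antisymm (h2 i) (h1 i)
    · rintro rfl
      exact ⟨fun _ => le_rfl, fun _ => le_rfl, fun _ _ _ => le_rfl⟩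
  · ext y
    rw [mem_smul_set_iff_inv_smul_mem₀ h.ne']
    have hi : 0 < r⁻¹ := inv_pos.2 h
    constructor
    · rintro ⟨h1, h2, h3⟩
      refine ⟨fun i => ?_, fun i => ?_, fun i j hij => ?_⟩
      · exact mul_nonneg hi.le (h1 i)
      · show r⁻¹ * y i ≤ 1
        rw [← inv_mul_cancel₀ h.ne']
        exact mul_le_mul_of_nonneg_left (h2 i) hi.le
      · exact mul_le_mul_of_nonneg_left (h3 i j hij) hi.le
    · rintro ⟨h1, h2, h3⟩
      refine ⟨fun i => ?_, fun i => ?_, fun i j hij => ?_⟩
      · have h4 : 0 ≤ r⁻¹ * y i := h1 i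
        exact (mul_nonneg_iff_of_pos_left hi).1 h4
      · have h4 : r⁻¹ * y i ≤ 1 := h2 i
        rw [inv_mul_le_iff₀ h, mul_one] at h4
        exact h4
      · have h4 : r⁻¹ * y i ≤ r⁻¹ * y j := h3 i j hij
        exact le_of_mul_le_mul_left h4 hi

theorem vol_srt (n : ℕ) {a b : ℝ} (hab : a ≤ b) :
    volume (srt n a b) = ENNReal.ofReal ((b - a) ^ n) * volume (srt n 0 1) := by
  have h1 : (fun y : Fin n → ℝ => y + fun _ => a) ⁻¹' srt n a b = srt n 0 (b - a) := by
    ext y
    constructor
    · rintro ⟨h1, h2, h3⟩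
      refine ⟨fun i => ?_, fun i => ?_, fun i j hij => ?_⟩
      · have h4 : a ≤ y i + a := h1 i
        linarith
      · have h4 : y i + a ≤ b := h2 i
        linarith
      · have h4 : y i + a ≤ y j + a := h3 i j hij
        linarith
    · rintro ⟨h1, h2, h3⟩
      refine ⟨fun i => ?_, fun i => ?_, fun i j hij => ?_⟩
      · show a ≤ y i + a
        have := h1 i
        linarith
      · show y i + a ≤ b
        have := h2 i
        linarith
      · show y i + a ≤ y j + a
        have := h3 i j hij
        linarith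
  rw [← measure_preimage_add_right volume (fun _ => a) (srt n a b), h1,
    srt_scale n (sub_nonneg.2 hab), Measure.addHaar_smul, Module.finrank_fintype_fun_eq_card,
    Fintype.card_fin, abs_of_nonneg (pow_nonneg (sub_nonneg.2 hab) n)]

theorem real_srt (n : ℕ) {a b : ℝ} (h0 : 0 ≤ a) (hab : a ≤ b) (h1 : b ≤ 1) :
    (PV (Fin n)).real (srt n a b) = Cn n * (b - a) ^ n := by
  have key : ∀ a b : ℝ, 0 ≤ a → b ≤ 1 → (PV (Fin n)) (srt n a b) = volume (srt n a b) := by
    intro a b h0 h1
    rw [PV_eq, Measure.restrict_apply (meas_srt n a b), inter_eq_left.2]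
    rintro y ⟨h2, h3, -⟩ i -
    exact ⟨h0.trans (h2 i), (h3 i).trans h1⟩
  unfold Cn Measure.real
  rw [key a b h0 h1, key 0 1 le_rfl le_rfl, vol_srt n hab, ENNReal.toReal_mul,
    ENNReal.toReal_ofReal (pow_nonneg (sub_nonneg.2 hab) n), mul_comm]

theorem Cn_one : Cn 1 = 1 := by
  have h2 : (PV (Fin 1)).real (srt 1 0 1) = (PV (Fin 1)).real univ := by
    refine congrArg ENNReal.toReal (measure_congr ?_)
    filter_upwards [ae_cub (V := Fin 1)] with u hu
    refine propext ⟨fun _ => trivial, fun _ => ⟨fun i => (hu i).1, fun i => (hu i).2, ?_⟩⟩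
    intro i j hij
    exact absurd hij (by omega)
  unfold Cn
  rw [h2]
  exact probReal_univ

/-- volume of the fillers below the lower tick `r` -/
theorem vj_fillL (M n : ℕ) (r : Fin (M + 1)) (τ : Gd M → ℝ) (h0 : 0 ≤ ccp M τ r)
    (hab : ccp M τ r ≤ cc M τ r) (h1 : cc M τ r ≤ 1) :
    vj (fillL M n r) τ = Cn n * (cc M τ r - ccp M τ r) ^ n := by
  have hr : cc M τ r = τ (Sum.inl r) := by
    unfold cc
    rw [ix_val r.2]
  rw [← real_srt n h0 hab h1]
  unfold vj
  refine congrArg ENNReal.toReal (measure_congr ?_)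
  filter_upwards [ae_cub (V := Fin n)] with u hu
  refine propext ⟨?_, ?_⟩
  · rintro ⟨h2, h3, h4⟩
    refine ⟨fun i => ?_, fun i => ?_, h4⟩
    · by_cases hz : r.val = 0
      · have e : ccp M τ r = 0 := if_pos hz
        rw [e]
        exact (hu i).1
      · have e : ccp M τ r = cc M τ (r.val - 1) := if_neg hz
        rw [e]
        exact h2 i _ (if_neg hz)
    · rw [hr]
      exact h3 i _ rfl
  · rintro ⟨h2, h3, h4⟩
    refine ⟨fun i g hg => ?_, fun i g hg => ?_, h4⟩
    · by_cases hz : r.val = 0
      · have hg' : (if r.val = 0 then none else some (Sum.inl (ix M (r.val - 1)))) = some g := hg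
        rw [if_pos hz] at hg'
        exact absurd hg' (by simp)
      · have hg' : (if r.val = 0 then none else some (Sum.inl (ix M (r.val - 1)))) = some g := hg
        rw [if_neg hz] at hg'
        have e : ccp M τ r = cc M τ (r.val - 1) := if_neg hz
        have h5 := h2 i
        rw [e] at h5
        rw [← Option.some.inj hg']
        exact h5
    · have e : Sum.inl r = g := Option.some.inj hg
      rw [← e, ← hr]
      exact h3 i

/-- volume of the fillers above the upper tick `r` -/
theorem vj_fillR (M n : ℕ) (r : Fin (M + 1)) (τ : Gd M → ℝ) (h0 : 0 ≤ ddp M τ r)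
    (hab : ddp M τ r ≤ dd M τ r) (h1 : dd M τ r ≤ 1) :
    vj (fillR M n r) τ = Cn n * (dd M τ r - ddp M τ r) ^ n := by
  have hr : dd M τ r = 1 - τ (Sum.inr r) := by
    unfold dd
    rw [ix_val r.2]
  have h5 := real_srt n (a := 1 - dd M τ r) (b := 1 - ddp M τ r) (by linarith) (by linarith)
    (by linarith)
  have h6 : (1 - ddp M τ r) - (1 - dd M τ r) = dd M τ r - ddp M τ r := by ring
  rw [h6] at h5
  rw [← h5]
  unfold vj
  refine congrArg ENNReal.toReal (measure_congr ?_)
  filter_upwards [ae_cub (V := Fin n)] with u hu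
  refine propext ⟨?_, ?_⟩
  · rintro ⟨h2, h3, h4⟩
    refine ⟨fun i => ?_, fun i => ?_, h4⟩
    · have h7 : τ (Sum.inr r) ≤ u i := h2 i _ rfl
      linarith
    · by_cases hz : r.val = 0
      · have e : ddp M τ r = 0 := if_pos hz
        rw [e, sub_zero]
        exact (hu i).2
      · have e : ddp M τ r = dd M τ (r.val - 1) := if_neg hz
        rw [e]
        have h7 : u i ≤ τ (Sum.inr (ix M (r.val - 1))) := h3 i _ (if_neg hz)
        unfold dd
        linarith
  · rintro ⟨h2, h3, h4⟩
    refine ⟨fun i g hg => ?_, fun i g hg => ?_, h4⟩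
    · have e : Sum.inr r = g := Option.some.inj hg
      rw [← e]
      have h7 := h2 i
      linarith
    · by_cases hz : r.val = 0
      · have hg' : (if r.val = 0 then none else some (Sum.inr (ix M (r.val - 1)))) = some g := hg
        rw [if_pos hz] at hg'
        exact absurd hg' (by simp)
      · have hg' : (if r.val = 0 then none else some (Sum.inr (ix M (r.val - 1)))) = some g := hg
        rw [if_neg hz] at hg'
        have e : ddp M τ r = dd M τ (r.val - 1) := if_neg hz
        have h7 := h3 i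
        rw [e] at h7
        unfold dd at h7
        rw [← Option.some.inj hg']
        linarith

/-- volume of a padding element -/
theorem vj_padD (M z : ℕ) (τ : Gd M → ℝ) (h0 : 0 ≤ cc M τ z) (h1 : cc M τ z ≤ 1) :
    vj (padD M z) τ = 1 - cc M τ z := by
  have e : fb (padD M z) τ = univ.pi fun _ : Unit => Ici (cc M τ z) := by
    ext y
    simp only [mem_univ_pi, mem_Ici]
    constructor
    · rintro ⟨h2, -, -⟩ i
      exact h2 i _ rfl
    · intro h
      refine ⟨fun i g hg => ?_, fun i g hg => ?_, fun i j hij => hij.elim⟩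
      · have e : Sum.inl (ix M z) = g := Option.some.inj hg
        rw [← e]
        exact h i
      · exact absurd hg (by simp [padD])
  have e2 : Ici (cc M τ z) ∩ Icc 0 1 = Icc (cc M τ z) 1 := by
    ext t
    simp only [mem_inter_iff, mem_Ici, mem_Icc]
    exact ⟨fun h => ⟨h.1, h.2.2⟩, fun h => ⟨h.1, h0.trans h.1, h.2⟩⟩
  unfold vj Measure.real PV
  rw [e, Measure.pi_pi]
  simp only [Finset.univ_unique, Finset.prod_singleton]
  unfold lam
  rw [Measure.restrict_apply measurableSet_Ici, e2, Real.volume_Icc,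
    ENNReal.toReal_ofReal (sub_nonneg.2 h1)]

end Pool.Agent.T1K
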