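import Mathlib
import Pool.Agent.T1K.Fill
import Pool.Agent.T1K.Conc

/-!
# The weight of the clock of the poset
-/

set_option autoImplicit false

namespace Pool.Agent.T1K

open MeasureTheory Set Pool.Agent.Helper73.KS

theorem inc_ccp (M : ℕ) (τ : Gd M → ℝ) (r : ℕ) : inc (cc M τ) r = cc M τ r - ccp M τ r := rfl

theorem inc_ddp (M : ℕ) (τ : Gd M → ℝ) (r : ℕ) : inc (dd M τ) r = dd M τ r - ddp M τ r := rfl

theorem ccp_nonneg {M : ℕ} {τ : Gd M → ℝ} (h : τ ∈ cub (Gd M)) (r : ℕ) : 0 ≤ ccp M τ r := by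
  unfold ccp
  split
  · exact le_rfl
  · exact (cc_mem h _).1

theorem ddp_nonneg {M : ℕ} {τ : Gd M → ℝ} (h : τ ∈ cub (Gd M)) (r : ℕ) : 0 ≤ ddp M τ r := by
  unfold ddp
  split
  · exact le_rfl
  · exact (dd_mem h _).1

namespace Shape

variable (P : Shape)

/-- constant of the fillers -/
noncomputable def Cst : ℝ := (∏ r, Cn (P.nl r)) * ∏ r, Cn (P.nu r)

theorem Cst_pos : 0 < P.Cst :=
  mul_pos (Finset.prod_pos fun _ _ => Cn_pos _) (Finset.prod_pos fun _ _ => Cn_pos _)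

/-- **The weight of the clock**, for admissible positions. -/
theorem wt_eq {nL nR : ℕ → ℕ} (hl : ∀ r, P.nl r = nL r.val) (hr : ∀ r, P.nu r = nR r.val)
    (star : ∀ b, ∀ τ ∈ cub (Gd P.M), vj (starD P.M (P.T b) (P.S b)) τ =
      Vol (cc P.M τ) (dd P.M τ) (P.T b) (P.S b))
    {τ : Gd P.M → ℝ} (ht : τ ∈ dom P.M) :
    wt (Rg P.M) P.Dt τ = P.Cst * ((∏ i, spr P.M i τ ^ nn P.M nL nR i) *
      ((∏ b, Vol (cc P.M τ) (dd P.M τ) (P.T b) (P.S b)) *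
        ∏ i, (1 - cc P.M τ (P.ex i).val))) := by
  have e1 : ∀ r : Fin (P.M + 1), vj (P.Dt (Sum.inl (Sum.inl r))) τ =
      Cn (P.nl r) * spr P.M (Sum.inl r) τ ^ nn P.M nL nR (Sum.inl r) := by
    intro r
    have h1 := vj_fillL P.M (P.nl r) r τ (ccp_nonneg ht.2 _)
      (sub_nonneg.1 (spr_mem ht (Sum.inl r)).1) (cc_mem ht.2 _).2
    have h2 : nn P.M nL nR (Sum.inl r) = P.nl r := (hl r).symm
    rw [h2]
    exact h1
  have e2 : ∀ r : Fin (P.M + 1), vj (P.Dt (Sum.inl (Sum.inr r))) τ =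
      Cn (P.nu r) * spr P.M (Sum.inr r) τ ^ nn P.M nL nR (Sum.inr r) := by
    intro r
    have h1 := vj_fillR P.M (P.nu r) r τ (ddp_nonneg ht.2 _)
      (sub_nonneg.1 (spr_mem ht (Sum.inr r)).1) (dd_mem ht.2 _).2
    have h2 : nn P.M nL nR (Sum.inr r) = P.nu r := (hr r).symm
    rw [h2]
    exact h1
  have e3 : ∀ b : Fin P.N, vj (P.Dt (Sum.inr (Sum.inl b))) τ =
      Vol (cc P.M τ) (dd P.M τ) (P.T b) (P.S b) := fun b => star b τ ht.2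
  have e4 : ∀ i : Fin P.s, vj (P.Dt (Sum.inr (Sum.inr i))) τ = 1 - cc P.M τ (P.ex i).val :=
    fun i => vj_padD P.M (P.ex i).val τ (cc_mem ht.2 _).1 (cc_mem ht.2 _).2
  unfold wt
  rw [if_pos ht.1, Fintype.prod_sum_type, Fintype.prod_sum_type, Fintype.prod_sum_type,
    Fintype.prod_sum_type, Finset.prod_congr rfl fun r _ => e1 r,
    Finset.prod_congr rfl fun r _ => e2 r, Finset.prod_congr rfl fun b _ => e3 b,
    Finset.prod_congr rfl fun i _ => e4 i, Finset.prod_mul_distrib, Finset.prod_mul_distrib]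
  unfold Cst
  ring

/-- **Concentration of the clock of the poset**, for a function `F` which is the product of the
volumes on the admissible positions. -/
theorem conc_wt_of {c0 : ℕ → ℝ} {hm : ℝ} (H : Tgt P.M c0 hm) {F : (Gd P.M → ℝ) → ℝ}
    (hF : ∀ τ ∈ dom P.M, F τ = (∏ b, Vol (cc P.M τ) (dd P.M τ) (P.T b) (P.S b)) *
      ∏ i, (1 - cc P.M τ (P.ex i).val))
    (star : ∀ b, ∀ τ ∈ cub (Gd P.M), vj (starD P.M (P.T b) (P.S b)) τ =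
      Vol (cc P.M τ) (dd P.M τ) (P.T b) (P.S b))
    (hFn : ∀ τ, 0 ≤ F τ) (hF0 : 0 < F (tgt P.M c0)) (hFm : Measurable F)
    (hF1 : ∀ τ ∈ dom P.M, F τ ≤ 1)
    (hmid : ∀ τ ∈ dom P.M, F τ * F (tgt P.M c0) ≤ F (md (tgt P.M c0) τ) ^ 2)
    {RL RR : ℕ → ℝ}
    (htan : ∀ τ ∈ dom P.M, F τ ≤ F (tgt P.M c0) * Real.exp
      (-(∑ z ∈ Finset.range (P.M + 1), (cc P.M τ z - c0 z) * RL z +
        ∑ z ∈ Finset.range (P.M + 1), (dd P.M τ z - c0 z) * RR z)))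
    {nL nR : ℕ → ℕ} (hl : ∀ r, P.nl r = nL r.val) (hr : ∀ r, P.nu r = nR r.val)
    (hnL : ∀ r ≤ P.M, |(nL r : ℝ) - inc c0 r * ∑ z ∈ Finset.Ico r (P.M + 1), RL z| ≤ 1)
    (hnR : ∀ r ≤ P.M, |(nR r : ℝ) - inc c0 r * ∑ z ∈ Finset.Ico r (P.M + 1), RR z| ≤ 1)
    {m : ℝ} (hm0 : 0 ≤ m) (hmL : ∀ r ≤ P.M, m ≤ nL r) (hmR : ∀ r ≤ P.M, m ≤ nR r)
    {δ : ℝ} (hδ : 0 ≤ δ) :
    ∫ τ in (nbh P.M c0 δ)ᶜ, wt (Rg P.M) P.Dt τ ∂(PV (Gd P.M)) ≤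
      Real.exp ((P.M + 1) / hm - m * δ ^ 2 / (8 * (P.M + 1))) * 2 ^ (2 * (P.M + 1)) *
        ∫ τ, wt (Rg P.M) P.Dt τ ∂(PV (Gd P.M)) := by
  refine conc H hFn hF0 hFm hF1 hmid htan hnL hnR hm0 hmL hmR P.Cst_pos.le ?_ ?_
    (meas_wt (Rg P.M) P.Dt) (wt_nonneg (Rg P.M) P.Dt) hδ
  · intro τ hτ
    rw [P.wt_eq hl hr star hτ, hF τ hτ]
  · intro τ hτ
    unfold wt
    rw [if_neg hτ]

/-- the total weight is positive -/
theorem int_wt_pos : 0 < ∫ τ, wt (Rg P.M) P.Dt τ ∂(PV (Gd P.M)) := by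
  rw [← vol_cone, ← P.rel_eq]
  exact cn_pos P.rel_ht

end Shape

end Pool.Agent.T1K
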