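import Mathlib
import Pool.Agent.T1K.Avg
import Pool.Agent.T1K.Lip
import Pool.Agent.T1K.WtEq

/-!
# Probabilities in the poset are close to the probabilities at the target
-/

set_option autoImplicit false

namespace Pool.Agent.T1K

open MeasureTheory Set Pool.Agent.Helper73.KS

section

variable {Gd J : Type} [Fintype Gd] [Fintype J] {Γ : J → Type} [∀ j, Fintype (Γ j)]
variable (D : ∀ j, GData Gd (Γ j))

theorem qPair_near (a b : J) (e : Γ a) (e' : Γ b) {τ t0 : Gd → ℝ} {δ : ℝ} (hδ : 0 ≤ δ)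
    (h : ∀ g, |τ g - t0 g| ≤ δ) (h0 : 0 < vj (D a) t0) (h0' : 0 < vj (D b) t0) :
    |qPair D a b e e' τ - qPair D a b e e' t0| ≤
      4 * Fintype.card (Γ a) * δ / vj (D a) t0 + 4 * Fintype.card (Γ b) * δ / vj (D b) t0 := by
  refine (law_pair (D a) (D b) e e' τ t0 h0 h0').trans (add_le_add ?_ ?_)
  · refine div_le_div_of_nonneg_right ?_ h0.le
    have := dd1_le (D a) hδ h
    linarith
  · refine div_le_div_of_nonneg_right ?_ h0'.le
    have := dd1_le (D b) hδ h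
    linarith

theorem qOne_near (a : J) (e : Γ a) (g : Gd) {τ t0 : Gd → ℝ} {δ : ℝ} (hδ : 0 ≤ δ)
    (h : ∀ g, |τ g - t0 g| ≤ δ) (h0 : 0 < vj (D a) t0) :
    |qOne D a e g τ - qOne D a e g t0| ≤
      (4 * Fintype.card (Γ a) * δ + δ) / vj (D a) t0 := by
  have h1 := law_one (D a) {y | y e < τ g} τ t0 h0
  have e1 : ∀ σ : Gd → ℝ, ∀ s : ℝ, {y | y ∈ fb (D a) σ ∧ y e < s} =
      fb (D a) σ ∩ {y | y e < s} := fun _ _ => rfl
  have h2 : |(PV (Γ a)).real (fb (D a) t0 ∩ {y | y e < τ g}) -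
      (PV (Γ a)).real (fb (D a) t0 ∩ {y | y e < t0 g})| ≤ δ := by
    have h3 : (PV (Γ a)).real {y : Γ a → ℝ | y e ∈ Icc (τ g) (t0 g)} ≤ δ :=
      (PV_coord_Icc e _ _).trans (h g)
    have h4 : (PV (Γ a)).real {y : Γ a → ℝ | y e ∈ Icc (t0 g) (τ g)} ≤ δ :=
      (PV_coord_Icc e _ _).trans (by rw [abs_sub_comm]; exact h g)
    rw [abs_le]
    constructor
    · have h5 : (PV (Γ a)).real (fb (D a) t0 ∩ {y | y e < t0 g}) ≤
          (PV (Γ a)).real (fb (D a) t0 ∩ {y | y e < τ g}) +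
          (PV (Γ a)).real {y : Γ a → ℝ | y e ∈ Icc (τ g) (t0 g)} := by
        refine (measureReal_mono (fun y hy => ?_) (measure_ne_top _ _)).trans
          (measureReal_union_le _ _)
        by_cases h6 : y e < τ g
        · exact Or.inl ⟨hy.1, h6⟩
        · exact Or.inr ⟨not_lt.1 h6, le_of_lt hy.2⟩
      linarith
    · have h5 : (PV (Γ a)).real (fb (D a) t0 ∩ {y | y e < τ g}) ≤
          (PV (Γ a)).real (fb (D a) t0 ∩ {y | y e < t0 g}) +
          (PV (Γ a)).real {y : Γ a → ℝ | y e ∈ Icc (t0 g) (τ g)} := by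
        refine (measureReal_mono (fun y hy => ?_) (measure_ne_top _ _)).trans
          (measureReal_union_le _ _)
        by_cases h6 : y e < t0 g
        · exact Or.inl ⟨hy.1, h6⟩
        · exact Or.inr ⟨not_lt.1 h6, le_of_lt hy.2⟩
      linarith
  have h3 : |(PV (Γ a)).real (fb (D a) t0 ∩ {y | y e < τ g}) / vj (D a) t0 -
      (PV (Γ a)).real (fb (D a) t0 ∩ {y | y e < t0 g}) / vj (D a) t0| ≤ δ / vj (D a) t0 := by
    rw [← sub_div, abs_div, abs_of_pos h0]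
    exact div_le_div_of_nonneg_right h2 h0.le
  have h4 : 2 * dd1 (D a) τ t0 / vj (D a) t0 ≤ 4 * Fintype.card (Γ a) * δ / vj (D a) t0 := by
    refine div_le_div_of_nonneg_right ?_ h0.le
    have := dd1_le (D a) hδ h
    linarith
  unfold qOne
  rw [e1, e1, add_div]
  refine (abs_sub_le _ ((PV (Γ a)).real (fb (D a) t0 ∩ {y | y e < τ g}) / vj (D a) t0) _).trans ?_
  exact add_le_add (h1.trans h4) h3

end

namespace Shape

variable (P : Shape)

/-- members of different groups -/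
theorem pair_near {c0 : ℕ → ℝ} {δ A : ℝ} (hδ : 0 ≤ δ)
    (hN : ∫ τ in (nbh P.M c0 δ)ᶜ, wt (Rg P.M) P.Dt τ ∂(PV (Gd P.M)) ≤
      A * ∫ τ, wt (Rg P.M) P.Dt τ ∂(PV (Gd P.M)))
    {a b : P.Grp} (hab : a ≠ b) (e : P.Mem a) (e' : P.Mem b)
    (h0 : 0 < vj (P.Dt a) (tgt P.M c0)) (h0' : 0 < vj (P.Dt b) (tgt P.M c0)) :
    |pv P.Rel (Sum.inr ⟨a, e⟩) (Sum.inr ⟨b, e'⟩) - qPair P.Dt a b e e' (tgt P.M c0)| ≤
      A + (4 * Fintype.card (P.Mem a) * δ / vj (P.Dt a) (tgt P.M c0) +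
        4 * Fintype.card (P.Mem b) * δ / vj (P.Dt b) (tgt P.M c0)) := by
  rw [P.rel_eq]
  refine pv_pair_close (Rg P.M) P.Dt hab e e' (meas_nbh P.M c0 δ) hN P.int_wt_pos ?_
    (qPair_mem P.Dt a b e e' _) ?_
  · intro τ hτ _
    exact qPair_near P.Dt a b e e' hδ (fun g => (hτ g).le) h0 h0'
  · positivity

/-- a member against a tick -/
theorem one_near {c0 : ℕ → ℝ} {δ A : ℝ} (hδ : 0 ≤ δ)
    (hN : ∫ τ in (nbh P.M c0 δ)ᶜ, wt (Rg P.M) P.Dt τ ∂(PV (Gd P.M)) ≤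
      A * ∫ τ, wt (Rg P.M) P.Dt τ ∂(PV (Gd P.M)))
    {a : P.Grp} (e : P.Mem a) (g : Gd P.M) (h0 : 0 < vj (P.Dt a) (tgt P.M c0)) :
    |pv P.Rel (Sum.inr ⟨a, e⟩) (Sum.inl g) - qOne P.Dt a e g (tgt P.M c0)| ≤
      A + (4 * Fintype.card (P.Mem a) * δ + δ) / vj (P.Dt a) (tgt P.M c0) := by
  rw [P.rel_eq]
  refine pv_one_close (Rg P.M) P.Dt e g (meas_nbh P.M c0 δ) hN P.int_wt_pos ?_
    (qOne_mem P.Dt a e g _) ?_
  · intro τ hτ _
    exact qOne_near P.Dt a e g hδ (fun g => (hτ g).le) h0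
  · positivity

end Shape

end Pool.Agent.T1K
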