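import Mathlib
import Pool.Agent.T1K.Link
import Pool.Agent.T1K.Poset

/-!
# T1: the kinds of incomparable pairs
-/

set_option autoImplicit false

namespace Pool.Agent.T1K

open Relation MeasureTheory Set Pool.Agent.Helper73.KS Pool.Agent.Helper1.Balance

section mono

variable {V : Type} [Fintype V] {R : V → V → Prop}

omit [Fintype V] in
private theorem cone_le {x y : V} (h : ReflTransGen R x y) {u : V → ℝ} (hu : u ∈ cn R) : u x ≤ u y := by
  rw [← cn_rtg] at hu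
  exact hu x y h

/-- the probability of `x < y` increases with `y` and decreases with `x` -/
theorem pv_mono2 {x x' y y' : V} (hx : ReflTransGen R x x') (hy : ReflTransGen R y y') :
    pv R x' y ≤ pv R x y' := by
  unfold pv
  refine div_le_div_of_nonneg_right (measureReal_mono ?_) measureReal_nonneg
  rintro u ⟨h1, h2⟩
  exact ⟨h1, lt_of_le_of_lt (cone_le hx h1) (lt_of_lt_of_le h2 (cone_le hy h1))⟩

private theorem pv_mono_r (x : V) {y y' : V} (hy : ReflTransGen R y y') : pv R x y ≤ pv R x y' :=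
  pv_mono2 ReflTransGen.refl hy

private theorem pv_mono_l {x x' : V} (y : V) (hx : ReflTransGen R x x') : pv R x' y ≤ pv R x y :=
  pv_mono2 hx ReflTransGen.refl

/-- comparable elements -/
theorem pv_eq_zero {x y : V} (h : ReflTransGen R y x) : pv R x y = 0 := by
  unfold pv
  have e : cn R ∩ evt x y = ∅ := by
    ext u
    constructor
    · rintro ⟨h1, h2⟩
      exact absurd (cone_le h h1) (not_le.2 h2)
    · exact fun h => h.elim
  rw [e]
  simp

/-- the pair `x, y` is balanced at most `B` -/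
def Unb (R : V → V → Prop) (B : ℝ) (x y : V) : Prop := pv R x y ≤ B ∨ pv R y x ≤ B

theorem Unb.symm {B : ℝ} {x y : V} (h : Unb R B x y) : Unb R B y x := Or.symm h

theorem Unb.of_le {B : ℝ} (hB : 0 ≤ B) {x y : V} (h : ReflTransGen R x y) : Unb R B x y := by
  right
  rw [pv_eq_zero h]
  exact hB

theorem Unb.of_ge {B : ℝ} (hB : 0 ≤ B) {x y : V} (h : ReflTransGen R y x) : Unb R B x y :=
  (Unb.of_le hB h).symm

end mono

namespace Shape

variable (P : Shape)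

/-- The list of the kinds of incomparable pairs, with the bounds needed. -/
structure Pairs (B : ℝ) : Prop where
  /-- clock, lower end tick -/
  cx_tl : ∀ b, pv P.Rel (P.cx b) (P.tl (Fin.last P.M)) ≤ B
  ll_tl : ∀ b z, z.1 ≠ P.M → pv P.Rel (P.ll b z) (P.tl (Fin.last P.M)) ≤ B
  lr_tl : ∀ b z, pv P.Rel (P.lr b z) (P.tl (Fin.last P.M)) ≤ B
  xe_tl : ∀ i, pv P.Rel (P.xe i) (P.tl (Fin.last P.M)) ≤ B
  /-- clock, upper end tick -/
  tu_cy : ∀ b, pv P.Rel (P.tu (Fin.last P.M)) (P.cy b) ≤ B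
  tu_lr : ∀ b z, z.1 ≠ P.M → pv P.Rel (P.tu (Fin.last P.M)) (P.lr b z) ≤ B
  tu_ll : ∀ b z, pv P.Rel (P.tu (Fin.last P.M)) (P.ll b z) ≤ B
  tu_xe : ∀ i, pv P.Rel (P.tu (Fin.last P.M)) (P.xe i) ≤ B
  /-- two species -/
  cx_cx : ∀ b b', b < b' → Unb P.Rel B (P.cx b) (P.cx b')
  cy_cy : ∀ b b', b < b' → Unb P.Rel B (P.cy b) (P.cy b')
  cx_cy : ∀ b b', b ≠ b' → Unb P.Rel B (P.cx b) (P.cy b')
  cx_ll : ∀ b b' z, b ≠ b' → Unb P.Rel B (P.cx b) (P.ll b' z)
  cx_lr : ∀ b b' z, b ≠ b' → Unb P.Rel B (P.cx b) (P.lr b' z)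
  cy_ll : ∀ b b' z, b ≠ b' → Unb P.Rel B (P.cy b) (P.ll b' z)
  cy_lr : ∀ b b' z, b ≠ b' → Unb P.Rel B (P.cy b) (P.lr b' z)
  ll_eq : ∀ b b' z z', b < b' → z.1 = z'.1 → Unb P.Rel B (P.ll b z) (P.ll b' z')
  lr_eq : ∀ b b' z z', b < b' → z.1 = z'.1 → Unb P.Rel B (P.lr b z) (P.lr b' z')
  ll_lt : ∀ b b' z z', b ≠ b' → z.1 < z'.1 → Unb P.Rel B (P.ll b z) (P.ll b' z')
  lr_lt : ∀ b b' z z', b ≠ b' → z.1 < z'.1 → Unb P.Rel B (P.lr b z) (P.lr b' z')
  lr_ll : ∀ b b' z z', b ≠ b' → Unb P.Rel B (P.lr b z) (P.ll b' z')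
  /-- one species -/
  same_ll : ∀ b z z', z.1 < z'.1 → Unb P.Rel B (P.ll b z) (P.ll b z')
  same_lr : ∀ b z z', z.1 < z'.1 → Unb P.Rel B (P.lr b z) (P.lr b z')
  same_lr_ll : ∀ b z z', Unb P.Rel B (P.lr b z) (P.ll b z')
  /-- extra elements -/
  xe_cx : ∀ i b, Unb P.Rel B (P.xe i) (P.cx b)
  xe_cy : ∀ i b, Unb P.Rel B (P.xe i) (P.cy b)
  xe_ll : ∀ i b z, Unb P.Rel B (P.xe i) (P.ll b z)
  xe_lr : ∀ i b z, Unb P.Rel B (P.xe i) (P.lr b z)
  xe_xe : ∀ i j, P.ex i < P.ex j → Unb P.Rel B (P.xe i) (P.xe j)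

theorem lc_last (a : P.LC) : ReflTransGen P.Rel (P.lc a) (P.tl (Fin.last P.M)) :=
  P.lc_tl a _ (Fin.le_last _)

theorem last_uc (a : P.UC) : ReflTransGen P.Rel (P.tu (Fin.last P.M)) (P.uc a) :=
  P.tu_uc a _ (Fin.le_last _)

theorem lc_uc (a : P.LC) (a' : P.UC) : ReflTransGen P.Rel (P.lc a) (P.uc a') :=
  (P.lc_last a).trans (ReflTransGen.head Rel.mid (P.last_uc a'))

variable {P}

theorem Pairs.lc_cx {B : ℝ} (h : P.Pairs B) (a : P.LC) (b : Fin P.N) :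
    Unb P.Rel B (P.lc a) (P.cx b) :=
  Or.inr ((pv_mono_r _ (P.lc_last a)).trans (h.cx_tl b))

theorem Pairs.lc_leaf {B : ℝ} (hB : 0 ≤ B) (h : P.Pairs B) (a : P.LC) (e : P.Leaf) :
    Unb P.Rel B (P.lc a) (P.leaf e) := by
  rcases e with ⟨b, (z | z)⟩ | i
  · by_cases hz : z.1 = P.M
    · exact Unb.of_le hB (P.lc_ll b z hz a)
    · exact Or.inr ((pv_mono_r _ (P.lc_last a)).trans (h.ll_tl b z hz))
  · exact Or.inr ((pv_mono_r _ (P.lc_last a)).trans (h.lr_tl b z))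
  · exact Or.inr ((pv_mono_r _ (P.lc_last a)).trans (h.xe_tl i))

theorem Pairs.uc_cy {B : ℝ} (h : P.Pairs B) (a : P.UC) (b : Fin P.N) :
    Unb P.Rel B (P.uc a) (P.cy b) :=
  Or.inl ((pv_mono_l _ (P.last_uc a)).trans (h.tu_cy b))

theorem Pairs.uc_leaf {B : ℝ} (hB : 0 ≤ B) (h : P.Pairs B) (a : P.UC) (e : P.Leaf) :
    Unb P.Rel B (P.uc a) (P.leaf e) := by
  rcases e with ⟨b, (z | z)⟩ | i
  · exact Or.inl ((pv_mono_l _ (P.last_uc a)).trans (h.tu_ll b z))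
  · by_cases hz : z.1 = P.M
    · exact Unb.of_ge hB (P.lr_uc b z hz a)
    · exact Or.inl ((pv_mono_l _ (P.last_uc a)).trans (h.tu_lr b z hz))
  · exact Or.inl ((pv_mono_l _ (P.last_uc a)).trans (h.tu_xe i))

theorem Pairs.cx_leaf {B : ℝ} (hB : 0 ≤ B) (h : P.Pairs B) (b : Fin P.N) (e : P.Leaf) :
    Unb P.Rel B (P.cx b) (P.leaf e) := by
  rcases e with ⟨b', (z | z)⟩ | i
  · by_cases hb : b = b'
    · subst hb
      exact Unb.of_le hB (ReflTransGen.single (Rel.cx_ll b z))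
    · exact h.cx_ll b b' z hb
  · by_cases hb : b = b'
    · subst hb
      exact Unb.of_le hB (ReflTransGen.single (Rel.cx_lr b z))
    · exact h.cx_lr b b' z hb
  · exact (h.xe_cx i b).symm

theorem Pairs.cy_leaf {B : ℝ} (hB : 0 ≤ B) (h : P.Pairs B) (b : Fin P.N) (e : P.Leaf) :
    Unb P.Rel B (P.cy b) (P.leaf e) := by
  rcases e with ⟨b', (z | z)⟩ | i
  · by_cases hb : b = b'
    · subst hb
      exact Unb.of_ge hB (ReflTransGen.single (Rel.ll_cy b z))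
    · exact h.cy_ll b b' z hb
  · by_cases hb : b = b'
    · subst hb
      exact Unb.of_ge hB (ReflTransGen.single (Rel.lr_cy b z))
    · exact h.cy_lr b b' z hb
  · exact (h.xe_cy i b).symm

theorem Pairs.ll_ll {B : ℝ} (hB : 0 ≤ B) (h : P.Pairs B) (b b' : Fin P.N)
    (z : {z // z ∈ P.T b}) (z' : {z // z ∈ P.T b'}) : Unb P.Rel B (P.ll b z) (P.ll b' z') := by
  rcases lt_trichotomy z.1 z'.1 with hz | hz | hz
  · by_cases hb : b = b'
    · subst hb
      exact h.same_ll b z z' hz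
    · exact h.ll_lt b b' z z' hb hz
  · rcases lt_trichotomy b b' with hb | hb | hb
    · exact h.ll_eq b b' z z' hb hz
    · subst hb
      have : z = z' := Subtype.ext hz
      rw [this]
      exact Unb.of_le hB ReflTransGen.refl
    · exact (h.ll_eq b' b z' z hb hz.symm).symm
  · by_cases hb : b' = b
    · subst hb
      exact (h.same_ll b' z' z hz).symm
    · exact (h.ll_lt b' b z' z hb hz).symm

theorem Pairs.lr_lr {B : ℝ} (hB : 0 ≤ B) (h : P.Pairs B) (b b' : Fin P.N)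
    (z : {z // z ∈ P.S b}) (z' : {z // z ∈ P.S b'}) : Unb P.Rel B (P.lr b z) (P.lr b' z') := by
  rcases lt_trichotomy z.1 z'.1 with hz | hz | hz
  · by_cases hb : b = b'
    · subst hb
      exact h.same_lr b z z' hz
    · exact h.lr_lt b b' z z' hb hz
  · rcases lt_trichotomy b b' with hb | hb | hb
    · exact h.lr_eq b b' z z' hb hz
    · subst hb
      have : z = z' := Subtype.ext hz
      rw [this]
      exact Unb.of_le hB ReflTransGen.refl
    · exact (h.lr_eq b' b z' z hb hz.symm).symm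
  · by_cases hb : b' = b
    · subst hb
      exact (h.same_lr b' z' z hz).symm
    · exact (h.lr_lt b' b z' z hb hz).symm

theorem Pairs.lr_ll' {B : ℝ} (h : P.Pairs B) (b b' : Fin P.N)
    (z : {z // z ∈ P.S b}) (z' : {z // z ∈ P.T b'}) : Unb P.Rel B (P.lr b z) (P.ll b' z') := by
  by_cases hb : b = b'
  · subst hb
    exact h.same_lr_ll b z z'
  · exact h.lr_ll b b' z z' hb

theorem Pairs.leaf_leaf {B : ℝ} (hB : 0 ≤ B) (h : P.Pairs B) (hex : Function.Injective P.ex)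
    (e e' : P.Leaf) : Unb P.Rel B (P.leaf e) (P.leaf e') := by
  rcases e with ⟨b, (z | z)⟩ | i <;> rcases e' with ⟨b', (z' | z')⟩ | i'
  · exact h.ll_ll hB b b' z z'
  · exact (h.lr_ll' b' b z' z).symm
  · exact (h.xe_ll i' b z).symm
  · exact h.lr_ll' b b' z z'
  · exact h.lr_lr hB b b' z z'
  · exact (h.xe_lr i' b z).symm
  · exact h.xe_ll i b' z'
  · exact h.xe_lr i b' z'
  · rcases lt_trichotomy (P.ex i) (P.ex i') with hi | hi | hi
    · exact h.xe_xe i i' hi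
    · rw [hex hi]
      exact Unb.of_le hB ReflTransGen.refl
    · exact (h.xe_xe i' i hi).symm

/-- **All pairs.** -/
theorem Pairs.all {B : ℝ} (hB : 0 ≤ B) (h : P.Pairs B) (hex : Function.Injective P.ex)
    (hT : ∀ b, P.M ∈ P.T b) (hS : ∀ b, P.M ∈ P.S b) (x y : P.V) : Unb P.Rel B x y := by
  have hcy : ∀ (a : P.LC) b, ReflTransGen P.Rel (P.lc a) (P.cy b) := fun a b =>
    (P.lc_ll b ⟨P.M, hT b⟩ rfl a).tail (Rel.ll_cy b _)
  have hcx : ∀ (a : P.UC) b, ReflTransGen P.Rel (P.cx b) (P.uc a) := fun a b =>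
    ReflTransGen.head (Rel.cx_lr b ⟨P.M, hS b⟩) (P.lr_uc b ⟨P.M, hS b⟩ rfl a)
  have hxy : ∀ b, ReflTransGen P.Rel (P.cx b) (P.cy b) := fun b =>
    ReflTransGen.head (Rel.cx_ll b ⟨P.M, hT b⟩) (ReflTransGen.single (Rel.ll_cy b ⟨P.M, hT b⟩))
  have hcc : ∀ b b', Unb P.Rel B (P.cx b) (P.cy b') := by
    intro b b'
    by_cases hb : b = b'
    · subst hb
      exact Unb.of_le hB (hxy b)
    · exact h.cx_cy b b' hb
  rcases P.cases_V x with ⟨a, rfl⟩ | ⟨a, rfl⟩ | ⟨b, rfl⟩ | ⟨b, rfl⟩ | ⟨a, rfl⟩ <;>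
    rcases P.cases_V y with ⟨a', rfl⟩ | ⟨a', rfl⟩ | ⟨b', rfl⟩ | ⟨b', rfl⟩ | ⟨a', rfl⟩
  · rcases P.lc_chain a a' with h1 | h1
    · exact Unb.of_le hB h1
    · exact Unb.of_ge hB h1
  · exact Unb.of_le hB (P.lc_uc a a')
  · exact h.lc_cx a b'
  · exact Unb.of_le hB (hcy a b')
  · exact h.lc_leaf hB a a'
  · exact Unb.of_ge hB (P.lc_uc a' a)
  · rcases P.uc_chain a a' with h1 | h1
    · exact Unb.of_le hB h1
    · exact Unb.of_ge hB h1
  · exact Unb.of_ge hB (hcx a b')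
  · exact h.uc_cy a b'
  · exact h.uc_leaf hB a a'
  · exact (h.lc_cx a' b).symm
  · exact Unb.of_le hB (hcx a' b)
  · rcases lt_trichotomy b b' with hb | hb | hb
    · exact h.cx_cx b b' hb
    · rw [hb]
      exact Unb.of_le hB ReflTransGen.refl
    · exact (h.cx_cx b' b hb).symm
  · exact hcc b b'
  · exact h.cx_leaf hB b a'
  · exact Unb.of_ge hB (hcy a' b)
  · exact (h.uc_cy a' b).symm
  · exact (hcc b' b).symm
  · rcases lt_trichotomy b b' with hb | hb | hb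
    · exact h.cy_cy b b' hb
    · rw [hb]
      exact Unb.of_le hB ReflTransGen.refl
    · exact (h.cy_cy b' b hb).symm
  · exact h.cy_leaf hB b a'
  · exact (h.lc_leaf hB a' a).symm
  · exact (h.uc_leaf hB a' a).symm
  · exact (h.cx_leaf hB b' a).symm
  · exact (h.cy_leaf hB b' a).symm
  · exact h.leaf_leaf hB hex a a'

/-- **The balance constant from the list of pairs.** -/
theorem deltaW_of_pairs {B : ℝ} (hB : 0 ≤ B) (h : P.Pairs B) (hex : Function.Injective P.ex)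
    (hN : 0 < P.N) (hT : ∀ b, P.M ∈ P.T b) (hS : ∀ b, P.M ∈ P.S b)
    (hg : ∀ b, ∃ z ∈ P.T b, z ≠ P.M) :
    deltaW ((∑ b : Fin P.N, ((P.T b).card + (P.S b).card)) + P.s) ≤ B :=
  deltaW_le P.rel_ht (P.width ⟨0, hN⟩ (hT _) (hS _) hg) hB
    fun x y _ _ => h.all hB hex hT hS x y

end Shape

end Pool.Agent.T1K
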