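import Mathlib
import Pool.Agent.T1K.Defs
import Pool.Agent.T1K.Tick
import Pool.Agent.T1K.Code
import Pool.Agent.T1K.Cases
import Pool.Agent.Helper19.T1.Final

/-!
# T1: the shapes of the construction and the reduction of the construction to the list of pairs
-/

set_option autoImplicit false

namespace Pool.Agent.T1K

open Pool.Agent.Helper1.Balance

/-- The shape with `N` species of letters `l b`, `R` slots, `s` extra elements above the ticks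
`R * 3 ^ 11 + i`, and the numbers `nl`, `nu` of fillers. -/
def Sh (R N s : ℕ) (l : ℕ → ℕ → ZMod 3) (nl nu : Fin (Mn R + 1) → ℕ) (hs : s < 2 * Kn R) :
    Shape where
  M := Mn R
  nl := nl
  nu := nu
  N := N
  T b := TL R (l b)
  S b := TL R (-l b)
  s := s
  ex i := ⟨R * 3 ^ 11 + i, by
    have h1 := i.2
    unfold Mn
    omega⟩
  hT _ _ h := Nat.lt_succ_of_le (TL_le h)
  hS _ _ h := Nat.lt_succ_of_le (TL_le h)

theorem Kn_ge' {R : ℕ} (hR : 1 ≤ R) : 8 ≤ Kn R := by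
  unfold Kn
  omega

theorem KM_ge' {R : ℕ} (hR : 1 ≤ R) : (8 : ℝ) ≤ (Kn R : ℝ) * (Mn R : ℝ) := by
  have h1 : 8 ≤ Kn R * Mn R := by
    have h3 : 1 ≤ Mn R := by unfold Mn; omega
    calc 8 = 8 * 1 := rfl
      _ ≤ Kn R * Mn R := Nat.mul_le_mul (Kn_ge' hR) h3
  exact_mod_cast h1

/-- the gap -/
noncomputable def gapn (R : ℕ) : ℝ := hn R ^ 7 / 8

theorem gapn_ge {R : ℕ} (hR : 1 ≤ R) : 1 / ((Kn R : ℝ) * (Mn R : ℝ)) ^ 113 ≤ gapn R := by
  have h := KM_ge' hR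
  obtain ⟨x, hx⟩ : ∃ x, x = (Kn R : ℝ) * (Mn R : ℝ) := ⟨_, rfl⟩
  rw [← hx] at h
  have hx0 : 0 < x := by linarith
  unfold gapn hn
  rw [← hx, div_pow, one_pow, ← pow_mul, div_div, div_le_div_iff₀ (by positivity) (by positivity),
    one_mul, one_mul]
  calc x ^ (16 * 7) * 8 ≤ x ^ (16 * 7) * x := mul_le_mul_of_nonneg_left h (by positivity)
    _ = x ^ 113 := by ring

theorem gapn_le_half {R : ℕ} (hR : 1 ≤ R) : gapn R ≤ 1 / 2 := by
  have h := KM_ge' hR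
  have h1 : hn R ≤ 1 := by
    unfold hn
    rw [div_le_one (by positivity)]
    exact one_le_pow₀ (by linarith)
  have h0 : 0 ≤ hn R := by
    unfold hn
    positivity
  have h2 : hn R ^ 7 ≤ 1 := pow_le_one₀ h0 h1
  unfold gapn
  linarith

/-- The statement of the geometric part: the pairs of the shapes are balanced at most
`1 / 2 - hn R ^ 7 / 8` for a suitable number of fillers. -/
def ShPairs (L0 : ℕ) : Prop :=
  ∀ (L q N s : ℕ) (l : ℕ → ℕ → ZMod 3) (hs : s < 2 * Kn (L * q ^ 2)), L0 ≤ L → 1 ≤ L →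
    16 + 8 * L ^ 2 ≤ q → q ≤ 3 * (16 + 8 * L ^ 2) → 2 ^ (L / 2) ≤ N → N ≤ 2 ^ L →
    (∀ b b', b < b' → b' < N → Pair (L * q ^ 2) q (l b) (l b')) →
    ∃ nl nu, (Sh (L * q ^ 2) N s l nl nu hs).Pairs (1 / 2 - hn (L * q ^ 2) ^ 7 / 8)

/-- the balance constants at the widths `2 K N + s` -/
theorem deltaW_Sh {R N s : ℕ} {l : ℕ → ℕ → ZMod 3} {nl nu : Fin (Mn R + 1) → ℕ}
    {hs : s < 2 * Kn R} (hR : 1 ≤ R) (hN : 1 ≤ N)
    (h : (Sh R N s l nl nu hs).Pairs (1 / 2 - hn R ^ 7 / 8)) :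
    deltaW (2 * Kn R * N + s) ≤ 1 / 2 - gapn R := by
  change (Sh R N s l nl nu hs).Pairs (1 / 2 - gapn R) at h
  have hB : 0 ≤ 1 / 2 - gapn R := by linarith [gapn_le_half hR]
  have hex : Function.Injective (Sh R N s l nl nu hs).ex := by
    intro i j hij
    have h1 : R * 3 ^ 11 + (i : ℕ) = R * 3 ^ 11 + (j : ℕ) := congrArg Fin.val hij
    apply Fin.ext
    omega
  have hg : ∀ b, ∃ z ∈ (Sh R N s l nl nu hs).T b, z ≠ (Sh R N s l nl nu hs).M := by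
    intro b
    change ∃ z ∈ TL R (l b), z ≠ Mn R
    have h1 : 1 < (TL R (l b)).card := by
      rw [TL_card]
      unfold Kn
      omega
    exact Finset.exists_mem_ne h1 _
  have h1 := Shape.deltaW_of_pairs (P := Sh R N s l nl nu hs) hB h hex hN
    (fun b => Mn_mem R (l b)) (fun b => Mn_mem R (-l b)) hg
  have h2 : (∑ b : Fin (Sh R N s l nl nu hs).N, (((Sh R N s l nl nu hs).T b).card +
      ((Sh R N s l nl nu hs).S b).card)) + (Sh R N s l nl nu hs).s = 2 * Kn R * N + s := by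
    change (∑ b : Fin N, ((TL R (l b)).card + (TL R (-l b)).card)) + s = _
    rw [Finset.sum_congr rfl fun b _ => by rw [TL_card, TL_card], Finset.sum_const,
      Finset.card_univ, Fintype.card_fin, smul_eq_mul]
    ring
  rwa [h2] at h1

/-! ## Numerics -/

theorem Kn_le {R : ℕ} (hR : 1 ≤ R) : Kn R ≤ R * 3 ^ 11 := by
  unfold Kn
  have h : 1 ≤ R * 3 ^ 10 := by
    have : 0 < R * 3 ^ 10 := Nat.mul_pos hR (by positivity)
    omega
  have h2 : R * 3 ^ 11 = 3 * (R * 3 ^ 10) := by ring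
  omega

theorem Mn_le' {R : ℕ} (hR : 1 ≤ R) : Mn R ≤ R * 3 ^ 12 := by
  unfold Mn
  have h1 := Kn_le hR
  have h2 : R * 3 ^ 12 = R * 3 ^ 11 + 2 * (R * 3 ^ 11) := by ring
  omega

/-- **The construction from the list of pairs.** -/
theorem construct_of_pairs {L0 : ℕ} (H : ShPairs L0) : Pool.Agent.Helper19.T1.Construct := by
  obtain ⟨A, hA⟩ : ∃ A, A = 74 * 113 := ⟨_, rfl⟩
  refine ⟨A, L0 + 2, ?_⟩
  intro L hL
  obtain ⟨q, l, hq1, hq2, hl⟩ := exists_code (L := L) (by omega)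
  obtain ⟨R, hR⟩ : ∃ R, R = L * q ^ 2 := ⟨_, rfl⟩
  have hq0 : 1 ≤ q := by omega
  have hRL : L ≤ R := by
    rw [hR]
    exact Nat.le_mul_of_pos_right L (by positivity)
  have hR1 : 1 ≤ R := by omega
  have hL2 : 2 ≤ L := by omega
  have hqL : q ≤ 2 ^ 6 * L ^ 2 := by
    have h1 : 2 ^ 2 ≤ L ^ 2 := Nat.pow_le_pow_left hL2 2
    omega
  have hRu : R * 3 ^ 12 ≤ L ^ 37 := by
    calc R * 3 ^ 12 = L * q ^ 2 * 3 ^ 12 := by rw [hR]
      _ ≤ L * (2 ^ 6 * L ^ 2) ^ 2 * 2 ^ 20 := by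
          refine Nat.mul_le_mul (Nat.mul_le_mul_left _ (Nat.pow_le_pow_left hqL 2)) ?_
          norm_num
      _ = 2 ^ 32 * L ^ 5 := by ring
      _ ≤ L ^ 32 * L ^ 5 := Nat.mul_le_mul_right _ (Nat.pow_le_pow_left hL2 32)
      _ = L ^ 37 := by rw [← pow_add]
  have hK : Kn R ≤ L ^ 37 := by
    refine (Kn_le hR1).trans (le_trans ?_ hRu)
    exact Nat.mul_le_mul_left _ (Nat.pow_le_pow_right (by norm_num) (by norm_num))
  have hM : Mn R ≤ L ^ 37 := (Mn_le' hR1).trans hRu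
  refine ⟨Kn R, Nat.succ_pos _, hK.trans (Nat.pow_le_pow_right (by omega) (by omega)), ?_⟩
  intro N s hN1 hN2 hs
  have hN : 1 ≤ N := le_trans (Nat.one_le_two_pow) hN1
  rw [hR] at hs
  obtain ⟨nl, nu, h⟩ := H L q N s l hs (by omega) (by omega) hq1 hq2 hN1 hN2
    fun b b' hb hb' => hl b b' hb (lt_of_lt_of_le hb' hN2)
  rw [hR]
  refine (deltaW_Sh (by omega) hN h).trans ?_
  rw [← hR]
  have hgap : 1 / (L : ℝ) ^ A ≤ gapn R := by
    refine le_trans ?_ (gapn_ge hR1)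
    have hpos : (0 : ℝ) < (Kn R : ℝ) * (Mn R : ℝ) := by linarith [KM_ge' hR1]
    refine one_div_le_one_div_of_le (pow_pos hpos _) ?_
    have h1 : Kn R * Mn R ≤ L ^ 74 := by
      calc Kn R * Mn R ≤ L ^ 37 * L ^ 37 := Nat.mul_le_mul hK hM
        _ = L ^ 74 := by rw [← pow_add]
    have h2 : (Kn R * Mn R) ^ 113 ≤ L ^ A := by
      calc (Kn R * Mn R) ^ 113 ≤ (L ^ 74) ^ 113 := Nat.pow_le_pow_left h1 _
        _ = L ^ A := by rw [← pow_mul, hA]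
    exact_mod_cast h2
  linarith

/-- **The final statement from the list of pairs.** -/
theorem all_of_pairs {L0 : ℕ} (H : ShPairs L0) :
    ∃ C : ℝ, 1 ≤ C ∧
    (∀ ε : ℝ, 0 < ε → ε ≤ 1 / 2 → ∀ (n : ℕ) (r : Fin n → Fin n → Prop), IsPoset r →
      ∀ s : Finset (Fin n), IsAnti r s → (1 / ε) ^ (C / ε ^ 4) < s.card →
        ∃ x y : Fin n, ¬ r x y ∧ ¬ r y x ∧ |prob r x y - 1 / 2| < ε) ∧
    (∀ ε : ℝ, 0 < ε → ε ≤ 1 / 2 → ∀ (n : ℕ) (r : Fin n → Fin n → Prop), IsPoset r →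
      balance r ≤ 1 / 2 - ε → ∀ x : Fin n,
        (Nat.card {y : Fin n // ¬ r x y ∧ ¬ r y x} : ℝ) ≤ (1 / ε) ^ (C / ε ^ 4)) ∧
    (∀ w : ℕ, 16 ≤ w →
      1 / 2 - C * (Real.log (Real.log w) / Real.log w) ^ (1 / 4 : ℝ) ≤ deltaW w) ∧
    (∀ w : ℕ, 3 ≤ w → deltaW w ≤ 1 / 2 - 1 / (C * (Real.log w) ^ C)) ∧
    (∀ w w' : ℕ, Real.exp (C * (Real.log ((w : ℝ) + 3)) ^ C) ≤ w' →
      deltaW w < deltaW w') ∧
    (∀ w : ℕ, ∃ v : ℕ, w ≤ v ∧ (v : ℝ) ≤ Real.exp (C * (Real.log ((w : ℝ) + 3)) ^ C) ∧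
      ∀ u : ℕ, v < u → deltaW v < deltaW u) ∧
    Filter.Tendsto deltaW Filter.atTop (nhds (1 / 2)) :=
  Pool.Agent.Helper19.T1.all_of_construct (construct_of_pairs H)

end Pool.Agent.T1K
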