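import Mathlib
import Pool.Agent.T1K.Link

/-!
# Exchanging two elements of the poset
-/

set_option autoImplicit false

namespace Pool.Agent.T1K

open MeasureTheory Set Relation Pool.Agent.Helper73.KS

variable {V : Type}

/-- points of the cone of `R` respect the generated order -/
theorem cn_le {R : V → V → Prop} {u : V → ℝ} (hu : u ∈ cn R) {a b : V} (h : ReflTransGen R a b) :
    u a ≤ u b := by
  rw [← cn_rtg] at hu
  exact hu a b h

open Classical in
/-- the exchange of `x` and `y` stays in the cone -/
theorem swap_mem {R : V → V → Prop} {x y : V} (hyx : ¬ R y x)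
    (hA : ∀ a, R a x → ReflTransGen R a y) (hB : ∀ b, R y b → ReflTransGen R x b)
    {u : V → ℝ} (hu : u ∈ cn R) (h : u y < u x) : (fun v => u (Equiv.swap x y v)) ∈ cn R := by
  intro a b hab
  simp only
  by_cases ax : a = x
  · rw [ax, Equiv.swap_apply_left]
    rw [ax] at hab
    by_cases bx : b = x
    · rw [bx, Equiv.swap_apply_left]
    · by_cases b_y : b = y
      · rw [b_y, Equiv.swap_apply_right]
        exact h.le
      · rw [Equiv.swap_apply_of_ne_of_ne bx b_y]
        exact h.le.trans (hu _ _ hab)
  · by_cases ay : a = y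
    · rw [ay, Equiv.swap_apply_right]
      rw [ay] at hab
      by_cases bx : b = x
      · rw [bx] at hab
        exact absurd hab hyx
      · by_cases b_y : b = y
        · rw [b_y, Equiv.swap_apply_right]
        · rw [Equiv.swap_apply_of_ne_of_ne bx b_y]
          exact cn_le hu (hB _ hab)
    · rw [Equiv.swap_apply_of_ne_of_ne ax ay]
      by_cases bx : b = x
      · rw [bx, Equiv.swap_apply_left]
        rw [bx] at hab
        exact cn_le hu (hA _ hab)
      · by_cases b_y : b = y
        · rw [b_y, Equiv.swap_apply_right]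
          rw [b_y] at hab
          exact (hu _ _ hab).trans h.le
        · rw [Equiv.swap_apply_of_ne_of_ne bx b_y]
          exact hu _ _ hab

variable [Fintype V]

open Classical in
theorem mp_swap (x y : V) :
    MeasurePreserving (fun (u : V → ℝ) (v : V) => u (Equiv.swap x y v)) (PV V) (PV V) := by
  have := mp_relabel (V := V) (W := V) (Equiv.swap x y)
  rwa [Equiv.symm_swap] at this

/-- **Exchange, lower form**: `g` is below `y`. -/
theorem swap_lower {R : V → V → Prop} {x y g : V} (hyx : ¬ R y x)
    (hA : ∀ a, R a x → ReflTransGen R a y) (hB : ∀ b, R y b → ReflTransGen R x b)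
    (hg : ReflTransGen R g y) (gx : g ≠ x) (gy : g ≠ y) (h0 : 0 < (PV V).real (cn R)) :
    pv R y x + pv R x g ≤ pv R x y := by
  classical
  set E2 : Set (V → ℝ) := cn R ∩ evt x y ∩ {v | v g ≤ v x} with hE2
  have mE2 : MeasurableSet E2 := ((meas_cn R).inter (meas_evt x y)).inter
    (measurableSet_le (measurable_pi_apply g) (measurable_pi_apply x))
  have h1 : (PV V).real (cn R ∩ evt y x) ≤ (PV V).real E2 := by
    rw [← (mp_swap x y).measureReal_preimage mE2.nullMeasurableSet]
    refine measureReal_mono (fun u hu => ?_) (measure_ne_top _ _)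
    have hu2 : u y < u x := hu.2
    refine ⟨⟨swap_mem hyx hA hB hu.1 hu2, ?_⟩, ?_⟩
    · show u (Equiv.swap x y x) < u (Equiv.swap x y y)
      rw [Equiv.swap_apply_left, Equiv.swap_apply_right]
      exact hu2
    · show u (Equiv.swap x y g) ≤ u (Equiv.swap x y x)
      rw [Equiv.swap_apply_left, Equiv.swap_apply_of_ne_of_ne gx gy]
      exact cn_le hu.1 hg
  have h2 : (PV V).real E2 + (PV V).real (cn R ∩ evt x g) ≤ (PV V).real (cn R ∩ evt x y) := by
    rw [← measureReal_union ?_ ((meas_cn R).inter (meas_evt x g))]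
    · refine measureReal_mono (fun u hu => ?_) (measure_ne_top _ _)
      rcases hu with hu | hu
      · exact hu.1
      · refine ⟨hu.1, ?_⟩
        have h3 : u x < u g := hu.2
        exact lt_of_lt_of_le h3 (cn_le hu.1 hg)
    · rw [Set.disjoint_left]
      rintro u hu hu'
      have h3 : u g ≤ u x := hu.2
      have h4 : u x < u g := hu'.2
      exact absurd h3 (not_le.2 h4)
  unfold pv
  rw [← add_div]
  exact div_le_div_of_nonneg_right (by linarith) h0.le

/-- **Exchange, upper form**: `g` is above `x`. -/
theorem swap_upper {R : V → V → Prop} {x y g : V} (hyx : ¬ R y x)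
    (hA : ∀ a, R a x → ReflTransGen R a y) (hB : ∀ b, R y b → ReflTransGen R x b)
    (hg : ReflTransGen R x g) (gx : g ≠ x) (gy : g ≠ y) (h0 : 0 < (PV V).real (cn R)) :
    pv R y x + pv R g y ≤ pv R x y := by
  classical
  set E2 : Set (V → ℝ) := cn R ∩ evt x y ∩ {v | v y ≤ v g} with hE2
  have mE2 : MeasurableSet E2 := ((meas_cn R).inter (meas_evt x y)).inter
    (measurableSet_le (measurable_pi_apply y) (measurable_pi_apply g))
  have h1 : (PV V).real (cn R ∩ evt y x) ≤ (PV V).real E2 := by
    rw [← (mp_swap x y).measureReal_preimage mE2.nullMeasurableSet]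
    refine measureReal_mono (fun u hu => ?_) (measure_ne_top _ _)
    have hu2 : u y < u x := hu.2
    refine ⟨⟨swap_mem hyx hA hB hu.1 hu2, ?_⟩, ?_⟩
    · show u (Equiv.swap x y x) < u (Equiv.swap x y y)
      rw [Equiv.swap_apply_left, Equiv.swap_apply_right]
      exact hu2
    · show u (Equiv.swap x y y) ≤ u (Equiv.swap x y g)
      rw [Equiv.swap_apply_right, Equiv.swap_apply_of_ne_of_ne gx gy]
      exact cn_le hu.1 hg
  have h2 : (PV V).real E2 + (PV V).real (cn R ∩ evt g y) ≤ (PV V).real (cn R ∩ evt x y) := by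
    rw [← measureReal_union ?_ ((meas_cn R).inter (meas_evt g y))]
    · refine measureReal_mono (fun u hu => ?_) (measure_ne_top _ _)
      rcases hu with hu | hu
      · exact hu.1
      · refine ⟨hu.1, ?_⟩
        have h3 : u g < u y := hu.2
        exact lt_of_le_of_lt (cn_le hu.1 hg) h3
    · rw [Set.disjoint_left]
      rintro u hu hu'
      have h3 : u y ≤ u g := hu.2
      have h4 : u g < u y := hu'.2
      exact absurd h3 (not_le.2 h4)
  unfold pv
  rw [← add_div]
  exact div_le_div_of_nonneg_right (by linarith) h0.le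

/-- `P(x < f) ≤ P(x < g)` when `f ≤ g` -/
theorem pv_mono_right {R : V → V → Prop} {x f g : V} (h : ReflTransGen R f g) :
    pv R x f ≤ pv R x g := by
  unfold pv
  refine div_le_div_of_nonneg_right ?_ measureReal_nonneg
  refine measureReal_mono (fun u hu => ⟨hu.1, ?_⟩) (measure_ne_top _ _)
  exact lt_of_lt_of_le (show u x < u f from hu.2) (cn_le hu.1 h)

/-- `P(g < x) ≤ P(f < x)` when `f ≤ g` -/
theorem pv_mono_left {R : V → V → Prop} {x f g : V} (h : ReflTransGen R f g) :
    pv R g x ≤ pv R f x := by
  unfold pv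
  refine div_le_div_of_nonneg_right ?_ measureReal_nonneg
  refine measureReal_mono (fun u hu => ⟨hu.1, ?_⟩) (measure_ne_top _ _)
  exact lt_of_le_of_lt (cn_le hu.1 h) (show u g < u x from hu.2)

end Pool.Agent.T1K
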