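import Mathlib
import Pool.Agent.T1K.Refl
import Pool.Agent.T1K.Swap
import Pool.Agent.T1K.Asm

/-!
# T1: from the static inequalities at the target to the list of pairs
-/

set_option autoImplicit false

namespace Pool.Agent.T1K

open Relation MeasureTheory Set Pool.Agent.Helper73.KS

/-! ## Statics -/

/-- density of an extra element above the lower tick `p` -/
noncomputable def dE (c : ℕ → ℝ) (p : ℕ) : ℝ → ℝ := fun t => if c p < t then 1 else 0

/-- The inequalities at the target positions. -/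
structure Static (R : ℕ) : Prop where
  vol_pos : ∀ l : ℕ → ZMod 3, 0 < Vol (tk R) (tk R) (TL R l) (TL R (-l))
  vol_le : ∀ l : ℕ → ZMod 3, Vol (tk R) (tk R) (TL R l) (TL R (-l)) ≤ 1
  cdf_X : ∀ l : ℕ → ZMod 3, ∫ t in (0 : ℝ)..(tk R (Mn R)), dX (tk R) (tk R) (TL R l) (TL R (-l)) t
      ≤ 2 / 5 * Vol (tk R) (tk R) (TL R l) (TL R (-l))
  cdf_L : ∀ (l : ℕ → ZMod 3) (z : ℕ), z ∈ TL R l →
    ∫ t in (0 : ℝ)..(tk R (Mn R)), dL (tk R) (tk R) (TL R l) (TL R (-l)) z t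
      ≤ 2 / 5 * Vol (tk R) (tk R) (TL R l) (TL R (-l))
  cdf_L' : ∀ (l : ℕ → ZMod 3) (z : ℕ), z ∈ TL R l →
    ∫ t in (1 - tk R (Mn R))..1, dL (tk R) (tk R) (TL R l) (TL R (-l)) z t
      ≤ 2 / 5 * Vol (tk R) (tk R) (TL R l) (TL R (-l))
  main_X : ∀ (q : ℕ) (l l' : ℕ → ZMod 3), Pair R q l l' → hn R ^ 7 ≤
    Nf (dX (tk R) (tk R) (TL R l) (TL R (-l))) (dX (tk R) (tk R) (TL R l') (TL R (-l')))
  main_L : ∀ (q : ℕ) (l l' : ℕ → ZMod 3), Pair R q l l' → ∀ z, z ∈ TL R l → z ∈ TL R l' →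
    hn R ^ 7 ≤ Nf (dL (tk R) (tk R) (TL R l) (TL R (-l)) z)
      (dL (tk R) (tk R) (TL R l') (TL R (-l')) z)
  gap_LL : ∀ (l l' : ℕ → ZMod 3) (z z' : ℕ), z ∈ TL R l → z' ∈ TL R l' → z < z' →
    hn R ^ 7 ≤ Nf (dL (tk R) (tk R) (TL R l) (TL R (-l)) z)
      (dL (tk R) (tk R) (TL R l') (TL R (-l')) z')
  gap_RL : ∀ (l l' : ℕ → ZMod 3) (z z' : ℕ), z ∈ TL R (-l) → z' ∈ TL R l' →
    hn R ^ 7 ≤ Nf (dR (tk R) (tk R) (TL R l) (TL R (-l)) z)
      (dL (tk R) (tk R) (TL R l') (TL R (-l')) z')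
  gap_XL : ∀ (l l' : ℕ → ZMod 3) (z' : ℕ), z' ∈ TL R l' →
    hn R ^ 7 ≤ Nf (dX (tk R) (tk R) (TL R l) (TL R (-l)))
      (dL (tk R) (tk R) (TL R l') (TL R (-l')) z')
  gap_XR : ∀ (l l' : ℕ → ZMod 3) (z' : ℕ), z' ∈ TL R (-l') →
    hn R ^ 7 ≤ Nf (dX (tk R) (tk R) (TL R l) (TL R (-l)))
      (dR (tk R) (tk R) (TL R l') (TL R (-l')) z')
  gap_XY : ∀ (l l' : ℕ → ZMod 3), hn R ^ 7 ≤ Nf (dX (tk R) (tk R) (TL R l) (TL R (-l)))
      (dY (tk R) (tk R) (TL R l') (TL R (-l')))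
  tick_L : ∀ (l : ℕ → ZMod 3) (z z' : ℕ), z ∈ TL R l → z' ∈ TL R l → z < z' →
    hn R ^ 7 ≤ ∫ t in (0 : ℝ)..(tk R z'), dL (tk R) (tk R) (TL R l) (TL R (-l)) z t
  tick_R : ∀ (l : ℕ → ZMod 3) (z z' : ℕ), z ∈ TL R (-l) → z' ∈ TL R l →
    hn R ^ 7 ≤ ∫ t in (0 : ℝ)..(tk R z'), dR (tk R) (tk R) (TL R l) (TL R (-l)) z t
  pad_L : ∀ (l : ℕ → ZMod 3) (z p : ℕ), z ∈ TL R l → R * 3 ^ 11 ≤ p → p < Mn R →
    hn R ^ 7 ≤ Nf (dL (tk R) (tk R) (TL R l) (TL R (-l)) z) (dE (tk R) p)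
  pad_R : ∀ (l : ℕ → ZMod 3) (z p : ℕ), z ∈ TL R (-l) → R * 3 ^ 11 ≤ p → p < Mn R →
    hn R ^ 7 ≤ Nf (dR (tk R) (tk R) (TL R l) (TL R (-l)) z) (dE (tk R) p)
  pad_X : ∀ (l : ℕ → ZMod 3) (p : ℕ), R * 3 ^ 11 ≤ p → p < Mn R →
    hn R ^ 7 ≤ Nf (dX (tk R) (tk R) (TL R l) (TL R (-l))) (dE (tk R) p)
  pad_Y : ∀ (l : ℕ → ZMod 3) (p : ℕ), R * 3 ^ 11 ≤ p → p < Mn R →
    hn R ^ 7 ≤ Nf (dE (tk R) p) (dY (tk R) (tk R) (TL R l) (TL R (-l)))
  pad_pad : ∀ p p' : ℕ, R * 3 ^ 11 ≤ p → p < p' → p' < Mn R →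
    hn R ^ 7 ≤ Nf (dE (tk R) p) (dE (tk R) p')

/-! ## The probabilities are near their values at the target -/

namespace Shape

variable (P : Shape)

/-- density of a member of a species, or of an extra element -/
noncomputable def dens (c : ℕ → ℝ) : (j : Fin P.N ⊕ Fin P.s) → P.Mem (Sum.inr j) → ℝ → ℝ
  | Sum.inl b, m =>
      match (m : Bool ⊕ ({z // z ∈ P.T b} ⊕ {z // z ∈ P.S b})) with
      | Sum.inl false => dX c c (P.T b) (P.S b)
      | Sum.inl true => dY c c (P.T b) (P.S b)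
      | Sum.inr (Sum.inl z) => dL c c (P.T b) (P.S b) z.1
      | Sum.inr (Sum.inr z) => dR c c (P.T b) (P.S b) z.1
  | Sum.inr i, _ => dE c (P.ex i)

/-- volume of a species or of an extra element -/
noncomputable def volG (c : ℕ → ℝ) : Fin P.N ⊕ Fin P.s → ℝ
  | Sum.inl b => Vol c c (P.T b) (P.S b)
  | Sum.inr i => 1 - c (P.ex i)

/-- the element -/
def el (j : Fin P.N ⊕ Fin P.s) (e : P.Mem (Sum.inr j)) : P.V := Sum.inr ⟨Sum.inr j, e⟩

/-- The probabilities of the events needed are `dl`-near their values at the target `c`. -/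
structure Near (c : ℕ → ℝ) (dl : ℝ) : Prop where
  pair : ∀ (j j' : Fin P.N ⊕ Fin P.s), j ≠ j' → ∀ e e',
    |pv P.Rel (P.el j e) (P.el j' e') -
      (∫ t in (0 : ℝ)..1, P.dens c j' e' t * ∫ s in (0 : ℝ)..t, P.dens c j e s) /
        (P.volG c j * P.volG c j')| ≤ dl
  lo : ∀ j e (z : Fin (P.M + 1)), |pv P.Rel (P.el j e) (P.tl z) -
    (∫ t in (0 : ℝ)..(c z), P.dens c j e t) / P.volG c j| ≤ dl
  up : ∀ j e (z : Fin (P.M + 1)), |pv P.Rel (P.el j e) (P.tu z) -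
    (∫ t in (0 : ℝ)..(1 - c z), P.dens c j e t) / P.volG c j| ≤ dl

end Shape

/-- from `Nf` to the probability -/
theorem half_add {f g : ℝ → ℝ} (hf : IntervalIntegrable f volume 0 1)
    (hg : IntervalIntegrable g volume 0 1) :
    ∫ t in (0 : ℝ)..1, g t * ∫ s in (0 : ℝ)..t, f s =
      ((∫ t in (0 : ℝ)..1, f t) * (∫ t in (0 : ℝ)..1, g t) + Nf f g) / 2 := by
  have hc : ContinuousOn (fun t => ∫ s in (0 : ℝ)..t, f s) (uIcc (0 : ℝ) 1) :=
    intervalIntegral.continuousOn_primitive_interval' hf (by simp)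
  have h1 : IntervalIntegrable (fun t => g t * ∫ s in (0 : ℝ)..t, f s) volume 0 1 :=
    hg.mul_continuousOn hc
  have h2 : Nf f g = ∫ t in (0 : ℝ)..1, (2 * (g t * ∫ s in (0 : ℝ)..t, f s) -
      g t * ∫ t in (0 : ℝ)..1, f t) := by
    unfold Nf
    refine intervalIntegral.integral_congr fun t ht => ?_
    rw [uIcc_of_le zero_le_one] at ht
    have h3 : (∫ s in (0 : ℝ)..t, f s) + ∫ s in t..1, f s = ∫ s in (0 : ℝ)..1, f s :=
      intervalIntegral.integral_add_adjacent_intervals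
        (hf.mono_set (by rw [uIcc_of_le ht.1, uIcc_of_le zero_le_one]; exact Icc_subset_Icc le_rfl ht.2))
        (hf.mono_set (by rw [uIcc_of_le ht.2, uIcc_of_le zero_le_one]; exact Icc_subset_Icc ht.1 le_rfl))
    rw [← h3]
    ring
  rw [h2, intervalIntegral.integral_sub (h1.const_mul 2) (hg.mul_const _),
    intervalIntegral.integral_const_mul, intervalIntegral.integral_mul_const]
  ring


theorem intervalIntegrable_dE (c : ℕ → ℝ) (p : ℕ) (a b : ℝ) :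
    IntervalIntegrable (dE c p) volume a b := by
  have hm : Measurable (dE c p) := by
    unfold dE
    exact Measurable.ite measurableSet_Ioi measurable_const measurable_const
  refine IntervalIntegrable.mono_fun' (g := fun _ => (1 : ℝ)) intervalIntegrable_const
    hm.aestronglyMeasurable (Filter.Eventually.of_forall fun t => ?_)
  simp only [dE, Real.norm_eq_abs]
  split_ifs <;> simp

/-- `∫_a^b` of the density of an extra element -/
theorem integral_dE (c : ℕ → ℝ) (p : ℕ) {a b : ℝ} (h1 : a ≤ c p) (h2 : c p ≤ b) :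
    ∫ t in a..b, dE c p t = b - c p := by
  rw [← intervalIntegral.integral_add_adjacent_intervals
    (intervalIntegrable_dE c p a (c p)) (intervalIntegrable_dE c p (c p) b)]
  have e1 : ∫ t in a..(c p), dE c p t = ∫ t in a..(c p), (0 : ℝ) := by
    refine intervalIntegral.integral_congr fun t ht => ?_
    rw [uIcc_of_le h1] at ht
    simp only [dE]
    rw [if_neg (not_lt.2 ht.2)]
  have e2 : ∫ t in (c p)..b, dE c p t = ∫ t in (c p)..b, (1 : ℝ) := by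
    refine intervalIntegral.integral_congr_ae (Filter.Eventually.of_forall fun t ht => ?_)
    rw [uIoc_of_le h2] at ht
    simp only [dE]
    rw [if_pos ht.1]
  rw [e1, e2]
  simp

namespace Shape

variable {P : Shape} {c : ℕ → ℝ} {dl η : ℝ}

theorem pv_total {x y : P.V} (h : x ≠ y) : pv P.Rel x y + pv P.Rel y x = 1 :=
  pv_add (cn_pos P.rel_ht) h

theorem dens_int (hc : ∀ i, 0 ≤ c (P.ex i) ∧ c (P.ex i) ≤ 1) :
    ∀ (j : Fin P.N ⊕ Fin P.s) (e : P.Mem (Sum.inr j)),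
      IntervalIntegrable (P.dens c j e) volume 0 1 ∧
      ∫ t in (0 : ℝ)..1, P.dens c j e t = P.volG c j
  | Sum.inl b, m => by
      rcases (m : Bool ⊕ ({z // z ∈ P.T b} ⊕ {z // z ∈ P.S b})) with (t | t) | (z | z)
      · exact ⟨(continuous_dX _ _ _ _).intervalIntegrable _ _, (Vol_eq_dX _ _ _ _).symm⟩
      · exact ⟨(continuous_dY _ _ _ _).intervalIntegrable _ _, (Vol_eq_dY _ _ _ _).symm⟩
      · exact ⟨intervalIntegrable_dL _ _ _ _ _, integral_dL _ _ _ z.2⟩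
      · exact ⟨intervalIntegrable_dR _ _ _ _ _, integral_dR _ _ _ z.2⟩
  | Sum.inr i, m => ⟨intervalIntegrable_dE _ _ _ _, integral_dE _ _ (hc i).1 (hc i).2⟩

theorem Near.gap (h : P.Near c dl) (hc : ∀ i, 0 ≤ c (P.ex i) ∧ c (P.ex i) ≤ 1)
    {j j' : Fin P.N ⊕ Fin P.s} (hj : j ≠ j') (e : P.Mem (Sum.inr j)) (e' : P.Mem (Sum.inr j'))
    (hV : 0 < P.volG c j ∧ P.volG c j ≤ 1) (hV' : 0 < P.volG c j' ∧ P.volG c j' ≤ 1)
    (hη : 0 ≤ η) (hN : η ≤ Nf (P.dens c j e) (P.dens c j' e')) :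
    pv P.Rel (P.el j' e') (P.el j e) ≤ 1 / 2 - η / 2 + dl := by
  obtain ⟨i1, i2⟩ := dens_int hc j e
  obtain ⟨i1', i2'⟩ := dens_int hc j' e'
  have h1 := (abs_le.1 (h.pair j j' hj e e')).1
  rw [half_add i1 i1', i2, i2'] at h1
  have hne : P.el j e ≠ P.el j' e' := by
    intro he
    apply hj
    have h2 := Sum.inr.inj he
    exact Sum.inr.inj (Sigma.mk.inj_iff.1 h2).1
  have h2 := pv_total hne
  have hVV : 0 < P.volG c j * P.volG c j' := mul_pos hV.1 hV'.1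
  have hVV1 : P.volG c j * P.volG c j' ≤ 1 := by
    calc P.volG c j * P.volG c j' ≤ 1 * 1 := mul_le_mul hV.2 hV'.2 hV'.1.le zero_le_one
      _ = 1 := one_mul 1
  have h3 : 1 / 2 + η / 2 ≤ (P.volG c j * P.volG c j' + Nf (P.dens c j e) (P.dens c j' e')) / 2 /
      (P.volG c j * P.volG c j') := by
    rw [le_div_iff₀ hVV]
    nlinarith
  linarith

theorem Near.lo_le (h : P.Near c dl) {j : Fin P.N ⊕ Fin P.s} {e : P.Mem (Sum.inr j)}
    {z : Fin (P.M + 1)} (hV : 0 < P.volG c j)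
    (h1 : ∫ t in (0 : ℝ)..(c z), P.dens c j e t ≤ 2 / 5 * P.volG c j) :
    pv P.Rel (P.el j e) (P.tl z) ≤ 2 / 5 + dl := by
  have h2 := (abs_le.1 (h.lo j e z)).2
  have h3 : (∫ t in (0 : ℝ)..(c z), P.dens c j e t) / P.volG c j ≤ 2 / 5 := by
    rw [div_le_iff₀ hV]
    exact h1
  linarith

theorem Near.lo_ge (h : P.Near c dl) {j : Fin P.N ⊕ Fin P.s} {e : P.Mem (Sum.inr j)}
    {z : Fin (P.M + 1)} (hV : 0 < P.volG c j ∧ P.volG c j ≤ 1) (hη : 0 ≤ η)
    (h1 : η ≤ ∫ t in (0 : ℝ)..(c z), P.dens c j e t) :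
    η - dl ≤ pv P.Rel (P.el j e) (P.tl z) := by
  have h2 := (abs_le.1 (h.lo j e z)).1
  have h3 : η ≤ (∫ t in (0 : ℝ)..(c z), P.dens c j e t) / P.volG c j := by
    rw [le_div_iff₀ hV.1]
    nlinarith
  linarith

theorem ne_tu (j : Fin P.N ⊕ Fin P.s) (e : P.Mem (Sum.inr j)) (z : Fin (P.M + 1)) :
    P.el j e ≠ P.tu z := by
  intro h
  cases h

theorem up_eq (hc : ∀ i, 0 ≤ c (P.ex i) ∧ c (P.ex i) ≤ 1) {j : Fin P.N ⊕ Fin P.s}
    {e : P.Mem (Sum.inr j)} {z : Fin (P.M + 1)} (hz : 0 ≤ c z ∧ c z ≤ 1) (hV : 0 < P.volG c j) :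
    (∫ t in (0 : ℝ)..(1 - c z), P.dens c j e t) / P.volG c j =
      1 - (∫ t in (1 - c z)..1, P.dens c j e t) / P.volG c j := by
  obtain ⟨i1, i2⟩ := dens_int hc j e
  have h1 : (∫ t in (0 : ℝ)..(1 - c z), P.dens c j e t) + ∫ t in (1 - c z)..1, P.dens c j e t =
      ∫ t in (0 : ℝ)..1, P.dens c j e t := by
    refine intervalIntegral.integral_add_adjacent_intervals (i1.mono_set ?_) (i1.mono_set ?_)
    · rw [uIcc_of_le (by linarith), uIcc_of_le zero_le_one]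
      exact Icc_subset_Icc le_rfl (by linarith)
    · rw [uIcc_of_le (by linarith), uIcc_of_le zero_le_one]
      exact Icc_subset_Icc (by linarith) le_rfl
  rw [i2] at h1
  have h2 : ∫ t in (0 : ℝ)..(1 - c z), P.dens c j e t =
      P.volG c j - ∫ t in (1 - c z)..1, P.dens c j e t := by linarith
  rw [h2, sub_div, div_self hV.ne']

theorem Near.up_le (h : P.Near c dl) (hc : ∀ i, 0 ≤ c (P.ex i) ∧ c (P.ex i) ≤ 1)
    {j : Fin P.N ⊕ Fin P.s} {e : P.Mem (Sum.inr j)}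
    {z : Fin (P.M + 1)} (hz : 0 ≤ c z ∧ c z ≤ 1) (hV : 0 < P.volG c j)
    (h1 : ∫ t in (1 - c z)..1, P.dens c j e t ≤ 2 / 5 * P.volG c j) :
    pv P.Rel (P.tu z) (P.el j e) ≤ 2 / 5 + dl := by
  have h2 := (abs_le.1 (h.up j e z)).1
  rw [up_eq hc hz hV] at h2
  have h3 : (∫ t in (1 - c z)..1, P.dens c j e t) / P.volG c j ≤ 2 / 5 := by
    rw [div_le_iff₀ hV]
    exact h1
  have h4 := pv_total (ne_tu j e z)
  linarith

theorem Near.up_ge (h : P.Near c dl) (hc : ∀ i, 0 ≤ c (P.ex i) ∧ c (P.ex i) ≤ 1)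
    {j : Fin P.N ⊕ Fin P.s} {e : P.Mem (Sum.inr j)}
    {z : Fin (P.M + 1)} (hz : 0 ≤ c z ∧ c z ≤ 1) (hV : 0 < P.volG c j ∧ P.volG c j ≤ 1)
    (hη : 0 ≤ η) (h1 : η ≤ ∫ t in (1 - c z)..1, P.dens c j e t) :
    η - dl ≤ pv P.Rel (P.tu z) (P.el j e) := by
  have h2 := (abs_le.1 (h.up j e z)).2
  rw [up_eq hc hz hV.1] at h2
  have h3 : η ≤ (∫ t in (1 - c z)..1, P.dens c j e t) / P.volG c j := by
    rw [le_div_iff₀ hV.1]
    nlinarith
  have h4 := pv_total (ne_tu j e z)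
  linarith

/-! ### Exchange inside a species -/

theorem same_ll (b : Fin P.N) {z z' : {z // z ∈ P.T b}} (hz : z.1 < z'.1) :
    pv P.Rel (P.ll b z') (P.ll b z) ≤
      1 / 2 - pv P.Rel (P.ll b z) (P.tl (P.tT b z')) / 2 := by
  have hne : P.ll b z ≠ P.ll b z' := by
    intro h
    have h2 : z = z' := by
      have h3 := P.leaf_inj (a₁ := Sum.inl ⟨b, Sum.inl z⟩) (a₂ := Sum.inl ⟨b, Sum.inl z'⟩) h
      simpa using h3
    rw [h2] at hz
    exact lt_irrefl _ hz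
  have h1 := swap_lower (R := P.Rel) (x := P.ll b z) (y := P.ll b z') (g := P.tl (P.tT b z'))
    ?_ ?_ ?_ (ReflTransGen.single (Rel.tl_ll b z')) ?_ ?_ (cn_pos P.rel_ht)
  · have h2 := pv_total hne
    linarith
  · intro h
    cases h
  · intro a ha
    cases ha with
    | cx_ll _ _ => exact ReflTransGen.single (Rel.cx_ll b z')
    | tl_ll _ _ =>
      exact (P.tl_le (P.tT b z) (P.tT b z') hz.le).tail (Rel.tl_ll b z')
  · intro a ha
    cases ha with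
    | ll_cy _ _ => exact ReflTransGen.single (Rel.ll_cy b z)
  · intro h
    cases h
  · intro h
    cases h

theorem same_lr (b : Fin P.N) {z z' : {z // z ∈ P.S b}} (hz : z.1 < z'.1) :
    pv P.Rel (P.lr b z) (P.lr b z') ≤
      1 / 2 - pv P.Rel (P.tu (P.tS b z')) (P.lr b z) / 2 := by
  have hne : P.lr b z' ≠ P.lr b z := by
    intro h
    have h2 : z' = z := by
      have h3 := P.leaf_inj (a₁ := Sum.inl ⟨b, Sum.inr z'⟩) (a₂ := Sum.inl ⟨b, Sum.inr z⟩) h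
      simpa using h3
    rw [h2] at hz
    exact lt_irrefl _ hz
  have h1 := swap_upper (R := P.Rel) (x := P.lr b z') (y := P.lr b z) (g := P.tu (P.tS b z'))
    ?_ ?_ ?_ (ReflTransGen.single (Rel.lr_tu b z')) ?_ ?_ (cn_pos P.rel_ht)
  · have h2 := pv_total hne
    linarith
  · intro h
    cases h
  · intro a ha
    cases ha with
    | cx_lr _ _ => exact ReflTransGen.single (Rel.cx_lr b z)
  · intro a ha
    cases ha with
    | lr_cy _ _ => exact ReflTransGen.single (Rel.lr_cy b z')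
    | lr_tu _ _ =>
      exact ReflTransGen.head (Rel.lr_tu b z') (P.tu_le (P.tS b z) (P.tS b z') hz.le)
  · intro h
    cases h
  · intro h
    cases h

theorem same_lr_ll (b : Fin P.N) (z : {z // z ∈ P.S b}) (z' : {z // z ∈ P.T b}) :
    pv P.Rel (P.ll b z') (P.lr b z) ≤
      1 / 2 - pv P.Rel (P.lr b z) (P.tl (P.tT b z')) / 2 := by
  have hne : P.lr b z ≠ P.ll b z' := by
    intro h
    have h3 := P.leaf_inj (a₁ := Sum.inl ⟨b, Sum.inr z⟩) (a₂ := Sum.inl ⟨b, Sum.inl z'⟩) h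
    simp at h3
  have h1 := swap_lower (R := P.Rel) (x := P.lr b z) (y := P.ll b z') (g := P.tl (P.tT b z'))
    ?_ ?_ ?_ (ReflTransGen.single (Rel.tl_ll b z')) ?_ ?_ (cn_pos P.rel_ht)
  · have h2 := pv_total hne
    linarith
  · intro h
    cases h
  · intro a ha
    cases ha with
    | cx_lr _ _ => exact ReflTransGen.single (Rel.cx_ll b z')
  · intro a ha
    cases ha with
    | ll_cy _ _ => exact ReflTransGen.single (Rel.lr_cy b z)
  · intro h
    cases h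
  · intro h
    cases h

end Shape

/-! ## Numbers -/

theorem tk_nonneg {R : ℕ} (hR : 1 ≤ R) (z : ℕ) : 0 ≤ tk R z := by
  have h1 := an_pos hR
  have h2 := hn_pos hR
  unfold tk
  positivity

theorem tk_le {R : ℕ} (hR : 1 ≤ R) {z : ℕ} (hz : z ≤ Mn R) : tk R z ≤ 1 / 10 := by
  have hK : (59050 : ℝ) ≤ Kn R := by exact_mod_cast Kn_ge hR
  have hh := hn_pos hR
  have hhP := hP_le hR
  have hz' : (z : ℝ) ≤ Mn R := by exact_mod_cast hz
  have h1 : an R ≤ 1 / 20 := by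
    unfold an
    rw [div_le_div_iff₀ (by linarith) (by norm_num)]
    linarith
  have h2 : hn R * z ≤ 1 / 20 := by
    have h3 : hn R * z ≤ hn R * ((Kn R : ℝ) * (Mn R : ℝ)) := by
      refine mul_le_mul_of_nonneg_left ?_ hh.le
      nlinarith [(Nat.cast_nonneg (Mn R) : (0 : ℝ) ≤ Mn R)]
    have h4 : (1 : ℝ) / 10 ^ 10 ≤ 1 / 20 := by norm_num
    linarith
  unfold tk
  linarith

theorem hn7_le {R : ℕ} (hR : 1 ≤ R) : hn R ^ 7 ≤ 1 / 10 := by
  have hh := hn_pos hR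
  have hhP := hP_le hR
  have hP := P_ge hR
  have h1 : hn R ≤ 1 / 10 := by
    have h2 : hn R * 1 ≤ hn R * ((Kn R : ℝ) * (Mn R : ℝ)) := by
      refine mul_le_mul_of_nonneg_left ?_ hh.le
      linarith
    have h4 : (1 : ℝ) / 10 ^ 10 ≤ 1 / 10 := by norm_num
    linarith
  calc hn R ^ 7 ≤ hn R ^ 1 := pow_le_pow_of_le_one hh.le (by linarith) (by norm_num)
    _ ≤ 1 / 10 := by rw [pow_one]; exact h1

/-! ## Mirror forms of the static inequalities -/

namespace Static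

variable {R : ℕ} (hst : Static R)
include hst

theorem cdf_Y (l : ℕ → ZMod 3) :
    ∫ t in (1 - tk R (Mn R))..1, dY (tk R) (tk R) (TL R l) (TL R (-l)) t
      ≤ 2 / 5 * Vol (tk R) (tk R) (TL R l) (TL R (-l)) := by
  have h1 := hst.cdf_X (-l)
  rw [neg_neg, ← Vol_refl] at h1
  refine le_trans (le_of_eq ?_) h1
  have h2 := intervalIntegral.integral_comp_sub_left (a := 1 - tk R (Mn R)) (b := 1)
    (dX (tk R) (tk R) (TL R (-l)) (TL R l)) 1
  rw [sub_self, sub_sub_cancel] at h2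
  rw [← h2]
  exact intervalIntegral.integral_congr fun t _ => dY_eq _ _ _ _ t

theorem cdf_R {l : ℕ → ZMod 3} {z : ℕ} (hz : z ∈ TL R (-l)) :
    ∫ t in (0 : ℝ)..(tk R (Mn R)), dR (tk R) (tk R) (TL R l) (TL R (-l)) z t
      ≤ 2 / 5 * Vol (tk R) (tk R) (TL R l) (TL R (-l)) := by
  have h1 := hst.cdf_L' (-l) z hz
  rw [neg_neg, ← Vol_refl] at h1
  refine le_trans (le_of_eq ?_) h1
  have h2 := intervalIntegral.integral_comp_sub_left (a := 0) (b := tk R (Mn R))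
    (dL (tk R) (tk R) (TL R (-l)) (TL R l) z) 1
  rw [sub_zero] at h2
  rw [← h2]
  exact intervalIntegral.integral_congr fun t _ => dR_eq _ _ _ _ z t

theorem cdf_R' {l : ℕ → ZMod 3} {z : ℕ} (hz : z ∈ TL R (-l)) :
    ∫ t in (1 - tk R (Mn R))..1, dR (tk R) (tk R) (TL R l) (TL R (-l)) z t
      ≤ 2 / 5 * Vol (tk R) (tk R) (TL R l) (TL R (-l)) := by
  have h1 := hst.cdf_L (-l) z hz
  rw [neg_neg, ← Vol_refl] at h1
  refine le_trans (le_of_eq ?_) h1
  have h2 := intervalIntegral.integral_comp_sub_left (a := 1 - tk R (Mn R)) (b := 1)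
    (dL (tk R) (tk R) (TL R (-l)) (TL R l) z) 1
  rw [sub_self, sub_sub_cancel] at h2
  rw [← h2]
  exact intervalIntegral.integral_congr fun t _ => dR_eq _ _ _ _ z t

theorem main_Y {q : ℕ} {l l' : ℕ → ZMod 3} (hp : Pair R q l l') : hn R ^ 7 ≤
    Nf (dY (tk R) (tk R) (TL R l) (TL R (-l))) (dY (tk R) (tk R) (TL R l') (TL R (-l'))) := by
  have h1 := hst.main_X q _ _ hp.mirror
  rw [neg_neg, neg_neg] at h1
  rw [Nf_dY, ← Nf_skew ((continuous_dX _ _ _ _).intervalIntegrable _ _)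
    ((continuous_dX _ _ _ _).intervalIntegrable _ _)]
  exact h1

theorem main_R {q : ℕ} {l l' : ℕ → ZMod 3} (hp : Pair R q l l') {z : ℕ} (hz : z ∈ TL R (-l))
    (hz' : z ∈ TL R (-l')) : hn R ^ 7 ≤
    Nf (dR (tk R) (tk R) (TL R l) (TL R (-l)) z) (dR (tk R) (tk R) (TL R l') (TL R (-l')) z) := by
  have h1 := hst.main_L q _ _ hp.mirror z hz' hz
  rw [neg_neg, neg_neg] at h1
  rw [Nf_dR, ← Nf_skew (intervalIntegrable_dL _ _ _ _ _) (intervalIntegrable_dL _ _ _ _ _)]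
  exact h1

theorem gap_RR {l l' : ℕ → ZMod 3} {z z' : ℕ} (hz : z ∈ TL R (-l)) (hz' : z' ∈ TL R (-l'))
    (h : z < z') : hn R ^ 7 ≤ Nf (dR (tk R) (tk R) (TL R l') (TL R (-l')) z')
      (dR (tk R) (tk R) (TL R l) (TL R (-l)) z) := by
  have h1 := hst.gap_LL (-l) (-l') z z' hz hz' h
  rw [neg_neg, neg_neg] at h1
  rw [Nf_dR, ← Nf_skew (intervalIntegrable_dL _ _ _ _ _) (intervalIntegrable_dL _ _ _ _ _)]
  exact h1

theorem gap_LY {l l' : ℕ → ZMod 3} {z : ℕ} (hz : z ∈ TL R l') : hn R ^ 7 ≤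
    Nf (dL (tk R) (tk R) (TL R l') (TL R (-l')) z) (dY (tk R) (tk R) (TL R l) (TL R (-l))) := by
  have h1 := hst.gap_XR (-l) (-l') z (by rw [neg_neg]; exact hz)
  rw [neg_neg, neg_neg, Nf_dX_dR, ← Nf_skew (intervalIntegrable_dL _ _ _ _ _)
    ((continuous_dY _ _ _ _).intervalIntegrable _ _)] at h1
  exact h1

theorem gap_RY {l l' : ℕ → ZMod 3} {z : ℕ} (hz : z ∈ TL R (-l')) : hn R ^ 7 ≤
    Nf (dR (tk R) (tk R) (TL R l') (TL R (-l')) z) (dY (tk R) (tk R) (TL R l) (TL R (-l))) := by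
  have h1 := hst.gap_XL (-l) (-l') z hz
  rw [neg_neg, neg_neg, Nf_dX_dL, ← Nf_skew (intervalIntegrable_dR _ _ _ _ _)
    ((continuous_dY _ _ _ _).intervalIntegrable _ _)] at h1
  exact h1

theorem tick_R' {l : ℕ → ZMod 3} {z z' : ℕ} (hz : z ∈ TL R (-l)) (hz' : z' ∈ TL R (-l))
    (h : z < z') : hn R ^ 7 ≤
      ∫ t in (1 - tk R z')..1, dR (tk R) (tk R) (TL R l) (TL R (-l)) z t := by
  have h1 := hst.tick_L (-l) z z' hz hz' h
  rw [neg_neg] at h1
  refine le_trans h1 (le_of_eq ?_)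
  have h2 := intervalIntegral.integral_comp_sub_left (a := 1 - tk R z') (b := 1)
    (dL (tk R) (tk R) (TL R (-l)) (TL R l) z) 1
  rw [sub_self, sub_sub_cancel] at h2
  rw [← h2]
  exact (intervalIntegral.integral_congr fun t _ => dR_eq _ _ _ _ z t).symm

end Static

/-- **The list of pairs, from the static inequalities at the target and the concentration of the
clock.** -/
theorem pairs_of_near {R N s q : ℕ} {l : ℕ → ℕ → ZMod 3} {nl nu : Fin (Mn R + 1) → ℕ}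
    {hs : s < 2 * Kn R} (hR : 1 ≤ R) (hst : Static R)
    (hp : ∀ b b', b < b' → b' < N → Pair R q (l b) (l b'))
    (h : (Sh R N s l nl nu hs).Near (tk R) (hn R ^ 7 / 8)) :
    (Sh R N s l nl nu hs).Pairs (1 / 2 - hn R ^ 7 / 8) := by
  have hh := hn7_le hR
  have hh0 : 0 ≤ hn R ^ 7 := pow_nonneg (hn_pos hR).le _
  have hlt : ∀ i : Fin s, R * 3 ^ 11 + (i : ℕ) < Mn R := by
    intro i
    have := i.2
    unfold Mn
    omega
  have hc : ∀ i : Fin (Sh R N s l nl nu hs).s,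
      0 ≤ tk R ((Sh R N s l nl nu hs).ex i) ∧ tk R ((Sh R N s l nl nu hs).ex i) ≤ 1 := by
    intro (i : Fin s)
    refine ⟨tk_nonneg hR _, ?_⟩
    exact (tk_le hR (hlt i).le).trans (by norm_num)
  have hM : 0 ≤ tk R (Mn R) ∧ tk R (Mn R) ≤ 1 := by
    refine ⟨tk_nonneg hR _, ?_⟩
    have h1 := tk_le hR le_rfl
    linarith
  have hV : ∀ b : Fin (Sh R N s l nl nu hs).N,
      0 < (Sh R N s l nl nu hs).volG (tk R) (Sum.inl b) ∧
        (Sh R N s l nl nu hs).volG (tk R) (Sum.inl b) ≤ 1 := fun b =>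
    ⟨hst.vol_pos (l b), hst.vol_le (l b)⟩
  have hE : ∀ i : Fin (Sh R N s l nl nu hs).s,
      0 < (Sh R N s l nl nu hs).volG (tk R) (Sum.inr i) ∧
        (Sh R N s l nl nu hs).volG (tk R) (Sum.inr i) ≤ 1 := by
    intro (i : Fin s)
    change 0 < 1 - tk R (R * 3 ^ 11 + (i : ℕ)) ∧ 1 - tk R (R * 3 ^ 11 + (i : ℕ)) ≤ 1
    have h1 := tk_le hR (hlt i).le
    have h2 := tk_nonneg hR (R * 3 ^ 11 + (i : ℕ))
    generalize tk R (R * 3 ^ 11 + (i : ℕ)) = x at h1 h2 ⊢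
    constructor <;> linarith
  have hb2 : 2 / 5 + hn R ^ 7 / 8 ≤ 1 / 2 - hn R ^ 7 / 8 := by linarith
  -- different groups
  have gap : ∀ {j j' : Fin N ⊕ Fin s} (_ : j ≠ j') (e : (Sh R N s l nl nu hs).Mem (Sum.inr j))
      (e' : (Sh R N s l nl nu hs).Mem (Sum.inr j')),
      hn R ^ 7 ≤ Nf ((Sh R N s l nl nu hs).dens (tk R) j e)
        ((Sh R N s l nl nu hs).dens (tk R) j' e') →
      pv (Sh R N s l nl nu hs).Rel ((Sh R N s l nl nu hs).el j' e')
        ((Sh R N s l nl nu hs).el j e) ≤ 1 / 2 - hn R ^ 7 / 8 := by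
    intro j j' hj e e' hN
    have hVj : ∀ j : Fin N ⊕ Fin s, 0 < (Sh R N s l nl nu hs).volG (tk R) j ∧
        (Sh R N s l nl nu hs).volG (tk R) j ≤ 1 := by
      rintro (b | i)
      · exact hV b
      · exact hE i
    have h1 := h.gap hc hj e e' (hVj j) (hVj j') hh0 hN
    linarith
  have neb : ∀ {b b' : Fin N}, b ≠ b' → (Sum.inl b : Fin N ⊕ Fin s) ≠ Sum.inl b' := by
    intro b b' hb he
    exact hb (Sum.inl.inj he)
  refine ⟨?_, ?_, ?_, ?_, ?_, ?_, ?_, ?_, ?_, ?_, ?_, ?_, ?_, ?_, ?_, ?_, ?_, ?_, ?_, ?_, ?_, ?_,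
    ?_, ?_, ?_, ?_, ?_, ?_⟩
  · -- cx_tl
    intro b
    exact (h.lo_le (j := Sum.inl b) (e := Sum.inl false) (z := Fin.last (Mn R)) (hV b).1
      (hst.cdf_X (l b))).trans hb2
  · -- ll_tl
    intro b z _
    exact (h.lo_le (j := Sum.inl b) (e := Sum.inr (Sum.inl z)) (z := Fin.last (Mn R)) (hV b).1
      (hst.cdf_L (l b) z.1 z.2)).trans hb2
  · -- lr_tl
    intro b z
    exact (h.lo_le (j := Sum.inl b) (e := Sum.inr (Sum.inr z)) (z := Fin.last (Mn R)) (hV b).1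
      (hst.cdf_R z.2)).trans hb2
  · -- xe_tl
    intro (i : Fin s)
    refine (h.lo_le (j := Sum.inr i) (e := ()) (z := Fin.last (Mn R)) (hE i).1 ?_).trans hb2
    change ∫ t in (0 : ℝ)..(tk R (Mn R)), dE (tk R) (R * 3 ^ 11 + (i : ℕ)) t ≤
      2 / 5 * (1 - tk R (R * 3 ^ 11 + (i : ℕ)))
    have h1 := tk_le hR (hlt i).le
    have h2 := tk_nonneg hR (R * 3 ^ 11 + (i : ℕ))
    have h3 := tk_le hR (le_refl (Mn R))
    have h4 : tk R (R * 3 ^ 11 + (i : ℕ)) ≤ tk R (Mn R) := by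
      have h5 : ((R * 3 ^ 11 + (i : ℕ) : ℕ) : ℝ) ≤ (Mn R : ℝ) := by exact_mod_cast (hlt i).le
      have h6 := hn_pos hR
      unfold tk
      nlinarith
    rw [integral_dE _ _ h2 h4]
    generalize tk R (R * 3 ^ 11 + (i : ℕ)) = x at h1 h2 ⊢
    linarith
  · -- tu_cy
    intro b
    exact (h.up_le hc (j := Sum.inl b) (e := Sum.inl true) (z := Fin.last (Mn R)) hM (hV b).1
      (hst.cdf_Y (l b))).trans hb2
  · -- tu_lr
    intro b z _
    exact (h.up_le hc (j := Sum.inl b) (e := Sum.inr (Sum.inr z)) (z := Fin.last (Mn R)) hM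
      (hV b).1 (hst.cdf_R' z.2)).trans hb2
  · -- tu_ll
    intro b z
    exact (h.up_le hc (j := Sum.inl b) (e := Sum.inr (Sum.inl z)) (z := Fin.last (Mn R)) hM
      (hV b).1 (hst.cdf_L' (l b) z.1 z.2)).trans hb2
  · -- tu_xe
    intro (i : Fin s)
    refine (h.up_le hc (j := Sum.inr i) (e := ()) (z := Fin.last (Mn R)) hM (hE i).1 ?_).trans hb2
    change ∫ t in (1 - tk R (Mn R))..1, dE (tk R) (R * 3 ^ 11 + (i : ℕ)) t ≤
      2 / 5 * (1 - tk R (R * 3 ^ 11 + (i : ℕ)))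
    have h1 := tk_le hR (hlt i).le
    have h2 := tk_nonneg hR (R * 3 ^ 11 + (i : ℕ))
    have h3 := tk_le hR (le_refl (Mn R))
    have h5 : ∫ t in (1 - tk R (Mn R))..1, dE (tk R) (R * 3 ^ 11 + (i : ℕ)) t =
        ∫ t in (1 - tk R (Mn R))..1, (1 : ℝ) := by
      refine intervalIntegral.integral_congr fun t ht => ?_
      rw [uIcc_of_le (by linarith [hM.1])] at ht
      have ht1 := ht.1
      simp only [dE]
      generalize tk R (R * 3 ^ 11 + (i : ℕ)) = x at h1 h2 ⊢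
      rw [if_pos (by linarith)]
    rw [h5]
    simp only [intervalIntegral.integral_const, smul_eq_mul, mul_one]
    generalize tk R (R * 3 ^ 11 + (i : ℕ)) = x at h1 h2 ⊢
    linarith
  · -- cx_cx
    intro b b' hb
    exact Or.inr (gap (neb hb.ne) (Sum.inl false) (Sum.inl false)
      (hst.main_X q _ _ (hp b b' hb b'.2)))
  · -- cy_cy
    intro b b' hb
    exact Or.inr (gap (neb hb.ne) (Sum.inl true) (Sum.inl true)
      (hst.main_Y (hp b b' hb b'.2)))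
  · -- cx_cy
    intro b b' hb
    exact Or.inr (gap (neb hb) (Sum.inl false) (Sum.inl true) (hst.gap_XY _ _))
  · -- cx_ll
    intro b b' z hb
    exact Or.inr (gap (neb hb) (Sum.inl false) (Sum.inr (Sum.inl z)) (hst.gap_XL _ _ _ z.2))
  · -- cx_lr
    intro b b' z hb
    exact Or.inr (gap (neb hb) (Sum.inl false) (Sum.inr (Sum.inr z)) (hst.gap_XR _ _ _ z.2))
  · -- cy_ll
    intro b b' z hb
    exact Or.inl (gap (neb hb.symm) (Sum.inr (Sum.inl z)) (Sum.inl true) (hst.gap_LY z.2))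
  · -- cy_lr
    intro b b' z hb
    exact Or.inl (gap (neb hb.symm) (Sum.inr (Sum.inr z)) (Sum.inl true) (hst.gap_RY z.2))
  · -- ll_eq
    intro b b' z z' hb hz
    refine Or.inr (gap (neb hb.ne) (Sum.inr (Sum.inl z)) (Sum.inr (Sum.inl z')) ?_)
    change hn R ^ 7 ≤ Nf (dL (tk R) (tk R) (TL R (l b)) (TL R (-l b)) z.1)
      (dL (tk R) (tk R) (TL R (l b')) (TL R (-l b')) z'.1)
    have hz2 : z'.1 ∈ TL R (l b') := z'.2
    rw [← hz] at hz2 ⊢
    exact hst.main_L q _ _ (hp b b' hb b'.2) z.1 z.2 hz2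
  · -- lr_eq
    intro b b' z z' hb hz
    refine Or.inr (gap (neb hb.ne) (Sum.inr (Sum.inr z)) (Sum.inr (Sum.inr z')) ?_)
    change hn R ^ 7 ≤ Nf (dR (tk R) (tk R) (TL R (l b)) (TL R (-l b)) z.1)
      (dR (tk R) (tk R) (TL R (l b')) (TL R (-l b')) z'.1)
    have hz2 : z'.1 ∈ TL R (-l b') := z'.2
    rw [← hz] at hz2 ⊢
    exact hst.main_R (hp b b' hb b'.2) z.2 hz2
  · -- ll_lt
    intro b b' z z' hb hz
    exact Or.inr (gap (neb hb) (Sum.inr (Sum.inl z)) (Sum.inr (Sum.inl z'))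
      (hst.gap_LL _ _ _ _ z.2 z'.2 hz))
  · -- lr_lt
    intro b b' z z' hb hz
    exact Or.inl (gap (neb hb.symm) (Sum.inr (Sum.inr z')) (Sum.inr (Sum.inr z))
      (hst.gap_RR z.2 z'.2 hz))
  · -- lr_ll
    intro b b' z z' hb
    exact Or.inr (gap (neb hb) (Sum.inr (Sum.inr z)) (Sum.inr (Sum.inl z'))
      (hst.gap_RL _ _ _ _ z.2 z'.2))
  · -- same_ll
    intro b z z' hz
    right
    have h1 := Shape.same_ll b hz
    have h2 := h.lo_ge (j := Sum.inl b) (e := Sum.inr (Sum.inl z))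
      (z := (Sh R N s l nl nu hs).tT b z') (hV b) hh0 (hst.tick_L _ _ _ z.2 z'.2 hz)
    change _ ≤ pv (Sh R N s l nl nu hs).Rel ((Sh R N s l nl nu hs).ll b z) _ at h2
    linarith
  · -- same_lr
    intro b z z' hz
    left
    have h1 := Shape.same_lr b hz
    have hz1 : tk R z'.1 ≤ 1 / 10 := tk_le hR (TL_le z'.2)
    have h2 := h.up_ge hc (j := Sum.inl b) (e := Sum.inr (Sum.inr z))
      (z := (Sh R N s l nl nu hs).tS b z') ⟨tk_nonneg hR _, hz1.trans (by norm_num)⟩ (hV b) hh0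
      (hst.tick_R' z.2 z'.2 hz)
    change _ ≤ pv (Sh R N s l nl nu hs).Rel _ ((Sh R N s l nl nu hs).lr b z) at h2
    linarith
  · -- same_lr_ll
    intro b z z'
    right
    have h1 := Shape.same_lr_ll b z z'
    have h2 := h.lo_ge (j := Sum.inl b) (e := Sum.inr (Sum.inr z))
      (z := (Sh R N s l nl nu hs).tT b z') (hV b) hh0 (hst.tick_R _ _ _ z.2 z'.2)
    change _ ≤ pv (Sh R N s l nl nu hs).Rel ((Sh R N s l nl nu hs).lr b z) _ at h2
    linarith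
  · -- xe_cx
    intro i b
    exact Or.inl (gap (j := Sum.inl b) (j' := Sum.inr i) (by simp) (Sum.inl false) ()
      (hst.pad_X _ _ (Nat.le_add_right _ _) (hlt i)))
  · -- xe_cy
    intro i b
    exact Or.inr (gap (j := Sum.inr i) (j' := Sum.inl b) (by simp) () (Sum.inl true)
      (hst.pad_Y _ _ (Nat.le_add_right _ _) (hlt i)))
  · -- xe_ll
    intro i b z
    exact Or.inl (gap (j := Sum.inl b) (j' := Sum.inr i) (by simp) (Sum.inr (Sum.inl z)) ()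
      (hst.pad_L _ _ _ z.2 (Nat.le_add_right _ _) (hlt i)))
  · -- xe_lr
    intro i b z
    exact Or.inl (gap (j := Sum.inl b) (j' := Sum.inr i) (by simp) (Sum.inr (Sum.inr z)) ()
      (hst.pad_R _ _ _ z.2 (Nat.le_add_right _ _) (hlt i)))
  · -- xe_xe
    intro i j hij
    exact Or.inr (gap (j := Sum.inr i) (j' := Sum.inr j)
      (fun he => hij.ne (by rw [Sum.inr.inj he])) () ()
      (hst.pad_pad _ _ (Nat.le_add_right _ _) hij (hlt j)))

end Pool.Agent.T1K
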