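import Pool.Agent.T1K.Tick
import Pool.Agent.T1K.Conc

/-!
# T1: the numerical inequality of the concentration
-/

set_option autoImplicit false

open Filter Topology

namespace Pool.Agent.T1K.Nm

/-- exponentials beat powers -/
lemma exists_pow_le (k : ℕ) : ∃ L0 : ℕ, ∀ L : ℕ, L0 ≤ L → L ^ k ≤ 2 ^ (L / 2) := by
  have h1 := tendsto_pow_const_div_const_pow_of_one_lt k (by norm_num : (1 : ℝ) < 2)
  have h2 : ∀ᶠ n : ℕ in atTop, (n : ℝ) ^ k / 2 ^ n < 1 / 3 ^ k :=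
    h1.eventually_lt_const (by positivity)
  obtain ⟨J, hJ⟩ := eventually_atTop.1 h2
  refine ⟨2 * J + 2, fun L hL => ?_⟩
  obtain ⟨j, hj⟩ : ∃ j, j = L / 2 := ⟨_, rfl⟩
  have hj1 : J ≤ j := by omega
  have hL3 : L ≤ 3 * j := by omega
  rw [← hj]
  have h3 := hJ j hj1
  have h4 : (3 * (j : ℝ)) ^ k ≤ 2 ^ j := by
    rw [mul_pow]
    rw [div_lt_div_iff₀ (by positivity) (by positivity)] at h3
    linarith
  have h5 : L ^ k ≤ (3 * j) ^ k := Nat.pow_le_pow_left hL3 k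
  have h6 : (3 * j) ^ k ≤ 2 ^ j := by exact_mod_cast h4
  exact h5.trans h6

/-- the inequality, `X = K M` -/
lemma core {X A h m : ℝ} {n : ℕ} (hX : 1000 ≤ X) (hh : h * X ^ 16 = 1) (hA0 : 0 < A)
    (hA : A ≤ 2 * X) (hn : (n : ℝ) ≤ 4 * X) (hm : X ^ 276 ≤ m) :
    Real.exp (A / h - m * (h ^ 8) ^ 2 / (8 * A)) * 2 ^ n ≤ h ^ 8 := by
  have hX0 : 0 < X := by linarith
  have hX1 : 1 ≤ X := by linarith
  have hh' : h = 1 / X ^ 16 := by
    rw [eq_div_iff (by positivity)]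
    exact hh
  have h0 : 0 < h := by rw [hh']; positivity
  have e1 : A / h ≤ 2 * X ^ 17 := by
    rw [hh', div_div_eq_mul_div, div_one]
    calc A * X ^ 16 ≤ 2 * X * X ^ 16 := mul_le_mul_of_nonneg_right hA (by positivity)
      _ = 2 * X ^ 17 := by ring
  have e2 : X ^ 18 / 16 ≤ m * (h ^ 8) ^ 2 / (8 * A) := by
    rw [div_le_div_iff₀ (by norm_num) (by positivity)]
    have h2 : X ^ 276 * (h ^ 8) ^ 2 = X ^ 20 := by
      have h3 : (h * X ^ 16) ^ 16 = 1 := by rw [hh, one_pow]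
      calc X ^ 276 * (h ^ 8) ^ 2 = X ^ 20 * (h * X ^ 16) ^ 16 := by ring
        _ = X ^ 20 := by rw [h3, mul_one]
    have h4 : X ^ 20 ≤ m * (h ^ 8) ^ 2 := by
      rw [← h2]
      exact mul_le_mul_of_nonneg_right hm (by positivity)
    calc X ^ 18 * (8 * A) ≤ X ^ 18 * (8 * (2 * X)) :=
          mul_le_mul_of_nonneg_left (by linarith) (by positivity)
      _ = X ^ 19 * 16 := by ring
      _ ≤ X ^ 20 * 16 := by
          apply mul_le_mul_of_nonneg_right _ (by norm_num)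
          exact pow_le_pow_right₀ hX1 (by norm_num)
      _ ≤ m * (h ^ 8) ^ 2 * 16 := mul_le_mul_of_nonneg_right h4 (by norm_num)
  have e3 : Real.log 2 ≤ 1 := by
    have := Real.log_two_lt_d9
    linarith
  have e4 : Real.log X ≤ X := (Real.log_le_sub_one_of_pos hX0).trans (by linarith)
  have e5 : (2 : ℝ) ^ n = Real.exp (n * Real.log 2) := by
    rw [Real.exp_nat_mul, Real.exp_log (by norm_num)]
  have e6 : h ^ 8 = Real.exp (-(128 * Real.log X)) := by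
    have h1 : Real.exp (((128 : ℕ) : ℝ) * Real.log X) = X ^ 128 := by
      rw [Real.exp_nat_mul, Real.exp_log hX0]
    rw [Real.exp_neg, show (128 : ℝ) * Real.log X = ((128 : ℕ) : ℝ) * Real.log X by norm_num, h1, hh',
      div_pow, one_pow, ← pow_mul, one_div]
  have e7 : (n : ℝ) * Real.log 2 ≤ 4 * X := by
    calc (n : ℝ) * Real.log 2 ≤ n * 1 := mul_le_mul_of_nonneg_left e3 (Nat.cast_nonneg n)
      _ ≤ 4 * X := by linarith
  have e8 : 2 * X ^ 17 + 132 * X ≤ X ^ 18 / 16 := by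
    have h1 : X ≤ X ^ 17 := le_self_pow₀ hX1 (by norm_num)
    have h2 : 1000 * X ^ 17 * 3 ≤ X ^ 18 * 3 := by
      have : X ^ 18 = X * X ^ 17 := by ring
      rw [this]
      nlinarith [pow_pos hX0 17]
    have h3 : (132 : ℝ) * X ≤ X ^ 2 := by nlinarith
    have h4 : X ^ 2 ≤ X ^ 17 := pow_le_pow_right₀ hX1 (by norm_num)
    linarith
  rw [e5, ← Real.exp_add]
  refine le_trans (Real.exp_le_exp.2 ?_) (le_of_eq e6.symm)
  linarith

/-- the target positions -/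
theorem tgt {R : ℕ} (hR : 1 ≤ R) : Tgt (Mn R) (tk R) (hn R) := by
  have hs := std hR
  have hh := hn_pos hR
  have hK : (59050 : ℝ) ≤ Kn R := by exact_mod_cast Kn_ge hR
  have hM : (177147 : ℝ) ≤ Mn R := by exact_mod_cast Mn_ge hR
  have hMa := hs.hMa
  have hha : hn R ≤ an R := by
    have h1 : hn R * 1 ≤ hn R * Mn R := mul_le_mul_of_nonneg_left (by linarith) hh.le
    have h2 := hs.a0
    linarith
  refine ⟨hh, ?_, ?_⟩
  · intro r _
    unfold inc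
    split_ifs with h0
    · unfold tk
      rw [h0]
      push_cast
      linarith
    · obtain ⟨j, rfl⟩ : ∃ j, r = j + 1 := ⟨r - 1, by omega⟩
      rw [Nat.add_sub_cancel]
      unfold tk
      push_cast
      linarith
  · unfold tk
    have h1 : an R * 1 ≤ an R * Kn R := mul_le_mul_of_nonneg_left (by linarith) hs.a0.le
    have h2 := hs.aK
    linarith

lemma Kn_le_pow {R : ℕ} (hR : 1 ≤ R) : Kn R ≤ R * 3 ^ 11 := by
  unfold Kn
  have h : 1 ≤ R * 3 ^ 10 := Nat.mul_pos hR (by positivity)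
  have h2 : R * 3 ^ 11 = 3 * (R * 3 ^ 10) := by ring
  omega

lemma Mn_le_pow {R : ℕ} (hR : 1 ≤ R) : Mn R ≤ R * 3 ^ 12 := by
  unfold Mn
  have h1 := Kn_le_pow hR
  have h2 : R * 3 ^ 12 = R * 3 ^ 11 + 2 * (R * 3 ^ 11) := by ring
  omega

lemma KM_le {L q : ℕ} (hL : 2 ≤ L) (h1 : 16 + 8 * L ^ 2 ≤ q) (h2 : q ≤ 3 * (16 + 8 * L ^ 2)) :
    1 ≤ L * q ^ 2 ∧ Kn (L * q ^ 2) * Mn (L * q ^ 2) ≤ L ^ 74 := by
  obtain ⟨R, hR⟩ : ∃ R, R = L * q ^ 2 := ⟨_, rfl⟩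
  have hR1 : 1 ≤ R := by
    rw [hR]
    have hq : 1 ≤ q := by omega
    exact Nat.mul_pos (by omega) (by positivity)
  have hq : q ≤ 2 ^ 6 * L ^ 2 := by
    have h3 : 2 ^ 2 ≤ L ^ 2 := Nat.pow_le_pow_left hL 2
    omega
  have hRu : R * 3 ^ 12 ≤ L ^ 37 := by
    calc R * 3 ^ 12 = L * q ^ 2 * 3 ^ 12 := by rw [hR]
      _ ≤ L * (2 ^ 6 * L ^ 2) ^ 2 * 2 ^ 20 := by
          refine Nat.mul_le_mul (Nat.mul_le_mul_left _ (Nat.pow_le_pow_left hq 2)) ?_
          norm_num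
      _ = 2 ^ 32 * L ^ 5 := by ring
      _ ≤ L ^ 32 * L ^ 5 := Nat.mul_le_mul_right _ (Nat.pow_le_pow_left hL 32)
      _ = L ^ 37 := by rw [← pow_add]
  have hK : Kn R ≤ L ^ 37 := by
    refine (Kn_le_pow hR1).trans (le_trans ?_ hRu)
    exact Nat.mul_le_mul_left _ (Nat.pow_le_pow_right (by norm_num) (by norm_num))
  have hM : Mn R ≤ L ^ 37 := (Mn_le_pow hR1).trans hRu
  rw [← hR]
  refine ⟨hR1, ?_⟩
  calc Kn R * Mn R ≤ L ^ 37 * L ^ 37 := Nat.mul_le_mul hK hM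
    _ = L ^ 74 := by rw [← pow_add]

/-- the numerical inequality for `N ≥ (K M) ^ 300` -/
theorem num_of {R N : ℕ} (hR : 1 ≤ R) (hN : (Kn R * Mn R) ^ 300 ≤ N) :
    0 ≤ hn R * (N * tk R (Mn R)) - 1 ∧
    Real.exp ((Mn R + 1) / hn R - (hn R * (N * tk R (Mn R)) - 1) * (hn R ^ 8) ^ 2 /
      (8 * (Mn R + 1))) * 2 ^ (2 * (Mn R + 1)) ≤ hn R ^ 8 := by
  obtain ⟨X, hX⟩ : ∃ X : ℝ, X = (Kn R : ℝ) * (Mn R : ℝ) := ⟨_, rfl⟩
  have hP := P_ge hR
  have hmul := hn_mul hR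
  have hs := std hR
  have hh := hn_pos hR
  have hK : (59050 : ℝ) ≤ Kn R := by exact_mod_cast Kn_ge hR
  have hM : (177147 : ℝ) ≤ Mn R := by exact_mod_cast Mn_ge hR
  have hN' : X ^ 300 ≤ (N : ℝ) := by
    have h1 := (Nat.cast_le (α := ℝ)).2 hN
    rw [Nat.cast_pow, Nat.cast_mul, ← hX] at h1
    exact h1
  rw [← hX] at hP hmul
  have hX0 : 0 < X := lt_of_lt_of_le (by norm_num) hP
  have hX1 : 1 ≤ X := le_trans (by norm_num) hP
  have hKX : (Kn R : ℝ) ≤ X := by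
    rw [hX]
    exact le_mul_of_one_le_right (by linarith) (by linarith)
  have hMX : (Mn R : ℝ) ≤ X := by
    rw [hX]
    exact le_mul_of_one_le_left (by linarith) (by linarith)
  have hX100 : (100 : ℝ) ≤ X := le_trans (by norm_num) hP
  -- the position of the end tick
  have ht : 1 / X ^ 2 ≤ tk R (Mn R) := by
    have h1 : an R ≤ tk R (Mn R) := by
      unfold tk
      have : 0 ≤ hn R * (Mn R : ℝ) := mul_nonneg hh.le (Nat.cast_nonneg _)
      linarith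
    refine le_trans ?_ h1
    unfold an
    rw [div_le_div_iff₀ (by positivity) (by positivity), one_mul, one_mul]
    calc 100 * (Kn R : ℝ) ≤ X * X := mul_le_mul hX100 hKX (by positivity) hX0.le
      _ = X ^ 2 := by ring
  have hm1 : X ^ 276 + 1 ≤ hn R * (N * tk R (Mn R)) := by
    have hhX : hn R = 1 / X ^ 16 := by
      rw [eq_div_iff (by positivity)]
      exact hmul
    have h1 : 1 / X ^ 16 * (X ^ 300 * (1 / X ^ 2)) ≤ hn R * (N * tk R (Mn R)) := by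
      rw [hhX]
      apply mul_le_mul_of_nonneg_left _ (by positivity)
      exact mul_le_mul hN' ht (by positivity) (Nat.cast_nonneg N)
    refine le_trans ?_ h1
    have h2 : 1 / X ^ 16 * (X ^ 300 * (1 / X ^ 2)) = X ^ 282 := by
      have e1 : X ^ 300 = X ^ 282 * X ^ 2 * X ^ 16 := by ring
      rw [e1]
      field_simp
    rw [h2]
    have h3 : X ^ 276 * X ≤ X ^ 282 := by
      rw [← pow_succ]
      exact pow_le_pow_right₀ hX1 (by norm_num)
    have h4 : 1 ≤ X ^ 276 := one_le_pow₀ hX1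
    nlinarith
  refine ⟨by linarith [one_le_pow₀ (M₀ := ℝ) (n := 276) hX1], ?_⟩
  refine core (X := X) (le_trans (by norm_num) hP) hmul (by linarith) (by linarith) ?_ (by linarith)
  push_cast
  linarith

/-- **The numerical inequality.** -/
theorem num : ∃ L0 : ℕ, ∀ L q N : ℕ, L0 ≤ L → 16 + 8 * L ^ 2 ≤ q → q ≤ 3 * (16 + 8 * L ^ 2) →
    2 ^ (L / 2) ≤ N →
    0 ≤ hn (L * q ^ 2) * (N * tk (L * q ^ 2) (Mn (L * q ^ 2))) - 1 ∧
    Real.exp ((Mn (L * q ^ 2) + 1) / hn (L * q ^ 2) -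
      (hn (L * q ^ 2) * (N * tk (L * q ^ 2) (Mn (L * q ^ 2))) - 1) * (hn (L * q ^ 2) ^ 8) ^ 2 /
      (8 * (Mn (L * q ^ 2) + 1))) * 2 ^ (2 * (Mn (L * q ^ 2) + 1)) ≤ hn (L * q ^ 2) ^ 8 := by
  obtain ⟨L0, hL0⟩ := exists_pow_le (74 * 300)
  refine ⟨L0 + 2, fun L q N hL h1 h2 hN => ?_⟩
  obtain ⟨hR, hKM⟩ := KM_le (by omega : 2 ≤ L) h1 h2
  have h3 : (L ^ 74) ^ 300 ≤ 2 ^ (L / 2) := by
    rw [← pow_mul]
    exact hL0 L (by omega)
  exact num_of hR ((Nat.pow_le_pow_left hKM 300).trans (h3.trans hN))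

end Pool.Agent.T1K.Nm
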