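import Mathlib

/-!
# The tangent inequality of a midpoint log-concave function
-/

set_option autoImplicit false

namespace Pool.Agent.T1K

open Filter Topology

/-- iterating the midpoint inequality towards `0` -/
theorem mid_iter (f : ℝ → ℝ) (h0 : 0 < f 0) (hpos : ∀ s, 0 ≤ f s)
    (hmid : ∀ s, 0 ≤ s → s ≤ 1 → f s * f 0 ≤ f (s / 2) ^ 2) (k : ℕ) :
    f 1 / f 0 ≤ (f ((1 / 2) ^ k) / f 0) ^ (2 ^ k) := by
  induction k with
  | zero => simp
  | succ k ih =>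
    refine ih.trans ?_
    have h1 : (0 : ℝ) ≤ (1 / 2) ^ k := by positivity
    have h2 : ((1 : ℝ) / 2) ^ k ≤ 1 := pow_le_one₀ (by norm_num) (by norm_num)
    have h3 := hmid _ h1 h2
    have h4 : f ((1 / 2) ^ k) / f 0 ≤ (f ((1 / 2) ^ (k + 1)) / f 0) ^ 2 := by
      rw [div_pow (f ((1 / 2) ^ (k + 1))), div_le_div_iff₀ h0 (by positivity)]
      have h5 : ((1 : ℝ) / 2) ^ k / 2 = (1 / 2) ^ (k + 1) := by
        rw [pow_succ]; ring
      rw [h5] at h3
      have h6 := mul_le_mul_of_nonneg_right h3 h0.le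
      calc f ((1 / 2) ^ k) * f 0 ^ 2 = f ((1 / 2) ^ k) * f 0 * f 0 := by ring
        _ ≤ _ := h6
    calc (f ((1 / 2) ^ k) / f 0) ^ (2 ^ k)
        ≤ ((f ((1 / 2) ^ (k + 1)) / f 0) ^ 2) ^ (2 ^ k) :=
          pow_le_pow_left₀ (div_nonneg (hpos _) h0.le) h4 _
      _ = (f ((1 / 2) ^ (k + 1)) / f 0) ^ (2 ^ (k + 1)) := by
          rw [← pow_mul]
          congr 1
          ring

/-- tangent inequality on a segment -/
theorem tangent1 (f : ℝ → ℝ) (d : ℝ) (hd : HasDerivAt f d 0) (h0 : 0 < f 0)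
    (hpos : ∀ s, 0 ≤ f s) (hmid : ∀ s, 0 ≤ s → s ≤ 1 → f s * f 0 ≤ f (s / 2) ^ 2) :
    f 1 ≤ f 0 * Real.exp (d / f 0) := by
  have h1 : Tendsto (fun k : ℕ => ((1 : ℝ) / 2) ^ k) atTop (𝓝 0) :=
    tendsto_pow_atTop_nhds_zero_of_lt_one (by norm_num) (by norm_num)
  have h2 : Tendsto (fun k : ℕ => ((1 : ℝ) / 2) ^ k) atTop (𝓝[≠] 0) := by
    rw [tendsto_nhdsWithin_iff]
    exact ⟨h1, Eventually.of_forall fun k => by simp⟩
  have h3 := (hasDerivAt_iff_tendsto_slope_zero.1 hd).comp h2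
  have h4 : Tendsto (fun k : ℕ => (2 : ℝ) ^ k * (f ((1 / 2) ^ k) / f 0 - 1)) atTop
      (𝓝 (d / f 0)) := by
    have h5 : (fun k : ℕ => (2 : ℝ) ^ k * (f ((1 / 2) ^ k) / f 0 - 1)) =
        fun k : ℕ => (((fun t => t⁻¹ • (f (0 + t) - f 0)) ∘ fun k : ℕ => ((1 : ℝ) / 2) ^ k) k) /
          f 0 := by
      funext k
      simp only [Function.comp_apply, zero_add, smul_eq_mul]
      rw [one_div, inv_pow, inv_inv]
      field_simp
    rw [h5]
    exact h3.div_const _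
  have h6 : Tendsto (fun k : ℕ => Real.exp ((2 : ℝ) ^ k * (f ((1 / 2) ^ k) / f 0 - 1))) atTop
      (𝓝 (Real.exp (d / f 0))) := (Real.continuous_exp.tendsto _).comp h4
  have h7 : f 1 / f 0 ≤ Real.exp (d / f 0) := by
    refine ge_of_tendsto h6 (Eventually.of_forall fun k => ?_)
    refine (mid_iter f h0 hpos hmid k).trans ?_
    have h8 : f ((1 / 2) ^ k) / f 0 ≤ Real.exp (f ((1 / 2) ^ k) / f 0 - 1) := by
      have := Real.add_one_le_exp (f ((1 / 2) ^ k) / f 0 - 1)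
      linarith
    calc (f ((1 / 2) ^ k) / f 0) ^ (2 ^ k)
        ≤ (Real.exp (f ((1 / 2) ^ k) / f 0 - 1)) ^ (2 ^ k) :=
          pow_le_pow_left₀ (div_nonneg (hpos _) h0.le) h8 _
      _ = Real.exp ((2 : ℝ) ^ k * (f ((1 / 2) ^ k) / f 0 - 1)) := by
          rw [← Real.exp_nat_mul]
          push_cast
          ring_nf
  rw [div_le_iff₀ h0] at h7
  linarith

/-- **Tangent inequality.** -/
theorem tangent {E : Type*} [NormedAddCommGroup E] [NormedSpace ℝ E] {V : E → ℝ} {t0 : E}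
    {L : E →L[ℝ] ℝ} (hV : HasFDerivAt V L t0) (h0 : 0 < V t0) (hpos : ∀ x, 0 ≤ V x) (x : E)
    (hmid : ∀ s : ℝ, 0 ≤ s → s ≤ 1 →
      V (t0 + s • (x - t0)) * V t0 ≤ V (t0 + (s / 2) • (x - t0)) ^ 2) :
    V x ≤ V t0 * Real.exp (L (x - t0) / V t0) := by
  have h1 : HasDerivAt (fun s : ℝ => t0 + s • (x - t0)) (x - t0) 0 := by
    have := ((hasDerivAt_id (0 : ℝ)).smul_const (x - t0)).const_add t0
    simpa using this
  have h2 : HasFDerivAt V L (t0 + (0 : ℝ) • (x - t0)) := by simpa using hV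
  have h3 := h2.comp_hasDerivAt (0 : ℝ) h1
  have h4 := tangent1 (fun s : ℝ => V (t0 + s • (x - t0))) (L (x - t0)) h3 (by simpa using h0)
    (fun s => hpos _) (fun s hs0 hs1 => by simpa using hmid s hs0 hs1)
  simpa using h4

end Pool.Agent.T1K
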