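import Mathlib
import Pool.Agent.Helper8.KS.PLBase
import Pool.Agent.T1K.Defs

/-!
# The volume of a gadget as a function of the ticks
-/

set_option autoImplicit false

namespace Pool.Agent.T1K

open MeasureTheory Set
open scoped ENNReal

lemma Phi_nonneg (c : ℕ → ℝ) (T : Finset ℕ) (x y : ℝ) : 0 ≤ Phi c T x y :=
  Finset.prod_nonneg fun _ _ => le_max_left _ _

lemma W_nonneg (c d : ℕ → ℝ) (T S : Finset ℕ) (x y : ℝ) : 0 ≤ W c d T S x y :=
  mul_nonneg (Phi_nonneg _ _ _ _) (Phi_nonneg _ _ _ _)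

lemma fac_le_one {c x y : ℝ} (h : y - x ≤ 1) : max 0 (y - max x c) ≤ 1 := by
  refine max_le zero_le_one ?_
  have := le_max_left x c
  linarith

lemma Phi_le_one {c : ℕ → ℝ} {T : Finset ℕ} {x y : ℝ} (h : y - x ≤ 1) : Phi c T x y ≤ 1 :=
  Finset.prod_le_one (fun _ _ => le_max_left _ _) fun _ _ => fac_le_one h

lemma W_le_one {c d : ℕ → ℝ} {T S : Finset ℕ} {x y : ℝ} (h : y - x ≤ 1) : W c d T S x y ≤ 1 :=
  mul_le_one₀ (Phi_le_one h) (Phi_nonneg _ _ _ _) (Phi_le_one (by linarith))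

lemma continuous_Phi (c : ℕ → ℝ) (T : Finset ℕ) : Continuous fun p : ℝ × ℝ => Phi c T p.1 p.2 := by
  unfold Phi
  fun_prop

lemma continuous_W (c d : ℕ → ℝ) (T S : Finset ℕ) :
    Continuous fun p : ℝ × ℝ => W c d T S p.1 p.2 := by
  unfold W Phi
  fun_prop

/-- midpoints: the factors -/
lemma fac_mid (c c' x x' y y' : ℝ) :
    max 0 (y - max x c) * max 0 (y' - max x' c') ≤
      (max 0 ((y + y') / 2 - max ((x + x') / 2) ((c + c') / 2))) ^ 2 := by
  have h1 : max ((x + x') / 2) ((c + c') / 2) ≤ (max x c + max x' c') / 2 := by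
    refine max_le ?_ ?_
    · have := le_max_left x c
      have := le_max_left x' c'
      linarith
    · have := le_max_right x c
      have := le_max_right x' c'
      linarith
  rcases le_or_gt (y - max x c) 0 with h2 | h2
  · rw [max_eq_left h2, zero_mul]
    positivity
  rcases le_or_gt (y' - max x' c') 0 with h3 | h3
  · rw [max_eq_left h3, mul_zero]
    positivity
  have h4 : 0 ≤ (y + y') / 2 - max ((x + x') / 2) ((c + c') / 2) := by linarith
  rw [max_eq_right h2.le, max_eq_right h3.le, max_eq_right h4]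
  have h5 : (y - max x c + (y' - max x' c')) / 2 ≤
      (y + y') / 2 - max ((x + x') / 2) ((c + c') / 2) := by linarith
  have h6 : ((y - max x c + (y' - max x' c')) / 2) ^ 2 ≤
      ((y + y') / 2 - max ((x + x') / 2) ((c + c') / 2)) ^ 2 :=
    pow_le_pow_left₀ (by linarith) h5 2
  nlinarith [sq_nonneg (y - max x c - (y' - max x' c'))]

lemma Phi_mid (c c' : ℕ → ℝ) (T : Finset ℕ) (x x' y y' : ℝ) :
    Phi c T x y * Phi c' T x' y' ≤
      (Phi (fun z => (c z + c' z) / 2) T ((x + x') / 2) ((y + y') / 2)) ^ 2 := by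
  unfold Phi
  rw [← Finset.prod_mul_distrib, ← Finset.prod_pow]
  refine Finset.prod_le_prod (fun z _ => mul_nonneg (le_max_left _ _) (le_max_left _ _)) ?_
  intro z _
  exact fac_mid _ _ _ _ _ _

lemma W_mid (c c' d d' : ℕ → ℝ) (T S : Finset ℕ) (x x' y y' : ℝ) :
    W c d T S x y * W c' d' T S x' y' ≤
      (W (fun z => (c z + c' z) / 2) (fun z => (d z + d' z) / 2) T S
        ((x + x') / 2) ((y + y') / 2)) ^ 2 := by
  have h1 := Phi_mid c c' T x x' y y'
  have h2 := Phi_mid d d' S (1 - y) (1 - y') (1 - x) (1 - x')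
  have e1 : (1 - y + (1 - y')) / 2 = 1 - (y + y') / 2 := by ring
  have e2 : (1 - x + (1 - x')) / 2 = 1 - (x + x') / 2 := by ring
  rw [e1, e2] at h2
  unfold W
  calc Phi c T x y * Phi d S (1 - y) (1 - x) * (Phi c' T x' y' * Phi d' S (1 - y') (1 - x'))
      = (Phi c T x y * Phi c' T x' y') * (Phi d S (1 - y) (1 - x) * Phi d' S (1 - y') (1 - x')) := by
        ring
    _ ≤ _ := by
        rw [mul_pow]
        exact mul_le_mul h1 h2 (mul_nonneg (Phi_nonneg _ _ _ _) (Phi_nonneg _ _ _ _)) (sq_nonneg _)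

/-- the unit square -/
def sq01 : Set (ℝ × ℝ) := Icc 0 1 ×ˢ Icc 0 1

lemma meas_sq01 : MeasurableSet sq01 := measurableSet_Icc.prod measurableSet_Icc

lemma Vol_eq_prod (c d : ℕ → ℝ) (T S : Finset ℕ) :
    Vol c d T S = ∫ p in sq01, W c d T S p.1 p.2 := by
  unfold Vol sq01
  rw [intervalIntegral.integral_of_le zero_le_one, Measure.volume_eq_prod,
    ← Measure.prod_restrict]
  rw [integral_prod]
  · rw [integral_Icc_eq_integral_Ioc]
    refine integral_congr_ae (Filter.Eventually.of_forall fun x => ?_)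
    simp only
    rw [intervalIntegral.integral_of_le zero_le_one, integral_Icc_eq_integral_Ioc]
  · rw [Measure.prod_restrict, ← Measure.volume_eq_prod]
    exact (continuous_W c d T S).continuousOn.integrableOn_compact (isCompact_Icc.prod isCompact_Icc)

lemma Vol_nonneg (c d : ℕ → ℝ) (T S : Finset ℕ) : 0 ≤ Vol c d T S := by
  rw [Vol_eq_prod]
  exact setIntegral_nonneg meas_sq01 fun p _ => W_nonneg _ _ _ _ _ _

/-- the volume as a lower integral over the plane -/
lemma ofReal_Vol (c d : ℕ → ℝ) (T S : Finset ℕ) :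
    ENNReal.ofReal (Vol c d T S) = ∫⁻ p : Fin 2 → ℝ, sq01.indicator
      (fun q : ℝ × ℝ => ENNReal.ofReal (W c d T S q.1 q.2)) (p 0, p 1) := by
  have h1 : ∫⁻ p : Fin 2 → ℝ, sq01.indicator
      (fun q : ℝ × ℝ => ENNReal.ofReal (W c d T S q.1 q.2)) (p 0, p 1) =
      ∫⁻ q : ℝ × ℝ, sq01.indicator (fun q : ℝ × ℝ => ENNReal.ofReal (W c d T S q.1 q.2)) q := by
    have hm : Measurable (sq01.indicator
        (fun q : ℝ × ℝ => ENNReal.ofReal (W c d T S q.1 q.2))) :=
      ((continuous_W c d T S).measurable.ennreal_ofReal).indicator meas_sq01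
    have h := (volume_preserving_finTwoArrow ℝ).lintegral_comp hm
    rw [← h]
    rfl
  rw [h1, lintegral_indicator meas_sq01, Vol_eq_prod]
  rw [ofReal_integral_eq_lintegral_ofReal]
  · exact (continuous_W c d T S).continuousOn.integrableOn_compact
      (isCompact_Icc.prod isCompact_Icc)
  · exact Filter.Eventually.of_forall fun p => W_nonneg _ _ _ _ _ _

/-- **the volume of a gadget is midpoint log-concave in the ticks** -/
theorem Vol_mid (c c' d d' : ℕ → ℝ) (T S : Finset ℕ) :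
    Vol c d T S * Vol c' d' T S ≤
      (Vol (fun z => (c z + c' z) / 2) (fun z => (d z + d' z) / 2) T S) ^ 2 := by
  have hm : ∀ c d : ℕ → ℝ, Measurable fun p : Fin 2 → ℝ => sq01.indicator
      (fun q : ℝ × ℝ => ENNReal.ofReal (W c d T S q.1 q.2)) (p 0, p 1) := by
    intro c d
    have h1 : Measurable (sq01.indicator
        (fun q : ℝ × ℝ => ENNReal.ofReal (W c d T S q.1 q.2))) :=
      ((continuous_W c d T S).measurable.ennreal_ofReal).indicator meas_sq01
    exact h1.comp ((measurable_pi_apply 0).prodMk (measurable_pi_apply 1))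
  have h := Pool.Agent.Helper8.KS.PLB.pl_midpoint 2 (hm c d) (hm c' d')
    (hm (fun z => (c z + c' z) / 2) (fun z => (d z + d' z) / 2)) ?_
  · rw [← ofReal_Vol, ← ofReal_Vol, ← ofReal_Vol, ← ENNReal.ofReal_mul (Vol_nonneg _ _ _ _),
      ← ENNReal.ofReal_pow (Vol_nonneg _ _ _ _)] at h
    exact (ENNReal.ofReal_le_ofReal_iff (by positivity)).1 h
  · intro p q
    by_cases hp : (p 0, p 1) ∈ sq01
    · by_cases hq : (q 0, q 1) ∈ sq01
      · have hpq : ((p 0 + q 0) / 2, (p 1 + q 1) / 2) ∈ sq01 := by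
          obtain ⟨⟨a1, a2⟩, a3, a4⟩ := hp
          obtain ⟨⟨b1, b2⟩, b3, b4⟩ := hq
          simp only at a1 a2 a3 a4 b1 b2 b3 b4
          refine ⟨⟨?_, ?_⟩, ?_, ?_⟩ <;> simp only <;> linarith
        rw [indicator_of_mem hp, indicator_of_mem hq, indicator_of_mem hpq,
          ← ENNReal.ofReal_mul (W_nonneg _ _ _ _ _ _), ← ENNReal.ofReal_pow (W_nonneg _ _ _ _ _ _)]
        exact ENNReal.ofReal_le_ofReal (W_mid _ _ _ _ _ _ _ _ _ _)
      · rw [indicator_of_notMem hq, mul_zero]
        exact zero_le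
    · rw [indicator_of_notMem hp, zero_mul]
      exact zero_le

end Pool.Agent.T1K
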