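import Mathlib
import Pool.Agent.T1K.Vol

/-!
# The gradient of the volume of a gadget and the tangent inequality
-/

set_option autoImplicit false

namespace Pool.Agent.T1K

open MeasureTheory Set Filter Topology

/-! ## Iterated integrals over the unit square -/

lemma iter_eq_prod {f : ℝ × ℝ → ℝ} (hf : IntegrableOn f sq01) :
    ∫ x in (0:ℝ)..1, ∫ y in (0:ℝ)..1, f (x, y) = ∫ p in sq01, f p := by
  unfold sq01 at hf ⊢
  rw [intervalIntegral.integral_of_le zero_le_one, Measure.volume_eq_prod,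
    ← Measure.prod_restrict]
  rw [integral_prod]
  · rw [integral_Icc_eq_integral_Ioc]
    refine integral_congr_ae (Filter.Eventually.of_forall fun x => ?_)
    simp only
    rw [intervalIntegral.integral_of_le zero_le_one, integral_Icc_eq_integral_Ioc]
  · rw [Measure.prod_restrict, ← Measure.volume_eq_prod]
    exact hf

lemma vol_sq01 : (volume : Measure (ℝ × ℝ)).restrict sq01 univ = 1 := by
  rw [Measure.restrict_apply_univ]
  unfold sq01
  rw [Measure.volume_eq_prod, Measure.prod_prod, Real.volume_Icc]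
  simp

instance : IsFiniteMeasure ((volume : Measure (ℝ × ℝ)).restrict sq01) :=
  ⟨by rw [vol_sq01]; exact ENNReal.one_lt_top⟩

/-- measurable functions bounded on the unit square are integrable -/
lemma intOn_of_bdd {f : ℝ × ℝ → ℝ} (hf : Measurable f) {C : ℝ}
    (hC : ∀ p ∈ sq01, |f p| ≤ C) : IntegrableOn f sq01 := by
  refine Integrable.of_bound hf.aestronglyMeasurable C ?_
  rw [ae_restrict_iff' meas_sq01]
  exact Filter.Eventually.of_forall fun p hp => hC p hp

lemma W_le_one_sq {c d : ℕ → ℝ} {T S : Finset ℕ} {p : ℝ × ℝ} (hp : p ∈ sq01) :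
    W c d T S p.1 p.2 ≤ 1 := by
  obtain ⟨⟨h1, h2⟩, h3, h4⟩ := hp
  exact W_le_one (by linarith)

/-! ## Lipschitz bounds -/

lemma abs_prod_sub_prod_le {ι : Type} (s : Finset ι) (f g : ι → ℝ)
    (hf : ∀ i ∈ s, |f i| ≤ 1) (hg : ∀ i ∈ s, |g i| ≤ 1) :
    |∏ i ∈ s, f i - ∏ i ∈ s, g i| ≤ ∑ i ∈ s, |f i - g i| := by
  classical
  induction s using Finset.induction_on with
  | empty => simp
  | insert a s ha ih =>
    rw [Finset.prod_insert ha, Finset.prod_insert ha, Finset.sum_insert ha]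
    have h1 := ih (fun i hi => hf i (Finset.mem_insert_of_mem hi))
      (fun i hi => hg i (Finset.mem_insert_of_mem hi))
    have h2 : |∏ i ∈ s, f i| ≤ 1 := by
      rw [Finset.abs_prod]
      exact Finset.prod_le_one (fun i _ => abs_nonneg _)
        fun i hi => hf i (Finset.mem_insert_of_mem hi)
    have h3 : |g a| ≤ 1 := hg a (Finset.mem_insert_self _ _)
    have e : f a * ∏ i ∈ s, f i - g a * ∏ i ∈ s, g i =
        (f a - g a) * ∏ i ∈ s, f i + g a * (∏ i ∈ s, f i - ∏ i ∈ s, g i) := by ring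
    rw [e]
    refine (abs_add_le _ _).trans ?_
    rw [abs_mul, abs_mul]
    have h4 : |f a - g a| * |∏ i ∈ s, f i| ≤ |f a - g a| * 1 :=
      mul_le_mul_of_nonneg_left h2 (abs_nonneg _)
    have h5 : |g a| * |∏ i ∈ s, f i - ∏ i ∈ s, g i| ≤ 1 * ∑ i ∈ s, |f i - g i| :=
      mul_le_mul h3 h1 (abs_nonneg _) zero_le_one
    linarith

lemma fac_lip (x y c c' : ℝ) :
    |max 0 (y - max x c) - max 0 (y - max x c')| ≤ |c - c'| := by
  have h1 : |max 0 (y - max x c) - max 0 (y - max x c')| ≤ |(y - max x c) - (y - max x c')| := by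
    rw [max_comm 0, max_comm 0]
    exact abs_max_sub_max_le_abs _ _ _
  have h2 : |max x c - max x c'| ≤ |c - c'| := by
    rw [max_comm x, max_comm x]
    exact abs_max_sub_max_le_abs _ _ _
  have e : (y - max x c) - (y - max x c') = -(max x c - max x c') := by ring
  rw [e, abs_neg] at h1
  exact h1.trans h2

lemma abs_fac_le {x y c : ℝ} (h : y - x ≤ 1) : |max 0 (y - max x c)| ≤ 1 := by
  rw [abs_of_nonneg (le_max_left _ _)]
  exact fac_le_one h

lemma Phi_lip (c c' : ℕ → ℝ) (T : Finset ℕ) {x y : ℝ} (h : y - x ≤ 1) :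
    |Phi c T x y - Phi c' T x y| ≤ ∑ z ∈ T, |c z - c' z| := by
  unfold Phi
  refine (abs_prod_sub_prod_le T _ _ (fun z _ => abs_fac_le h) (fun z _ => abs_fac_le h)).trans ?_
  exact Finset.sum_le_sum fun z _ => fac_lip _ _ _ _

lemma W_lip (c c' d d' : ℕ → ℝ) (T S : Finset ℕ) {x y : ℝ} (h : y - x ≤ 1) :
    |W c d T S x y - W c' d' T S x y| ≤ ∑ z ∈ T, |c z - c' z| + ∑ z ∈ S, |d z - d' z| := by
  unfold W
  have h' : 1 - x - (1 - y) ≤ 1 := by linarith
  have e : Phi c T x y * Phi d S (1 - y) (1 - x) - Phi c' T x y * Phi d' S (1 - y) (1 - x) =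
      (Phi c T x y - Phi c' T x y) * Phi d S (1 - y) (1 - x) +
      Phi c' T x y * (Phi d S (1 - y) (1 - x) - Phi d' S (1 - y) (1 - x)) := by ring
  rw [e]
  refine (abs_add_le _ _).trans ?_
  rw [abs_mul, abs_mul, abs_of_nonneg (Phi_nonneg d S _ _), abs_of_nonneg (Phi_nonneg c' T _ _)]
  have h1 := Phi_lip c c' T h
  have h2 := Phi_lip d d' S h'
  have h3 : Phi d S (1 - y) (1 - x) ≤ 1 := Phi_le_one h'
  have h4 : Phi c' T x y ≤ 1 := Phi_le_one h
  have h5 := mul_le_mul h1 h3 (Phi_nonneg _ _ _ _) ((abs_nonneg _).trans h1)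
  have h6 := mul_le_mul h4 h2 (abs_nonneg _) zero_le_one
  linarith

/-- the volume is Lipschitz in the ticks -/
theorem Vol_lip (c c' d d' : ℕ → ℝ) (T S : Finset ℕ) :
    |Vol c d T S - Vol c' d' T S| ≤ ∑ z ∈ T, |c z - c' z| + ∑ z ∈ S, |d z - d' z| := by
  rw [Vol_eq_prod, Vol_eq_prod, ← integral_sub]
  · have h : ∀ p ∈ sq01, ‖W c d T S p.1 p.2 - W c' d' T S p.1 p.2‖ ≤
        ∑ z ∈ T, |c z - c' z| + ∑ z ∈ S, |d z - d' z| := by
      rintro p ⟨⟨h1, h2⟩, h3, h4⟩
      exact W_lip _ _ _ _ _ _ (by linarith)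
    have h2 := norm_setIntegral_le_of_norm_le_const (μ := volume) (s := sq01)
      (by rw [← Measure.restrict_apply_univ, vol_sq01]; exact ENNReal.one_lt_top) h
    rw [Real.norm_eq_abs] at h2
    refine h2.trans ?_
    have e : volume.real sq01 = 1 := by
      rw [Measure.real, ← Measure.restrict_apply_univ, vol_sq01]
      rfl
    rw [e, mul_one]
  · exact (continuous_W c d T S).continuousOn.integrableOn_compact
      (isCompact_Icc.prod isCompact_Icc)
  · exact (continuous_W c' d' T S).continuousOn.integrableOn_compact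
      (isCompact_Icc.prod isCompact_Icc)

/-! ## Monotonicity -/

lemma Phi_anti_tick {c c' : ℕ → ℝ} {T : Finset ℕ} (h : ∀ z ∈ T, c' z ≤ c z) (x y : ℝ) :
    Phi c T x y ≤ Phi c' T x y := by
  unfold Phi
  refine Finset.prod_le_prod (fun z _ => le_max_left _ _) fun z hz => ?_
  refine max_le_max_left 0 ?_
  have := max_le_max_left x (h z hz)
  linarith

lemma W_anti_tick {c c' d d' : ℕ → ℝ} {T S : Finset ℕ} (h : ∀ z ∈ T, c' z ≤ c z)
    (h' : ∀ z ∈ S, d' z ≤ d z) (x y : ℝ) : W c d T S x y ≤ W c' d' T S x y :=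
  mul_le_mul (Phi_anti_tick h _ _) (Phi_anti_tick h' _ _) (Phi_nonneg _ _ _ _)
    (Phi_nonneg _ _ _ _)

/-- the volume is antitone in the ticks -/
theorem Vol_anti_tick {c c' d d' : ℕ → ℝ} {T S : Finset ℕ} (h : ∀ z ∈ T, c' z ≤ c z)
    (h' : ∀ z ∈ S, d' z ≤ d z) : Vol c d T S ≤ Vol c' d' T S := by
  rw [Vol_eq_prod, Vol_eq_prod]
  refine setIntegral_mono ?_ ?_ fun p => W_anti_tick h h' _ _
  · exact (continuous_W c d T S).continuousOn.integrableOn_compact
      (isCompact_Icc.prod isCompact_Icc)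
  · exact (continuous_W c' d' T S).continuousOn.integrableOn_compact
      (isCompact_Icc.prod isCompact_Icc)

lemma Phi_mono_xy {c : ℕ → ℝ} {T : Finset ℕ} {x x' y y' : ℝ} (hx : x' ≤ x) (hy : y ≤ y') :
    Phi c T x y ≤ Phi c T x' y' := by
  unfold Phi
  refine Finset.prod_le_prod (fun z _ => le_max_left _ _) fun z _ => ?_
  refine max_le_max_left 0 ?_
  have := max_le_max_right (c z) hx
  linarith

/-- the weight is antitone in the lower centre and monotone in the upper centre -/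
lemma W_mono_xy {c d : ℕ → ℝ} {T S : Finset ℕ} {x x' y y' : ℝ} (hx : x' ≤ x) (hy : y ≤ y') :
    W c d T S x y ≤ W c d T S x' y' :=
  mul_le_mul (Phi_mono_xy hx hy) (Phi_mono_xy (by linarith) (by linarith)) (Phi_nonneg _ _ _ _)
    (Phi_nonneg _ _ _ _)

/-- reflection -/
lemma W_mirror (c d : ℕ → ℝ) (T S : Finset ℕ) (x y : ℝ) :
    W c d T S x y = W d c S T (1 - y) (1 - x) := by
  unfold W
  rw [sub_sub_cancel, sub_sub_cancel, mul_comm]

end Pool.Agent.T1K
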