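import Mathlib
import Pool.Agent.T1K.VolGrad

/-!
# The tangent inequality for the volume of a gadget
-/

set_option autoImplicit false

namespace Pool.Agent.T1K

open MeasureTheory Set Filter Topology

open Classical in
/-- integrand of the gradient in a lower tick -/
noncomputable def igL (c d : ℕ → ℝ) (T S : Finset ℕ) (z : ℕ) (p : ℝ × ℝ) : ℝ :=
  if p.1 < c z ∧ c z < p.2 then W c d (T.erase z) S p.1 p.2 else 0

open Classical in
/-- integrand of the gradient in an upper tick -/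
noncomputable def igR (c d : ℕ → ℝ) (T S : Finset ℕ) (z : ℕ) (p : ℝ × ℝ) : ℝ :=
  if p.1 < 1 - d z ∧ 1 - d z < p.2 then W c d T (S.erase z) p.1 p.2 else 0

/-- minus the derivative of the volume in the lower tick `z` -/
noncomputable def gradL (c d : ℕ → ℝ) (T S : Finset ℕ) (z : ℕ) : ℝ :=
  ∫ x in (0 : ℝ)..1, ∫ y in (0 : ℝ)..1, igL c d T S z (x, y)

/-- minus the derivative of the volume in the (mirrored) upper tick `z` -/
noncomputable def gradR (c d : ℕ → ℝ) (T S : Finset ℕ) (z : ℕ) : ℝ :=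
  ∫ x in (0 : ℝ)..1, ∫ y in (0 : ℝ)..1, igR c d T S z (x, y)

lemma igL_nonneg (c d : ℕ → ℝ) (T S : Finset ℕ) (z : ℕ) (p : ℝ × ℝ) : 0 ≤ igL c d T S z p := by
  unfold igL
  split_ifs
  · exact W_nonneg _ _ _ _ _ _
  · exact le_rfl

lemma igR_nonneg (c d : ℕ → ℝ) (T S : Finset ℕ) (z : ℕ) (p : ℝ × ℝ) : 0 ≤ igR c d T S z p := by
  unfold igR
  split_ifs
  · exact W_nonneg _ _ _ _ _ _
  · exact le_rfl

lemma igL_le_one {c d : ℕ → ℝ} {T S : Finset ℕ} {z : ℕ} {p : ℝ × ℝ} (hp : p ∈ sq01) :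
    igL c d T S z p ≤ 1 := by
  unfold igL
  split_ifs
  · exact W_le_one_sq hp
  · exact zero_le_one

lemma igR_le_one {c d : ℕ → ℝ} {T S : Finset ℕ} {z : ℕ} {p : ℝ × ℝ} (hp : p ∈ sq01) :
    igR c d T S z p ≤ 1 := by
  unfold igR
  split_ifs
  · exact W_le_one_sq hp
  · exact zero_le_one

lemma meas_igL (c d : ℕ → ℝ) (T S : Finset ℕ) (z : ℕ) : Measurable (igL c d T S z) := by
  unfold igL
  refine Measurable.ite ?_ (continuous_W c d (T.erase z) S).measurable measurable_const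
  exact (measurableSet_lt measurable_fst measurable_const).inter
    (measurableSet_lt measurable_const measurable_snd)

lemma meas_igR (c d : ℕ → ℝ) (T S : Finset ℕ) (z : ℕ) : Measurable (igR c d T S z) := by
  unfold igR
  refine Measurable.ite ?_ (continuous_W c d T (S.erase z)).measurable measurable_const
  exact (measurableSet_lt measurable_fst measurable_const).inter
    (measurableSet_lt measurable_const measurable_snd)

lemma int_igL (c d : ℕ → ℝ) (T S : Finset ℕ) (z : ℕ) : IntegrableOn (igL c d T S z) sq01 :=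
  intOn_of_bdd (meas_igL _ _ _ _ _) (C := 1) fun p hp => by
    rw [abs_of_nonneg (igL_nonneg _ _ _ _ _ _)]
    exact igL_le_one hp

lemma int_igR (c d : ℕ → ℝ) (T S : Finset ℕ) (z : ℕ) : IntegrableOn (igR c d T S z) sq01 :=
  intOn_of_bdd (meas_igR _ _ _ _ _) (C := 1) fun p hp => by
    rw [abs_of_nonneg (igR_nonneg _ _ _ _ _ _)]
    exact igR_le_one hp

lemma int_W (c d : ℕ → ℝ) (T S : Finset ℕ) :
    IntegrableOn (fun p : ℝ × ℝ => W c d T S p.1 p.2) sq01 :=
  (continuous_W c d T S).continuousOn.integrableOn_compact (isCompact_Icc.prod isCompact_Icc)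

lemma gradL_eq (c d : ℕ → ℝ) (T S : Finset ℕ) (z : ℕ) :
    gradL c d T S z = ∫ p in sq01, igL c d T S z p := iter_eq_prod (int_igL _ _ _ _ _)

lemma gradR_eq (c d : ℕ → ℝ) (T S : Finset ℕ) (z : ℕ) :
    gradR c d T S z = ∫ p in sq01, igR c d T S z p := iter_eq_prod (int_igR _ _ _ _ _)

lemma gradL_nonneg (c d : ℕ → ℝ) (T S : Finset ℕ) (z : ℕ) : 0 ≤ gradL c d T S z := by
  rw [gradL_eq]
  exact setIntegral_nonneg meas_sq01 fun p _ => igL_nonneg _ _ _ _ _ _

lemma gradR_nonneg (c d : ℕ → ℝ) (T S : Finset ℕ) (z : ℕ) : 0 ≤ gradR c d T S z := by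
  rw [gradR_eq]
  exact setIntegral_nonneg meas_sq01 fun p _ => igR_nonneg _ _ _ _ _ _

/-! ## The derivative -/

open Classical in
lemma fac_deriv {x y c e : ℝ} (hx : x ≠ c) (hy : y ≠ c) :
    HasDerivAt (fun t : ℝ => max 0 (y - max x (c + t * e))) (if x < c ∧ c < y then -e else 0) 0 := by
  have hcont : Tendsto (fun t : ℝ => c + t * e) (𝓝 0) (𝓝 c) := by
    have h : Continuous fun t : ℝ => c + t * e := by fun_prop
    have h2 := h.tendsto 0
    simpa using h2
  rcases lt_or_gt_of_ne hx with h1 | h1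
  · have e1 : ∀ᶠ t in 𝓝 (0:ℝ), x < c + t * e := hcont.eventually_const_lt h1
    rcases lt_or_gt_of_ne hy with h2 | h2
    · have e2 : ∀ᶠ t in 𝓝 (0:ℝ), y < c + t * e := hcont.eventually_const_lt h2
      rw [if_neg (by rintro ⟨_, h⟩; exact lt_asymm h h2)]
      refine (hasDerivAt_const (0:ℝ) (0:ℝ)).congr_of_eventuallyEq ?_
      filter_upwards [e1, e2] with t ht1 ht2
      rw [max_eq_right ht1.le, max_eq_left (by linarith)]
    · have e2 : ∀ᶠ t in 𝓝 (0:ℝ), c + t * e < y := hcont.eventually_lt_const h2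
      rw [if_pos ⟨h1, h2⟩]
      have h3 : HasDerivAt (fun t : ℝ => y - (c + t * e)) (-e) 0 := by
        have := (((hasDerivAt_id (0:ℝ)).mul_const e).const_add c).const_sub y
        simpa using this
      refine h3.congr_of_eventuallyEq ?_
      filter_upwards [e1, e2] with t ht1 ht2
      rw [max_eq_right ht1.le, max_eq_right (by linarith)]
  · have e1 : ∀ᶠ t in 𝓝 (0:ℝ), c + t * e < x := hcont.eventually_lt_const h1
    rw [if_neg (by rintro ⟨h, _⟩; exact lt_asymm h h1)]
    refine (hasDerivAt_const (0:ℝ) (max 0 (y - x))).congr_of_eventuallyEq ?_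
    filter_upwards [e1] with t ht1
    rw [max_eq_left ht1.le]

open Classical in
lemma Phi_deriv {c e : ℕ → ℝ} {T : Finset ℕ} {x y : ℝ} (hx : ∀ z ∈ T, x ≠ c z)
    (hy : ∀ z ∈ T, y ≠ c z) :
    HasDerivAt (fun t : ℝ => Phi (fun z => c z + t * e z) T x y)
      (∑ z ∈ T, Phi c (T.erase z) x y * (if x < c z ∧ c z < y then -e z else 0)) 0 := by
  have h := HasDerivAt.fun_finsetProd (u := T) (x := (0:ℝ))
    (f := fun z t => max 0 (y - max x (c z + t * e z)))
    (f' := fun z => if x < c z ∧ c z < y then -e z else 0)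
    (fun z hz => fac_deriv (hx z hz) (hy z hz))
  simp only [zero_mul, add_zero, smul_eq_mul] at h
  exact h

/-- the derivative of the integrand -/
noncomputable def dW (c d e e' : ℕ → ℝ) (T S : Finset ℕ) (p : ℝ × ℝ) : ℝ :=
  ∑ z ∈ T, -(e z * igL c d T S z p) + ∑ z ∈ S, -(e' z * igR c d T S z p)

lemma W_deriv {c d e e' : ℕ → ℝ} {T S : Finset ℕ} {p : ℝ × ℝ} (h1 : ∀ z ∈ T, p.1 ≠ c z)
    (h2 : ∀ z ∈ T, p.2 ≠ c z) (h3 : ∀ z ∈ S, p.1 ≠ 1 - d z) (h4 : ∀ z ∈ S, p.2 ≠ 1 - d z) :
    HasDerivAt (fun t : ℝ => W (fun z => c z + t * e z) (fun z => d z + t * e' z) T S p.1 p.2)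
      (dW c d e e' T S p) 0 := by
  classical
  have a1 := Phi_deriv (e := e) h1 h2
  have a2 := Phi_deriv (c := d) (e := e') (T := S) (x := 1 - p.2) (y := 1 - p.1)
    (fun z hz h => h4 z hz (by linarith)) (fun z hz h => h3 z hz (by linarith))
  have a3 := a1.mul a2
  simp only [zero_mul, add_zero] at a3
  unfold W
  have hfun : (fun t : ℝ => Phi (fun z => c z + t * e z) T p.1 p.2 *
      Phi (fun z => d z + t * e' z) S (1 - p.2) (1 - p.1)) =
      (fun t : ℝ => Phi (fun z => c z + t * e z) T p.1 p.2) *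
      (fun t : ℝ => Phi (fun z => d z + t * e' z) S (1 - p.2) (1 - p.1)) := rfl
  rw [hfun]
  refine a3.congr_deriv ?_
  unfold dW
  rw [Finset.sum_mul, Finset.mul_sum]
  congr 1
  · refine Finset.sum_congr rfl fun z _ => ?_
    unfold igL W
    split_ifs
    · ring
    · simp
  · refine Finset.sum_congr rfl fun z _ => ?_
    unfold igR W
    by_cases h : p.1 < 1 - d z ∧ 1 - d z < p.2
    · rw [if_pos h, if_pos ⟨by linarith [h.2], by linarith [h.1]⟩]
      ring
    · rw [if_neg h, if_neg (by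
        rintro ⟨b1, b2⟩
        exact h ⟨by linarith, by linarith⟩)]
      simp

lemma ae_fst_ne (a : ℝ) : ∀ᵐ p ∂(volume.restrict sq01 : Measure (ℝ × ℝ)), p.1 ≠ a := by
  refine ae_restrict_of_ae ?_
  rw [ae_iff]
  have e : {p : ℝ × ℝ | ¬ p.1 ≠ a} = {a} ×ˢ univ := by
    ext p
    simp
  rw [e, Measure.volume_eq_prod, Measure.prod_prod]
  simp

lemma ae_snd_ne (a : ℝ) : ∀ᵐ p ∂(volume.restrict sq01 : Measure (ℝ × ℝ)), p.2 ≠ a := by
  refine ae_restrict_of_ae ?_
  rw [ae_iff]
  have e : {p : ℝ × ℝ | ¬ p.2 ≠ a} = univ ×ˢ {a} := by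
    ext p
    simp
  rw [e, Measure.volume_eq_prod, Measure.prod_prod]
  simp

lemma integral_dW (c d e e' : ℕ → ℝ) (T S : Finset ℕ) :
    ∫ p in sq01, dW c d e e' T S p =
      -(∑ z ∈ T, e z * gradL c d T S z + ∑ z ∈ S, e' z * gradR c d T S z) := by
  unfold dW
  have i1 : ∀ z, IntegrableOn (fun p => -(e z * igL c d T S z p)) sq01 := fun z =>
    ((int_igL c d T S z).const_mul (e z)).neg
  have i2 : ∀ z, IntegrableOn (fun p => -(e' z * igR c d T S z p)) sq01 := fun z =>
    ((int_igR c d T S z).const_mul (e' z)).neg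
  rw [integral_add (integrable_finsetSum _ fun z _ => i1 z)
    (integrable_finsetSum _ fun z _ => i2 z), integral_finsetSum _ fun z _ => i1 z,
    integral_finsetSum _ fun z _ => i2 z, neg_add, ← Finset.sum_neg_distrib,
    ← Finset.sum_neg_distrib]
  congr 1
  · refine Finset.sum_congr rfl fun z _ => ?_
    rw [integral_neg, integral_const_mul, gradL_eq]
  · refine Finset.sum_congr rfl fun z _ => ?_
    rw [integral_neg, integral_const_mul, gradR_eq]

/-- **the directional derivative of the volume** -/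
theorem Vol_hasDerivAt (c d e e' : ℕ → ℝ) (T S : Finset ℕ) :
    HasDerivAt (fun t : ℝ => Vol (fun z => c z + t * e z) (fun z => d z + t * e' z) T S)
      (-(∑ z ∈ T, e z * gradL c d T S z + ∑ z ∈ S, e' z * gradR c d T S z)) 0 := by
  set B : ℝ := ∑ z ∈ T, |e z| + ∑ z ∈ S, |e' z| with hB
  have hB0 : 0 ≤ B := add_nonneg (Finset.sum_nonneg fun _ _ => abs_nonneg _)
    (Finset.sum_nonneg fun _ _ => abs_nonneg _)
  have hF : (fun t : ℝ => Vol (fun z => c z + t * e z) (fun z => d z + t * e' z) T S) =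
      fun t : ℝ => ∫ p, W (fun z => c z + t * e z) (fun z => d z + t * e' z) T S p.1 p.2
        ∂(volume.restrict sq01) := by
    funext t
    exact Vol_eq_prod _ _ _ _
  rw [hF, ← integral_dW]
  refine (hasDerivAt_integral_of_dominated_loc_of_lip (s := univ) (bound := fun _ => B) univ_mem
    ?_ ?_ ?_ ?_ ?_ ?_).2
  · refine Eventually.of_forall fun t => ?_
    exact (continuous_W _ _ T S).measurable.aestronglyMeasurable
  · exact int_W _ _ _ _
  · have i1 : ∀ z, Measurable (fun p => -(e z * igL c d T S z p)) := fun z =>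
      ((meas_igL c d T S z).const_mul (e z)).neg
    have i2 : ∀ z, Measurable (fun p => -(e' z * igR c d T S z p)) := fun z =>
      ((meas_igR c d T S z).const_mul (e' z)).neg
    have : Measurable (dW c d e e' T S) := by
      unfold dW
      exact (Finset.measurable_sum _ fun z _ => i1 z).add
        (Finset.measurable_sum _ fun z _ => i2 z)
    exact this.aestronglyMeasurable
  · rw [ae_restrict_iff' meas_sq01]
    refine Eventually.of_forall fun p hp => ?_
    obtain ⟨⟨b1, b2⟩, b3, b4⟩ := hp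
    refine LipschitzOnWith.of_dist_le_mul fun t _ s _ => ?_
    rw [Real.dist_eq, Real.dist_eq]
    refine (W_lip _ _ _ _ T S (by linarith)).trans ?_
    have hn : ((Real.nnabs B : NNReal) : ℝ) = B := by
      rw [Real.coe_nnabs, abs_of_nonneg hB0]
    rw [hn, hB, add_mul, Finset.sum_mul, Finset.sum_mul]
    refine add_le_add (Finset.sum_le_sum fun z _ => ?_) (Finset.sum_le_sum fun z _ => ?_)
    · rw [← abs_mul]
      exact le_of_eq (by congr 1; ring)
    · rw [← abs_mul]
      exact le_of_eq (by congr 1; ring)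
  · exact integrable_const _
  · have b1 : ∀ᵐ p ∂(volume.restrict sq01 : Measure (ℝ × ℝ)), ∀ z ∈ T, p.1 ≠ c z :=
      (ae_ball_iff T.countable_toSet).2 fun z _ => ae_fst_ne _
    have b2 : ∀ᵐ p ∂(volume.restrict sq01 : Measure (ℝ × ℝ)), ∀ z ∈ T, p.2 ≠ c z :=
      (ae_ball_iff T.countable_toSet).2 fun z _ => ae_snd_ne _
    have b3 : ∀ᵐ p ∂(volume.restrict sq01 : Measure (ℝ × ℝ)), ∀ z ∈ S, p.1 ≠ 1 - d z :=
      (ae_ball_iff S.countable_toSet).2 fun z _ => ae_fst_ne _
    have b4 : ∀ᵐ p ∂(volume.restrict sq01 : Measure (ℝ × ℝ)), ∀ z ∈ S, p.2 ≠ 1 - d z :=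
      (ae_ball_iff S.countable_toSet).2 fun z _ => ae_snd_ne _
    filter_upwards [b1, b2, b3, b4] with p h1 h2 h3 h4
    exact W_deriv h1 h2 h3 h4

end Pool.Agent.T1K
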