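import Mathlib
import Pool.Agent.T1K.VolTan
import Pool.Agent.T1K.Tangent

/-!
# Tangent inequality and bounds for the volume of a gadget
-/

set_option autoImplicit false

namespace Pool.Agent.T1K

open MeasureTheory Set Filter Topology

/-- **tangent inequality for the volume** -/
theorem Vol_tangent (c0 d0 c d : ℕ → ℝ) (T S : Finset ℕ) (hV : 0 < Vol c0 d0 T S) :
    Vol c d T S ≤ Vol c0 d0 T S * Real.exp (-(∑ z ∈ T, (c z - c0 z) * gradL c0 d0 T S z +
      ∑ z ∈ S, (d z - d0 z) * gradR c0 d0 T S z) / Vol c0 d0 T S) := by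
  have h := tangent1
    (fun t : ℝ => Vol (fun z => c0 z + t * (c z - c0 z)) (fun z => d0 z + t * (d z - d0 z)) T S)
    (-(∑ z ∈ T, (c z - c0 z) * gradL c0 d0 T S z + ∑ z ∈ S, (d z - d0 z) * gradR c0 d0 T S z))
    (Vol_hasDerivAt c0 d0 (fun z => c z - c0 z) (fun z => d z - d0 z) T S)
    (by simpa using hV) (fun t => Vol_nonneg _ _ _ _) ?_
  · simpa using h
  · intro s _ _
    refine (Vol_mid _ _ _ _ T S).trans (le_of_eq ?_)
    congr 2
    · funext z
      ring
    · funext z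
      ring

/-- the force on the lower tick `z` -/
noncomputable def frcL (c d : ℕ → ℝ) (T S : Finset ℕ) (z : ℕ) : ℝ :=
  gradL c d T S z / Vol c d T S

/-- the force on the upper tick `z` -/
noncomputable def frcR (c d : ℕ → ℝ) (T S : Finset ℕ) (z : ℕ) : ℝ :=
  gradR c d T S z / Vol c d T S

lemma frcL_nonneg (c d : ℕ → ℝ) (T S : Finset ℕ) (z : ℕ) : 0 ≤ frcL c d T S z :=
  div_nonneg (gradL_nonneg _ _ _ _ _) (Vol_nonneg _ _ _ _)

lemma frcR_nonneg (c d : ℕ → ℝ) (T S : Finset ℕ) (z : ℕ) : 0 ≤ frcR c d T S z :=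
  div_nonneg (gradR_nonneg _ _ _ _ _) (Vol_nonneg _ _ _ _)

/-- **tangent inequality for the volume, with the forces** -/
theorem Vol_tangent_frc (c0 d0 c d : ℕ → ℝ) (T S : Finset ℕ) (hV : 0 < Vol c0 d0 T S) :
    Vol c d T S ≤ Vol c0 d0 T S * Real.exp (-∑ z ∈ T, frcL c0 d0 T S z * (c z - c0 z) -
      ∑ z ∈ S, frcR c0 d0 T S z * (d z - d0 z)) := by
  refine (Vol_tangent c0 d0 c d T S hV).trans (le_of_eq ?_)
  congr 2
  unfold frcL frcR
  rw [neg_div, add_div, Finset.sum_div, Finset.sum_div, neg_add]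
  congr 1
  · congr 1
    exact Finset.sum_congr rfl fun z _ => by ring
  · congr 1
    exact Finset.sum_congr rfl fun z _ => by ring

/-! ## The force on a tick -/

lemma W_erase (c d : ℕ → ℝ) {T : Finset ℕ} (S : Finset ℕ) {z : ℕ} (hz : z ∈ T) (x y : ℝ) :
    W c d T S x y = max 0 (y - max x (c z)) * W c d (T.erase z) S x y := by
  unfold W Phi
  rw [← Finset.mul_prod_erase T _ hz]
  ring

/-- an antitone function has at least its share of the integral on an initial interval -/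
lemma share_of_antitone {f : ℝ → ℝ} (hf : Antitone f) {u : ℝ} (h0 : 0 ≤ u) (h1 : u ≤ 1) :
    u * ∫ x in (0:ℝ)..1, f x ≤ ∫ x in (0:ℝ)..u, f x := by
  have e := intervalIntegral.smul_integral_comp_mul_left (a := 0) (b := 1) f u
  rw [mul_zero, mul_one, smul_eq_mul] at e
  rw [← e]
  refine mul_le_mul_of_nonneg_left ?_ h0
  refine intervalIntegral.integral_mono_on zero_le_one ?_ ?_ fun x hx => ?_
  · exact hf.intervalIntegrable
  · refine Antitone.intervalIntegrable fun a b hab => hf ?_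
    exact mul_le_mul_of_nonneg_left hab h0
  · refine hf ?_
    have := mul_le_mul_of_nonneg_right h1 hx.1
    linarith

lemma dX_antitone (c d : ℕ → ℝ) (T S : Finset ℕ) : Antitone (dX c d T S) := by
  intro a b hab
  unfold dX
  have hc : ∀ x : ℝ, Continuous fun y => W c d T S x y := fun x =>
    (continuous_W c d T S).comp (by fun_prop : Continuous fun y : ℝ => (x, y))
  exact intervalIntegral.integral_mono_on zero_le_one ((hc b).intervalIntegrable _ _)
    ((hc a).intervalIntegrable _ _) fun y _ => W_mono_xy hab le_rfl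

lemma Vol_eq_dX_h1 (c d : ℕ → ℝ) (T S : Finset ℕ) :
    Vol c d T S = ∫ x in (0:ℝ)..1, dX c d T S x := rfl

/-- **the force on a lower tick** -/
theorem gradL_ge {c d : ℕ → ℝ} {T S : Finset ℕ} {z : ℕ} (hz : z ∈ T) (h0 : 0 ≤ c z)
    (h1 : c z ≤ 1) : c z * Vol c d T S ≤ gradL c d T S z := by
  have hs := share_of_antitone (dX_antitone c d T S) h0 h1
  rw [← Vol_eq_dX_h1] at hs
  refine hs.trans ?_
  have hc : ∀ x : ℝ, Continuous fun y => W c d T S x y := fun x =>
    (continuous_W c d T S).comp (by fun_prop : Continuous fun y : ℝ => (x, y))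
  have hgm : ∀ x : ℝ, Measurable fun y => igL c d T S z (x, y) := fun x =>
    (meas_igL c d T S z).comp (by fun_prop)
  have hle : ∀ x ∈ Ico (0:ℝ) (c z), ∀ y ∈ Icc (0:ℝ) 1, W c d T S x y ≤ igL c d T S z (x, y) := by
    intro x hx y hy
    unfold igL
    rw [W_erase c d S hz]
    by_cases h : c z < y
    · rw [if_pos ⟨hx.2, h⟩]
      have h2 : max 0 (y - max x (c z)) ≤ 1 := by
        rw [max_eq_right hx.2.le]
        exact max_le zero_le_one (by linarith [hy.2])
      have := mul_le_mul_of_nonneg_right h2 (W_nonneg c d (T.erase z) S x y)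
      simpa using this
    · rw [if_neg (fun hh => h hh.2), max_eq_right hx.2.le, max_eq_left (by linarith), zero_mul]
  have hint : IntegrableOn (fun p : ℝ × ℝ => igL c d T S z p) sq01 := int_igL c d T S z
  have hfub : IntervalIntegrable (fun x => ∫ y in (0:ℝ)..1, igL c d T S z (x, y)) volume 0 1 := by
    rw [intervalIntegrable_iff_integrableOn_Icc_of_le zero_le_one]
    unfold sq01 at hint
    rw [IntegrableOn, Measure.volume_eq_prod, ← Measure.prod_restrict] at hint
    have h2 := hint.integral_prod_left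
    refine h2.congr (Eventually.of_forall fun x => ?_)
    simp only
    rw [intervalIntegral.integral_of_le zero_le_one, integral_Icc_eq_integral_Ioc]
  have hsub : ∫ x in (0:ℝ)..c z, ∫ y in (0:ℝ)..1, igL c d T S z (x, y) ≤ gradL c d T S z := by
    unfold gradL
    have hadd := intervalIntegral.integral_add_adjacent_intervals
      (a := 0) (b := c z) (c := 1) (μ := volume)
      (f := fun x => ∫ y in (0:ℝ)..1, igL c d T S z (x, y))
      (hfub.mono_set (by rw [uIcc_of_le h0, uIcc_of_le zero_le_one]; exact Icc_subset_Icc le_rfl h1))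
      (hfub.mono_set (by rw [uIcc_of_le h1, uIcc_of_le zero_le_one]; exact Icc_subset_Icc h0 le_rfl))
    rw [← hadd]
    have : 0 ≤ ∫ x in (c z)..1, ∫ y in (0:ℝ)..1, igL c d T S z (x, y) :=
      intervalIntegral.integral_nonneg h1 fun x _ =>
        intervalIntegral.integral_nonneg zero_le_one fun y _ => igL_nonneg _ _ _ _ _ _
    linarith
  refine le_trans ?_ hsub
  refine intervalIntegral.integral_mono_on_of_le_Ioo h0 ?_ ?_ fun x hx => ?_
  · exact (dX_antitone c d T S).intervalIntegrable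
  · exact hfub.mono_set
      (by rw [uIcc_of_le h0, uIcc_of_le zero_le_one]; exact Icc_subset_Icc le_rfl h1)
  · unfold dX
    refine intervalIntegral.integral_mono_on zero_le_one ((hc x).intervalIntegrable _ _) ?_
      fun y hy => hle x ⟨hx.1.le, hx.2⟩ y hy
    rw [intervalIntegrable_iff_integrableOn_Icc_of_le zero_le_one]
    refine Measure.integrableOn_of_bounded (M := 1) (by simp) (hgm x).aestronglyMeasurable ?_
    refine (ae_restrict_iff' measurableSet_Icc).2 (Eventually.of_forall fun y hy => ?_)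
    rw [Real.norm_eq_abs, abs_of_nonneg (igL_nonneg _ _ _ _ _ _)]
    exact igL_le_one ⟨⟨hx.1.le, hx.2.le.trans h1⟩, hy⟩

/-! ## Reflection -/

/-- the reflection of the plane which exchanges the two centres -/
noncomputable def rfl2 : ℝ × ℝ ≃ᵐ ℝ × ℝ :=
  MeasurableEquiv.prodComm.trans
    ((MeasurableEquiv.subLeft (1:ℝ)).prodCongr (MeasurableEquiv.subLeft (1:ℝ)))

lemma rfl2_apply (p : ℝ × ℝ) : rfl2 p = (1 - p.2, 1 - p.1) := rfl

lemma mp_rfl2 : MeasurePreserving rfl2 (volume : Measure (ℝ × ℝ)) volume := by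
  have h1 : MeasurePreserving (Prod.swap : ℝ × ℝ → ℝ × ℝ) (volume : Measure (ℝ × ℝ)) volume := by
    rw [Measure.volume_eq_prod]
    exact Measure.measurePreserving_swap
  have h2 : MeasurePreserving (fun x : ℝ => 1 - x) volume volume :=
    Measure.measurePreserving_sub_left volume 1
  have h3 : MeasurePreserving (Prod.map (fun x : ℝ => 1 - x) (fun x : ℝ => 1 - x))
      (volume : Measure (ℝ × ℝ)) volume := by
    rw [Measure.volume_eq_prod]
    exact h2.prod h2
  exact h3.comp h1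

lemma integral_rfl2 (f : ℝ × ℝ → ℝ) :
    ∫ p in sq01, f (1 - p.2, 1 - p.1) = ∫ p in sq01, f p := by
  have h := mp_rfl2.setIntegral_preimage_emb rfl2.measurableEmbedding f sq01
  have e : rfl2 ⁻¹' sq01 = sq01 := by
    ext p
    rw [mem_preimage, rfl2_apply]
    unfold sq01
    simp only [mem_prod, mem_Icc, sub_nonneg, sub_le_self_iff]
    tauto
  rw [e] at h
  exact h

lemma igR_mirror (c d : ℕ → ℝ) (T S : Finset ℕ) (z : ℕ) (p : ℝ × ℝ) :
    igR c d T S z p = igL d c S T z (1 - p.2, 1 - p.1) := by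
  unfold igR igL
  by_cases h : p.1 < 1 - d z ∧ 1 - d z < p.2
  · rw [if_pos h, if_pos ⟨by simp only; linarith [h.2], by simp only; linarith [h.1]⟩, W_mirror]
  · rw [if_neg h, if_neg (by
      rintro ⟨b1, b2⟩
      simp only at b1 b2
      exact h ⟨by linarith, by linarith⟩)]

lemma gradR_mirror (c d : ℕ → ℝ) (T S : Finset ℕ) (z : ℕ) :
    gradR c d T S z = gradL d c S T z := by
  rw [gradR_eq, gradL_eq, ← integral_rfl2 (igL d c S T z)]
  simp only [igR_mirror]

lemma Vol_mirror (c d : ℕ → ℝ) (T S : Finset ℕ) : Vol c d T S = Vol d c S T := by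
  rw [Vol_eq_prod, Vol_eq_prod, ← integral_rfl2 (fun p => W d c S T p.1 p.2)]
  refine integral_congr_ae (Eventually.of_forall fun p => ?_)
  exact W_mirror _ _ _ _ _ _

/-- **the force on an upper tick** -/
theorem gradR_ge {c d : ℕ → ℝ} {T S : Finset ℕ} {z : ℕ} (hz : z ∈ S) (h0 : 0 ≤ d z)
    (h1 : d z ≤ 1) : d z * Vol c d T S ≤ gradR c d T S z := by
  rw [gradR_mirror, Vol_mirror]
  exact gradL_ge hz h0 h1

theorem frcL_ge {c d : ℕ → ℝ} {T S : Finset ℕ} {z : ℕ} (hV : 0 < Vol c d T S) (hz : z ∈ T)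
    (h0 : 0 ≤ c z) (h1 : c z ≤ 1) : c z ≤ frcL c d T S z := by
  unfold frcL
  rw [le_div_iff₀ hV]
  exact gradL_ge hz h0 h1

theorem frcR_ge {c d : ℕ → ℝ} {T S : Finset ℕ} {z : ℕ} (hV : 0 < Vol c d T S) (hz : z ∈ S)
    (h0 : 0 ≤ d z) (h1 : d z ≤ 1) : d z ≤ frcR c d T S z := by
  unfold frcR
  rw [le_div_iff₀ hV]
  exact gradR_ge hz h0 h1

/-! ## Bounds -/

lemma Vol_le_one (c d : ℕ → ℝ) (T S : Finset ℕ) : Vol c d T S ≤ 1 := by
  rw [Vol_eq_prod]
  have h : ∫ p in sq01, W c d T S p.1 p.2 ≤ ∫ _ in sq01, (1:ℝ) :=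
    setIntegral_mono_on (int_W _ _ _ _) (integrable_const _) meas_sq01 fun p hp => W_le_one_sq hp
  refine h.trans ?_
  rw [setIntegral_const, Measure.real, ← Measure.restrict_apply_univ, vol_sq01]
  simp

/-- lower bound for the weight near the corner -/
lemma W_ge {c d : ℕ → ℝ} {T S : Finset ℕ} {b : ℝ} (hc : ∀ z ∈ T, c z ≤ b) (hd : ∀ z ∈ S, d z ≤ b)
    {x y : ℝ} (hx : x ≤ b) (hy : 1 - b ≤ y) (hb : 2 * b ≤ 1) :
    1 - 2 * b * ((T.card : ℝ) + S.card) ≤ W c d T S x y := by
  have h1 : ∀ (c : ℕ → ℝ) (T : Finset ℕ) (x y : ℝ), (∀ z ∈ T, c z ≤ b) → x ≤ b → 1 - b ≤ y →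
      (1 - 2 * b) ^ T.card ≤ Phi c T x y := by
    intro c T x y hc hx hy
    unfold Phi
    rw [← Finset.prod_const]
    refine Finset.prod_le_prod (fun _ _ => by linarith) fun z hz => ?_
    refine le_max_of_le_right ?_
    have := max_le hx (hc z hz)
    linarith
  have h2 := h1 c T x y hc hx hy
  have h3 := h1 d S (1 - y) (1 - x) hd (by linarith) (by linarith)
  have h4 : (1 - 2 * b) ^ (T.card + S.card) ≤ W c d T S x y := by
    rw [pow_add]
    exact mul_le_mul h2 h3 (pow_nonneg (by linarith) _) (Phi_nonneg _ _ _ _)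
  refine le_trans ?_ h4
  have h5 := one_add_mul_le_pow (a := -(2 * b)) (by linarith) (T.card + S.card)
  push_cast at h5
  have e : (1 + -(2 * b)) = 1 - 2 * b := by ring
  rw [e] at h5
  linarith

/-- **lower bound for the volume** -/
theorem Vol_ge {c d : ℕ → ℝ} {T S : Finset ℕ} {b : ℝ} (hb0 : 0 ≤ b) (hc : ∀ z ∈ T, c z ≤ b)
    (hd : ∀ z ∈ S, d z ≤ b) (hb : 2 * b ≤ 1) (hb2 : 4 * b * ((T.card : ℝ) + S.card) ≤ 1) :
    b ^ 2 / 2 ≤ Vol c d T S := by
  rw [Vol_eq_prod]
  have hsub : Icc (0:ℝ) b ×ˢ Icc (1 - b) 1 ⊆ sq01 := by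
    rintro ⟨x, y⟩ ⟨⟨h1, h2⟩, h3, h4⟩
    simp only at h1 h2 h3 h4
    exact ⟨⟨h1, by simp only; linarith⟩, by simp only; linarith, h4⟩
  have h1 : ∫ p in Icc (0:ℝ) b ×ˢ Icc (1 - b) 1, W c d T S p.1 p.2 ≤
      ∫ p in sq01, W c d T S p.1 p.2 :=
    setIntegral_mono_set (int_W _ _ _ _) (ae_of_all _ fun p => W_nonneg _ _ _ _ _ _)
      (Eventually.of_forall hsub)
  refine le_trans ?_ h1
  have hm : MeasurableSet (Icc (0:ℝ) b ×ˢ Icc (1 - b) 1) := measurableSet_Icc.prod measurableSet_Icc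
  have h2 : ∫ _ in Icc (0:ℝ) b ×ˢ Icc (1 - b) 1, ((1:ℝ)/2) ≤
      ∫ p in Icc (0:ℝ) b ×ˢ Icc (1 - b) 1, W c d T S p.1 p.2 := by
    refine setIntegral_mono_on ?_ ((int_W _ _ _ _).mono_set hsub) hm fun p hp => ?_
    · refine integrableOn_const ?_ ?_
      · rw [Measure.volume_eq_prod, Measure.prod_prod, Real.volume_Icc, Real.volume_Icc]
        exact ENNReal.mul_ne_top ENNReal.ofReal_ne_top ENNReal.ofReal_ne_top
      · simp
    · have := W_ge hc hd (x := p.1) (y := p.2) hp.1.2 hp.2.1 hb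
      linarith
  refine le_trans (le_of_eq ?_) h2
  rw [setIntegral_const, Measure.real, Measure.volume_eq_prod, Measure.prod_prod,
    Real.volume_Icc, Real.volume_Icc, sub_zero, sub_sub_cancel, ENNReal.toReal_mul,
    ENNReal.toReal_ofReal hb0, smul_eq_mul]
  ring

end Pool.Agent.T1K
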