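import Mathlib
import Pool.Agent.T1K.VolForce
import Pool.Agent.T1K.Tick

/-!
# The volume of a species at the target positions
-/

set_option autoImplicit false

namespace Pool.Agent.T1K

open Finset

namespace VT

lemma Kn_pos (R : ℕ) : (1:ℝ) ≤ Kn R := by
  have h : 1 ≤ Kn R := by unfold Kn; omega
  exact_mod_cast h

lemma Mn_ge_two (R : ℕ) : (2:ℝ) ≤ Mn R := by
  have h : 2 ≤ Mn R := by unfold Mn Kn; omega
  exact_mod_cast h

lemma an_pos (R : ℕ) : 0 < an R := by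
  have := Kn_pos R
  unfold an
  positivity

lemma hn_pos (R : ℕ) : 0 < hn R := by
  have h1 : (0:ℝ) < Kn R := lt_of_lt_of_le one_pos (Kn_pos R)
  have h2 : (0:ℝ) < Mn R := lt_of_lt_of_le two_pos (Mn_ge_two R)
  exact one_div_pos.2 (pow_pos (mul_pos h1 h2) 16)

lemma hn_mul_Mn_le (R : ℕ) : hn R * Mn R ≤ an R := by
  have h1 := Kn_pos R
  have h2 := Mn_ge_two R
  unfold hn an
  generalize (Kn R : ℝ) = K at *
  generalize (Mn R : ℝ) = M at *
  rw [one_div_mul_eq_div, div_le_div_iff₀ (by positivity) (by positivity), one_mul, mul_pow]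
  have h3 : (1:ℝ) ≤ K ^ 15 := one_le_pow₀ h1
  have h4 : (2:ℝ) ^ 15 ≤ M ^ 15 := pow_le_pow_left₀ (by norm_num) h2 15
  have h5 : (100:ℝ) ≤ K ^ 15 * M ^ 15 := by
    nlinarith
  have e : K ^ 16 * M ^ 16 =
      (K * M) * (K ^ 15 * M ^ 15) := by ring
  rw [e]
  have h6 : 0 ≤ K * M := by positivity
  nlinarith

lemma an_le_tk (R z : ℕ) : an R ≤ tk R z :=
  le_add_of_nonneg_right (mul_nonneg (hn_pos R).le (Nat.cast_nonneg z))

lemma tk_pos (R z : ℕ) : 0 < tk R z := lt_of_lt_of_le (an_pos R) (an_le_tk R z)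

lemma tk_nonneg (R z : ℕ) : 0 ≤ tk R z := (tk_pos R z).le

lemma tk_mono (R : ℕ) {z w : ℕ} (h : z ≤ w) : tk R z ≤ tk R w := by
  have h2 := hn_pos R
  have h1 : (z : ℝ) ≤ w := by exact_mod_cast h
  exact add_le_add_right (mul_le_mul_of_nonneg_left h1 h2.le) (an R)

lemma tk_le {R z : ℕ} (hz : z ≤ Mn R) : tk R z ≤ 2 * an R := by
  have h1 := hn_mul_Mn_le R
  have h2 := tk_mono R hz
  unfold tk at h2 ⊢
  linarith

lemma two_an_eq (R : ℕ) : 2 * an R = 1 / (50 * (Kn R : ℝ)) := by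
  have h1 := Kn_pos R
  unfold an
  generalize (Kn R : ℝ) = K at *
  field_simp
  norm_num

lemma two_an_le (R : ℕ) : 2 * an R ≤ 1 / 50 := by
  have h1 := Kn_pos R
  rw [two_an_eq, div_le_div_iff₀ (by positivity) (by norm_num)]
  linarith

lemma tk_le_one {R z : ℕ} (hz : z ≤ Mn R) : tk R z ≤ 1 := by
  have := tk_le hz
  have := two_an_le R
  linarith

end VT

open VT

/-- **lower bound for the volume near the target**: all used ticks are at most `2 an R` -/
theorem Vol_ge_of_le {R : ℕ} {l l' : ℕ → ZMod 3} {c d : ℕ → ℝ}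
    (hc : ∀ z ∈ TL R l, c z ≤ 2 * an R) (hd : ∀ z ∈ TL R l', d z ≤ 2 * an R) :
    1 / (5000 * (Kn R : ℝ) ^ 2) ≤ Vol c d (TL R l) (TL R l') := by
  have h1 := Kn_pos R
  have h2 := VT.an_pos R
  have h3 := two_an_le R
  refine le_trans (le_of_eq ?_) (Vol_ge (b := 2 * an R) (by linarith) hc hd (by linarith) ?_)
  · rw [two_an_eq]
    field_simp
    norm_num
  · rw [TL_card, TL_card, two_an_eq]
    field_simp
    norm_num

/-- **lower bound for the volume at the target** -/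
theorem Vol_target (R : ℕ) (l l' : ℕ → ZMod 3) :
    1 / (5000 * (Kn R : ℝ) ^ 2) ≤ Vol (tk R) (tk R) (TL R l) (TL R l') :=
  Vol_ge_of_le (fun _ hz => tk_le (TL_le hz)) fun _ hz => tk_le (TL_le hz)

theorem Vol_target_pos (R : ℕ) (l l' : ℕ → ZMod 3) :
    0 < Vol (tk R) (tk R) (TL R l) (TL R l') := by
  have h1 := Kn_pos R
  exact lt_of_lt_of_le (by positivity) (Vol_target R l l')

/-- **the force on the end tick at the target** -/
theorem frcL_end (R : ℕ) (l l' : ℕ → ZMod 3) :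
    tk R (Mn R) ≤ frcL (tk R) (tk R) (TL R l) (TL R l') (Mn R) :=
  frcL_ge (Vol_target_pos R l l') (Mn_mem R l) (tk_nonneg _ _) (tk_le_one le_rfl)

theorem frcR_end (R : ℕ) (l l' : ℕ → ZMod 3) :
    tk R (Mn R) ≤ frcR (tk R) (tk R) (TL R l) (TL R l') (Mn R) :=
  frcR_ge (Vol_target_pos R l l') (Mn_mem R l') (tk_nonneg _ _) (tk_le_one le_rfl)

end Pool.Agent.T1K
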