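import Mathlib
import Pool.Agent.T1K.VolTarget
import Pool.Agent.T1K.Conc

/-!
# Numerical estimates for the comparison with the target
-/

set_option autoImplicit false

namespace Pool.Agent.T1K

open Finset

namespace NumLip

/-- the main numerical fact: `h (1 + 10^12 K^5) ≤ 1/8` -/
theorem hn_small {R : ℕ} (hR : 1 ≤ R) : hn R * (1 + 10 ^ 12 * (Kn R : ℝ) ^ 5) ≤ 1 / 8 := by
  have hK : (59050 : ℝ) ≤ Kn R := by exact_mod_cast Kn_ge hR
  have hM : (177147 : ℝ) ≤ Mn R := by exact_mod_cast Mn_ge hR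
  unfold hn
  generalize (Kn R : ℝ) = K at *
  generalize (Mn R : ℝ) = M at *
  have hK1 : (1:ℝ) ≤ K := by linarith
  have hM1 : (1:ℝ) ≤ M := by linarith
  rw [one_div_mul_eq_div, div_le_div_iff₀ (by positivity) (by norm_num), one_mul, mul_pow]
  have h1 : (10:ℝ) ^ 15 ≤ M ^ 16 := by
    calc (10:ℝ) ^ 15 ≤ (177147:ℝ) ^ 3 := by norm_num
      _ ≤ M ^ 3 := pow_le_pow_left₀ (by norm_num) hM 3
      _ ≤ M ^ 16 := pow_le_pow_right₀ hM1 (by norm_num)
  have h2 : K ^ 5 ≤ K ^ 16 := pow_le_pow_right₀ hK1 (by norm_num)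
  have h3 : (1:ℝ) ≤ K ^ 5 := one_le_pow₀ hK1
  have h4 : K ^ 5 * 10 ^ 15 ≤ K ^ 16 * M ^ 16 :=
    mul_le_mul h2 h1 (by norm_num) (by positivity)
  linarith

/-- everything of size `10^12 K^5 h^8` is absorbed -/
theorem absorb {R : ℕ} (hR : 1 ≤ R) {X : ℝ} (hX : X ≤ 10 ^ 12 * (Kn R : ℝ) ^ 5 * hn R ^ 8) :
    hn R ^ 8 + X ≤ hn R ^ 7 / 8 := by
  have h := hn_small hR
  have hp := hn_pos hR
  generalize hn R = h' at *
  generalize (Kn R : ℝ) = K at *
  have h7 : 0 ≤ h' ^ 7 := by positivity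
  have h8 : h' ^ 7 * (h' * (1 + 10 ^ 12 * K ^ 5)) ≤ h' ^ 7 * (1 / 8) :=
    mul_le_mul_of_nonneg_left h h7
  nlinarith

theorem inv_le {R : ℕ} (hR : 1 ≤ R) {V : ℝ} (hV : 1 / (5000 * (Kn R : ℝ) ^ 2) ≤ V) :
    1 / V ≤ 5000 * (Kn R : ℝ) ^ 2 := by
  have hK : (59050 : ℝ) ≤ Kn R := by exact_mod_cast Kn_ge hR
  generalize (Kn R : ℝ) = K at *
  have hK0 : 0 < K := by linarith
  have h0 : 0 < 1 / (5000 * K ^ 2) := by positivity
  have hV0 : 0 < V := lt_of_lt_of_le h0 hV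
  rw [div_le_iff₀ hV0]
  rw [div_le_iff₀ (by positivity)] at hV
  linarith

/-- one group: `A` is the bound for the numerator divided by `h^8` -/
theorem one {R : ℕ} (hR : 1 ≤ R) {V A : ℝ} (hA : A ≤ 10 ^ 6 * (Kn R : ℝ))
    (hV : 1 / (5000 * (Kn R : ℝ) ^ 2) ≤ V) :
    hn R ^ 8 + A * hn R ^ 8 / V ≤ hn R ^ 7 / 8 := by
  refine absorb hR ?_
  have hi := inv_le hR hV
  have hK : (59050 : ℝ) ≤ Kn R := by exact_mod_cast Kn_ge hR
  have hp := hn_pos hR
  have h0 : 0 < 1 / (5000 * (Kn R : ℝ) ^ 2) := by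
    have : (0:ℝ) < Kn R := by linarith
    exact one_div_pos.2 (mul_pos (by norm_num) (pow_pos this 2))
  have hV0 : 0 < V := lt_of_lt_of_le h0 hV
  generalize hn R = h' at *
  generalize (Kn R : ℝ) = K at *
  have h8 : 0 ≤ h' ^ 8 := by positivity
  have e : A * h' ^ 8 / V = A * (1 / V) * h' ^ 8 := by ring
  rw [e]
  refine mul_le_mul_of_nonneg_right ?_ h8
  have h1 : A * (1 / V) ≤ (10 ^ 6 * K) * (5000 * K ^ 2) :=
    mul_le_mul hA hi (by positivity) (by nlinarith)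
  refine h1.trans ?_
  have h2 : K ^ 3 ≤ K ^ 5 := pow_le_pow_right₀ (by linarith) (by norm_num)
  have h3 : 0 ≤ K ^ 3 := by
    have : 0 ≤ K := by linarith
    positivity
  nlinarith

/-- two groups, product form -/
theorem two {R : ℕ} (hR : 1 ≤ R) {V V' A : ℝ} (hA : A ≤ 10 ^ 4 * (Kn R : ℝ))
    (hV : 1 / (5000 * (Kn R : ℝ) ^ 2) ≤ V) (hV' : 1 / (5000 * (Kn R : ℝ) ^ 2) ≤ V') :
    hn R ^ 8 + A * hn R ^ 8 / (V * V') ≤ hn R ^ 7 / 8 := by
  refine absorb hR ?_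
  have hi := inv_le hR hV
  have hi' := inv_le hR hV'
  have hK : (59050 : ℝ) ≤ Kn R := by exact_mod_cast Kn_ge hR
  have hp := hn_pos hR
  have h0 : 0 < 1 / (5000 * (Kn R : ℝ) ^ 2) := by
    have : (0:ℝ) < Kn R := by linarith
    exact one_div_pos.2 (mul_pos (by norm_num) (pow_pos this 2))
  have hV0 : 0 < V := lt_of_lt_of_le h0 hV
  have hV0' : 0 < V' := lt_of_lt_of_le h0 hV'
  generalize hn R = h' at *
  generalize (Kn R : ℝ) = K at *
  have hK0 : 0 ≤ K := by linarith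
  have h8 : 0 ≤ h' ^ 8 := by positivity
  have e : A * h' ^ 8 / (V * V') = A * ((1 / V) * (1 / V')) * h' ^ 8 := by
    field_simp
  rw [e]
  refine mul_le_mul_of_nonneg_right ?_ h8
  have h1 : (1 / V) * (1 / V') ≤ (5000 * K ^ 2) * (5000 * K ^ 2) :=
    mul_le_mul hi hi' (by positivity) (by positivity)
  have h2 : A * ((1 / V) * (1 / V')) ≤ (10 ^ 4 * K) * ((5000 * K ^ 2) * (5000 * K ^ 2)) :=
    mul_le_mul hA h1 (by positivity) (by positivity)
  refine h2.trans ?_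
  have e2 : (10 ^ 4 * K) * ((5000 * K ^ 2) * (5000 * K ^ 2)) = 25 * 10 ^ 10 * K ^ 5 := by ring
  rw [e2]
  have h3 : 0 ≤ K ^ 5 := by positivity
  nlinarith

/-- two groups, sum form -/
theorem add {R : ℕ} (hR : 1 ≤ R) {V V' A A' : ℝ} (hA : A ≤ 10 ^ 6 * (Kn R : ℝ))
    (hA' : A' ≤ 10 ^ 6 * (Kn R : ℝ))
    (hV : 1 / (5000 * (Kn R : ℝ) ^ 2) ≤ V) (hV' : 1 / (5000 * (Kn R : ℝ) ^ 2) ≤ V') :
    hn R ^ 8 + (A * hn R ^ 8 / V + A' * hn R ^ 8 / V') ≤ hn R ^ 7 / 8 := by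
  refine absorb hR ?_
  have key : ∀ {V A : ℝ}, A ≤ 10 ^ 6 * (Kn R : ℝ) → 1 / (5000 * (Kn R : ℝ) ^ 2) ≤ V →
      A * hn R ^ 8 / V ≤ (5 * 10 ^ 9 * (Kn R : ℝ) ^ 3) * hn R ^ 8 := by
    intro V A hA hV
    have hi := inv_le hR hV
    have hK : (59050 : ℝ) ≤ Kn R := by exact_mod_cast Kn_ge hR
    have hp := hn_pos hR
    have h0 : 0 < 1 / (5000 * (Kn R : ℝ) ^ 2) := by
      have : (0:ℝ) < Kn R := by linarith
      exact one_div_pos.2 (mul_pos (by norm_num) (pow_pos this 2))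
    have hV0 : 0 < V := lt_of_lt_of_le h0 hV
    generalize hn R = h' at *
    generalize (Kn R : ℝ) = K at *
    have hK0 : 0 ≤ K := by linarith
    have h8 : 0 ≤ h' ^ 8 := by positivity
    have e : A * h' ^ 8 / V = A * (1 / V) * h' ^ 8 := by ring
    rw [e]
    refine mul_le_mul_of_nonneg_right ?_ h8
    have h1 : A * (1 / V) ≤ (10 ^ 6 * K) * (5000 * K ^ 2) :=
      mul_le_mul hA hi (by positivity) (by positivity)
    refine h1.trans (le_of_eq ?_)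
    ring
  have h1 := key hA hV
  have h2 := key hA' hV'
  refine (add_le_add h1 h2).trans ?_
  have hK : (59050 : ℝ) ≤ Kn R := by exact_mod_cast Kn_ge hR
  have hp := hn_pos hR
  generalize hn R = h' at *
  generalize (Kn R : ℝ) = K at *
  have hK0 : 0 ≤ K := by linarith
  have h8 : 0 ≤ h' ^ 8 := by positivity
  rw [← add_mul]
  refine mul_le_mul_of_nonneg_right ?_ h8
  have h3 : K ^ 3 ≤ K ^ 5 := pow_le_pow_right₀ (by linarith) (by norm_num)
  have h4 : 0 ≤ K ^ 3 := by positivity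
  nlinarith

end NumLip

/-- the numerical estimate for a pair of groups, `δ = h^8` -/
theorem num_pair {R : ℕ} (hR : 1 ≤ R) {V V' : ℝ} (hV : 1 / (5000 * (Kn R : ℝ) ^ 2) ≤ V)
    (hV' : 1 / (5000 * (Kn R : ℝ) ^ 2) ≤ V') :
    hn R ^ 8 + 2 * ((2 * (Kn R : ℝ) + 2) * hn R ^ 8 + (2 * (Kn R : ℝ) + 2) * hn R ^ 8) / (V * V') ≤
      hn R ^ 7 / 8 := by
  have hK : (59050 : ℝ) ≤ Kn R := by exact_mod_cast Kn_ge hR
  have h := NumLip.two hR (A := 4 * (2 * (Kn R : ℝ) + 2)) (by linarith) hV hV'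
  refine le_trans (le_of_eq ?_) h
  ring

/-- the numerical estimate for one group, `δ = h^8` -/
theorem num_one {R : ℕ} (hR : 1 ≤ R) {V : ℝ} (hV : 1 / (5000 * (Kn R : ℝ) ^ 2) ≤ V) :
    hn R ^ 8 + 2 * ((2 * (Kn R : ℝ) + 2) * hn R ^ 8) / V ≤ hn R ^ 7 / 8 := by
  have hK : (59050 : ℝ) ≤ Kn R := by exact_mod_cast Kn_ge hR
  have h := NumLip.one hR (A := 2 * (2 * (Kn R : ℝ) + 2)) (by linarith) hV
  refine le_trans (le_of_eq ?_) h
  ring

/-! ## The target -/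

lemma hn_le_an (R : ℕ) : hn R ≤ an R := by
  have h1 := VT.hn_mul_Mn_le R
  have h2 := VT.Mn_ge_two R
  have h3 := VT.hn_pos R
  have h4 : hn R * 1 ≤ hn R * Mn R := mul_le_mul_of_nonneg_left (by linarith) h3.le
  linarith

lemma inc_tk_zero (R : ℕ) : inc (tk R) 0 = an R := by
  unfold inc tk
  simp

lemma inc_tk_succ (R r : ℕ) : inc (tk R) (r + 1) = hn R := by
  unfold inc tk
  simp only [Nat.add_eq_zero_iff, one_ne_zero, and_false, if_false, Nat.add_sub_cancel]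
  push_cast
  ring

/-- the target positions satisfy the conditions on the clock -/
theorem tgt_tk (R : ℕ) : Tgt (Mn R) (tk R) (hn R) where
  pos := VT.hn_pos R
  inc := by
    intro r _
    rcases r with _ | r
    · rw [inc_tk_zero]
      exact hn_le_an R
    · rw [inc_tk_succ]
  half := by
    have h1 := VT.tk_le (R := R) (z := Mn R) le_rfl
    have h2 := VT.two_an_le R
    linarith

/-- the padding elements have volume at least `1/2` at the target -/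
lemma half_le_pad {R p : ℕ} (hp : p ≤ Mn R) : 1 / 2 ≤ 1 - tk R p := by
  have h1 := VT.tk_le hp
  have h2 := VT.two_an_le R
  linarith

/-- ... which is in the interval of the numerical estimates -/
lemma pad_ge {R p : ℕ} (hR : 1 ≤ R) (hp : p ≤ Mn R) :
    1 / (5000 * (Kn R : ℝ) ^ 2) ≤ 1 - tk R p := by
  refine le_trans ?_ (half_le_pad hp)
  have hK : (59050 : ℝ) ≤ Kn R := by exact_mod_cast Kn_ge hR
  generalize (Kn R : ℝ) = K at *
  have h1 : (1:ℝ) ≤ K ^ 2 := one_le_pow₀ (by linarith)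
  rw [div_le_div_iff₀ (by positivity) (by norm_num)]
  linarith

end Pool.Agent.T1K
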