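import Mathlib
import Pool.Agent.T1K.Link

/-!
# Integrals over the cube: sum types, products of singles
-/

set_option autoImplicit false

namespace Pool.Agent.T1K

open MeasureTheory Set Pool.Agent.Helper73.KS

/-- bounded measurable functions are integrable -/
lemma int_bdd {α : Type} [MeasurableSpace α] {μ : Measure α} [IsFiniteMeasure μ] {F : α → ℝ} (C : ℝ)
    (hF : Measurable F) (hC : ∀ x, |F x| ≤ C) : Integrable F μ :=
  Integrable.of_bound hF.aestronglyMeasurable C (Filter.Eventually.of_forall hC)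

/-- Fubini for a sum type -/
theorem int_sum {G J : Type} [Fintype G] [Fintype J] {F : (G ⊕ J → ℝ) → ℝ}
    (hF : Integrable F (PV (G ⊕ J))) :
    ∫ u, F u ∂(PV (G ⊕ J)) = ∫ τ, ∫ v, F (Sum.elim τ v) ∂(PV J) ∂(PV G) := by
  have h1 : MeasurePreserving (MeasurableEquiv.sumPiEquivProdPi fun _ : G ⊕ J => ℝ) (PV (G ⊕ J))
      ((PV G).prod (PV J)) := measurePreserving_sumPiEquivProdPi (fun _ : G ⊕ J => lam)
  have h2 := h1.symm
  have h3 : ∀ p : (G → ℝ) × (J → ℝ), (MeasurableEquiv.sumPiEquivProdPi fun _ : G ⊕ J => ℝ).symm p =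
      Sum.elim p.1 p.2 := by
    rintro ⟨a, b⟩
    funext j
    rcases j with j | j
    · rfl
    · rfl
  rw [← h2.integral_comp' F]
  rw [integral_prod]
  · simp only [h3]
  · have h4 := (h2.integrable_comp_emb (MeasurableEquiv.measurableEmbedding _) (g := F)).2 hF
    exact h4

/-- Fubini for the volume of a set over a sum type -/
theorem real_sum {G J : Type} [Fintype G] [Fintype J] {S : Set (G ⊕ J → ℝ)} (hS : MeasurableSet S) :
    (PV (G ⊕ J)).real S = ∫ τ, (PV J).real {v | Sum.elim τ v ∈ S} ∂(PV G) := by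
  have h1 : (PV (G ⊕ J)).real S = ∫ u, S.indicator (fun _ => (1 : ℝ)) u ∂(PV (G ⊕ J)) := by
    rw [integral_indicator_const _ hS, smul_eq_mul, mul_one]
  rw [h1, int_sum ((integrable_const (1 : ℝ)).indicator hS)]
  congr 1
  funext τ
  have hm : MeasurableSet {v : J → ℝ | Sum.elim τ v ∈ S} := by
    have h3 : Measurable fun v : J → ℝ => (Sum.elim τ v : G ⊕ J → ℝ) := by
      refine measurable_pi_lambda _ fun j => ?_
      rcases j with j | j
      · exact measurable_const
      · exact measurable_pi_apply j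
    exact h3 hS
  have h2 : (fun v : J → ℝ => S.indicator (fun _ => (1 : ℝ)) (Sum.elim τ v)) =
      {v : J → ℝ | Sum.elim τ v ∈ S}.indicator fun _ => (1 : ℝ) := by
    funext v
    rfl
  rw [h2, integral_indicator_const _ hm, smul_eq_mul, mul_one]

/-- products of functions of single coordinates -/
theorem int_prod {J : Type} [Fintype J] (g : J → ℝ → ℝ) :
    ∫ v, ∏ j, g j (v j) ∂(PV J) = ∏ j, ∫ t, g j t ∂lam :=
  integral_fintype_prod_eq_prod (μ := fun _ : J => lam) g

/-- the cube over `Bool` -/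
theorem int_bool {F : ℝ → ℝ → ℝ} (hF : Integrable (Function.uncurry F) (lam.prod lam)) :
    ∫ τ, F (τ false) (τ true) ∂(PV Bool) = ∫ x, ∫ y, F x y ∂lam ∂lam := by
  have h1 : MeasurePreserving (fun (u : Fin 2 → ℝ) (w : Bool) => u (finTwoEquiv.symm w)) (PV (Fin 2))
      (PV Bool) := mp_relabel finTwoEquiv
  have h2 : MeasurePreserving (MeasurableEquiv.finTwoArrow : (Fin 2 → ℝ) ≃ᵐ ℝ × ℝ) (PV (Fin 2))
      (lam.prod lam) := measurePreserving_finTwoArrow lam
  have h3 : AEStronglyMeasurable (fun τ : Bool → ℝ => F (τ false) (τ true)) (PV Bool) := by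
    have h4 : MeasurePreserving (fun τ : Bool → ℝ => (τ false, τ true)) (PV Bool) (lam.prod lam) := by
      refine ⟨by fun_prop, ?_⟩
      rw [← h1.map_eq, Measure.map_map (by fun_prop) h1.measurable, ← h2.map_eq]
      rfl
    exact hF.aestronglyMeasurable.comp_measurePreserving h4
  have e : ∫ p, Function.uncurry F p ∂(lam.prod lam) = ∫ x, ∫ y, F x y ∂lam ∂lam :=
    integral_prod _ hF
  rw [← e, ← h2.map_eq, integral_map_equiv, ← h1.map_eq,
    integral_map h1.measurable.aemeasurable (by rw [h1.map_eq]; exact h3)]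
  rfl

end Pool.Agent.T1K
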