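import Mathlib
import Pool.Agent.T1K.Stars
import Pool.Agent.T1K.IntPV

/-!
# Integrals over the fibre of a double star
-/

set_option autoImplicit false

namespace Pool.Agent.T1K

open MeasureTheory Set Pool.Agent.Helper73.KS

variable {T S : Finset ℕ}

/-- the interval of a leaf, given the centres -/
def Iv (c d : ℕ → ℝ) (x y : ℝ) : ({z // z ∈ T} ⊕ {z // z ∈ S}) → Set ℝ
  | Sum.inl z => Icc (max x (c z)) y
  | Sum.inr z => Icc x (min y (1 - d z))

/-- the fibre of the star -/
def st (T S : Finset ℕ) (c d : ℕ → ℝ) : Set (Star T S → ℝ) :=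
  {v | ∀ j : {z // z ∈ T} ⊕ {z // z ∈ S}, v (Sum.inr j) ∈ Iv c d (v (Sum.inl false)) (v (Sum.inl true)) j}

theorem fb_star (M : ℕ) (τ : Gd M → ℝ) : fb (starD M T S) τ = st T S (cc M τ) (dd M τ) := by
  ext v
  constructor
  · rintro ⟨h1, h2, h3⟩ j
    have h4 := h3 _ _ (Rs.lo j)
    have h5 := h3 _ _ (Rs.up j)
    rcases j with z | z
    · exact ⟨max_le h4 (h1 (Sum.inr (Sum.inl z)) _ rfl), h5⟩
    · refine ⟨h4, le_min h5 ?_⟩
      have h6 := h2 (Sum.inr (Sum.inr z)) _ rfl
      show v (Sum.inr (Sum.inr z)) ≤ 1 - dd M τ z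
      unfold dd
      linarith
  · intro h
    refine ⟨?_, ?_, ?_⟩
    · rintro c g hg
      rcases c with b | (z | z)
      · exact absurd hg (by simp [starD, starLo])
      · have h2 : Sum.inl (ix M z.val) = g := Option.some.inj hg
        subst h2
        have h3 := (h (Sum.inl z)).1
        exact (le_max_right _ _).trans h3
      · exact absurd hg (by simp [starD, starLo])
    · rintro c g hg
      rcases c with b | (z | z)
      · exact absurd hg (by simp [starD, starUp])
      · exact absurd hg (by simp [starD, starUp])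
      · have h2 : Sum.inr (ix M z.val) = g := Option.some.inj hg
        subst h2
        have h3 := (h (Sum.inr z)).2
        have h4 : v (Sum.inr (Sum.inr z)) ≤ 1 - dd M τ z := h3.trans (min_le_right _ _)
        unfold dd at h4
        linarith
    · intro a b hab
      have hab' : Rs T S a b := hab
      cases hab' with
      | lo e =>
        rcases e with z | z
        · exact (le_max_left _ _).trans (h (Sum.inl z)).1
        · exact (h (Sum.inr z)).1
      | up e =>
        rcases e with z | z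
        · exact (h (Sum.inl z)).2
        · exact (h (Sum.inr z)).2.trans (min_le_left _ _)

section meas

variable (c d : ℕ → ℝ)

/-- the set of triples (centres, position of the leaf) -/
theorem meas_Iv (j : {z // z ∈ T} ⊕ {z // z ∈ S}) :
    MeasurableSet {p : (ℝ × ℝ) × ℝ | p.2 ∈ Iv c d p.1.1 p.1.2 j} := by
  have m1 : Measurable fun p : (ℝ × ℝ) × ℝ => p.1.1 := measurable_fst.comp measurable_fst
  have m2 : Measurable fun p : (ℝ × ℝ) × ℝ => p.1.2 := measurable_snd.comp measurable_fst
  have m3 : Measurable fun p : (ℝ × ℝ) × ℝ => p.2 := measurable_snd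
  rcases j with z | z
  · exact (measurableSet_le (m1.max measurable_const) m3).inter (measurableSet_le m3 m2)
  · exact (measurableSet_le m1 m3).inter (measurableSet_le m3 (m2.min measurable_const))

theorem meas_st : MeasurableSet (st T S c d) := by
  have e : st T S c d = ⋂ j : {z // z ∈ T} ⊕ {z // z ∈ S},
      (fun v : Star T S → ℝ => ((v (Sum.inl false), v (Sum.inl true)), v (Sum.inr j))) ⁻¹'
        {p : (ℝ × ℝ) × ℝ | p.2 ∈ Iv c d p.1.1 p.1.2 j} := by
    ext v
    simp only [mem_iInter]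
    exact Iff.rfl
  rw [e]
  refine MeasurableSet.iInter fun j => (meas_Iv c d j).preimage ?_
  fun_prop

/-- the factor of a leaf -/
noncomputable def fac (g : ℝ → ℝ) (j : {z // z ∈ T} ⊕ {z // z ∈ S}) (x y : ℝ) : ℝ :=
  ∫ t, (Iv c d x y j).indicator g t ∂lam

theorem meas_ind (g : ℝ → ℝ) (hg : Measurable g) (j : {z // z ∈ T} ⊕ {z // z ∈ S}) :
    Measurable fun p : (ℝ × ℝ) × ℝ => (Iv c d p.1.1 p.1.2 j).indicator g p.2 := by
  have h : (fun p : (ℝ × ℝ) × ℝ => (Iv c d p.1.1 p.1.2 j).indicator g p.2) =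
      {p : (ℝ × ℝ) × ℝ | p.2 ∈ Iv c d p.1.1 p.1.2 j}.indicator fun p => g p.2 := by
    funext p
    rfl
  rw [h]
  exact (hg.comp measurable_snd).indicator (meas_Iv c d j)

theorem meas_fac (g : ℝ → ℝ) (hg : Measurable g) (j : {z // z ∈ T} ⊕ {z // z ∈ S}) :
    Measurable fun p : ℝ × ℝ => fac c d g j p.1 p.2 :=
  ((meas_ind c d g hg j).stronglyMeasurable.integral_prod_right (ν := lam)).measurable

theorem abs_ind_le (g : ℝ → ℝ) (hg : ∀ t, |g t| ≤ 1) (I : Set ℝ) (t : ℝ) : |I.indicator g t| ≤ 1 := by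
  by_cases h : t ∈ I
  · rw [indicator_of_mem h]; exact hg t
  · rw [indicator_of_notMem h, abs_zero]; exact zero_le_one

theorem st_abs_fac_le (g : ℝ → ℝ) (hg : ∀ t, |g t| ≤ 1) (j : {z // z ∈ T} ⊕ {z // z ∈ S}) (x y : ℝ) :
    |fac c d g j x y| ≤ 1 := by
  unfold fac
  have h := norm_integral_le_of_norm_le_const (μ := lam) (C := 1)
    (f := fun t => (Iv c d x y j).indicator g t) (Filter.Eventually.of_forall fun t => abs_ind_le g hg _ t)
  rw [Real.norm_eq_abs, probReal_univ, mul_one] at h
  exact h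

/-- **the integral over the fibre of the star** of a product function -/
theorem int_star {k : ℝ → ℝ → ℝ} {g : ({z // z ∈ T} ⊕ {z // z ∈ S}) → ℝ → ℝ}
    (hk : Measurable (Function.uncurry k)) (hkb : ∀ x y, |k x y| ≤ 1)
    (hg : ∀ j, Measurable (g j)) (hgb : ∀ j t, |g j t| ≤ 1) :
    ∫ v in st T S c d, k (v (Sum.inl false)) (v (Sum.inl true)) * ∏ j, g j (v (Sum.inr j)) ∂(PV (Star T S)) =
      ∫ x, ∫ y, k x y * ∏ j, fac c d (g j) j x y ∂lam ∂lam := by
  classical
  have hprod : ∀ (f : ({z // z ∈ T} ⊕ {z // z ∈ S}) → ℝ), (∀ j, |f j| ≤ 1) → |∏ j, f j| ≤ 1 := by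
    intro f hf
    rw [Finset.abs_prod]
    exact Finset.prod_le_one (fun j _ => abs_nonneg _) fun j _ => hf j
  -- the integrand
  let F : (Star T S → ℝ) → ℝ := fun v => k (v (Sum.inl false)) (v (Sum.inl true)) *
    ∏ j, (Iv c d (v (Sum.inl false)) (v (Sum.inl true)) j).indicator (g j) (v (Sum.inr j))
  have hF : ∀ v, (st T S c d).indicator (fun v => k (v (Sum.inl false)) (v (Sum.inl true)) *
      ∏ j, g j (v (Sum.inr j))) v = F v := by
    intro v
    by_cases h : v ∈ st T S c d
    · rw [indicator_of_mem h]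
      congr 1
      exact Finset.prod_congr rfl fun j _ => (indicator_of_mem (h j) _).symm
    · rw [indicator_of_notMem h]
      have h' : ∃ j, v (Sum.inr j) ∉ Iv c d (v (Sum.inl false)) (v (Sum.inl true)) j := by
        by_contra hc
        push Not at hc
        exact h hc
      obtain ⟨j, hj⟩ := h'
      have : ∏ j, (Iv c d (v (Sum.inl false)) (v (Sum.inl true)) j).indicator (g j) (v (Sum.inr j)) = 0 :=
        Finset.prod_eq_zero (Finset.mem_univ j) (indicator_of_notMem hj _)
      show 0 = k _ _ * ∏ j, _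
      rw [this, mul_zero]
  have hFm : Measurable F := by
    refine Measurable.mul ?_ (Finset.measurable_prod _ fun j _ => ?_)
    · exact hk.comp (by fun_prop : Measurable fun v : Star T S → ℝ => (v (Sum.inl false), v (Sum.inl true)))
    · exact (meas_ind c d (g j) (hg j) j).comp (by fun_prop : Measurable fun v : Star T S → ℝ =>
        ((v (Sum.inl false), v (Sum.inl true)), v (Sum.inr j)))
  have hFb : ∀ v, |F v| ≤ 1 := by
    intro v
    show |k _ _ * ∏ j, _| ≤ 1
    rw [abs_mul]
    exact mul_le_one₀ (hkb _ _) (abs_nonneg _) (hprod _ fun j => abs_ind_le _ (hgb j) _ _)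
  rw [← integral_indicator (meas_st c d), show (st T S c d).indicator (fun v => k (v (Sum.inl false))
      (v (Sum.inl true)) * ∏ j, g j (v (Sum.inr j))) = F from funext hF,
    int_sum (int_bdd 1 hFm hFb)]
  have h1 : ∀ τ : Bool → ℝ, ∫ v, F (Sum.elim τ v) ∂(PV ({z // z ∈ T} ⊕ {z // z ∈ S})) =
      k (τ false) (τ true) * ∏ j, fac c d (g j) j (τ false) (τ true) := by
    intro τ
    show ∫ v, k (τ false) (τ true) * ∏ j, (Iv c d (τ false) (τ true) j).indicator (g j) (v j) ∂(PV _) = _
    rw [integral_const_mul, int_prod]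
    rfl
  rw [integral_congr_ae (Filter.Eventually.of_forall h1)]
  have h2 : Measurable (Function.uncurry fun x y => k x y * ∏ j, fac c d (g j) j x y) :=
    hk.mul (Finset.measurable_prod _ fun j _ => meas_fac c d (g j) (hg j) j)
  exact int_bool (F := fun x y => k x y * ∏ j, fac c d (g j) j x y) (int_bdd 1 h2 fun p => by
    show |k p.1 p.2 * ∏ j, fac c d (g j) j p.1 p.2| ≤ 1
    rw [abs_mul]
    exact mul_le_one₀ (hkb _ _) (abs_nonneg _) (hprod _ fun j => st_abs_fac_le c d _ (hgb j) _ _ _))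

end meas

end Pool.Agent.T1K
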