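import Mathlib
import Pool.Agent.T1K.StarInt

/-!
# The laws of the members of a double star
-/

set_option autoImplicit false

namespace Pool.Agent.T1K

open MeasureTheory Set Pool.Agent.Helper73.KS

lemma lam_Icc {a b : ℝ} (ha : 0 ≤ a) (hb : b ≤ 1) : ∫ t, (Icc a b).indicator (fun _ => (1 : ℝ)) t ∂lam = max 0 (b - a) := by
  rw [integral_indicator_const _ measurableSet_Icc, smul_eq_mul, mul_one]
  have h : lam (Icc a b) = ENNReal.ofReal (b - a) := by
    unfold lam
    rw [Measure.restrict_apply measurableSet_Icc, Icc_inter_Icc, sup_eq_left.2 ha, inf_eq_left.2 hb,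
      Real.volume_Icc]
  rw [Measure.real, h]
  rcases le_total (b - a) 0 with h1 | h1
  · rw [ENNReal.ofReal_of_nonpos h1, max_eq_left h1, ENNReal.toReal_zero]
  · rw [ENNReal.toReal_ofReal h1, max_eq_right h1]

section
variable {T S : Finset ℕ} (c d : ℕ → ℝ)

lemma fac_one_inl (z : {z // z ∈ T}) {x y : ℝ} (hx : 0 ≤ x) (hy : y ≤ 1) :
    fac (S := S) c d (fun _ => 1) (Sum.inl z) x y = max 0 (y - max x (c z)) :=
  lam_Icc (hx.trans (le_max_left _ _)) hy

lemma fac_one_inr (z : {z // z ∈ S}) {x y : ℝ} (hx : 0 ≤ x) (hy : y ≤ 1) :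
    fac (T := T) c d (fun _ => 1) (Sum.inr z) x y = max 0 ((1 - x) - max (1 - y) (d z)) := by
  have h := lam_Icc (b := min y (1 - d z)) hx ((min_le_left _ _).trans hy)
  refine h.trans ?_
  congr 1
  rcases le_total y (1 - d z) with h1 | h1
  · rw [min_eq_left h1, max_eq_left (by linarith)]
    ring
  · rw [min_eq_right h1, max_eq_right (by linarith)]
    ring

lemma prod_fac_one {x y : ℝ} (hx : 0 ≤ x) (hy : y ≤ 1) :
    ∏ j : {z // z ∈ T} ⊕ {z // z ∈ S}, fac c d (fun _ => 1) j x y = W c d T S x y := by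
  rw [Fintype.prod_sum_type]
  unfold W Phi
  congr 1
  · rw [← Finset.prod_coe_sort T (fun z => max 0 (y - max x (c z)))]
    exact Finset.prod_congr rfl fun z _ => fac_one_inl c d z hx hy
  · rw [← Finset.prod_coe_sort S (fun z => max 0 ((1 - x) - max (1 - y) (d z)))]
    exact Finset.prod_congr rfl fun z _ => fac_one_inr c d z hx hy

open Classical in
lemma prod_fac_inl (z : {z // z ∈ T}) (g : ℝ → ℝ) {x y : ℝ} (hx : 0 ≤ x) (hy : y ≤ 1) :
    ∏ j : {z // z ∈ T} ⊕ {z // z ∈ S}, fac c d (if j = Sum.inl z then g else fun _ => 1) j x y =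
      W c d (T.erase z) S x y * fac (S := S) c d g (Sum.inl z) x y := by
  rw [Fintype.prod_sum_type]
  have h1 : ∏ w : {z // z ∈ T}, fac (S := S) c d (if (Sum.inl w : {z // z ∈ T} ⊕ {z // z ∈ S}) = Sum.inl z then g
      else fun _ => 1) (Sum.inl w) x y = (∏ w ∈ T.erase z, max 0 (y - max x (c w))) * fac (S := S) c d g (Sum.inl z) x y := by
    rw [← Finset.prod_erase_mul _ _ (Finset.mem_univ z), if_pos rfl]
    congr 1
    have h2 : ∏ w ∈ T.erase z, max 0 (y - max x (c w)) =
        ∏ w ∈ (Finset.univ : Finset {z // z ∈ T}).erase z, max 0 (y - max x (c w)) := by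
      refine (Finset.prod_bij (fun (w : {z // z ∈ T}) _ => (w : ℕ)) ?_ ?_ ?_ fun _ _ => rfl).symm
      · intro w hw
        exact Finset.mem_erase.2 ⟨fun h => (Finset.ne_of_mem_erase hw) (Subtype.ext h), w.2⟩
      · intro a _ b _ hab
        exact Subtype.ext hab
      · intro b hb
        refine ⟨⟨b, Finset.mem_of_mem_erase hb⟩, Finset.mem_erase.2 ⟨fun h => ?_, Finset.mem_univ _⟩, rfl⟩
        exact Finset.ne_of_mem_erase hb (congrArg Subtype.val h)
    rw [h2]
    refine Finset.prod_congr rfl fun w hw => ?_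
    have h3 : (Sum.inl w : {z // z ∈ T} ⊕ {z // z ∈ S}) ≠ Sum.inl z := fun h =>
      Finset.ne_of_mem_erase hw (Sum.inl.inj h)
    rw [if_neg h3]
    exact fac_one_inl c d w hx hy
  have h2 : ∏ w : {z // z ∈ S}, fac (T := T) c d (if (Sum.inr w : {z // z ∈ T} ⊕ {z // z ∈ S}) = Sum.inl z then g
      else fun _ => 1) (Sum.inr w) x y = Phi d S (1 - y) (1 - x) := by
    unfold Phi
    rw [← Finset.prod_coe_sort S (fun z => max 0 ((1 - x) - max (1 - y) (d z)))]
    refine Finset.prod_congr rfl fun w _ => ?_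
    rw [if_neg Sum.inr_ne_inl]
    exact fac_one_inr c d w hx hy
  rw [h1, h2]
  unfold W Phi
  ring

open Classical in
lemma prod_fac_inr (z : {z // z ∈ S}) (g : ℝ → ℝ) {x y : ℝ} (hx : 0 ≤ x) (hy : y ≤ 1) :
    ∏ j : {z // z ∈ T} ⊕ {z // z ∈ S}, fac c d (if j = Sum.inr z then g else fun _ => 1) j x y =
      W c d T (S.erase z) x y * fac (T := T) c d g (Sum.inr z) x y := by
  rw [Fintype.prod_sum_type]
  have h1 : ∏ w : {z // z ∈ S}, fac (T := T) c d (if (Sum.inr w : {z // z ∈ T} ⊕ {z // z ∈ S}) = Sum.inr z then g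
      else fun _ => 1) (Sum.inr w) x y = (∏ w ∈ S.erase z, max 0 ((1 - x) - max (1 - y) (d w))) *
        fac (T := T) c d g (Sum.inr z) x y := by
    rw [← Finset.prod_erase_mul _ _ (Finset.mem_univ z), if_pos rfl]
    congr 1
    have h2 : ∏ w ∈ S.erase z, max 0 ((1 - x) - max (1 - y) (d w)) =
        ∏ w ∈ (Finset.univ : Finset {z // z ∈ S}).erase z, max 0 ((1 - x) - max (1 - y) (d w)) := by
      refine (Finset.prod_bij (fun (w : {z // z ∈ S}) _ => (w : ℕ)) ?_ ?_ ?_ fun _ _ => rfl).symm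
      · intro w hw
        exact Finset.mem_erase.2 ⟨fun h => (Finset.ne_of_mem_erase hw) (Subtype.ext h), w.2⟩
      · intro a _ b _ hab
        exact Subtype.ext hab
      · intro b hb
        refine ⟨⟨b, Finset.mem_of_mem_erase hb⟩, Finset.mem_erase.2 ⟨fun h => ?_, Finset.mem_univ _⟩, rfl⟩
        exact Finset.ne_of_mem_erase hb (congrArg Subtype.val h)
    rw [h2]
    refine Finset.prod_congr rfl fun w hw => ?_
    have h3 : (Sum.inr w : {z // z ∈ T} ⊕ {z // z ∈ S}) ≠ Sum.inr z := fun h =>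
      Finset.ne_of_mem_erase hw (Sum.inr.inj h)
    rw [if_neg h3]
    exact fac_one_inr c d w hx hy
  have h2 : ∏ w : {z // z ∈ T}, fac (S := S) c d (if (Sum.inl w : {z // z ∈ T} ⊕ {z // z ∈ S}) = Sum.inr z then g
      else fun _ => 1) (Sum.inl w) x y = Phi c T x y := by
    unfold Phi
    rw [← Finset.prod_coe_sort T (fun z => max 0 (y - max x (c z)))]
    refine Finset.prod_congr rfl fun w _ => ?_
    rw [if_neg Sum.inl_ne_inr]
    exact fac_one_inl c d w hx hy
  rw [h1, h2]
  unfold W Phi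
  ring

end

/-- exchange of three integrals -/
lemma swap3 {G : (ℝ × ℝ) × ℝ → ℝ} (hG : Measurable G) {C : ℝ} (hC : ∀ q, |G q| ≤ C) :
    ∫ x, ∫ y, ∫ t, G ((x, y), t) ∂lam ∂lam ∂lam = ∫ t, ∫ x, ∫ y, G ((x, y), t) ∂lam ∂lam ∂lam := by
  have hint : Integrable (Function.uncurry fun (p : ℝ × ℝ) (t : ℝ) => G (p, t)) ((lam.prod lam).prod lam) :=
    int_bdd C hG hC
  have h1 : ∫ p, ∫ t, G (p, t) ∂lam ∂(lam.prod lam) = ∫ x, ∫ y, ∫ t, G ((x, y), t) ∂lam ∂lam ∂lam :=
    integral_prod _ hint.integral_prod_left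
  have h2 : ∀ t, ∫ p, G (p, t) ∂(lam.prod lam) = ∫ x, ∫ y, G ((x, y), t) ∂lam ∂lam := fun t =>
    integral_prod _ (int_bdd C (hG.comp (by fun_prop : Measurable fun p : ℝ × ℝ => (p, t))) fun p => hC _)
  rw [← h1, integral_integral_swap hint]
  exact integral_congr_ae (Filter.Eventually.of_forall h2)

instance : NullSingletonClass lam := by unfold lam; infer_instance

lemma ae_lam' : ∀ᵐ t ∂lam, 0 ≤ t ∧ t ≤ 1 := by
  filter_upwards [ae_lam] with t ht
  exact ⟨ht.1.le, ht.2⟩

/-- integrals over the unit square depend only on the values there -/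
lemma int2_congr {f g : ℝ → ℝ → ℝ} (h : ∀ x y, 0 ≤ x → x ≤ 1 → 0 ≤ y → y ≤ 1 → f x y = g x y) :
    ∫ x, ∫ y, f x y ∂lam ∂lam = ∫ x, ∫ y, g x y ∂lam ∂lam := by
  refine integral_congr_ae ?_
  filter_upwards [ae_lam'] with x hx
  refine integral_congr_ae ?_
  filter_upwards [ae_lam'] with y hy
  exact h x y hx.1 hx.2 hy.1 hy.2

lemma int2_lam (f : ℝ → ℝ → ℝ) :
    ∫ x, ∫ y, f x y ∂lam ∂lam = ∫ x in (0 : ℝ)..1, ∫ y in (0 : ℝ)..1, f x y := by
  rw [int_lam]
  exact intervalIntegral.integral_congr fun x _ => int_lam _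

section
variable {T S : Finset ℕ} (c d : ℕ → ℝ)

lemma st_meas_W (T S : Finset ℕ) : Measurable (Function.uncurry (W c d T S)) := by
  have e : Function.uncurry (W c d T S) = fun p : ℝ × ℝ => (∏ z ∈ T, max 0 (p.2 - max p.1 (c z))) *
      ∏ z ∈ S, max 0 ((1 - p.1) - max (1 - p.2) (d z)) := rfl
  rw [e]
  refine Measurable.mul ?_ ?_
  · exact Finset.measurable_prod _ fun z _ => by fun_prop
  · exact Finset.measurable_prod _ fun z _ => by fun_prop

lemma st_W_nonneg (T S : Finset ℕ) (x y : ℝ) : 0 ≤ W c d T S x y :=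
  mul_nonneg (Finset.prod_nonneg fun _ _ => le_max_left _ _) (Finset.prod_nonneg fun _ _ => le_max_left _ _)

lemma st_W_le_one (T S : Finset ℕ) {x y : ℝ} (hx : 0 ≤ x) (hy : y ≤ 1) : W c d T S x y ≤ 1 := by
  have h1 : Phi c T x y ≤ 1 := Finset.prod_le_one (fun _ _ => le_max_left _ _) fun z _ =>
    max_le zero_le_one (by have := le_max_left x (c z); linarith)
  have h2 : Phi d S (1 - y) (1 - x) ≤ 1 := Finset.prod_le_one (fun _ _ => le_max_left _ _) fun z _ =>
    max_le zero_le_one (by have := le_max_left (1 - y) (d z); linarith)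
  exact mul_le_one₀ h1 (Finset.prod_nonneg fun _ _ => le_max_left _ _) h2

lemma st_abs_W_le (T S : Finset ℕ) {x y : ℝ} (hx : 0 ≤ x) (hy : y ≤ 1) : |W c d T S x y| ≤ 1 := by
  rw [abs_of_nonneg (st_W_nonneg c d T S x y)]
  exact st_W_le_one c d T S hx hy

/-- **volume of the star** -/
theorem real_st : (PV (Star T S)).real (st T S c d) = Vol c d T S := by
  have h := int_star (T := T) (S := S) c d (k := fun _ _ => 1) (g := fun _ _ => 1) measurable_const
    (fun _ _ => by simp) (fun _ => measurable_const) fun _ _ => by simp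
  simp only [Finset.prod_const_one, mul_one, one_mul] at h
  rw [real_eq, h]
  unfold Vol
  rw [← int2_lam]
  exact int2_congr fun x y hx _ _ hy => prod_fac_one c d hx hy

theorem law_x {g : ℝ → ℝ} (hg : Measurable g) (hgb : ∀ t, |g t| ≤ 1) :
    ∫ v in st T S c d, g (v (Sum.inl false)) ∂(PV (Star T S)) = ∫ t in (0 : ℝ)..1, g t * dX c d T S t := by
  have h := int_star (T := T) (S := S) c d (k := fun x _ => g x) (g := fun _ _ => 1)
    (hg.comp measurable_fst) (fun x _ => hgb x) (fun _ => measurable_const) fun _ _ => by simp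
  simp only [Finset.prod_const_one, mul_one] at h
  rw [h, ← int_lam]
  refine integral_congr_ae ?_
  filter_upwards [ae_lam'] with x hx
  rw [integral_const_mul]
  congr 1
  unfold dX
  rw [← int_lam]
  refine integral_congr_ae ?_
  filter_upwards [ae_lam'] with y hy
  exact prod_fac_one c d hx.1 hy.2

theorem law_y {g : ℝ → ℝ} (hg : Measurable g) (hgb : ∀ t, |g t| ≤ 1) :
    ∫ v in st T S c d, g (v (Sum.inl true)) ∂(PV (Star T S)) = ∫ t in (0 : ℝ)..1, g t * dY c d T S t := by
  have h := int_star (T := T) (S := S) c d (k := fun _ y => g y) (g := fun _ _ => 1)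
    (hg.comp measurable_snd) (fun _ y => hgb y) (fun _ => measurable_const) fun _ _ => by simp
  simp only [Finset.prod_const_one, mul_one] at h
  have hint : Integrable (Function.uncurry fun x y => g y *
      ∏ j : {z // z ∈ T} ⊕ {z // z ∈ S}, fac c d (fun _ => 1) j x y) (lam.prod lam) := by
    refine int_bdd 1 ((hg.comp measurable_snd).mul (Finset.measurable_prod _ fun j _ =>
      meas_fac c d (fun _ => 1) measurable_const j)) fun p => ?_
    show |g p.2 * ∏ j : {z // z ∈ T} ⊕ {z // z ∈ S}, fac c d (fun _ => 1) j p.1 p.2| ≤ 1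
    rw [abs_mul, Finset.abs_prod]
    exact mul_le_one₀ (hgb _) (Finset.prod_nonneg fun _ _ => abs_nonneg _)
      (Finset.prod_le_one (fun _ _ => abs_nonneg _) fun j _ => st_abs_fac_le c d _ (fun _ => by simp) _ _ _)
  rw [h, integral_integral_swap hint, ← int_lam]
  refine integral_congr_ae ?_
  filter_upwards [ae_lam'] with y hy
  rw [integral_const_mul]
  congr 1
  unfold dY
  rw [← int_lam]
  refine integral_congr_ae ?_
  filter_upwards [ae_lam'] with x hx
  exact prod_fac_one c d hx.1 hy.2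

open Classical in
/-- the law of a leaf, general form -/
theorem law_leaf (j₀ : {z // z ∈ T} ⊕ {z // z ∈ S}) (I : ℝ → ℝ → Set ℝ)
    (hI : ∀ x y, Iv c d x y j₀ =ᵐ[lam] I x y) (hIm : MeasurableSet {p : (ℝ × ℝ) × ℝ | p.2 ∈ I p.1.1 p.1.2})
    (w : ℝ → ℝ → ℝ) (hwm : Measurable (Function.uncurry w))
    (hw1 : ∀ x y, 0 ≤ x → x ≤ 1 → 0 ≤ y → y ≤ 1 → |w x y| ≤ 1)
    {g : ℝ → ℝ} (hg : Measurable g) (hgb : ∀ t, |g t| ≤ 1)
    (hw : ∀ x y, 0 ≤ x → x ≤ 1 → 0 ≤ y → y ≤ 1 →
      ∏ j : {z // z ∈ T} ⊕ {z // z ∈ S}, fac c d (if j = j₀ then g else fun _ => 1) j x y =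
        w x y * fac c d g j₀ x y) :
    ∫ v in st T S c d, g (v (Sum.inr j₀)) ∂(PV (Star T S)) =
      ∫ t in (0 : ℝ)..1, g t * ∫ x in (0 : ℝ)..1, ∫ y in (0 : ℝ)..1, (I x y).indicator (fun _ => w x y) t := by
  have h := int_star (T := T) (S := S) c d (k := fun _ _ => 1) (g := fun j => if j = j₀ then g else fun _ => 1)
    measurable_const (fun _ _ => by simp) (fun j => by
      by_cases hj : j = j₀
      · rw [if_pos hj]; exact hg
      · rw [if_neg hj]; exact measurable_const) fun j t => by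
      by_cases hj : j = j₀
      · rw [if_pos hj]; exact hgb t
      · rw [if_neg hj]; simp
  have e1 : ∀ v : Star T S → ℝ, (1 : ℝ) * ∏ j : {z // z ∈ T} ⊕ {z // z ∈ S},
      (if j = j₀ then g else fun _ => 1) (v (Sum.inr j)) = g (v (Sum.inr j₀)) := by
    intro v
    rw [one_mul, Finset.prod_eq_single j₀]
    · rw [if_pos rfl]
    · intro j _ hj
      rw [if_neg hj]
    · intro h
      exact absurd (Finset.mem_univ _) h
  simp only [e1] at h
  simp only [one_mul] at h
  rw [h]
  -- the function of three variables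
  let Q : Set ((ℝ × ℝ) × ℝ) := {p | (0 ≤ p.1.1 ∧ p.1.1 ≤ 1) ∧ (0 ≤ p.1.2 ∧ p.1.2 ≤ 1)}
  have hQ : MeasurableSet Q := by
    have m1 : Measurable fun p : (ℝ × ℝ) × ℝ => p.1.1 := measurable_fst.comp measurable_fst
    have m2 : Measurable fun p : (ℝ × ℝ) × ℝ => p.1.2 := measurable_snd.comp measurable_fst
    exact ((measurableSet_le measurable_const m1).inter (measurableSet_le m1 measurable_const)).inter
      ((measurableSet_le measurable_const m2).inter (measurableSet_le m2 measurable_const))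
  let G : (ℝ × ℝ) × ℝ → ℝ := Q.indicator fun p =>
    g p.2 * ({p : (ℝ × ℝ) × ℝ | p.2 ∈ I p.1.1 p.1.2}.indicator (fun p => w p.1.1 p.1.2) p)
  have hGm : Measurable G := by
    refine Measurable.indicator ?_ hQ
    refine (hg.comp measurable_snd).mul (Measurable.indicator ?_ hIm)
    exact hwm.comp measurable_fst
  have hGb : ∀ q, |G q| ≤ 1 := by
    intro q
    by_cases hq : q ∈ Q
    · show |Q.indicator _ q| ≤ 1
      rw [indicator_of_mem hq, abs_mul]
      refine mul_le_one₀ (hgb _) (abs_nonneg _) ?_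
      by_cases hq2 : q ∈ {p : (ℝ × ℝ) × ℝ | p.2 ∈ I p.1.1 p.1.2}
      · rw [indicator_of_mem hq2]
        exact hw1 _ _ hq.1.1 hq.1.2 hq.2.1 hq.2.2
      · rw [indicator_of_notMem hq2, abs_zero]
        exact zero_le_one
    · show |Q.indicator _ q| ≤ 1
      rw [indicator_of_notMem hq, abs_zero]
      exact zero_le_one
  have hGe : ∀ x y t, 0 ≤ x → x ≤ 1 → 0 ≤ y → y ≤ 1 →
      G ((x, y), t) = g t * (I x y).indicator (fun _ => w x y) t := by
    intro x y t h1 h2 h3 h4
    have hq : ((x, y), t) ∈ Q := ⟨⟨h1, h2⟩, ⟨h3, h4⟩⟩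
    show Q.indicator _ _ = _
    rw [indicator_of_mem hq]
    rfl
  have h2 : ∫ x, ∫ y, ∏ j : {z // z ∈ T} ⊕ {z // z ∈ S},
      fac c d (if j = j₀ then g else fun _ => 1) j x y ∂lam ∂lam =
      ∫ x, ∫ y, ∫ t, G ((x, y), t) ∂lam ∂lam ∂lam := by
    refine int2_congr fun x y h1 h2 h3 h4 => ?_
    rw [hw x y h1 h2 h3 h4]
    unfold fac
    rw [← integral_const_mul]
    have h5 : (Iv c d x y j₀).indicator g =ᵐ[lam] (I x y).indicator g := indicator_ae_eq_of_ae_eq_set (hI x y)
    refine integral_congr_ae ?_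
    filter_upwards [h5] with t ht
    rw [hGe x y t h1 h2 h3 h4, ht]
    by_cases h6 : t ∈ I x y
    · rw [indicator_of_mem h6, indicator_of_mem h6, mul_comm]
    · rw [indicator_of_notMem h6, indicator_of_notMem h6, mul_zero, mul_zero]
  rw [h2, swap3 hGm hGb, ← int_lam]
  refine integral_congr_ae (Filter.Eventually.of_forall fun t => ?_)
  show ∫ x, ∫ y, G ((x, y), t) ∂lam ∂lam = g t * _
  rw [int2_congr (fun x y h1 h2 h3 h4 => hGe x y t h1 h2 h3 h4), ← int2_lam, ← integral_const_mul]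
  refine integral_congr_ae (Filter.Eventually.of_forall fun x => ?_)
  exact integral_const_mul _ _

theorem law_L (z : {z // z ∈ T}) {g : ℝ → ℝ} (hg : Measurable g) (hgb : ∀ t, |g t| ≤ 1) :
    ∫ v in st T S c d, g (v (Sum.inr (Sum.inl z))) ∂(PV (Star T S)) = ∫ t in (0 : ℝ)..1, g t * dL c d T S z t := by
  have m1 : Measurable fun p : (ℝ × ℝ) × ℝ => p.1.1 := measurable_fst.comp measurable_fst
  have m2 : Measurable fun p : (ℝ × ℝ) × ℝ => p.1.2 := measurable_snd.comp measurable_fst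
  have m3 : Measurable fun p : (ℝ × ℝ) × ℝ => p.2 := measurable_snd
  have h := law_leaf (T := T) (S := S) c d (Sum.inl z) (fun x y => Ioo (max x (c z)) y) (fun x y => Ioo_ae_eq_Icc.symm)
    ((measurableSet_lt (m1.max measurable_const) m3).inter (measurableSet_lt m3 m2))
    (W c d (T.erase z) S) (st_meas_W c d _ _) (fun x y h1 _ _ h4 => st_abs_W_le c d _ _ h1 h4) hg hgb
    fun x y h1 _ _ h4 => prod_fac_inl c d z g h1 h4
  refine h.trans (intervalIntegral.integral_congr fun t _ => ?_)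
  show g t * _ = g t * _
  congr 1
  unfold dL
  refine intervalIntegral.integral_congr fun x _ => intervalIntegral.integral_congr fun y _ => ?_
  by_cases h6 : max x (c z) < t ∧ t < y
  · rw [if_pos h6]
    exact indicator_of_mem (s := Ioo (max x (c z)) y) h6 (fun _ => W c d (T.erase z) S x y)
  · rw [if_neg h6]
    exact indicator_of_notMem (s := Ioo (max x (c z)) y) h6 (fun _ => W c d (T.erase z) S x y)

theorem law_R (z : {z // z ∈ S}) {g : ℝ → ℝ} (hg : Measurable g) (hgb : ∀ t, |g t| ≤ 1) :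
    ∫ v in st T S c d, g (v (Sum.inr (Sum.inr z))) ∂(PV (Star T S)) = ∫ t in (0 : ℝ)..1, g t * dR c d T S z t := by
  have m1 : Measurable fun p : (ℝ × ℝ) × ℝ => p.1.1 := measurable_fst.comp measurable_fst
  have m2 : Measurable fun p : (ℝ × ℝ) × ℝ => p.1.2 := measurable_snd.comp measurable_fst
  have m3 : Measurable fun p : (ℝ × ℝ) × ℝ => p.2 := measurable_snd
  have h := law_leaf (T := T) (S := S) c d (Sum.inr z) (fun x y => Ioo x (min y (1 - d z))) (fun x y => Ioo_ae_eq_Icc.symm)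
    ((measurableSet_lt m1 m3).inter (measurableSet_lt m3 (m2.min measurable_const)))
    (W c d T (S.erase z)) (st_meas_W c d _ _) (fun x y h1 _ _ h4 => st_abs_W_le c d _ _ h1 h4) hg hgb
    fun x y h1 _ _ h4 => prod_fac_inr c d z g h1 h4
  refine h.trans (intervalIntegral.integral_congr fun t _ => ?_)
  show g t * _ = g t * _
  congr 1
  unfold dR
  refine intervalIntegral.integral_congr fun x _ => intervalIntegral.integral_congr fun y _ => ?_
  by_cases h6 : x < t ∧ t < min y (1 - d z)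
  · rw [if_pos h6]
    exact indicator_of_mem (s := Ioo x (min y (1 - d z))) h6 (fun _ => W c d T (S.erase z) x y)
  · rw [if_neg h6]
    exact indicator_of_notMem (s := Ioo x (min y (1 - d z))) h6 (fun _ => W c d T (S.erase z) x y)

end

/-- the density of a member of the star -/
noncomputable def den (c d : ℕ → ℝ) (T S : Finset ℕ) : Star T S → ℝ → ℝ
  | Sum.inl false => dX c d T S
  | Sum.inl true => dY c d T S
  | Sum.inr (Sum.inl z) => dL c d T S z
  | Sum.inr (Sum.inr z) => dR c d T S z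

/-- **The law of a member of the star.** -/
theorem law (c d : ℕ → ℝ) {T S : Finset ℕ} (e : Star T S) {g : ℝ → ℝ} (hg : Measurable g)
    (hgb : ∀ t, |g t| ≤ 1) :
    ∫ v in st T S c d, g (v e) ∂(PV (Star T S)) = ∫ t in (0 : ℝ)..1, g t * den c d T S e t := by
  rcases e with (_ | _) | (z | z)
  · exact law_x c d hg hgb
  · exact law_y c d hg hgb
  · exact law_L c d z hg hgb
  · exact law_R c d z hg hgb

end Pool.Agent.T1K
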