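import Mathlib
import Pool.Agent.T1K.StarLaw

/-!
# Laws of members of groups: volumes of events and pairs
-/

set_option autoImplicit false

namespace Pool.Agent.T1K

open MeasureTheory Set Pool.Agent.Helper73.KS

/-- `f` is the (unnormalised) density of the function `X` on the set `A` for the measure `μ` -/
def IsLaw {α : Type} [MeasurableSpace α] (μ : Measure α) (A : Set α) (X : α → ℝ) (f : ℝ → ℝ) : Prop :=
  ∀ g : ℝ → ℝ, Measurable g → (∀ t, |g t| ≤ 1) → ∫ v in A, g (X v) ∂μ = ∫ t in (0 : ℝ)..1, g t * f t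

section
variable {α β : Type} [MeasurableSpace α] [MeasurableSpace β] {μ : Measure α} {ν : Measure β}
  [IsFiniteMeasure μ] [IsFiniteMeasure ν] {A : Set α} {B : Set β} {X : α → ℝ} {Y : β → ℝ} {f h : ℝ → ℝ}

omit [IsFiniteMeasure μ] in
theorem IsLaw.total (hf : IsLaw μ A X f) : μ.real A = ∫ t in (0 : ℝ)..1, f t := by
  have h1 := hf (fun _ => 1) measurable_const (fun _ => by simp)
  simp only [one_mul] at h1
  rw [← h1, setIntegral_const, smul_eq_mul, mul_one]

omit [IsFiniteMeasure μ] in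
theorem IsLaw.ev (hf : IsLaw μ A X f) (hX : Measurable X) {E : Set ℝ} (hE : MeasurableSet E) :
    μ.real {v | v ∈ A ∧ X v ∈ E} = ∫ t in (0 : ℝ)..1, E.indicator (fun _ => (1 : ℝ)) t * f t := by
  have h1 := hf (E.indicator fun _ => 1) (measurable_const.indicator hE) (fun t => by
    by_cases h : t ∈ E
    · rw [indicator_of_mem h]; simp
    · rw [indicator_of_notMem h]; simp)
  rw [← h1]
  have h2 : (fun v => E.indicator (fun _ => (1 : ℝ)) (X v)) = (X ⁻¹' E).indicator fun _ => 1 := by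
    funext v
    rfl
  rw [h2, integral_indicator_const _ (hX hE), smul_eq_mul, mul_one, measureReal_restrict_apply (hX hE)]
  congr 1
  ext v
  exact and_comm

theorem ind_lt_eq {a : ℝ} (h0 : 0 ≤ a) (h1 : a ≤ 1) :
    ∫ t in (0 : ℝ)..1, (Iio a).indicator (fun _ => (1 : ℝ)) t * f t = ∫ t in (0 : ℝ)..a, f t := by
  have e : (fun t => (Iio a).indicator (fun _ => (1 : ℝ)) t * f t) = (Iio a).indicator f := by
    funext t
    by_cases h : t ∈ Iio a
    · rw [indicator_of_mem h, indicator_of_mem h, one_mul]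
    · rw [indicator_of_notMem h, indicator_of_notMem h, zero_mul]
  rw [e, intervalIntegral.integral_of_le zero_le_one, intervalIntegral.integral_of_le h0,
    integral_indicator measurableSet_Iio, Measure.restrict_restrict measurableSet_Iio]
  refine setIntegral_congr_set ?_
  have h2 : Iio a ∩ Ioc (0 : ℝ) 1 = Ioo 0 a := by
    ext t
    simp only [mem_inter_iff, mem_Iio, mem_Ioc, mem_Ioo]
    constructor
    · rintro ⟨h, h', _⟩; exact ⟨h', h⟩
    · rintro ⟨h, h'⟩; exact ⟨h', h, h'.le.trans h1⟩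
  rw [h2]
  exact Ioo_ae_eq_Ioc

theorem ind_gt_eq {a : ℝ} (h0 : 0 ≤ a) (h1 : a ≤ 1) :
    ∫ t in (0 : ℝ)..1, (Ioi a).indicator (fun _ => (1 : ℝ)) t * f t = ∫ t in a..(1 : ℝ), f t := by
  have e : (fun t => (Ioi a).indicator (fun _ => (1 : ℝ)) t * f t) = (Ioi a).indicator f := by
    funext t
    by_cases h : t ∈ Ioi a
    · rw [indicator_of_mem h, indicator_of_mem h, one_mul]
    · rw [indicator_of_notMem h, indicator_of_notMem h, zero_mul]
  rw [e, intervalIntegral.integral_of_le zero_le_one, intervalIntegral.integral_of_le h1,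
    integral_indicator measurableSet_Ioi, Measure.restrict_restrict measurableSet_Ioi]
  have h2 : Ioi a ∩ Ioc (0 : ℝ) 1 = Ioc a 1 := by
    ext t
    simp only [mem_inter_iff, mem_Ioi, mem_Ioc]
    constructor
    · rintro ⟨h, _, h'⟩; exact ⟨h, h'⟩
    · rintro ⟨h, h'⟩; exact ⟨h, h0.trans_lt h, h'⟩
  rw [h2]

omit [IsFiniteMeasure μ] in
theorem IsLaw.lt (hf : IsLaw μ A X f) (hX : Measurable X) {a : ℝ} (h0 : 0 ≤ a) (h1 : a ≤ 1) :
    μ.real {v | v ∈ A ∧ X v < a} = ∫ t in (0 : ℝ)..a, f t :=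
  (hf.ev hX measurableSet_Iio).trans (ind_lt_eq h0 h1)

omit [IsFiniteMeasure μ] in
theorem IsLaw.gt (hf : IsLaw μ A X f) (hX : Measurable X) {a : ℝ} (h0 : 0 ≤ a) (h1 : a ≤ 1) :
    μ.real {v | v ∈ A ∧ a < X v} = ∫ t in a..(1 : ℝ), f t :=
  (hf.ev hX measurableSet_Ioi).trans (ind_gt_eq h0 h1)

/-- two independent members: general form -/
theorem pair_gen (hh : IsLaw ν B Y h) (hA : MeasurableSet A) (hB : MeasurableSet B) (hX : Measurable X)
    (hY : Measurable Y) (hμ : μ univ ≤ 1) {r : ℝ → ℝ → Prop} (hr : MeasurableSet {p : ℝ × ℝ | r p.1 p.2}) :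
    (μ.prod ν).real {p | p.1 ∈ A ∧ p.2 ∈ B ∧ r (X p.1) (Y p.2)} =
      ∫ t in (0 : ℝ)..1, μ.real {v | v ∈ A ∧ r (X v) t} * h t := by
  have hS : MeasurableSet {p : α × β | p.1 ∈ A ∧ p.2 ∈ B ∧ r (X p.1) (Y p.2)} := by
    refine (hA.preimage measurable_fst).inter ((hB.preimage measurable_snd).inter ?_)
    exact hr.preimage ((hX.comp measurable_fst).prodMk (hY.comp measurable_snd))
  -- the function of the position of the second member
  let Φ : ℝ → ℝ := fun t => μ.real {v | v ∈ A ∧ r (X v) t}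
  have hΦm : Measurable Φ := by
    have h1 : MeasurableSet {p : ℝ × α | p.2 ∈ A ∧ r (X p.2) p.1} :=
      (hA.preimage measurable_snd).inter
        (hr.preimage ((hX.comp measurable_snd).prodMk measurable_fst))
    exact (measurable_measure_prodMk_left (ν := μ) h1).ennreal_toReal
  have hΦb : ∀ t, |Φ t| ≤ 1 := by
    intro t
    rw [abs_of_nonneg measureReal_nonneg]
    refine ENNReal.toReal_le_of_le_ofReal zero_le_one ?_
    rw [ENNReal.ofReal_one]
    exact (measure_mono (subset_univ _)).trans hμ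
  have h2 := hh Φ hΦm hΦb
  rw [← h2]
  have h3 : (μ.prod ν).real {p | p.1 ∈ A ∧ p.2 ∈ B ∧ r (X p.1) (Y p.2)} =
      ∫ y, μ.real {x | x ∈ A ∧ y ∈ B ∧ r (X x) (Y y)} ∂ν := by
    unfold Measure.real
    rw [Measure.prod_apply_symm hS]
    exact (integral_toReal (measurable_measure_prodMk_right (μ := μ) hS).aemeasurable
      (Filter.Eventually.of_forall fun _ => measure_lt_top _ _)).symm
  rw [h3, ← integral_indicator hB]
  refine integral_congr_ae (Filter.Eventually.of_forall fun y => ?_)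
  by_cases hy : y ∈ B
  · rw [indicator_of_mem hy]
    show μ.real _ = μ.real _
    congr 1
    ext x
    exact ⟨fun hx => ⟨hx.1, hx.2.2⟩, fun hx => ⟨hx.1, hy, hx.2⟩⟩
  · rw [indicator_of_notMem hy]
    have e : {x | x ∈ A ∧ y ∈ B ∧ r (X x) (Y y)} = ∅ := by
      ext x
      simp [hy]
    show μ.real _ = 0
    rw [e]
    simp

/-- **two independent members**: the first is below the second -/
theorem IsLaw.pair_lt (hf : IsLaw μ A X f) (hh : IsLaw ν B Y h) (hA : MeasurableSet A) (hB : MeasurableSet B)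
    (hX : Measurable X) (hY : Measurable Y) (hμ : μ univ ≤ 1) :
    (μ.prod ν).real {p | p.1 ∈ A ∧ p.2 ∈ B ∧ X p.1 < Y p.2} =
      ∫ t in (0 : ℝ)..1, h t * ∫ s in (0 : ℝ)..t, f s := by
  rw [pair_gen (r := fun a b => a < b) hh hA hB hX hY hμ (measurableSet_lt measurable_fst measurable_snd)]
  refine intervalIntegral.integral_congr fun t ht => ?_
  rw [uIcc_of_le zero_le_one] at ht
  show μ.real _ * h t = h t * _
  rw [hf.lt hX ht.1 ht.2, mul_comm]

/-- **two independent members**: the second is below the first -/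
theorem IsLaw.pair_gt (hf : IsLaw μ A X f) (hh : IsLaw ν B Y h) (hA : MeasurableSet A) (hB : MeasurableSet B)
    (hX : Measurable X) (hY : Measurable Y) (hμ : μ univ ≤ 1) :
    (μ.prod ν).real {p | p.1 ∈ A ∧ p.2 ∈ B ∧ Y p.2 < X p.1} =
      ∫ t in (0 : ℝ)..1, h t * ∫ s in t..(1 : ℝ), f s := by
  rw [pair_gen (r := fun a b => b < a) hh hA hB hX hY hμ (measurableSet_lt measurable_snd measurable_fst)]
  refine intervalIntegral.integral_congr fun t ht => ?_
  rw [uIcc_of_le zero_le_one] at ht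
  show μ.real _ * h t = h t * _
  rw [hf.gt hX ht.1 ht.2, mul_comm]

end

/-! ## the members of the groups -/

section
variable (M : ℕ) {T S : Finset ℕ} (τ : Gd M → ℝ)

theorem isLaw_star (e : Star T S) :
    IsLaw (PV (Star T S)) (fb (starD M T S) τ) (fun y => y e) (den (cc M τ) (dd M τ) T S e) := by
  rw [fb_star]
  intro g hg hgb
  exact law _ _ e hg hgb

/-- **volume of the star** -/
theorem vj_star (T S : Finset ℕ) (M : ℕ) (τ : Gd M → ℝ) :
    vj (starD M T S) τ = Vol (cc M τ) (dd M τ) T S := by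
  unfold vj
  rw [fb_star, real_st]

/-- the density of the extra element above the tick `z` -/
noncomputable def dP (c : ℕ → ℝ) (z : ℕ) : ℝ → ℝ := (Ioi (c z)).indicator fun _ => 1

theorem isLaw_pad (z : ℕ) (e : Unit) :
    IsLaw (PV Unit) (fb (padD M z) τ) (fun y => y e) (dP (cc M τ) z) := by
  intro g hg hgb
  have h1 : fb (padD M z) τ = {y : Unit → ℝ | cc M τ z ≤ y ()} := by
    ext y
    constructor
    · intro h
      exact h.1 () _ rfl
    · intro h
      refine ⟨?_, ?_, ?_⟩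
      · intro c g hg
        have : Sum.inl (ix M z) = g := Option.some.inj hg
        subst this
        exact h
      · intro c g hg
        exact absurd hg (by simp [padD])
      · intro c d hcd
        exact hcd.elim
  rw [h1]
  have h2 : MeasurableSet {y : Unit → ℝ | cc M τ z ≤ y ()} :=
    measurableSet_le measurable_const (measurable_pi_apply _)
  rw [← integral_indicator h2]
  have h3 : ({y : Unit → ℝ | cc M τ z ≤ y ()}).indicator (fun y => g (y e)) =
      fun y : Unit → ℝ => ∏ j : Unit, ((fun _ : Unit => (Ici (cc M τ z)).indicator g) j) (y j) := by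
    funext y
    rw [Finset.univ_unique, Finset.prod_singleton]
    rfl
  rw [h3, int_prod, Finset.univ_unique, Finset.prod_singleton, ← int_lam]
  have h4 : (Ici (cc M τ z)).indicator g =ᵐ[lam] (Ioi (cc M τ z)).indicator g :=
    indicator_ae_eq_of_ae_eq_set Ioi_ae_eq_Ici.symm
  refine integral_congr_ae ?_
  filter_upwards [h4] with t ht
  show (Ici (cc M τ z)).indicator g t = g t * (Ioi (cc M τ z)).indicator (fun _ => 1) t
  rw [ht]
  by_cases h : t ∈ Ioi (cc M τ z)
  · rw [indicator_of_mem h, indicator_of_mem h, mul_one]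
  · rw [indicator_of_notMem h, indicator_of_notMem h, mul_zero]

end

/-- two members of different groups with given laws, in the form of `vol_pair` -/
theorem pair_fb {Gd' Γ Γ' : Type} [Fintype Gd'] [Fintype Γ] [Fintype Γ'] (D : GData Gd' Γ) (D' : GData Gd' Γ')
    (τ : Gd' → ℝ) (e : Γ) (e' : Γ') {f h : ℝ → ℝ} (hf : IsLaw (PV Γ) (fb D τ) (fun y => y e) f)
    (hh : IsLaw (PV Γ') (fb D' τ) (fun y => y e') h) :
    ((PV Γ).prod (PV Γ')).real {p | p.1 ∈ fb D τ ∧ p.2 ∈ fb D' τ ∧ p.1 e < p.2 e'} =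
      ∫ t in (0 : ℝ)..1, h t * ∫ s in (0 : ℝ)..t, f s :=
  hf.pair_lt hh (meas_fb D τ) (meas_fb D' τ) (measurable_pi_apply e) (measurable_pi_apply e')
    (by rw [measure_univ])

theorem pair_fb' {Gd' Γ Γ' : Type} [Fintype Gd'] [Fintype Γ] [Fintype Γ'] (D : GData Gd' Γ) (D' : GData Gd' Γ')
    (τ : Gd' → ℝ) (e : Γ) (e' : Γ') {f h : ℝ → ℝ} (hf : IsLaw (PV Γ) (fb D τ) (fun y => y e) f)
    (hh : IsLaw (PV Γ') (fb D' τ) (fun y => y e') h) :
    ((PV Γ).prod (PV Γ')).real {p | p.1 ∈ fb D τ ∧ p.2 ∈ fb D' τ ∧ p.2 e' < p.1 e} =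
      ∫ t in (0 : ℝ)..1, h t * ∫ s in t..(1 : ℝ), f s :=
  hf.pair_gt hh (meas_fb D τ) (meas_fb D' τ) (measurable_pi_apply e) (measurable_pi_apply e')
    (by rw [measure_univ])

/-- a member below a clock position -/
theorem one_fb {Gd' Γ : Type} [Fintype Gd'] [Fintype Γ] (D : GData Gd' Γ) (τ : Gd' → ℝ) (e : Γ) {f : ℝ → ℝ}
    (hf : IsLaw (PV Γ) (fb D τ) (fun y => y e) f) {a : ℝ} (h0 : 0 ≤ a) (h1 : a ≤ 1) :
    (PV Γ).real {y | y ∈ fb D τ ∧ y e < a} = ∫ t in (0 : ℝ)..a, f t :=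
  hf.lt (measurable_pi_apply e) h0 h1

theorem one_fb' {Gd' Γ : Type} [Fintype Gd'] [Fintype Γ] (D : GData Gd' Γ) (τ : Gd' → ℝ) (e : Γ) {f : ℝ → ℝ}
    (hf : IsLaw (PV Γ) (fb D τ) (fun y => y e) f) {a : ℝ} (h0 : 0 ≤ a) (h1 : a ≤ 1) :
    (PV Γ).real {y | y ∈ fb D τ ∧ a < y e} = ∫ t in a..(1 : ℝ), f t :=
  hf.gt (measurable_pi_apply e) h0 h1

end Pool.Agent.T1K
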