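import Mathlib
import Pool.Agent.T1K.VolForce
import Pool.Agent.T1K.Conc

/-!
# The design of the clock: the weight of the species and of the extra elements

`RLf`, `RRf` are the forces on the lower and the upper ticks at the target, `nlf`, `nuf` the numbers
of fillers, `Fv` the weight of the species and of the extra elements.
-/

set_option autoImplicit false

namespace Pool.Agent.T1K

open MeasureTheory Set Filter Topology Pool.Agent.Helper73.KS

theorem Vol_congr {c d c' d' : ℕ → ℝ} {T S : Finset ℕ} (h : ∀ z ∈ T, c z = c' z)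
    (h' : ∀ z ∈ S, d z = d' z) : Vol c d T S = Vol c' d' T S := by
  have h1 : ∀ x y, W c d T S x y = W c' d' T S x y := by
    intro x y
    unfold W Phi
    congr 1
    · exact Finset.prod_congr rfl fun z hz => by rw [h z hz]
    · exact Finset.prod_congr rfl fun z hz => by rw [h' z hz]
  unfold Vol
  simp only [h1]

/-! ## The extra elements -/

theorem pad_mid (a b : ℝ) :
    max 0 (1 - a) * max 0 (1 - b) ≤ (max 0 (1 - (a + b) / 2)) ^ 2 := by
  rcases le_or_gt (1 - a) 0 with h | h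
  · rw [max_eq_left h, zero_mul]
    exact sq_nonneg _
  · rcases le_or_gt (1 - b) 0 with h' | h'
    · rw [max_eq_left h', mul_zero]
      exact sq_nonneg _
    · rw [max_eq_right h.le, max_eq_right h'.le, max_eq_right (by linarith)]
      nlinarith [sq_nonneg (a - b)]

theorem pad_tan {a b : ℝ} (hb : b < 1) :
    max 0 (1 - a) ≤ (1 - b) * Real.exp (-((a - b) * (1 / (1 - b)))) := by
  have h0 : 0 < 1 - b := by linarith
  have h1 := Real.add_one_le_exp (-((a - b) * (1 / (1 - b))))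
  refine max_le (mul_nonneg h0.le (Real.exp_pos _).le) ?_
  have h2 := mul_le_mul_of_nonneg_left h1 h0.le
  refine le_trans (le_of_eq ?_) h2
  field_simp
  ring

section

variable {M N s : ℕ} (T S : Fin N → Finset ℕ) (ex : Fin s → Fin (M + 1)) (c0 : ℕ → ℝ)

/-- total force on the lower tick `z` at the target -/
noncomputable def RLf (z : ℕ) : ℝ :=
  ∑ b, (if z ∈ T b then frcL c0 c0 (T b) (S b) z else 0) +
    ∑ i, (if (ex i).val = z then 1 / (1 - c0 z) else 0)

/-- total force on the upper tick `z` at the target -/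
noncomputable def RRf (z : ℕ) : ℝ :=
  ∑ b, (if z ∈ S b then frcR c0 c0 (T b) (S b) z else 0)

/-- number of fillers in the lower cell `r` -/
noncomputable def nlf (r : ℕ) : ℕ :=
  Nat.floor (inc c0 r * ∑ z ∈ Finset.Ico r (M + 1), RLf T S ex c0 z)

/-- number of fillers in the upper cell `r` (`M` = index of the last tick) -/
noncomputable def nuf (M : ℕ) (r : ℕ) : ℕ :=
  Nat.floor (inc c0 r * ∑ z ∈ Finset.Ico r (M + 1), RRf T S c0 z)

/-- weight of the species and of the extra elements -/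
noncomputable def Fv (τ : Gd M → ℝ) : ℝ :=
  (∏ b, Vol (cc M τ) (dd M τ) (T b) (S b)) * ∏ i, max 0 (1 - cc M τ (ex i).val)

theorem Fv_nonneg (τ : Gd M → ℝ) : 0 ≤ Fv T S ex τ :=
  mul_nonneg (Finset.prod_nonneg fun _ _ => Vol_nonneg _ _ _ _)
    (Finset.prod_nonneg fun _ _ => le_max_left _ _)

/-- in the cube the truncation is not needed -/
theorem Fv_eq {τ : Gd M → ℝ} (h : τ ∈ cub (Gd M)) :
    Fv T S ex τ = (∏ b, Vol (cc M τ) (dd M τ) (T b) (S b)) * ∏ i, (1 - cc M τ (ex i).val) := by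
  unfold Fv
  congr 1
  exact Finset.prod_congr rfl fun i _ => max_eq_right (by linarith [(cc_mem h (ex i).val).2])

theorem Fv_le_one {τ : Gd M → ℝ} (h : τ ∈ dom M) : Fv T S ex τ ≤ 1 := by
  refine mul_le_one₀ ?_ (Finset.prod_nonneg fun _ _ => le_max_left _ _) ?_
  · exact Finset.prod_le_one (fun _ _ => Vol_nonneg _ _ _ _) fun _ _ => Vol_le_one _ _ _ _
  · refine Finset.prod_le_one (fun _ _ => le_max_left _ _) fun i _ => max_le zero_le_one ?_
    linarith [(cc_mem h.2 (ex i).val).1]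

theorem continuous_cc (z : ℕ) : Continuous fun τ : Gd M → ℝ => cc M τ z :=
  continuous_apply _

theorem continuous_dd (z : ℕ) : Continuous fun τ : Gd M → ℝ => dd M τ z :=
  continuous_const.sub (continuous_apply _)

theorem continuous_Vol_clock (T S : Finset ℕ) :
    Continuous fun τ : Gd M → ℝ => Vol (cc M τ) (dd M τ) T S := by
  rw [continuous_iff_continuousAt]
  intro τ0
  have h1 : Continuous fun τ : Gd M → ℝ => ∑ z ∈ T, |cc M τ z - cc M τ0 z| +
      ∑ z ∈ S, |dd M τ z - dd M τ0 z| :=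
    (continuous_finsetSum _ fun z _ => ((continuous_cc z).sub continuous_const).abs).add
      (continuous_finsetSum _ fun z _ => ((continuous_dd z).sub continuous_const).abs)
  have h2 := h1.tendsto τ0
  simp only [sub_self, abs_zero, Finset.sum_const_zero, add_zero] at h2
  exact tendsto_iff_norm_sub_tendsto_zero.2 (squeeze_zero (fun _ => norm_nonneg _)
    (fun τ => Vol_lip (cc M τ) (cc M τ0) (dd M τ) (dd M τ0) T S) h2)

theorem continuous_Fv : Continuous (Fv T S ex : (Gd M → ℝ) → ℝ) := by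
  unfold Fv
  exact (continuous_finsetProd _ fun b _ => continuous_Vol_clock (T b) (S b)).mul
    (continuous_finsetProd _ fun i _ => continuous_const.max (continuous_const.sub
      (continuous_cc _)))

theorem meas_Fv : Measurable (Fv T S ex : (Gd M → ℝ) → ℝ) := (continuous_Fv T S ex).measurable

/-- midpoint log-concavity, for any two positions -/
theorem Fv_mid (t0 τ : Gd M → ℝ) : Fv T S ex τ * Fv T S ex t0 ≤ Fv T S ex (md t0 τ) ^ 2 := by
  unfold Fv
  rw [mul_mul_mul_comm, mul_pow, ← Finset.prod_mul_distrib, ← Finset.prod_mul_distrib,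
    ← Finset.prod_pow, ← Finset.prod_pow]
  refine mul_le_mul ?_ ?_ (Finset.prod_nonneg fun _ _ => mul_nonneg (le_max_left _ _)
    (le_max_left _ _)) (Finset.prod_nonneg fun _ _ => sq_nonneg _)
  · refine Finset.prod_le_prod (fun _ _ => mul_nonneg (Vol_nonneg _ _ _ _) (Vol_nonneg _ _ _ _))
      fun b _ => ?_
    refine (Vol_mid _ _ _ _ (T b) (S b)).trans (le_of_eq ?_)
    congr 2
    · funext z
      rw [cc_md]
    · funext z
      rw [dd_md]
  · refine Finset.prod_le_prod (fun _ _ => mul_nonneg (le_max_left _ _) (le_max_left _ _))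
      fun i _ => ?_
    rw [cc_md]
    exact pad_mid _ _

section target

variable (hT : ∀ b, ∀ z ∈ T b, z < M + 1) (hS : ∀ b, ∀ z ∈ S b, z < M + 1)

include hT hS

theorem Vol_tgt (b : Fin N) :
    Vol (cc M (tgt M c0)) (dd M (tgt M c0)) (T b) (S b) = Vol c0 c0 (T b) (S b) :=
  Vol_congr (fun z hz => cc_tgt c0 (Nat.le_of_lt_succ (hT b z hz)))
    fun z hz => dd_tgt c0 (Nat.le_of_lt_succ (hS b z hz))

theorem Fv_tgt {hm : ℝ} (H : Tgt M c0 hm) : Fv T S ex (tgt M c0) =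
    (∏ b, Vol c0 c0 (T b) (S b)) * ∏ i, (1 - c0 (ex i).val) := by
  rw [Fv_eq T S ex H.dom.2]
  congr 1
  · exact Finset.prod_congr rfl fun b _ => Vol_tgt T S c0 hT hS b
  · exact Finset.prod_congr rfl fun i _ => by
      rw [cc_tgt c0 (Nat.le_of_lt_succ (ex i).2)]

theorem Fv_pos {hm : ℝ} (H : Tgt M c0 hm) (hV : ∀ b, 0 < Vol c0 c0 (T b) (S b)) :
    0 < Fv T S ex (tgt M c0) := by
  rw [Fv_tgt T S ex c0 hT hS H]
  refine mul_pos (Finset.prod_pos fun b _ => hV b) (Finset.prod_pos fun i _ => ?_)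
  have := H.le_half (Nat.le_of_lt_succ (ex i).2)
  linarith

/-- the tangent inequality -/
theorem Fv_tan {hm : ℝ} (H : Tgt M c0 hm) (hV : ∀ b, 0 < Vol c0 c0 (T b) (S b))
    (τ : Gd M → ℝ) : Fv T S ex τ ≤ Fv T S ex (tgt M c0) * Real.exp
      (-(∑ z ∈ Finset.range (M + 1), (cc M τ z - c0 z) * RLf T S ex c0 z +
        ∑ z ∈ Finset.range (M + 1), (dd M τ z - c0 z) * RRf T S c0 z)) := by
  have e1 : ∑ z ∈ Finset.range (M + 1), (cc M τ z - c0 z) * RLf T S ex c0 z
      = ∑ b, ∑ z ∈ T b, frcL c0 c0 (T b) (S b) z * (cc M τ z - c0 z)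
        + ∑ i, (cc M τ (ex i).val - c0 (ex i).val) * (1 / (1 - c0 (ex i).val)) := by
    have h1 : ∀ z, (cc M τ z - c0 z) * RLf T S ex c0 z
        = ∑ b, (if z ∈ T b then frcL c0 c0 (T b) (S b) z * (cc M τ z - c0 z) else 0)
          + ∑ i, (if (ex i).val = z then (cc M τ z - c0 z) * (1 / (1 - c0 z)) else 0) := by
      intro z
      unfold RLf
      rw [mul_add, Finset.mul_sum, Finset.mul_sum]
      congr 1
      · refine Finset.sum_congr rfl fun b _ => ?_
        split_ifs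
        · ring
        · ring
      · refine Finset.sum_congr rfl fun i _ => ?_
        split_ifs
        · ring
        · ring
    simp only [h1]
    rw [Finset.sum_add_distrib, Finset.sum_comm, Finset.sum_comm (s := Finset.range (M + 1))]
    congr 1
    · refine Finset.sum_congr rfl fun b _ => ?_
      rw [← Finset.sum_filter]
      refine Finset.sum_congr ?_ fun _ _ => rfl
      ext z
      simp only [Finset.mem_filter, Finset.mem_range]
      exact ⟨fun h => h.2, fun h => ⟨hT b z h, h⟩⟩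
    · refine Finset.sum_congr rfl fun i _ => ?_
      rw [Finset.sum_ite_eq, if_pos (Finset.mem_range.2 (ex i).2)]
  have e2 : ∑ z ∈ Finset.range (M + 1), (dd M τ z - c0 z) * RRf T S c0 z
      = ∑ b, ∑ z ∈ S b, frcR c0 c0 (T b) (S b) z * (dd M τ z - c0 z) := by
    have h1 : ∀ z, (dd M τ z - c0 z) * RRf T S c0 z
        = ∑ b, (if z ∈ S b then frcR c0 c0 (T b) (S b) z * (dd M τ z - c0 z) else 0) := by
      intro z
      unfold RRf
      rw [Finset.mul_sum]
      refine Finset.sum_congr rfl fun b _ => ?_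
      split_ifs
      · ring
      · ring
    simp only [h1]
    rw [Finset.sum_comm]
    refine Finset.sum_congr rfl fun b _ => ?_
    rw [← Finset.sum_filter]
    refine Finset.sum_congr ?_ fun _ _ => rfl
    ext z
    simp only [Finset.mem_filter, Finset.mem_range]
    exact ⟨fun h => h.2, fun h => ⟨hS b z h, h⟩⟩
  rw [Fv_tgt T S ex c0 hT hS H, e1, e2]
  have e3 : -(∑ b, ∑ z ∈ T b, frcL c0 c0 (T b) (S b) z * (cc M τ z - c0 z)
        + ∑ i, (cc M τ (ex i).val - c0 (ex i).val) * (1 / (1 - c0 (ex i).val))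
        + ∑ b, ∑ z ∈ S b, frcR c0 c0 (T b) (S b) z * (dd M τ z - c0 z))
      = ∑ b, (-∑ z ∈ T b, frcL c0 c0 (T b) (S b) z * (cc M τ z - c0 z) -
          ∑ z ∈ S b, frcR c0 c0 (T b) (S b) z * (dd M τ z - c0 z))
        + ∑ i, (-((cc M τ (ex i).val - c0 (ex i).val) * (1 / (1 - c0 (ex i).val)))) := by
    rw [Finset.sum_sub_distrib, Finset.sum_neg_distrib, Finset.sum_neg_distrib]
    ring
  rw [e3, Real.exp_add, Real.exp_sum, Real.exp_sum, mul_mul_mul_comm,
    ← Finset.prod_mul_distrib, ← Finset.prod_mul_distrib]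
  unfold Fv
  refine mul_le_mul ?_ ?_ (Finset.prod_nonneg fun _ _ => le_max_left _ _)
    (Finset.prod_nonneg fun b _ => mul_nonneg (hV b).le (Real.exp_pos _).le)
  · exact Finset.prod_le_prod (fun _ _ => Vol_nonneg _ _ _ _) fun b _ =>
      Vol_tangent_frc c0 c0 (cc M τ) (dd M τ) (T b) (S b) (hV b)
  · refine Finset.prod_le_prod (fun _ _ => le_max_left _ _) fun i _ => pad_tan ?_
    have := H.le_half (Nat.le_of_lt_succ (ex i).2)
    linarith

end target

/-! ## The numbers of fillers -/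

theorem floor_close {x : ℝ} (hx : 0 ≤ x) : |((Nat.floor x : ℕ) : ℝ) - x| ≤ 1 := by
  have h1 := Nat.floor_le hx
  have h2 := Nat.lt_floor_add_one x
  rw [abs_le]
  constructor <;> linarith

section fill

variable {hm : ℝ} (H : Tgt M c0 hm)

include H

theorem RLf_nonneg {z : ℕ} (hz : z ≤ M) : 0 ≤ RLf T S ex c0 z := by
  refine add_nonneg (Finset.sum_nonneg fun b _ => ?_) (Finset.sum_nonneg fun i _ => ?_)
  · split_ifs
    · exact frcL_nonneg _ _ _ _ _
    · exact le_rfl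
  · split_ifs
    · have := H.le_half hz
      exact one_div_nonneg.2 (by linarith)
    · exact le_rfl

omit H in
theorem RRf_nonneg (z : ℕ) : 0 ≤ RRf T S c0 z := by
  refine Finset.sum_nonneg fun b _ => ?_
  split_ifs
  · exact frcR_nonneg _ _ _ _ _
  · exact le_rfl

theorem inc_pos {r : ℕ} (hr : r ≤ M) : 0 < inc c0 r := lt_of_lt_of_le H.pos (H.inc r hr)

theorem argL_nonneg {r : ℕ} (hr : r ≤ M) :
    0 ≤ inc c0 r * ∑ z ∈ Finset.Ico r (M + 1), RLf T S ex c0 z :=
  mul_nonneg (inc_pos c0 H hr).le (Finset.sum_nonneg fun z hz =>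
    RLf_nonneg T S ex c0 H (Nat.le_of_lt_succ (Finset.mem_Ico.1 hz).2))

theorem argR_nonneg {r : ℕ} (hr : r ≤ M) :
    0 ≤ inc c0 r * ∑ z ∈ Finset.Ico r (M + 1), RRf T S c0 z :=
  mul_nonneg (inc_pos c0 H hr).le (Finset.sum_nonneg fun z _ => RRf_nonneg T S c0 z)

theorem nlf_close {r : ℕ} (hr : r ≤ M) :
    |(nlf T S ex c0 r : ℝ) - inc c0 r * ∑ z ∈ Finset.Ico r (M + 1), RLf T S ex c0 z| ≤ 1 :=
  floor_close (argL_nonneg T S ex c0 H hr)

theorem nuf_close {r : ℕ} (hr : r ≤ M) :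
    |(nuf T S c0 M r : ℝ) - inc c0 r * ∑ z ∈ Finset.Ico r (M + 1), RRf T S c0 z| ≤ 1 :=
  floor_close (argR_nonneg T S c0 H hr)

/-- the end tick carries a force at least `c0 M` for every species -/
theorem RLf_end_ge (hV : ∀ b, 0 < Vol c0 c0 (T b) (S b)) (hMT : ∀ b, M ∈ T b) :
    (N : ℝ) * c0 M ≤ RLf T S ex c0 M := by
  have h0 : 0 ≤ c0 M := H.pos.le.trans (H.ge le_rfl)
  have h1 : c0 M ≤ 1 := by linarith [H.half]
  have h2 : (N : ℝ) * c0 M ≤ ∑ b, (if M ∈ T b then frcL c0 c0 (T b) (S b) M else 0) := by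
    have h3 : (N : ℝ) * c0 M = ∑ _b : Fin N, c0 M := by
      rw [Finset.sum_const, Finset.card_univ, Fintype.card_fin, nsmul_eq_mul]
    rw [h3]
    refine Finset.sum_le_sum fun b _ => ?_
    rw [if_pos (hMT b)]
    exact frcL_ge (hV b) (hMT b) h0 h1
  have h4 : 0 ≤ ∑ i, (if (ex i).val = M then 1 / (1 - c0 M) else 0) := by
    refine Finset.sum_nonneg fun i _ => ?_
    split_ifs
    · exact one_div_nonneg.2 (by linarith [H.half])
    · exact le_rfl
  unfold RLf
  linarith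

theorem RRf_end_ge (hV : ∀ b, 0 < Vol c0 c0 (T b) (S b)) (hMS : ∀ b, M ∈ S b) :
    (N : ℝ) * c0 M ≤ RRf T S c0 M := by
  have h0 : 0 ≤ c0 M := H.pos.le.trans (H.ge le_rfl)
  have h1 : c0 M ≤ 1 := by linarith [H.half]
  have h3 : (N : ℝ) * c0 M = ∑ _b : Fin N, c0 M := by
    rw [Finset.sum_const, Finset.card_univ, Fintype.card_fin, nsmul_eq_mul]
  rw [h3]
  unfold RRf
  refine Finset.sum_le_sum fun b _ => ?_
  rw [if_pos (hMS b)]
  exact frcR_ge (hV b) (hMS b) h0 h1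

theorem m_le_nlf (hV : ∀ b, 0 < Vol c0 c0 (T b) (S b)) (hMT : ∀ b, M ∈ T b) {r : ℕ}
    (hr : r ≤ M) : hm * (N * c0 M) - 1 ≤ (nlf T S ex c0 r : ℝ) := by
  have h1 := (abs_le.1 (nlf_close T S ex c0 H hr)).1
  have h0 : 0 ≤ c0 M := H.pos.le.trans (H.ge le_rfl)
  have h2 : RLf T S ex c0 M ≤ ∑ z ∈ Finset.Ico r (M + 1), RLf T S ex c0 z :=
    Finset.single_le_sum (f := fun z => RLf T S ex c0 z)
      (fun z hz => RLf_nonneg T S ex c0 H (Nat.le_of_lt_succ (Finset.mem_Ico.1 hz).2))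
      (Finset.mem_Ico.2 ⟨hr, Nat.lt_succ_self M⟩)
  have h3 := (RLf_end_ge T S ex c0 H hV hMT).trans h2
  have h4 : hm * (N * c0 M) ≤ inc c0 r * ∑ z ∈ Finset.Ico r (M + 1), RLf T S ex c0 z :=
    mul_le_mul (H.inc r hr) h3 (mul_nonneg (Nat.cast_nonneg N) h0) (inc_pos c0 H hr).le
  linarith

theorem m_le_nuf (hV : ∀ b, 0 < Vol c0 c0 (T b) (S b)) (hMS : ∀ b, M ∈ S b) {r : ℕ}
    (hr : r ≤ M) : hm * (N * c0 M) - 1 ≤ (nuf T S c0 M r : ℝ) := by
  have h1 := (abs_le.1 (nuf_close T S c0 H hr)).1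
  have h0 : 0 ≤ c0 M := H.pos.le.trans (H.ge le_rfl)
  have h2 : RRf T S c0 M ≤ ∑ z ∈ Finset.Ico r (M + 1), RRf T S c0 z :=
    Finset.single_le_sum (f := fun z => RRf T S c0 z) (fun z _ => RRf_nonneg T S c0 z)
      (Finset.mem_Ico.2 ⟨hr, Nat.lt_succ_self M⟩)
  have h3 := (RRf_end_ge T S c0 H hV hMS).trans h2
  have h4 : hm * (N * c0 M) ≤ inc c0 r * ∑ z ∈ Finset.Ico r (M + 1), RRf T S c0 z :=
    mul_le_mul (H.inc r hr) h3 (mul_nonneg (Nat.cast_nonneg N) h0) (inc_pos c0 H hr).le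
  linarith

end fill

/-- **Concentration of the clock for the designed numbers of fillers.** -/
theorem conc_design {hm : ℝ} (H : Tgt M c0 hm) (hT : ∀ b, ∀ z ∈ T b, z < M + 1)
    (hS : ∀ b, ∀ z ∈ S b, z < M + 1) (hMT : ∀ b, M ∈ T b) (hMS : ∀ b, M ∈ S b)
    (hV : ∀ b, 0 < Vol c0 c0 (T b) (S b)) (hm0 : 0 ≤ hm * (N * c0 M) - 1)
    {w : (Gd M → ℝ) → ℝ} {Cst : ℝ} (hC : 0 ≤ Cst)
    (hw : ∀ τ ∈ dom M, w τ = Cst *
      ((∏ i, spr M i τ ^ nn M (nlf T S ex c0) (nuf T S c0 M) i) * Fv T S ex τ))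
    (hw0 : ∀ τ, τ ∉ cn (Rg M) → w τ = 0) (hwm : Measurable w) (hwn : ∀ τ, 0 ≤ w τ)
    {δ : ℝ} (hδ : 0 ≤ δ) :
    ∫ τ in (nbh M c0 δ)ᶜ, w τ ∂(PV (Gd M)) ≤
      Real.exp ((M + 1) / hm - (hm * (N * c0 M) - 1) * δ ^ 2 / (8 * (M + 1))) *
        2 ^ (2 * (M + 1)) * ∫ τ, w τ ∂(PV (Gd M)) :=
  conc H (Fv_nonneg T S ex) (Fv_pos T S ex c0 hT hS H hV) (meas_Fv T S ex)
    (fun _ h => Fv_le_one T S ex h) (fun τ _ => Fv_mid T S ex (tgt M c0) τ)
    (fun τ _ => Fv_tan T S ex c0 hT hS H hV τ)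
    (fun _ hr => nlf_close T S ex c0 H hr) (fun _ hr => nuf_close T S c0 H hr)
    hm0 (fun _ hr => m_le_nlf T S ex c0 H hV hMT hr) (fun _ hr => m_le_nuf T S c0 H hV hMS hr)
    hC hw hw0 hwm hwn hδ

end

end Pool.Agent.T1K
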