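import Mathlib
import Pool.Agent.T1K.WtEq
import Pool.Agent.T1K.Design
import Pool.Agent.T1K.Star

/-!
# Concentration of the clock of the poset, for the designed numbers of fillers
-/

set_option autoImplicit false

namespace Pool.Agent.T1K

open MeasureTheory Set Pool.Agent.Helper73.KS

namespace Shape

variable (P : Shape)

/-- **Concentration of the clock of the poset.** -/
theorem conc_wt {c0 : ℕ → ℝ} {hm : ℝ} (H : Tgt P.M c0 hm)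
    (hl : ∀ r, P.nl r = nlf P.T P.S P.ex c0 r.val)
    (hr : ∀ r, P.nu r = nuf P.T P.S c0 P.M r.val)
    (hMT : ∀ b, P.M ∈ P.T b) (hMS : ∀ b, P.M ∈ P.S b)
    (hV : ∀ b, 0 < Vol c0 c0 (P.T b) (P.S b)) (hm0 : 0 ≤ hm * (P.N * c0 P.M) - 1)
    {δ : ℝ} (hδ : 0 ≤ δ) :
    ∫ τ in (nbh P.M c0 δ)ᶜ, wt (Rg P.M) P.Dt τ ∂(PV (Gd P.M)) ≤
      Real.exp ((P.M + 1) / hm - (hm * (P.N * c0 P.M) - 1) * δ ^ 2 / (8 * (P.M + 1))) *
        2 ^ (2 * (P.M + 1)) * ∫ τ, wt (Rg P.M) P.Dt τ ∂(PV (Gd P.M)) := by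
  refine conc_design P.T P.S P.ex c0 H P.hT P.hS hMT hMS hV hm0 P.Cst_pos.le ?_ ?_
    (meas_wt (Rg P.M) P.Dt) (wt_nonneg (Rg P.M) P.Dt) hδ
  · intro τ hτ
    rw [P.wt_eq hl hr (fun b τ _ => vj_star (P.T b) (P.S b) P.M τ) hτ, Fv_eq P.T P.S P.ex hτ.2]
  · intro τ hτ
    unfold wt
    rw [if_neg hτ]

end Shape

end Pool.Agent.T1K
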