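import Mathlib
import Pool.Agent.T1K.FinA
import Pool.Agent.T1K.WtConc
import Pool.Agent.T1K.Star
import Pool.Agent.T1K.NumLip
import Pool.Agent.T1K.Num
import Pool.Agent.T1K.Layer

/-!
# The probabilities of the shapes of the construction are near their values at the target
-/

set_option autoImplicit false

namespace Pool.Agent.T1K

open MeasureTheory Set Pool.Agent.Helper73.KS

/-! ## The laws at the target -/

theorem W_congr {c d c' d' : ℕ → ℝ} {T S : Finset ℕ} (h : ∀ z ∈ T, c z = c' z)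
    (h' : ∀ z ∈ S, d z = d' z) (x y : ℝ) : W c d T S x y = W c' d' T S x y := by
  unfold W Phi
  congr 1
  · exact Finset.prod_congr rfl fun z hz => by rw [h z hz]
  · exact Finset.prod_congr rfl fun z hz => by rw [h' z hz]

theorem den_congr {c d c' d' : ℕ → ℝ} {T S : Finset ℕ} (h : ∀ z ∈ T, c z = c' z)
    (h' : ∀ z ∈ S, d z = d' z) (e : Star T S) : den c d T S e = den c' d' T S e := by
  funext t
  rcases e with (_ | _) | (z | z)
  · show dX c d T S t = dX c' d' T S t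
    unfold dX
    simp only [W_congr h h']
  · show dY c d T S t = dY c' d' T S t
    unfold dY
    simp only [W_congr h h']
  · show dL c d T S z.1 t = dL c' d' T S z.1 t
    unfold dL
    have h1 : ∀ w ∈ T.erase z.1, c w = c' w := fun w hw => h w (Finset.mem_of_mem_erase hw)
    simp only [W_congr h1 h', h z.1 z.2]
  · show dR c d T S z.1 t = dR c' d' T S z.1 t
    unfold dR
    have h1 : ∀ w ∈ S.erase z.1, d w = d' w := fun w hw => h' w (Finset.mem_of_mem_erase hw)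
    simp only [W_congr h h1, h' z.1 z.2]

namespace Shape

variable (P : Shape)

theorem law_tgt (c0 : ℕ → ℝ) (j : Fin P.N ⊕ Fin P.s) (e : P.Mem (Sum.inr j)) :
    IsLaw (PV (P.Mem (Sum.inr j))) (fb (P.Dt (Sum.inr j)) (tgt P.M c0)) (fun y => y e)
      (P.dens c0 j e) := by
  rcases j with b | i
  · have h1 := isLaw_star (T := P.T b) (S := P.S b) (M := P.M) (τ := tgt P.M c0)
      (e : Star (P.T b) (P.S b))
    have h2 : den (cc P.M (tgt P.M c0)) (dd P.M (tgt P.M c0)) (P.T b) (P.S b)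
        (e : Star (P.T b) (P.S b)) = P.dens c0 (Sum.inl b) e := by
      rw [den_congr (c' := c0) (d' := c0)
        (fun z hz => cc_tgt c0 (Nat.le_of_lt_succ (P.hT b z hz)))
        (fun z hz => dd_tgt c0 (Nat.le_of_lt_succ (P.hS b z hz)))]
      rcases (e : Star (P.T b) (P.S b)) with (_ | _) | (z | z) <;> rfl
    rw [h2] at h1
    exact h1
  · have h1 := isLaw_pad (M := P.M) (τ := tgt P.M c0) (P.ex i).val (e : Unit)
    have h2 : dP (cc P.M (tgt P.M c0)) (P.ex i).val = P.dens c0 (Sum.inr i) e := by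
      funext t
      show (Ioi (cc P.M (tgt P.M c0) (P.ex i).val)).indicator (fun _ => (1 : ℝ)) t =
        if c0 (P.ex i).val < t then 1 else 0
      rw [cc_tgt c0 (Nat.le_of_lt_succ (P.ex i).2)]
      rfl
    rw [h2] at h1
    exact h1

theorem vj_tgt {c0 : ℕ → ℝ} {hm : ℝ} (H : Tgt P.M c0 hm) (j : Fin P.N ⊕ Fin P.s) :
    vj (P.Dt (Sum.inr j)) (tgt P.M c0) = P.volG c0 j := by
  rcases j with b | i
  · show vj (starD P.M (P.T b) (P.S b)) (tgt P.M c0) = Vol c0 c0 (P.T b) (P.S b)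
    rw [vj_star]
    exact Vol_congr (fun z hz => cc_tgt c0 (Nat.le_of_lt_succ (P.hT b z hz)))
      (fun z hz => dd_tgt c0 (Nat.le_of_lt_succ (P.hS b z hz)))
  · show vj (padD P.M (P.ex i).val) (tgt P.M c0) = 1 - c0 (P.ex i).val
    rw [vj_padD P.M (P.ex i).val (tgt P.M c0) (cc_mem H.dom.2 _).1 (cc_mem H.dom.2 _).2,
      cc_tgt c0 (Nat.le_of_lt_succ (P.ex i).2)]

theorem qPair_tgt {c0 : ℕ → ℝ} {hm : ℝ} (H : Tgt P.M c0 hm) (j j' : Fin P.N ⊕ Fin P.s)
    (e : P.Mem (Sum.inr j)) (e' : P.Mem (Sum.inr j')) :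
    qPair P.Dt (Sum.inr j) (Sum.inr j') e e' (tgt P.M c0) =
      (∫ t in (0 : ℝ)..1, P.dens c0 j' e' t * ∫ s in (0 : ℝ)..t, P.dens c0 j e s) /
        (P.volG c0 j * P.volG c0 j') := by
  unfold qPair
  rw [pair_fb (P.Dt (Sum.inr j)) (P.Dt (Sum.inr j')) (tgt P.M c0) e e' (P.law_tgt c0 j e)
    (P.law_tgt c0 j' e'), P.vj_tgt H, P.vj_tgt H]

theorem qOne_lo_tgt {c0 : ℕ → ℝ} {hm : ℝ} (H : Tgt P.M c0 hm) (j : Fin P.N ⊕ Fin P.s)
    (e : P.Mem (Sum.inr j)) (z : Fin (P.M + 1)) :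
    qOne P.Dt (Sum.inr j) e (Sum.inl z) (tgt P.M c0) =
      (∫ t in (0 : ℝ)..(c0 z), P.dens c0 j e t) / P.volG c0 j := by
  have h1 := H.dom.2 (Sum.inl z) (mem_univ _)
  unfold qOne
  rw [one_fb (P.Dt (Sum.inr j)) (tgt P.M c0) e (P.law_tgt c0 j e) h1.1 h1.2, P.vj_tgt H]
  rfl

theorem qOne_up_tgt {c0 : ℕ → ℝ} {hm : ℝ} (H : Tgt P.M c0 hm) (j : Fin P.N ⊕ Fin P.s)
    (e : P.Mem (Sum.inr j)) (z : Fin (P.M + 1)) :
    qOne P.Dt (Sum.inr j) e (Sum.inr z) (tgt P.M c0) =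
      (∫ t in (0 : ℝ)..(1 - c0 z), P.dens c0 j e t) / P.volG c0 j := by
  have h1 := H.dom.2 (Sum.inr z) (mem_univ _)
  unfold qOne
  rw [one_fb (P.Dt (Sum.inr j)) (tgt P.M c0) e (P.law_tgt c0 j e) h1.1 h1.2, P.vj_tgt H]
  rfl

/-- Nearness from the concentration of the clock. -/
theorem near_of {c0 : ℕ → ℝ} {hm δ A dl : ℝ} (H : Tgt P.M c0 hm) (hδ : 0 ≤ δ)
    (hN : ∫ τ in (nbh P.M c0 δ)ᶜ, wt (Rg P.M) P.Dt τ ∂(PV (Gd P.M)) ≤
      A * ∫ τ, wt (Rg P.M) P.Dt τ ∂(PV (Gd P.M)))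
    (hpos : ∀ j, 0 < P.volG c0 j)
    (h2 : ∀ j j', A + (4 * Fintype.card (P.Mem (Sum.inr j)) * δ / P.volG c0 j +
      4 * Fintype.card (P.Mem (Sum.inr j')) * δ / P.volG c0 j') ≤ dl)
    (h1 : ∀ j, A + (4 * Fintype.card (P.Mem (Sum.inr j)) * δ + δ) / P.volG c0 j ≤ dl) :
    P.Near c0 dl where
  pair := by
    intro j j' hjj e e'
    have hne : (Sum.inr j : P.Grp) ≠ Sum.inr j' := fun h => hjj (Sum.inr.inj h)
    have h3 := P.pair_near hδ hN hne e e' (by rw [P.vj_tgt H]; exact hpos j)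
      (by rw [P.vj_tgt H]; exact hpos j')
    rw [P.qPair_tgt H, P.vj_tgt H, P.vj_tgt H] at h3
    exact h3.trans (h2 j j')
  lo := by
    intro j e z
    have h3 := P.one_near hδ hN e (Sum.inl z) (by rw [P.vj_tgt H]; exact hpos j)
    rw [P.qOne_lo_tgt H, P.vj_tgt H] at h3
    exact h3.trans (h1 j)
  up := by
    intro j e z
    have h3 := P.one_near hδ hN e (Sum.inr z) (by rw [P.vj_tgt H]; exact hpos j)
    rw [P.qOne_up_tgt H, P.vj_tgt H] at h3
    exact h3.trans (h1 j)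

end Shape

/-! ## The shapes of the construction -/

/-- numbers of fillers in the lower cells -/
noncomputable def nlS (R N s : ℕ) (l : ℕ → ℕ → ZMod 3) (hs : s < 2 * Kn R) :
    Fin (Mn R + 1) → ℕ := fun r =>
  nlf (Sh R N s l (fun _ => 0) (fun _ => 0) hs).T (Sh R N s l (fun _ => 0) (fun _ => 0) hs).S
    (Sh R N s l (fun _ => 0) (fun _ => 0) hs).ex (tk R) r.val

/-- numbers of fillers in the upper cells -/
noncomputable def nuS (R N s : ℕ) (l : ℕ → ℕ → ZMod 3) (hs : s < 2 * Kn R) :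
    Fin (Mn R + 1) → ℕ := fun r =>
  nuf (Sh R N s l (fun _ => 0) (fun _ => 0) hs).T (Sh R N s l (fun _ => 0) (fun _ => 0) hs).S
    (tk R) (Mn R) r.val

theorem near_Sh {R N s : ℕ} {l : ℕ → ℕ → ZMod 3} {hs : s < 2 * Kn R} (hR : 1 ≤ R)
    (hm0 : 0 ≤ hn R * (N * tk R (Mn R)) - 1)
    (hA : Real.exp ((Mn R + 1) / hn R - (hn R * (N * tk R (Mn R)) - 1) * (hn R ^ 8) ^ 2 /
      (8 * (Mn R + 1))) * 2 ^ (2 * (Mn R + 1)) ≤ hn R ^ 8) :
    (Sh R N s l (nlS R N s l hs) (nuS R N s l hs) hs).Near (tk R) (hn R ^ 7 / 8) := by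
  obtain ⟨P, hP⟩ : ∃ P, P = Sh R N s l (nlS R N s l hs) (nuS R N s l hs) hs := ⟨_, rfl⟩
  have hh := hn_pos hR
  have hδ : 0 ≤ hn R ^ 8 := by positivity
  have hK : (59050 : ℝ) ≤ Kn R := by exact_mod_cast Kn_ge hR
  have hV : ∀ j, 1 / (5000 * (Kn R : ℝ) ^ 2) ≤
      (Sh R N s l (nlS R N s l hs) (nuS R N s l hs) hs).volG (tk R) j := by
    intro j
    rcases j with b | i
    · exact Vol_target R (l b) (-l b)
    · exact pad_ge hR (Nat.le_of_lt_succ
        ((Sh R N s l (nlS R N s l hs) (nuS R N s l hs) hs).ex i).2)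
  have hcard : ∀ j, (Fintype.card ((Sh R N s l (nlS R N s l hs) (nuS R N s l hs) hs).Mem
      (Sum.inr j)) : ℝ) ≤ 2 * Kn R + 2 := by
    intro j
    rcases j with b | i
    · have h1 : Fintype.card ((Sh R N s l (nlS R N s l hs) (nuS R N s l hs) hs).Mem
          (Sum.inr (Sum.inl b))) = 2 + (Kn R + Kn R) := by
        show Fintype.card (Bool ⊕ ({z // z ∈ TL R (l b)} ⊕ {z // z ∈ TL R (-l b)})) = _
        rw [Fintype.card_sum, Fintype.card_sum, Fintype.card_coe, Fintype.card_coe, TL_card,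
          TL_card, Fintype.card_bool]
      rw [h1]
      push_cast
      linarith
    · have h1 : Fintype.card ((Sh R N s l (nlS R N s l hs) (nuS R N s l hs) hs).Mem
          (Sum.inr (Sum.inr i))) = 1 := by
        show Fintype.card Unit = 1
        exact Fintype.card_unit
      rw [h1]
      push_cast
      linarith
  have hc : ∫ τ in (nbh (Mn R) (tk R) (hn R ^ 8))ᶜ,
      wt (Rg (Mn R)) (Sh R N s l (nlS R N s l hs) (nuS R N s l hs) hs).Dt τ ∂(PV (Gd (Mn R))) ≤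
      hn R ^ 8 * ∫ τ, wt (Rg (Mn R)) (Sh R N s l (nlS R N s l hs) (nuS R N s l hs) hs).Dt τ
        ∂(PV (Gd (Mn R))) := by
    refine ((Sh R N s l (nlS R N s l hs) (nuS R N s l hs) hs).conc_wt (tgt_tk R)
      (fun _ => rfl) (fun _ => rfl) (fun b => Mn_mem R (l b)) (fun b => Mn_mem R (-l b))
      (fun b => Vol_target_pos R (l b) (-l b)) hm0 hδ).trans ?_
    refine mul_le_mul_of_nonneg_right hA ?_
    exact integral_nonneg fun τ => wt_nonneg _ _ τ
  refine Shape.near_of _ (tgt_tk R) hδ hc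
    (fun j => lt_of_lt_of_le (by positivity) (hV j)) ?_ ?_
  · intro j j'
    refine (NumLip.add hR (A := 4 * Fintype.card
      ((Sh R N s l (nlS R N s l hs) (nuS R N s l hs) hs).Mem (Sum.inr j)))
      (A' := 4 * Fintype.card ((Sh R N s l (nlS R N s l hs) (nuS R N s l hs) hs).Mem
      (Sum.inr j'))) ?_ ?_ (hV j) (hV j'))
    · linarith [hcard j]
    · linarith [hcard j']
  · intro j
    refine le_trans (le_of_eq ?_) (NumLip.one hR (A := 4 * Fintype.card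
      ((Sh R N s l (nlS R N s l hs) (nuS R N s l hs) hs).Mem (Sum.inr j)) + 1) ?_ (hV j))
    · ring
    · linarith [hcard j]

/-- **The list of pairs from the inequalities at the target.** -/
theorem sh_pairs (hst : ∀ R, 1 ≤ R → Static R) : ∃ L0, ShPairs L0 := by
  obtain ⟨L0, hL0⟩ := Nm.num
  refine ⟨L0, ?_⟩
  intro L q N s l hs hL hL1 hq1 hq2 hN _ hp
  have hR : 1 ≤ L * q ^ 2 := by
    have : 0 < L * q ^ 2 := Nat.mul_pos hL1 (pow_pos (by omega) 2)
    exact this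
  obtain ⟨h1, h2⟩ := hL0 L q N hL hq1 hq2 hN
  exact ⟨nlS (L * q ^ 2) N s l hs, nuS (L * q ^ 2) N s l hs,
    pairs_of_near hR (hst _ hR) hp (near_Sh hR h1 h2)⟩

end Pool.Agent.T1K
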