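import Pool.Agent.Helper57.T1.Gap2

/-!
# R8, first half: volumes, distribution functions at the end ticks, pairs with a lower leaf
-/

set_option autoImplicit false

open MeasureTheory

namespace Pool.Agent.T1K

theorem vol_lower {R : ℕ} (hR : 1 ≤ R) (l : ℕ → ZMod 3) :
    1 / (1000 * (Kn R : ℝ) ^ 2) ≤ Vol (tk R) (tk R) (TL R l) (TL R (fun s => - l s)) :=
  (Helper57.T1.sp hR l _).vol_lower

theorem vol_upper {R : ℕ} (l : ℕ → ZMod 3) :
    Vol (tk R) (tk R) (TL R l) (TL R (fun s => - l s)) ≤ 1 := by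
  have h := Helper57.T1.I2_mono (Helper57.T1.niceW (tk R) (tk R) (TL R l) (TL R (fun s => - l s)))
    (Helper57.T1.Nice.const 1) (fun x hx y hy => Helper57.T1.W_le_one hx hy)
  rw [Helper57.T1.I2_const] at h
  exact h

/-- the median of `x` is in the gap -/
theorem cdf_X {R : ℕ} (hR : 1 ≤ R) (l : ℕ → ZMod 3) :
    ∫ t in (0 : ℝ)..(tk R (Mn R)), dX (tk R) (tk R) (TL R l) (TL R (fun s => - l s)) t
      ≤ 2 / 5 * Vol (tk R) (tk R) (TL R l) (TL R (fun s => - l s)) := by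
  have h := (Helper57.T1.sp hR l (fun s => - l s)).cdf_X
  have h2 := (Helper57.T1.sp hR l (fun s => - l s)).Vol_pos
  linarith

theorem cdf_X' {R : ℕ} (hR : 1 ≤ R) (l : ℕ → ZMod 3) :
    ∫ t in (1 - tk R (Mn R))..1, dX (tk R) (tk R) (TL R l) (TL R (fun s => - l s)) t
      ≤ 1 / 10 * Vol (tk R) (tk R) (TL R l) (TL R (fun s => - l s)) := by
  have h := (Helper57.T1.sp hR l (fun s => - l s)).cdf_X'
  have h2 := (Helper57.T1.sp hR l (fun s => - l s)).Vol_pos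
  linarith

theorem cdf_L {R : ℕ} (hR : 1 ≤ R) (l : ℕ → ZMod 3) {z : ℕ} (hz : z ∈ TL R l) :
    ∫ t in (0 : ℝ)..(tk R (Mn R)), dL (tk R) (tk R) (TL R l) (TL R (fun s => - l s)) z t
      ≤ 1 / 10 * Vol (tk R) (tk R) (TL R l) (TL R (fun s => - l s)) := by
  have h := (Helper57.T1.sp hR l (fun s => - l s)).cdf_L hz
  have h2 := (Helper57.T1.sp hR l (fun s => - l s)).Vol_pos
  linarith

/-- lower leaf and the UPPER ticks -/
theorem cdf_L' {R : ℕ} (hR : 1 ≤ R) (l : ℕ → ZMod 3) {z : ℕ} (hz : z ∈ TL R l) :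
    ∫ t in (1 - tk R (Mn R))..1, dL (tk R) (tk R) (TL R l) (TL R (fun s => - l s)) z t
      ≤ 1 / 10 * Vol (tk R) (tk R) (TL R l) (TL R (fun s => - l s)) := by
  have h := (Helper57.T1.sp hR l (fun s => - l s)).cdf_L' hz
  have h2 := (Helper57.T1.sp hR l (fun s => - l s)).Vol_pos
  linarith

/-- different lower leaves, different (or equal letters) species -/
theorem gap_LL {R : ℕ} (hR : 1 ≤ R) (l l' : ℕ → ZMod 3) {z z' : ℕ} (hz : z ∈ TL R l)
    (hz' : z' ∈ TL R l') (h : z < z') :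
    hn R ^ 2 ≤ Nf (dL (tk R) (tk R) (TL R l) (TL R (fun s => - l s)) z)
      (dL (tk R) (tk R) (TL R l') (TL R (fun s => - l' s)) z') :=
  Helper57.T1.gap_LL_sp (Helper57.T1.sp hR l _) (Helper57.T1.sp hR l' _) hz hz' h

/-- upper leaf below lower leaf -/
theorem gap_RL {R : ℕ} (hR : 1 ≤ R) (l l' : ℕ → ZMod 3) {z z' : ℕ}
    (hz : z ∈ TL R (fun s => - l s)) (hz' : z' ∈ TL R l') :
    hn R ^ 2 ≤ Nf (dR (tk R) (tk R) (TL R l) (TL R (fun s => - l s)) z)
      (dL (tk R) (tk R) (TL R l') (TL R (fun s => - l' s)) z') :=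
  Helper57.T1.gap_RL_sp (Helper57.T1.sp hR l _) (Helper57.T1.sp hR l' _) hz hz'

/-- a lower leaf is below a higher tick with positive probability -/
theorem tick_L {R : ℕ} (hR : 1 ≤ R) (l : ℕ → ZMod 3) {z z' : ℕ} (hz : z ∈ TL R l)
    (hz' : z' ∈ TL R l) (h : z < z') :
    hn R ^ 2 ≤ ∫ t in (0 : ℝ)..(tk R z'), dL (tk R) (tk R) (TL R l) (TL R (fun s => - l s)) z t :=
  Helper57.T1.tick_L_sp (Helper57.T1.sp hR l _) hz (Helper57.T1.mem_TL_le R l z' hz') h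

/-- an upper leaf is below any lower tick with positive probability -/
theorem tick_R {R : ℕ} (hR : 1 ≤ R) (l : ℕ → ZMod 3) {z z' : ℕ}
    (hz : z ∈ TL R (fun s => - l s)) (hz' : z' ∈ TL R l) :
    hn R ^ 2 ≤ ∫ t in (0 : ℝ)..(tk R z'), dR (tk R) (tk R) (TL R l) (TL R (fun s => - l s)) z t :=
  Helper57.T1.tick_R_sp (Helper57.T1.sp hR l _) hz (Helper57.T1.mem_TL_le R l z' hz')

end Pool.Agent.T1K
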