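import Pool.Agent.T1K.StatA
import Pool.Agent.T1K.OtherL

/-!
# T1: all static inequalities from the two main ones
-/

set_option autoImplicit false

namespace Pool.Agent.T1K

theorem static_of_main {R : ℕ} (hR : 1 ≤ R)
    (hX : ∀ {q : ℕ} {l l' : ℕ → ZMod 3}, Pair R q l l' → hn R ^ 5 ≤
      Nf (dX (tk R) (tk R) (TL R l) (TL R (fun s => - l s)))
        (dX (tk R) (tk R) (TL R l') (TL R (fun s => - l' s))))
    (hL : ∀ {q : ℕ} {l l' : ℕ → ZMod 3}, Pair R q l l' →
      ∀ {z : ℕ}, z ∈ TL R l → z ∈ TL R l' →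
      hn R ^ 7 ≤ Nf (dL (tk R) (tk R) (TL R l) (TL R (fun s => - l s)) z)
        (dL (tk R) (tk R) (TL R l') (TL R (fun s => - l' s)) z)) : Static R :=
  static_of hR
    { cdf_X := cdf_X hR
      cdf_L := cdf_L hR
      cdf_L' := cdf_L' hR
      main_X := hX
      main_L := hL
      gap_LL := gap_LL hR
      gap_RL := gap_RL hR
      tick_L := tick_L hR
      tick_R := tick_R hR }

end Pool.Agent.T1K
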