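import Pool.Agent.T1K.FinB
import Pool.Agent.T1K.StatB

/-!
# T1: the final statement from the two main inequalities
-/

set_option autoImplicit false

namespace Pool.Agent.T1K

open Pool.Agent.Helper1.Balance

theorem all_of_main
    (hX : ∀ {R q : ℕ} {l l' : ℕ → ZMod 3}, 1 ≤ R → Pair R q l l' → hn R ^ 5 ≤
      Nf (dX (tk R) (tk R) (TL R l) (TL R (fun s => - l s)))
        (dX (tk R) (tk R) (TL R l') (TL R (fun s => - l' s))))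
    (hL : ∀ {R q : ℕ} {l l' : ℕ → ZMod 3}, 1 ≤ R → Pair R q l l' →
      ∀ {z : ℕ}, z ∈ TL R l → z ∈ TL R l' →
      hn R ^ 7 ≤ Nf (dL (tk R) (tk R) (TL R l) (TL R (fun s => - l s)) z)
        (dL (tk R) (tk R) (TL R l') (TL R (fun s => - l' s)) z)) :
    ∃ C : ℝ, 1 ≤ C ∧
    (∀ ε : ℝ, 0 < ε → ε ≤ 1 / 2 → ∀ (n : ℕ) (r : Fin n → Fin n → Prop), IsPoset r →
      ∀ s : Finset (Fin n), IsAnti r s → (1 / ε) ^ (C / ε ^ 4) < s.card →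
        ∃ x y : Fin n, ¬ r x y ∧ ¬ r y x ∧ |prob r x y - 1 / 2| < ε) ∧
    (∀ ε : ℝ, 0 < ε → ε ≤ 1 / 2 → ∀ (n : ℕ) (r : Fin n → Fin n → Prop), IsPoset r →
      balance r ≤ 1 / 2 - ε → ∀ x : Fin n,
        (Nat.card {y : Fin n // ¬ r x y ∧ ¬ r y x} : ℝ) ≤ (1 / ε) ^ (C / ε ^ 4)) ∧
    (∀ w : ℕ, 16 ≤ w →
      1 / 2 - C * (Real.log (Real.log w) / Real.log w) ^ (1 / 4 : ℝ) ≤ deltaW w) ∧
    (∀ w : ℕ, 3 ≤ w → deltaW w ≤ 1 / 2 - 1 / (C * (Real.log w) ^ C)) ∧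
    (∀ w w' : ℕ, Real.exp (C * (Real.log ((w : ℝ) + 3)) ^ C) ≤ w' →
      deltaW w < deltaW w') ∧
    (∀ w : ℕ, ∃ v : ℕ, w ≤ v ∧ (v : ℝ) ≤ Real.exp (C * (Real.log ((w : ℝ) + 3)) ^ C) ∧
      ∀ u : ℕ, v < u → deltaW v < deltaW u) ∧
    Filter.Tendsto deltaW Filter.atTop (nhds (1 / 2)) := by
  obtain ⟨L0, h⟩ := sh_pairs fun R hR => static_of_main hR (fun hp => hX hR hp)
    (fun hp z hz hz' => hL hR hp hz hz')
  exact all_of_pairs h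

end Pool.Agent.T1K
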