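import Pool.Agent.T1K.Refl
import Pool.Agent.T1K.VolGrad

/-!
# The densities of a species are Lipschitz in the clock (in `L^1`)
-/

set_option autoImplicit false

open Finset MeasureTheory

namespace Pool.Agent.T1K

/-- the total displacement of the ticks -/
noncomputable def tdist (c c' d d' : ℕ → ℝ) (T S : Finset ℕ) : ℝ :=
  ∑ z ∈ T, |c z - c' z| + ∑ z ∈ S, |d z - d' z|

theorem tdist_nonneg (c c' d d' : ℕ → ℝ) (T S : Finset ℕ) : 0 ≤ tdist c c' d d' T S :=
  add_nonneg (Finset.sum_nonneg fun _ _ => abs_nonneg _) (Finset.sum_nonneg fun _ _ => abs_nonneg _)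

theorem tdist_swap (c c' d d' : ℕ → ℝ) (T S : Finset ℕ) :
    tdist d d' c c' S T = tdist c c' d d' T S := add_comm _ _

theorem tdist_le {c c' d d' : ℕ → ℝ} {T S : Finset ℕ} {K : ℕ} (hT : T.card ≤ K) (hS : S.card ≤ K)
    {del : ℝ} (hdel : 0 ≤ del) (h1 : ∀ z ∈ T, |c z - c' z| ≤ del)
    (h2 : ∀ z ∈ S, |d z - d' z| ≤ del) : tdist c c' d d' T S ≤ 2 * K * del := by
  have h3 : ∑ z ∈ T, |c z - c' z| ≤ T.card * del := by
    have := Finset.sum_le_card_nsmul T _ del h1
    rwa [nsmul_eq_mul] at this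
  have h4 : ∑ z ∈ S, |d z - d' z| ≤ S.card * del := by
    have := Finset.sum_le_card_nsmul S _ del h2
    rwa [nsmul_eq_mul] at this
  have h5 : (T.card : ℝ) * del ≤ K * del :=
    mul_le_mul_of_nonneg_right (Nat.cast_le.2 hT) hdel
  have h6 : (S.card : ℝ) * del ≤ K * del :=
    mul_le_mul_of_nonneg_right (Nat.cast_le.2 hS) hdel
  unfold tdist
  linarith

theorem intervalIntegrable_W (c d : ℕ → ℝ) (T S : Finset ℕ) (x a b : ℝ) :
    IntervalIntegrable (fun y => W c d T S x y) volume a b :=
  ((continuous_W c d T S).comp (continuous_const.prodMk continuous_id)).intervalIntegrable _ _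

/-- the density of the lower centre is Lipschitz in the ticks, pointwise -/
theorem abs_dX_sub_le (c c' d d' : ℕ → ℝ) (T S : Finset ℕ) {t : ℝ} (ht : 0 ≤ t) :
    |dX c d T S t - dX c' d' T S t| ≤ tdist c c' d d' T S := by
  have h := intervalIntegral.norm_integral_le_of_norm_le_const (a := (0 : ℝ)) (b := 1)
    (f := fun y => W c d T S t y - W c' d' T S t y) (C := tdist c c' d d' T S) (fun y hy => by
      rw [Set.uIoc_of_le zero_le_one] at hy
      rw [Real.norm_eq_abs]
      exact W_lip c c' d d' T S (by linarith [hy.2]))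
  rw [intervalIntegral.integral_sub (intervalIntegrable_W _ _ _ _ _ _ _)
    (intervalIntegrable_W _ _ _ _ _ _ _), Real.norm_eq_abs, sub_zero, abs_one, mul_one] at h
  exact h

theorem integral_abs_refl (f g : ℝ → ℝ) :
    ∫ t in (0 : ℝ)..1, |f (1 - t) - g (1 - t)| = ∫ t in (0 : ℝ)..1, |f t - g t| := by
  rw [intervalIntegral.integral_comp_sub_left (fun t => |f t - g t|) 1, sub_self, sub_zero]

theorem integral_le_of_le {f : ℝ → ℝ} {B : ℝ} (hf : IntervalIntegrable f volume 0 1)
    (h : ∀ t ∈ Set.Icc (0 : ℝ) 1, f t ≤ B) : ∫ t in (0 : ℝ)..1, f t ≤ B := by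
  have h1 := intervalIntegral.integral_mono_on zero_le_one hf
    (intervalIntegrable_const (c := B)) h
  rwa [intervalIntegral.integral_const, sub_zero, one_smul] at h1

theorem dX_lip (c c' d d' : ℕ → ℝ) (T S : Finset ℕ) :
    ∫ t in (0 : ℝ)..1, |dX c d T S t - dX c' d' T S t| ≤ tdist c c' d d' T S :=
  integral_le_of_le (((continuous_dX c d T S).sub (continuous_dX c' d' T S)).abs.intervalIntegrable
    _ _) fun _ ht => abs_dX_sub_le _ _ _ _ _ _ ht.1

theorem dY_lip (c c' d d' : ℕ → ℝ) (T S : Finset ℕ) :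
    ∫ t in (0 : ℝ)..1, |dY c d T S t - dY c' d' T S t| ≤ tdist c c' d d' T S := by
  have h := dX_lip d d' c c' S T
  rw [tdist_swap] at h
  refine le_trans (le_of_eq ?_) h
  rw [← integral_abs_refl]
  refine intervalIntegral.integral_congr fun t _ => ?_
  simp only [dY_eq, sub_sub_cancel]

/-- two half lines -/
theorem integral_step_le (a b : ℝ) :
    ∫ t in (0 : ℝ)..1, |(Set.Ioi a).indicator (fun _ => (1 : ℝ)) t
      - (Set.Ioi b).indicator (fun _ => (1 : ℝ)) t| ≤ |a - b| := by
  wlog hab : a ≤ b generalizing a b with H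
  · have h := H b a (le_of_not_ge hab)
    rw [abs_sub_comm b a] at h
    refine le_trans (le_of_eq ?_) h
    exact intervalIntegral.integral_congr fun t _ => abs_sub_comm _ _
  · have h1 : ∀ t : ℝ, |(Set.Ioi a).indicator (fun _ => (1 : ℝ)) t
        - (Set.Ioi b).indicator (fun _ => (1 : ℝ)) t|
        = (Set.Ioc a b).indicator (fun _ => (1 : ℝ)) t := by
      intro t
      by_cases h2 : a < t
      · by_cases h3 : b < t
        · simp [Set.indicator, h2, h3, not_le.2 h3]
        · simp [Set.indicator, h2, h3, not_lt.1 h3]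
      · have h3 : ¬ b < t := fun h => h2 (hab.trans_lt h)
        simp [Set.indicator, h2, h3]
    simp only [h1]
    rw [intervalIntegral.integral_of_le zero_le_one]
    have h4 : ∫ t in Set.Ioc (0 : ℝ) 1, (Set.Ioc a b).indicator (fun _ => (1 : ℝ)) t
        ≤ ∫ t, (Set.Ioc a b).indicator (fun _ => (1 : ℝ)) t := by
      refine setIntegral_le_integral ?_ (Filter.Eventually.of_forall fun t => ?_)
      · rw [integrable_indicator_iff measurableSet_Ioc]
        exact integrableOn_const (by rw [Real.volume_Ioc]; exact ENNReal.ofReal_ne_top)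
      · exact Set.indicator_nonneg (fun _ _ => zero_le_one) t
    refine h4.trans (le_of_eq ?_)
    rw [integral_indicator measurableSet_Ioc, setIntegral_const, Real.volume_real_Ioc_of_le hab,
      smul_eq_mul, mul_one, abs_of_nonpos (by linarith)]
    ring

/-- the integral behind `dL` -/
theorem core_mem (c d : ℕ → ℝ) (T S : Finset ℕ) {t : ℝ} (h0 : 0 ≤ t) (h1 : t ≤ 1) :
    0 ≤ (∫ x in (0 : ℝ)..t, ∫ y in t..1, W c d T S x y) ∧
      (∫ x in (0 : ℝ)..t, ∫ y in t..1, W c d T S x y) ≤ 1 := by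
  have h2 : ∀ x ∈ Set.Icc (0 : ℝ) t, 0 ≤ (∫ y in t..1, W c d T S x y) ∧
      (∫ y in t..1, W c d T S x y) ≤ 1 - t := by
    intro x hx
    constructor
    · exact intervalIntegral.integral_nonneg h1 fun y _ => W_nonneg _ _ _ _ _ _
    · have h3 := intervalIntegral.integral_mono_on h1 (intervalIntegrable_W c d T S x t 1)
        (intervalIntegrable_const (c := (1 : ℝ))) (fun y hy => W_le_one (by linarith [hx.1, hy.2]))
      rwa [intervalIntegral.integral_const, smul_eq_mul, mul_one] at h3
  constructor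
  · exact intervalIntegral.integral_nonneg h0 fun x hx => (h2 x hx).1
  · have h3 := intervalIntegral.norm_integral_le_of_norm_le_const (a := (0 : ℝ)) (b := t)
      (f := fun x => ∫ y in t..1, W c d T S x y) (C := 1 - t) (fun x hx => by
        rw [Set.uIoc_of_le h0] at hx
        rw [Real.norm_eq_abs, abs_of_nonneg (h2 x ⟨hx.1.le, hx.2⟩).1]
        exact (h2 x ⟨hx.1.le, hx.2⟩).2)
    rw [Real.norm_eq_abs, sub_zero, abs_of_nonneg h0] at h3
    have h4 := (le_abs_self _).trans h3
    nlinarith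

theorem core_lip (c c' d d' : ℕ → ℝ) (T S : Finset ℕ) {t : ℝ} (h0 : 0 ≤ t) (h1 : t ≤ 1) :
    |(∫ x in (0 : ℝ)..t, ∫ y in t..1, W c d T S x y)
      - (∫ x in (0 : ℝ)..t, ∫ y in t..1, W c' d' T S x y)| ≤ tdist c c' d d' T S := by
  have hc : ∀ (c d : ℕ → ℝ), Continuous fun x : ℝ => ∫ y in t..1, W c d T S x y := fun c d =>
    intervalIntegral.continuous_parametric_intervalIntegral_of_continuous'
      (f := fun x y => W c d T S x y) (continuous_W c d T S) t 1
  rw [← intervalIntegral.integral_sub ((hc c d).intervalIntegrable _ _)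
    ((hc c' d').intervalIntegrable _ _)]
  have hB := tdist_nonneg c c' d d' T S
  have h2 : ∀ x ∈ Set.Icc (0 : ℝ) t, |(∫ y in t..1, W c d T S x y) - ∫ y in t..1, W c' d' T S x y|
      ≤ tdist c c' d d' T S * (1 - t) := by
    intro x hx
    rw [← intervalIntegral.integral_sub (intervalIntegrable_W _ _ _ _ _ _ _)
      (intervalIntegrable_W _ _ _ _ _ _ _)]
    have h3 := intervalIntegral.norm_integral_le_of_norm_le_const (a := t) (b := 1)
      (f := fun y => W c d T S x y - W c' d' T S x y) (C := tdist c c' d d' T S) (fun y hy => by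
        rw [Set.uIoc_of_le h1] at hy
        rw [Real.norm_eq_abs]
        exact W_lip c c' d d' T S (by linarith [hy.2, hx.1]))
    rwa [Real.norm_eq_abs, abs_of_nonneg (by linarith : 0 ≤ 1 - t)] at h3
  have h3 := intervalIntegral.norm_integral_le_of_norm_le_const (a := (0 : ℝ)) (b := t)
      (f := fun x => (∫ y in t..1, W c d T S x y) - ∫ y in t..1, W c' d' T S x y)
      (C := tdist c c' d d' T S * (1 - t)) (fun x hx => by
        rw [Set.uIoc_of_le h0] at hx
        rw [Real.norm_eq_abs]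
        exact h2 x ⟨hx.1.le, hx.2⟩)
  rw [Real.norm_eq_abs, sub_zero, abs_of_nonneg h0] at h3
  refine h3.trans ?_
  have h4 : (1 - t) * t ≤ 1 := by nlinarith
  calc tdist c c' d d' T S * (1 - t) * t = tdist c c' d d' T S * ((1 - t) * t) := by ring
    _ ≤ tdist c c' d d' T S * 1 := mul_le_mul_of_nonneg_left h4 hB
    _ = _ := mul_one _

theorem dL_lip (c c' d d' : ℕ → ℝ) {T : Finset ℕ} (S : Finset ℕ) {z : ℕ} (hz : z ∈ T) :
    ∫ t in (0 : ℝ)..1, |dL c d T S z t - dL c' d' T S z t| ≤ tdist c c' d d' T S := by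
  classical
  have e1 : ∀ (c : ℕ → ℝ), IntervalIntegrable (fun t => (Set.Ioi (c z)).indicator
      (fun _ => (1 : ℝ)) t) volume 0 1 := by
    intro c
    rw [intervalIntegrable_iff_integrableOn_Ioc_of_le zero_le_one]
    exact (integrableOn_const (by simp)).indicator measurableSet_Ioi
  have e2 : IntervalIntegrable (fun t => |(Set.Ioi (c z)).indicator (fun _ => (1 : ℝ)) t
      - (Set.Ioi (c' z)).indicator (fun _ => (1 : ℝ)) t|) volume 0 1 := ((e1 c).sub (e1 c')).abs
  have h1 : ∀ t ∈ Set.Icc (0 : ℝ) 1, |dL c d T S z t - dL c' d' T S z t|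
      ≤ |(Set.Ioi (c z)).indicator (fun _ => (1 : ℝ)) t
        - (Set.Ioi (c' z)).indicator (fun _ => (1 : ℝ)) t| + tdist c c' d d' (T.erase z) S := by
    intro t ht
    rw [dL_eq c d T S z ht.1 ht.2, dL_eq c' d' T S z ht.1 ht.2]
    have h2 := core_mem c d (T.erase z) S ht.1 ht.2
    have h3 := core_mem c' d' (T.erase z) S ht.1 ht.2
    have h4 := core_lip c c' d d' (T.erase z) S ht.1 ht.2
    have h5 := tdist_nonneg c c' d d' (T.erase z) S
    simp only [Set.indicator, Set.mem_Ioi]
    split_ifs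
    · rw [sub_self, abs_zero, zero_add]
      exact h4
    · rw [sub_zero, sub_zero, abs_one, abs_of_nonneg h2.1]
      linarith
    · rw [zero_sub, zero_sub, abs_neg, abs_neg, abs_one, abs_of_nonneg h3.1]
      linarith
    · rw [sub_self, abs_zero, zero_add]
      exact h5
  have h6 := intervalIntegral.integral_mono_on zero_le_one
    ((intervalIntegrable_dL c d T S z).sub (intervalIntegrable_dL c' d' T S z)).abs
    (e2.add (intervalIntegrable_const (c := tdist c c' d d' (T.erase z) S))) h1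
  rw [intervalIntegral.integral_add e2 intervalIntegrable_const, intervalIntegral.integral_const,
    sub_zero, one_smul] at h6
  have h7 := integral_step_le (c z) (c' z)
  have h8 : |c z - c' z| + tdist c c' d d' (T.erase z) S = tdist c c' d d' T S := by
    unfold tdist
    rw [← Finset.add_sum_erase T _ hz]
    ring
  linarith

theorem dR_lip (c c' d d' : ℕ → ℝ) (T : Finset ℕ) {S : Finset ℕ} {z : ℕ} (hz : z ∈ S) :
    ∫ t in (0 : ℝ)..1, |dR c d T S z t - dR c' d' T S z t| ≤ tdist c c' d d' T S := by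
  have h := dL_lip d d' c c' T hz
  rw [tdist_swap] at h
  refine le_trans (le_of_eq ?_) h
  rw [← integral_abs_refl]
  refine intervalIntegral.integral_congr fun t _ => ?_
  simp only [dR_eq, sub_sub_cancel]

/-- the pair functional is Lipschitz for the `L^1` norms -/
theorem Nf_lip {f f' g g' : ℝ → ℝ} (hf : IntervalIntegrable f volume 0 1)
    (hf' : IntervalIntegrable f' volume 0 1) (hg : IntervalIntegrable g volume 0 1)
    (hg' : IntervalIntegrable g' volume 0 1) :
    |Nf f g - Nf f' g'| ≤ (∫ t in (0 : ℝ)..1, |f t - f' t|) * (∫ t in (0 : ℝ)..1, |g t|)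
      + (∫ t in (0 : ℝ)..1, |f' t|) * ∫ t in (0 : ℝ)..1, |g t - g' t| := by
  have e : Nf f g - Nf f' g' = Nf (fun t => f t - f' t) g + Nf f' (fun t => g t - g' t) := by
    rw [Nf_sub_left hf hf' hg, Nf_sub_right hf' hg hg']
    ring
  rw [e]
  refine (abs_add_le _ _).trans ?_
  exact add_le_add (abs_Nf_le (hf.sub hf') hg) (abs_Nf_le hf' (hg.sub hg'))

end Pool.Agent.T1K
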