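import Pool.Agent.T1K.Ker

set_option autoImplicit false

open Finset

namespace Pool.Agent.T1K

lemma Fs_three : ∀ s : ZMod 3, Fs 3 s (sk 4) = 4572 * cyc s := by decide +kernel

lemma Fs_four : ∀ s : ZMod 3, Fs 4 s (sk 6) = -35208108 * cyc s := by decide +kernel

/-- the signed sums of order four for `n = 11` -/
theorem G2_sk_four (a b : ZMod 3) : G2 11 a b (sk 4) = 508 * 3 ^ 9 * cyc (b - a) := by
  rw [G2_sk_succ (n := 10) (by decide) (by norm_num) a b,
    Fs_sk_add (n := 3) (j := 7) (by decide) (by norm_num) (b - a), Fs_three]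
  ring

/-- the signed sums of order six for `n = 11` -/
theorem G2_sk_six (a b : ZMod 3) : G2 11 a b (sk 6) = -434668 * 3 ^ 10 * cyc (b - a) := by
  rw [G2_sk_succ (n := 10) (by decide) (by norm_num) a b,
    Fs_sk_add (n := 4) (j := 6) (by decide) (by norm_num) (b - a), Fs_four]
  ring

end Pool.Agent.T1K
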