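import Pool.Agent.T1K.KInt
import Pool.Agent.T1K.Refl

/-!
# T1: the quadratic kernel with a barrier

* `ker_q_core`: the value of `Kq al f g` for two profiles `f`, `g` which agree up to `eta ^ 7`
  outside the coded region and in all moments of degree at most three of the coded region, and
  whose leading terms there are `r0 + r1 u - kp h DD T u`, `r0 + r1 u - kp h DD T' u`.
-/

set_option autoImplicit false

open Finset MeasureTheory intervalIntegral

namespace Pool.Agent.T1K.KQ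

/-- the quadratic kernel -/
noncomputable def kq (al x y : ℝ) : ℝ := (max y al - max x al) * |max y al - max x al|

lemma continuous_kq (al : ℝ) : Continuous (Function.uncurry (kq al)) := by
  unfold kq Function.uncurry
  fun_prop

lemma kq_skew (al x y : ℝ) : kq al y x = -kq al x y := by
  unfold kq
  rw [abs_sub_comm]
  ring

lemma abs_kq_le {al x y : ℝ} (h0 : 0 ≤ al) (h1 : al ≤ 1) (hx : x ≤ 1) (hy : y ≤ 1) :
    |kq al x y| ≤ 1 := by
  unfold kq
  have h2 : |max y al - max x al| ≤ 1 := by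
    rw [abs_le]
    have a1 := le_max_right x al
    have a2 := le_max_right y al
    have a3 : max x al ≤ 1 := max_le hx h1
    have a4 : max y al ≤ 1 := max_le hy h1
    constructor <;> linarith
  rw [abs_mul, abs_abs]
  exact mul_le_one₀ h2 (abs_nonneg _) h2

lemma kq_left {al s x y : ℝ} (hx : x ≤ s) (hal : al ≤ s) (hy : s ≤ y) :
    kq al x y = (y - s) ^ 2 + 2 * (y - s) * (s - max x al) + (s - max x al) ^ 2 := by
  have h1 : max y al = y := max_eq_left (hal.trans hy)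
  have h2 : max x al ≤ s := max_le hx hal
  unfold kq
  rw [h1, abs_of_nonneg (by linarith)]
  ring

lemma kq_right {al s b x y : ℝ} (hx : b ≤ x) (hal : al ≤ s) (hy : s ≤ y) (hy2 : y ≤ b) :
    kq al x y = -((x - s) ^ 2 - 2 * (x - s) * (y - s) + (y - s) ^ 2) := by
  have h1 : max y al = y := max_eq_left (hal.trans hy)
  have h2 : max x al = x := max_eq_left (by linarith)
  unfold kq
  rw [h1, h2, abs_of_nonpos (by linarith)]
  ring

lemma kq_in {al x y : ℝ} (hx : al ≤ x) (hy : al ≤ y) : kq al x y = (y - x) * |y - x| := by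
  unfold kq
  rw [max_eq_left hx, max_eq_left hy]

/-! ## Fubini for continuous functions -/

lemma swapI {F : ℝ → ℝ → ℝ} (hF : Continuous (Function.uncurry F)) (a b c d : ℝ) :
    ∫ x in a..b, ∫ y in c..d, F x y = ∫ y in c..d, ∫ x in a..b, F x y := by
  refine MeasureTheory.intervalIntegral_intervalIntegral_swap ?_
  exact (hF.continuousOn.integrableOn_compact (isCompact_uIcc.prod isCompact_uIcc)).mono_set
    (Set.prod_mono Set.uIoc_subset_uIcc Set.uIoc_subset_uIcc)

lemma cont_inner {F : ℝ → ℝ → ℝ} (hF : Continuous (Function.uncurry F)) (a b : ℝ) :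
    Continuous fun x => ∫ y in a..b, F x y :=
  intervalIntegral.continuous_parametric_intervalIntegral_of_continuous' hF a b

lemma lin3 {F0 F1 F2 : ℝ → ℝ} (h0 : Continuous F0) (h1 : Continuous F1) (h2 : Continuous F2)
    (c0 c1 c2 a b : ℝ) : ∫ x in a..b, (c0 * F0 x + c1 * F1 x + c2 * F2 x) =
      c0 * (∫ x in a..b, F0 x) + c1 * (∫ x in a..b, F1 x) + c2 * ∫ x in a..b, F2 x := by
  have i0 : Continuous fun x => c0 * F0 x := by fun_prop
  have i1 : Continuous fun x => c1 * F1 x := by fun_prop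
  have i2 : Continuous fun x => c2 * F2 x := by fun_prop
  have i3 : Continuous fun x => c0 * F0 x + c1 * F1 x := by fun_prop
  rw [intervalIntegral.integral_add (i3.intervalIntegrable _ _)
    (i2.intervalIntegrable _ _), intervalIntegral.integral_add (i0.intervalIntegrable _ _)
    (i1.intervalIntegrable _ _), intervalIntegral.integral_const_mul,
    intervalIntegral.integral_const_mul, intervalIntegral.integral_const_mul]

lemma lin4 {F0 F1 F2 F3 : ℝ → ℝ} (h0 : Continuous F0) (h1 : Continuous F1) (h2 : Continuous F2)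
    (h3 : Continuous F3) (c0 c1 c2 c3 a b : ℝ) :
    ∫ x in a..b, (c0 * F0 x + c1 * F1 x + c2 * F2 x + c3 * F3 x) =
      c0 * (∫ x in a..b, F0 x) + c1 * (∫ x in a..b, F1 x) + c2 * (∫ x in a..b, F2 x) +
        c3 * ∫ x in a..b, F3 x := by
  have i0 : Continuous fun x => c0 * F0 x + c1 * F1 x + c2 * F2 x := by fun_prop
  have i3 : Continuous fun x => c3 * F3 x := by fun_prop
  rw [intervalIntegral.integral_add (i0.intervalIntegrable _ _)
    (i3.intervalIntegrable _ _), lin3 h0 h1 h2, intervalIntegral.integral_const_mul]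

/-- a skew kernel vanishes on the diagonal -/
lemma skew_zero {k : ℝ → ℝ → ℝ} (hk : Continuous (Function.uncurry k))
    (hs : ∀ x y, k y x = -k x y) {f : ℝ → ℝ} (hf : Continuous f) (a b : ℝ) :
    ∫ y in a..b, ∫ x in a..b, f y * (f x * k x y) = 0 := by
  have hk' : Continuous fun p : ℝ × ℝ => k p.1 p.2 := hk
  have hF : Continuous (Function.uncurry fun y x : ℝ => f y * (f x * k x y)) := by
    have h1 : Continuous fun p : ℝ × ℝ => k p.2 p.1 := hk'.comp continuous_swap
    have h2 : Continuous fun p : ℝ × ℝ => f p.1 * (f p.2 * k p.2 p.1) := by fun_prop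
    exact h2
  have h := swapI hF a b a b
  have h2 : ∫ x in a..b, ∫ y in a..b, f y * (f x * k x y) =
      -∫ y in a..b, ∫ x in a..b, f y * (f x * k x y) := by
    rw [← intervalIntegral.integral_neg]
    refine intervalIntegral.integral_congr fun x _ => ?_
    rw [← intervalIntegral.integral_neg]
    refine intervalIntegral.integral_congr fun y _ => ?_
    change f y * (f x * k x y) = -(f x * (f y * k y x))
    rw [hs x y]
    ring
  linarith

/-- integration against a bounded weight -/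
lemma abs_int_le {F : ℝ → ℝ} {a b C : ℝ} (hab : a ≤ b) (h : ∀ x, a ≤ x → x ≤ b → |F x| ≤ C) :
    |∫ x in a..b, F x| ≤ C * (b - a) := by
  have h1 := intervalIntegral.norm_integral_le_of_norm_le_const (a := a) (b := b) (f := F) (C := C)
    (fun x hx => by
      rw [Set.uIoc_of_le hab] at hx
      rw [Real.norm_eq_abs]
      exact h x hx.1.le hx.2)
  rwa [Real.norm_eq_abs, abs_of_nonneg (by linarith : (0 : ℝ) ≤ b - a)] at h1

/-! ## Reduction to the coded region -/

/-- `Kq` through the difference of the profiles -/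
lemma Kq_diff {f g : ℝ → ℝ} (hf : Continuous f) (hg : Continuous g) (al : ℝ) :
    Kq al f g = ∫ y in (0 : ℝ)..1, (g y - f y) * ∫ x in (0 : ℝ)..1, f x * kq al x y := by
  have hk := continuous_kq al
  have hk' : Continuous fun p : ℝ × ℝ => kq al p.1 p.2 := hk
  have hk2 : Continuous fun p : ℝ × ℝ => kq al p.2 p.1 := hk'.comp continuous_swap
  have hF : Continuous (Function.uncurry fun x y : ℝ => f x * g y * kq al x y) := by
    have h2 : Continuous fun p : ℝ × ℝ => f p.1 * g p.2 * kq al p.1 p.2 := by fun_prop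
    exact h2
  have e1 : Kq al f g = ∫ y in (0 : ℝ)..1, ∫ x in (0 : ℝ)..1, f x * g y * kq al x y := by
    rw [← swapI hF]
    rfl
  have e2 := skew_zero hk (kq_skew al) hf 0 1
  have c1 : Continuous fun y : ℝ => ∫ x in (0 : ℝ)..1, f x * g y * kq al x y := by
    refine cont_inner (F := fun y x : ℝ => f x * g y * kq al x y) ?_ 0 1
    have h2 : Continuous fun p : ℝ × ℝ => f p.2 * g p.1 * kq al p.2 p.1 := by fun_prop
    exact h2
  have c2 : Continuous fun y : ℝ => ∫ x in (0 : ℝ)..1, f y * (f x * kq al x y) := by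
    refine cont_inner (F := fun y x : ℝ => f y * (f x * kq al x y)) ?_ 0 1
    have h2 : Continuous fun p : ℝ × ℝ => f p.1 * (f p.2 * kq al p.2 p.1) := by fun_prop
    exact h2
  have e3 : Kq al f g = (∫ y in (0 : ℝ)..1, ∫ x in (0 : ℝ)..1, f x * g y * kq al x y) -
      ∫ y in (0 : ℝ)..1, ∫ x in (0 : ℝ)..1, f y * (f x * kq al x y) := by
    rw [e2, sub_zero, e1]
  rw [e3, ← intervalIntegral.integral_sub (c1.intervalIntegrable _ _) (c2.intervalIntegrable _ _)]
  refine intervalIntegral.integral_congr fun y _ => ?_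
  have c3 : Continuous fun x : ℝ => f x * g y * kq al x y := by
    have h2 : Continuous fun x : ℝ => kq al x y := by
      unfold kq
      fun_prop
    fun_prop
  have c4 : Continuous fun x : ℝ => f y * (f x * kq al x y) := by
    have h2 : Continuous fun x : ℝ => kq al x y := by
      unfold kq
      fun_prop
    fun_prop
  rw [← intervalIntegral.integral_sub (c3.intervalIntegrable _ _) (c4.intervalIntegrable _ _),
    ← intervalIntegral.integral_const_mul]
  refine intervalIntegral.integral_congr fun x _ => ?_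
  ring

/-- the part of the inner integral left of the coded region -/
lemma part_left {D f : ℝ → ℝ} (hD : Continuous D) (hf : Continuous f) {al s b e : ℝ}
    (h0 : 0 ≤ al) (hal : al ≤ s) (hs0 : 0 ≤ s) (hs1 : s ≤ 1) (hsb : s ≤ b)
    (hf1 : ∀ x, 0 ≤ x → x ≤ 1 → |f x| ≤ 1)
    (hm : ∀ j ≤ 3, |∫ y in s..b, D y * (y - s) ^ j| ≤ e) :
    |∫ y in s..b, D y * ∫ x in (0 : ℝ)..s, f x * kq al x y| ≤ 4 * e := by
  have hc : Continuous fun x : ℝ => s - max x al := by fun_prop
  have e1 : ∫ y in s..b, D y * ∫ x in (0 : ℝ)..s, f x * kq al x y =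
      (∫ x in (0 : ℝ)..s, f x) * (∫ y in s..b, D y * (y - s) ^ 2) +
      2 * (∫ x in (0 : ℝ)..s, f x * (s - max x al)) * (∫ y in s..b, D y * (y - s) ^ 1) +
      (∫ x in (0 : ℝ)..s, f x * (s - max x al) ^ 2) * (∫ y in s..b, D y * (y - s) ^ 0) := by
    rw [← lin3 (by fun_prop) (by fun_prop) (by fun_prop)]
    refine intervalIntegral.integral_congr fun y hy => ?_
    rw [Set.uIcc_of_le hsb] at hy
    have e2 : ∫ x in (0 : ℝ)..s, f x * kq al x y = ∫ x in (0 : ℝ)..s,
        ((y - s) ^ 2 * f x + 2 * (y - s) * (f x * (s - max x al)) +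
          1 * (f x * (s - max x al) ^ 2)) := by
      refine intervalIntegral.integral_congr fun x hx => ?_
      rw [Set.uIcc_of_le hs0] at hx
      rw [kq_left hx.2 hal hy.1]
      ring
    rw [e2, lin3 hf (by fun_prop) (by fun_prop)]
    ring
  have b0 : ∀ x, 0 ≤ x → x ≤ s → 0 ≤ s - max x al ∧ s - max x al ≤ 1 := by
    intro x _ hxs
    have a1 : max x al ≤ s := max_le hxs hal
    have a2 : al ≤ max x al := le_max_right _ _
    constructor <;> linarith
  have m0 : |∫ x in (0 : ℝ)..s, f x| ≤ 1 := by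
    refine (abs_int_le hs0 (C := 1) fun x hx hxs => hf1 x hx (hxs.trans hs1)).trans ?_
    linarith
  have m1 : |∫ x in (0 : ℝ)..s, f x * (s - max x al)| ≤ 1 := by
    refine (abs_int_le hs0 (C := 1) fun x hx hxs => ?_).trans (by linarith)
    rw [abs_mul]
    refine mul_le_one₀ (hf1 x hx (hxs.trans hs1)) (abs_nonneg _) ?_
    rw [abs_of_nonneg (b0 x hx hxs).1]
    exact (b0 x hx hxs).2
  have m2 : |∫ x in (0 : ℝ)..s, f x * (s - max x al) ^ 2| ≤ 1 := by
    refine (abs_int_le hs0 (C := 1) fun x hx hxs => ?_).trans (by linarith)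
    rw [abs_mul]
    refine mul_le_one₀ (hf1 x hx (hxs.trans hs1)) (abs_nonneg _) ?_
    rw [abs_of_nonneg (sq_nonneg _)]
    exact pow_le_one₀ (b0 x hx hxs).1 (b0 x hx hxs).2
  have d0 := hm 0 (by norm_num)
  have d1 := hm 1 (by norm_num)
  have d2 := hm 2 (by norm_num)
  have he : 0 ≤ e := (abs_nonneg _).trans d0
  rw [e1]
  have p2 : |(∫ x in (0 : ℝ)..s, f x) * (∫ y in s..b, D y * (y - s) ^ 2)| ≤ 1 * e := by
    rw [abs_mul]
    exact mul_le_mul m0 d2 (abs_nonneg _) zero_le_one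
  have p1 : |2 * (∫ x in (0 : ℝ)..s, f x * (s - max x al)) * (∫ y in s..b, D y * (y - s) ^ 1)| ≤
      2 * 1 * e := by
    rw [abs_mul, abs_mul, abs_of_pos (by norm_num : (0 : ℝ) < 2)]
    exact mul_le_mul (mul_le_mul_of_nonneg_left m1 (by norm_num)) d1 (abs_nonneg _) (by norm_num)
  have p0 : |(∫ x in (0 : ℝ)..s, f x * (s - max x al) ^ 2) * (∫ y in s..b, D y * (y - s) ^ 0)| ≤
      1 * e := by
    rw [abs_mul]
    exact mul_le_mul m2 d0 (abs_nonneg _) zero_le_one
  refine (abs_add_three _ _ _).trans ?_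
  linarith

/-- the part of the inner integral right of the coded region -/
lemma part_right {D f : ℝ → ℝ} (hD : Continuous D) (hf : Continuous f) {al s b e : ℝ}
    (hal : al ≤ s) (hs0 : 0 ≤ s) (hsb : s ≤ b) (hb1 : b ≤ 1)
    (hf1 : ∀ x, 0 ≤ x → x ≤ 1 → |f x| ≤ 1)
    (hm : ∀ j ≤ 3, |∫ y in s..b, D y * (y - s) ^ j| ≤ e) :
    |∫ y in s..b, D y * ∫ x in b..1, f x * kq al x y| ≤ 4 * e := by
  have e1 : ∫ y in s..b, D y * ∫ x in b..1, f x * kq al x y =
      -(∫ x in b..1, f x * (x - s) ^ 2) * (∫ y in s..b, D y * (y - s) ^ 0) +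
      2 * (∫ x in b..1, f x * (x - s)) * (∫ y in s..b, D y * (y - s) ^ 1) +
      -(∫ x in b..1, f x) * (∫ y in s..b, D y * (y - s) ^ 2) := by
    rw [← lin3 (by fun_prop) (by fun_prop) (by fun_prop)]
    refine intervalIntegral.integral_congr fun y hy => ?_
    rw [Set.uIcc_of_le hsb] at hy
    have e2 : ∫ x in b..1, f x * kq al x y = ∫ x in b..1,
        (-1 * (f x * (x - s) ^ 2) + 2 * (y - s) * (f x * (x - s)) + -(y - s) ^ 2 * f x) := by
      refine intervalIntegral.integral_congr fun x hx => ?_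
      rw [Set.uIcc_of_le hb1] at hx
      rw [kq_right hx.1 hal hy.1 hy.2]
      ring
    rw [e2, lin3 (by fun_prop) (by fun_prop) hf]
    ring
  have b0 : ∀ x, b ≤ x → x ≤ 1 → 0 ≤ x - s ∧ x - s ≤ 1 := by
    intro x hx hx1
    constructor <;> linarith
  have m0 : |∫ x in b..1, f x| ≤ 1 := by
    refine (abs_int_le hb1 (C := 1) fun x hx hxs => hf1 x (by linarith) hxs).trans ?_
    linarith
  have m1 : |∫ x in b..1, f x * (x - s)| ≤ 1 := by
    refine (abs_int_le hb1 (C := 1) fun x hx hxs => ?_).trans (by linarith)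
    rw [abs_mul]
    refine mul_le_one₀ (hf1 x (by linarith) hxs) (abs_nonneg _) ?_
    rw [abs_of_nonneg (b0 x hx hxs).1]
    exact (b0 x hx hxs).2
  have m2 : |∫ x in b..1, f x * (x - s) ^ 2| ≤ 1 := by
    refine (abs_int_le hb1 (C := 1) fun x hx hxs => ?_).trans (by linarith)
    rw [abs_mul]
    refine mul_le_one₀ (hf1 x (by linarith) hxs) (abs_nonneg _) ?_
    rw [abs_of_nonneg (sq_nonneg _)]
    exact pow_le_one₀ (b0 x hx hxs).1 (b0 x hx hxs).2
  have d0 := hm 0 (by norm_num)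
  have d1 := hm 1 (by norm_num)
  have d2 := hm 2 (by norm_num)
  have he : 0 ≤ e := (abs_nonneg _).trans d0
  rw [e1]
  have p2 : |-(∫ x in b..1, f x) * (∫ y in s..b, D y * (y - s) ^ 2)| ≤ 1 * e := by
    rw [abs_mul, abs_neg]
    exact mul_le_mul m0 d2 (abs_nonneg _) zero_le_one
  have p1 : |2 * (∫ x in b..1, f x * (x - s)) * (∫ y in s..b, D y * (y - s) ^ 1)| ≤
      2 * 1 * e := by
    rw [abs_mul, abs_mul, abs_of_pos (by norm_num : (0 : ℝ) < 2)]
    exact mul_le_mul (mul_le_mul_of_nonneg_left m1 (by norm_num)) d1 (abs_nonneg _) (by norm_num)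
  have p0 : |-(∫ x in b..1, f x * (x - s) ^ 2) * (∫ y in s..b, D y * (y - s) ^ 0)| ≤
      1 * e := by
    rw [abs_mul, abs_neg]
    exact mul_le_mul m2 d0 (abs_nonneg _) zero_le_one
  refine (abs_add_three _ _ _).trans ?_
  linarith

lemma int_kernel {s b y : ℝ} (hy : s ≤ y) (hyb : y ≤ b) :
    ∫ x in s..b, (y - x) * |y - x| = ((y - s) ^ 3 - (b - y) ^ 3) / 3 := by
  have h : ∀ x : ℝ, HasDerivAt (fun x : ℝ => -(|y - x| * (y - x) ^ (1 + 1) / 3))
      ((y - x) * |y - x|) x := by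
    intro x
    refine ((hasDerivAt_absPow_sub 1 y x).div_const 3).neg.congr_deriv ?_
    push_cast
    ring
  rw [intervalIntegral.integral_eq_sub_of_hasDerivAt (fun x _ => h x)
    ((by fun_prop : Continuous fun x : ℝ => (y - x) * |y - x|).intervalIntegrable _ _),
    abs_of_nonpos (by linarith : y - b ≤ 0), abs_of_nonneg (by linarith : 0 ≤ y - s)]
  ring

/-- the constant part of the inner integral over the coded region -/
lemma part_mid {D : ℝ → ℝ} (hD : Continuous D) {s b e : ℝ} (hs0 : 0 ≤ s) (hsb : s ≤ b)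
    (hb1 : b ≤ 1) (hm : ∀ j ≤ 3, |∫ y in s..b, D y * (y - s) ^ j| ≤ e) :
    |∫ y in s..b, D y * ∫ x in s..b, ((y - x) * |y - x|)| ≤ 3 * e := by
  obtain ⟨L, hL⟩ : ∃ L, L = b - s := ⟨_, rfl⟩
  have hL0 : 0 ≤ L := by linarith
  have hL1 : L ≤ 1 := by linarith
  have e1 : ∫ y in s..b, D y * ∫ x in s..b, ((y - x) * |y - x|) =
      2 / 3 * (∫ y in s..b, D y * (y - s) ^ 3) + -L * (∫ y in s..b, D y * (y - s) ^ 2) +
      L ^ 2 * (∫ y in s..b, D y * (y - s) ^ 1) +
      -(L ^ 3 / 3) * (∫ y in s..b, D y * (y - s) ^ 0) := by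
    rw [← lin4 (by fun_prop) (by fun_prop) (by fun_prop) (by fun_prop)]
    refine intervalIntegral.integral_congr fun y hy => ?_
    rw [Set.uIcc_of_le hsb] at hy
    rw [int_kernel hy.1 hy.2, hL]
    ring
  have d0 := hm 0 (by norm_num)
  have d1 := hm 1 (by norm_num)
  have d2 := hm 2 (by norm_num)
  have d3 := hm 3 (by norm_num)
  have he : 0 ≤ e := (abs_nonneg _).trans d0
  have hL2 : L ^ 2 ≤ 1 := pow_le_one₀ hL0 hL1
  have hL3 : L ^ 3 ≤ 1 := pow_le_one₀ hL0 hL1
  rw [e1]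
  have q3 : |2 / 3 * (∫ y in s..b, D y * (y - s) ^ 3)| ≤ 2 / 3 * e := by
    rw [abs_mul, abs_of_pos (by norm_num : (0 : ℝ) < 2 / 3)]
    exact mul_le_mul_of_nonneg_left d3 (by norm_num)
  have q2 : |-L * (∫ y in s..b, D y * (y - s) ^ 2)| ≤ 1 * e := by
    rw [abs_mul, abs_neg, abs_of_nonneg hL0]
    exact mul_le_mul hL1 d2 (abs_nonneg _) zero_le_one
  have q1 : |L ^ 2 * (∫ y in s..b, D y * (y - s) ^ 1)| ≤ 1 * e := by
    rw [abs_mul, abs_of_nonneg (by positivity)]
    exact mul_le_mul hL2 d1 (abs_nonneg _) zero_le_one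
  have q0 : |-(L ^ 3 / 3) * (∫ y in s..b, D y * (y - s) ^ 0)| ≤ 1 / 3 * e := by
    rw [abs_mul, abs_neg, abs_of_nonneg (by positivity)]
    exact mul_le_mul (by linarith) d0 (abs_nonneg _) (by norm_num)
  have t1 := abs_add_le (2 / 3 * (∫ y in s..b, D y * (y - s) ^ 3) +
    -L * (∫ y in s..b, D y * (y - s) ^ 2) + L ^ 2 * (∫ y in s..b, D y * (y - s) ^ 1))
    (-(L ^ 3 / 3) * (∫ y in s..b, D y * (y - s) ^ 0))
  have t2 := abs_add_three (2 / 3 * (∫ y in s..b, D y * (y - s) ^ 3))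
    (-L * (∫ y in s..b, D y * (y - s) ^ 2)) (L ^ 2 * (∫ y in s..b, D y * (y - s) ^ 1))
  linarith

/-! ## The linear part of the profile against the kinks -/

lemma int_kernel1 {c B v : ℝ} (hc : c ≤ v) (hB : v ≤ B) :
    ∫ u in c..B, u * ((v - u) * |v - u|) =
      -(v * (B - v) ^ 3) / 3 - (B - v) ^ 4 / 4 + v * (v - c) ^ 3 / 3 - (v - c) ^ 4 / 4 := by
  have h : ∀ u : ℝ, HasDerivAt (fun u : ℝ => |v - u| * (v - u) ^ (2 + 1) / 4 -
      v * (|v - u| * (v - u) ^ (1 + 1)) / 3) (u * ((v - u) * |v - u|)) u := by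
    intro u
    refine (((hasDerivAt_absPow_sub 2 v u).div_const 4).sub
      (((hasDerivAt_absPow_sub 1 v u).const_mul v).div_const 3)).congr_deriv ?_
    push_cast
    ring
  rw [intervalIntegral.integral_eq_sub_of_hasDerivAt (fun x _ => h x)
    ((by fun_prop : Continuous fun u : ℝ => u * ((v - u) * |v - u|)).intervalIntegrable _ _),
    abs_of_nonpos (by linarith : v - B ≤ 0), abs_of_nonneg (by linarith : 0 ≤ v - c)]
  ring

/-- the value for one tick -/
noncomputable def phl (c B z : ℝ) : ℝ :=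
  (-(c * (B - c) ^ 3) / 3 - (B - c) ^ 4 / 4) / 2 * (z - c) ^ 2 +
    (c * (B - c) ^ 2 + 2 / 3 * (B - c) ^ 3) / 6 * (z - c) ^ 3 +
    (-(c * (B - c)) - (B - c) ^ 2 / 2) / 12 * (z - c) ^ 4 + c / 30 * (z - c) ^ 5 +
    1 / 180 * (z - c) ^ 6

lemma plus_kernel1 {c z B : ℝ} (hz : c ≤ z) (hzB : z ≤ B) :
    ∫ v in c..B, max 0 (z - v) * (∫ u in c..B, u * ((v - u) * |v - u|)) = phl c B z := by
  have e1 : ∫ v in c..B, max 0 (z - v) * (∫ u in c..B, u * ((v - u) * |v - u|)) =
      ∫ v in c..B, max 0 (z - v) * (-(v * (B - v) ^ 3) / 3 - (B - v) ^ 4 / 4 +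
        v * (v - c) ^ 3 / 3 - (v - c) ^ 4 / 4) := by
    refine intervalIntegral.integral_congr fun v hv => ?_
    rw [Set.uIcc_of_le (hz.trans hzB)] at hv
    rw [int_kernel1 hv.1 hv.2]
  rw [e1]
  have d1 : ∀ v : ℝ, HasDerivAt (fun v : ℝ => phl c B v)
      ((-(c * (B - c) ^ 3) / 3 - (B - c) ^ 4 / 4) * (v - c) +
        (c * (B - c) ^ 2 + 2 / 3 * (B - c) ^ 3) / 2 * (v - c) ^ 2 +
        (-(c * (B - c)) - (B - c) ^ 2 / 2) / 3 * (v - c) ^ 3 + c / 6 * (v - c) ^ 4 +
        1 / 30 * (v - c) ^ 5) v := by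
    intro v
    have a2 := (((hasDerivAt_id v).sub_const c).pow 2).const_mul
      ((-(c * (B - c) ^ 3) / 3 - (B - c) ^ 4 / 4) / 2)
    have a3 := (((hasDerivAt_id v).sub_const c).pow 3).const_mul
      ((c * (B - c) ^ 2 + 2 / 3 * (B - c) ^ 3) / 6)
    have a4 := (((hasDerivAt_id v).sub_const c).pow 4).const_mul
      ((-(c * (B - c)) - (B - c) ^ 2 / 2) / 12)
    have a5 := (((hasDerivAt_id v).sub_const c).pow 5).const_mul (c / 30)
    have a6 := (((hasDerivAt_id v).sub_const c).pow 6).const_mul ((1 : ℝ) / 180)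
    refine ((((a2.add a3).add a4).add a5).add a6).congr_deriv ?_
    simp only [id]
    push_cast
    ring
  have d2 : ∀ v : ℝ, HasDerivAt (fun v : ℝ =>
      (-(c * (B - c) ^ 3) / 3 - (B - c) ^ 4 / 4) * (v - c) +
        (c * (B - c) ^ 2 + 2 / 3 * (B - c) ^ 3) / 2 * (v - c) ^ 2 +
        (-(c * (B - c)) - (B - c) ^ 2 / 2) / 3 * (v - c) ^ 3 + c / 6 * (v - c) ^ 4 +
        1 / 30 * (v - c) ^ 5)
      (-(v * (B - v) ^ 3) / 3 - (B - v) ^ 4 / 4 + v * (v - c) ^ 3 / 3 - (v - c) ^ 4 / 4) v := by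
    intro v
    have a1 := ((hasDerivAt_id v).sub_const c).const_mul
      (-(c * (B - c) ^ 3) / 3 - (B - c) ^ 4 / 4)
    have a2 := (((hasDerivAt_id v).sub_const c).pow 2).const_mul
      ((c * (B - c) ^ 2 + 2 / 3 * (B - c) ^ 3) / 2)
    have a3 := (((hasDerivAt_id v).sub_const c).pow 3).const_mul
      ((-(c * (B - c)) - (B - c) ^ 2 / 2) / 3)
    have a4 := (((hasDerivAt_id v).sub_const c).pow 4).const_mul (c / 6)
    have a5 := (((hasDerivAt_id v).sub_const c).pow 5).const_mul ((1 : ℝ) / 30)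
    refine ((((a1.add a2).add a3).add a4).add a5).congr_deriv ?_
    simp only [id]
    push_cast
    ring
  rw [plus_int d1 d2 (by fun_prop) hz hzB]
  unfold phl
  ring

lemma lin_DD {M z0 : ℕ} {T : Finset ℕ} (hT : ∀ z ∈ T, z0 ≤ z ∧ z ≤ M) :
    ∫ v in (z0 : ℝ)..M, DD T v * ∫ u in (z0 : ℝ)..M, u * ((v - u) * |v - u|) =
      ∑ z ∈ T, phl z0 M z := by
  have hc : Continuous fun v : ℝ => ∫ u in (z0 : ℝ)..M, u * ((v - u) * |v - u|) := by
    refine cont_inner (F := fun v u : ℝ => u * ((v - u) * |v - u|)) ?_ _ _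
    have : Continuous fun p : ℝ × ℝ => p.2 * ((p.1 - p.2) * |p.1 - p.2|) := by fun_prop
    exact this
  have e1 : ∀ v : ℝ, DD T v * ∫ u in (z0 : ℝ)..M, u * ((v - u) * |v - u|) =
      ∑ z ∈ T, max 0 ((z : ℝ) - v) * ∫ u in (z0 : ℝ)..M, u * ((v - u) * |v - u|) := by
    intro v
    unfold DD
    rw [Finset.sum_mul]
  simp_rw [e1]
  rw [intervalIntegral.integral_finsetSum fun z _ => ?_]
  · exact Finset.sum_congr rfl fun z hz =>
      plus_kernel1 (Nat.cast_le.2 (hT z hz).1) (Nat.cast_le.2 (hT z hz).2)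
  · have h1 : Continuous fun v : ℝ => max 0 ((z : ℝ) - v) := by fun_prop
    exact (h1.mul hc).intervalIntegrable _ _

lemma lin_DD_eq {M z0 : ℕ} {T T' : Finset ℕ} (hT : ∀ z ∈ T, z0 ≤ z ∧ z ≤ M)
    (hT' : ∀ z ∈ T', z0 ≤ z ∧ z ≤ M)
    (hp : ∀ i ≤ 6, ∑ z ∈ T, (z : ℤ) ^ i = ∑ z ∈ T', (z : ℤ) ^ i) :
    ∫ v in (z0 : ℝ)..M, DD T v * (∫ u in (z0 : ℝ)..M, u * ((v - u) * |v - u|)) =
      ∫ v in (z0 : ℝ)..M, DD T' v * ∫ u in (z0 : ℝ)..M, u * ((v - u) * |v - u|) := by
  rw [lin_DD hT, lin_DD hT']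
  unfold phl
  simp_rw [Finset.sum_add_distrib, ← Finset.mul_sum]
  rw [ps_real hp z0 (by norm_num : 2 ≤ 6), ps_real hp z0 (by norm_num : 3 ≤ 6),
    ps_real hp z0 (by norm_num : 4 ≤ 6), ps_real hp z0 (by norm_num : 5 ≤ 6),
    ps_real hp z0 (by norm_num : 6 ≤ 6)]

lemma DD_filter {T : Finset ℕ} {z0 : ℕ} {u : ℝ} (hu : (z0 : ℝ) ≤ u) :
    DD T u = DD (T.filter (z0 ≤ ·)) u := by
  unfold DD
  rw [Finset.sum_filter]
  refine Finset.sum_congr rfl fun z _ => ?_
  by_cases h : z0 ≤ z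
  · rw [if_pos h]
  · rw [if_neg h]
    have : (z : ℝ) ≤ z0 := by
      exact_mod_cast (not_le.1 h).le
    exact max_eq_left (by linarith)

lemma DD_nonneg (T : Finset ℕ) (u : ℝ) : 0 ≤ DD T u :=
  Finset.sum_nonneg fun _ _ => le_max_left _ _

lemma DD_le {T : Finset ℕ} {K M : ℕ} (hT : ∀ z ∈ T, z ≤ M) (hK : T.card ≤ K) {u : ℝ}
    (hu : 0 ≤ u) : DD T u ≤ K * M := by
  have h1 : DD T u ≤ ∑ _z ∈ T, (M : ℝ) := by
    unfold DD
    refine Finset.sum_le_sum fun z hz => ?_
    refine max_le (Nat.cast_nonneg M) ?_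
    have : (z : ℝ) ≤ M := Nat.cast_le.2 (hT z hz)
    linarith
  refine h1.trans ?_
  rw [Finset.sum_const, nsmul_eq_mul]
  exact mul_le_mul_of_nonneg_right (Nat.cast_le.2 hK) (Nat.cast_nonneg M)

/-- the main bilinear term -/
lemma main_bilin {M z0 : ℕ} (hzM : z0 ≤ M) {T T' : Finset ℕ} (hTM : ∀ z ∈ T, z ≤ M)
    (hTM' : ∀ z ∈ T', z ≤ M)
    (hp : ∀ i ≤ 6, ∑ z ∈ T with z0 ≤ z, (z : ℤ) ^ i = ∑ z ∈ T' with z0 ≤ z, (z : ℤ) ^ i)
    (r1 c : ℝ) :
    ∫ v in (z0 : ℝ)..M, ∫ u in (z0 : ℝ)..M,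
      (r1 * u - c * DD T u) * (-(c * (DD T' v - DD T v))) * ((v - u) * |v - u|) =
      c ^ 2 * (US 6 (T.filter (z0 ≤ ·)) (T'.filter (z0 ≤ ·)) : ℝ) / 360 := by
  have hz : (z0 : ℝ) ≤ M := Nat.cast_le.2 hzM
  have f1 : ∀ z ∈ T.filter (z0 ≤ ·), z0 ≤ z ∧ z ≤ M := fun z hz =>
    ⟨(Finset.mem_filter.1 hz).2, hTM z (Finset.mem_filter.1 hz).1⟩
  have f2 : ∀ z ∈ T'.filter (z0 ≤ ·), z0 ≤ z ∧ z ≤ M := fun z hz =>
    ⟨(Finset.mem_filter.1 hz).2, hTM' z (Finset.mem_filter.1 hz).1⟩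
  have k2 : Continuous fun p : ℝ × ℝ => (p.1 - p.2) * |p.1 - p.2| := by fun_prop
  have cD := continuous_DD T
  have cD' := continuous_DD T'
  have cDu : ∀ v : ℝ, Continuous fun u : ℝ => DD T u * ((v - u) * |v - u|) := by
    intro v
    fun_prop
  have cU : Continuous fun v : ℝ => ∫ u in (z0 : ℝ)..M, u * ((v - u) * |v - u|) := by
    refine cont_inner (F := fun v u : ℝ => u * ((v - u) * |v - u|)) ?_ _ _
    have : Continuous fun p : ℝ × ℝ => p.2 * ((p.1 - p.2) * |p.1 - p.2|) := by fun_prop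
    exact this
  have cV : Continuous fun v : ℝ => ∫ u in (z0 : ℝ)..M, DD T u * ((v - u) * |v - u|) := by
    refine cont_inner (F := fun v u : ℝ => DD T u * ((v - u) * |v - u|)) ?_ _ _
    have : Continuous fun p : ℝ × ℝ => DD T p.2 * ((p.1 - p.2) * |p.1 - p.2|) := by fun_prop
    exact this
  -- the inner integral
  have e1 : ∀ v : ℝ, ∫ u in (z0 : ℝ)..M,
      (r1 * u - c * DD T u) * (-(c * (DD T' v - DD T v))) * ((v - u) * |v - u|) =
      (-(c * r1)) * (DD T' v * ∫ u in (z0 : ℝ)..M, u * ((v - u) * |v - u|)) +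
      (c * r1) * (DD T v * ∫ u in (z0 : ℝ)..M, u * ((v - u) * |v - u|)) +
      c ^ 2 * (DD T' v * ∫ u in (z0 : ℝ)..M, DD T u * ((v - u) * |v - u|)) +
      (-(c ^ 2)) * (DD T v * ∫ u in (z0 : ℝ)..M, DD T u * ((v - u) * |v - u|)) := by
    intro v
    have e2 : ∀ u : ℝ, (r1 * u - c * DD T u) * (-(c * (DD T' v - DD T v))) *
        ((v - u) * |v - u|) = (-(c * r1) * (DD T' v - DD T v)) * (u * ((v - u) * |v - u|)) +
        (c ^ 2 * (DD T' v - DD T v)) * (DD T u * ((v - u) * |v - u|)) + 0 * (0 : ℝ) := by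
      intro u
      ring
    simp_rw [e2]
    rw [lin3 (F0 := fun u : ℝ => u * ((v - u) * |v - u|))
      (F1 := fun u : ℝ => DD T u * ((v - u) * |v - u|)) (F2 := fun _ => (0 : ℝ))
      (by fun_prop) (cDu v) continuous_const]
    ring
  simp_rw [e1]
  rw [lin4 (F0 := fun v => DD T' v * ∫ u in (z0 : ℝ)..M, u * ((v - u) * |v - u|))
    (F1 := fun v => DD T v * ∫ u in (z0 : ℝ)..M, u * ((v - u) * |v - u|))
    (F2 := fun v => DD T' v * ∫ u in (z0 : ℝ)..M, DD T u * ((v - u) * |v - u|))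
    (F3 := fun v => DD T v * ∫ u in (z0 : ℝ)..M, DD T u * ((v - u) * |v - u|))
    (cD'.mul cU) (cD.mul cU) (cD'.mul cV) (cD.mul cV)]
  -- the two linear terms
  have e3 : ∫ v in (z0 : ℝ)..M, DD T' v * (∫ u in (z0 : ℝ)..M, u * ((v - u) * |v - u|)) =
      ∫ v in (z0 : ℝ)..M, DD T v * ∫ u in (z0 : ℝ)..M, u * ((v - u) * |v - u|) := by
    have h := lin_DD_eq f1 f2 hp
    have g1 : ∀ U : Finset ℕ, ∫ v in (z0 : ℝ)..M, DD U v *
        (∫ u in (z0 : ℝ)..M, u * ((v - u) * |v - u|)) = ∫ v in (z0 : ℝ)..M,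
        DD (U.filter (z0 ≤ ·)) v * ∫ u in (z0 : ℝ)..M, u * ((v - u) * |v - u|) := by
      intro U
      refine intervalIntegral.integral_congr fun v hv => ?_
      rw [Set.uIcc_of_le hz] at hv
      rw [DD_filter hv.1]
    rw [g1 T', g1 T]
    exact h.symm
  -- the diagonal term
  have e4 : ∫ v in (z0 : ℝ)..M, DD T v * (∫ u in (z0 : ℝ)..M, DD T u * ((v - u) * |v - u|)) =
      0 := by
    have h := skew_zero (k := fun x y : ℝ => (y - x) * |y - x|)
      (by
        have : Continuous fun p : ℝ × ℝ => (p.2 - p.1) * |p.2 - p.1| := by fun_prop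
        exact this)
      (fun x y => by
        rw [abs_sub_comm]
        ring) cD z0 M
    rw [← h]
    refine intervalIntegral.integral_congr fun v _ => ?_
    rw [intervalIntegral.integral_const_mul]
  -- the main term
  have e5 : ∫ v in (z0 : ℝ)..M, DD T' v * (∫ u in (z0 : ℝ)..M, DD T u * ((v - u) * |v - u|)) =
      (US 6 (T.filter (z0 ≤ ·)) (T'.filter (z0 ≤ ·)) : ℝ) / 360 := by
    rw [← dd6 f1 f2 hp]
    refine intervalIntegral.integral_congr fun v hv => ?_
    rw [Set.uIcc_of_le hz] at hv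
    rw [← intervalIntegral.integral_const_mul]
    refine intervalIntegral.integral_congr fun u hu => ?_
    rw [Set.uIcc_of_le hz] at hu
    rw [DD_filter (T := T') hv.1, DD_filter (T := T) hu.1]
    ring
  rw [e3, e4, e5]
  ring

/-! ## The coded region in the coordinates `x = a + h u` -/

/-- change of variables -/
lemma to_uv {a h : ℝ} {F G : ℝ → ℝ} {M z0 : ℕ} (hh : 0 < h) :
    ∫ y in (a + h * z0)..(a + h * M), G y * ∫ x in (a + h * z0)..(a + h * M),
        F x * ((y - x) * |y - x|) =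
      h ^ 4 * ∫ v in (z0 : ℝ)..M, ∫ u in (z0 : ℝ)..M,
        F (a + h * u) * G (a + h * v) * ((v - u) * |v - u|) := by
  rw [← intervalIntegral.mul_integral_comp_add_mul (c := h) (d := a)
    (f := fun y => G y * ∫ x in (a + h * z0)..(a + h * M), F x * ((y - x) * |y - x|))]
  have e1 : ∀ v : ℝ, ∫ x in (a + h * z0)..(a + h * M), F x * ((a + h * v - x) * |a + h * v - x|) =
      h ^ 3 * ∫ u in (z0 : ℝ)..M, F (a + h * u) * ((v - u) * |v - u|) := by
    intro v
    rw [← intervalIntegral.mul_integral_comp_add_mul (c := h) (d := a)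
      (f := fun x => F x * ((a + h * v - x) * |a + h * v - x|)),
      show h ^ 3 = h * h ^ 2 by ring, mul_assoc, ← intervalIntegral.integral_const_mul (h ^ 2)]
    congr 1
    refine intervalIntegral.integral_congr fun u _ => ?_
    have e2 : a + h * v - (a + h * u) = h * (v - u) := by ring
    rw [e2, abs_mul, abs_of_pos hh]
    ring
  simp_rw [e1]
  rw [show h ^ 4 = h * h ^ 3 by ring, mul_assoc, ← intervalIntegral.integral_const_mul (h ^ 3)]
  congr 1
  refine intervalIntegral.integral_congr fun v _ => ?_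
  rw [← intervalIntegral.integral_const_mul, ← intervalIntegral.integral_const_mul,
    ← intervalIntegral.integral_const_mul]
  refine intervalIntegral.integral_congr fun u _ => ?_
  ring

/-- a bounded perturbation of the bilinear term -/
lemma perturb {M z0 : ℕ} (hzM : z0 ≤ M) {A B : ℝ → ℝ → ℝ}
    (hA : Continuous (Function.uncurry A)) (hB : Continuous (Function.uncurry B)) {e : ℝ}
    (h : ∀ u v : ℝ, (z0 : ℝ) ≤ u → u ≤ M → (z0 : ℝ) ≤ v → v ≤ M → |A v u - B v u| ≤ e) :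
    |(∫ v in (z0 : ℝ)..M, ∫ u in (z0 : ℝ)..M, A v u * ((v - u) * |v - u|)) -
      ∫ v in (z0 : ℝ)..M, ∫ u in (z0 : ℝ)..M, B v u * ((v - u) * |v - u|)| ≤
      e * (M : ℝ) ^ 4 := by
  have hz : (z0 : ℝ) ≤ M := Nat.cast_le.2 hzM
  have hz0 : (0 : ℝ) ≤ z0 := Nat.cast_nonneg _
  have he : 0 ≤ e := (abs_nonneg _).trans (h z0 z0 le_rfl hz le_rfl hz)
  have hA' : Continuous fun p : ℝ × ℝ => A p.1 p.2 := hA
  have hB' : Continuous fun p : ℝ × ℝ => B p.1 p.2 := hB
  have cA : Continuous fun v : ℝ => ∫ u in (z0 : ℝ)..M, A v u * ((v - u) * |v - u|) := by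
    refine cont_inner (F := fun v u : ℝ => A v u * ((v - u) * |v - u|)) ?_ _ _
    have : Continuous fun p : ℝ × ℝ => A p.1 p.2 * ((p.1 - p.2) * |p.1 - p.2|) := by fun_prop
    exact this
  have cB : Continuous fun v : ℝ => ∫ u in (z0 : ℝ)..M, B v u * ((v - u) * |v - u|) := by
    refine cont_inner (F := fun v u : ℝ => B v u * ((v - u) * |v - u|)) ?_ _ _
    have : Continuous fun p : ℝ × ℝ => B p.1 p.2 * ((p.1 - p.2) * |p.1 - p.2|) := by fun_prop
    exact this
  have cAu : ∀ v : ℝ, Continuous fun u : ℝ => A v u * ((v - u) * |v - u|) := by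
    intro v
    have h1 : Continuous fun u : ℝ => A v u := hA'.comp (by fun_prop : Continuous fun u : ℝ => (v, u))
    fun_prop
  have cBu : ∀ v : ℝ, Continuous fun u : ℝ => B v u * ((v - u) * |v - u|) := by
    intro v
    have h1 : Continuous fun u : ℝ => B v u := hB'.comp (by fun_prop : Continuous fun u : ℝ => (v, u))
    fun_prop
  rw [← intervalIntegral.integral_sub (cA.intervalIntegrable _ _) (cB.intervalIntegrable _ _)]
  refine (abs_int_le hz (C := e * (M : ℝ) ^ 2 * ((M : ℝ) - z0)) fun v hv hvM => ?_).trans ?_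
  · rw [← intervalIntegral.integral_sub ((cAu v).intervalIntegrable _ _)
      ((cBu v).intervalIntegrable _ _)]
    refine abs_int_le hz fun u hu huM => ?_
    rw [← sub_mul, abs_mul, abs_mul, abs_abs]
    have h1 : |v - u| ≤ M := by
      rw [abs_le]
      constructor <;> linarith
    calc |A v u - B v u| * (|v - u| * |v - u|) ≤ e * ((M : ℝ) * M) := by
          refine mul_le_mul (h u v hu huM hv hvM) ?_ (by positivity) he
          exact mul_le_mul h1 h1 (abs_nonneg _) (Nat.cast_nonneg _)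
      _ = e * (M : ℝ) ^ 2 := by ring
  · have h1 : (M : ℝ) - z0 ≤ M := by linarith
    have h2 : 0 ≤ (M : ℝ) - z0 := by linarith
    have h3 : ((M : ℝ) - z0) * ((M : ℝ) - z0) ≤ (M : ℝ) * M := mul_le_mul h1 h1 h2 (Nat.cast_nonneg _)
    calc e * (M : ℝ) ^ 2 * ((M : ℝ) - z0) * ((M : ℝ) - z0) =
          e * (M : ℝ) ^ 2 * (((M : ℝ) - z0) * ((M : ℝ) - z0)) := by ring
      _ ≤ e * (M : ℝ) ^ 2 * ((M : ℝ) * M) := mul_le_mul_of_nonneg_left h3 (by positivity)
      _ = e * (M : ℝ) ^ 4 := by ring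

/-- **the quadratic kernel** -/
theorem ker_q_core {a h eta kp r0 r1 : ℝ} {K M z0 : ℕ} (st : Std a h eta K M) (hzM : z0 ≤ M)
    {T T' : Finset ℕ} (hTM : ∀ z ∈ T, z ≤ M) (hTM' : ∀ z ∈ T', z ≤ M) (hTK : T.card ≤ K)
    (hTK' : T'.card ≤ K)
    (hp : ∀ i ≤ 6, ∑ z ∈ T with z0 ≤ z, (z : ℤ) ^ i = ∑ z ∈ T' with z0 ≤ z, (z : ℤ) ^ i)
    {f g : ℝ → ℝ} (hf : Continuous f) (hg : Continuous g)
    (hf1 : ∀ x, 0 ≤ x → x ≤ 1 → |f x| ≤ 1)
    (hout : ∀ x, 0 ≤ x → x ≤ 1 → (x ≤ a ∨ a + h * M ≤ x) → |f x - g x| ≤ 100 * eta ^ 7)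
    (hcut : ∀ j ≤ 3, |∫ x in (a + h * z0)..(a + h * M), (f x - g x) * (x - (a + h * z0)) ^ j| ≤
      200 * eta ^ 7)
    (hcut0 : |∫ x in (0 : ℝ)..(a + h * z0), (f x - g x)| ≤ 200 * eta ^ 7)
    (hk0 : 0 ≤ kp) (hk1 : kp ≤ 1) (hr0 : 0 ≤ r0) (hr1 : r0 ≤ 1) (hr : |r1| ≤ 2 * h * K)
    (hlf : ∀ u : ℝ, 0 ≤ u → u ≤ M → |f (a + h * u) - (r0 + r1 * u - kp * h * DD T u)| ≤
      100 * eta ^ 2)
    (hlg : ∀ u : ℝ, 0 ≤ u → u ≤ M → |g (a + h * u) - (r0 + r1 * u - kp * h * DD T' u)| ≤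
      100 * eta ^ 2)
    {al : ℝ} (hal : al = a + h * z0 ∨ (al = 0 ∧ z0 = 0)) :
    |Kq al f g - kp ^ 2 * h ^ 6 *
        (US 6 (T.filter (z0 ≤ ·)) (T'.filter (z0 ≤ ·)) : ℝ) / 360|
        ≤ 10 ^ 4 * eta ^ 3 * (h * M) ^ 4 + 10 ^ 4 * eta ^ 7 := by
  obtain ⟨ha, hh, haK, hK9, hM1, hE, hE1, hMa⟩ := st
  have hz : (z0 : ℝ) ≤ M := Nat.cast_le.2 hzM
  have hz0 : (0 : ℝ) ≤ z0 := Nat.cast_nonneg _
  have hM0 : (0 : ℝ) ≤ M := Nat.cast_nonneg _
  have hK0 : (9 : ℝ) ≤ K := by exact_mod_cast hK9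
  have hM1' : (1 : ℝ) ≤ M := by exact_mod_cast hM1
  have ha1 : a ≤ 1 / 450 := by nlinarith
  have hE0 : 0 ≤ eta := by
    rw [← hE]
    positivity
  -- the coded region
  obtain ⟨s, hs⟩ : ∃ s, s = a + h * z0 := ⟨_, rfl⟩
  obtain ⟨b, hb⟩ : ∃ b, b = a + h * M := ⟨_, rfl⟩
  have hs0 : 0 ≤ s := by
    rw [hs]
    positivity
  have hsb : s ≤ b := by
    rw [hs, hb]
    have := mul_le_mul_of_nonneg_left hz hh.le
    linarith
  have hb1 : b ≤ 1 := by
    rw [hb]
    linarith
  have hs1 : s ≤ 1 := hsb.trans hb1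
  have hal0 : 0 ≤ al := by
    rcases hal with h1 | ⟨h1, _⟩
    · rw [h1, ← hs]
      exact hs0
    · rw [h1]
  have hals : al ≤ s := by
    rcases hal with h1 | ⟨h1, _⟩
    · rw [h1, ← hs]
    · rw [h1]
      exact hs0
  have hal1 : al ≤ 1 := hals.trans hs1
  rw [← hs, ← hb] at hcut
  rw [← hs] at hcut0
  rw [← hb] at hout
  set D : ℝ → ℝ := fun y => g y - f y with hD
  have cD : Continuous D := hg.sub hf
  have hmom : ∀ j ≤ 3, |∫ y in s..b, D y * (y - s) ^ j| ≤ 200 * eta ^ 7 := by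
    intro j hj
    have e1 : ∫ y in s..b, D y * (y - s) ^ j = -∫ x in s..b, (f x - g x) * (x - s) ^ j := by
      rw [← intervalIntegral.integral_neg]
      refine intervalIntegral.integral_congr fun x _ => ?_
      simp only [hD]
      ring
    rw [e1, abs_neg]
    exact hcut j hj
  -- the inner integral
  set Q : ℝ → ℝ := fun y => ∫ x in (0 : ℝ)..1, f x * kq al x y with hQ
  have hkc : Continuous fun p : ℝ × ℝ => kq al p.1 p.2 := continuous_kq al
  have hkc2 : Continuous fun p : ℝ × ℝ => kq al p.2 p.1 := hkc.comp continuous_swap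
  have hkx : ∀ y : ℝ, Continuous fun x : ℝ => f x * kq al x y := by
    intro y
    have h1 : Continuous fun x : ℝ => kq al x y :=
      hkc.comp (by fun_prop : Continuous fun x : ℝ => (x, y))
    fun_prop
  have hFc : Continuous (Function.uncurry fun y x : ℝ => f x * kq al x y) := by
    have : Continuous fun p : ℝ × ℝ => f p.2 * kq al p.2 p.1 := by fun_prop
    exact this
  have cQ : ∀ p q : ℝ, Continuous fun y : ℝ => ∫ x in p..q, f x * kq al x y :=
    fun p q => cont_inner hFc p q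
  have hQ1 : ∀ y, 0 ≤ y → y ≤ 1 → |Q y| ≤ 1 := by
    intro y hy0 hy1
    refine (abs_int_le zero_le_one (C := 1) fun x hx hx1 => ?_).trans (by norm_num)
    rw [abs_mul]
    exact mul_le_one₀ (hf1 x hx hx1) (abs_nonneg _) (abs_kq_le hal0 hal1 hx1 hy1)
  have hKq : Kq al f g = ∫ y in (0 : ℝ)..1, D y * Q y := Kq_diff hf hg al
  have cDQ : Continuous fun y => D y * Q y := cD.mul (cQ 0 1)
  have hsplit : ∫ y in (0 : ℝ)..1, D y * Q y = (∫ y in (0 : ℝ)..s, D y * Q y) +
      (∫ y in s..b, D y * Q y) + ∫ y in b..1, D y * Q y := by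
    rw [intervalIntegral.integral_add_adjacent_intervals (cDQ.intervalIntegrable _ _)
      (cDQ.intervalIntegrable _ _), intervalIntegral.integral_add_adjacent_intervals
      (cDQ.intervalIntegrable _ _) (cDQ.intervalIntegrable _ _)]
  -- the outer regions
  have hR : |∫ y in b..1, D y * Q y| ≤ 100 * eta ^ 7 := by
    refine (abs_int_le hb1 (C := 100 * eta ^ 7) fun y hy hy1 => ?_).trans ?_
    · have hy0 : 0 ≤ y := by linarith
      rw [abs_mul]
      have h1 : |D y| ≤ 100 * eta ^ 7 := by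
        have := hout y hy0 hy1 (Or.inr hy)
        rw [abs_sub_comm] at this
        exact this
      calc |D y| * |Q y| ≤ (100 * eta ^ 7) * 1 :=
            mul_le_mul h1 (hQ1 y hy0 hy1) (abs_nonneg _) (by positivity)
        _ = 100 * eta ^ 7 := mul_one _
    · have : 0 ≤ 100 * eta ^ 7 := by positivity
      nlinarith
  have hL : |∫ y in (0 : ℝ)..s, D y * Q y| ≤ 200 * eta ^ 7 := by
    rcases hal with h1 | ⟨h1, h2⟩
    · have e1 : ∫ y in (0 : ℝ)..s, D y * Q y = Q al * -∫ x in (0 : ℝ)..s, (f x - g x) := by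
        rw [← intervalIntegral.integral_neg, ← intervalIntegral.integral_const_mul]
        refine intervalIntegral.integral_congr fun y hy => ?_
        rw [Set.uIcc_of_le hs0] at hy
        have e2 : Q y = Q al := by
          have e3 : max y al = al := by
            rw [h1, ← hs]
            exact max_eq_right hy.2
          simp only [hQ]
          refine intervalIntegral.integral_congr fun x _ => ?_
          unfold kq
          rw [e3, max_self]
        rw [e2]
        simp only [hD]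
        ring
      rw [e1, abs_mul, abs_neg]
      calc |Q al| * |∫ x in (0 : ℝ)..s, (f x - g x)| ≤ 1 * (200 * eta ^ 7) :=
            mul_le_mul (hQ1 al hal0 hal1) hcut0 (abs_nonneg _) zero_le_one
        _ = 200 * eta ^ 7 := one_mul _
    · have hsa : s = a := by
        rw [hs, h2]
        simp
      refine (abs_int_le hs0 (C := 100 * eta ^ 7) fun y hy hy1 => ?_).trans ?_
      · rw [abs_mul]
        have h1 : |D y| ≤ 100 * eta ^ 7 := by
          have := hout y hy (hy1.trans hs1) (Or.inl (hsa ▸ hy1))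
          rw [abs_sub_comm] at this
          exact this
        calc |D y| * |Q y| ≤ (100 * eta ^ 7) * 1 :=
              mul_le_mul h1 (hQ1 y hy (hy1.trans hs1)) (abs_nonneg _) (by positivity)
          _ = 100 * eta ^ 7 := mul_one _
      · have : 0 ≤ 100 * eta ^ 7 := by positivity
        nlinarith
  -- the coded region
  have hQs : ∀ y : ℝ, Q y = (∫ x in (0 : ℝ)..s, f x * kq al x y) +
      (∫ x in s..b, f x * kq al x y) + ∫ x in b..1, f x * kq al x y := by
    intro y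
    rw [intervalIntegral.integral_add_adjacent_intervals ((hkx y).intervalIntegrable _ _)
      ((hkx y).intervalIntegrable _ _), intervalIntegral.integral_add_adjacent_intervals
      ((hkx y).intervalIntegrable _ _) ((hkx y).intervalIntegrable _ _)]
  have hmidsplit : ∫ y in s..b, D y * Q y =
      (∫ y in s..b, D y * ∫ x in (0 : ℝ)..s, f x * kq al x y) +
      (∫ y in s..b, D y * ∫ x in b..1, f x * kq al x y) +
      (r0 * (∫ y in s..b, D y * ∫ x in s..b, ((y - x) * |y - x|)) +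
      ∫ y in s..b, D y * ∫ x in s..b, (f x - r0) * ((y - x) * |y - x|)) := by
    have c1 : Continuous fun y => D y * ∫ x in (0 : ℝ)..s, f x * kq al x y := cD.mul (cQ 0 s)
    have c2 : Continuous fun y => D y * ∫ x in b..1, f x * kq al x y := cD.mul (cQ b 1)
    have c3 : Continuous fun y : ℝ => D y * ∫ x in s..b, ((y - x) * |y - x|) := by
      refine cD.mul (cont_inner (F := fun y x : ℝ => ((y - x) * |y - x|)) ?_ _ _)
      have : Continuous fun p : ℝ × ℝ => ((p.1 - p.2) * |p.1 - p.2|) := by fun_prop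
      exact this
    have c4 : Continuous fun y : ℝ => D y * ∫ x in s..b, (f x - r0) * ((y - x) * |y - x|) := by
      refine cD.mul (cont_inner (F := fun y x : ℝ => (f x - r0) * ((y - x) * |y - x|)) ?_ _ _)
      have : Continuous fun p : ℝ × ℝ => (f p.2 - r0) * ((p.1 - p.2) * |p.1 - p.2|) := by fun_prop
      exact this
    have h1 := lin4 c1 c2 c3 c4 1 1 r0 1 s b
    rw [one_mul, one_mul, one_mul] at h1
    rw [← add_assoc, ← h1]
    refine intervalIntegral.integral_congr fun y hy => ?_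
    rw [Set.uIcc_of_le hsb] at hy
    rw [hQs y]
    have e1 : ∫ x in s..b, f x * kq al x y = r0 * (∫ x in s..b, ((y - x) * |y - x|)) +
        ∫ x in s..b, (f x - r0) * ((y - x) * |y - x|) := by
      rw [← intervalIntegral.integral_const_mul]
      have j1 : Continuous fun x : ℝ => r0 * ((y - x) * |y - x|) := by fun_prop
      have j2 : Continuous fun x : ℝ => (f x - r0) * ((y - x) * |y - x|) := by fun_prop
      rw [← intervalIntegral.integral_add (j1.intervalIntegrable _ _) (j2.intervalIntegrable _ _)]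
      refine intervalIntegral.integral_congr fun x hx => ?_
      rw [Set.uIcc_of_le hsb] at hx
      rw [kq_in (hals.trans hx.1) (hals.trans hy.1)]
      ring
    rw [e1]
    ring
  have hP1 := part_left cD hf hal0 hals hs0 hs1 hsb hf1 hmom
  have hP2 := part_right cD hf hals hs0 hsb hb1 hf1 hmom
  have hP3 := part_mid cD hs0 hsb hb1 hmom
  have hP3' : |r0 * ∫ y in s..b, D y * ∫ x in s..b, ((y - x) * |y - x|)| ≤
      1 * (3 * (200 * eta ^ 7)) := by
    rw [abs_mul, abs_of_nonneg hr0]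
    exact mul_le_mul hr1 hP3 (abs_nonneg _) zero_le_one
  -- the main part
  have hJ : ∫ y in s..b, D y * ∫ x in s..b, (f x - r0) * ((y - x) * |y - x|) =
      h ^ 4 * ∫ v in (z0 : ℝ)..M, ∫ u in (z0 : ℝ)..M,
        (f (a + h * u) - r0) * D (a + h * v) * ((v - u) * |v - u|) := by
    rw [hs, hb]
    exact to_uv (F := fun x => f x - r0) (G := D) hh
  obtain ⟨c, hc⟩ : ∃ c, c = kp * h := ⟨_, rfl⟩
  have hc0 : 0 ≤ c := by
    rw [hc]
    positivity
  have hch : c ≤ h := by
    rw [hc]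
    nlinarith
  have hcKM : c * (K * M) ≤ eta / 2 := by
    have : h * (K * M) = eta / 2 := by
      rw [← hE]
      ring
    rw [← this]
    exact mul_le_mul_of_nonneg_right hch (by positivity)
  have hmain := main_bilin hzM hTM hTM' hp r1 c
  have hpert := perturb hzM
    (A := fun v u => (f (a + h * u) - r0) * D (a + h * v))
    (B := fun v u => (r1 * u - c * DD T u) * (-(c * (DD T' v - DD T v)))) (e := 600 * eta ^ 3)
    (by
      have : Continuous fun p : ℝ × ℝ => (f (a + h * p.2) - r0) * D (a + h * p.1) := by fun_prop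
      exact this)
    (by
      have k1 := continuous_DD T
      have k2 := continuous_DD T'
      have : Continuous fun p : ℝ × ℝ => (r1 * p.2 - c * DD T p.2) *
        (-(c * (DD T' p.1 - DD T p.1))) := by fun_prop
      exact this)
    (by
      intro u v hu huM hv hvM
      have hu0 : 0 ≤ u := hz0.trans hu
      have hv0 : 0 ≤ v := hz0.trans hv
      have a1 := hlf u hu0 huM
      have a2 := hlf v hv0 hvM
      have a3 := hlg v hv0 hvM
      have d1 := DD_nonneg T u
      have d2 := DD_nonneg T v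
      have d3 := DD_nonneg T' v
      have d4 := DD_le hTM hTK hu0
      have d5 := DD_le hTM hTK hv0
      have d6 := DD_le hTM' hTK' hv0
      rw [← hc] at a1 a2 a3
      obtain ⟨E1, hE1'⟩ : ∃ E, E = f (a + h * u) - (r0 + r1 * u - c * DD T u) := ⟨_, rfl⟩
      obtain ⟨E2, hE2'⟩ : ∃ E, E = g (a + h * v) - (r0 + r1 * v - c * DD T' v) -
        (f (a + h * v) - (r0 + r1 * v - c * DD T v)) := ⟨_, rfl⟩
      have b1 : |E1| ≤ 100 * eta ^ 2 := by rw [hE1']; exact a1
      have b2 : |E2| ≤ 200 * eta ^ 2 := by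
        rw [hE2']
        refine (abs_sub _ _).trans ?_
        linarith
      have e1 : f (a + h * u) - r0 = (r1 * u - c * DD T u) + E1 := by rw [hE1']; ring
      have e2 : D (a + h * v) = -(c * (DD T' v - DD T v)) + E2 := by
        simp only [hD]
        rw [hE2']
        ring
      rw [e1, e2]
      have e3 : (r1 * u - c * DD T u + E1) * (-(c * (DD T' v - DD T v)) + E2) -
          (r1 * u - c * DD T u) * (-(c * (DD T' v - DD T v))) =
          (r1 * u - c * DD T u) * E2 + E1 * (-(c * (DD T' v - DD T v)) + E2) := by ring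
      rw [e3]
      have g1 : c * DD T u ≤ eta / 2 := (mul_le_mul_of_nonneg_left d4 hc0).trans hcKM
      have g2 : c * DD T v ≤ eta / 2 := (mul_le_mul_of_nonneg_left d5 hc0).trans hcKM
      have g3 : c * DD T' v ≤ eta / 2 := (mul_le_mul_of_nonneg_left d6 hc0).trans hcKM
      have g1' : 0 ≤ c * DD T u := mul_nonneg hc0 d1
      have g2' : 0 ≤ c * DD T v := mul_nonneg hc0 d2
      have g3' : 0 ≤ c * DD T' v := mul_nonneg hc0 d3
      have g4 : |r1 * u| ≤ eta := by
        rw [abs_mul, abs_of_nonneg hu0, ← hE]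
        calc |r1| * u ≤ (2 * h * K) * M := mul_le_mul hr huM hu0 (by positivity)
          _ = 2 * h * K * M := rfl
      have g5 : |r1 * u - c * DD T u| ≤ 2 * eta := by
        refine (abs_sub _ _).trans ?_
        rw [abs_of_nonneg g1']
        linarith
      have g6 : |-(c * (DD T' v - DD T v)) + E2| ≤ 2 * eta := by
        refine (abs_add_le _ _).trans ?_
        have g7 : |-(c * (DD T' v - DD T v))| ≤ eta / 2 := by
          rw [abs_neg, abs_le]
          constructor <;> linarith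
        have g8 : 200 * eta ^ 2 ≤ eta := by nlinarith
        linarith
      refine (abs_add_le _ _).trans ?_
      rw [abs_mul, abs_mul]
      have g9 : |r1 * u - c * DD T u| * |E2| ≤ (2 * eta) * (200 * eta ^ 2) :=
        mul_le_mul g5 b2 (abs_nonneg _) (by positivity)
      have g10 : |E1| * |-(c * (DD T' v - DD T v)) + E2| ≤ (100 * eta ^ 2) * (2 * eta) :=
        mul_le_mul b1 g6 (abs_nonneg _) (by positivity)
      have g12 : 2 * eta * (200 * eta ^ 2) + 100 * eta ^ 2 * (2 * eta) = 600 * eta ^ 3 := by ring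
      linarith)
  rw [hmain] at hpert
  obtain ⟨I, hI⟩ : ∃ I, I = ∫ v in (z0 : ℝ)..M, ∫ u in (z0 : ℝ)..M,
      (f (a + h * u) - r0) * D (a + h * v) * ((v - u) * |v - u|) := ⟨_, rfl⟩
  obtain ⟨W, hW⟩ : ∃ W : ℝ, W = (US 6 (T.filter (z0 ≤ ·)) (T'.filter (z0 ≤ ·)) : ℝ) := ⟨_, rfl⟩
  have hp1 : |h ^ 4 * I - kp ^ 2 * h ^ 6 * W / 360| ≤ 600 * eta ^ 3 * (h * M) ^ 4 := by
    have e1 : h ^ 4 * I - kp ^ 2 * h ^ 6 * W / 360 = h ^ 4 * (I - c ^ 2 * W / 360) := by
      rw [hc]
      ring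
    rw [e1, abs_mul, abs_of_pos (by positivity : 0 < h ^ 4)]
    have h1 : |I - c ^ 2 * W / 360| ≤ 600 * eta ^ 3 * (M : ℝ) ^ 4 := by
      rw [hI, hW]
      exact hpert
    calc h ^ 4 * |I - c ^ 2 * W / 360| ≤ h ^ 4 * (600 * eta ^ 3 * (M : ℝ) ^ 4) :=
          mul_le_mul_of_nonneg_left h1 (by positivity)
      _ = 600 * eta ^ 3 * (h * M) ^ 4 := by ring
  rw [hJ, ← hI] at hmidsplit
  rw [hKq, hsplit, hmidsplit, ← hW]
  have hE7 : 0 ≤ eta ^ 7 := by positivity
  have hE34 : 0 ≤ eta ^ 3 * (h * M) ^ 4 := by positivity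
  have e9 : 600 * eta ^ 3 * (h * M) ^ 4 = 600 * (eta ^ 3 * (h * M) ^ 4) := by ring
  have e10 : 10 ^ 4 * eta ^ 3 * (h * M) ^ 4 = 10 ^ 4 * (eta ^ 3 * (h * M) ^ 4) := by ring
  rw [e9] at hp1
  rw [e10]
  rw [abs_le] at hL hR hP1 hP2 hP3' hp1 ⊢
  constructor
  · linarith [hL.1, hR.1, hP1.1, hP2.1, hP3'.1, hp1.1]
  · linarith [hL.2, hR.2, hP1.2, hP2.2, hP3'.2, hp1.2]

end Pool.Agent.T1K.KQ
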