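import Mathlib
import Pool.Agent.T1K.Avg
import Pool.Agent.T1K.Stars

/-!
# Laws of single members of the groups: densities, clock events, extra elements
-/

set_option autoImplicit false

namespace Pool.Agent.T1K

open MeasureTheory Set Pool.Agent.Helper73.KS

/-- the member `e` of the group has the (unnormalised) density `f` at the clock position `τ` -/
def HasDens {Gd Γ : Type} [Fintype Γ] (D : GData Gd Γ) (τ : Gd → ℝ) (e : Γ) (f : ℝ → ℝ) : Prop :=
  ((PV Γ).restrict (fb D τ)).map (fun y => y e) =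
    (volume.restrict (Icc (0 : ℝ) 1)).withDensity (fun t => ENNReal.ofReal (f t))

namespace HasDens

variable {Gd Γ : Type} [Fintype Γ] {D : GData Gd Γ} {τ : Gd → ℝ} {e : Γ} {f : ℝ → ℝ}

theorem congr (h : HasDens D τ e f) {g : ℝ → ℝ}
    (hfg : ∀ᵐ t ∂(volume.restrict (Icc (0 : ℝ) 1)), f t = g t) : HasDens D τ e g := by
  unfold HasDens at h ⊢
  rw [h]
  refine withDensity_congr_ae ?_
  filter_upwards [hfg] with t ht
  rw [ht]

/-- probability of a set of positions -/
theorem real_mem [Fintype Gd] (h : HasDens D τ e f) (h0 : ∀ t ∈ Icc (0 : ℝ) 1, 0 ≤ f t)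
    (hi : IntegrableOn f (Icc 0 1)) {A : Set ℝ} (hA : MeasurableSet A) :
    (PV Γ).real {y | y ∈ fb D τ ∧ y e ∈ A} = ∫ t in A ∩ Icc 0 1, f t := by
  have hm : Measurable fun y : Γ → ℝ => y e := measurable_pi_apply e
  have h1 : (PV Γ) {y | y ∈ fb D τ ∧ y e ∈ A} =
      ((PV Γ).restrict (fb D τ)).map (fun y => y e) A := by
    rw [Measure.map_apply hm hA, Measure.restrict_apply (hm hA)]
    congr 1
    ext y
    exact ⟨fun hy => ⟨hy.2, hy.1⟩, fun hy => ⟨hy.2, hy.1⟩⟩
  unfold HasDens at h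
  unfold Measure.real
  rw [h1, h, withDensity_apply _ hA, Measure.restrict_restrict hA,
    integral_eq_lintegral_of_nonneg_ae]
  · rw [Filter.EventuallyLE, ae_restrict_iff' (hA.inter measurableSet_Icc)]
    exact Filter.Eventually.of_forall fun t ht => h0 t ht.2
  · exact (hi.mono_set inter_subset_right).aestronglyMeasurable

/-- **Below a position.** -/
theorem real_lt [Fintype Gd] (h : HasDens D τ e f) (h0 : ∀ t ∈ Icc (0 : ℝ) 1, 0 ≤ f t)
    (hi : IntegrableOn f (Icc 0 1)) {c : ℝ} (hc : c ∈ Icc (0 : ℝ) 1) :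
    (PV Γ).real {y | y ∈ fb D τ ∧ y e < c} = ∫ t in (0 : ℝ)..c, f t := by
  have h1 := h.real_mem h0 hi (measurableSet_Iio (a := c))
  have e1 : Iio c ∩ Icc (0 : ℝ) 1 = Ico 0 c := by
    ext t
    simp only [mem_inter_iff, mem_Iio, mem_Icc, mem_Ico]
    exact ⟨fun ht => ⟨ht.2.1, ht.1⟩, fun ht => ⟨ht.2, ht.1, ht.2.le.trans hc.2⟩⟩
  rw [e1, integral_Ico_eq_integral_Ioo, ← integral_Ioc_eq_integral_Ioo] at h1
  rw [intervalIntegral.integral_of_le hc.1]
  exact h1

/-- **Above a position.** -/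
theorem real_gt [Fintype Gd] (h : HasDens D τ e f) (h0 : ∀ t ∈ Icc (0 : ℝ) 1, 0 ≤ f t)
    (hi : IntegrableOn f (Icc 0 1)) {c : ℝ} (hc : c ∈ Icc (0 : ℝ) 1) :
    (PV Γ).real {y | y ∈ fb D τ ∧ c < y e} = ∫ t in c..1, f t := by
  have h1 := h.real_mem h0 hi (measurableSet_Ioi (a := c))
  have e1 : Ioi c ∩ Icc (0 : ℝ) 1 = Ioc c 1 := by
    ext t
    simp only [mem_inter_iff, mem_Ioi, mem_Icc, mem_Ioc]
    exact ⟨fun ht => ⟨ht.1, ht.2.2⟩, fun ht => ⟨ht.1, hc.1.trans ht.1.le, ht.2⟩⟩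
  rw [e1] at h1
  rw [intervalIntegral.integral_of_le hc.2]
  exact h1

/-- the total mass -/
theorem total [Fintype Gd] (h : HasDens D τ e f) (h0 : ∀ t ∈ Icc (0 : ℝ) 1, 0 ≤ f t)
    (hi : IntegrableOn f (Icc 0 1)) : vj D τ = ∫ t in (0 : ℝ)..1, f t := by
  have h1 := h.real_mem h0 hi MeasurableSet.univ
  have e1 : {y : Γ → ℝ | y ∈ fb D τ ∧ y e ∈ (univ : Set ℝ)} = fb D τ := by
    ext y
    exact ⟨fun hy => hy.1, fun hy => ⟨hy, mem_univ _⟩⟩
  rw [e1, univ_inter, integral_Icc_eq_integral_Ioc] at h1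
  rw [intervalIntegral.integral_of_le zero_le_one]
  exact h1

end HasDens

section clock

variable {Gd J : Type} [Fintype Gd] {Γ : J → Type} [∀ j, Fintype (Γ j)]
variable (D : ∀ j, GData Gd (Γ j))

/-- **A member against a tick.** -/
theorem qOne_eq {a : J} {e : Γ a} {τ : Gd → ℝ} {f : ℝ → ℝ} (h : HasDens (D a) τ e f)
    (h0 : ∀ t ∈ Icc (0 : ℝ) 1, 0 ≤ f t) (hi : IntegrableOn f (Icc 0 1)) (g : Gd)
    (hc : τ g ∈ Icc (0 : ℝ) 1) :
    qOne D a e g τ = (∫ t in (0 : ℝ)..τ g, f t) / vj (D a) τ := by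
  unfold qOne
  rw [h.real_lt h0 hi hc]

/-- the complementary event -/
theorem one_sub_qOne {a : J} {e : Γ a} {τ : Gd → ℝ} {f : ℝ → ℝ} (h : HasDens (D a) τ e f)
    (h0 : ∀ t ∈ Icc (0 : ℝ) 1, 0 ≤ f t) (hi : IntegrableOn f (Icc 0 1)) (g : Gd)
    (hc : τ g ∈ Icc (0 : ℝ) 1) (hv : 0 < vj (D a) τ) :
    1 - qOne D a e g τ = (∫ t in τ g..1, f t) / vj (D a) τ := by
  rw [qOne_eq D h h0 hi g hc, eq_div_iff hv.ne', sub_mul, div_mul_cancel₀ _ hv.ne', one_mul]
  have h1 := h.total h0 hi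
  rw [h1]
  have hi' : ∀ a b : ℝ, a ∈ Icc (0 : ℝ) 1 → b ∈ Icc (0 : ℝ) 1 → IntervalIntegrable f volume a b := by
    intro a b ha hb
    refine (hi.mono_set ?_).intervalIntegrable
    exact uIcc_subset_Icc ha hb
  rw [← intervalIntegral.integral_add_adjacent_intervals
    (hi' 0 (τ g) ⟨le_rfl, zero_le_one⟩ hc) (hi' (τ g) 1 hc ⟨zero_le_one, le_rfl⟩)]
  ring

end clock

/-! ## The extra elements -/

open Classical in
/-- density of an extra element above the position `c` -/
noncomputable def padf (c t : ℝ) : ℝ := if c < t then 1 else 0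

theorem padf_nonneg (c t : ℝ) : 0 ≤ padf c t := by
  unfold padf
  split
  · exact zero_le_one
  · exact le_rfl

theorem padf_le_one (c t : ℝ) : padf c t ≤ 1 := by
  unfold padf
  split
  · exact le_rfl
  · exact zero_le_one

theorem meas_padf (c : ℝ) : Measurable (padf c) := by
  unfold padf
  exact Measurable.ite measurableSet_Ioi measurable_const measurable_const

theorem int_padf (c : ℝ) : IntegrableOn (padf c) (Icc 0 1) := by
  refine Measure.integrableOn_of_bounded (M := 1) ?_ (meas_padf c).aestronglyMeasurable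
    (Filter.Eventually.of_forall fun t => ?_)
  · rw [Real.volume_Icc]
    exact ENNReal.ofReal_ne_top
  · rw [Real.norm_eq_abs, abs_of_nonneg (padf_nonneg c t)]
    exact padf_le_one c t

/-- **Law of an extra element.** -/
theorem padD_dens (M z : ℕ) (τ : Gd M → ℝ) : HasDens (padD M z) τ () (padf (cc M τ z)) := by
  unfold HasDens
  have hm : Measurable fun y : Unit → ℝ => y () := measurable_pi_apply ()
  have hmp : MeasurePreserving (fun y : Unit → ℝ => y ()) (PV Unit) lam := by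
    unfold PV
    exact measurePreserving_eval (fun _ : Unit => lam) ()
  have e1 : fb (padD M z) τ = (fun y : Unit → ℝ => y ()) ⁻¹' Ici (cc M τ z) := by
    ext y
    constructor
    · rintro ⟨h2, -, -⟩
      exact h2 () _ rfl
    · intro h
      refine ⟨fun i g hg => ?_, fun i g hg => ?_, fun i j hij => hij.elim⟩
      · have e : Sum.inl (ix M z) = g := Option.some.inj hg
        rw [← e]
        exact h
      · exact absurd hg (by simp [padD])
  ext s hs
  rw [Measure.map_apply hm hs, Measure.restrict_apply (hm hs), e1, ← preimage_inter,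
    hmp.measure_preimage (hs.inter measurableSet_Ici).nullMeasurableSet, withDensity_apply _ hs]
  have e2 : (fun t => ENNReal.ofReal (padf (cc M τ z) t)) =
      (Ioi (cc M τ z)).indicator fun _ => (1 : ENNReal) := by
    funext t
    unfold padf
    by_cases h : cc M τ z < t
    · rw [if_pos h, indicator_of_mem (mem_Ioi.2 h), ENNReal.ofReal_one]
    · rw [if_neg h, indicator_of_notMem (fun h' => h (mem_Ioi.1 h')), ENNReal.ofReal_zero]
  rw [e2, lintegral_indicator measurableSet_Ioi, setLIntegral_one,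
    Measure.restrict_apply measurableSet_Ioi]
  show lam (s ∩ Ici (cc M τ z)) = lam (Ioi (cc M τ z) ∩ s)
  rw [inter_comm (Ioi (cc M τ z)) s]
  refine measure_congr (Filter.EventuallyEq.inter (Filter.EventuallyEq.refl _ _) ?_)
  unfold lam
  exact ae_restrict_of_ae (Ioi_ae_eq_Ici (μ := volume) (a := cc M τ z)).symm

end Pool.Agent.T1K
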