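import Pool.Agent.T1K.Refl
import Pool.Agent.T1K.KerT

/-!
# R8, second half: pairs with a centre, pairs with a padding element
-/

set_option autoImplicit false
set_option linter.unusedSectionVars false

open Finset MeasureTheory

namespace Pool.Agent.T1K

/-! ## Powers of the positive part -/

theorem ox_int1 {n : ℕ} (hn : 1 ≤ n) {s : ℝ} (hs : 0 ≤ s) :
    ∫ y in (0 : ℝ)..1, (max 0 (y - s)) ^ n = (max 0 (1 - s)) ^ (n + 1) / (n + 1) := by
  have hc : Continuous fun y : ℝ => (max 0 (y - s)) ^ n := by fun_prop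
  rcases le_total s 1 with h1 | h1
  · rw [← intervalIntegral.integral_add_adjacent_intervals (hc.intervalIntegrable 0 s)
      (hc.intervalIntegrable s 1)]
    have e1 : ∫ y in (0 : ℝ)..s, (max 0 (y - s)) ^ n = 0 := by
      rw [intervalIntegral.integral_congr (g := fun _ => (0 : ℝ)), intervalIntegral.integral_zero]
      intro y hy
      rw [Set.uIcc_of_le hs] at hy
      change (max 0 (y - s)) ^ n = 0
      rw [max_eq_left (by linarith [hy.2]), zero_pow (by omega)]
    have e2 : ∫ y in s..1, (max 0 (y - s)) ^ n = ∫ y in s..1, (y - s) ^ n := by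
      refine intervalIntegral.integral_congr fun y hy => ?_
      rw [Set.uIcc_of_le h1] at hy
      simp only [max_eq_right (show (0 : ℝ) ≤ y - s by linarith [hy.1])]
    rw [e1, e2, intervalIntegral.integral_comp_sub_right (fun y => y ^ n) s, integral_pow,
      sub_self, zero_pow (by omega), max_eq_right (by linarith)]
    ring
  · have e1 : ∫ y in (0 : ℝ)..1, (max 0 (y - s)) ^ n = 0 := by
      rw [intervalIntegral.integral_congr (g := fun _ => (0 : ℝ)), intervalIntegral.integral_zero]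
      intro y hy
      rw [Set.uIcc_of_le zero_le_one] at hy
      change (max 0 (y - s)) ^ n = 0
      rw [max_eq_left (by linarith [hy.2]), zero_pow (by omega)]
    rw [e1, max_eq_left (by linarith), zero_pow (by omega), zero_div]

theorem ox_int2 {n : ℕ} (hn : 1 ≤ n) {b : ℝ} (hb : 0 ≤ b) :
    ∫ x in (0 : ℝ)..1, ∫ y in (0 : ℝ)..1, (max 0 (y - x - b)) ^ n =
      (max 0 (1 - b)) ^ (n + 2) / ((n + 1) * (n + 2)) := by
  have h1 : ∀ x ∈ Set.uIcc (0 : ℝ) 1, ∫ y in (0 : ℝ)..1, (max 0 (y - x - b)) ^ n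
      = (max 0 ((1 - x) - b)) ^ (n + 1) / (n + 1) := by
    intro x hx
    rw [Set.uIcc_of_le zero_le_one] at hx
    have h2 := ox_int1 hn (s := x + b) (by linarith [hx.1])
    have h3 : ∀ y : ℝ, y - (x + b) = y - x - b := fun y => by ring
    simp only [h3] at h2
    exact h2
  rw [intervalIntegral.integral_congr h1, intervalIntegral.integral_div]
  have h4 := intervalIntegral.integral_comp_sub_left (a := 0) (b := 1)
    (fun x => (max 0 (x - b)) ^ (n + 1)) 1
  rw [sub_self, sub_zero] at h4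
  rw [h4, ox_int1 (by omega) hb]
  push_cast
  have e1 : (n : ℝ) + 1 ≠ 0 := by positivity
  have e2 : (n : ℝ) + 2 ≠ 0 := by positivity
  have e3 : (n : ℝ) + 1 + 1 ≠ 0 := by positivity
  field_simp
  ring

/-! ## The sandwich -/

theorem ox_Phi_le (c : ℕ → ℝ) (T : Finset ℕ) (x y : ℝ) : Phi c T x y ≤ (max 0 (y - x)) ^ T.card := by
  rw [Phi, ← Finset.prod_const]
  refine Finset.prod_le_prod (fun _ _ => le_max_left _ _) fun z _ => ?_
  refine max_le_max_left 0 ?_
  have := le_max_left x (c z)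
  linarith

theorem ox_W_le (c d : ℕ → ℝ) (T S : Finset ℕ) (x y : ℝ) :
    W c d T S x y ≤ (max 0 (y - x)) ^ (T.card + S.card) := by
  rw [W, pow_add]
  refine mul_le_mul (ox_Phi_le c T x y) ?_ (Phi_nonneg _ _ _ _) (by positivity)
  have h := ox_Phi_le d S (1 - y) (1 - x)
  have e : 1 - x - (1 - y) = y - x := by ring
  rwa [e] at h

theorem ox_Phi_ge {c : ℕ → ℝ} {T : Finset ℕ} {b : ℝ} (hb : 0 ≤ b) (hc : ∀ z ∈ T, c z ≤ b) {x y : ℝ}
    (hx : 0 ≤ x) : (max 0 (y - x - b)) ^ T.card ≤ Phi c T x y := by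
  rw [Phi, ← Finset.prod_const]
  refine Finset.prod_le_prod (fun _ _ => le_max_left _ _) fun z hz => ?_
  refine max_le_max_left 0 ?_
  have : max x (c z) ≤ x + b := max_le (by linarith) (by linarith [hc z hz])
  linarith

theorem ox_W_ge {c d : ℕ → ℝ} {T S : Finset ℕ} {b : ℝ} (hb : 0 ≤ b) (hc : ∀ z ∈ T, c z ≤ b)
    (hd : ∀ z ∈ S, d z ≤ b) {x y : ℝ} (hx : 0 ≤ x) (hy : y ≤ 1) :
    (max 0 (y - x - b)) ^ (T.card + S.card) ≤ W c d T S x y := by
  rw [W, pow_add]
  refine mul_le_mul (ox_Phi_ge hb hc hx) ?_ (by positivity) (Phi_nonneg _ _ _ _)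
  have h := ox_Phi_ge hb hd (x := 1 - y) (y := 1 - x) (by linarith)
  have e : 1 - x - (1 - y) - b = y - x - b := by ring
  rwa [e] at h

theorem ox_dX_le (c d : ℕ → ℝ) {T S : Finset ℕ} {n : ℕ} (hn : T.card + S.card = n) (hn1 : 1 ≤ n)
    {t : ℝ} (ht : 0 ≤ t) : dX c d T S t ≤ (max 0 (1 - t)) ^ (n + 1) / (n + 1) := by
  rw [← ox_int1 hn1 ht, dX]
  refine intervalIntegral.integral_mono_on zero_le_one ?_ ?_ fun y _ => ?_
  · exact ((continuous_W c d T S).comp (continuous_const.prodMk continuous_id)).intervalIntegrable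
      0 1
  · exact (Continuous.intervalIntegrable (by fun_prop) 0 1)
  · rw [← hn]
    exact ox_W_le c d T S t y

theorem ox_dX_le' (c d : ℕ → ℝ) {T S : Finset ℕ} {n : ℕ} (hn : T.card + S.card = n) (hn1 : 1 ≤ n)
    {t : ℝ} (ht : 0 ≤ t) : dX c d T S t ≤ 1 / (n + 1) := by
  refine (ox_dX_le c d hn hn1 ht).trans ?_
  refine div_le_div_of_nonneg_right ?_ (by positivity)
  refine pow_le_one₀ (le_max_left _ _) (max_le zero_le_one (by linarith))

theorem ox_Vol_le (c d : ℕ → ℝ) {T S : Finset ℕ} {n : ℕ} (hn : T.card + S.card = n)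
    (hn1 : 1 ≤ n) : Vol c d T S ≤ 1 / ((n + 1) * (n + 2)) := by
  have h1 := ox_int2 hn1 (b := 0) le_rfl
  simp only [sub_zero] at h1
  rw [max_eq_right zero_le_one, one_pow] at h1
  rw [← h1, Vol_eq_dX]
  refine intervalIntegral.integral_mono_on zero_le_one ((continuous_dX c d T S).intervalIntegrable
    0 1) ?_ fun x hx => ?_
  · refine Continuous.intervalIntegrable ?_ 0 1
    exact intervalIntegral.continuous_parametric_intervalIntegral_of_continuous'
      (f := fun x y : ℝ => (max 0 (y - x)) ^ n) (by fun_prop) 0 1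
  · rw [dX]
    refine intervalIntegral.integral_mono_on zero_le_one ?_ ?_ fun y _ => ?_
    · exact ((continuous_W c d T S).comp (continuous_const.prodMk continuous_id)).intervalIntegrable
        0 1
    · exact (Continuous.intervalIntegrable (by fun_prop) 0 1)
    · rw [← hn]
      exact ox_W_le c d T S x y

theorem ox_Vol_ge {c d : ℕ → ℝ} {T S : Finset ℕ} {n : ℕ} (hn : T.card + S.card = n)
    (hn1 : 1 ≤ n) {b : ℝ} (hb : 0 ≤ b) (hc : ∀ z ∈ T, c z ≤ b) (hd : ∀ z ∈ S, d z ≤ b) :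
    (max 0 (1 - b)) ^ (n + 2) / ((n + 1) * (n + 2)) ≤ Vol c d T S := by
  rw [← ox_int2 hn1 hb, Vol_eq_dX]
  refine intervalIntegral.integral_mono_on zero_le_one ?_ ((continuous_dX c d T S).intervalIntegrable
    0 1) fun x hx => ?_
  · refine Continuous.intervalIntegrable ?_ 0 1
    exact intervalIntegral.continuous_parametric_intervalIntegral_of_continuous'
      (f := fun x y : ℝ => (max 0 (y - x - b)) ^ n) (by fun_prop) 0 1
  · rw [dX]
    refine intervalIntegral.integral_mono_on zero_le_one ?_ ?_ fun y hy => ?_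
    · exact (Continuous.intervalIntegrable (by fun_prop) 0 1)
    · exact ((continuous_W c d T S).comp (continuous_const.prodMk continuous_id)).intervalIntegrable
        0 1
    · rw [← hn]
      exact ox_W_ge hb hc hd hx.1 hy.2

theorem ox_dL_le (c d : ℕ → ℝ) (T S : Finset ℕ) (z : ℕ) (t : ℝ) :
    dL c d T S z t ≤ Vol c d (T.erase z) S := by
  classical
  have h0 : dL c d T S z t = ∫ x in (0 : ℝ)..1, ∫ y in (0 : ℝ)..1, gL c d T S z t x y := rfl
  rw [h0, Vol]
  refine intervalIntegral.integral_mono_on zero_le_one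
    (intervalIntegrable_inner (measurable_gL c d T S z t) (abs_gL_le c d T S z t))
    ((continuous_dX c d (T.erase z) S).intervalIntegrable 0 1) fun x hx => ?_
  refine intervalIntegral.integral_mono_on zero_le_one ?_ ?_ fun y _ => ?_
  · have hm : Measurable fun y => gL c d T S z t x y :=
      (measurable_gL c d T S z t).comp (measurable_const.prodMk measurable_id)
    rw [intervalIntegrable_iff_integrableOn_Ioc_of_le zero_le_one]
    refine Integrable.of_bound hm.aestronglyMeasurable 1 ?_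
    rw [ae_restrict_iff' measurableSet_Ioc]
    refine Filter.Eventually.of_forall fun y hy => ?_
    rw [Real.norm_eq_abs]
    unfold gL
    split_ifs
    · rw [abs_of_nonneg (W_nonneg _ _ _ _ _ _)]
      exact W_le_one (by linarith [hx.1, hy.2])
    · simp
  · exact ((continuous_W c d (T.erase z) S).comp
      (continuous_const.prodMk continuous_id)).intervalIntegrable 0 1
  · unfold gL
    split_ifs
    · exact le_rfl
    · exact W_nonneg _ _ _ _ _ _

/-! ## The crude comparison -/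

theorem ox_crude {f g : ℝ → ℝ} (hf : IntervalIntegrable f volume 0 1)
    (hg : IntervalIntegrable g volume 0 1) (hf0 : ∀ t, 0 ≤ f t) (hg0 : ∀ t, 0 ≤ g t) {s : ℝ}
    (hs0 : 0 ≤ s) (hs1 : s ≤ 1) :
    (∫ t in (0 : ℝ)..1, f t) * (∫ t in (0 : ℝ)..1, g t)
      - 2 * (∫ t in s..1, f t) * (∫ t in (0 : ℝ)..1, g t)
      - 2 * (∫ t in (0 : ℝ)..1, f t) * (∫ t in (0 : ℝ)..s, g t) ≤ Nf f g := by
  have sub : ∀ {u : ℝ → ℝ}, IntervalIntegrable u volume 0 1 → ∀ {a b : ℝ}, 0 ≤ a → a ≤ b → b ≤ 1 →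
      IntervalIntegrable u volume a b := by
    intro u hu a b ha hab hb
    refine hu.mono_set ?_
    rw [Set.uIcc_of_le hab, Set.uIcc_of_le zero_le_one]
    exact Set.Icc_subset_Icc ha hb
  set F := ∫ t in (0 : ℝ)..1, f t with hF
  set Fs := ∫ t in s..1, f t with hFs
  have hsplit : ∀ t, 0 ≤ t → t ≤ 1 → (∫ r in (0 : ℝ)..t, f r) + ∫ r in t..1, f r = F := by
    intro t h0 h1
    exact intervalIntegral.integral_add_adjacent_intervals (sub hf le_rfl h0 h1)
      (sub hf h0 h1 le_rfl)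
  have hpos : ∀ {a b : ℝ}, a ≤ b → 0 ≤ ∫ r in a..b, f r := fun hab =>
    intervalIntegral.integral_nonneg hab fun r _ => hf0 r
  set k : ℝ → ℝ := fun t => (∫ r in (0 : ℝ)..t, f r) - ∫ r in t..1, f r with hk
  have hk1 : ∀ t, s ≤ t → t ≤ 1 → F - 2 * Fs ≤ k t := by
    intro t h0 h1
    have e1 := hsplit t (hs0.trans h0) h1
    have e2 : (∫ r in s..t, f r) + ∫ r in t..1, f r = Fs :=
      intervalIntegral.integral_add_adjacent_intervals (sub hf hs0 h0 h1)
        (sub hf (hs0.trans h0) h1 le_rfl)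
    have e3 := hpos h0
    simp only [hk]
    linarith
  have hk2 : ∀ t, 0 ≤ t → t ≤ 1 → -F ≤ k t := by
    intro t h0 h1
    have e1 := hsplit t h0 h1
    have e2 := hpos h0
    simp only [hk]
    linarith
  have hkm : IntervalIntegrable (fun t => g t * k t) volume 0 1 := by
    have hc : ContinuousOn k (Set.uIcc 0 1) := by
      have c1 : ContinuousOn (fun t => ∫ r in (0 : ℝ)..t, f r) (Set.uIcc 0 1) :=
        intervalIntegral.continuousOn_primitive_interval' hf Set.left_mem_uIcc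
      have c2 : ContinuousOn (fun t => F - ∫ r in (0 : ℝ)..t, f r) (Set.uIcc 0 1) :=
        continuousOn_const.sub c1
      refine (c1.sub c2).congr fun t ht => ?_
      rw [Set.uIcc_of_le zero_le_one] at ht
      have e1 := hsplit t ht.1 ht.2
      simp only [hk, Pi.sub_apply]
      linarith
    exact hg.mul_continuousOn hc
  have hN : Nf f g = (∫ t in (0 : ℝ)..s, g t * k t) + ∫ t in s..1, g t * k t :=
    (intervalIntegral.integral_add_adjacent_intervals (sub hkm le_rfl hs0 hs1)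
      (sub hkm hs0 hs1 le_rfl)).symm
  have hG : (∫ t in (0 : ℝ)..s, g t) + ∫ t in s..1, g t = ∫ t in (0 : ℝ)..1, g t :=
    intervalIntegral.integral_add_adjacent_intervals (sub hg le_rfl hs0 hs1)
      (sub hg hs0 hs1 le_rfl)
  have b1 : -F * (∫ t in (0 : ℝ)..s, g t) ≤ ∫ t in (0 : ℝ)..s, g t * k t := by
    rw [← intervalIntegral.integral_const_mul]
    refine intervalIntegral.integral_mono_on hs0 ((sub hg le_rfl hs0 hs1).const_mul _)
      (sub hkm le_rfl hs0 hs1) fun t ht => ?_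
    have := mul_le_mul_of_nonneg_left (hk2 t ht.1 (ht.2.trans hs1)) (hg0 t)
    linarith
  have b2 : (F - 2 * Fs) * (∫ t in s..1, g t) ≤ ∫ t in s..1, g t * k t := by
    rw [← intervalIntegral.integral_const_mul]
    refine intervalIntegral.integral_mono_on hs1 ((sub hg hs0 hs1 le_rfl).const_mul _)
      (sub hkm hs0 hs1 le_rfl) fun t ht => ?_
    have := mul_le_mul_of_nonneg_left (hk1 t ht.1 ht.2) (hg0 t)
    linarith
  have g1 : 0 ≤ ∫ t in (0 : ℝ)..s, g t := intervalIntegral.integral_nonneg hs0 fun t _ => hg0 t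
  have g2 : 0 ≤ Fs := hpos hs1
  rw [hN, ← hG]
  nlinarith [mul_nonneg g1 g2]

/-! ## Cardinalities and numbers -/

theorem ox_card_Cl (n : ℕ) (t : ZMod 3) : (Cl (n + 1) t).card = 3 ^ n := by
  induction n generalizing t with
  | zero =>
    revert t
    decide
  | succ n ih =>
    have h := sum_Cl_succ (n + 1) t (fun _ => 1)
    simp only [Finset.sum_const, smul_eq_mul, mul_one, ih] at h
    rw [h, Finset.card_range]
    ring

theorem ox_card_Bk (n : ℕ) (l : ℕ → ZMod 3) (s : ℕ) : (Bk (n + 1) l s).card = 3 ^ n := by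
  have h := sum_Bk (n + 1) l s (fun _ => 1)
  simp only [Finset.sum_const, smul_eq_mul, mul_one, ox_card_Cl] at h
  exact h

theorem ox_card_CR (n : ℕ) (l : ℕ → ZMod 3) (b : ℕ) : (CR (n + 1) l 0 b).card = b * 3 ^ n := by
  induction b with
  | zero => rw [CR_empty]; simp
  | succ b ih =>
    rw [CR_succ (Nat.zero_le b), Finset.card_union_of_disjoint, ih, ox_card_Bk]
    · ring
    · exact Finset.disjoint_left.2 fun z h3 h4 => (CR_lt_Bk z h3 z h4).ne rfl

theorem ox_card_TL (R : ℕ) (l : ℕ → ZMod 3) : (TL R l).card = Kn R := by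
  rw [TL, TS_eq, Finset.card_union_of_disjoint, ox_card_CR, Finset.card_singleton, Kn]
  rw [Finset.disjoint_singleton_right]
  intro h
  have h1 := (mem_CR.1 h).2.1
  have h2 := Mn_le R
  omega

theorem ox_mem_TL_le {R : ℕ} {l : ℕ → ZMod 3} {z : ℕ} (hz : z ∈ TL R l) : z ≤ Mn R := by
  rw [TL, TS_eq, Finset.mem_union, Finset.mem_singleton] at hz
  rcases hz with hz | hz
  · have h1 := (mem_CR.1 hz).2.1
    have h2 := Mn_le R
    omega
  · omega

theorem ox_K {R : ℕ} (hR : 1 ≤ R) : 59050 ≤ Kn R := by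
  unfold Kn
  omega

theorem ox_KM (R : ℕ) : Kn R ≤ Mn R := by
  unfold Mn
  omega

attribute [local irreducible] Kn Mn

theorem ox_h_pos {R : ℕ} (hR : 1 ≤ R) : 0 < hn R := by
  have h1 : (0 : ℝ) < Kn R := by
    have := ox_K hR
    exact_mod_cast (by omega : 0 < Kn R)
  have h2 : (0 : ℝ) < Mn R := by
    have := ox_K hR
    have := ox_KM R
    exact_mod_cast (by omega : 0 < Mn R)
  unfold hn
  positivity

/-- `h M ≤ K^(-16)` -/
theorem ox_hM {R : ℕ} (hR : 1 ≤ R) : hn R * Mn R ≤ 1 / (Kn R : ℝ) ^ 16 := by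
  have h1 : (1 : ℝ) ≤ Kn R := by
    have := ox_K hR
    exact_mod_cast (by omega : 1 ≤ Kn R)
  have h2 : (1 : ℝ) ≤ Mn R := by
    have := ox_K hR
    have := ox_KM R
    exact_mod_cast (by omega : 1 ≤ Mn R)
  unfold hn
  rw [mul_pow, one_div, one_div, mul_inv, mul_assoc]
  refine mul_le_of_le_one_right (by positivity) ?_
  rw [inv_mul_le_one₀ (by positivity)]
  exact le_self_pow₀ h2 (by norm_num)

theorem ox_h_le {R : ℕ} (hR : 1 ≤ R) : hn R ≤ 1 / (Kn R : ℝ) ^ 16 := by
  have h2 : (1 : ℝ) ≤ Mn R := by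
    have := ox_K hR
    have := ox_KM R
    exact_mod_cast (by omega : 1 ≤ Mn R)
  exact (le_mul_of_one_le_right (ox_h_pos hR).le h2).trans (ox_hM hR)

/-- the end tick: `a ≤ b`, `b ≤ (6/5) a` and `(2 K + 2) b ≤ 1/40` -/
theorem ox_b {R : ℕ} (hR : 1 ≤ R) : an R ≤ tk R (Mn R) ∧ tk R (Mn R) ≤ 6 / 5 * an R ∧
    (2 * (Kn R : ℝ) + 2) * tk R (Mn R) ≤ 1 / 40 ∧ 0 < an R ∧ tk R (Mn R) ≤ 1 / 1000000 := by
  have hK : (59050 : ℝ) ≤ Kn R := by exact_mod_cast ox_K hR
  have hK0 : (0 : ℝ) < Kn R := by linarith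
  have h1 := ox_hM hR
  have h0 : 0 ≤ hn R * Mn R := mul_nonneg (ox_h_pos hR).le (Nat.cast_nonneg _)
  have h2 : 1 / (Kn R : ℝ) ^ 16 ≤ 1 / (500 * Kn R) := by
    refine one_div_le_one_div_of_le (by positivity) ?_
    have e1 : (Kn R : ℝ) ^ 2 ≤ (Kn R : ℝ) ^ 16 := pow_le_pow_right₀ (by linarith) (by norm_num)
    nlinarith
  have ha : an R = 1 / (100 * (Kn R : ℝ)) := rfl
  have ha' : 1 / (500 * (Kn R : ℝ)) = 1 / 5 * an R := by
    rw [ha]; field_simp; norm_num
  have hapos : 0 < an R := by rw [ha]; positivity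
  have hb : tk R (Mn R) = an R + hn R * Mn R := rfl
  have hKa : (Kn R : ℝ) * an R = 1 / 100 := by
    rw [ha]; field_simp
  have ha6 : an R ≤ 1 / 5905000 := by
    rw [ha]
    exact one_div_le_one_div_of_le (by norm_num) (by linarith)
  have hb2 : tk R (Mn R) ≤ 6 / 5 * an R := by rw [hb]; linarith
  refine ⟨by rw [hb]; linarith, hb2, ?_, hapos, by linarith⟩
  have h3 : (2 * (Kn R : ℝ) + 2) * tk R (Mn R) ≤ (2 * (Kn R : ℝ) + 2) * (6 / 5 * an R) :=
    mul_le_mul_of_nonneg_left hb2 (by positivity)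
  refine h3.trans ?_
  nlinarith

theorem ox_tk_le {R : ℕ} (hR : 1 ≤ R) {z : ℕ} (hz : z ≤ Mn R) : tk R z ≤ tk R (Mn R) := by
  unfold tk
  have : (z : ℝ) ≤ Mn R := by exact_mod_cast hz
  have := mul_le_mul_of_nonneg_left this (ox_h_pos hR).le
  linarith

theorem ox_tk_ge {R : ℕ} (hR : 1 ≤ R) (z : ℕ) : an R ≤ tk R z := by
  unfold tk
  have := mul_nonneg (ox_h_pos hR).le (Nat.cast_nonneg (α := ℝ) z)
  linarith

/-- the volume of a species at the target -/
theorem ox_V {R : ℕ} (hR : 1 ≤ R) (l m : ℕ → ZMod 3) :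
    19 / 20 / ((2 * (Kn R : ℝ) + 1) * (2 * Kn R + 2)) ≤ Vol (tk R) (tk R) (TL R l) (TL R m) := by
  have hn' : (TL R l).card + (TL R m).card = 2 * Kn R := by
    rw [ox_card_TL, ox_card_TL]; ring
  obtain ⟨h1, h2, h3, h4, h5⟩ := ox_b hR
  have hK := ox_K hR
  have hK' : (59050 : ℝ) ≤ Kn R := by exact_mod_cast hK
  have h := ox_Vol_ge (c := tk R) (d := tk R) hn' (by omega) (b := tk R (Mn R)) (by linarith)
    (fun z hz => ox_tk_le hR (ox_mem_TL_le hz)) (fun z hz => ox_tk_le hR (ox_mem_TL_le hz))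
  refine le_trans ?_ h
  push_cast
  refine div_le_div_of_nonneg_right ?_ (by positivity)
  rw [max_eq_right (by linarith)]
  have hB := one_add_mul_le_pow (a := -tk R (Mn R)) (by linarith) (2 * Kn R + 2)
  push_cast at hB
  have e1 : (1 : ℝ) + -tk R (Mn R) = 1 - tk R (Mn R) := by ring
  rw [e1] at hB
  linarith

theorem ox_V_up {R : ℕ} (hR : 1 ≤ R) (l m : ℕ → ZMod 3) :
    Vol (tk R) (tk R) (TL R l) (TL R m) ≤ 1 / ((2 * (Kn R : ℝ) + 1) * (2 * Kn R + 2)) := by
  have hn' : (TL R l).card + (TL R m).card = 2 * Kn R := by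
    rw [ox_card_TL, ox_card_TL]; ring
  have h := ox_Vol_le (tk R) (tk R) hn' (by have := ox_K hR; omega)
  push_cast at h
  exact h

/-- the centre `x` is below `1/10` -/
theorem ox_X_tail {R : ℕ} (hR : 1 ≤ R) (l m : ℕ → ZMod 3) :
    ∫ t in (1 / 10 : ℝ)..1, dX (tk R) (tk R) (TL R l) (TL R m) t
      ≤ 1 / 1000 * Vol (tk R) (tk R) (TL R l) (TL R m) := by
  have hn' : (TL R l).card + (TL R m).card = 2 * Kn R := by
    rw [ox_card_TL, ox_card_TL]; ring
  have hK := ox_K hR
  have hK' : (59050 : ℝ) ≤ Kn R := by exact_mod_cast hK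
  have h1 : ∫ t in (1 / 10 : ℝ)..1, dX (tk R) (tk R) (TL R l) (TL R m) t
      ≤ ∫ t in (1 / 10 : ℝ)..1, (1 - t) ^ (2 * Kn R + 1) / ((2 * Kn R : ℕ) + 1) := by
    refine intervalIntegral.integral_mono_on (by norm_num)
      ((continuous_dX _ _ _ _).intervalIntegrable _ _)
      (Continuous.intervalIntegrable (by fun_prop) _ _) fun t ht => ?_
    have h2 := ox_dX_le (tk R) (tk R) hn' (by omega) (t := t) (by linarith [ht.1])
    rwa [max_eq_right (by linarith [ht.2])] at h2
  have h2 : ∫ t in (1 / 10 : ℝ)..1, (1 - t) ^ (2 * Kn R + 1) / (((2 * Kn R : ℕ) : ℝ) + 1)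
      = (9 / 10) ^ (2 * Kn R + 2) / ((2 * (Kn R : ℝ) + 1) * (2 * Kn R + 2)) := by
    rw [intervalIntegral.integral_div]
    have h3 := intervalIntegral.integral_comp_sub_left (a := 1 / 10) (b := 1)
      (fun t => t ^ (2 * Kn R + 1)) 1
    rw [sub_self] at h3
    rw [h3, integral_pow, zero_pow (by omega)]
    push_cast
    have e1 : (2 * (Kn R : ℝ) + 1) ≠ 0 := by positivity
    have e2 : (2 * (Kn R : ℝ) + 2) ≠ 0 := by positivity
    have e3 : (2 * (Kn R : ℝ) + 1 + 1) ≠ 0 := by positivity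
    have e4 : (1 : ℝ) - 1 / 10 = 9 / 10 := by norm_num
    rw [e4]
    field_simp
    ring
  rw [h2] at h1
  refine h1.trans ?_
  have h4 : ((9 : ℝ) / 10) ^ (2 * Kn R + 2) ≤ 1 / 10000 := by
    have hB := one_add_mul_le_pow (a := (1 / 9 : ℝ)) (by norm_num) (2 * Kn R + 2)
    push_cast at hB
    have h5 : (10000 : ℝ) ≤ (1 + 1 / 9) ^ (2 * Kn R + 2) := by linarith
    have h6 : ((9 : ℝ) / 10) ^ (2 * Kn R + 2) * (1 + 1 / 9) ^ (2 * Kn R + 2) = 1 := by
      rw [← mul_pow]; norm_num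
    have h7 : 0 ≤ ((9 : ℝ) / 10) ^ (2 * Kn R + 2) := by positivity
    nlinarith
  have h8 := ox_V hR l m
  have h9 : (9 / 10 : ℝ) ^ (2 * Kn R + 2) / ((2 * (Kn R : ℝ) + 1) * (2 * Kn R + 2))
      ≤ 1 / 10000 / ((2 * (Kn R : ℝ) + 1) * (2 * Kn R + 2)) :=
    div_le_div_of_nonneg_right h4 (by positivity)
  have h10 : 1 / 10000 / ((2 * (Kn R : ℝ) + 1) * (2 * Kn R + 2))
      ≤ 1 / 1000 * (19 / 20 / ((2 * (Kn R : ℝ) + 1) * (2 * Kn R + 2))) := by
    rw [← mul_div_assoc]
    refine div_le_div_of_nonneg_right (by norm_num) (by positivity)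
  linarith

/-- the density of a lower leaf is bounded -/
theorem ox_dL_bound {R : ℕ} (hR : 1 ≤ R) (l m : ℕ → ZMod 3) {z : ℕ} (hz : z ∈ TL R l) (t : ℝ) :
    dL (tk R) (tk R) (TL R l) (TL R m) z t ≤ 11 / 10 * Vol (tk R) (tk R) (TL R l) (TL R m) := by
  have hK := ox_K hR
  have hK' : (59050 : ℝ) ≤ Kn R := by exact_mod_cast hK
  have hn' : ((TL R l).erase z).card + (TL R m).card = 2 * Kn R - 1 := by
    rw [Finset.card_erase_of_mem hz, ox_card_TL, ox_card_TL]; omega
  have h1 := ox_Vol_le (tk R) (tk R) hn' (by omega)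
  have h2 := ox_dL_le (tk R) (tk R) (TL R l) (TL R m) z t
  have h3 : ((2 * Kn R - 1 : ℕ) : ℝ) = 2 * (Kn R : ℝ) - 1 := by
    rw [Nat.cast_sub (by omega)]
    push_cast
    ring
  rw [h3] at h1
  have h4 := ox_V hR l m
  have h5 : 1 / ((2 * (Kn R : ℝ) - 1 + 1) * (2 * Kn R - 1 + 2))
      ≤ 11 / 10 * (19 / 20 / ((2 * (Kn R : ℝ) + 1) * (2 * Kn R + 2))) := by
    rw [← mul_div_assoc, div_le_div_iff₀ (by nlinarith) (by positivity)]
    nlinarith
  linarith

/-! ## Final numbers -/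

theorem ox_V3 {R : ℕ} (hR : 1 ≤ R) (l m : ℕ → ZMod 3) :
    1 / (Kn R : ℝ) ^ 3 ≤ Vol (tk R) (tk R) (TL R l) (TL R m) := by
  have hK' : (59050 : ℝ) ≤ Kn R := by exact_mod_cast ox_K hR
  refine le_trans ?_ (ox_V hR l m)
  rw [div_div, div_le_div_iff₀ (by positivity) (by positivity)]
  nlinarith [mul_nonneg (by positivity : (0 : ℝ) ≤ (Kn R : ℝ) ^ 2) (by linarith : (0 : ℝ) ≤ Kn R - 59050)]

theorem ox_h2 {R : ℕ} (hR : 1 ≤ R) : hn R ^ 2 ≤ 1 / 1000 * (1 / (Kn R : ℝ) ^ 3) ^ 2 := by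
  have hK' : (59050 : ℝ) ≤ Kn R := by exact_mod_cast ox_K hR
  have h1 := ox_h_le hR
  have h0 := (ox_h_pos hR).le
  have h2 : 1 / (Kn R : ℝ) ^ 16 ≤ 1 := by
    rw [div_le_one (by positivity)]
    exact one_le_pow₀ (by linarith)
  have h3 : hn R ^ 2 ≤ 1 / (Kn R : ℝ) ^ 16 := by nlinarith
  refine h3.trans ?_
  rw [div_pow, one_pow, ← pow_mul, div_mul_div_comm, one_mul,
    div_le_div_iff₀ (by positivity) (by positivity)]
  have e1 : (Kn R : ℝ) ^ 16 = (Kn R : ℝ) ^ (3 * 2) * (Kn R : ℝ) ^ 10 := by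
    rw [← pow_add]
  have e2 : (1000 : ℝ) ≤ (Kn R : ℝ) ^ 10 := by
    have := le_self_pow₀ (by linarith : (1 : ℝ) ≤ Kn R) (by norm_num : (10 : ℕ) ≠ 0)
    linarith
  rw [e1, one_mul, one_mul, mul_comm (1000 : ℝ)]
  exact mul_le_mul_of_nonneg_left e2 (by positivity)

/-- conclusion of the crude comparison -/
theorem ox_conc {R : ℕ} (hR : 1 ≤ R) {V V' N e f : ℝ} (hV : 1 / (Kn R : ℝ) ^ 3 ≤ V)
    (hV' : 1 / (Kn R : ℝ) ^ 3 ≤ V') (he : e ≤ 1 / 1000 * V) (hf : f ≤ 1 / 8 * V')
    (hN : V * V' - 2 * e * V' - 2 * V * f ≤ N) : hn R ^ 2 ≤ N := by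
  have hK' : (59050 : ℝ) ≤ Kn R := by exact_mod_cast ox_K hR
  have hpos : 0 < 1 / (Kn R : ℝ) ^ 3 := by positivity
  have h1 := ox_h2 hR
  have h2 : (1 / (Kn R : ℝ) ^ 3) ^ 2 ≤ V * V' := by
    rw [sq]
    exact mul_le_mul hV hV' hpos.le (hpos.le.trans hV)
  have hV0 : 0 ≤ V := hpos.le.trans hV
  have hV0' : 0 ≤ V' := hpos.le.trans hV'
  have h3 : e * V' ≤ 1 / 1000 * V * V' := mul_le_mul_of_nonneg_right he hV0'
  have h4 : V * f ≤ V * (1 / 8 * V') := mul_le_mul_of_nonneg_left hf hV0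
  have h5 : 0 ≤ V * V' := mul_nonneg hV0 hV0'
  nlinarith

/-! ## Pairs with the lower centre -/

/-- the lower leaf is below `1/10` with probability at most `1/8` -/
theorem ox_L_low {R : ℕ} (hR : 1 ≤ R) (l m : ℕ → ZMod 3) {z : ℕ} (hz : z ∈ TL R l) :
    ∫ t in (0 : ℝ)..(1 / 10), dL (tk R) (tk R) (TL R l) (TL R m) z t
      ≤ 1 / 8 * Vol (tk R) (tk R) (TL R l) (TL R m) := by
  have h1 : ∫ t in (0 : ℝ)..(1 / 10), dL (tk R) (tk R) (TL R l) (TL R m) z t ≤
      ∫ _t in (0 : ℝ)..(1 / 10), 11 / 10 * Vol (tk R) (tk R) (TL R l) (TL R m) := by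
    refine intervalIntegral.integral_mono_on (by norm_num) ?_
      (continuous_const.intervalIntegrable _ _) fun t _ => ox_dL_bound hR l m hz t
    refine (intervalIntegrable_dL _ _ _ _ _).mono_set ?_
    rw [Set.uIcc_of_le (by norm_num), Set.uIcc_of_le zero_le_one]
    exact Set.Icc_subset_Icc le_rfl (by norm_num)
  rw [intervalIntegral.integral_const, smul_eq_mul] at h1
  have h2 := Vol_nonneg (tk R) (tk R) (TL R l) (TL R m)
  linarith

theorem gap_XL {R : ℕ} (hR : 1 ≤ R) (l l' : ℕ → ZMod 3) {z' : ℕ} (hz' : z' ∈ TL R l') :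
    hn R ^ 2 ≤ Nf (dX (tk R) (tk R) (TL R l) (TL R (fun s => - l s)))
      (dL (tk R) (tk R) (TL R l') (TL R (fun s => - l' s)) z') := by
  have h := ox_crude ((continuous_dX (tk R) (tk R) (TL R l)
    (TL R (fun s => - l s))).intervalIntegrable 0 1)
    (intervalIntegrable_dL (tk R) (tk R) (TL R l') (TL R (fun s => - l' s)) z')
    (dX_nonneg _ _ _ _) (dL_nonneg _ _ _ _ _) (s := 1 / 10) (by norm_num) (by norm_num)
  rw [← Vol_eq_dX, integral_dL (tk R) (tk R) (TL R (fun s => - l' s)) hz'] at h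
  exact ox_conc hR (ox_V3 hR _ _) (ox_V3 hR _ _) (ox_X_tail hR _ _) (ox_L_low hR _ _ hz') h

theorem gap_XR {R : ℕ} (hR : 1 ≤ R) (l l' : ℕ → ZMod 3) {z' : ℕ}
    (hz' : z' ∈ TL R (fun s => - l' s)) :
    hn R ^ 2 ≤ Nf (dX (tk R) (tk R) (TL R l) (TL R (fun s => - l s)))
      (dR (tk R) (tk R) (TL R l') (TL R (fun s => - l' s)) z') := by
  have h := ox_crude ((continuous_dX (tk R) (tk R) (TL R l)
    (TL R (fun s => - l s))).intervalIntegrable 0 1)
    (intervalIntegrable_dR (tk R) (tk R) (TL R l') (TL R (fun s => - l' s)) z')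
    (dX_nonneg _ _ _ _) (dR_nonneg _ _ _ _ _) (s := 1 / 10) (by norm_num) (by norm_num)
  rw [← Vol_eq_dX, integral_dR (tk R) (tk R) (TL R l') hz'] at h
  refine ox_conc hR (ox_V3 hR _ _) (ox_V3 hR _ _) (ox_X_tail hR _ _) ?_ h
  have h1 : ∫ t in (0 : ℝ)..(1 / 10), dR (tk R) (tk R) (TL R l') (TL R (fun s => - l' s)) z' t ≤
      ∫ _t in (0 : ℝ)..(1 / 10),
        11 / 10 * Vol (tk R) (tk R) (TL R (fun s => - l' s)) (TL R l') := by
    refine intervalIntegral.integral_mono_on (by norm_num) ?_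
      (continuous_const.intervalIntegrable _ _) fun t _ => ?_
    · refine (intervalIntegrable_dR _ _ _ _ _).mono_set ?_
      rw [Set.uIcc_of_le (by norm_num), Set.uIcc_of_le zero_le_one]
      exact Set.Icc_subset_Icc le_rfl (by norm_num)
    · rw [dR_eq]
      exact ox_dL_bound hR _ _ hz' _
  rw [intervalIntegral.integral_const, smul_eq_mul, Vol_refl] at h1
  have h2 := Vol_nonneg (tk R) (tk R) (TL R l') (TL R (fun s => - l' s))
  linarith

/-- the upper centre is above `9/10` -/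
theorem ox_Y_low {R : ℕ} (hR : 1 ≤ R) (l m : ℕ → ZMod 3) :
    ∫ t in (0 : ℝ)..(9 / 10), dY (tk R) (tk R) (TL R l) (TL R m) t
      ≤ 1 / 1000 * Vol (tk R) (tk R) (TL R l) (TL R m) := by
  have h1 : ∫ t in (0 : ℝ)..(9 / 10), dY (tk R) (tk R) (TL R l) (TL R m) t
      = ∫ t in (0 : ℝ)..(9 / 10), dX (tk R) (tk R) (TL R m) (TL R l) (1 - t) :=
    intervalIntegral.integral_congr fun t _ => dY_eq _ _ _ _ t
  have h2 := intervalIntegral.integral_comp_sub_left (a := 0) (b := 9 / 10)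
    (fun t => dX (tk R) (tk R) (TL R m) (TL R l) t) 1
  rw [h1, h2, sub_zero, Vol_refl]
  have h3 := ox_X_tail hR m l
  have e : (1 : ℝ) - 9 / 10 = 1 / 10 := by norm_num
  rw [e]
  exact h3

theorem gap_XY {R : ℕ} (hR : 1 ≤ R) (l l' : ℕ → ZMod 3) :
    hn R ^ 2 ≤ Nf (dX (tk R) (tk R) (TL R l) (TL R (fun s => - l s)))
      (dY (tk R) (tk R) (TL R l') (TL R (fun s => - l' s))) := by
  have h := ox_crude ((continuous_dX (tk R) (tk R) (TL R l)
    (TL R (fun s => - l s))).intervalIntegrable 0 1)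
    ((continuous_dY (tk R) (tk R) (TL R l') (TL R (fun s => - l' s))).intervalIntegrable 0 1)
    (dX_nonneg _ _ _ _) (dY_nonneg _ _ _ _) (s := 1 / 10) (by norm_num) (by norm_num)
  rw [← Vol_eq_dX, ← Vol_eq_dY] at h
  refine ox_conc hR (ox_V3 hR _ _) (ox_V3 hR _ _) (ox_X_tail hR _ _) ?_ h
  have h1 := ox_Y_low hR l' (fun s => - l' s)
  have h2 : ∫ t in (0 : ℝ)..(1 / 10), dY (tk R) (tk R) (TL R l') (TL R (fun s => - l' s)) t ≤
      ∫ t in (0 : ℝ)..(9 / 10), dY (tk R) (tk R) (TL R l') (TL R (fun s => - l' s)) t := by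
    refine intervalIntegral.integral_mono_interval le_rfl (by norm_num) (by norm_num)
      (Filter.Eventually.of_forall fun t => dY_nonneg _ _ _ _ t)
      ((continuous_dY _ _ _ _).intervalIntegrable _ _)
  have h3 := Vol_nonneg (tk R) (tk R) (TL R l') (TL R (fun s => - l' s))
  linarith

/-! ## Padding elements -/

/-- the (unnormalised) density of a padding element -/
noncomputable def pd (τ : ℝ) (t : ℝ) : ℝ := by
  classical
  exact if τ < t then 1 else 0

theorem pd_nonneg (τ t : ℝ) : 0 ≤ pd τ t := by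
  unfold pd
  split_ifs <;> simp

theorem pd_eq (τ : ℝ) : pd τ = (Set.Ioi τ).indicator fun _ => (1 : ℝ) := by
  funext t
  simp only [pd, Set.indicator, Set.mem_Ioi]

theorem intervalIntegrable_pd (τ a b : ℝ) : IntervalIntegrable (pd τ) volume a b := by
  rw [pd_eq]
  have h : IntervalIntegrable (fun _ : ℝ => (1 : ℝ)) volume a b :=
    continuous_const.intervalIntegrable a b
  rw [intervalIntegrable_iff] at h ⊢
  exact h.indicator measurableSet_Ioi

theorem integral_pd {τ a b : ℝ} (hab : a ≤ b) (ha : a ≤ τ) :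
    ∫ t in a..b, pd τ t = max 0 (b - τ) := by
  rw [pd_eq, intervalIntegral.integral_of_le hab, setIntegral_indicator measurableSet_Ioi]
  have h1 : Set.Ioc a b ∩ Set.Ioi τ = Set.Ioc τ b := by
    ext t
    simp only [Set.mem_inter_iff, Set.mem_Ioc, Set.mem_Ioi]
    constructor
    · rintro ⟨⟨_, h2⟩, h3⟩
      exact ⟨h3, h2⟩
    · rintro ⟨h2, h3⟩
      exact ⟨⟨by linarith, h3⟩, h2⟩
  rw [h1, setIntegral_const, smul_eq_mul, mul_one, Measure.real, Real.volume_Ioc]
  rcases le_total τ b with h | h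
  · rw [ENNReal.toReal_ofReal (by linarith), max_eq_right (by linarith)]
  · rw [ENNReal.ofReal_of_nonpos (by linarith), ENNReal.toReal_zero, max_eq_left (by linarith)]

/-- `Nf` against a padding element -/
theorem Nf_pd {f : ℝ → ℝ} (hf : IntervalIntegrable f volume 0 1) {τ : ℝ} (h0 : 0 ≤ τ)
    (h1 : τ ≤ 1) : Nf f (pd τ) = (∫ s in (0 : ℝ)..1, (1 + τ - 2 * s) * f s)
      - 2 * ∫ s in (0 : ℝ)..1, max 0 (τ - s) * f s := by
  have e1 : ∀ u ∈ Set.uIcc (0 : ℝ) 1, f u * ((∫ s in (0 : ℝ)..u, pd τ s) - ∫ s in u..1, pd τ s)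
      = -((1 + τ - 2 * u) * f u - 2 * (max 0 (τ - u) * f u)) := by
    intro u hu
    rw [Set.uIcc_of_le zero_le_one] at hu
    have i0 := integral_pd (τ := τ) hu.1 h0
    have i1 := integral_pd (τ := τ) zero_le_one h0
    have i2 : (∫ s in (0 : ℝ)..u, pd τ s) + ∫ s in u..1, pd τ s = ∫ s in (0 : ℝ)..1, pd τ s :=
      intervalIntegral.integral_add_adjacent_intervals (intervalIntegrable_pd _ _ _)
        (intervalIntegrable_pd _ _ _)
    rw [i1, max_eq_right (by linarith : (0 : ℝ) ≤ 1 - τ), i0] at i2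
    rw [i0]
    rcases le_total u τ with h | h
    · rw [max_eq_left (by linarith : u - τ ≤ 0)] at i2 ⊢
      rw [max_eq_right (by linarith : (0 : ℝ) ≤ τ - u)]
      have : ∫ s in u..1, pd τ s = 1 - τ := by linarith
      rw [this]
      ring
    · rw [max_eq_right (by linarith : (0 : ℝ) ≤ u - τ)] at i2 ⊢
      rw [max_eq_left (by linarith : τ - u ≤ 0)]
      have : ∫ s in u..1, pd τ s = 1 - τ - (u - τ) := by linarith
      rw [this]
      ring
  have m1 : IntervalIntegrable (fun s => (1 + τ - 2 * s) * f s) volume 0 1 :=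
    hf.continuousOn_mul (Continuous.continuousOn (by fun_prop))
  have m2 : IntervalIntegrable (fun s => max 0 (τ - s) * f s) volume 0 1 :=
    hf.continuousOn_mul (Continuous.continuousOn (by fun_prop))
  rw [Nf_skew hf (intervalIntegrable_pd _ _ _), Nf, intervalIntegral.integral_congr e1,
    intervalIntegral.integral_neg, neg_neg, intervalIntegral.integral_sub m1 (m2.const_mul 2),
    intervalIntegral.integral_const_mul]

/-! ### The symmetric reference -/

theorem ox_Phi_const (a : ℝ) (T : Finset ℕ) (x y : ℝ) :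
    Phi (fun _ => a) T x y = (max 0 (y - max x a)) ^ T.card := by
  rw [Phi, Finset.prod_const]

theorem ox_W_const {a : ℝ} {T S : Finset ℕ} (h : T.card = S.card) (x y : ℝ) :
    W (fun _ => a) (fun _ => a) T S x y = W (fun _ => a) (fun _ => a) S T x y := by
  simp only [W, ox_Phi_const, h]

/-- the law of `(x, y)` is almost symmetric -/
theorem ox_moment (c : ℕ → ℝ) {T S : Finset ℕ} (h : T.card = S.card) (a : ℝ) :
    |∫ x in (0 : ℝ)..1, ∫ y in (0 : ℝ)..1, W c c T S x y * (1 - y - x)|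
      ≤ ∑ z ∈ T, |c z - a| + ∑ z ∈ S, |c z - a| := by
  set Wr := W (fun _ => a) (fun _ => a) T S with hWr
  have hcr : Continuous fun p : ℝ × ℝ => Wr p.1 p.2 := continuous_W _ _ T S
  have hcW : Continuous fun p : ℝ × ℝ => W c c T S p.1 p.2 := continuous_W _ _ T S
  have hc1 : Continuous fun p : ℝ × ℝ => Wr p.1 p.2 * (1 - p.2 - p.1) := by fun_prop
  have hc2 : Continuous fun p : ℝ × ℝ => W c c T S p.1 p.2 * (1 - p.2 - p.1) := by fun_prop
  -- the reference has moment zero
  have h0 : ∫ x in (0 : ℝ)..1, ∫ y in (0 : ℝ)..1, Wr x y * (1 - y - x) = 0 := by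
    have h1 := refl01 (f := fun x y => Wr x y * (1 - y - x)) hc1.measurable (C := 1 * 1)
      (fun x hx y hy => by
        rw [abs_mul]
        refine mul_le_mul (abs_W_le _ _ T S x hx y hy) ?_ (abs_nonneg _) zero_le_one
        rw [abs_le]
        constructor <;> linarith [hx.1, hx.2, hy.1, hy.2])
    have h2 : ∀ x y : ℝ, Wr (1 - y) (1 - x) * (1 - (1 - x) - (1 - y))
        = -(Wr x y * (1 - y - x)) := by
      intro x y
      rw [hWr, W_refl, ← ox_W_const h]
      ring
    simp only [h2, intervalIntegral.integral_neg] at h1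
    linarith
  have hs : ∫ x in (0 : ℝ)..1, ∫ y in (0 : ℝ)..1, W c c T S x y * (1 - y - x)
      = ∫ x in (0 : ℝ)..1, ∫ y in (0 : ℝ)..1, (W c c T S x y - Wr x y) * (1 - y - x) := by
    have e1 : ∀ x : ℝ, ∫ y in (0 : ℝ)..1, (W c c T S x y - Wr x y) * (1 - y - x)
        = (∫ y in (0 : ℝ)..1, W c c T S x y * (1 - y - x))
          - ∫ y in (0 : ℝ)..1, Wr x y * (1 - y - x) := by
      intro x
      rw [← intervalIntegral.integral_sub]
      · exact intervalIntegral.integral_congr fun y _ => sub_mul _ _ _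
      · exact (hc2.comp (continuous_const.prodMk continuous_id)).intervalIntegrable 0 1
      · exact (hc1.comp (continuous_const.prodMk continuous_id)).intervalIntegrable 0 1
    simp only [e1]
    rw [intervalIntegral.integral_sub, h0, sub_zero]
    · exact (intervalIntegral.continuous_parametric_intervalIntegral_of_continuous'
        (f := fun x y => W c c T S x y * (1 - y - x)) hc2 0 1).intervalIntegrable 0 1
    · exact (intervalIntegral.continuous_parametric_intervalIntegral_of_continuous'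
        (f := fun x y => Wr x y * (1 - y - x)) hc1 0 1).intervalIntegrable 0 1
  rw [hs]
  set B := ∑ z ∈ T, |c z - a| + ∑ z ∈ S, |c z - a| with hB
  have hb : ∀ x ∈ Set.uIoc (0 : ℝ) 1,
      ‖∫ y in (0 : ℝ)..1, (W c c T S x y - Wr x y) * (1 - y - x)‖ ≤ B := by
    intro x hx
    rw [Set.uIoc_of_le zero_le_one] at hx
    have h3 := intervalIntegral.norm_integral_le_of_norm_le_const (a := (0 : ℝ)) (b := 1) (C := B)
      (f := fun y => (W c c T S x y - Wr x y) * (1 - y - x)) fun y hy => by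
        rw [Set.uIoc_of_le zero_le_one] at hy
        rw [Real.norm_eq_abs, abs_mul]
        have h4 := W_lip c (fun _ => a) c (fun _ => a) T S (x := x) (y := y)
          (by linarith [hx.1, hy.2])
        have h5 : |1 - y - x| ≤ 1 := by
          rw [abs_le]
          constructor <;> linarith [hx.1, hx.2, hy.1, hy.2]
        exact (mul_le_of_le_one_right (abs_nonneg _) h5).trans h4
    simpa using h3
  have h6 := intervalIntegral.norm_integral_le_of_norm_le_const hb
  simpa using h6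

theorem ox_sum_tk {R : ℕ} (hR : 1 ≤ R) (l : ℕ → ZMod 3) :
    ∑ z ∈ TL R l, |tk R z - an R| ≤ 1 / (Kn R : ℝ) ^ 15 := by
  have h1 : ∑ z ∈ TL R l, |tk R z - an R| ≤ ∑ _z ∈ TL R l, 1 / (Kn R : ℝ) ^ 16 := by
    refine Finset.sum_le_sum fun z hz => ?_
    have h2 : tk R z - an R = hn R * z := by unfold tk; ring
    rw [h2, abs_of_nonneg (mul_nonneg (ox_h_pos hR).le (Nat.cast_nonneg _))]
    refine le_trans ?_ (ox_hM hR)
    have h3 : (z : ℝ) ≤ Mn R := by exact_mod_cast ox_mem_TL_le hz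
    exact mul_le_mul_of_nonneg_left h3 (ox_h_pos hR).le
  rw [Finset.sum_const, ox_card_TL, nsmul_eq_mul] at h1
  refine h1.trans (le_of_eq ?_)
  have hK' : (0 : ℝ) < Kn R := by
    have : (59050 : ℝ) ≤ Kn R := by exact_mod_cast ox_K hR
    linarith
  rw [pow_succ (Kn R : ℝ) 15]
  field_simp

/-! ### Integrals of affine functions -/

theorem integral_indicator_affine {a b : ℝ} (ha : 0 ≤ a) (hb : b ≤ 1) (p q : ℝ) :
    ∫ t in (0 : ℝ)..1, (Set.Ioo a b).indicator (fun t => p + q * t) t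
      = max 0 (b - a) * (p + q * (a + b) / 2) := by
  rw [intervalIntegral.integral_of_le zero_le_one, setIntegral_indicator measurableSet_Ioo]
  have h1 : Set.Ioc (0 : ℝ) 1 ∩ Set.Ioo a b = Set.Ioo a b := by
    rw [Set.inter_eq_right]
    intro t ht
    exact ⟨by linarith [ht.1], by linarith [ht.2]⟩
  rw [h1, ← integral_Ioc_eq_integral_Ioo]
  rcases le_total a b with h | h
  · rw [← intervalIntegral.integral_of_le h, intervalIntegral.integral_add
      (continuous_const.intervalIntegrable _ _) (Continuous.intervalIntegrable (by fun_prop) _ _),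
      intervalIntegral.integral_const, intervalIntegral.integral_const_mul, integral_id,
      max_eq_right (by linarith), smul_eq_mul]
    ring
  · rw [Set.Ioc_eq_empty (by linarith), setIntegral_empty, max_eq_left (by linarith), zero_mul]

/-- an affine function against the density of a lower leaf -/
theorem integral_affine_dL (c d : ℕ → ℝ) {T : Finset ℕ} (S : Finset ℕ) {z : ℕ} (hz : z ∈ T)
    (p q : ℝ) : ∫ t in (0 : ℝ)..1, (p + q * t) * dL c d T S z t
      = ∫ x in (0 : ℝ)..1, ∫ y in (0 : ℝ)..1,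
        W c d T S x y * (p + q * (max x (c z) + y) / 2) := by
  have h1 := integral_mul_dL c d T S z (f := fun t => p + q * t) (by fun_prop)
    (C := |p| + |q|) (fun t ht => by
      refine (abs_add_le _ _).trans ?_
      rw [abs_mul, abs_of_pos ht.1]
      have := mul_le_of_le_one_right (abs_nonneg q) ht.2
      linarith)
  rw [h1]
  refine intervalIntegral.integral_congr_ae (Filter.Eventually.of_forall fun x hx => ?_)
  refine intervalIntegral.integral_congr_ae (Filter.Eventually.of_forall fun y hy => ?_)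
  rw [Set.uIoc_of_le zero_le_one] at hx hy
  rw [integral_indicator_affine (hx.1.le.trans (le_max_left _ _)) hy.2, ← W_erase_left c d S hz]
  ring

theorem integral_max (b : ℝ) (hb0 : 0 ≤ b) (hb1 : b ≤ 1) :
    ∫ x in (0 : ℝ)..1, max 0 (b - x) = b ^ 2 / 2 := by
  have h1 := ox_int1 (n := 1) le_rfl (s := 1 - b) (by linarith)
  have h2 := intervalIntegral.integral_comp_sub_left (a := 0) (b := 1)
    (fun x => (max 0 (x - (1 - b))) ^ 1) 1
  rw [sub_self, sub_zero, h1] at h2
  have h3 : ∀ x : ℝ, (max 0 (1 - x - (1 - b))) ^ 1 = max 0 (b - x) := by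
    intro x
    rw [pow_one]
    congr 1
    ring
  simp only [h3] at h2
  rw [h2, max_eq_right (by linarith)]
  norm_num

/-- last step of the estimates for a leaf against a padding element -/
theorem ox_pad_conc {R : ℕ} (hR : 1 ≤ R) {V τ N : ℝ}
    (hV : 19 / 20 / ((2 * (Kn R : ℝ) + 1) * (2 * Kn R + 2)) ≤ V) (h1 : an R ≤ τ)
    (h2 : τ ≤ tk R (Mn R))
    (hN : τ * V - 2 / (Kn R : ℝ) ^ 15 - tk R (Mn R) ^ 2 / (2 * (2 * Kn R + 1))
      - 11 / 10 * V * τ ^ 2 ≤ N) : hn R ^ 2 ≤ N := by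
  obtain ⟨b1, b2, b3, b4, b5⟩ := ox_b hR
  have hK' : (59050 : ℝ) ≤ Kn R := by exact_mod_cast ox_K hR
  set K : ℝ := (Kn R : ℝ) with hK
  set b := tk R (Mn R) with hb
  have hV0 : 0 < V := lt_of_lt_of_le (by positivity) hV
  -- the term with b^2
  have e1 : b ^ 2 / (2 * (2 * K + 1)) ≤ 1 / 40 * an R * V := by
    have e2 : b ^ 2 / (2 * (2 * K + 1)) = (b * ((2 * K + 2) * b) / 2) /
        ((2 * K + 1) * (2 * K + 2)) := by
      field_simp
    have e3 : b * ((2 * K + 2) * b) / 2 ≤ 1 / 40 * an R * (19 / 20) := by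
      have : b * ((2 * K + 2) * b) ≤ b * (1 / 40) := mul_le_mul_of_nonneg_left b3 (by linarith)
      nlinarith
    rw [e2]
    calc (b * ((2 * K + 2) * b) / 2) / ((2 * K + 1) * (2 * K + 2))
        ≤ (1 / 40 * an R * (19 / 20)) / ((2 * K + 1) * (2 * K + 2)) :=
          div_le_div_of_nonneg_right e3 (by positivity)
      _ = 1 / 40 * an R * (19 / 20 / ((2 * K + 1) * (2 * K + 2))) := by ring
      _ ≤ 1 / 40 * an R * V := mul_le_mul_of_nonneg_left hV (by positivity)
  have e4 : 11 / 10 * V * τ ^ 2 ≤ 1 / 100 * (τ * V) := by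
    have : τ ≤ 1 / 1000000 := h2.trans b5
    have hτ : 0 ≤ τ := b4.le.trans h1
    have : τ * V * τ ≤ τ * V * (1 / 1000000) :=
      mul_le_mul_of_nonneg_left this (mul_nonneg hτ hV0.le)
    nlinarith [mul_nonneg hτ hV0.le]
  have e5 : an R * V ≤ τ * V := mul_le_mul_of_nonneg_right h1 hV0.le
  -- the main term
  have e6 : 1 / K ^ 3 ≤ V := by
    refine le_trans ?_ hV
    rw [div_div, div_le_div_iff₀ (by positivity) (by positivity)]
    nlinarith [mul_nonneg (by positivity : (0 : ℝ) ≤ K ^ 2) (by linarith : (0 : ℝ) ≤ K - 59050)]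
  have ha : an R = 1 / (100 * K) := rfl
  have e7 : 1 / (100 * K ^ 4) ≤ an R * V := by
    have : 1 / (100 * K) * (1 / K ^ 3) ≤ an R * V := by
      rw [ha]
      exact mul_le_mul_of_nonneg_left e6 (by positivity)
    refine le_trans (le_of_eq ?_) this
    field_simp
  have e8 : 2 / K ^ 15 ≤ 1 / 1000 * (1 / K ^ 4) := by
    rw [← mul_div_assoc, mul_one, div_le_div_iff₀ (by positivity) (by positivity)]
    have : K ^ 15 = K ^ 4 * K ^ 11 := by rw [← pow_add]
    rw [this]
    have h11 : K ≤ K ^ 11 := le_self_pow₀ (by linarith) (by norm_num)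
    have hK4 : (0 : ℝ) < K ^ 4 := by positivity
    nlinarith
  have e9 : hn R ^ 2 ≤ 1 / 1000 * (1 / K ^ 4) := by
    refine (ox_h2 hR).trans ?_
    have : (1 / K ^ 3) ^ 2 ≤ 1 / K ^ 4 := by
      rw [div_pow, one_pow, ← pow_mul]
      exact one_div_le_one_div_of_le (by positivity)
        (pow_le_pow_right₀ (by linarith) (by norm_num))
    linarith
  have e10 : 1 / (100 * K ^ 4) = 1 / 100 * (1 / K ^ 4) := by
    field_simp
  have e11 : 0 < 1 / K ^ 4 := by positivity
  nlinarith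

/-- the second integral in `Nf_pd` -/
theorem ox_second {f : ℝ → ℝ} (hf : IntervalIntegrable f volume 0 1) {B : ℝ}
    (hB : ∀ t, f t ≤ B) {τ : ℝ} (h0 : 0 ≤ τ) (h1 : τ ≤ 1) :
    ∫ s in (0 : ℝ)..1, max 0 (τ - s) * f s ≤ B * τ ^ 2 / 2 := by
  have h2 : ∫ s in (0 : ℝ)..1, max 0 (τ - s) * f s ≤ ∫ s in (0 : ℝ)..1, max 0 (τ - s) * B := by
    refine intervalIntegral.integral_mono_on zero_le_one
      (hf.continuousOn_mul (Continuous.continuousOn (by fun_prop)))
      (Continuous.intervalIntegrable (by fun_prop) _ _) fun s _ => ?_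
    exact mul_le_mul_of_nonneg_left (hB s) (le_max_left _ _)
  rw [intervalIntegral.integral_mul_const, integral_max τ h0 h1] at h2
  linarith

/-- lower bound for the first integral, lower leaf with ticks `≤ b` -/
theorem ox_first {c : ℕ → ℝ} {T S : Finset ℕ} {n : ℕ} (hn : T.card + S.card = n) (hn1 : 1 ≤ n)
    {z : ℕ} (hz : z ∈ T) {b τ : ℝ} (hb0 : 0 ≤ b) (hb1 : b ≤ 1) (hc : c z ≤ b) :
    (∫ x in (0 : ℝ)..1, ∫ y in (0 : ℝ)..1, W c c T S x y * (1 - y - x)) + τ * Vol c c T S
      - b ^ 2 / (2 * (n + 1)) ≤ ∫ t in (0 : ℝ)..1, (1 + τ - 2 * t) * dL c c T S z t := by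
  have h1 := integral_affine_dL c c S hz (1 + τ) (-2)
  have h2 : ∀ t : ℝ, (1 + τ + -2 * t) * dL c c T S z t = (1 + τ - 2 * t) * dL c c T S z t := by
    intro t; ring
  simp only [h2] at h1
  rw [h1]
  have hcW : Continuous fun p : ℝ × ℝ => W c c T S p.1 p.2 := continuous_W _ _ T S
  have k1 : Continuous fun p : ℝ × ℝ => W c c T S p.1 p.2 * (1 - p.2 - p.1) := by fun_prop
  have k2 : Continuous fun p : ℝ × ℝ =>
      W c c T S p.1 p.2 * (1 + τ + -2 * (max p.1 (c z) + p.2) / 2) := by fun_prop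
  have hin : ∀ x ∈ Set.Icc (0 : ℝ) 1,
      (∫ y in (0 : ℝ)..1, W c c T S x y * (1 - y - x)) + τ * dX c c T S x
        - max 0 (b - x) * (1 / (n + 1)) ≤
      ∫ y in (0 : ℝ)..1, W c c T S x y * (1 + τ + -2 * (max x (c z) + y) / 2) := by
    intro x hx
    have m1 : IntervalIntegrable (fun y => W c c T S x y * (1 - y - x)) volume 0 1 :=
      (k1.comp (continuous_const.prodMk continuous_id)).intervalIntegrable 0 1
    have m2 : IntervalIntegrable (fun y => W c c T S x y) volume 0 1 :=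
      (hcW.comp (continuous_const.prodMk continuous_id)).intervalIntegrable 0 1
    have m3 : IntervalIntegrable
        (fun y => W c c T S x y * (1 + τ + -2 * (max x (c z) + y) / 2)) volume 0 1 :=
      (k2.comp (continuous_const.prodMk continuous_id)).intervalIntegrable 0 1
    have e1 : (∫ y in (0 : ℝ)..1, W c c T S x y * (1 - y - x)) + τ * dX c c T S x
        - max 0 (b - x) * dX c c T S x ≤
        ∫ y in (0 : ℝ)..1, W c c T S x y * (1 + τ + -2 * (max x (c z) + y) / 2) := by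
      rw [dX, ← intervalIntegral.integral_const_mul, ← intervalIntegral.integral_const_mul,
        ← intervalIntegral.integral_add m1 (m2.const_mul _),
        ← intervalIntegral.integral_sub (m1.add (m2.const_mul _)) (m2.const_mul _)]
      refine intervalIntegral.integral_mono_on zero_le_one
        ((m1.add (m2.const_mul _)).sub (m2.const_mul _)) m3 fun y _ => ?_
      have e2 : max x (c z) ≤ x + max 0 (b - x) := by
        refine max_le ?_ ?_
        · linarith [le_max_left 0 (b - x)]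
        · linarith [le_max_right 0 (b - x)]
      have e3 := mul_le_mul_of_nonneg_left e2 (W_nonneg c c T S x y)
      nlinarith
    have e4 : max 0 (b - x) * dX c c T S x ≤ max 0 (b - x) * (1 / (n + 1)) :=
      mul_le_mul_of_nonneg_left (ox_dX_le' c c hn hn1 hx.1) (le_max_left _ _)
    linarith
  have c1 : Continuous fun x => ∫ y in (0 : ℝ)..1, W c c T S x y * (1 - y - x) :=
    intervalIntegral.continuous_parametric_intervalIntegral_of_continuous'
      (f := fun x y => W c c T S x y * (1 - y - x)) k1 0 1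
  have c2 : Continuous fun x => ∫ y in (0 : ℝ)..1,
      W c c T S x y * (1 + τ + -2 * (max x (c z) + y) / 2) :=
    intervalIntegral.continuous_parametric_intervalIntegral_of_continuous'
      (f := fun x y => W c c T S x y * (1 + τ + -2 * (max x (c z) + y) / 2)) k2 0 1
  have c3 := continuous_dX c c T S
  have i1 : IntervalIntegrable (fun x => ∫ y in (0 : ℝ)..1, W c c T S x y * (1 - y - x))
      volume 0 1 := c1.intervalIntegrable 0 1
  have i2 : IntervalIntegrable (fun x => τ * dX c c T S x) volume 0 1 :=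
    (c3.intervalIntegrable 0 1).const_mul τ
  have i3 : IntervalIntegrable (fun x => max 0 (b - x) * (1 / ((n : ℝ) + 1))) volume 0 1 :=
    Continuous.intervalIntegrable (by fun_prop) 0 1
  have h3 := intervalIntegral.integral_mono_on zero_le_one
    ((i1.add i2).sub i3) (c2.intervalIntegrable 0 1) hin
  rw [intervalIntegral.integral_sub (i1.add i2) i3, intervalIntegral.integral_add i1 i2,
    intervalIntegral.integral_const_mul, intervalIntegral.integral_mul_const,
    integral_max b hb0 hb1, ← Vol_eq_dX] at h3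
  have e5 : b ^ 2 / 2 * (1 / ((n : ℝ) + 1)) = b ^ 2 / (2 * (n + 1)) := by
    field_simp
  rw [e5] at h3
  exact h3

/-- the same for an upper leaf -/
theorem ox_first' {c : ℕ → ℝ} {T S : Finset ℕ} {z : ℕ} (hz : z ∈ S) {τ : ℝ} :
    (∫ x in (0 : ℝ)..1, ∫ y in (0 : ℝ)..1, W c c T S x y * (1 - y - x)) + τ * Vol c c T S
      ≤ ∫ t in (0 : ℝ)..1, (1 + τ - 2 * t) * dR c c T S z t := by
  have h1 := integral_affine_dL c c T hz (τ - 1) 2
  have h2 := intervalIntegral.integral_comp_sub_left (a := 0) (b := 1)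
    (fun t => (τ - 1 + 2 * t) * dL c c S T z t) 1
  rw [sub_self, sub_zero, h1] at h2
  have h3 : ∀ t : ℝ, (τ - 1 + 2 * (1 - t)) * dL c c S T z (1 - t)
      = (1 + τ - 2 * t) * dR c c T S z t := by
    intro t
    rw [dR_eq]
    ring
  simp only [h3] at h2
  rw [h2]
  have k0 : Continuous fun p : ℝ × ℝ => W c c T S p.1 p.2 * (1 - p.2 - p.1) := by
    have hcW : Continuous fun p : ℝ × ℝ => W c c T S p.1 p.2 := continuous_W _ _ T S
    fun_prop
  have h4 := refl01 (f := fun x y => W c c T S x y * (1 - y - x)) k0.measurable (C := 1 * 1)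
    (fun x hx y hy => by
      rw [abs_mul]
      refine mul_le_mul (abs_W_le _ _ T S x hx y hy) ?_ (abs_nonneg _) zero_le_one
      rw [abs_le]
      constructor <;> linarith [hx.1, hx.2, hy.1, hy.2])
  have h5 : ∀ x y : ℝ, W c c T S (1 - y) (1 - x) * (1 - (1 - x) - (1 - y))
      = W c c S T x y * (x + y - 1) := by
    intro x y
    rw [W_refl]
    ring
  simp only [h5] at h4
  rw [← h4, Vol_refl, Vol_eq_dX]
  have hcW : Continuous fun p : ℝ × ℝ => W c c S T p.1 p.2 := continuous_W _ _ S T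
  have k1 : Continuous fun p : ℝ × ℝ => W c c S T p.1 p.2 * (p.1 + p.2 - 1) := by fun_prop
  have k2 : Continuous fun p : ℝ × ℝ =>
      W c c S T p.1 p.2 * (τ - 1 + 2 * (max p.1 (c z) + p.2) / 2) := by fun_prop
  have c1 : Continuous fun x => ∫ y in (0 : ℝ)..1, W c c S T x y * (x + y - 1) :=
    intervalIntegral.continuous_parametric_intervalIntegral_of_continuous'
      (f := fun x y => W c c S T x y * (x + y - 1)) k1 0 1
  have c2 : Continuous fun x => ∫ y in (0 : ℝ)..1,
      W c c S T x y * (τ - 1 + 2 * (max x (c z) + y) / 2) :=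
    intervalIntegral.continuous_parametric_intervalIntegral_of_continuous'
      (f := fun x y => W c c S T x y * (τ - 1 + 2 * (max x (c z) + y) / 2)) k2 0 1
  have i1 : IntervalIntegrable (fun x => ∫ y in (0 : ℝ)..1, W c c S T x y * (x + y - 1))
      volume 0 1 := c1.intervalIntegrable 0 1
  have i2 : IntervalIntegrable (fun x => τ * dX c c S T x) volume 0 1 :=
    ((continuous_dX c c S T).intervalIntegrable 0 1).const_mul τ
  rw [← intervalIntegral.integral_const_mul, ← intervalIntegral.integral_add i1 i2]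
  refine intervalIntegral.integral_mono_on zero_le_one (i1.add i2) (c2.intervalIntegrable 0 1)
    fun x _ => ?_
  have m1 : IntervalIntegrable (fun y => W c c S T x y * (x + y - 1)) volume 0 1 :=
    (k1.comp (continuous_const.prodMk continuous_id)).intervalIntegrable 0 1
  have m2 : IntervalIntegrable (fun y => W c c S T x y) volume 0 1 :=
    (hcW.comp (continuous_const.prodMk continuous_id)).intervalIntegrable 0 1
  have m3 : IntervalIntegrable
      (fun y => W c c S T x y * (τ - 1 + 2 * (max x (c z) + y) / 2)) volume 0 1 :=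
    (k2.comp (continuous_const.prodMk continuous_id)).intervalIntegrable 0 1
  rw [dX, ← intervalIntegral.integral_const_mul, ← intervalIntegral.integral_add m1
    (m2.const_mul _)]
  refine intervalIntegral.integral_mono_on zero_le_one (m1.add (m2.const_mul _)) m3 fun y _ => ?_
  have e3 := mul_le_mul_of_nonneg_left (le_max_left x (c z)) (W_nonneg c c S T x y)
  nlinarith

theorem ox_pd_fun (τ : ℝ) : (fun t => if τ < t then (1 : ℝ) else 0) = pd τ := by
  funext t
  unfold pd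
  split_ifs <;> rfl

theorem pad_L {R : ℕ} (hR : 1 ≤ R) (l : ℕ → ZMod 3) {z p : ℕ} (hz : z ∈ TL R l)
    (_hp : R * 3 ^ 11 ≤ p) (hpM : p < Mn R) :
    hn R ^ 2 ≤ Nf (dL (tk R) (tk R) (TL R l) (TL R (fun s => - l s)) z)
      (fun t => if tk R p < t then 1 else 0) := by
  rw [ox_pd_fun]
  obtain ⟨b1, b2, b3, b4, b5⟩ := ox_b hR
  have hτ0 := ox_tk_ge hR p
  have hτ1 := ox_tk_le hR hpM.le
  have hK' : (59050 : ℝ) ≤ Kn R := by exact_mod_cast ox_K hR
  have hn' : (TL R l).card + (TL R (fun s => - l s)).card = 2 * Kn R := by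
    rw [ox_card_TL, ox_card_TL]; ring
  rw [Nf_pd (intervalIntegrable_dL _ _ _ _ _) (by linarith) (by linarith)]
  have h1 := ox_first (c := tk R) hn' (by have := ox_K hR; omega) hz (b := tk R (Mn R))
    (τ := tk R p) (by linarith) (by linarith) (ox_tk_le hR (ox_mem_TL_le hz))
  have h2 := ox_second (intervalIntegrable_dL (tk R) (tk R) (TL R l) (TL R (fun s => - l s)) z)
    (ox_dL_bound hR l (fun s => - l s) hz) (τ := tk R p) (by linarith) (by linarith)
  have h3 := ox_moment (tk R) (T := TL R l) (S := TL R (fun s => - l s))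
    (by rw [ox_card_TL, ox_card_TL]) (an R)
  have h4 := ox_sum_tk hR l
  have h5 := ox_sum_tk hR (fun s => - l s)
  have h6 := (abs_le.1 h3).1
  refine ox_pad_conc hR (ox_V hR l (fun s => - l s)) hτ0 hτ1 ?_
  push_cast at h1
  have e1 : 2 / (Kn R : ℝ) ^ 15 = 1 / (Kn R : ℝ) ^ 15 + 1 / (Kn R : ℝ) ^ 15 := by ring
  rw [e1]
  linarith

theorem pad_R {R : ℕ} (hR : 1 ≤ R) (l : ℕ → ZMod 3) {z p : ℕ} (hz : z ∈ TL R (fun s => - l s))
    (_hp : R * 3 ^ 11 ≤ p) (hpM : p < Mn R) :
    hn R ^ 2 ≤ Nf (dR (tk R) (tk R) (TL R l) (TL R (fun s => - l s)) z)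
      (fun t => if tk R p < t then 1 else 0) := by
  rw [ox_pd_fun]
  obtain ⟨b1, b2, b3, b4, b5⟩ := ox_b hR
  have hτ0 := ox_tk_ge hR p
  have hτ1 := ox_tk_le hR hpM.le
  have hK' : (59050 : ℝ) ≤ Kn R := by exact_mod_cast ox_K hR
  rw [Nf_pd (intervalIntegrable_dR _ _ _ _ _) (by linarith) (by linarith)]
  have h1 := ox_first' (c := tk R) (T := TL R l) hz (τ := tk R p)
  have h2 := ox_second (intervalIntegrable_dR (tk R) (tk R) (TL R l) (TL R (fun s => - l s)) z)
    (B := 11 / 10 * Vol (tk R) (tk R) (TL R (fun s => - l s)) (TL R l)) (fun t => by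
      rw [dR_eq]
      exact ox_dL_bound hR _ _ hz _) (τ := tk R p) (by linarith) (by linarith)
  rw [Vol_refl (tk R) (tk R) (TL R (fun s => - l s)) (TL R l)] at h2
  have h3 := ox_moment (tk R) (T := TL R l) (S := TL R (fun s => - l s))
    (by rw [ox_card_TL, ox_card_TL]) (an R)
  have h4 := ox_sum_tk hR l
  have h5 := ox_sum_tk hR (fun s => - l s)
  have h6 := (abs_le.1 h3).1
  refine ox_pad_conc hR (ox_V hR l (fun s => - l s)) hτ0 hτ1 ?_
  have e1 : 2 / (Kn R : ℝ) ^ 15 = 1 / (Kn R : ℝ) ^ 15 + 1 / (Kn R : ℝ) ^ 15 := by ring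
  have e2 : 0 ≤ tk R (Mn R) ^ 2 / (2 * (2 * (Kn R : ℝ) + 1)) := by positivity
  rw [e1]
  linarith

theorem pad_X {R : ℕ} (hR : 1 ≤ R) (l : ℕ → ZMod 3) {p : ℕ}
    (_hp : R * 3 ^ 11 ≤ p) (hpM : p < Mn R) :
    hn R ^ 2 ≤ Nf (dX (tk R) (tk R) (TL R l) (TL R (fun s => - l s)))
      (fun t => if tk R p < t then 1 else 0) := by
  rw [ox_pd_fun]
  obtain ⟨b1, b2, b3, b4, b5⟩ := ox_b hR
  have hτ0 := ox_tk_ge hR p
  have hτ1 := ox_tk_le hR hpM.le
  have hK' : (59050 : ℝ) ≤ Kn R := by exact_mod_cast ox_K hR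
  have h := ox_crude ((continuous_dX (tk R) (tk R) (TL R l)
    (TL R (fun s => - l s))).intervalIntegrable 0 1) (intervalIntegrable_pd (tk R p) 0 1)
    (dX_nonneg _ _ _ _) (pd_nonneg _) (s := 1 / 10) (by norm_num) (by norm_num)
  rw [← Vol_eq_dX, integral_pd zero_le_one (by linarith), integral_pd (by norm_num) (by linarith),
    max_eq_right (by linarith : (0 : ℝ) ≤ 1 - tk R p),
    max_eq_right (by linarith : (0 : ℝ) ≤ 1 / 10 - tk R p)] at h
  have hK3 : 1 / (Kn R : ℝ) ^ 3 ≤ 1 - tk R p := by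
    have : 1 / (Kn R : ℝ) ^ 3 ≤ 1 / 59050 := by
      refine one_div_le_one_div_of_le (by norm_num) (hK'.trans ?_)
      exact le_self_pow₀ (by linarith) (by norm_num)
    linarith
  exact ox_conc hR (ox_V3 hR _ _) hK3 (ox_X_tail hR _ _) (by linarith) h

theorem pad_Y {R : ℕ} (hR : 1 ≤ R) (l : ℕ → ZMod 3) {p : ℕ}
    (_hp : R * 3 ^ 11 ≤ p) (hpM : p < Mn R) :
    hn R ^ 2 ≤ Nf (fun t => if tk R p < t then 1 else 0)
      (dY (tk R) (tk R) (TL R l) (TL R (fun s => - l s))) := by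
  rw [ox_pd_fun]
  obtain ⟨b1, b2, b3, b4, b5⟩ := ox_b hR
  have hτ0 := ox_tk_ge hR p
  have hτ1 := ox_tk_le hR hpM.le
  have hK' : (59050 : ℝ) ≤ Kn R := by exact_mod_cast ox_K hR
  have h := ox_crude (intervalIntegrable_pd (tk R p) 0 1) ((continuous_dY (tk R) (tk R) (TL R l)
    (TL R (fun s => - l s))).intervalIntegrable 0 1)
    (pd_nonneg _) (dY_nonneg _ _ _ _) (s := 9 / 10) (by norm_num) (by norm_num)
  rw [← Vol_eq_dY, integral_pd zero_le_one (by linarith),
    max_eq_right (by linarith : (0 : ℝ) ≤ 1 - tk R p)] at h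
  have h9 : ∫ t in (9 / 10 : ℝ)..1, pd (tk R p) t ≤ 1 / 10 := by
    have h10 : ∫ t in (9 / 10 : ℝ)..1, pd (tk R p) t ≤ ∫ _t in (9 / 10 : ℝ)..1, (1 : ℝ) := by
      refine intervalIntegral.integral_mono_on (by norm_num) (intervalIntegrable_pd _ _ _)
        (continuous_const.intervalIntegrable _ _) fun t _ => ?_
      unfold pd
      split_ifs <;> norm_num
    rw [intervalIntegral.integral_const, smul_eq_mul] at h10
    linarith
  have hV := ox_V3 hR l (fun s => - l s)
  have hY := ox_Y_low hR l (fun s => - l s)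
  have hK3 : 1 / (Kn R : ℝ) ^ 3 ≤ 1 := by
    rw [div_le_one (by positivity)]
    exact one_le_pow₀ (by linarith)
  have h2 := ox_h2 hR
  have hpos : 0 < 1 / (Kn R : ℝ) ^ 3 := by positivity
  set V := Vol (tk R) (tk R) (TL R l) (TL R (fun s => - l s)) with hVdef
  have hV0 : 0 < V := lt_of_lt_of_le hpos hV
  have e1 : (1 / (Kn R : ℝ) ^ 3) ^ 2 ≤ V := by nlinarith
  have e2 : (∫ t in (9 / 10 : ℝ)..1, pd (tk R p) t) * V ≤ 1 / 10 * V :=
    mul_le_mul_of_nonneg_right h9 hV0.le
  have e3 : (1 - tk R p) * (∫ t in (0 : ℝ)..(9 / 10), dY (tk R) (tk R) (TL R l)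
      (TL R (fun s => - l s)) t) ≤ (1 - tk R p) * (1 / 1000 * V) :=
    mul_le_mul_of_nonneg_left hY (by linarith)
  nlinarith

theorem pad_pad {R : ℕ} (hR : 1 ≤ R) {p p' : ℕ} (h : p < p') (hpM : p' < Mn R) :
    hn R ^ 2 ≤ Nf (fun t => if tk R p < t then 1 else 0) (fun t => if tk R p' < t then 1 else 0) := by
  rw [ox_pd_fun, ox_pd_fun]
  obtain ⟨b1, b2, b3, b4, b5⟩ := ox_b hR
  have hτ0 := ox_tk_ge hR p
  have hτ0' := ox_tk_ge hR p'
  have hτ1' := ox_tk_le hR hpM.le
  have hh := ox_h_pos hR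
  have hpp : hn R ≤ tk R p' - tk R p := by
    have e1 : tk R p' - tk R p = hn R * ((p' : ℝ) - p) := by unfold tk; ring
    have e2 : (1 : ℝ) ≤ (p' : ℝ) - p := by
      have : ((p + 1 : ℕ) : ℝ) ≤ p' := by exact_mod_cast h
      push_cast at this
      linarith
    rw [e1]
    nlinarith
  set τ := tk R p with hτ
  set τ' := tk R p' with hτ'
  rw [Nf_pd (intervalIntegrable_pd _ _ _) (by linarith) (by linarith)]
  have i1 : ∫ s in (0 : ℝ)..1, (1 + τ' - 2 * s) * pd τ s = (τ' - τ) * (1 - τ) := by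
    have e1 : (fun s => (1 + τ' - 2 * s) * pd τ s)
        = (Set.Ioi τ).indicator fun s => 1 + τ' - 2 * s := by
      funext s
      simp only [pd, Set.indicator, Set.mem_Ioi]
      split_ifs <;> ring
    have e2 : Set.Ioc (0 : ℝ) 1 ∩ Set.Ioi τ = Set.Ioc τ 1 := by
      ext t
      simp only [Set.mem_inter_iff, Set.mem_Ioc, Set.mem_Ioi]
      constructor
      · rintro ⟨⟨_, h2⟩, h3⟩
        exact ⟨h3, h2⟩
      · rintro ⟨h2, h3⟩
        exact ⟨⟨by linarith, h3⟩, h2⟩
    rw [intervalIntegral.integral_of_le zero_le_one, e1, setIntegral_indicator measurableSet_Ioi,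
      e2, ← intervalIntegral.integral_of_le (by linarith : τ ≤ 1),
      intervalIntegral.integral_sub (continuous_const.intervalIntegrable _ _)
        (Continuous.intervalIntegrable (by fun_prop) _ _),
      intervalIntegral.integral_const, intervalIntegral.integral_const_mul, integral_id,
      smul_eq_mul]
    ring
  have i2 : ∫ s in (0 : ℝ)..1, max 0 (τ' - s) * pd τ s ≤ (τ' - τ) ^ 2 := by
    have e1 : ∫ s in (0 : ℝ)..1, max 0 (τ' - s) * pd τ s ≤
        ∫ s in (0 : ℝ)..1, (τ' - τ) * (pd τ s - pd τ' s) := by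
      refine intervalIntegral.integral_mono_on zero_le_one
        ((intervalIntegrable_pd τ 0 1).continuousOn_mul (Continuous.continuousOn (by fun_prop)))
        (((intervalIntegrable_pd τ 0 1).sub (intervalIntegrable_pd τ' 0 1)).const_mul _)
        fun s _ => ?_
      unfold pd
      split_ifs with h1 h2 h2
      · rw [max_eq_left (by linarith)]
        simp
      · rw [max_eq_right (by linarith)]
        linarith
      · exact absurd h2 (by linarith)
      · simp
    rw [intervalIntegral.integral_const_mul, intervalIntegral.integral_sub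
      (intervalIntegrable_pd τ 0 1) (intervalIntegrable_pd τ' 0 1),
      integral_pd zero_le_one (by linarith), integral_pd zero_le_one (by linarith),
      max_eq_right (by linarith : (0 : ℝ) ≤ 1 - τ),
      max_eq_right (by linarith : (0 : ℝ) ≤ 1 - τ')] at e1
    have e3 : (τ' - τ) * (1 - τ - (1 - τ')) = (τ' - τ) ^ 2 := by ring
    rw [e3] at e1
    exact e1
  rw [i1]
  have hh1 : hn R ≤ 1 / 2 := by linarith
  have e4 : hn R ^ 2 ≤ hn R * (1 / 2) := by
    rw [sq]
    exact mul_le_mul_of_nonneg_left hh1 hh.le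
  have e5 : (τ' - τ) * (1 / 2) ≤ (τ' - τ) * (1 - τ) - 2 * (τ' - τ) ^ 2 := by
    have : (τ' - τ) * (1 - τ) - 2 * (τ' - τ) ^ 2 = (τ' - τ) * (1 - τ - 2 * (τ' - τ)) := by ring
    rw [this]
    exact mul_le_mul_of_nonneg_left (by linarith) (by linarith)
  nlinarith

end Pool.Agent.T1K
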