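import Pool.Agent.T1K.Layer
import Pool.Agent.T1K.OtherX
import Pool.Agent.T1K.VolTarget

/-!
# T1: the static inequalities, assembly
-/

set_option autoImplicit false

namespace Pool.Agent.T1K

theorem h7_le_h2 {R : ℕ} (hR : 1 ≤ R) : hn R ^ 7 ≤ hn R ^ 2 := by
  have h0 := hn_pos hR
  have h1 := hP_le hR
  have hP := P_ge hR
  have h2 : hn R ≤ 1 := by
    have h3 : hn R * 1 ≤ hn R * ((Kn R : ℝ) * (Mn R : ℝ)) :=
      mul_le_mul_of_nonneg_left (by linarith) h0.le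
    have h4 : (1 : ℝ) / 10 ^ 10 ≤ 1 := by norm_num
    linarith
  exact pow_le_pow_of_le_one h0.le h2 (by norm_num)

theorem h7_le_h5 {R : ℕ} (hR : 1 ≤ R) : hn R ^ 7 ≤ hn R ^ 5 := by
  have h0 := hn_pos hR
  have h1 := hP_le hR
  have hP := P_ge hR
  have h2 : hn R ≤ 1 := by
    have h3 : hn R * 1 ≤ hn R * ((Kn R : ℝ) * (Mn R : ℝ)) :=
      mul_le_mul_of_nonneg_left (by linarith) h0.le
    have h4 : (1 : ℝ) / 10 ^ 10 ≤ 1 := by norm_num
    linarith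
  exact pow_le_pow_of_le_one h0.le h2 (by norm_num)

/-- The remaining static statements in the form of the skeleton. -/
structure StatB (R : ℕ) : Prop where
  cdf_X : ∀ l : ℕ → ZMod 3,
    ∫ t in (0 : ℝ)..(tk R (Mn R)), dX (tk R) (tk R) (TL R l) (TL R (fun s => - l s)) t
      ≤ 2 / 5 * Vol (tk R) (tk R) (TL R l) (TL R (fun s => - l s))
  cdf_L : ∀ (l : ℕ → ZMod 3) {z : ℕ}, z ∈ TL R l →
    ∫ t in (0 : ℝ)..(tk R (Mn R)), dL (tk R) (tk R) (TL R l) (TL R (fun s => - l s)) z t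
      ≤ 1 / 10 * Vol (tk R) (tk R) (TL R l) (TL R (fun s => - l s))
  cdf_L' : ∀ (l : ℕ → ZMod 3) {z : ℕ}, z ∈ TL R l →
    ∫ t in (1 - tk R (Mn R))..1, dL (tk R) (tk R) (TL R l) (TL R (fun s => - l s)) z t
      ≤ 1 / 10 * Vol (tk R) (tk R) (TL R l) (TL R (fun s => - l s))
  main_X : ∀ {q : ℕ} {l l' : ℕ → ZMod 3}, Pair R q l l' → hn R ^ 5 ≤
    Nf (dX (tk R) (tk R) (TL R l) (TL R (fun s => - l s)))
      (dX (tk R) (tk R) (TL R l') (TL R (fun s => - l' s)))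
  main_L : ∀ {q : ℕ} {l l' : ℕ → ZMod 3}, Pair R q l l' → ∀ {z : ℕ}, z ∈ TL R l → z ∈ TL R l' →
    hn R ^ 7 ≤ Nf (dL (tk R) (tk R) (TL R l) (TL R (fun s => - l s)) z)
      (dL (tk R) (tk R) (TL R l') (TL R (fun s => - l' s)) z)
  gap_LL : ∀ (l l' : ℕ → ZMod 3) {z z' : ℕ}, z ∈ TL R l → z' ∈ TL R l' → z < z' →
    hn R ^ 2 ≤ Nf (dL (tk R) (tk R) (TL R l) (TL R (fun s => - l s)) z)
      (dL (tk R) (tk R) (TL R l') (TL R (fun s => - l' s)) z')
  gap_RL : ∀ (l l' : ℕ → ZMod 3) {z z' : ℕ}, z ∈ TL R (fun s => - l s) → z' ∈ TL R l' →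
    hn R ^ 2 ≤ Nf (dR (tk R) (tk R) (TL R l) (TL R (fun s => - l s)) z)
      (dL (tk R) (tk R) (TL R l') (TL R (fun s => - l' s)) z')
  tick_L : ∀ (l : ℕ → ZMod 3) {z z' : ℕ}, z ∈ TL R l → z' ∈ TL R l → z < z' →
    hn R ^ 2 ≤ ∫ t in (0 : ℝ)..(tk R z'), dL (tk R) (tk R) (TL R l) (TL R (fun s => - l s)) z t
  tick_R : ∀ (l : ℕ → ZMod 3) {z z' : ℕ}, z ∈ TL R (fun s => - l s) → z' ∈ TL R l →
    hn R ^ 2 ≤ ∫ t in (0 : ℝ)..(tk R z'), dR (tk R) (tk R) (TL R l) (TL R (fun s => - l s)) z t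

theorem static_of {R : ℕ} (hR : 1 ≤ R) (h : StatB R) : Static R := by
  have h2 := h7_le_h2 hR
  have h5 := h7_le_h5 hR
  have hV : ∀ l : ℕ → ZMod 3, 0 < Vol (tk R) (tk R) (TL R l) (TL R (-l)) := by
    intro l
    refine lt_of_lt_of_le ?_ (Vol_target R l (-l))
    have := VT.Kn_pos R
    positivity
  have h10 : ∀ l : ℕ → ZMod 3, 1 / 10 * Vol (tk R) (tk R) (TL R l) (TL R (-l)) ≤
      2 / 5 * Vol (tk R) (tk R) (TL R l) (TL R (-l)) := fun l => by
    have := hV l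
    linarith
  exact
    { vol_pos := hV
      vol_le := fun l => Vol_le_one _ _ _ _
      cdf_X := h.cdf_X
      cdf_L := fun l z hz => (h.cdf_L l hz).trans (h10 l)
      cdf_L' := fun l z hz => (h.cdf_L' l hz).trans (h10 l)
      main_X := fun q l l' hp => h5.trans (h.main_X hp)
      main_L := fun q l l' hp z hz hz' => h.main_L hp hz hz'
      gap_LL := fun l l' z z' hz hz' hlt => h2.trans (h.gap_LL l l' hz hz' hlt)
      gap_RL := fun l l' z z' hz hz' => h2.trans (h.gap_RL l l' hz hz')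
      gap_XL := fun l l' z' hz' => h2.trans (gap_XL hR l l' hz')
      gap_XR := fun l l' z' hz' => h2.trans (gap_XR hR l l' hz')
      gap_XY := fun l l' => h2.trans (gap_XY hR l l')
      tick_L := fun l z z' hz hz' hlt => h2.trans (h.tick_L l hz hz' hlt)
      tick_R := fun l z z' hz hz' => h2.trans (h.tick_R l hz hz')
      pad_L := fun l z p hz hp hpM => h2.trans (pad_L hR l hz hp hpM)
      pad_R := fun l z p hz hp hpM => h2.trans (pad_R hR l hz hp hpM)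
      pad_X := fun l p hp hpM => h2.trans (pad_X hR l hp hpM)
      pad_Y := fun l p hp hpM => h2.trans (pad_Y hR l hp hpM)
      pad_pad := fun p p' _ hpp hpM => h2.trans (pad_pad hR hpp hpM) }

end Pool.Agent.T1K
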